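import Pool.Agent.Strip051.LC.E1.FxV

/-! # The floor near the full period: rows next to `h0` -/

namespace Pool.Agent.Strip051.LC.E1

open Pool.Agent.StripNear Pool.Agent.StripSquare Pool.Agent.Strip051 Pool.Agent.Strip051.Sweep
open Pool.Agent.Strip051.PB Pool.Agent.Strip051.PB.Fx
open Pool.Agent.Strip051.LC.Floor (En Qn fS G_nonneg G_sq)
open Pool.Agent.Strip051.LC.E0.G (om qw cc1 xi1 sg1 cc3 xi3 sg3 xiw)
open G

section

variable {r lam w z : ℝ}

theorem xi1_x2 (h0 : -1 ≤ r * z) (h1 : r * z ≤ 1 / 8) : xi1 z r = -(3 / 2) * z + r * x2 z r := by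
  have h := cc1_half' h0 h1
  have c0 : 0 ≤ cc1 z r := Real.sqrt_nonneg _
  have hn : 1 / 2 + cc1 z r ≠ 0 := by linarith
  have e : xi1 z r * (1 / 2 + cc1 z r) = -(3 / 4 * z * (2 + r * z)) := by
    unfold xi1
    field_simp
  have e2 : x2 z r * (1 / 2 + cc1 z r) = z * (3 / 2 * xi1 z r - 3 / 4 * z) := by
    unfold x2
    field_simp
  refine mul_right_cancel₀ hn ?_
  linear_combination e - r * e2 + 3 / 2 * z * h

/-- The second order part of `xi3`. -/
noncomputable def x3q (w r : ℝ) : ℝ := w * (xi3 w r / 2 - 3 / 4 * w) * (3 / 2 + cc3 w r)⁻¹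

theorem xi3_x3q (h0 : -1 ≤ r * w) (h1 : r * w ≤ 1 / 2) :
    xi3 w r = -(1 / 2) * w + r * x3q w r := by
  have h := cc3_half' h0 h1
  have c0 : 0 ≤ cc3 w r := Real.sqrt_nonneg _
  have hn : 3 / 2 + cc3 w r ≠ 0 := by linarith
  have e : xi3 w r * (3 / 2 + cc3 w r) = -(3 / 4 * w * (2 + r * w)) := by
    unfold xi3
    field_simp
  have e2 : x3q w r * (3 / 2 + cc3 w r) = w * (xi3 w r / 2 - 3 / 4 * w) := by
    unfold x3q
    field_simp
  refine mul_right_cancel₀ hn ?_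
  linear_combination e - r * e2 + 1 / 2 * w * h

end

/-! ### The growth -/

/-- An upper bound of the growth in the scales. -/
noncomputable def grR (V : Vx) (r lam w X A c : ℝ) : ℝ :=
  (match V with
    | .far => X
    | .near => X + G.mu (lam * r) * (r * c)) +
    2 * (eh (lam * r) * (lam * (max A 0 * (max lam w)⁻¹) +
      lam * r * (max (-A) 0 * (1 - lam * r)⁻¹)))

section

variable {V : Vx} {T : Tbs 7} {r lam w X A c b a xi : ℝ}

theorem gu2_win (s : Scl r lam w) :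
    gu2 (1 - lam * r) (μv V (lam * r)) 2 (1 + r * w) X A (r * c) ≤ grR V r lam w X A c := by
  have he := (eh_pos s.e0 s.e1').le
  have ht : taq 2 (1 + r * w) = r * w := by
    show 1 + r * w - 1 = r * w
    ring
  have hm : max (lam * r) (r * w) = r * max lam w := by
    rw [mul_max_of_nonneg _ _ s.r0.le, mul_comm r lam]
  have hr := s.r0.ne'
  have b0 : (0 : ℝ) ≤ max (-A) 0 := le_max_right _ _
  have x0 : 0 < 1 - lam * r := by linarith [s.e1']
  have k1 : (max (1 - lam * r) (r * w))⁻¹ ≤ (1 - lam * r)⁻¹ := inv_anti₀ x0 (le_max_left _ _)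
  have k2 : lam * r * (eh (lam * r) * (max (-A) 0 * (max (1 - lam * r) (r * w))⁻¹)) ≤
      lam * r * (eh (lam * r) * (max (-A) 0 * (1 - lam * r)⁻¹)) :=
    mul_le_mul_of_nonneg_left (mul_le_mul_of_nonneg_left (mul_le_mul_of_nonneg_left k1 b0) he)
      s.e0.le
  have e1 : lam * r * (eh (lam * r) * (max A 0 * (r * max lam w)⁻¹)) =
      lam * (eh (lam * r) * (max A 0 * (max lam w)⁻¹)) := by
    rw [mul_inv]
    field_simp
  unfold gu2 grU grR
  rw [En_eh s.e0.le s.e1'.le, ht, show 1 - (1 - lam * r) = lam * r by ring, hm]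
  simp only [abs_zero, mul_zero, add_zero]
  cases V
  · show X + 0 * _ + _ ≤ _
    nlinarith
  · show X + G.mu (lam * r) * _ + _ ≤ _
    nlinarith

/-- The row of a narrow pair. -/
theorem near_win (s : Scl r lam w) {j : Fin 8} {F : ℝ}
    (hu : usN V T (lam * r) j 2 (1 + r * w) = 1 / 2 - 1 / 2 + r * F)
    (hX : crv T.D.P j 2 (1 + r * w) = 1 / 2 + r * xi)
    (hA : T.R V j 2 (1 + r * w) (1 - lam * r) = A)
    (hL : T.RL j 2 (1 + r * w) (1 - lam * r) = r * c)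
    (h : 0 ≤ xi + b * (1 / 2 + r * xi) - F - 11 / 20 * (lam * max (grR V r lam w (1 / 2 + r * xi) A
      c) 0)) :
    NNr (1 - lam * r) (μv V (lam * r)) (7 / 20 * (lam * r)) (1 / 5 * (lam * r)) 2 (1 + r * w)
      (crv T.D.P j 2 (1 + r * w)) (T.R V j 2 (1 + r * w) (1 - lam * r))
      (T.RL j 2 (1 + r * w) (1 - lam * r)) (1 + r * b) := by
  have g := gu2_win (V := V) (X := 1 / 2 + r * xi) (A := A) (c := c) s
  have g' : max (gu2 (1 - lam * r) (μv V (lam * r)) 2 (1 + r * w) (1 / 2 + r * xi) A (r * c)) 0 ≤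
      max (grR V r lam w (1 / 2 + r * xi) A c) 0 := max_le_max_right 0 g
  have g2 := mul_le_mul_of_nonneg_left g' s.e0.le
  have h2 := mul_nonneg s.r0.le h
  unfold NNr
  unfold usN at hu
  rw [hu, hX, hA, hL]
  nlinarith

/-- The row of a wide pair. -/
theorem far_win (s : Scl r lam w) {j : Fin 8} {F be : ℝ}
    (hu : usN V T (lam * r) j 2 (1 + r * w) = 3 / 2 - 1 / 2 + r * F)
    (hX : crv T.D.P j 2 (1 + r * w) = 3 / 2 + r * xi)
    (hg : 0 ≤ gl2 (1 - lam * r) (μv V (lam * r)) 2 (1 + r * w) (crv T.D.P j 2 (1 + r * w))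
      (T.R V j 2 (1 + r * w) (1 - lam * r)) (T.RL j 2 (1 + r * w) (1 - lam * r)))
    (hD : 1 + 3 / 2 * (lam * r) ≤ crv T.D.P j 2 (1 + r * w)) (hb : be ≤ 1 + r * b)
    (h : 0 ≤ F - xi + 3 / 2 * lam - b * (1 / 2 + r * (xi - 3 / 2 * lam))) :
    NFar (1 - lam * r) (μv V (lam * r)) (7 / 20 * (lam * r)) (1 / 5 * (lam * r))
      (1 + 3 / 2 * (lam * r)) 2 (1 + r * w)
      (crv T.D.P j 2 (1 + r * w)) (T.R V j 2 (1 + r * w) (1 - lam * r))
      (T.RL j 2 (1 + r * w) (1 - lam * r)) be := by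
  have h2 := mul_nonneg s.r0.le h
  have h3 := mul_le_mul_of_nonneg_right hb (sub_nonneg.2 hD)
  unfold NFar
  rw [min_eq_right hg]
  unfold usN at hu
  rw [hu]
  rw [hX] at h3 ⊢
  nlinarith

/-- The row of a steep pair on the unit circle. -/
theorem high_win (s : Scl r lam w) {F : ℝ}
    (hu : usN V T (lam * r) 0 2 (1 + r * w) = 1 / 2 - 1 / 2 + r * F)
    (hX : crv T.D.P 0 2 (1 + r * w) = 1 / 2 + r * xi)
    (hg : 0 ≤ gl2 (1 - lam * r) (μv V (lam * r)) 2 (1 + r * w) (crv T.D.P 0 2 (1 + r * w))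
      (T.R V 0 2 (1 + r * w) (1 - lam * r)) (T.RL 0 2 (1 + r * w) (1 - lam * r)))
    (hx : xi ≤ 0) (hb : b ≤ a) (h : 0 ≤ F + b * (3 / 4 * lam - xi)) :
    NHi T.D (1 - lam * r) (μv V (lam * r)) (T.R V) T.RL (7 / 20 * (lam * r)) (1 / 5 * (lam * r))
      (1 + 3 / 2 * (lam * r)) 0 2 (1 + r * w) a := by
  have h3 := mul_le_mul_of_nonneg_right hb (by linarith [s.l0] : 0 ≤ 3 / 4 * lam - xi)
  have h2 := mul_nonneg s.r0.le (by linarith : 0 ≤ F + a * (3 / 4 * lam - xi))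
  unfold NHi
  rw [min_eq_right hg]
  unfold usN at hu
  rw [hu, hX]
  nlinarith

end

/-! ### Bounds of the arguments of the kernels -/

section

variable {r lam w : ℝ}

theorem Scl.b0 (s : Scl r lam w) : w ≤ 21 / 10 := by linarith [s.w1]

theorem Scl.bd (s : Scl r lam w) : -sg1 (-w) r ≤ 21 / 10 := by
  linarith [sg1_dn s.r0 s.w0 s.v1, s.w1]

theorem Scl.b1 (s : Scl r lam w) : sg1 w r ≤ 21 / 10 := sg1_up s.r0 s.w0 s.v1 s.w1

theorem Scl.b3 (s : Scl r lam w) : sg3 w r ≤ 21 / 10 := sg3_up s.r0 s.w0 s.v1 s.w1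

theorem sqrt_34 : Real.sqrt ((3 : ℕ) / (4 : ℕ)) = Real.sqrt 3 / 2 := by
  rw [show (((3 : ℕ) : ℝ) / (4 : ℕ)) = 3 * (1 / 2) ^ 2 by norm_num,
    Real.sqrt_mul (by norm_num), Real.sqrt_sq (by norm_num)]
  ring

theorem hg_ite (x : ℝ) : (if x ≤ 0 then ((0 : ℕ) : ℝ) else x) = hg x := by
  unfold hg
  split_ifs with h
  · rw [max_eq_right h]
    norm_num
  · rw [max_eq_left (not_le.1 h).le]

end

end Pool.Agent.Strip051.LC.E1
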