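import Pool.Agent.Strip051.LC.E1.FxX

/-! # The floor near the full period: the kernels in the first pieces -/

namespace Pool.Agent.Strip051.LC.E1

open Pool.Agent.StripNear Pool.Agent.StripSquare Pool.Agent.Strip051 Pool.Agent.Strip051.Sweep
open Pool.Agent.Strip051.PB Pool.Agent.Strip051.PB.Fx
open Pool.Agent.Strip051.LC.Floor (En Qn fS G_nonneg G_sq)
open Pool.Agent.Strip051.LC.E0.G (om qw cc1 xi1 sg1 cc3 xi3 sg3 xiw)
open G

section

variable {r lam w t k0 v m p f f' E : ℝ}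

theorem hg_nnY {x : ℝ} (h : 0 ≤ x) : hg x = x := max_eq_left h

/-- The unit kernels are linear in the first piece. -/
theorem uR_lin (h0 : 0 < r) (h1 : r ≤ 1 / 36) (ht : t ≤ 21 / 10) (hl : 0 ≤ lam) (h : t ≤ lam) :
    uR k0 v m p f f' E r lam t = (v - 2 * k0) * (Real.sqrt 3 / 2) * t := by
  unfold uR
  rw [hg_neg (by linarith : t - lam ≤ 0), hg_neg (by linarith : t - 8 / 5 * lam ≤ 0),
    hg_neg (by linarith : t - 11 / 5 * lam ≤ 0), hg_neg (by linarith : t - 5 / 2 * lam ≤ 0),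
    hg_fix h0 h1 ht (a := 1) (b := 16) (by norm_num) (by norm_num),
    hg_fix h0 h1 ht (a := 1) (b := 10) (by norm_num) (by norm_num)]
  unfold u1
  ring

/-- The unit kernels next to the pin. -/
theorem uR_pin (h0 : 0 < r) (h1 : r ≤ 1 / 36) (ht : t ≤ 21 / 10) (hl : 0 ≤ lam)
    (h : 8 / 5 * lam ≤ t) (h' : t ≤ 11 / 5 * lam) :
    uR k0 v m p f f' E r lam t =
      lam * p + (m - 2 * k0) * (Real.sqrt 3 / 2) * (t - lam * (1 + E)) := by
  unfold uR
  rw [hg_nnY (by linarith : 0 ≤ t - lam), hg_nnY (by linarith : 0 ≤ t - 8 / 5 * lam),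
    hg_neg (by linarith : t - 11 / 5 * lam ≤ 0), hg_neg (by linarith : t - 5 / 2 * lam ≤ 0),
    hg_fix h0 h1 ht (a := 1) (b := 16) (by norm_num) (by norm_num),
    hg_fix h0 h1 ht (a := 1) (b := 10) (by norm_num) (by norm_num)]
  unfold u2 u1 u3
  ring

theorem t_pin_up (s : Scl r lam w) (h : 10 / 11 * w ≤ lam) : -sg1 (-w) r ≤ 11 / 5 * lam := by
  linarith [sg1_dn s.r0 s.w0 s.v1]

theorem t_pin_dn (s : Scl r lam w) (h : 0 ≤ w) (h' : lam ≤ 20 / 17 * w) :
    8 / 5 * lam ≤ -sg1 (-w) r := by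
  have c0 := cc1_ge s
  have c1 : cc1 (-w) r ≤ 1 / 2 + 3 / 2 * (r * w) := by
    unfold cc1
    refine (Real.sqrt_le_left (by have := s.v0; linarith)).2 ?_
    nlinarith [s.v0]
  have v1 := s.v1
  have v0 := s.v0
  have hx : 14 / 10 ≤ xh w r := by
    unfold xh
    rw [← div_eq_mul_inv, le_div_iff₀ (by linarith)]
    linarith
  rw [sg1_xh]
  nlinarith

theorem dQ_nn (s : Scl r lam w) : 0 ≤ dQ r w := by
  have h1 := xi1_le_dn s.r0 s.w0 s.v1
  have h2 := mul_le_mul_of_nonneg_left h1 s.r0.le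
  have v0 := s.v0
  have v1 := s.v1
  have h3 : (17 : ℝ) / 10 ≤ Real.sqrt (3 - 3 / 4 * (r * w) ^ 2) := by
    refine Real.le_sqrt_of_sq_le ?_
    nlinarith
  unfold dQ
  nlinarith

theorem xiq_nn (s : Scl r lam w) : 0 ≤ xiq r lam w := by
  have h1 := xi1_dn_nn s.w0 s.v1
  have h2 := dQ_nn s
  have h3 := s.l0
  unfold xiq
  positivity

/-! ### The flat pairs next to the height `0` -/

/-- A lower bound of the growth. -/
noncomputable def glW (V : Vx) (r lam X A L : ℝ) : ℝ :=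
  (match V with
    | .far => X
    | .near => X + G.mu (lam * r) * L) -
    2 * (eh (lam * r) * (lam * r * (max A 0 * (1 - lam * r)⁻¹) + max (-A) 0))

theorem ehR_eh (e : ℝ) : ehR (1 - e) = eh e := by
  unfold ehR cpR eh ig
  rw [G_gs]
  ring

variable {V : Vx} {T : Tbs 7} {X A L g : ℝ} {q : ℕ} {y : ℝ}

theorem gl2_win (s : Scl r lam w) :
    glW V r lam X A L ≤ gl2 (1 - lam * r) (μv V (lam * r)) q y X A L := by
  have h := gl2_ge (μ := μv V (lam * r)) (y := y) (X := X) (A := A) (L := L) (q := q)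
    (by linarith [s.e1'] : 0 < 1 - lam * r) (by linarith [s.e0])
  refine le_trans (le_of_eq ?_) h
  unfold glW glE
  rw [ehR_eh]
  cases V
  · unfold μv
    ring
  · unfold μv
    ring

/-- The row of an almost horizontal pair. -/
theorem flat_win (s : Scl r lam w) {j : Fin 8} {F : ℝ}
    (hu : usN V T (lam * r) j 0 (r * w) = r * F)
    (hX : crv T.D.P j 0 (r * w) = X) (hA : T.R V j 0 (r * w) (1 - lam * r) = A)
    (hL : T.RL j 0 (r * w) (1 - lam * r) = L)
    (h : 0 ≤ F + 1 / 5 * (lam * glW V r lam X A L)) :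
    0 ≤ us2 (1 - lam * r) (μv V (lam * r)) 0 (r * w) (crv T.D.P j 0 (r * w))
        (T.R V j 0 (r * w) (1 - lam * r)) (T.RL j 0 (r * w) (1 - lam * r)) +
      1 / 5 * (lam * r) * gl2 (1 - lam * r) (μv V (lam * r)) 0 (r * w) (crv T.D.P j 0 (r * w))
        (T.R V j 0 (r * w) (1 - lam * r)) (T.RL j 0 (r * w) (1 - lam * r)) := by
  have g := gl2_win (V := V) (X := X) (A := A) (L := L) (q := 0) (y := r * w) s
  have g2 := mul_le_mul_of_nonneg_left g s.e0.le
  have h2 := mul_nonneg s.r0.le h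
  unfold usN at hu
  rw [hu, hX, hA, hL]
  nlinarith

/-- The values at the curve `1.15`. -/
theorem Nod.val50 (h : Nod V T (lam * r)) (s : Scl r lam w) :
    crv T.D.P 5 0 (r * w) = 1 + r * xi1 (-w) r + 3 / 20 * dQ r w ∧
      T.R V 5 0 (r * w) (1 - lam * r) = v5A V r lam w ∧
      T.RL 5 0 (r * w) (1 - lam * r) =
        LAM (lam * r) * (1 + r * xi1 (-w) r + 3 / 20 * dQ r w - 1) + r * c5 r lam w := by
  have v := h.n50 _ s.v0 s.v1'
  have q := Q0_h (lam := lam) (w := w) s.r0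
  have hX : crv T.D.P 5 0 (r * w) = 1 + r * xi1 (-w) r + 3 / 20 * dQ r w := by
    rw [h.x50 s.v0 s.v1', xi1n_h, dQ_h]
    ring
  refine ⟨hX, ?_, ?_⟩
  · have k := v.K
    unfold G.n5 at k
    rw [q] at k
    cases V
    · rw [show T.R .far 5 0 (r * w) (1 - lam * r) = 1 + (r * (Q0 r lam w).k -
        (1 + r * (Q0 r lam w).k) * ((3 / 20 - 11 / 5 * (lam * r)) / (1 - 11 / 5 * (lam * r)))) from k]
      unfold v5A rho5
      rw [div_eq_mul_inv]
      ring
    · rw [show T.R .near 5 0 (r * w) (1 - lam * r) = be (lam * r) * 1 + nk (lam * r)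
        (r * (Q0 r lam w).k - (1 + r * (Q0 r lam w).k) *
          ((3 / 20 - 11 / 5 * (lam * r)) / (1 - 11 / 5 * (lam * r))))
        (r * (Q0 r lam w).b - (B0 (lam * r) + r * (Q0 r lam w).b) *
          ((3 / 20 - 11 / 5 * (lam * r)) / (1 - 11 / 5 * (lam * r)))) from k]
      unfold v5A rho5 nk be
      rw [div_eq_mul_inv]
      ring
  · have l := v.L
    rw [l, hX]
    show _ + (c5 1 (lam * r) (r * w) / 1 + 0) = _
    rw [c5_h s.r0]
    ring

end

end Pool.Agent.Strip051.LC.E1
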