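import Pool.Agent.Strip051.LC.E1.Nod

/-! # Rests near the full period: the positions of the nodes -/

namespace Pool.Agent.Strip051.LC.E1

open Pool.Agent.StripNear Pool.Agent.StripSquare Pool.Agent.Strip051 Pool.Agent.Strip051.Sweep
open Pool.Agent.Strip051.PB
open Pool.Agent.Strip051.LC.E0.G (om qw cc1 xi1 sg1 cc3 xi3 sg3 xiw dwl dwu)
open G

/-! ### Square roots -/

theorem c1n_om {y : ℝ} (h : y ^ 2 ≤ 1) : c1n y = 1 - om y 1 := by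
  have h1 : (0 : ℝ) ≤ 1 - 3 / 4 * y ^ 2 := by linarith
  have e : qw y 1 = c1n y := by
    unfold qw c1n
    congr 1
    ring
  unfold om
  rw [e]
  have h2 : c1n y ^ 2 = 1 - 3 / 4 * y ^ 2 := Real.sq_sqrt h1
  have h3 : 0 ≤ c1n y := Real.sqrt_nonneg _
  have h4 : 1 + c1n y ≠ 0 := by linarith
  field_simp
  linarith

theorem cc1_half {z : ℝ} (h0 : -1 ≤ z) (h1 : z ≤ 1 / 8) : cc1 z 1 = 1 / 2 + xi1 z 1 := by
  have h2 : (0 : ℝ) ≤ 1 - 3 / 4 * (1 + 1 * z) ^ 2 := by nlinarith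
  have h3 : cc1 z 1 ^ 2 = 1 - 3 / 4 * (1 + 1 * z) ^ 2 := Real.sq_sqrt h2
  have h4 : 0 ≤ cc1 z 1 := Real.sqrt_nonneg _
  have h5 : 1 / 2 + cc1 z 1 ≠ 0 := by linarith
  unfold xi1
  field_simp
  nlinarith

theorem cc3_half {z : ℝ} (h0 : -1 ≤ z) (h1 : z ≤ 1 / 2) : cc3 z 1 = 3 / 2 + xi3 z 1 := by
  have h2 : (0 : ℝ) ≤ 3 - 3 / 4 * (1 + 1 * z) ^ 2 := by nlinarith
  have h3 : cc3 z 1 ^ 2 = 3 - 3 / 4 * (1 + 1 * z) ^ 2 := Real.sq_sqrt h2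
  have h4 : 0 ≤ cc3 z 1 := Real.sqrt_nonneg _
  have h5 : 3 / 2 + cc3 z 1 ≠ 0 := by linarith
  unfold xi3
  field_simp
  nlinarith

theorem c1n_cc1 (z : ℝ) : c1n (1 + z) = cc1 z 1 := by
  unfold c1n cc1
  rw [one_mul]

theorem c3n_cc3 (z : ℝ) : c3n (1 + z) = cc3 z 1 := by
  unfold c3n cc3
  rw [one_mul]

theorem swn_cc1 (y : ℝ) : swn y = cc1 (-y) 1 := by
  unfold swn cc1
  congr 1
  ring

theorem swn_c1n (z : ℝ) : swn (1 + z) = c1n z := by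
  unfold swn c1n
  rw [add_sub_cancel_left]

theorem swn_two (u : ℝ) : swn (2 + u) = cc1 u 1 := by
  unfold swn cc1
  congr 1
  ring

theorem c3n_two (u : ℝ) : c3n (2 + u) = x3v u 1 := by
  unfold c3n x3v
  congr 1
  ring

theorem wn_false (y : ℝ) {q : ℕ} (h : q < 2) : Wn (decide (2 ≤ q)) y = swn y + 1 / 2 := by
  have : decide (2 ≤ q) = false := by
    rw [decide_eq_false_iff_not]
    omega
  unfold Wn
  rw [this]
  rfl

theorem wn_true (y : ℝ) {q : ℕ} (h : 2 ≤ q) : Wn (decide (2 ≤ q)) y = swn y - 1 / 2 := by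
  have : decide (2 ≤ q) = true := by
    rw [decide_eq_true_iff]
    omega
  unfold Wn
  rw [this]
  show swn y + -(1 / 2) = _
  ring

/-! ### The windows -/

section

variable {y z : ℝ}

theorem inq0 (h0 : 0 ≤ y) (h1 : y < 1 / 16) : InQ 0 y := ⟨h0, by linarith⟩
theorem inq1 (h0 : -(1 / 16) < z) (h1 : z < 0) : InQ 1 (1 + z) := ⟨by linarith, by linarith⟩
theorem inq2 (h0 : 0 ≤ z) (h1 : z < 1 / 16) : InQ 2 (1 + z) := ⟨by linarith, by linarith⟩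
theorem inq3 (h0 : -(1 / 16) < z) (h1 : z ≤ 0) : InQ 3 (2 + z) := ⟨by linarith, by linarith⟩

end

section

variable {V : Vx} {T : Tbs 7} {e y z : ℝ}

theorem Nod.x00 (h : Nod V T e) (h0 : 0 ≤ y) (h1 : y < 1 / 16) :
    crv T.D.P 0 0 y = 1 + -om y 1 := by
  rw [h.cv0, c1n_om (by nlinarith)]
  ring

theorem Nod.x30 (h : Nod V T e) (h0 : 0 ≤ y) (h1 : y < 1 / 16) :
    crv T.D.P 3 0 y = 1 + xi1 (-y) 1 := by
  rw [h.cv3, wn_false _ (by norm_num), swn_cc1, cc1_half (by linarith) (by linarith)]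
  ring

theorem Nod.dQ_eq (h0 : 0 ≤ y) (h1 : y < 1 / 16) :
    dQ 1 y = c3n y - (1 + xi1 (-y) 1) := by
  unfold dQ c3n
  rw [one_mul, one_mul]
  ring

theorem Nod.x40 (h : Nod V T e) (h0 : 0 ≤ y) (h1 : y < 1 / 16) :
    crv T.D.P 4 0 y = 1 + xiq 1 e y := by
  have h2 := h.x30 h0 h1
  rw [h.cv3] at h2
  rw [h.cv4, h2]
  unfold xiq
  rw [Nod.dQ_eq h0 h1]
  ring

theorem Nod.x50 (h : Nod V T e) (h0 : 0 ≤ y) (h1 : y < 1 / 16) :
    crv T.D.P 5 0 y = 1 + (xi1 (-y) 1 + 3 / 20 * dQ 1 y) := by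
  have h2 := h.x30 h0 h1
  rw [h.cv3] at h2
  rw [h.cv5, h2, Nod.dQ_eq h0 h1]
  ring

theorem Nod.x01 (h : Nod V T e) (q : ℕ) (h0 : -(1 / 16) < z) (h1 : z < 1 / 16) :
    crv T.D.P 0 q (1 + z) = 1 / 2 + xi1 z 1 := by
  rw [h.cv0, c1n_cc1, cc1_half (by linarith) (by linarith)]

theorem Nod.x31 (h : Nod V T e) (h0 : -(1 / 16) < z) (h1 : z < 1 / 16) :
    crv T.D.P 3 1 (1 + z) = 3 / 2 + xiw z 1 := by
  rw [h.cv3, wn_false _ (by norm_num), swn_c1n, c1n_om (by nlinarith)]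
  unfold xiw
  ring

theorem Nod.x32 (h : Nod V T e) (h0 : -(1 / 16) < z) (h1 : z < 1 / 16) :
    crv T.D.P 3 2 (1 + z) = 1 / 2 + xiw z 1 := by
  rw [h.cv3, wn_true _ (by norm_num), swn_c1n, c1n_om (by nlinarith)]
  unfold xiw
  ring

theorem Nod.x71 (h : Nod V T e) (q : ℕ) (h0 : -(1 / 16) < z) (h1 : z < 1 / 16) :
    crv T.D.P 7 q (1 + z) = 3 / 2 + xi3 z 1 := by
  rw [h.cv7, c3n_cc3, cc3_half (by linarith) (by linarith)]

theorem Nod.x11 (h : Nod V T e) (h0 : -(1 / 16) < z) (h1 : z < 1 / 16) :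
    crv T.D.P 1 1 (1 + z) = xa z 1 := by
  have h2 := h.x01 1 h0 h1
  have h3 := h.x31 h0 h1
  rw [h.cv0] at h2
  rw [h.cv3] at h3
  rw [h.cv1, h2, h3]
  unfold xa dwl
  ring

theorem Nod.x21 (h : Nod V T e) (h0 : -(1 / 16) < z) (h1 : z < 1 / 16) :
    crv T.D.P 2 1 (1 + z) = xc z 1 := by
  have h2 := h.x01 1 h0 h1
  have h3 := h.x31 h0 h1
  rw [h.cv0] at h2
  rw [h.cv3] at h3
  rw [h.cv2, h2, h3]
  unfold xc dwl
  ring

theorem Nod.x52 (h : Nod V T e) (h0 : -(1 / 16) < z) (h1 : z < 1 / 16) :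
    crv T.D.P 5 2 (1 + z) = xb z 1 := by
  have h2 := h.x71 2 h0 h1
  have h3 := h.x32 h0 h1
  rw [h.cv7] at h2
  rw [h.cv3] at h3
  rw [h.cv5, h2, h3]
  unfold xb dwu
  ring

theorem Nod.x62 (h : Nod V T e) (h0 : -(1 / 16) < z) (h1 : z < 1 / 16) :
    crv T.D.P 6 2 (1 + z) = xd z 1 := by
  have h2 := h.x71 2 h0 h1
  have h3 := h.x32 h0 h1
  rw [h.cv7] at h2
  rw [h.cv3] at h3
  rw [h.cv6, h2, h3]
  unfold xd dwu
  ring

theorem Nod.x33 (h : Nod V T e) (h0 : -(1 / 16) < z) (h1 : z ≤ 0) :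
    crv T.D.P 3 3 (2 + z) = xi1 z 1 := by
  rw [h.cv3, wn_true _ (by norm_num), swn_two, cc1_half (by linarith) (by linarith)]
  ring

theorem Nod.x73 (h : Nod V T e) : crv T.D.P 7 3 (2 + z) = x3v z 1 := by
  rw [h.cv7, c3n_two]

theorem Nod.x53 (h : Nod V T e) (h0 : -(1 / 16) < z) (h1 : z ≤ 0) :
    crv T.D.P 5 3 (2 + z) = xv5 z 1 := by
  have h3 := h.x33 h0 h1
  rw [h.cv3] at h3
  rw [h.cv5, h3, c3n_two]
  unfold xv5
  ring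

theorem Nod.x63 (h : Nod V T e) (h0 : -(1 / 16) < z) (h1 : z ≤ 0) :
    crv T.D.P 6 3 (2 + z) = xv6 z 1 := by
  have h3 := h.x33 h0 h1
  rw [h.cv3] at h3
  rw [h.cv6, h3, c3n_two]
  unfold xv6
  ring

theorem Nod.x03 (h : Nod V T e) (q : ℕ) (h0 : -(1 / 16) < z) :
    crv T.D.P 0 q (2 + z) = 0 := by
  rw [h.cv0]
  unfold c1n
  refine Real.sqrt_eq_zero_of_nonpos ?_
  nlinarith

end

end Pool.Agent.Strip051.LC.E1
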