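import Pool.Agent.Strip051.LC.E1.RowsA
import Pool.Agent.Strip051.LC.E1.V3.Fin

/-! # Rests near the full period: the rows of the near vertex -/

namespace Pool.Agent.Strip051.LC.E1

/-- All rows of the near vertex. -/
theorem rowsN : Rows .near := rowsN_of vu_3_near

end Pool.Agent.Strip051.LC.E1
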