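import Pool.Agent.Strip051.LC.E1.SloD

/-! # Rests near the full period: the slopes in the windows -/

namespace Pool.Agent.Strip051.LC.E1

open Pool.Agent.StripNear Pool.Agent.StripSquare Pool.Agent.Strip051 Pool.Agent.Strip051.Sweep
open Pool.Agent.Strip051.PB
open Pool.Agent.Strip051.LC.E0.G (om qw cc1 xi1 sg1 cc3 xi3 sg3 xiw dwl dwu)
open G

section

variable {V : Vx} {T : Tbs 7} {e y a b k m M : ℝ}

theorem Lp.of_zn (h : Zn V T (1 - e) y a b k m M) : Lp V T e y a b k m M := by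
  refine ⟨fun X X' h1 h2 h3 => ?_, fun X X' h1 h2 h3 => ?_, fun X X' h1 h2 h3 => ?_⟩
  · obtain ⟨p1, p2⟩ := h.K X X' h1 h2 h3
    rw [abs_le]
    constructor <;> linarith
  · exact (h.L X X' h1 h2 h3).1
  · exact (h.L X X' h1 h2 h3).2

theorem cnd_far (C : Cs e) {c kB l h k2 lo2 hi2 s : ℝ} (s1 : LAM e + h - lo2 ≤ s)
    (s2 : hi2 - (LAM e + l) ≤ s) (l1 : 0 ≤ LAM e + l) (l2 : 0 ≤ lo2) (hc : 0 ≤ c) (hk : 0 ≤ k2)
    (hs : c + 1 / 40 * k2 + s / 2 ≤ 15 / 32) :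
    Cnd .far e (kVx .far (c / e) kB) (LAM e + l) (LAM e + h) k2 lo2 hi2 s := by
  refine ⟨s1, s2, l1, l2, ?_⟩
  simp only [kVx]
  have he := C.e0
  have he1 := C.e1
  have h0 := C.eh0
  have h1 := C.eh1
  have e1 : e * eh e * (c / e + k2) = eh e * c + e * eh e * k2 := by
    have := he.ne'
    field_simp
  have a1 : eh e * c ≤ 1 * c := mul_le_mul_of_nonneg_right h1 hc
  have a2 : e * eh e ≤ 1 / 40 * 1 := mul_le_mul he1 h1 (by linarith) (by norm_num)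
  have a3 := mul_le_mul_of_nonneg_right a2 hk
  rw [e1]
  linarith

theorem cnd_near (C : Cs e) {c cB l h k2 lo2 hi2 s : ℝ} (s1 : LAM e + h - lo2 ≤ s)
    (s2 : hi2 - (LAM e + l) ≤ s) (l1 : 0 ≤ LAM e + l) (l2 : 0 ≤ lo2) (hc : 0 ≤ c) (hcB : 0 ≤ cB)
    (hk : 0 ≤ k2) (hs0 : 0 ≤ s) (hl : -(1 / 2) ≤ l)
    (hs : 5 / 4 * c + 1 / 4 * cB + 1 / 40 * k2 + 49 / 128 * s ≤
      15 / 32 + 12 / 49 * (15 / 32) * (23 / 25 + l)) :
    Cnd .near e (kVx .near (c / e) (cB / e)) (LAM e + l) (LAM e + h) k2 lo2 hi2 s := by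
  refine ⟨s1, s2, l1, l2, ?_⟩
  simp only [kVx]
  have he := C.e0
  have he1 := C.e1
  have h0 := C.eh0
  have h1 := C.eh1
  have L0 := C.L0
  have m0 := C.m0
  have m1 := C.m1
  have e1 : e * eh e * (5 / 4 * (c / e) + 1 / 4 * (cB / e) + k2) =
      eh e * (5 / 4 * c + 1 / 4 * cB) + e * eh e * k2 := by
    have := he.ne'
    field_simp
  have a1 : eh e * (5 / 4 * c + 1 / 4 * cB) ≤ 1 * (5 / 4 * c + 1 / 4 * cB) :=
    mul_le_mul_of_nonneg_right h1 (by linarith)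
  have a2 : e * eh e ≤ 1 / 40 * 1 := mul_le_mul he1 h1 (by linarith) (by norm_num)
  have a3 := mul_le_mul_of_nonneg_right a2 hk
  have a4 : G.mu e * (49 / 32) * s ≤ 1 / 4 * (49 / 32) * s :=
    mul_le_mul_of_nonneg_right (by linarith) hs0
  have a5 : 12 / 49 * (15 / 32) * (23 / 25 + l) ≤ G.mu e * (15 / 32) * (LAM e + l) :=
    mul_le_mul (by linarith) (by linarith) (by linarith) (by linarith)
  rw [e1]
  linarith

/-- The zones next to `h0`. -/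
theorem lp_rt {A W B : Sp} {z k m M : ℝ} (h0 : -(1 / 16) < z) (h1 : z < 1 / 16)
    (Z : Z1 V T (1 - e) (1 + z) A W B) (hA : z < 0 → A.k ≤ k ∧ m ≤ A.m ∧ A.M ≤ M)
    (hW : 0 ≤ z → W.k ≤ k ∧ m ≤ W.m ∧ W.M ≤ M) (hB : 0 ≤ z → B.k ≤ k ∧ m ≤ B.m ∧ B.M ≤ M) :
    Lp V T e (1 + z) (c1n (1 + z)) (rt z) k m M := by
  have e1 : (1 : ℝ) + 1 * z = 1 + z := by ring
  unfold rt
  rcases lt_or_ge z 0 with h | h
  · rw [if_pos h]
    have p := pos_a (z := z) (r := 1) (by linarith) (by linarith)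
    rw [e1] at p
    rw [p]
    obtain ⟨a1, a2, a3⟩ := hA h
    exact Lp.of_zn ((Z.A (by linarith)).mono a1 a2 a3)
  · rw [if_neg (not_lt.2 h)]
    have p := pos_b (z := z) (r := 1) (by linarith) (by linarith)
    rw [e1] at p
    rw [p]
    obtain ⟨a1, a2, a3⟩ := hW h
    obtain ⟨b1, b2, b3⟩ := hB h
    exact Lp.of_zn (((Z.W (by linarith)).mono a1 a2 a3).glue ((Z.B (by linarith)).mono b1 b2 b3))

/-- The slopes in the windows, far vertex. -/
theorem slo_far {A W B : Sp} (N : Nod .far T e)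
    (Z : ∀ y, 15 / 16 < y → y < 17 / 16 → Z1 .far T (1 - e) y A W B)
    (hA : A.k ≤ 1 ∧ LAM e - 3 / 5 ≤ A.m ∧ A.M ≤ LAM e + 3 / 10)
    (hW : W.k ≤ 33 / 10 ∧ LAM e - 1 / 2 ≤ W.m ∧ W.M ≤ LAM e + 2 / 5)
    (hB : B.k ≤ 33 / 10 ∧ LAM e - 1 / 2 ≤ B.m ∧ B.M ≤ LAM e + 2 / 5) :
    Slo .far T e (kVx .far (17 / 200 / e) (3 / 20 / e)) (LAM e + -(3 / 20)) (LAM e + 1 / 40) := by
  have C := Cs.of N.e0 N.e1
  have L0 := C.L0
  refine ⟨fun y h0 h1 => lpH' N C h0 h1, fun z h0 h1 => ?_⟩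
  rcases lt_or_ge z 0 with h | h
  · exact ⟨1, LAM e - 3 / 5, LAM e + 3 / 10, 5 / 8,
      lp_rt h0 h1 (Z _ (by linarith) (by linarith)) (fun _ => hA) (fun h' => absurd h (not_lt.2 h'))
        (fun h' => absurd h (not_lt.2 h')),
      cnd_far C (by linarith) (by linarith) (by linarith) (by linarith) (by norm_num) (by norm_num)
        (by norm_num)⟩
  · exact ⟨33 / 10, LAM e - 1 / 2, LAM e + 2 / 5, 11 / 20,
      lp_rt h0 h1 (Z _ (by linarith) (by linarith)) (fun h' => absurd h' (not_lt.2 h))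
        (fun _ => hW) (fun _ => hB),
      cnd_far C (by linarith) (by linarith) (by linarith) (by linarith) (by norm_num) (by norm_num)
        (by norm_num)⟩

/-- The slopes in the windows, near vertex. -/
theorem slo_near {A W B : Sp} (N : Nod .near T e)
    (Z : ∀ y, 15 / 16 < y → y < 17 / 16 → Z1 .near T (1 - e) y A W B)
    (hA : A.k ≤ 2 ∧ LAM e - 3 / 5 ≤ A.m ∧ A.M ≤ LAM e + 3 / 10)
    (hW : W.k ≤ 5 ∧ LAM e - 1 / 2 ≤ W.m ∧ W.M ≤ LAM e + 2 / 5)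
    (hB : B.k ≤ 5 ∧ LAM e - 1 / 2 ≤ B.m ∧ B.M ≤ LAM e + 2 / 5) :
    Slo .near T e (kVx .near (17 / 200 / e) (3 / 20 / e)) (LAM e + -(3 / 20)) (LAM e + 1 / 40) := by
  have C := Cs.of N.e0 N.e1
  have L0 := C.L0
  refine ⟨fun y h0 h1 => lpH' N C h0 h1, fun z h0 h1 => ?_⟩
  rcases lt_or_ge z 0 with h | h
  · exact ⟨2, LAM e - 3 / 5, LAM e + 3 / 10, 5 / 8,
      lp_rt h0 h1 (Z _ (by linarith) (by linarith)) (fun _ => hA) (fun h' => absurd h (not_lt.2 h'))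
        (fun h' => absurd h (not_lt.2 h')),
      cnd_near C (by linarith) (by linarith) (by linarith) (by linarith) (by norm_num)
        (by norm_num) (by norm_num) (by norm_num) (by norm_num) (by norm_num)⟩
  · exact ⟨5, LAM e - 1 / 2, LAM e + 2 / 5, 11 / 20,
      lp_rt h0 h1 (Z _ (by linarith) (by linarith)) (fun h' => absurd h' (not_lt.2 h))
        (fun _ => hW) (fun _ => hB),
      cnd_near C (by linarith) (by linarith) (by linarith) (by linarith) (by norm_num)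
        (by norm_num) (by norm_num) (by norm_num) (by norm_num) (by norm_num)⟩

end

end Pool.Agent.Strip051.LC.E1
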