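import Pool.Agent.Strip051.LC.E1.VertL
import Pool.Agent.Strip051.LC.E1.SloE

/-! # Rests near the full period: the vertical cube -/

namespace Pool.Agent.Strip051.LC.E1

open Pool.Agent.StripNear Pool.Agent.StripSquare Pool.Agent.Strip051 Pool.Agent.Strip051.Sweep
open Pool.Agent.Strip051.PB
open G

/-- The choice by the vertex. -/
def kq (V : Vx) (a b : ℝ) : ℝ :=
  match V with
  | .far => a
  | .near => b

/-- The bounds of the slopes of the kernels. -/
structure Kb (V : Vx) (m M m' M' K : ℝ) : Prop where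
  pm : 0 ≤ m
  pM : 0 ≤ M
  pm' : 0 ≤ m'
  pM' : 0 ≤ M'
  pK : match V with
    | .far => m ≤ K ∧ M ≤ K
    | .near => 5 / 4 * m + m' / 4 ≤ K ∧ 5 / 4 * M + M' / 4 ≤ K

section

variable {V : Vx} {e κ y y' : ℝ}

theorem bd_of (he : 0 < e) (he1 : e ≤ 1 / 40) {B : Sv} {m M m' M' K lo hi : ℝ}
    (k1 : -m ≤ B.k ∧ B.k ≤ M) (k2 : -m' ≤ B.b ∧ B.b ≤ M') (h : Kb V m M m' M' K)
    (l : LAM e * lo ≤ lsl e B ∧ lsl e B ≤ LAM e * hi) :
    Bd V e B ⟨K, LAM e * lo, LAM e * hi⟩ := by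
  refine ⟨?_, l.1, l.2⟩
  rw [abs_le]
  cases V with
  | far =>
    obtain ⟨a1, a2⟩ := h.pK
    refine ⟨?_, k1.2.trans a2⟩
    show -K ≤ B.k
    linarith [k1.1]
  | near =>
    obtain ⟨a1, a2⟩ := h.pK
    obtain ⟨b1, b2⟩ := nk_bd he he1 k1.1 k1.2 k2.1 k2.2 h.pm h.pM h.pm' h.pM'
    refine ⟨?_, b2.trans a2⟩
    show -K ≤ nk e B.k B.b
    linarith

/-- The bounds of the slopes. -/
noncomputable def spA (V : Vx) (e : ℝ) : Sp :=
  ⟨kq V (4 / 5) 2, LAM e * (2 / 5), LAM e * (695 / 1000 + 93 / 10 * e)⟩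

noncomputable def spW (V : Vx) (e : ℝ) : Sp :=
  ⟨kq V 3 5, LAM e * (58 / 100), LAM e * (124 / 100 - 78 / 10 * e)⟩

noncomputable def spB (V : Vx) (e : ℝ) : Sp :=
  ⟨kq V (5 / 2) (9 / 2), LAM e * (1 / 2), LAM e * (72 / 100 + 20 * e)⟩

noncomputable def spV0 (V : Vx) (e : ℝ) : Sp :=
  ⟨kq V 1 (3 / 2), LAM e * (99 / 100), LAM e * 1⟩

noncomputable def spV1 (V : Vx) (e : ℝ) : Sp :=
  ⟨kq V (9 / 10) (13 / 8), LAM e * (95 / 100), LAM e * (108 / 100)⟩

noncomputable def spV2 (V : Vx) (e : ℝ) : Sp :=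
  ⟨kq V (9 / 10) (13 / 8), LAM e * (97 / 100), LAM e * (109 / 100)⟩

/-- The lower bound of the level in the last zone. -/
noncomputable def m3 (e Y : ℝ) : ℝ :=
  if 63 / 32 ≤ Y then 33 / 100 + 3 * e else -(1 / 5) + 44 / 5 * e

noncomputable def spV3 (V : Vx) (e Y : ℝ) : Sp :=
  ⟨kq V (9 / 10) (13 / 8), LAM e * m3 e Y, LAM e * (11 / 10)⟩

theorem bd_a (he : 0 < e) (he1 : e ≤ 1 / 40) (h0 : 15 / 16 < y) (h1 : y < 1) :
    Bd V e (sPa e (y - 1)) (spA V e) := by
  have h := dn (a := 1 - y) (by linarith) (by linarith)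
  have ey : y - 1 = -(1 - y) := by ring
  rw [ey]
  exact bd_of he he1 (ka_k he he1 h) (ka_b he he1 h)
    ⟨by norm_num, by norm_num, by norm_num, by norm_num, by cases V <;> norm_num [kq]⟩ (la he he1 h)

theorem bd_w (he : 0 < e) (he1 : e ≤ 1 / 40) (h0 : 1 ≤ y) (h1 : y < 17 / 16) :
    Bd V e (sPw e (y - 1)) (spW V e) := by
  have h := up (a := y - 1) (by linarith) (by linarith)
  exact bd_of he he1 (kw he he1 h) (bw he he1 h)
    ⟨by norm_num, by norm_num, by norm_num, by norm_num, by cases V <;> norm_num [kq]⟩ (lw he he1 h)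

theorem bd_b (he : 0 < e) (he1 : e ≤ 1 / 40) (h0 : 1 ≤ y) (h1 : y < 17 / 16) :
    Bd V e (sPb e (y - 1)) (spB V e) := by
  have h := up (a := y - 1) (by linarith) (by linarith)
  exact bd_of he he1 (kb he he1 h) (bb he he1 h)
    ⟨by norm_num, by norm_num, by norm_num, by norm_num, by cases V <;> norm_num [kq]⟩ (lb he he1 h)

/-- All slopes vanish at the height `2 h0`. -/
theorem xi1_0 : LC.E0.G.xi1 0 1 = 0 := by
  unfold LC.E0.G.xi1
  ring

theorem x3v_0 : x3v 0 1 = 0 := by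
  unfold x3v
  norm_num

theorem sV0_0 (e : ℝ) : sV0 e 0 = ⟨0, 0, 0, 0⟩ := by
  unfold sV0
  rw [xi1_0]
  simp only [div_zero]

theorem sV1_0 (e : ℝ) : sV1 e 0 = ⟨0, 0, 0, 0⟩ := by
  unfold sV1
  rw [xi1_0, x3v_0, sub_zero]
  simp only [div_zero, neg_zero]

theorem sV2_0 (e : ℝ) : sV2 e 0 = ⟨0, 0, 0, 0⟩ := by
  unfold sV2
  rw [xi1_0, x3v_0, sub_zero]
  simp only [div_zero]

theorem sV3_0 (e : ℝ) : sV3 e 0 = ⟨0, 0, 0, 0⟩ := by
  unfold sV3
  rw [xi1_0, x3v_0, sub_zero]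
  simp only [div_zero]

theorem bd_0 (he : 0 < e) (he1 : e ≤ 1 / 40) {m M m' M' K lo hi : ℝ} (h : Kb V m M m' M' K)
    (l : lo ≤ 1 ∧ 1 ≤ hi) : Bd V e ⟨0, 0, 0, 0⟩ ⟨K, LAM e * lo, LAM e * hi⟩ := by
  have L0 := L_nn he he1
  have h1 := h.pm
  have h2 := h.pM
  have h3 := h.pm'
  have h4 := h.pM'
  refine bd_of he he1 ⟨?_, ?_⟩ ⟨?_, ?_⟩ h ⟨?_, ?_⟩
  · show -m ≤ 0
    linarith
  · show 0 ≤ M
    linarith
  · show -m' ≤ 0
    linarith
  · show 0 ≤ M'
    linarith
  · show LAM e * lo ≤ LAM e + (0 + 0)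
    nlinarith [mul_nonneg L0 (by linarith [l.1] : 0 ≤ 1 - lo)]
  · show LAM e + (0 + 0) ≤ LAM e * hi
    nlinarith [mul_nonneg L0 (by linarith [l.2] : 0 ≤ hi - 1)]

theorem kb_0 : Kb V 1 1 1 1 (kq V 1 (3 / 2)) :=
  ⟨by norm_num, by norm_num, by norm_num, by norm_num, by cases V <;> norm_num [kq]⟩

theorem kb_1 : Kb V (3 / 10) (9 / 10) (1 / 2) 2 (kq V (9 / 10) (13 / 8)) :=
  ⟨by norm_num, by norm_num, by norm_num, by norm_num, by cases V <;> norm_num [kq]⟩

theorem bd_v0 (he : 0 < e) (he1 : e ≤ 1 / 40) (h0 : 31 / 16 < y) (h1 : y ≤ 2) :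
    Bd V e (sV0 e (y - 2)) (spV0 V e) := by
  rcases h1.eq_or_lt with rfl | h1
  · rw [sub_self, sV0_0]
    exact bd_0 he he1 kb_0 (by norm_num)
  · have h := vt (a := 2 - y) (by linarith) (by linarith)
    have ey : y - 2 = -(2 - y) := by ring
    rw [ey]
    exact bd_of he he1 (k0 he he1 h) (b0 he h) kb_0 (l0 he he1 h)

theorem bd_v1 (he : 0 < e) (he1 : e ≤ 1 / 40) (h0 : 31 / 16 < y) (h1 : y ≤ 2) :
    Bd V e (sV1 e (y - 2)) (spV1 V e) := by
  rcases h1.eq_or_lt with rfl | h1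
  · rw [sub_self, sV1_0]
    exact bd_0 he he1 kb_1 (by norm_num)
  · have h := vt (a := 2 - y) (by linarith) (by linarith)
    have ey : y - 2 = -(2 - y) := by ring
    have hl := l1 he he1 h
    rw [ey]
    rw [sV1_eq] at hl ⊢
    exact bd_of he he1 (kV_bd he he1 h) (bV_bd he he1 h) kb_1 hl

theorem bd_v2 (he : 0 < e) (he1 : e ≤ 1 / 40) (h0 : 31 / 16 < y) (h1 : y ≤ 2) :
    Bd V e (sV2 e (y - 2)) (spV2 V e) := by
  rcases h1.eq_or_lt with rfl | h1
  · rw [sub_self, sV2_0]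
    exact bd_0 he he1 kb_1 (by norm_num)
  · have h := vt (a := 2 - y) (by linarith) (by linarith)
    have ey : y - 2 = -(2 - y) := by ring
    have hl := l2 he he1 h
    rw [ey]
    rw [sV2_eq] at hl ⊢
    exact bd_of he he1 (kV_bd he he1 h) (bV_bd he he1 h) kb_1 hl

theorem m3_le (he : 0 < e) (he1 : e ≤ 1 / 40) : m3 e y ≤ 33 / 100 + 3 * e ∧
    -(1 / 5) + 44 / 5 * e ≤ m3 e y := by
  unfold m3
  split_ifs
  · constructor <;> linarith
  · constructor <;> linarith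

theorem bd_v3 (he : 0 < e) (he1 : e ≤ 1 / 40) (h0 : 31 / 16 < y) (h1 : y ≤ 2) :
    Bd V e (sV3 e (y - 2)) (spV3 V e y) := by
  rcases h1.eq_or_lt with rfl | h1
  · rw [sub_self, sV3_0]
    exact bd_0 he he1 kb_1 ⟨by linarith [(m3_le (y := 2) he he1).1], by norm_num⟩
  · have h := vt (a := 2 - y) (by linarith) (by linarith)
    have ey : y - 2 = -(2 - y) := by ring
    obtain ⟨hl1, hl2, hl3⟩ := l3 he he1 h
    have hl : LAM e * m3 e y ≤ lsl e (sV3 e (-(2 - y))) ∧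
        lsl e (sV3 e (-(2 - y))) ≤ LAM e * (11 / 10) := by
      refine ⟨?_, hl2⟩
      unfold m3
      split_ifs with hc
      · exact hl3 (by linarith)
      · exact hl1
    rw [ey]
    rw [sV3_eq] at hl ⊢
    exact bd_of he he1 (kV_bd he he1 h) (bV_bd he he1 h) kb_1 hl

theorem slv (V : Vx) (he : 0 < e) (he1 : e ≤ 1 / 40) :
    SlV V e (fun _ => spA V e) (fun _ => spW V e) (fun _ => spB V e) (fun _ => spV0 V e)
      (fun _ => spV1 V e) (fun _ => spV2 V e) (spV3 V e) where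
  a _ h0 h1 := bd_a he he1 h0 h1
  w _ h0 h1 := bd_w he he1 h0 h1
  b _ h0 h1 := bd_b he he1 h0 h1
  v0 _ h0 h1 := bd_v0 he he1 h0 h1
  v1 _ h0 h1 := bd_v1 he he1 h0 h1
  v2 _ h0 h1 := bd_v2 he he1 h0 h1
  v3 _ h0 h1 := bd_v3 he he1 h0 h1

/-! ### The conditions of the moves -/

theorem L_up (he : 0 < e) (he1 : e ≤ 1 / 40) : LAM e ≤ 1 - 57 / 20 * e := by
  have := LAM_up he he1
  nlinarith

/-- The condition of a move, both vertices. -/
theorem k12_V (he : 0 < e) (he1 : e ≤ 1 / 40) (hκ : κ * h0 = kenE (1 - e)) (h : Hv y y')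
    {a b m M a' b' m' M' : ℝ} (S : ℝ) (h1 : M - m' ≤ S) (h2 : M' - m ≤ S) (hm : 0 ≤ m)
    (hS : 0 ≤ S) (ha : 0 ≤ a + a') (hb : 0 ≤ b + b')
    (f1 : e * (a + a') + (1 - 57 / 20 * e) * S / 2 ≤ 15 / 32)
    (f2 : e * (b + b') + 33 / 128 * ((1 - 57 / 20 * e) * S) ≤ 15 / 32) :
    K12 V κ (1 - e) y y' ⟨kq V a b, LAM e * m, LAM e * M⟩ ⟨kq V a' b', LAM e * m', LAM e * M'⟩ := by
  have L0 := L_nn he he1
  have L1 := L_up he he1
  have LS : LAM e * S ≤ (1 - 57 / 20 * e) * S := mul_le_mul_of_nonneg_right L1 hS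
  have g1 : LAM e * M - LAM e * m' ≤ LAM e * S := by
    rw [← mul_sub]
    exact mul_le_mul_of_nonneg_left h1 L0
  have g2 : LAM e * M' - LAM e * m ≤ LAM e * S := by
    rw [← mul_sub]
    exact mul_le_mul_of_nonneg_left h2 L0
  have ya := h.a
  have yc := h.c
  have yd := h.d
  cases V with
  | far =>
    refine k12_far he he1 hκ ha (LAM e * S) g1 g2 ?_
    show e * (a + a') + LAM e * S / 2 ≤ y / 2
    linarith
  | near =>
    refine k12_near he he1 hκ hb (LAM e * S) g1 g2 (mul_nonneg L0 hS) ya.le (mul_nonneg L0 hm)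
      yc.le yd ?_
    show e * (b + b') + 33 / 128 * (LAM e * S) ≤ y / 2 + 45 / 392 * (LAM e * m)
    have := mul_nonneg L0 hm
    linarith

/-- The condition of a move of the third kind, both vertices. -/
theorem c13_V (he : 0 < e) (he1 : e ≤ 1 / 40) (hκ : κ * h0 = kenE (1 - e)) (h : Hv y y')
    {a b m M a' b' m' M' : ℝ} (S : ℝ) (h1 : M - m' ≤ S) (h2 : M' - m ≤ S) (hm : 0 ≤ m)
    (hm' : 0 ≤ m') (hS : 0 ≤ S) (ha : 0 ≤ a + a') (hb : 0 ≤ b + b')
    (f1 : e * (a + a') + (1 - 57 / 20 * e) * S / 2 ≤ 31 / 32)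
    (f2 : e * (b + b') + 33 / 128 * ((1 - 57 / 20 * e) * S) ≤ 31 / 32) :
    C13 V κ (1 - e) y y' ⟨kq V a b, LAM e * m, LAM e * M⟩ ⟨kq V a' b', LAM e * m', LAM e * M'⟩ := by
  have L0 := L_nn he he1
  have L1 := L_up he he1
  have LS : LAM e * S ≤ (1 - 57 / 20 * e) * S := mul_le_mul_of_nonneg_right L1 hS
  have g1 : LAM e * M - LAM e * m' ≤ LAM e * S := by
    rw [← mul_sub]
    exact mul_le_mul_of_nonneg_left h1 L0
  have g2 : LAM e * M' - LAM e * m ≤ LAM e * S := by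
    rw [← mul_sub]
    exact mul_le_mul_of_nonneg_left h2 L0
  have ya := h.a
  have ya' := h.a'
  have yc := h.c
  have yd := h.d
  cases V with
  | far =>
    refine c13_far he he1 hκ ha (LAM e * S) g1 g2 ?_
    show e * (a + a') + LAM e * S / 2 ≤ (y + y') / 2
    linarith
  | near =>
    refine c13_near he he1 hκ hb (LAM e * S) g1 g2 (mul_nonneg L0 hS) ya.le ya'.le
      (mul_nonneg L0 hm) (mul_nonneg L0 hm') yc.le yd ?_
    show e * (b + b') + 33 / 128 * (LAM e * S) ≤ (y + y') / 2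
    linarith

theorem cn_V (he : 0 < e) (he1 : e ≤ 1 / 40) (hκ : κ * h0 = kenE (1 - e)) (h : Hv y y') :
    Cn V κ (1 - e) y y' (spA V e) (spW V e) (spB V e) (spV0 V e) (spV1 V e) (spV2 V e)
      (spV3 V e (y + y')) := by
  have e2 : 0 ≤ e * (1 - 40 * e) := mul_nonneg he.le (by linarith)
  have e3 : 0 ≤ (1 / 40 - e) * (1 / 40 - e) := mul_self_nonneg _
  have e4 : 0 ≤ e * e := mul_nonneg he.le he.le
  obtain ⟨q1', q2'⟩ := m3_le (y := y + y') he he1
  refine ⟨fun _ => ?_, fun _ => ?_, fun _ => ?_, fun _ => ?_, fun _ => ?_, fun _ => ?_,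
    fun _ => ?_, fun _ hY => ?_, fun _ => ?_, fun _ => ?_, fun _ => ?_, fun _ hY => ?_⟩
  · exact k12_V he he1 hκ h (3 / 5) (by linarith) (by linarith) (by norm_num) (by norm_num)
      (by norm_num) (by norm_num) (by linarith) (by linarith)
  · exact k12_V he he1 hκ h (68 / 100) (by linarith) (by linarith) (by norm_num) (by norm_num)
      (by norm_num) (by norm_num) (by linarith) (by linarith)
  · exact k12_V he he1 hκ h (69 / 100) (by linarith) (by linarith) (by norm_num) (by norm_num)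
      (by norm_num) (by norm_num) (by linarith) (by linarith)
  · exact k12_V he he1 hκ h (895 / 1000 + 1 / 2 * e) (by linarith) (by linarith) (by norm_num)
      (by linarith) (by norm_num) (by norm_num) (by linarith) (by linarith)
  · exact k12_V he he1 hκ h (42 / 100) (by linarith) (by linarith) (by norm_num) (by norm_num)
      (by norm_num) (by norm_num) (by linarith) (by linarith)
  · exact k12_V he he1 hκ h (1 / 2) (by linarith) (by linarith) (by norm_num) (by norm_num)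
      (by norm_num) (by norm_num) (by linarith) (by linarith)
  · exact k12_V he he1 hκ h (51 / 100) (by linarith) (by linarith) (by norm_num) (by norm_num)
      (by norm_num) (by norm_num) (by linarith) (by linarith)
  · have hm : m3 e (y + y') = 33 / 100 + 3 * e := if_pos hY
    exact k12_V he he1 hκ h (91 / 100 - 54 / 5 * e) (by linarith) (by linarith) (by norm_num)
      (by linarith) (by norm_num) (by norm_num) (by linarith) (by linarith)
  · exact k12_V he he1 hκ h (1 / 2) (by linarith) (by linarith) (by norm_num) (by norm_num)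
      (by norm_num) (by norm_num) (by linarith) (by linarith)
  · exact k12_V he he1 hκ h (58 / 100) (by linarith) (by linarith) (by norm_num) (by norm_num)
      (by norm_num) (by norm_num) (by linarith) (by linarith)
  · exact k12_V he he1 hκ h (59 / 100) (by linarith) (by linarith) (by norm_num) (by norm_num)
      (by norm_num) (by norm_num) (by linarith) (by linarith)
  · have hm : m3 e (y + y') = 33 / 100 + 3 * e := if_pos hY
    exact k12_V he he1 hκ h (3 / 5 + 43 / 5 * e) (by linarith) (by linarith) (by norm_num)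
      (by linarith) (by norm_num) (by norm_num) (by linarith) (by linarith)

theorem c13 (he : 0 < e) (he1 : e ≤ 1 / 40) (hκ : κ * h0 = kenE (1 - e)) (h : Hv y y') :
    C13 V κ (1 - e) y y' (spW V e) (spA V e) :=
  c13_V he he1 hκ h (84 / 100) (by linarith) (by linarith) (by norm_num) (by norm_num)
    (by norm_num) (by norm_num) (by norm_num) (by linarith) (by linarith)

end

/-- **The vertical cube.** -/
theorem vcube {V : Vx} {T : Tbs 7} {κ e : ℝ} (hR : Rows V) (hN : Nod V T e)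
    (hκ : κ * h0 = kenE (1 - e)) : VCube V T κ e :=
  vcube_sl hR hN hκ (slv V hN.e0 hN.e1) (fun _ _ h => cn_V hN.e0 hN.e1 hκ h)
    (fun _ _ h _ _ => c13 hN.e0 hN.e1 hκ h)

/-- The slopes next to `(1 / 2, 1)`. -/
theorem z1_V {V : Vx} {T : Tbs 7} {e y : ℝ} (hN : Nod V T e) (h0 : 15 / 16 < y)
    (h1 : y < 17 / 16) : Z1 V T (1 - e) y (spA V e) (spW V e) (spB V e) :=
  (slv V hN.e0 hN.e1).z1 (VD.of hN) h0 h1

/-- **The slopes in the windows.** -/
theorem slo_V {V : Vx} {T : Tbs 7} {e : ℝ} (hN : Nod V T e) :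
    Slo V T e (kVx V (17 / 200 / e) (3 / 20 / e)) (LAM e + -(3 / 20)) (LAM e + 1 / 40) := by
  have he := hN.e0
  have he1 := hN.e1
  have L0 := L_nn he he1
  have L1 := L_up he he1
  have L2 : LAM e ≤ 1 := by linarith
  have L3 : 9 / 10 ≤ LAM e := by nlinarith [LAM_lo he he1]
  have Le : LAM e * e ≤ 1 / 40 := by nlinarith
  have Le0 : 0 ≤ LAM e * e := mul_nonneg L0 he.le
  cases V with
  | far =>
    refine slo_far hN (fun y h0 h1 => z1_V hN h0 h1) ⟨?_, ?_, ?_⟩ ⟨?_, ?_, ?_⟩ ⟨?_, ?_, ?_⟩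
    all_goals simp only [spA, spW, spB, kq]
    all_goals linarith
  | near =>
    refine slo_near hN (fun y h0 h1 => z1_V hN h0 h1) ⟨?_, ?_, ?_⟩ ⟨?_, ?_, ?_⟩ ⟨?_, ?_, ?_⟩
    all_goals simp only [spA, spW, spB, kq]
    all_goals linarith

end Pool.Agent.Strip051.LC.E1
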