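import Pool.Agent.Strip051.LC.E1.Def
import Pool.Agent.Strip051.LC.E0.Def

/-! # Rests near the full period: the functions of the tables

Generated from the table by a program. `r`, `lam` are the scales (`e = lam r`); `w`, `z`, `u` are
the distances of a height from the lattice heights in units `r h0`; `xi` is the position relative to the
lattice point in units `r`. The geometric functions are those of the small rests. -/

namespace Pool.Agent.Strip051.LC.E1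

namespace G

open Pool.Agent.Strip051.LC.E0.G (om cc1 xi1 sg1 cc3 xi3 sg3 xiw dwl dwu)

/-- The positive part. -/
noncomputable def hg (x : ℝ) : ℝ :=
  max x 0

/-- The second order part of `xi1 = -3 / 2 z + r x2`. -/
noncomputable def x2 (z r : ℝ) : ℝ :=
  z * (3 / 2 * xi1 z r - 3 / 4 * z) / (1 / 2 + cc1 z r)

/-- The value of the unit kernel at its pin is `1 + e pK`. -/
noncomputable def pK (e : ℝ) : ℝ :=
  (q1 e / 2 - (eh e + 1) * (9 / 4 - 3 / 4 * e) - eh e * (2 * eh e + 1)) / (2 * (eh e * gs e))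

/-- The value of the second unit kernel at its pin is `B0 + e pB`. -/
noncomputable def pB (e : ℝ) : ℝ :=
  -(B0 e * q1 e / 2)

noncomputable def dW (e : ℝ) : ℝ :=
  (3 / 4 + (eh e + 1 / 2) / 2 + (2 * (eh e + 1 / 2) - q1 e - 2 * e * (eh e + 1 / 2) * q1 e) / 2)
  / (2 * (gs e * eh e))

/-- The pin of `W` next to height `0`. -/
noncomputable def vW0 (e : ℝ) : ℝ :=
  ((q1 e / 2 + pK e) / (eh e + 1) - dW e - (eh e + 1 / 2)) * ig e

/-- The pin of `W` next to height `2`. -/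
noncomputable def vW3 (e : ℝ) : ℝ :=
  (q1 e / 2 + pK e) / (eh e + 1) + dW e

noncomputable def u1 (k0 v : ℝ) : ℝ :=
  (v - 2 * k0) * (Real.sqrt 3 / 2)

noncomputable def u3 (k0 m : ℝ) : ℝ :=
  (m - 2 * k0) * (Real.sqrt 3 / 2)

noncomputable def u2 (k0 v m p E : ℝ) : ℝ :=
  (p + u3 k0 m * (3 / 5 - E) - u1 k0 v) * (5 / 3)

noncomputable def u5 (k0 f : ℝ) : ℝ :=
  (16 * f - 2 * k0) * (Real.sqrt 3 / 2)

noncomputable def u4 (k0 m p s E : ℝ) : ℝ :=
  (s * (5 / 2) - p - u3 k0 m * (6 / 5 - E)) * (10 / 3)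

noncomputable def u6 (k0 f f' : ℝ) : ℝ :=
  ((4 / 5 * k0 + f') - (7 / 8 * k0 + f)) * (80 / 3)

noncomputable def u7 (k0 f' : ℝ) : ℝ :=
  -(10 * (4 / 5 * k0 + f'))

/-- A unit kernel with the value `k0` at the lattice points, at the distance `T' = h0 r t`: the
kernel is `k0 + r uR`. -/
noncomputable def uR (k0 v m p f f' E r lam t : ℝ) : ℝ :=
  u1 k0 v * t + (u2 k0 v m p E - u1 k0 v) * hg (t - lam) + (u3 k0 m - u2 k0 v m p E) * hg (t - 8
  / 5 * lam) + (u4 k0 m p (u5 k0 f) E - u3 k0 m) * hg (t - 11 / 5 * lam) + (u5 k0 f - u4 k0 m p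
  (u5 k0 f) E) * hg (t - 5 / 2 * lam) + (u6 k0 f f' - (16 * f - 2 * k0)) * hg (Real.sqrt 3 / 2 *
  t - 1 / (16 * r)) + (u7 k0 f' - u6 k0 f f') * hg (Real.sqrt 3 / 2 * t - 1 / (10 * r))

/-- The unit kernel. -/
noncomputable def kU (r lam t : ℝ) : ℝ :=
  uR 1 (-(9997 / 50000)) (-(359209 / 100000)) (pK (lam * r)) (-(1589 / 12500)) (-(7153 / 25000))
  (eh (lam * r)) r lam t

/-- The second unit kernel. -/
noncomputable def bU (r lam t : ℝ) : ℝ :=
  uR (B0 (lam * r)) (18757 / 20000) (-(280683 / 50000)) (pB (lam * r)) (23151 / 50000) (-(8487 /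
  100000)) (eh (lam * r)) r lam t

/-- The unit kernel, for large arguments. -/
noncomputable def kU' (r lam t : ℝ) : ℝ :=
  kU r lam t + (8 * 1 + (-(7153 / 2500))) * hg (Real.sqrt 3 / 2 * t - 1 / (5 * r))

/-- The second unit kernel, for large arguments. -/
noncomputable def bU' (r lam t : ℝ) : ℝ :=
  bU r lam t + (8 * B0 (lam * r) + (-(8487 / 10000))) * hg (Real.sqrt 3 / 2 * t - 1 / (5 * r))

/-- The first level function of the unit circle, divided by `LAM r ^ 2`. -/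
noncomputable def aL (e r lam t : ℝ) : ℝ :=
  ((85937 / 100000) + (-(10723 / 500)) * e) * ((Real.sqrt 3 / 2) * hg (t - 167 / 50 * lam) / (1
  / 2 - 167 / 50 * (Real.sqrt 3 / 2) * e)) ^ 2 + ((539 / 4000) + (-(44693 / 1000)) * e) * (hg
  (Real.sqrt 3 / 2 * t - 29 / (400 * r)) / (171 / 400)) ^ 2 + ((-(28781 / 50000)) + (25327 /
  250) * e) * (hg (Real.sqrt 3 / 2 * t - 9 / (100 * r)) / (41 / 100)) ^ 2 + ((31751 / 50000) +
  (-(1524 / 25)) * e) * (hg (Real.sqrt 3 / 2 * t - 3 / (25 * r)) / (19 / 50)) ^ 2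

/-- The second level function of the unit circle. -/
noncomputable def bL (e r lam t : ℝ) : ℝ :=
  ((2661 / 12500) + (-(8863 / 1000)) * e) * ((Real.sqrt 3 / 2) * hg (t - 167 / 50 * lam) / (1 /
  2 - 167 / 50 * (Real.sqrt 3 / 2) * e)) ^ 2 + ((14331 / 50000) + (-(38949 / 1000)) * e) * (hg
  (Real.sqrt 3 / 2 * t - 29 / (400 * r)) / (171 / 400)) ^ 2 + ((-(13849 / 25000)) + (1359 / 20)
  * e) * (hg (Real.sqrt 3 / 2 * t - 9 / (100 * r)) / (41 / 100)) ^ 2 + ((5519 / 50000) +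
  (-(25993 / 1000)) * e) * (hg (Real.sqrt 3 / 2 * t - 3 / (25 * r)) / (19 / 50)) ^ 2

/-- The first level function, for large arguments. -/
noncomputable def aL' (e r lam t : ℝ) : ℝ :=
  aL e r lam t + ((-(2328 / 3125)) + (37939 / 1000) * e) * (hg (Real.sqrt 3 / 2 * t - 9 / (50 *
  r)) / (8 / 25)) ^ 2

/-- The second level function, for large arguments. -/
noncomputable def bL' (e r lam t : ℝ) : ℝ :=
  bL e r lam t + ((-(26321 / 100000)) + (6899 / 1000) * e) * (hg (Real.sqrt 3 / 2 * t - 9 / (50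
  * r)) / (8 / 25)) ^ 2

noncomputable def g1 (z r : ℝ) : ℝ :=
  3 / 4 * sg1 z r / (1 + (cc1 z r / 2 + 3 / 4 * (1 + r * z)))

noncomputable def g3 (z r : ℝ) : ℝ :=
  3 / 4 * sg3 z r / (1 + (cc3 z r / 2 + 1 / 4 * (1 + r * z)))

/-- The unit circle next to the height `0`. -/
noncomputable def S1 (r lam w : ℝ) : Sv :=
  ⟨kU r lam w, 0, LAM (lam * r) * aL (lam * r) r lam w, bU r lam w⟩

/-- The unit circle below `h0`. -/
noncomputable def C1d (r lam z : ℝ) : Sv :=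
  ⟨kU r lam (-(sg1 z r)) * (1 / 2 - r * g1 z r) - g1 z r, 0, LAM (lam * r) * bL (lam * r) r lam
  (-(sg1 z r)), bU r lam (-(sg1 z r)) * (1 / 2 - r * g1 z r) - B0 (lam * r) * g1 z r⟩

/-- The unit circle above `h0`. -/
noncomputable def C1u (r lam z : ℝ) : Sv :=
  ⟨kU r lam (sg1 z r) * (1 / 2 - r * g1 z r) - g1 z r, 0, LAM (lam * r) * (aL (lam * r) r lam
  (sg1 z r) - bL (lam * r) r lam (sg1 z r)), bU r lam (sg1 z r) * (1 / 2 - r * g1 z r) - B0 (lam
  * r) * g1 z r⟩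

/-- The circle of radius `√3` below `h0`. -/
noncomputable def C3d (r lam z : ℝ) : Sv :=
  ⟨kU r lam (-(sg3 z r)) * (3 / 2 - r * g3 z r) - g3 z r, 0, LAM (lam * r) * (aL (lam * r) r lam
  (-(sg3 z r)) + bL (lam * r) r lam (-(sg3 z r))), bU r lam (-(sg3 z r)) * (3 / 2 - r * g3 z r)
  - B0 (lam * r) * g3 z r⟩

/-- The circle of radius `√3` above `h0`. -/
noncomputable def C3u (r lam z : ℝ) : Sv :=
  ⟨kU r lam (sg3 z r) * (3 / 2 - r * g3 z r) - g3 z r, 0, LAM (lam * r) * (2 * aL (lam * r) r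
  lam (sg3 z r) - bL (lam * r) r lam (sg3 z r)), bU r lam (sg3 z r) * (3 / 2 - r * g3 z r) - B0
  (lam * r) * g3 z r⟩

/-- `lam` times the piecewise linear function of `a / lam` with the values `b`, `b'` at `1 / 2`,
`1`. -/
noncomputable def tl (b b' lam a : ℝ) : ℝ :=
  2 * b * a + (2 * b' - 4 * b) * hg (a - lam / 2) + (2 * b - 8 / 3 * b') * hg (a - lam) + 2 / 3
  * b' * hg (a - 5 / 2 * lam)

noncomputable def wK0 (r lam a : ℝ) : ℝ :=
  (-6) * a + tl (9207 / 5000) (vW0 (lam * r) - (-6)) lam a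

noncomputable def wB0 (r lam a : ℝ) : ℝ :=
  (25647 / 5000) * a + tl (-(21201 / 10000)) (-(B0 (lam * r) * (eh (lam * r) + 1 / 2) * ig (lam
  * r)) - (25647 / 5000)) lam a

noncomputable def wK1 (_r lam a : ℝ) : ℝ :=
  (-6) * a + tl (21447 / 10000) (1527 / 400) lam a

noncomputable def wB1 (_r lam a : ℝ) : ℝ :=
  (40881 / 10000) * a + tl (51331 / 10000) (-(3689 / 1250)) lam a

noncomputable def wK2 (_r lam a : ℝ) : ℝ :=
  (-(2772 / 625)) * a + tl (-(21419 / 5000)) (-(4383 / 1000)) lam a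

noncomputable def wB2 (_r lam a : ℝ) : ℝ :=
  (4367 / 5000) * a + tl (55587 / 10000) (7049 / 5000) lam a

noncomputable def wK3 (r lam a : ℝ) : ℝ :=
  (1377 / 2500) * a + tl (-(157 / 625)) (vW3 (lam * r) - (1377 / 2500)) lam a

noncomputable def wB3 (_r lam a : ℝ) : ℝ :=
  (237 / 200) * a + tl (-(12119 / 10000)) (0 - (237 / 200)) lam a

/-- The curve `W` next to the height `0`. -/
noncomputable def W0 (r lam w : ℝ) : Sv :=
  ⟨1 * wK0 r lam (w) + xi1 (-w) r * (1 + r * wK0 r lam (w)), LAM (lam * r) * ((1 / 50) + 0 *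
  (lam * r)) * hg (w - 5 / 2 * lam), 0, 1 * wB0 r lam (w) + xi1 (-w) r * (B0 (lam * r) + r * wB0
  r lam (w))⟩

/-- The curve `W` below `h0`. -/
noncomputable def W1 (r lam z : ℝ) : Sv :=
  ⟨3 / 2 * wK1 r lam (-z) + xiw z r * (1 + r * wK1 r lam (-z)), LAM (lam * r) * ((-(559 / 2000))
  + 0 * (lam * r)) * hg (-z - 5 / 2 * lam), 0, 3 / 2 * wB1 r lam (-z) + xiw z r * (B0 (lam * r)
  + r * wB1 r lam (-z))⟩

/-- The curve `W` above `h0`. -/
noncomputable def W2 (r lam z : ℝ) : Sv :=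
  ⟨1 / 2 * wK2 r lam (z) + xiw z r * (1 + r * wK2 r lam (z)), LAM (lam * r) * ((3097 / 10000) +
  0 * (lam * r)) * hg (z - 5 / 2 * lam), 0, 1 / 2 * wB2 r lam (z) + xiw z r * (B0 (lam * r) + r
  * wB2 r lam (z))⟩

/-- The curve `W` below `2 h0`. -/
noncomputable def W3 (r lam u : ℝ) : Sv :=
  ⟨wK3 r lam (-u), LAM (lam * r) * ((-(9 / 1250)) + 0 * (lam * r)) * hg (-u - 5 / 2 * lam), 0,
  wB3 r lam (-u)⟩

/-- The distance between `W` and the circle of radius `√3`. -/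
noncomputable def dQ (r w : ℝ) : ℝ :=
  Real.sqrt (3 - 3 / 4 * (r * w) ^ 2) - 1 - r * xi1 (-w) r

/-- The position of the next curve. -/
noncomputable def xiq (r lam w : ℝ) : ℝ :=
  xi1 (-w) r + 11 / 5 * lam * dQ r w

noncomputable def nt (n n' m lam a : ℝ) : ℝ :=
  lam * n + 2 * (n' - n) * a + (2 * m - 4 * n' + 2 * n) * hg (a - lam / 2) + (2 * n' - 8 / 3 *
  m) * hg (a - lam) + 2 / 3 * m * hg (a - 5 / 2 * lam)

noncomputable def c5 (r lam w : ℝ) : ℝ :=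
  LAM (lam * r) * ((-(1371 / 10000)) + 0 * (lam * r)) * hg (w - 5 / 2 * lam)

/-- The next curve to `W`, next to the height `0`. -/
noncomputable def Q0 (r lam w : ℝ) : Sv :=
  ⟨(W0 r lam w).k - 11 / 5 * lam * (1 + r * (W0 r lam w).k) + nt (8437 / 5000) (-(4991 / 2000))
  (11871 / 5000) lam w, (W0 r lam w).cA + 44 / 3 * (lam * r) * (c5 r lam w - (W0 r lam w).cA),
  0, (W0 r lam w).b - 11 / 5 * lam * (B0 (lam * r) + r * (W0 r lam w).b) + nt (1019 / 1250)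
  (5391 / 1250) (14501 / 10000) lam w⟩

noncomputable def fKa (r z : ℝ) : ℝ :=
  ((2981 / 5000) - (1791 / 400) * (-(r * z)) + 0 * hg (-(r * z) - 1 / 25))

noncomputable def fBa (r z : ℝ) : ℝ :=
  ((12483 / 10000) - (993 / 200) * (-(r * z)) + (1 / 400) * hg (-(r * z) - 1 / 25))

noncomputable def fXa (r lam z : ℝ) : ℝ :=
  ((-(80349 / 100000)) - (-(263 / 400)) * (-(r * z)) + (-(17 / 25)) * hg (-(r * z) - 1 / 25)) +
  ((669 / 250) - (371 / 10) * (-(r * z)) + (447 / 40) * hg (-(r * z) - 1 / 25)) * (lam * r)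

noncomputable def fKc (r z : ℝ) : ℝ :=
  ((1857 / 10000) - (287 / 200) * (-(r * z)) + (1 / 400) * hg (-(r * z) - 1 / 25))

noncomputable def fBc (r z : ℝ) : ℝ :=
  ((14411 / 5000) - (2957 / 200) * (-(r * z)) + 0 * hg (-(r * z) - 1 / 25))

noncomputable def fXc (r lam z : ℝ) : ℝ :=
  ((-(102219 / 100000)) - (-(2437 / 1000)) * (-(r * z)) + (-(1297 / 800)) * hg (-(r * z) - 1 /
  25)) + ((-(77 / 25)) - (1191 / 20) * (-(r * z)) + (1853 / 20) * hg (-(r * z) - 1 / 25)) * (lam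
  * r)

noncomputable def fKb (r z : ℝ) : ℝ :=
  ((451 / 2000) + (231 / 20) * (r * z) + (-(1 / 400)) * hg (r * z - 1 / 25))

noncomputable def fBb (r z : ℝ) : ℝ :=
  ((6929 / 5000) + (-(469 / 40)) * (r * z) + 0 * hg (r * z - 1 / 25))

noncomputable def fXb (r lam z : ℝ) : ℝ :=
  ((-(84283 / 100000)) + (-(817 / 4000)) * (r * z) + (1 / 4000) * hg (r * z - 1 / 25)) + ((1481
  / 500) + (349 / 8) * (r * z) + (-(1489 / 40)) * hg (r * z - 1 / 25)) * (lam * r)

noncomputable def fKd (r z : ℝ) : ℝ :=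
  ((357 / 625) + (-(13 / 50)) * (r * z) + 0 * hg (r * z - 1 / 25))

noncomputable def fBd (r z : ℝ) : ℝ :=
  ((13217 / 10000) + (-(2221 / 400)) * (r * z) + (1 / 400) * hg (r * z - 1 / 25))

noncomputable def fXd (r lam z : ℝ) : ℝ :=
  ((-(20753 / 20000)) + (-(1407 / 4000)) * (r * z) + (1451 / 4000) * hg (r * z - 1 / 25)) +
  ((-(727 / 250)) + (1593 / 40) * (r * z) + (-(1293 / 20)) * hg (r * z - 1 / 25)) * (lam * r)

/-- The abscissa of the curve `.2` below `h0`. -/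
noncomputable def xa (z r : ℝ) : ℝ :=
  1 / 2 + r * xi1 z r + 1 / 5 * dwl z r

/-- The abscissa of the curve `.6` below `h0`. -/
noncomputable def xc (z r : ℝ) : ℝ :=
  3 / 2 + r * xiw z r - 2 / 5 * dwl z r

/-- The abscissa of the curve `1.15` above `h0`. -/
noncomputable def xb (z r : ℝ) : ℝ :=
  1 / 2 + r * xiw z r + 3 / 20 * dwu z r

/-- The abscissa of the curve `1.6` above `h0`. -/
noncomputable def xd (z r : ℝ) : ℝ :=
  3 / 2 + r * xi3 z r - 2 / 5 * dwu z r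

/-- Between the unit circle and `.2`, below `h0`. -/
noncomputable def Pa (xi r lam z : ℝ) : Sv :=
  ⟨(C1d r lam z).k + 5 * (xa z r * fKa r z - (1 / 2 + r * (C1d r lam z).k)) / dwl z r * (xi -
  xi1 z r), 5 * LAM (lam * r) * (xa z r * fXa r lam z + 1 / 2) / dwl z r * (xi - xi1 z r), (C1d
  r lam z).cB * (1 - 5 * r * (xi - xi1 z r) / dwl z r), (C1d r lam z).b + 5 * (xa z r * fBa r z
  - (B0 (lam * r) / 2 + r * (C1d r lam z).b)) / dwl z r * (xi - xi1 z r)⟩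

/-- Between `.6` and `W`, below `h0`. -/
noncomputable def Pc (xi r lam z : ℝ) : Sv :=
  ⟨(W1 r lam z).k + 5 * (3 / 2 + r * (W1 r lam z).k - xc z r * fKc r z) / (2 * dwl z r) * (xi -
  xiw z r), (W1 r lam z).cA + 5 * (r * (W1 r lam z).cA - LAM (lam * r) * (3 / 2 + xc z r * fXc r
  lam z)) / (2 * dwl z r) * (xi - xiw z r), 0, (W1 r lam z).b + 5 * (3 / 2 * B0 (lam * r) + r *
  (W1 r lam z).b - xc z r * fBc r z) / (2 * dwl z r) * (xi - xiw z r)⟩

/-- Between `W` and the circle of radius `√3`, below `h0`. -/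
noncomputable def P3 (xi r lam z : ℝ) : Sv :=
  ⟨(W1 r lam z).k + ((C3d r lam z).k - (W1 r lam z).k) * ((xi - xiw z r) / (xi3 z r - xiw z r)),
  (W1 r lam z).cA * (1 - (xi - xiw z r) / (xi3 z r - xiw z r)), (C3d r lam z).cB * ((xi - xiw z
  r) / (xi3 z r - xiw z r)), (W1 r lam z).b + ((C3d r lam z).b - (W1 r lam z).b) * ((xi - xiw z
  r) / (xi3 z r - xiw z r))⟩

/-- Between the unit circle and `W`, above `h0`. -/
noncomputable def Pw (xi r lam z : ℝ) : Sv :=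
  ⟨(C1u r lam z).k + ((W2 r lam z).k - (C1u r lam z).k) * ((xi - xi1 z r) / (xiw z r - xi1 z
  r)), (W2 r lam z).cA * ((xi - xi1 z r) / (xiw z r - xi1 z r)), (C1u r lam z).cB * (1 - (xi -
  xi1 z r) / (xiw z r - xi1 z r)), (C1u r lam z).b + ((W2 r lam z).b - (C1u r lam z).b) * ((xi -
  xi1 z r) / (xiw z r - xi1 z r))⟩

/-- Between `W` and `1.15`, above `h0`. -/
noncomputable def Pb (xi r lam z : ℝ) : Sv :=
  ⟨(W2 r lam z).k + 20 * (xb z r * fKb r z - (1 / 2 + r * (W2 r lam z).k)) / (3 * dwu z r) * (xi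
  - xiw z r), (W2 r lam z).cA + 20 * (LAM (lam * r) * (xb z r * fXb r lam z + 1 / 2) - r * (W2 r
  lam z).cA) / (3 * dwu z r) * (xi - xiw z r), 0, (W2 r lam z).b + 20 * (xb z r * fBb r z - (B0
  (lam * r) / 2 + r * (W2 r lam z).b)) / (3 * dwu z r) * (xi - xiw z r)⟩

/-- Between `1.6` and the circle of radius `√3`, above `h0`. -/
noncomputable def Pd (xi r lam z : ℝ) : Sv :=
  ⟨(C3u r lam z).k + 5 * (3 / 2 + r * (C3u r lam z).k - xd z r * fKd r z) / (2 * dwu z r) * (xi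
  - xi3 z r), -(5 * LAM (lam * r) * (3 / 2 + xd z r * fXd r lam z) / (2 * dwu z r) * (xi - xi3 z
  r)), (C3u r lam z).cB * (1 + 5 * r * (xi - xi3 z r) / (2 * dwu z r)), (C3u r lam z).b + 5 * (3
  / 2 * B0 (lam * r) + r * (C3u r lam z).b - xd z r * fBd r z) / (2 * dwu z r) * (xi - xi3 z r)⟩

/-- Between the unit circle and `W`, next to the height `0`. -/
noncomputable def H1 (xi r lam w : ℝ) : Sv :=
  ⟨(S1 r lam w).k + ((W0 r lam w).k - (S1 r lam w).k) * ((xi + r * om w r) / (xi1 (-w) r + r *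
  om w r)), (W0 r lam w).cA * ((xi + r * om w r) / (xi1 (-w) r + r * om w r)), (S1 r lam w).cB *
  (1 - (xi + r * om w r) / (xi1 (-w) r + r * om w r)), (S1 r lam w).b + ((W0 r lam w).b - (S1 r
  lam w).b) * ((xi + r * om w r) / (xi1 (-w) r + r * om w r))⟩

/-- Between `W` and the next curve. -/
noncomputable def H2 (xi r lam w : ℝ) : Sv :=
  ⟨(W0 r lam w).k + ((Q0 r lam w).k - (W0 r lam w).k) * ((xi - xi1 (-w) r) / (11 / 5 * lam * dQ
  r w)), (W0 r lam w).cA + ((Q0 r lam w).cA - (W0 r lam w).cA) * ((xi - xi1 (-w) r) / (11 / 5 *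
  lam * dQ r w)), 0, (W0 r lam w).b + ((Q0 r lam w).b - (W0 r lam w).b) * ((xi - xi1 (-w) r) /
  (11 / 5 * lam * dQ r w))⟩

noncomputable def c6 (r lam w : ℝ) : ℝ :=
  LAM (lam * r) * (((-(55141 / 50000)) + (-(1293 / 500)) * (lam * r)) + 1 + (((219 / 2000) +
  (-(34399 / 1000)) * (lam * r))) * (r * w))

/-- Between the next curve and `1.15`, next to the height `0`. -/
noncomputable def H3 (xi r lam w : ℝ) : Sv :=
  ⟨(Q0 r lam w).k - (1 + r * (Q0 r lam w).k) * (xi - xiq r lam w) / ((1 - 11 / 5 * (lam * r)) *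
  dQ r w), (Q0 r lam w).cA + (c5 r lam w - (Q0 r lam w).cA) * (r * (xi - xiq r lam w) / ((3 / 20
  - 11 / 5 * (lam * r)) * dQ r w)), 0, (Q0 r lam w).b - (B0 (lam * r) + r * (Q0 r lam w).b) *
  (xi - xiq r lam w) / ((1 - 11 / 5 * (lam * r)) * dQ r w)⟩

/-- Between `1.15` and `1.6`, next to the height `0`. -/
noncomputable def H4 (xi r lam w : ℝ) : Sv :=
  ⟨(Q0 r lam w).k - (1 + r * (Q0 r lam w).k) * (xi - xiq r lam w) / ((1 - 11 / 5 * (lam * r)) *
  dQ r w), c5 r lam w + (c6 r lam w - r * c5 r lam w) * (20 * (r * (xi - xi1 (-w) r) - 3 / 20 *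
  dQ r w) / (9 * (r * dQ r w))), 0, (Q0 r lam w).b - (B0 (lam * r) + r * (Q0 r lam w).b) * (xi -
  xiq r lam w) / ((1 - 11 / 5 * (lam * r)) * dQ r w)⟩

/-- The position of the circle of radius `√3` below `2 h0`. -/
noncomputable def x3v (u r : ℝ) : ℝ :=
  Real.sqrt (-(3 * u / r) - 3 / 4 * u ^ 2)

/-- The circle of radius `√3` below `2 h0`. -/
noncomputable def C33 (r lam u : ℝ) : Sv :=
  ⟨x3v u r * (1 + r * kU' r lam (2 / 3 * x3v u r)) / (2 + r * u / 2), 0, LAM (lam * r) * (2 *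
  bL' (lam * r) r lam (2 / 3 * x3v u r) - aL' (lam * r) r lam (2 / 3 * x3v u r)), x3v u r * (B0
  (lam * r) + r * bU' r lam (2 / 3 * x3v u r)) / (2 + r * u / 2)⟩

noncomputable def xv5 (u r : ℝ) : ℝ :=
  xi1 u r + 3 / 20 * (x3v u r - xi1 u r)

noncomputable def v5 (r lam u : ℝ) : ℝ :=
  LAM (lam * r) * xv5 u r * (16 * ((-(1283 / 100000)) + (1299 / 1000) * (lam * r)) * (-u))

noncomputable def xv6 (u r : ℝ) : ℝ :=
  xi1 u r + 3 / 5 * (x3v u r - xi1 u r)

noncomputable def v6 (r lam u : ℝ) : ℝ :=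
  LAM (lam * r) * xv6 u r * (16 * ((611 / 100000) + (507 / 500) * (lam * r)) * (-u))

/-- Between `0` and `W`, below `2 h0`. -/
noncomputable def V0 (xi r lam u : ℝ) : Sv :=
  ⟨xi * ((W3 r lam u).k / xi1 u r), xi * ((W3 r lam u).cA / xi1 u r), 0, xi * ((W3 r lam u).b /
  xi1 u r)⟩

/-- Between `W` and `1.15`, below `2 h0`. -/
noncomputable def V1 (xi r lam u : ℝ) : Sv :=
  ⟨(W3 r lam u).k + ((C33 r lam u).k - (W3 r lam u).k) * ((xi - xi1 u r) / (x3v u r - xi1 u r)),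
  (W3 r lam u).cA * (1 - 20 / 3 * ((xi - xi1 u r) / (x3v u r - xi1 u r))), v5 r lam u * (20 / 3
  * ((xi - xi1 u r) / (x3v u r - xi1 u r))), (W3 r lam u).b + ((C33 r lam u).b - (W3 r lam u).b)
  * ((xi - xi1 u r) / (x3v u r - xi1 u r))⟩

/-- Between `1.15` and `1.6`, below `2 h0`. -/
noncomputable def V2 (xi r lam u : ℝ) : Sv :=
  ⟨(W3 r lam u).k + ((C33 r lam u).k - (W3 r lam u).k) * ((xi - xi1 u r) / (x3v u r - xi1 u r)),
  0, v5 r lam u + (v6 r lam u - v5 r lam u) * (20 / 9 * (((xi - xi1 u r) / (x3v u r - xi1 u r))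
  - 3 / 20)), (W3 r lam u).b + ((C33 r lam u).b - (W3 r lam u).b) * ((xi - xi1 u r) / (x3v u r -
  xi1 u r))⟩

/-- Between `1.6` and the circle of radius `√3`, below `2 h0`. -/
noncomputable def V3 (xi r lam u : ℝ) : Sv :=
  ⟨(W3 r lam u).k + ((C33 r lam u).k - (W3 r lam u).k) * ((xi - xi1 u r) / (x3v u r - xi1 u r)),
  0, v6 r lam u + ((C33 r lam u).cB - v6 r lam u) * (5 / 2 * (((xi - xi1 u r) / (x3v u r - xi1 u
  r)) - 3 / 5)), (W3 r lam u).b + ((C33 r lam u).b - (W3 r lam u).b) * ((xi - xi1 u r) / (x3v u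
  r - xi1 u r))⟩

end G

end Pool.Agent.Strip051.LC.E1
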