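import Pool.Agent.Strip051.LC.E1.Fn

/-! # Rests near the full period: the list of the charts

`Rows V` is the list of the statements which give all rows of the three cubes at the vertex `V`. The
scales are `r`, `lam`, `e = lam * r`; the coordinates `w`, `z`, `w + z` are the distances of the
three heights from the lattice heights in units `r h0`. -/

namespace Pool.Agent.Strip051.LC.E1

open Pool.Agent.Strip051.LC.E0.G (om cc1 xi1 sg1 cc3 xi3 sg3 xiw dwl dwu)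
open G

/-- The domain of the charts, in one of the two normalisations. -/
structure Dom (P : Pat) (r lam w z : ℝ) : Prop where
  r0 : 0 < r
  l0 : 0 < lam
  e : lam * r ≤ 1 / 40
  ok : P.Ok w z
  l : 0 < P.len w z
  s : r * P.len w z ≤ 1 / 16
  n : (lam = 1 ∧ P.len w z ≤ 5 / 2) ∨ (P.len w z = 1 ∧ lam ≤ 2 / 5)

/-- The sides next to `(1, 0)`, `(-1 / 2, 1)`, `(1 / 2, 1)`. -/
noncomputable def B1 : Bs := ⟨0, 1, 1, 1 / 2⟩
/-- The sides next to `(1, 0)`, `(-3 / 2, 1)`, `(-1 / 2, 1)`. -/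
noncomputable def B2 : Bs := ⟨0, 1, 1, -(1 / 2)⟩
/-- The sides next to `(1, 0)`, `(1 / 2, 1)`, `(3 / 2, 1)`. -/
noncomputable def B3 : Bs := ⟨0, 1, 1, 3 / 2⟩
/-- The sides next to `(1 / 2, 1)`, `(-1 / 2, 1)`, `(0, 2)`. -/
noncomputable def BV : Bs := ⟨1, 1, 1 / 2, 0⟩

/-- A row with the side bottom-middle on the unit circle, next to `(1, 0)`. -/
def RowT (V : Vx) (P : Pat) (B : Bs) (r lam w z xi : ℝ) (b c : Sv) : Prop :=
  RowC V P B r lam w z (-(r * om w r)) xi (3 / 2 * B.g w z) (-(om w r / 2)) (S1 r lam w) b c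

/-- A row with both slanted sides on the unit circle, next to the first triangle; `a` is the side
bottom-middle. -/
def RowU (V : Vx) (P : Pat) (r lam w z xi : ℝ) (a b c : Sv) : Prop :=
  RowC V P B1 r lam w z xi (xi1 (w + z) r) 0 ((x2 z r + x2 (w + z) r) / 2) a b c

/-- A row of the vertical window, the side bottom-middle on the unit circle; `N` is half the
distance of the side middle-top from the unit circle. -/
def RowV (V : Vx) (P : Pat) (r lam w z xi N : ℝ) (a b c : Sv) : Prop :=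
  RowC V P BV r lam w z (xi1 w r) xi N ((x2 w r + x2 z r) / 2) a b c

/-- **The charts of the vertex `V`**. -/
structure Rows (V : Vx) : Prop where
  /-- T1, 23 on `c1`, `z ≤ 0`, 13 in `[c1, W]` -/
  t1a_c1_d : ∀ r lam w z xi : ℝ, Dom .pnp r lam w z → xi = -(r * om w r) - xi1 z r →
    xi1 (w + z) r ≤ xi → xi ≤ xiw (w + z) r →
    RowT V .pnp B1 r lam w z xi (-C1d r lam z) (Pw xi r lam (w + z))
  /-- T1, 23 on `c1`, `z ≥ 0`, 13 in `[W, b]` -/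
  t1a_c1_u : ∀ r lam w z xi : ℝ, Dom .pp r lam w z → xi = -(r * om w r) - xi1 z r →
    xiw (w + z) r ≤ xi → 1 / 2 + r * xi ≤ xb (w + z) r →
    RowT V .pp B1 r lam w z xi (-C1u r lam z) (Pb xi r lam (w + z))
  /-- T1, 23 on `W`, `z ≥ 0`, 13 in `[W, b]` -/
  t1a_W : ∀ r lam w z xi : ℝ, Dom .pp r lam w z → xi = -(r * om w r) - xiw z r →
    xiw (w + z) r ≤ xi → 1 / 2 + r * xi ≤ xb (w + z) r →
    RowT V .pp B1 r lam w z xi (-W2 r lam z) (Pb xi r lam (w + z))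
  /-- T1, 13 on `c1`, `z ≤ 0`, 23 in `[c1, a]`; `xi'` is the position of 23 -/
  t1b_c1_d : ∀ r lam w z xi xi' : ℝ, Dom .pnp r lam w z → xi = xi1 (w + z) r →
    xi' = -(r * om w r) - xi → xi1 z r ≤ xi' → 1 / 2 + r * xi' ≤ xa z r →
    RowT V .pnp B1 r lam w z xi (-Pa xi' r lam z) (C1u r lam (w + z))
  /-- T1, 13 on `c1`, `z ≥ 0`, 23 in `[W, b]` -/
  t1b_c1_u : ∀ r lam w z xi xi' : ℝ, Dom .pp r lam w z → xi = xi1 (w + z) r →
    xi' = -(r * om w r) - xi → xiw z r ≤ xi' → 1 / 2 + r * xi' ≤ xb z r →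
    RowT V .pp B1 r lam w z xi (-Pb xi' r lam z) (C1u r lam (w + z))
  /-- T1, 13 on `W`, `z ≥ 0`, 23 in `[W, b]` -/
  t1b_W : ∀ r lam w z xi xi' : ℝ, Dom .pp r lam w z → xi = xiw (w + z) r →
    xi' = -(r * om w r) - xi → xiw z r ≤ xi' → 1 / 2 + r * xi' ≤ xb z r →
    RowT V .pp B1 r lam w z xi (-Pb xi' r lam z) (W2 r lam (w + z))
  /-- T2, 23 on `W`, `z ≤ 0 ≤ w + z`, 13 in `[W, b]`; `xi'` is minus the position of 13 -/
  t2a_W : ∀ r lam w z xi' : ℝ, Dom .pnp r lam w z → xi' = xiw z r + r * om w r →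
    xiw (w + z) r ≤ xi' → 1 / 2 + r * xi' ≤ xb (w + z) r →
    RowT V .pnp B2 r lam w z (-xi') (-W1 r lam z) (-Pb xi' r lam (w + z))
  /-- T2, 23 on `c3`, `w + z ≤ 0`, 13 in `[c1, a]` -/
  t2a_c3_dd : ∀ r lam w z xi' : ℝ, Dom .pnn r lam w z → xi' = xi3 z r + r * om w r →
    xi1 (w + z) r ≤ xi' → 1 / 2 + r * xi' ≤ xa (w + z) r →
    RowT V .pnn B2 r lam w z (-xi') (-C3d r lam z) (-Pa xi' r lam (w + z))
  /-- T2, 23 on `c3`, `z ≤ 0 ≤ w + z`, 13 in `[W, b]` -/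
  t2a_c3_du : ∀ r lam w z xi' : ℝ, Dom .pnp r lam w z → xi' = xi3 z r + r * om w r →
    xiw (w + z) r ≤ xi' → 1 / 2 + r * xi' ≤ xb (w + z) r →
    RowT V .pnp B2 r lam w z (-xi') (-C3d r lam z) (-Pb xi' r lam (w + z))
  /-- T2, 23 on `c3`, `z ≥ 0`, 13 in `[c1, W]` -/
  t2a_c3_u1 : ∀ r lam w z xi' : ℝ, Dom .pp r lam w z → xi' = xi3 z r + r * om w r →
    xi1 (w + z) r ≤ xi' → xi' ≤ xiw (w + z) r →
    RowT V .pp B2 r lam w z (-xi') (-C3u r lam z) (-Pw xi' r lam (w + z))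
  /-- T2, 23 on `c3`, `z ≥ 0`, 13 in `[W, b]` -/
  t2a_c3_u2 : ∀ r lam w z xi' : ℝ, Dom .pp r lam w z → xi' = xi3 z r + r * om w r →
    xiw (w + z) r ≤ xi' → 1 / 2 + r * xi' ≤ xb (w + z) r →
    RowT V .pp B2 r lam w z (-xi') (-C3u r lam z) (-Pb xi' r lam (w + z))
  /-- T2, 13 on `c1`, `w + z ≤ 0`, 23 in `[W, c3]`; `xi'` is minus the position of 23 -/
  t2b_c1_dd : ∀ r lam w z xi' : ℝ, Dom .pnn r lam w z → xi' = -(r * om w r) + xi1 (w + z) r →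
    xiw z r ≤ xi' → xi' ≤ xi3 z r →
    RowT V .pnn B2 r lam w z (-xi1 (w + z) r) (-P3 xi' r lam z) (-C1d r lam (w + z))
  /-- T2, 13 on `c1`, `z ≤ 0 ≤ w + z`, 23 in `[c, W]` -/
  t2b_c1_du : ∀ r lam w z xi' : ℝ, Dom .pnp r lam w z → xi' = -(r * om w r) + xi1 (w + z) r →
    xc z r ≤ 3 / 2 + r * xi' → xi' ≤ xiw z r →
    RowT V .pnp B2 r lam w z (-xi1 (w + z) r) (-Pc xi' r lam z) (-C1u r lam (w + z))
  /-- T2, 13 on `c1`, `z ≥ 0`, 23 in `[d, c3]` -/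
  t2b_c1_u : ∀ r lam w z xi' : ℝ, Dom .pp r lam w z → xi' = -(r * om w r) + xi1 (w + z) r →
    xd z r ≤ 3 / 2 + r * xi' → xi' ≤ xi3 z r →
    RowT V .pp B2 r lam w z (-xi1 (w + z) r) (-Pd xi' r lam z) (-C1u r lam (w + z))
  /-- T2, 13 on `W`, `z ≤ 0 ≤ w + z`, 23 in `[c, W]` -/
  t2b_W_d : ∀ r lam w z xi' : ℝ, Dom .pnp r lam w z → xi' = -(r * om w r) + xiw (w + z) r →
    xc z r ≤ 3 / 2 + r * xi' → xi' ≤ xiw z r →
    RowT V .pnp B2 r lam w z (-xiw (w + z) r) (-Pc xi' r lam z) (-W2 r lam (w + z))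
  /-- T2, 13 on `W`, `z ≥ 0`, 23 in `[d, c3]` -/
  t2b_W_u : ∀ r lam w z xi' : ℝ, Dom .pp r lam w z → xi' = -(r * om w r) + xiw (w + z) r →
    xd z r ≤ 3 / 2 + r * xi' → xi' ≤ xi3 z r →
    RowT V .pp B2 r lam w z (-xiw (w + z) r) (-Pd xi' r lam z) (-W2 r lam (w + z))
  /-- T3, 23 on `c1`, `z ≥ 0`, 13 in `[d, c3]` -/
  t3a_c1 : ∀ r lam w z xi : ℝ, Dom .pp r lam w z → xi = -(r * om w r) + xi1 z r →
    xd (w + z) r ≤ 3 / 2 + r * xi → xi ≤ xi3 (w + z) r →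
    RowT V .pp B3 r lam w z xi (C1u r lam z) (Pd xi r lam (w + z))
  /-- T3, 13 on `c3`, `z ≥ 0`, 23 in `[c1, W]` -/
  t3b_c3 : ∀ r lam w z xi xi' : ℝ, Dom .pp r lam w z → xi = xi3 (w + z) r →
    xi' = xi + r * om w r → xi1 z r ≤ xi' → xi' ≤ xiw z r →
    RowT V .pp B3 r lam w z xi (Pw xi' r lam z) (C3u r lam (w + z))
  /-- T1, 23 and 13 on `c1`, `z ≤ 0 ≤ w + z`, 12 in `[c1, W]` -/
  uu_1 : ∀ r lam w z xi : ℝ, Dom .pnp r lam w z → xi = xi1 (w + z) r + xi1 z r →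
    -(r * om w r) ≤ xi → xi ≤ xi1 (-w) r →
    RowU V .pnp r lam w z xi (H1 xi r lam w) (-C1d r lam z) (C1u r lam (w + z))
  /-- T1, 23 and 13 on `c1`, `w + z ≤ 0`, 12 in `[W, q]` -/
  uu_2 : ∀ r lam w z xi : ℝ, Dom .pnn r lam w z → xi = xi1 (w + z) r + xi1 z r →
    xi1 (-w) r ≤ xi → xi ≤ xiq r lam w →
    RowU V .pnn r lam w z xi (H2 xi r lam w) (-C1d r lam z) (C1d r lam (w + z))
  /-- T1, 23 and 13 on `c1`, `w + z ≤ 0`, 12 in `[q, 1.15]` -/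
  uu_3 : ∀ r lam w z xi : ℝ, Dom .pnn r lam w z → xi = xi1 (w + z) r + xi1 z r →
    xiq r lam w ≤ xi → r * (xi - xi1 (-w) r) ≤ 3 / 20 * dQ r w →
    RowU V .pnn r lam w z xi (H3 xi r lam w) (-C1d r lam z) (C1d r lam (w + z))
  /-- T1, 23 and 13 on `c1`, `w + z ≤ 0`, 12 in `[1.15, 1.6]` -/
  uu_4 : ∀ r lam w z xi : ℝ, Dom .pnn r lam w z → xi = xi1 (w + z) r + xi1 z r →
    3 / 20 * dQ r w ≤ r * (xi - xi1 (-w) r) → r * (xi - xi1 (-w) r) ≤ 3 / 5 * dQ r w →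
    RowU V .pnn r lam w z xi (H4 xi r lam w) (-C1d r lam z) (C1d r lam (w + z))
  /-- V, 12 and 23 on `c1`, `w, z ≤ 0`, 13 in `[0, W]` -/
  vu_0 : ∀ r lam w z xi : ℝ, Dom .nn r lam w z → xi = xi1 w r - xi1 z r →
    0 ≤ xi → xi ≤ xi1 (w + z) r →
    RowV V .nn r lam w z xi 0 (C1d r lam w) (-C1d r lam z) (V0 xi r lam (w + z))
  /-- V, 12 and 23 on `c1`, `w ≤ 0 ≤ z`, 13 in `[W, 1.15]` -/
  vu_1 : ∀ r lam w z xi : ℝ, Dom .npn r lam w z → w + z < 0 → xi = xi1 w r - xi1 z r →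
    xi1 (w + z) r ≤ xi → xi ≤ xv5 (w + z) r →
    RowV V .npn r lam w z xi 0 (C1d r lam w) (-C1u r lam z) (V1 xi r lam (w + z))
  /-- V, 12 and 23 on `c1`, `w ≤ 0 ≤ z`, 13 in `[1.15, 1.6]` -/
  vu_2 : ∀ r lam w z xi : ℝ, Dom .npn r lam w z → w + z < 0 → xi = xi1 w r - xi1 z r →
    xv5 (w + z) r ≤ xi → xi ≤ xv6 (w + z) r →
    RowV V .npn r lam w z xi 0 (C1d r lam w) (-C1u r lam z) (V2 xi r lam (w + z))
  /-- V, 12 and 23 on `c1`, `w ≤ 0 ≤ z`, 13 in `[1.6, c3]` -/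
  vu_3 : ∀ r lam w z xi : ℝ, Dom .npn r lam w z → w + z < 0 → xi = xi1 w r - xi1 z r →
    xv6 (w + z) r ≤ xi → xi ≤ x3v (w + z) r →
    RowV V .npn r lam w z xi 0 (C1d r lam w) (-C1u r lam z) (V3 xi r lam (w + z))
  /-- V, 12 on `c1`, 13 on `c3`, `w ≤ 0 ≤ z`, 23 in `[c1, W]` -/
  vc_1 : ∀ r lam w z xi' : ℝ, Dom .npn r lam w z → w + z ≤ 0 →
    xi' = xi1 w r - x3v (w + z) r → xi1 z r ≤ xi' → xi' ≤ xiw z r →
    RowV V .npn r lam w z (x3v (w + z) r) ((xi' - xi1 z r) / 2) (C1d r lam w)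
      (-Pw xi' r lam z) (C33 r lam (w + z))
  /-- V, 12 on `c1`, 13 on `c3`, `w ≤ 0 ≤ z`, 23 in `[W, 1.15]` -/
  vc_2 : ∀ r lam w z xi' : ℝ, Dom .npn r lam w z → w + z ≤ 0 →
    xi' = xi1 w r - x3v (w + z) r → xiw z r ≤ xi' → 1 / 2 + r * xi' ≤ xb z r →
    RowV V .npn r lam w z (x3v (w + z) r) ((xi' - xi1 z r) / 2) (C1d r lam w)
      (-Pb xi' r lam z) (C33 r lam (w + z))

end Pool.Agent.Strip051.LC.E1
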