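import Mathlib

/-! # Rests near the full period: the slacks

`e = 1 - x` is the scaled gap; in the windows next to the lattice heights all distances are written
as `r` times a coordinate and `e = lam * r`. Two normalisations are used: `lam = 1`, and the largest
coordinate of a height equal to `1` (then `lam` is small). -/

namespace Pool.Agent.Strip051.LC.E1

namespace G

/-- `√(1 - s²)` for `s = h0 (1 - e)`. -/
noncomputable def gs (e : ℝ) : ℝ := Real.sqrt (1 / 4 + 3 / 2 * e - 3 / 4 * e ^ 2)

noncomputable def ig (e : ℝ) : ℝ := 1 / (gs e + 1 / 2)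

/-- The amplitude divided by `e`. -/
noncomputable def eh (e : ℝ) : ℝ := (3 / 2 - 3 / 4 * e) * ig e - 1 / 2

/-- `(1 - eh) / e`. -/
noncomputable def q1 (e : ℝ) : ℝ := 3 / 2 * (1 + eh e) * ig e

/-- `(eh / (1 - e) - 1) / e`. -/
noncomputable def et (e : ℝ) : ℝ := (1 - q1 e) / (1 - e)

/-- The slack inside the gap. -/
noncomputable def FinS (r lam a b l n gam del nu base lev : ℝ) : ℝ :=
  nu / r + n * lam * q1 (lam * r) + base - eh (lam * r) * gam - lev -
    eh (lam * r) * (lam - l) * |del| * (1 - r * l) / (1 - lam * r) -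
    r * eh (lam * r) * (if del ≤ 0 then b else a) * l * del ^ 2 * (1 - r * l) ^ 2 /
      ((1 - lam * r) * (n + r * gam + r * (if del ≤ 0 then b else a) * |del| * (1 - r * l)))

/-- The domain of `FinS`. -/
def InOkS (r a b l n gam del : ℝ) : Prop :=
  0 ≤ a ∧ 0 ≤ b ∧ 0 < l ∧ r * l < 1 ∧
    r * (if del ≤ 0 then a else b) * |del| * (1 - r * l) ≤ n + r * gam

/-- The slack beyond the gap. -/
noncomputable def FoutS (r lam a b l n gam del nu base lev : ℝ) : ℝ :=
  nu / r + n / r * (1 - lam / l) ^ 2 +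
    n * (lam * (1 + lam * r * et (lam * r)) -
      2 * et (lam * r) * (lam ^ 2 / l) * (1 - lam / (2 * l))) +
    base - lev - 2 * lam * (1 + lam * r * et (lam * r)) *
      (gam * (1 - lam / (2 * l) - r * l / 2) / l +
        (a - b) * del * (1 - r * l) * (1 - lam / l) / (2 * l) +
        a * b * (lam * r) * del ^ 2 * (1 - r * l) ^ 2 / (2 * l ^ 2 * (n + r * gam)))

/-- The domain of `FoutS`. -/
def OutOkS (r lam a b l n gam del : ℝ) : Prop :=
  0 ≤ a ∧ 0 ≤ b ∧ 0 < l ∧ 0 < n + r * gam ∧ 0 < n + r * gam + r * a * del * (1 - r * l) ∧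
    0 < n + r * gam - r * b * del * (1 - r * l) ∧
    lam * (n + r * gam + r * a * del * (1 - r * l)) ≤ (n + r * gam) * l ∧
    lam * (n + r * gam - r * b * del * (1 - r * l)) ≤ (n + r * gam) * l

/-- The crude slack inside the gap. -/
noncomputable def FcS (r lam l n gam del nu base lev : ℝ) : ℝ :=
  nu / r + n * lam * q1 (lam * r) + base - eh (lam * r) * gam - lev -
    lam * eh (lam * r) * |del| * (1 - r * l) / (1 - lam * r)

/-- The domain of `FcS`. -/
def CinOkS (r a b l n gam : ℝ) : Prop :=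
  0 ≤ a ∧ 0 ≤ b ∧ 0 < l ∧ r * l < 1 ∧ 0 ≤ n + r * gam

/-- The slack for a negative second moment. -/
noncomputable def FnS (r lam l n gam del nu base lev : ℝ) : ℝ :=
  (nu + n) / r + base - lev -
    lam * eh (lam * r) * (|del| * (1 - r * l) - (n + r * gam)) / (1 - lam * r)

/-- The domain of `FnS`. -/
def NegOkS (r a b l n gam : ℝ) : Prop :=
  0 ≤ a ∧ 0 ≤ b ∧ 0 < l ∧ r * l < 1 ∧ n + r * gam ≤ 0

/-- One of the slacks is nonnegative. -/
def SlkS (r lam a b l n gam del nu base lev : ℝ) : Prop :=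
  (InOkS r a b l n gam del ∧ 0 ≤ FinS r lam a b l n gam del nu base lev) ∨
    (OutOkS r lam a b l n gam del ∧ 0 ≤ FoutS r lam a b l n gam del nu base lev) ∨
    (CinOkS r a b l n gam ∧ 0 ≤ FcS r lam l n gam del nu base lev) ∨
    (NegOkS r a b l n gam ∧ 0 ≤ FnS r lam l n gam del nu base lev)

end G


open G

/-- The signs of the three residues. -/
inductive Pat
  | pp
  | pnp
  | pnn
  | npn
  | nn

/-- The condition on the signs. -/
def Pat.Ok : Pat → ℝ → ℝ → Prop
  | .pp, w, z => 0 ≤ w ∧ 0 ≤ z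
  | .pnp, w, z => 0 ≤ w ∧ z ≤ 0 ∧ 0 ≤ w + z
  | .pnn, w, z => 0 ≤ w ∧ z ≤ 0 ∧ w + z ≤ 0
  | .npn, w, z => w ≤ 0 ∧ 0 ≤ z ∧ w + z ≤ 0
  | .nn, w, z => w ≤ 0 ∧ z ≤ 0

/-- The largest one of the three coordinates. -/
def Pat.len : Pat → ℝ → ℝ → ℝ
  | .pp, w, z => w + z
  | .pnp, w, _ => w
  | .pnn, _, z => -z
  | .npn, w, _ => -w
  | .nn, w, z => -(w + z)

/-- The slack for the patterns: the kernels are `B12 + r * k12` and so on, the second moment of the
leading parts is `-g`, the excess is `r * (nu - g) + r ^ 2 * (base - lev)`. -/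
def SlkP (P : Pat) (r lam w z g k12 k23 k13 nu base lev : ℝ) : Prop :=
  match P with
  | .pp => SlkS r lam w z (w + z) (-g) (w * k23 - z * k12) (-(k12 + k23 - k13)) nu base lev
  | .pnp => SlkS r lam (w + z) (-z) w (-g) ((w + z) * k23 - z * k13) (-(k12 + k23 - k13))
      nu base lev
  | .pnn => SlkS r lam (-(w + z)) w (-z) (-g) (w * k13 - (w + z) * k12) (-(k12 + k23 - k13))
      nu base lev
  | .npn => SlkS r lam z (-(w + z)) (-w) (-g) ((w + z) * k23 - z * k13) (-(k12 + k23 - k13))
      nu base lev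
  | .nn => SlkS r lam (-z) (-w) (-(w + z)) (-g) (w * k23 - z * k12) (-(k12 + k23 - k13))
      nu base lev

/-! ### The statement of a row -/

/-- The two vertices. -/
inductive Vx
  | far
  | near

namespace G

noncomputable def mu (e : ℝ) : ℝ := 1 / (3 + 2 * gs e)

/-- The scale of the levels. -/
noncomputable def LAM (e : ℝ) : ℝ := 2 * (1 - gs e)

/-- The value of the second kernel at the lattice points. -/
noncomputable def B0 (e : ℝ) : ℝ := LAM e / (2 * eh e)

/-- The factor of the kernel of the near vertex at the lattice points. -/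
noncomputable def be (e : ℝ) : ℝ := 1 + LAM e * mu e + mu e * B0 e

/-- The deviation of the kernel of the near vertex. -/
noncomputable def nk (e k b : ℝ) : ℝ := (1 + LAM e * mu e) * k + mu e * b

end G

/-- The values on a side whose end is next to the lattice point `(X, Y)`, at the position
`X + r xi`: the kernel of the far vertex is `X + r k`, the second kernel is `B0 X + r b`, the level
is `r LAM xi + r cA + r ^ 2 cB`. -/
@[ext] structure Sv where
  k : ℝ
  cA : ℝ
  cB : ℝ
  b : ℝ

namespace Sv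

instance : Neg Sv := ⟨fun s => ⟨-s.k, -s.cA, -s.cB, -s.b⟩⟩

/-- The level, divided by `r ^ 2`. -/
noncomputable def c (s : Sv) (r : ℝ) : ℝ := s.cA / r + s.cB

end Sv

/-- A lattice triangle: the heights `n`, `n'` (divided by `h0`) of the sides bottom-middle and
middle-top, the abscissas `p`, `q` of the sides bottom-middle and bottom-top. -/
structure Bs where
  n : ℝ
  n' : ℝ
  p : ℝ
  q : ℝ

/-- The second moment of the leading parts of the kernels. -/
def Bs.g (B : Bs) (w z : ℝ) : ℝ := z * B.p - w * (B.q - B.p)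

/-- The levels of the near vertex. -/
noncomputable def lvn (B : Bs) (r lam w z c12 c23 c13 : ℝ) : ℝ :=
  -(G.mu (lam * r) * (((B.n' + r * z) * c12 - (B.n + r * w) * c23) / 2 -
    (4 - lam * r - (B.n + B.n') - r * (w + z)) / 2 * |c12 + c23 - c13|))

/-- The statement of a row; `N + r S` is the part of first order of the excess, increased by
`g`. -/
def RowC (V : Vx) (P : Pat) (B : Bs) (r lam w z xi12 xi13 N S : ℝ) (a b c : Sv) : Prop :=
  match V with
  | .far => SlkP P r lam w z (B.g w z) a.k b.k c.k N (S + ((w + z) * xi12 - w * xi13) / 2)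
      (|a.c r + b.c r - c.c r| / 2)
  | .near => SlkP P r lam w z (be (lam * r) * B.g w z) (nk (lam * r) a.k a.b)
      (nk (lam * r) b.k b.b) (nk (lam * r) c.k c.b) ((1 + LAM (lam * r) * G.mu (lam * r)) * N)
      ((1 + LAM (lam * r) * G.mu (lam * r)) * (S + ((w + z) * xi12 - w * xi13) / 2) +
        G.mu (lam * r) * LAM (lam * r) * lam * q1 (lam * r) / (2 * eh (lam * r)) * B.g w z)
      (lvn B r lam w z (a.c r) (b.c r) (c.c r))

end Pool.Agent.Strip051.LC.E1
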