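import Pool.Agent.Strip051.LC.E1.VertH

/-! # Rests near the full period: bounds of the constants -/

namespace Pool.Agent.Strip051.LC.E1

open G

/-- Bounds of the constants. -/
structure Cs (e : ℝ) : Prop where
  e0 : 0 < e
  e1 : e ≤ 1 / 40
  eh0 : 929 / 1000 ≤ eh e
  eh1 : eh e ≤ 1
  L0 : 23 / 25 ≤ LAM e
  L1 : LAM e ≤ 1
  m0 : 12 / 49 ≤ G.mu e
  m1 : G.mu e ≤ 1 / 4
  B0 : 249 / 500 ≤ G.B0 e
  B1 : G.B0 e ≤ 1 / 2
  p0 : -6 ≤ pK e
  p1 : pK e ≤ -(11 / 2)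
  q0' : -(3 / 4) ≤ pB e
  q1' : pB e ≤ -(17 / 25)
  v0 : -(53 / 10) ≤ vW0 e
  v1 : vW0 e ≤ -(93 / 20)
  w0 : -(3 / 4) ≤ -(G.B0 e * (eh e + 1 / 2) * ig e)
  w1 : -(G.B0 e * (eh e + 1 / 2) * ig e) ≤ -(17 / 25)
  i0 : 24 / 25 ≤ ig e
  i1 : ig e ≤ 1

variable {e : ℝ}

theorem dW_up (he : 0 < e) (he1 : e ≤ 1 / 40) : dW e ≤ 3 / 2 - 3 * e := by
  have h1 := q1_lo he he1
  have h1' := q1_up he he1
  have h2 := eh_lo he he1
  have h3 := eh_up he he1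
  have h4 := gs_lo he he1
  have h5 := gs_up he he1
  have h6 : 0 < eh e := eh_pos he (by linarith)
  have h7 : 0 < gs e := by nlinarith
  unfold dW
  rw [div_le_iff₀ (by positivity)]
  have k1 : eh e * (1 / 2 + 3 / 2 * e - 3 * e ^ 2) ≤ eh e * gs e :=
    mul_le_mul_of_nonneg_left h4 h6.le
  have k2 : 0 ≤ (e * (eh e + 1 / 2)) * (q1 e - (3 - 9 * e)) :=
    mul_nonneg (by positivity) (by linarith)
  have k3 : 0 ≤ e * (eh e - (1 - 3 * e + 7 * e ^ 2)) := mul_nonneg he.le (by linarith)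
  have k4 : 0 ≤ e * (1 - 3 * e + 9 * e ^ 2 - eh e) := mul_nonneg he.le (by linarith)
  have k5 : 0 ≤ e ^ 2 * (eh e - (1 - 3 * e + 7 * e ^ 2)) := mul_nonneg (sq_nonneg e) (by linarith)
  have k6 : 0 ≤ e ^ 2 * (1 - 3 * e + 9 * e ^ 2 - eh e) := mul_nonneg (sq_nonneg e) (by linarith)
  have k10 : 0 ≤ (3 / 2 - 3 * e) * (eh e * gs e - eh e * (1 / 2 + 3 / 2 * e - 3 * e ^ 2)) :=
    mul_nonneg (by linarith) (by linarith)
  have k7 : e ^ 3 ≤ 1 / 40 * e ^ 2 := by nlinarith [sq_nonneg e]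
  have k8 : e ^ 4 ≤ 1 / 1600 * e ^ 2 := by nlinarith [sq_nonneg e]
  have k9 : 0 ≤ e ^ 3 := by positivity
  have k11 : 0 ≤ e ^ 4 := by positivity
  nlinarith

theorem dW_lo (he : 0 < e) (he1 : e ≤ 1 / 40) : 3 / 2 - 6 * e ≤ dW e := by
  have h1 := q1_lo he he1
  have h1' := q1_up he he1
  have h2 := eh_lo he he1
  have h3 := eh_up he he1
  have h4 := gs_lo he he1
  have h5 := gs_up he he1
  have h6 : 0 < eh e := eh_pos he (by linarith)
  have h7 : 0 < gs e := by nlinarith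
  unfold dW
  rw [le_div_iff₀ (by positivity)]
  have k1 : eh e * gs e ≤ eh e * (1 / 2 + 3 / 2 * e - 11 / 4 * e ^ 2) :=
    mul_le_mul_of_nonneg_left h5 h6.le
  have k2 : 0 ≤ (e * (eh e + 1 / 2)) * (3 - 8 * e - q1 e) :=
    mul_nonneg (by positivity) (by linarith)
  have k3 : 0 ≤ e * (eh e - (1 - 3 * e + 7 * e ^ 2)) := mul_nonneg he.le (by linarith)
  have k4 : 0 ≤ e * (1 - 3 * e + 9 * e ^ 2 - eh e) := mul_nonneg he.le (by linarith)
  have k5 : 0 ≤ e ^ 2 * (eh e - (1 - 3 * e + 7 * e ^ 2)) := mul_nonneg (sq_nonneg e) (by linarith)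
  have k6 : 0 ≤ e ^ 2 * (1 - 3 * e + 9 * e ^ 2 - eh e) := mul_nonneg (sq_nonneg e) (by linarith)
  have k10 : 0 ≤ (3 / 2 - 6 * e) * (eh e * (1 / 2 + 3 / 2 * e - 11 / 4 * e ^ 2) - eh e * gs e) :=
    mul_nonneg (by linarith) (by linarith)
  have k7 : e ^ 3 ≤ 1 / 40 * e ^ 2 := by nlinarith [sq_nonneg e]
  have k8 : e ^ 4 ≤ 1 / 1600 * e ^ 2 := by nlinarith [sq_nonneg e]
  have k9 : 0 ≤ e ^ 3 := by positivity
  have k11 : 0 ≤ e ^ 4 := by positivity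
  nlinarith

theorem Cs.of (he : 0 < e) (he1 : e ≤ 1 / 40) : Cs e := by
  have h1 := q1_lo he he1
  have h1' := q1_up he he1
  have h2 := eh_lo he he1
  have h3 := eh_up he he1
  have l1 := LAM_lo he he1
  have l2 := LAM_up he he1
  have m1 := mu_lo he he1
  have m2 := mu_up he he1
  have b1 := B0_lo he he1
  have b2 := B0_up he he1
  have p1 := pK_lo he he1
  have p2 := pK_up he he1
  have d1 := dW_lo he he1
  have d2 := dW_up he he1
  have i1 := ig_lo he he1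
  have i2 := ig_up he he1
  have ip := @ig_pos e
  have e2 : 0 ≤ e ^ 2 := sq_nonneg e
  have e2' : e ^ 2 ≤ 1 / 40 * e := by nlinarith
  have E0 : 929 / 1000 ≤ eh e := by nlinarith
  have E1 : eh e ≤ 1 := by nlinarith
  have I0 : 24 / 25 ≤ ig e := by nlinarith
  have I1 : ig e ≤ 1 := by nlinarith
  -- `(q1 / 2 + pK) / (eh + 1)`
  have f1 : -(9 / 4) - 6 * e ≤ (q1 e / 2 + pK e) / (eh e + 1) := by
    rw [le_div_iff₀ (by linarith)]
    nlinarith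
  have f2 : (q1 e / 2 + pK e) / (eh e + 1) ≤ -2 - 4 * e := by
    rw [div_le_iff₀ (by linarith)]
    nlinarith
  have g1 : -(21 / 4) - 9 * e ^ 2 ≤ (q1 e / 2 + pK e) / (eh e + 1) - dW e - (eh e + 1 / 2) := by
    linarith
  have g2 : (q1 e / 2 + pK e) / (eh e + 1) - dW e - (eh e + 1 / 2) ≤ -5 + 5 * e := by
    nlinarith
  refine ⟨he, he1, E0, E1, by nlinarith, by nlinarith, m1, m2, b1, b2, p1, p2, ?_, ?_, ?_, ?_, ?_,
    ?_, I0, I1⟩
  · unfold pB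
    nlinarith
  · unfold pB
    nlinarith
  · unfold vW0
    nlinarith
  · unfold vW0
    nlinarith
  · have k1 : G.B0 e * (eh e + 1 / 2) ≤ 1 / 2 * (3 / 2) :=
      mul_le_mul b2 (by linarith) (by linarith) (by norm_num)
    have k2 : 0 ≤ G.B0 e * (eh e + 1 / 2) := by
      have : 0 ≤ G.B0 e := by linarith
      have : 0 ≤ eh e := by linarith
      positivity
    nlinarith
  · have k1 : 249 / 500 * (1429 / 1000) ≤ G.B0 e * (eh e + 1 / 2) :=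
      mul_le_mul b1 (by linarith) (by norm_num) (by linarith)
    nlinarith

end Pool.Agent.Strip051.LC.E1
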