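import Pool.Agent.Strip051.LC.E1.Win
import Pool.Agent.Strip051.LC.Exact.FloorT

/-! # The short pairs at the floor with a small exceptional window -/

namespace Pool.Agent.Strip051.LC.E1

open Pool.Agent.StripNear Pool.Agent.StripSquare Pool.Agent.Strip051 Pool.Agent.Strip051.Sweep
open Pool.Agent.Strip051.LC
open Pool.Agent.Strip051.LC.Line

/-- **The inequalities at the floor with the exceptional window.** -/
structure WinA (U : ℝ → ℝ → ℝ → ℝ) (τ η D0 UM : ℝ) (al be : ℝ → ℝ) : Prop where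
  al0 : ∀ T, 0 ≤ al T
  be0 : ∀ T, 0 ≤ be T
  wall : ∀ X T y, 0 ≤ y → τ ≤ T → T ≤ 1 → 0 ≤ X → 1 ≤ X ^ 2 + T ^ 2 →
    X ^ 2 + T ^ 2 ≤ 3 → (T ≤ h0 ∨ 1 - Real.sqrt (1 - T ^ 2) ≤ X) → 1 / 2 ≤ U X y (y + T)
  flat : ∀ X T y, η ≤ y → 0 ≤ T → T ≤ τ → 0 ≤ X → 1 ≤ X ^ 2 + T ^ 2 →
    X ^ 2 + T ^ 2 ≤ 3 → 1 / 2 ≤ U X y (y + T)
  left : ∀ X T y, 0 ≤ y → 0 ≤ T → T ≤ τ → 0 ≤ X → X ≤ D0 →
    1 ≤ X ^ 2 + T ^ 2 → X ^ 2 + T ^ 2 ≤ 3 → 1 / 2 ≤ U X y (y + T)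
  high : ∀ X T T' y, 0 ≤ y → y ≤ η + τ → h0 - τ ≤ T → T ≤ T' → T' ≤ T + τ → T' ≤ 17 / 10 →
    0 ≤ X → 1 ≤ X ^ 2 + T' ^ 2 → X ^ 2 + T' ^ 2 ≤ 3 →
    1 / 2 + al T * (X - D0 / 2) ≤ U X y (y + T')
  far : ∀ X T T' y, 0 ≤ y → y ≤ η + τ → 4 / 5 ≤ T → T ≤ 29 / 20 → 1 ≤ UM ^ 2 + T ^ 2 →
    T - τ ≤ T' → T' ≤ T + τ → 0 ≤ T' → D0 ≤ X →
    1 ≤ X ^ 2 + T' ^ 2 → X ^ 2 + T' ^ 2 ≤ 3 → 1 + be T * (X - D0) ≤ U X y (y + T')
  near : ∀ X T y, 0 ≤ y → y ≤ η + τ → 4 / 5 ≤ T → T ≤ 29 / 20 → 0 ≤ X → X ≤ UM →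
    1 ≤ X ^ 2 + T ^ 2 → X ^ 2 + T ^ 2 ≤ 3 → U X y (y + T) ≤ be T * X

section

variable {U : ℝ → ℝ → ℝ → ℝ} {τ η D0 UM : ℝ} {al be : ℝ → ℝ}

theorem WinA.pair (h : WinA U τ η D0 UM al be) (hc : ∀ X y z, U X z y = U X y z)
    {a b : Pt} (hf : FF a b) (k : ds a b ≤ 3) :
    1 / 2 ≤ U (b.1 - a.1) a.2 b.2 ∨ WinP τ η D0 a b := by
  by_cases hw : WinP τ η D0 a b
  · exact Or.inr hw
  left
  refine hf.nf (P := fun X y z => 1 / 2 ≤ U X y z) k (fun X y z h => by rwa [hc] at h) ?_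
  intro X T y hy hT hT1 h1 h2 h3 eX eT ey
  have hX0 : 0 ≤ X := by nlinarith [sq_nonneg X, sq_nonneg T]
  rcases le_total τ T with ht | ht
  · refine h.wall X T y hy ht hT1 hX0 h1 h3 (Or.inr ?_)
    have h4 : |1 - X| ≤ Real.sqrt (1 - T ^ 2) := Real.abs_le_sqrt (by nlinarith)
    linarith [le_abs_self (1 - X)]
  · rcases le_total η y with hy1 | hy1
    · exact h.flat X T y hy1 hT ht hX0 h1 h3
    · have hXl : X < D0 := by
        by_contra hc'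
        apply hw
        have h5 : |b.2 - a.2| ≤ τ := by rw [← eT]; exact ht
        rw [abs_le] at h5
        exact ⟨by rw [← eX]; exact not_lt.1 hc', h5.2, by linarith [h5.1], by rw [← ey]; exact hy1⟩
      exact h.left X T y hy hT ht hX0 hXl.le h1 h3

/-- The inequalities for one vertex. -/
theorem WinA.winV {D : Data} {s μ : ℝ} (h : WinA U τ η D0 UM al be)
    (hc : ∀ X y z, U X z y = U X y z)
    (hW : ∀ a b : Pt, ds a b ≤ 3 → WF D s μ a b + 1 / 2 = U (b.1 - a.1) a.2 b.2)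
    (tri : ∀ p q r : Pt, 0 ≤ p.2 → 0 ≤ q.2 → 0 ≤ r.2 → 0 ≤ cr p q r → 1 ≤ ds p q →
      1 ≤ ds q r → 1 ≤ ds p r → ds p q ≤ 3 → ds q r ≤ 3 → ds p r ≤ 3 → p.2 ≤ 3 * h0 →
      q.2 ≤ 3 * h0 → r.2 ≤ 3 * h0 → 0 ≤ SF D s μ p q r) : WinV D s μ τ η D0 UM al be := by
  have hp := h0_pos
  have hsq := h0_sq
  have h01 : h0 < 1 := by nlinarith
  refine ⟨tri, ?_, h.al0, h.be0, ?_, ?_, ?_, ?_⟩
  · intro a b hf k
    rcases h.pair hc hf k with h1 | h1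
    · left
      rw [← hW a b k] at h1
      linarith
    · exact Or.inr h1
  · intro a b ha hb hx k1 k3 t1 t2
    have e := hW a b k3
    have key : 1 / 2 ≤ U (b.1 - a.1) a.2 b.2 := by
      refine pair_nf (P := fun X y z => 1 / 2 ≤ U X y z) ha hb k1 k3
        (fun X y z h => by rwa [hc] at h) ?_
      intro X T y hy hT h1 h3 eX eT ey
      rw [← eT] at t1 t2
      have hX0 : 0 ≤ X := by rw [eX]; linarith
      exact h.wall X T y hy t1 (by linarith) hX0 h1 h3 (Or.inl t2)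
    linarith
  · intro T a b ha hb hx k1 k3 hm t1 t3 t4 t5
    have e := hW a b k3
    have key : 1 / 2 + al T * (b.1 - a.1 - D0 / 2) ≤ U (b.1 - a.1) a.2 b.2 := by
      refine pair_nf (P := fun X y z => 1 / 2 + al T * (X - D0 / 2) ≤ U X y z) ha hb k1 k3
        (fun X y z h => by rwa [hc] at h) ?_
      intro X T' y hy hT h1 h3 eX eT ey
      rw [← eT] at t3 t4 t5
      rw [← ey] at hm
      have hX0 : 0 ≤ X := by rw [eX]; linarith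
      exact h.high X T T' y hy hm t1 t3 t4 t5 hX0 h1 h3
    linarith
  · intro T a b ha hb k1 k3 hm t1 t1' t2 t3 t4 hx
    have e := hW a b k3
    have key : 1 + be T * (b.1 - a.1 - D0) ≤ U (b.1 - a.1) a.2 b.2 := by
      have : D0 ≤ b.1 - a.1 → 1 + be T * (b.1 - a.1 - D0) ≤ U (b.1 - a.1) a.2 b.2 := by
        refine pair_nf (P := fun X y z => D0 ≤ X → 1 + be T * (X - D0) ≤ U X y z) ha hb k1 k3
          (fun X y z h h' => by have := h h'; rwa [hc] at this) ?_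
        intro X T' y hy hT h1 h3 eX eT ey hX
        rw [← eT] at t3 t4
        rw [← ey] at hm
        exact h.far X T T' y hy hm t1 t1' t2 t3 t4 hT hX h1 h3
      exact this hx
    linarith
  · intro T a b ha hb hx k1 k3 hm t1 t1' t2 hx'
    have e := hW a b k3
    have key : b.1 - a.1 ≤ UM → 0 ≤ b.1 - a.1 →
        U (b.1 - a.1) a.2 b.2 ≤ be T * (b.1 - a.1) := by
      refine pair_nf (P := fun X y z => X ≤ UM → 0 ≤ X → U X y z ≤ be T * X) ha hb k1 k3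
        (fun X y z h h' h'' => by have := h h' h''; rwa [hc] at this) ?_
      intro X T' y hy hT h1 h3 eX eT ey hX hX0
      rw [← eT] at t2
      subst t2
      rw [← ey] at hm
      exact h.near X T' y hy hm t1 t1' hX0 hX h1 h3
    rw [e]
    exact key hx' (by linarith)

end

section

variable {T : Tab} {Nd : ℝ → ℝ → Prop} {N0 : ℕ} {a κ s τ η D0 UM : ℝ} {al be al' be' : ℝ → ℝ}

/-- **The rows with two kernels and the window.** -/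
theorem rowWin (h : FixSm T Nd N0 a κ s) (hN3 : 3 ≤ N0) (hτ : 0 ≤ τ) (t1 : τ ≤ 1 / 50)
    (hη : η ≤ 1 / 50) (hD0 : 1 ≤ D0) (hU : 2 + 29 / 10 * τ ≤ D0 ^ 2 + 2 * D0 * UM)
    (hF : WinA (U0 T (fun _ _ => 0) (fun _ => 0) κ s) τ η D0 UM al be)
    (hN : WinA (UN T (fun _ _ => 0) (fun _ => 0) N0 κ s) τ η D0 UM al' be') :
    RowOK (T.flat N0 κ s) N0 s := by
  have hz : ∀ X t : ℝ, (fun _ _ : ℝ => (0 : ℝ)) (-X) t = -(fun _ _ : ℝ => (0 : ℝ)) X t :=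
    fun X t => by ring
  refine Or.inr (starSmall_of_win h.okD hτ t1 hη hD0 hU
    (hF.winV (edgeU0 h.ok hz (pieces3_zero h.pieces)).comm (fun p q k => WF_far2 k) ?_)
    (hN.winV (edgeUN h.ok hz (pieces3_zero h.pieces)).comm
      (fun p q k => WF_near2 h.s0 h.s1 k) ?_))
  · intro p q r _ _ _ k0 k1 k2 k3 k4 k5 k6 _ _ _
    exact h.tri0 p q r k0 k1 k2 k3 k4 k5 k6
  · intro p q r hp hq hr k0 k1 k2 k3 k4 k5 k6 l1 l2 l3
    exact h.triN hN3 p q r hp hq hr k0 k1 k2 k3 k4 k5 k6 l1 l2 l3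

end

end Pool.Agent.Strip051.LC.E1
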