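import Pool.Agent.Strip051.LC.E1.Slk
import Pool.Agent.Strip051.LC.E0.Pat

/-! # Rests near the full period: the sign patterns -/

namespace Pool.Agent.Strip051.LC.E1

open Pool.Agent.StripNear Pool.Agent.StripSquare Pool.Agent.Strip051 Pool.Agent.Strip051.Sweep
open Pool.Agent.Strip051.LC.Line
open Pool.Agent.Strip051.LC.Exact (kE)
open G

/-- The heights of a window. -/
structure Hts (r w z t t' : ℝ) : Prop where
  j : jn (t + t') = jn t + jn t'
  t1 : tau t = h0 * (r * w)
  t2 : tau t' = h0 * (r * z)
  t3 : tau (t + t') = h0 * (r * (w + z))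
  p0 : 0 ≤ t
  p1 : 0 ≤ t'
  p2 : t + t' ≤ 2 * h0

section

variable {r lam w z t t' g B1 B2 k12 k23 k13 nu base lev : ℝ}

theorem kE_pos (he : 0 < lam * r) (he1 : lam * r < 1) : 0 ≤ kE (h0 * (1 - lam * r)) := by
  have hp := h0_pos
  have hk := kE_h0 he he1
  have h5 : 0 ≤ kE (h0 * (1 - lam * r)) * h0 := by
    rw [hk]
    have := (eh_pos he he1).le
    have : 0 < 1 - lam * r := by linarith
    positivity
  exact nonneg_of_mul_nonneg_left h5 hp

theorem ex_eq (hr : 0 < r) : r * (nu - g) + r ^ 2 * (base - lev) =
    r ^ 2 * ((nu + -g) / r + base - lev) := by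
  have := hr.ne'
  field_simp
  ring

/-- **A row from the scaled slack.** -/
theorem pat_kf {P : Pat} (H : Hts r w z t t') (hr : 0 < r) (hl : 0 < lam) (he1 : lam * r < 1)
    (hP : P.Ok w z) (hg : g = z * B1 - w * B2)
    (hS : SlkP P r lam w z g k12 k23 k13 nu base lev) (y : ℝ) :
    0 ≤ r * (nu - g) + r ^ 2 * (base - lev) + kf (kE (h0 * (1 - lam * r))) (h0 * (1 - lam * r))
      (B1 + r * k12, B2 + r * k23, B1 + B2 + r * k13) t t' y := by
  have hp := h0_pos
  have he : 0 < lam * r := by positivity
  have key : NGV (kE (h0 * (1 - lam * r))) (h0 * (1 - lam * r)) (r * (nu - g) + r ^ 2 * (base - lev)) t t'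
      (B1 + r * k12, B2 + r * k23, B1 + B2 + r * k13) := by
    cases P with
    | pp =>
      obtain ⟨h1, h2⟩ := hP
      refine .pp H.j ?_ ?_ ?_
      · rw [H.t1]; positivity
      · rw [H.t2]; positivity
      · rw [H.t1, H.t2]
        refine slk_monS hr hl he1 (l := w + z) (n := -g) (gam := w * k23 - z * k12)
          (del := -(k12 + k23 - k13)) (nu := nu) (base := base) (lev := lev) rfl ?_ ?_
          (ex_eq hr) hS
        · rw [hg]; ring
        · ring
    | pnp =>
      obtain ⟨h1, h2, h3⟩ := hP
      refine .pnp H.j ?_ ?_ ?_ ?_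
      · rw [H.t1]; positivity
      · rw [H.t2]
        have : 0 ≤ h0 * (r * -z) := by
          have : 0 ≤ -z := by linarith
          positivity
        linarith
      · rw [H.t3]; positivity
      · rw [H.t2, H.t3, show -(h0 * (r * z)) = h0 * (r * -z) by ring]
        refine slk_monS hr hl he1 (l := w) (n := -g) (gam := (w + z) * k23 - z * k13)
          (del := -(k12 + k23 - k13)) (nu := nu) (base := base) (lev := lev) (by ring) ?_ ?_
          (ex_eq hr) hS
        · rw [hg]; ring
        · ring
    | pnn =>
      obtain ⟨h1, h2, h3⟩ := hP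
      refine .pnn H.j ?_ ?_ ?_ ?_
      · rw [H.t1]; positivity
      · rw [H.t2]
        have : 0 ≤ h0 * (r * -z) := by
          have : 0 ≤ -z := by linarith
          positivity
        linarith
      · rw [H.t3]
        have : 0 ≤ h0 * (r * -(w + z)) := by
          have : 0 ≤ -(w + z) := by linarith
          positivity
        linarith
      · rw [H.t1, H.t3, show -(h0 * (r * (w + z))) = h0 * (r * -(w + z)) by ring]
        refine slk_monS hr hl he1 (l := -z) (n := -g) (gam := w * k13 - (w + z) * k12)
          (del := -(k12 + k23 - k13)) (nu := nu) (base := base) (lev := lev) (by ring) ?_ ?_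
          (ex_eq hr) hS
        · rw [hg]; ring
        · ring
    | npn =>
      obtain ⟨h1, h2, h3⟩ := hP
      refine .npn H.j ?_ ?_ ?_ ?_
      · rw [H.t1]
        have : 0 ≤ h0 * (r * -w) := by
          have : 0 ≤ -w := by linarith
          positivity
        linarith
      · rw [H.t2]; positivity
      · rw [H.t3]
        have : 0 ≤ h0 * (r * -(w + z)) := by
          have : 0 ≤ -(w + z) := by linarith
          positivity
        linarith
      · rw [H.t2, H.t3, show -(h0 * (r * (w + z))) = h0 * (r * -(w + z)) by ring]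
        refine slk_monS hr hl he1 (l := -w) (n := -g) (gam := (w + z) * k23 - z * k13)
          (del := -(k12 + k23 - k13)) (nu := nu) (base := base) (lev := lev) (by ring) ?_ ?_
          (ex_eq hr) hS
        · rw [hg]; ring
        · ring
    | nn =>
      obtain ⟨h1, h2⟩ := hP
      refine .nn H.j ?_ ?_ ?_
      · rw [H.t1]
        have : 0 ≤ h0 * (r * -w) := by
          have : 0 ≤ -w := by linarith
          positivity
        linarith
      · rw [H.t2]
        have : 0 ≤ h0 * (r * -z) := by
          have : 0 ≤ -z := by linarith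
          positivity
        linarith
      · rw [H.t1, H.t2, show -(h0 * (r * z)) = h0 * (r * -z) by ring,
          show -(h0 * (r * w)) = h0 * (r * -w) by ring]
        refine slk_monS hr hl he1 (l := -(w + z)) (n := -g) (gam := w * k23 - z * k12)
          (del := -(k12 + k23 - k13)) (nu := nu) (base := base) (lev := lev) (by ring) ?_ ?_
          (ex_eq hr) hS
        · rw [hg]; ring
        · ring
  exact key.dir (kE_pos he he1) (by
      have : 0 ≤ 1 - lam * r := by linarith
      positivity) (by nlinarith) H.p0 H.p1 H.p2 y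

end

end Pool.Agent.Strip051.LC.E1
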