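import Pool.Agent.Strip051.PB.BridgeX
import Pool.Agent.Strip051.LC.E1.Pat

/-! # Cubes near `x = 1`: the statement for all shapes

`OKV V T κ x X12 X13 y y'` is the statement of the vertex `V` for the triangle with the sides
`(X12, h0 y)`, `(X13, h0 (y + y'))`, with the values of the kernels of the tables `T`. The rows of
the families `A` and `B` are special cases (`stA_of`, `stB_of`); the statement is symmetric
(`okv_mir`) and concave between nodes (`okv_conc`), and it carries over to a shape with a larger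
excess if the kernels change little (`okv_move`). -/

namespace Pool.Agent.Strip051.LC.E1

open Pool.Agent.StripNear Pool.Agent.StripSquare Pool.Agent.Strip051 Pool.Agent.Strip051.Sweep
open Pool.Agent.Strip051.PB

/-- The tables: positions, kernels of the two vertices, levels. -/
structure Tbs (n : ℕ) where
  D : PV n
  RA : Fin (n + 1) → ℕ → ℝ → ℝ → ℝ
  RB : Fin (n + 1) → ℕ → ℝ → ℝ → ℝ
  RL : Fin (n + 1) → ℕ → ℝ → ℝ → ℝ

/-- The kernel of a vertex. -/
def Tbs.R {n : ℕ} (T : Tbs n) : Vx → Fin (n + 1) → ℕ → ℝ → ℝ → ℝ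
  | .far => T.RA
  | .near => T.RB

/-- The kernel of the table `R` at the abscissa `X` and the height `h0 y`. -/
noncomputable def kv {n : ℕ} (D : PV n) (R : Fin (n + 1) → ℕ → ℝ → ℝ → ℝ) (x X y : ℝ) : ℝ :=
  ker D.cur.nodes (tbl R x) (fun _ _ => 0) X (h0 * y)

/-- The values on the three sides. -/
noncomputable def kv3 {n : ℕ} (D : PV n) (R : Fin (n + 1) → ℕ → ℝ → ℝ → ℝ)
    (x X12 X13 y y' : ℝ) : ℝ × ℝ × ℝ :=
  (kv D R x X12 y, kv D R x (X13 - X12) y', kv D R x X13 (y + y'))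

/-- The statement of a vertex with explicit values. -/
def StV (V : Vx) (κ x y y' e : ℝ) (l r : ℝ × ℝ × ℝ) : Prop :=
  match V with
  | .far => VFD κ x y y' e l r
  | .near => VND 3 κ x y y' e l r

/-- The statement of a vertex for a triangle. -/
def OKV {n : ℕ} (V : Vx) (T : Tbs n) (κ x X12 X13 y y' : ℝ) : Prop :=
  StV V κ x y y' (exn' X12 X13 y (y + y')) (kv3 T.D T.RL x X12 X13 y y')
    (kv3 T.D (T.R V) x X12 X13 y y')

section

variable {n : ℕ} {D : PV n} {R RK RL : Fin (n + 1) → ℕ → ℝ → ℝ → ℝ} {x : ℝ}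

theorem kv_neg (X y : ℝ) : kv D R x (-X) y = -kv D R x X y := D.cur.ker_neg _ _ _

theorem kv_zero (y : ℝ) : kv D R x 0 y = 0 := PosQ.ker_at_zero _ _

theorem h3_of {y : ℝ} (h0y : 0 ≤ y) (h2y : y ≤ 2) : (h0 * y) ^ 2 ≤ 3 := by
  have := h0_sq
  rw [mul_pow, this]
  nlinarith

/-- The value on a curve. -/
theorem kv_cv (h : PinsV D R x) (j : Fin (n + 1)) {q : ℕ} {y : ℝ} (hq : InQ q y) :
    kv D R x (crv D.P j q y) y = R j q y x := by
  have hp := h0_pos
  have e : D.Q.cv j (h0 * y) = crv D.P j q y := D.linkX j q y hq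
  unfold kv
  rw [← e]
  refine (PosQ.ker_cv (P := D.Q) h.adm j (mul_nonneg hp.le hq.nonneg)
    (h3_of hq.nonneg hq.le_two)).trans ?_
  exact tbl_eq hq

theorem kv_cv' (h : PinsV D R x) (j : Fin (n + 1)) {q : ℕ} {y σ : ℝ} (hσ : σ = 1 ∨ σ = -1)
    (hq : InQ q y) : kv D R x (σ * crv D.P j q y) y = σ * R j q y x := by
  rcases hσ with rfl | rfl
  · rw [one_mul, one_mul]
    exact kv_cv h j hq
  · rw [neg_one_mul, neg_one_mul, kv_neg, kv_cv h j hq]

/-- Between two curves without a node between them the kernel is affine. -/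
theorem kv_between (h : PinsV D R x) {i j : Fin (n + 1)} {q : ℕ} {X y : ℝ} (hq : InQ q y)
    (hn : ∀ k, D.r k y → k ≤ i ∨ j ≤ k) (h1 : crv D.P i q y ≤ X) (h2 : X ≤ crv D.P j q y) :
    kv D R x X y = R i q y x + (R j q y x - R i q y x) *
      ((X - crv D.P i q y) / (crv D.P j q y - crv D.P i q y)) := by
  have hp := h0_pos
  have e : ∀ k, D.Q.cv k (h0 * y) = crv D.P k q y := fun k => D.linkX k q y hq
  have hT := mul_nonneg hp.le hq.nonneg
  have h3 := h3_of hq.nonneg hq.le_two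
  have t : ∀ k, ker D.Q.nodes (tbl R x) (fun _ _ => 0) (D.Q.cv k (h0 * y)) (h0 * y) =
      R k q y x := fun k => (PosQ.ker_cv h.adm k hT h3).trans (tbl_eq hq)
  have := PosQ.ker_between (P := D.Q) (tbl R x) (i := i) (j := j) (X := X) hT h3
    (fun k hk => hn k ((D.dm_iff (j := k)).1 hk).2) (by rw [e]; exact h1) (by rw [e]; exact h2)
  rw [t, t, e, e] at this
  exact this

end

section

variable {n : ℕ} {T : Tbs n} {κ x : ℝ} {pc : ℕ → Piece} {a b c : ℕ} {j k : Fin (n + 1)}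
  {σ σ' y y' : ℝ}

theorem kv3_A {R : Fin (n + 1) → ℕ → ℝ → ℝ → ℝ} {f : ℕ → ℝ → ℝ → ℝ → ℝ} (hR : PinsV T.D R x)
    (hf : ∀ q X y, InQ q y → 1 ≤ qqn X y → qqn X y ≤ 3 → thd T.D.P R q X y x = f q X y x)
    (hσ : σ = 1 ∨ σ = -1) (hσ' : σ' = 1 ∨ σ' = -1) (F : FactsA T.D.P a b c j k σ σ' y y') :
    kv3 T.D R x (σ * crv T.D.P j a y) (σ * crv T.D.P j a y + σ' * crv T.D.P k b y') y y' =
      vlA T.D.P R f a b c j k σ σ' x y y' := by
  unfold kv3 vlA
  rw [add_sub_cancel_left, kv_cv' hR j hσ F.q1, kv_cv' hR k hσ' F.q2]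
  congr 2
  exact (hR.link.congr hf).third c _ _ F.q3 F.len1 F.len3

theorem kv3_B {R : Fin (n + 1) → ℕ → ℝ → ℝ → ℝ} {f : ℕ → ℝ → ℝ → ℝ → ℝ} (hR : PinsV T.D R x)
    (hf : ∀ q X y, InQ q y → 1 ≤ qqn X y → qqn X y ≤ 3 → thd T.D.P R q X y x = f q X y x)
    (hσ : σ = 1 ∨ σ = -1) (hσ' : σ' = 1 ∨ σ' = -1) (F : FactsB T.D.P a b c j k σ σ' y y') :
    kv3 T.D R x (σ * crv T.D.P j a y) (σ' * crv T.D.P k c (y + y')) y y' =
      vlB T.D.P R f a b c j k σ σ' x y y' := by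
  unfold kv3 vlB
  rw [kv_cv' hR j hσ F.q1, kv_cv' hR k hσ' F.q3]
  congr 2
  exact (hR.link.congr hf).third b _ _ F.q2 F.len1 F.len3

/-- **Family `A`** from the statement for all shapes, far vertex. -/
theorem stA_far (h : SideV T.D T.RA T.RL pc x) (hσ : σ = 1 ∨ σ = -1) (hσ' : σ' = 1 ∨ σ' = -1)
    (F : FactsA T.D.P a b c j k σ σ' y y')
    (H : OKV .far T κ x (σ * crv T.D.P j a y) (σ * crv T.D.P j a y + σ' * crv T.D.P k b y') y y') :
    StA (VFD κ) T.D.P T.RA T.RL pc a b c j k σ σ' x y y' := by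
  unfold OKV at H
  rw [kv3_A h.pinL h.thL hσ hσ' F] at H
  have e := kv3_A h.pinK h.thK hσ hσ' F
  unfold StA exA
  rw [← e]
  exact H

theorem stA_near (h : SideV T.D T.RB T.RL pc x) (hσ : σ = 1 ∨ σ = -1) (hσ' : σ' = 1 ∨ σ' = -1)
    (F : FactsA T.D.P a b c j k σ σ' y y')
    (H : OKV .near T κ x (σ * crv T.D.P j a y) (σ * crv T.D.P j a y + σ' * crv T.D.P k b y')
      y y') :
    StA (VND 3 κ) T.D.P T.RB T.RL pc a b c j k σ σ' x y y' := by
  unfold OKV at H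
  rw [kv3_A h.pinL h.thL hσ hσ' F] at H
  have e := kv3_A h.pinK h.thK hσ hσ' F
  unfold StA exA
  rw [← e]
  exact H

/-- **Family `B`** from the statement for all shapes, far vertex. -/
theorem stB_far (h : SideV T.D T.RA T.RL pc x) (hσ : σ = 1 ∨ σ = -1) (hσ' : σ' = 1 ∨ σ' = -1)
    (F : FactsB T.D.P a b c j k σ σ' y y')
    (H : OKV .far T κ x (σ * crv T.D.P j a y) (σ' * crv T.D.P k c (y + y')) y y') :
    StB (VFD κ) T.D.P T.RA T.RL pc a b c j k σ σ' x y y' := by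
  unfold OKV at H
  rw [kv3_B h.pinL h.thL hσ hσ' F] at H
  have e := kv3_B h.pinK h.thK hσ hσ' F
  unfold StB exB
  rw [← e]
  exact H

theorem stB_near (h : SideV T.D T.RB T.RL pc x) (hσ : σ = 1 ∨ σ = -1) (hσ' : σ' = 1 ∨ σ' = -1)
    (F : FactsB T.D.P a b c j k σ σ' y y')
    (H : OKV .near T κ x (σ * crv T.D.P j a y) (σ' * crv T.D.P k c (y + y')) y y') :
    StB (VND 3 κ) T.D.P T.RB T.RL pc a b c j k σ σ' x y y' := by
  unfold OKV at H
  rw [kv3_B h.pinL h.thL hσ hσ' F] at H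
  have e := kv3_B h.pinK h.thK hσ hσ' F
  unfold StB exB
  rw [← e]
  exact H

end

/-! ### Mirror image -/

section

variable {n : ℕ} {T : Tbs n} {κ x X12 X13 y y' : ℝ}

theorem kv3_flip {D : PV n} {R : Fin (n + 1) → ℕ → ℝ → ℝ → ℝ} :
    kv3 D R x (X12 - X13) (-X13) y' y =
      (-(kv3 D R x X12 X13 y y').2.1, -(kv3 D R x X12 X13 y y').1,
        -(kv3 D R x X12 X13 y y').2.2) := by
  unfold kv3
  simp only
  rw [show -X13 - (X12 - X13) = -X12 by ring, show X12 - X13 = -(X13 - X12) by ring, kv_neg,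
    kv_neg, kv_neg, add_comm y' y]

theorem exn_flip : exn' (X12 - X13) (-X13) y' (y' + y) = exn' X12 X13 y (y + y') := by
  unfold exn'
  ring

/-- **The statements are symmetric.** -/
theorem okv_mir (V : Vx) (h0x : 0 ≤ x) (h1x : x < 1)
    (h : OKV V T κ x (X12 - X13) (-X13) y' y) : OKV V T κ x X12 X13 y y' := by
  have hp := h0_pos
  have s0 : 0 ≤ h0 * x := mul_nonneg hp.le h0x
  have s1 : h0 * x < h0 := by nlinarith
  have hm : ∀ (r : ℝ × ℝ × ℝ) (z : ℝ),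
      ∃ z', kf κ (h0 * x) (-r.2.1, -r.1, -r.2.2) (h0 * y') (h0 * y) z' =
        kf κ (h0 * x) r (h0 * y) (h0 * y') z := by
    intro r z
    exact ⟨_, kf_mirror (κ := κ) s0 s1 r.1 r.2.1 r.2.2 (h0 * y) (h0 * y') z⟩
  unfold OKV at *
  rw [kv3_flip, kv3_flip, exn_flip] at h
  cases V
  · intro z
    obtain ⟨z', e⟩ := hm (kv3 T.D (T.R .far) x X12 X13 y y') z
    have := h z'
    rw [← e]
    refine le_trans (le_of_eq ?_) (le_trans this (le_of_eq ?_))
    · rfl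
    · congr 1
      unfold lvF levF
      simp only
      congr 2
      rw [← abs_neg]
      congr 1
      ring
  · intro z
    obtain ⟨z', e⟩ := hm (kv3 T.D (T.R .near) x X12 X13 y y') z
    have := h z'
    rw [← e]
    refine le_trans this (le_of_eq ?_)
    congr 1
    unfold lvN levN
    simp only
    congr 2
    rw [min_comm]
    congr 1
    · unfold levn levm
      ring
    · unfold levn levm
      ring

/-- The level term of the near vertex in closed form. -/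
theorem lvN_eq {e : ℝ} {l : ℝ × ℝ × ℝ} (h : y + y' ≤ 3 + x) :
    lvN 3 0 x y y' e l = e + mun 3 x * ((y' * l.1 - y * l.2.1) / 2 -
      (3 + x - y - y') / 2 * |l.1 + l.2.1 - l.2.2|) := by
  have e1 : levn 3 0 x y y' l.1 l.2.1 l.2.2 = (y' * l.1 - y * l.2.1) / 2 +
      (3 + x - y - y') / 2 * (l.1 + l.2.1 - l.2.2) := by
    unfold levn
    push_cast
    ring
  have e2 : levm 3 0 x y y' l.1 l.2.1 l.2.2 = (y' * l.1 - y * l.2.1) / 2 -
      (3 + x - y - y') / 2 * (l.1 + l.2.1 - l.2.2) := by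
    unfold levm
    push_cast
    ring
  have h0' : 0 ≤ (3 + x - y - y') / 2 := by linarith
  unfold lvN levN
  rw [e1, e2]
  congr 2
  rcases le_total 0 (l.1 + l.2.1 - l.2.2) with h2 | h2
  · rw [abs_of_nonneg h2, min_eq_right]
    nlinarith
  · rw [abs_of_nonpos h2, min_eq_left]
    · ring
    · nlinarith

theorem lvF_eq {e : ℝ} {l : ℝ × ℝ × ℝ} : lvF e l = e - |l.1 + l.2.1 - l.2.2| / 2 := rfl

/-! ### Concavity -/

/-- The level part of a vertex. -/
noncomputable def lvV (V : Vx) (x y y' e : ℝ) (l : ℝ × ℝ × ℝ) : ℝ :=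
  match V with
  | .far => lvF e l
  | .near => lvN 3 0 x y y' e l

theorem okv_iff {V : Vx} : OKV V T κ x X12 X13 y y' ↔ ∀ z,
    0 ≤ lvV V x y y' (exn' X12 X13 y (y + y')) (kv3 T.D T.RL x X12 X13 y y') +
      kf κ (h0 * x) (kv3 T.D (T.R V) x X12 X13 y y') (h0 * y) (h0 * y') z := by
  cases V <;> exact Iff.rfl

/-- The point of a segment of triples. -/
def cmb (s : ℝ) (a b : ℝ × ℝ × ℝ) : ℝ × ℝ × ℝ :=
  ((1 - s) * a.1 + s * b.1, (1 - s) * a.2.1 + s * b.2.1, (1 - s) * a.2.2 + s * b.2.2)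

theorem abs_cmb {s a b : ℝ} (s0 : 0 ≤ s) (s1 : s ≤ 1) :
    |(1 - s) * a + s * b| ≤ (1 - s) * |a| + s * |b| := by
  refine (abs_add_le _ _).trans (le_of_eq ?_)
  rw [abs_mul, abs_mul, abs_of_nonneg s0, abs_of_nonneg (by linarith : 0 ≤ 1 - s)]

theorem mun_nonneg (N0 : ℕ) (x : ℝ) : 0 ≤ mun N0 x := by
  unfold mun c1n
  positivity

theorem lvV_cmb {V : Vx} {s e e' : ℝ} {l l' : ℝ × ℝ × ℝ} (s0 : 0 ≤ s) (s1 : s ≤ 1)
    (h : y + y' ≤ 3 + x) :
    (1 - s) * lvV V x y y' e l + s * lvV V x y y' e' l' ≤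
      lvV V x y y' ((1 - s) * e + s * e') (cmb s l l') := by
  have key := abs_cmb (a := l.1 + l.2.1 - l.2.2) (b := l'.1 + l'.2.1 - l'.2.2) s0 s1
  have e1 : (cmb s l l').1 + (cmb s l l').2.1 - (cmb s l l').2.2 =
      (1 - s) * (l.1 + l.2.1 - l.2.2) + s * (l'.1 + l'.2.1 - l'.2.2) := by
    unfold cmb
    ring
  cases V
  · show (1 - s) * lvF e l + s * lvF e' l' ≤ lvF _ (cmb s l l')
    rw [lvF_eq, lvF_eq, lvF_eq, e1]
    linarith
  · show (1 - s) * lvN 3 0 x y y' e l + s * lvN 3 0 x y y' e' l' ≤ lvN 3 0 x y y' _ (cmb s l l')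
    rw [lvN_eq h, lvN_eq h, lvN_eq h, e1]
    have hm := mun_nonneg 3 x
    have h0' : 0 ≤ (3 + x - y - y') / 2 := by linarith
    have k1 := mul_le_mul_of_nonneg_left (mul_le_mul_of_nonneg_left key h0') hm
    have e2 : (cmb s l l').1 = (1 - s) * l.1 + s * l'.1 := rfl
    have e3 : (cmb s l l').2.1 = (1 - s) * l.2.1 + s * l'.2.1 := rfl
    rw [e2, e3]
    nlinarith [k1]

theorem kf_cmb {s : ℝ} {r r' : ℝ × ℝ × ℝ} (z : ℝ) :
    kf κ (h0 * x) (cmb s r r') (h0 * y) (h0 * y') z =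
      (1 - s) * kf κ (h0 * x) r (h0 * y) (h0 * y') z +
        s * kf κ (h0 * x) r' (h0 * y) (h0 * y') z := by
  unfold kf cmb
  ring

/-- **Concavity**: the statement between two shapes for which it holds, if the kernels are affine
between them. -/
theorem okv_conc {V : Vx} {s X12' X13' Y12 Y13 : ℝ} (s0 : 0 ≤ s) (s1 : s ≤ 1) (h : y + y' ≤ 3 + x)
    (e12 : Y12 = (1 - s) * X12 + s * X12') (e13 : Y13 = (1 - s) * X13 + s * X13')
    (hK : kv3 T.D (T.R V) x Y12 Y13 y y' =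
      cmb s (kv3 T.D (T.R V) x X12 X13 y y') (kv3 T.D (T.R V) x X12' X13' y y'))
    (hL : kv3 T.D T.RL x Y12 Y13 y y' =
      cmb s (kv3 T.D T.RL x X12 X13 y y') (kv3 T.D T.RL x X12' X13' y y'))
    (H : OKV V T κ x X12 X13 y y') (H' : OKV V T κ x X12' X13' y y') :
    OKV V T κ x Y12 Y13 y y' := by
  rw [okv_iff] at *
  intro z
  rw [hK, hL, kf_cmb]
  have e : exn' Y12 Y13 y (y + y') = (1 - s) * exn' X12 X13 y (y + y') +
      s * exn' X12' X13' y (y + y') := by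
    rw [e12, e13]
    unfold exn'
    ring
  rw [e]
  have k := lvV_cmb (V := V) (e := exn' X12 X13 y (y + y')) (e' := exn' X12' X13' y (y + y'))
    (l := kv3 T.D T.RL x X12 X13 y y') (l' := kv3 T.D T.RL x X12' X13' y y') s0 s1 h
  have h1 := mul_nonneg (by linarith : (0 : ℝ) ≤ 1 - s) (H z)
  have h2 := mul_nonneg s0 (H' z)
  linarith

/-! ### Moves -/

theorem kf_sub (κ s : ℝ) (r r' : ℝ × ℝ × ℝ) (t t' z : ℝ) :
    kf κ s r' t t' z = kf κ s r t t' z +
      kf κ s (r'.1 - r.1, r'.2.1 - r.2.1, r'.2.2 - r.2.2) t t' z := by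
  unfold kf
  ring

/-- **The statement for a larger excess.** -/
theorem okv_move {V : Vx} {X12' X13' A B C S : ℝ} (hκ : 0 ≤ κ) (h0x : 0 ≤ x) (h1x : x < 1)
    (h : y + y' ≤ 3 + x)
    (hA : |(kv3 T.D (T.R V) x X12' X13' y y').1 - (kv3 T.D (T.R V) x X12 X13 y y').1| ≤ A)
    (hB : |(kv3 T.D (T.R V) x X12' X13' y y').2.1 - (kv3 T.D (T.R V) x X12 X13 y y').2.1| ≤ B)
    (hC : |(kv3 T.D (T.R V) x X12' X13' y y').2.2 - (kv3 T.D (T.R V) x X12 X13 y y').2.2| ≤ C)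
    (hS : |((kv3 T.D T.RL x X12' X13' y y').1 - (kv3 T.D T.RL x X12 X13 y y').1) +
      ((kv3 T.D T.RL x X12' X13' y y').2.1 - (kv3 T.D T.RL x X12 X13 y y').2.1) -
      ((kv3 T.D T.RL x X12' X13' y y').2.2 - (kv3 T.D T.RL x X12 X13 y y').2.2)| ≤ S)
    (hE : match V with
      | .far => κ * h0 * (x * (1 - x)) / 2 * (A + B + C) + S / 2 ≤
          exn' X12' X13' y (y + y') - exn' X12 X13 y (y + y')
      | .near => κ * h0 * (x * (1 - x)) / 2 * (A + B + C) ≤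
          exn' X12' X13' y (y + y') - exn' X12 X13 y (y + y') + mun 3 x *
            ((y' * ((kv3 T.D T.RL x X12' X13' y y').1 - (kv3 T.D T.RL x X12 X13 y y').1) -
              y * ((kv3 T.D T.RL x X12' X13' y y').2.1 -
                (kv3 T.D T.RL x X12 X13 y y').2.1)) / 2 - (3 + x - y - y') / 2 * S))
    (H : OKV V T κ x X12 X13 y y') : OKV V T κ x X12' X13' y y' := by
  have hp := h0_pos
  have s0 : 0 ≤ h0 * x := mul_nonneg hp.le h0x
  have s1 : h0 * x < h0 := by nlinarith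
  rw [okv_iff] at *
  intro z
  set r := kv3 T.D (T.R V) x X12 X13 y y' with hr
  set r' := kv3 T.D (T.R V) x X12' X13' y y' with hr'
  set l := kv3 T.D T.RL x X12 X13 y y' with hl
  set l' := kv3 T.D T.RL x X12' X13' y y' with hl'
  rw [kf_sub κ (h0 * x) r r']
  have h1 := kf_abs s0 s1 hκ (r'.1 - r.1, r'.2.1 - r.2.1, r'.2.2 - r.2.2) (h0 * y) (h0 * y') z
  have ha : amp κ (h0 * x) = κ * h0 * (x * (1 - x)) / 2 := by
    unfold amp
    field_simp
  have hamp : 0 ≤ κ * h0 * (x * (1 - x)) / 2 := by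
    have : 0 ≤ 1 - x := by linarith
    positivity
  rw [ha] at h1
  have h2 := (abs_le.1 h1).1
  simp only at h2
  have h3 := mul_le_mul_of_nonneg_left (add_le_add (add_le_add hA hB) hC) hamp
  have h4 := H z
  have e1 : l'.1 + l'.2.1 - l'.2.2 = (l.1 + l.2.1 - l.2.2) +
    ((l'.1 - l.1) + (l'.2.1 - l.2.1) - (l'.2.2 - l.2.2)) := by ring
  have h5 : |l'.1 + l'.2.1 - l'.2.2| ≤ |l.1 + l.2.1 - l.2.2| + S := by
    rw [e1]
    exact (abs_add_le _ _).trans (add_le_add le_rfl hS)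
  cases V
  · have h6 : lvV .far x y y' (exn' X12' X13' y (y + y')) l' =
        exn' X12' X13' y (y + y') - |l'.1 + l'.2.1 - l'.2.2| / 2 := rfl
    have h7 : lvV .far x y y' (exn' X12 X13 y (y + y')) l =
        exn' X12 X13 y (y + y') - |l.1 + l.2.1 - l.2.2| / 2 := rfl
    rw [h6]
    rw [h7] at h4
    simp only at hE
    linarith
  · have h6 : lvV .near x y y' (exn' X12' X13' y (y + y')) l' = _ := lvN_eq h
    have h7 : lvV .near x y y' (exn' X12 X13 y (y + y')) l = _ := lvN_eq h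
    rw [h6]
    rw [h7] at h4
    simp only at hE
    have hm := mun_nonneg 3 x
    have h0' : 0 ≤ (3 + x - y - y') / 2 := by linarith
    have k1 := mul_le_mul_of_nonneg_left (mul_le_mul_of_nonneg_left h5 h0') hm
    nlinarith [k1]

end

end Pool.Agent.Strip051.LC.E1
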