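import Pool.Agent.Strip051.LC.E1.NodR
import Pool.Agent.Strip051.PB.FxFn

/-! # The floor near the full period: the slack next to the lattice points in all scales -/

namespace Pool.Agent.Strip051.LC.E1

open Pool.Agent.StripNear Pool.Agent.StripSquare Pool.Agent.Strip051 Pool.Agent.Strip051.Sweep
open Pool.Agent.Strip051.PB Pool.Agent.Strip051.PB.Fx
open Pool.Agent.Strip051.LC.Floor (En Qn fS G_nonneg G_sq)
open Pool.Agent.Strip051.LC.E0.G (om cc1 xi1 sg1 cc3 xi3 sg3 xiw)
open G

/-- The factor of the second table at a vertex. -/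
noncomputable def μv (V : Vx) (e : ℝ) : ℝ :=
  match V with
  | .far => 0
  | .near => G.mu e

/-- The value of the kernel at a node. -/
noncomputable def vA (V : Vx) (e p r : ℝ) (s : Sv) : ℝ :=
  match V with
  | .far => p + r * s.k
  | .near => be e * p + r * nk e s.k s.b

/-- The slack at the height `r w`, divided by `r`. -/
noncomputable def g0 (V : Vx) (r lam w X A c : ℝ) : ℝ :=
  match V with
  | .far => X * w / 2 - lam * (eh (lam * r) * (X - A)) -
      lam * (eh (lam * r) * (A * (r * w))) / (1 - lam * r) +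
      lam * (eh (lam * r) + 1 / 2) * (X - 1) - 1 / 2 * c
  | .near => X * w / 2 - lam * (eh (lam * r) * (be (lam * r) * X - A)) -
      lam * (eh (lam * r) * (A * (r * w))) / (1 - lam * r) +
      G.mu (lam * r) * (w + lam * (1 + 2 * (eh (lam * r) + 1 / 2) +
        2 * (eh (lam * r) + 1 / 2) * (4 - lam * r - r * w))) / 2 * (X - 1) -
      G.mu (lam * r) * (4 - lam * r - r * w) / 2 * c

/-- The slack at the height `1 + r w` minus its value at the lattice point, divided by `r`. -/
noncomputable def g1 (V : Vx) (r lam w p xi A c : ℝ) : ℝ :=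
  match V with
  | .far => xi + (p + r * xi) * w / 2 - lam * (eh (lam * r) * (p + r * xi - A)) -
      lam * (eh (lam * r) * (A * (r * w))) / (1 - lam * r) - 1 / 2 * (LAM (lam * r) * xi + c)
  | .near => xi + (p + r * xi) * w / 2 -
      lam * (eh (lam * r) * (be (lam * r) * (p + r * xi) - A)) -
      lam * (eh (lam * r) * (A * (r * w))) / (1 - lam * r) -
      G.mu (lam * r) * (3 - r * (w + lam)) / 2 * (LAM (lam * r) * xi + c)

section

variable {e : ℝ}

theorem G_gs (e : ℝ) : Floor.G (1 - e) = gs e := gs_eq e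

theorem gs_e (h0 : 0 ≤ e) (h1 : e ≤ 1) : gs e = 1 / 2 + e * (eh e + 1 / 2) := by
  have g2 := gs_sq h0 h1
  have g0 : 0 ≤ gs e := Real.sqrt_nonneg _
  have h : gs e + 1 / 2 ≠ 0 := by linarith
  unfold eh ig
  field_simp
  nlinarith

theorem En_eh (h0 : 0 ≤ e) (h1 : e ≤ 1) : En (1 - e) = e * eh e := by
  unfold En
  rw [G_gs, gs_e h0 h1]
  ring

theorem LAM_e (h0 : 0 ≤ e) (h1 : e ≤ 1) : LAM e = 1 - 2 * (e * (eh e + 1 / 2)) := by
  unfold LAM
  rw [gs_e h0 h1]
  ring

theorem Qn_eh (h0 : 0 ≤ e) (h1 : e ≤ 1) : Qn (1 - e) = e * (LAM e * (eh e + 1 / 2)) := by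
  rw [LAM_e h0 h1]
  unfold Qn
  rw [G_gs, gs_e h0 h1]
  ring

theorem mu_mul (e : ℝ) : G.mu e * (3 + 2 * gs e) = 1 := by
  have g0 : 0 ≤ gs e := Real.sqrt_nonneg _
  have h : 3 + 2 * gs e ≠ 0 := by linarith
  unfold G.mu
  field_simp

theorem be_eh (h0 : 0 < e) (h1 : e < 1) :
    be e * eh e = eh e + G.mu e * (LAM e * (eh e + 1 / 2)) := by
  have h := (eh_pos h0 h1).ne'
  unfold be B0
  field_simp
  ring

theorem mean_zero {x y : ℝ} (h : y ≤ x) (h0 : 0 < x) : mnQ 0 x y = y * x⁻¹ - 1 :=
  mnQ_zero h h0.ne'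

end

section

variable {V : Vx} {r lam w X A c xi p : ℝ}

theorem us2_g0 (he : 0 < lam * r) (he1 : lam * r < 1) (hy : r * w ≤ 1 - lam * r) :
    us2 (1 - lam * r) (μv V (lam * r)) 0 (r * w) X A (LAM (lam * r) * (X - 1) + r * c) =
      r * g0 V r lam w X A c := by
  have hg := gs_e he.le he1.le
  have hm := mu_mul (lam * r)
  rw [hg] at hm
  unfold us2 fS
  rw [En_eh he.le he1.le, Qn_eh he.le he1.le, G_gs, mean_zero hy (by linarith), hg,
    LAM_e he.le he1.le]
  cases V
  · unfold μv g0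
    ring
  · have hb := be_eh he he1
    rw [LAM_e he.le he1.le] at hb
    unfold μv g0
    linear_combination (lam * r * X) * hb + (((1 - 2 * (lam * r * (eh (lam * r) + 1 / 2))) *
      (X - 1) + r * c) / 2 - (X - 1) / 2) * hm

theorem us2_g1 (he : 0 < lam * r) (he1 : lam * r < 1) (hy : r * w ≤ 1 - lam * r) :
    us2 (1 - lam * r) (μv V (lam * r)) 2 (1 + r * w) (p + r * xi) A
      (r * (LAM (lam * r) * xi + c)) = p - 1 / 2 + r * g1 V r lam w p xi A c := by
  have hg := gs_e he.le he1.le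
  have hm := mu_mul (lam * r)
  rw [hg] at hm
  unfold us2 fS
  rw [En_eh he.le he1.le, Qn_eh he.le he1.le, G_gs, mnQ_two (by linarith) (by linarith), hg,
    LAM_e he.le he1.le]
  cases V
  · unfold μv g1
    rw [LAM_e he.le he1.le]
    ring
  · have hb := be_eh he he1
    rw [LAM_e he.le he1.le] at hb
    unfold μv g1
    rw [LAM_e he.le he1.le]
    linear_combination (lam * r * (p + r * xi)) * hb +
      (r * ((1 - 2 * (lam * r * (eh (lam * r) + 1 / 2))) * xi + c) / 2) * hm

/-! ### Values at the nodes -/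

variable {T : Tbs 7} {j : Fin 8} {q : ℕ} {y : ℝ} {s s' : Sv}

theorem NV.valR (hv : NV V T (lam * r) j q p y s') (h : s' = s.sc r) :
    T.R V j q y (1 - lam * r) = vA V (lam * r) p r s := by
  have k := hv.K
  subst h
  cases V
  · exact k
  · unfold vA
    have k' : T.R .near j q y (1 - lam * r) =
      be (lam * r) * p + nk (lam * r) (r * s.k) (r * s.b) := k
    rw [k']
    unfold nk
    ring

theorem NV.valL (hv : NV V T (lam * r) j q p y s') (h : s' = s.sc r)
    (hx : crv T.D.P j q y = p + r * xi) :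
    T.RL j q y (1 - lam * r) = r * (LAM (lam * r) * xi + (s.cA + r * s.cB)) := by
  have k := hv.L
  subst h
  rw [k, hx]
  show _ + (r * s.cA / 1 + r ^ 2 * s.cB) = _
  ring

/-- The slack at a node at the height `r w`. -/
theorem NV.slk0 (hr : 0 < r) (hl : 0 < lam) (he1 : lam * r < 1) (hy : r * w ≤ 1 - lam * r)
    (hv : NV V T (lam * r) j q 1 (r * w) s') (h : s' = s.sc r)
    (hx : crv T.D.P j q (r * w) = 1 + r * xi) :
    us2 (1 - lam * r) (μv V (lam * r)) 0 (r * w) (crv T.D.P j q (r * w))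
      (T.R V j q (r * w) (1 - lam * r)) (T.RL j q (r * w) (1 - lam * r)) =
      r * g0 V r lam w (1 + r * xi) (vA V (lam * r) 1 r s) (s.cA + r * s.cB) := by
  rw [← us2_g0 (mul_pos hl hr) he1 hy, hv.valR h, hv.valL h hx, hx]
  congr 1
  ring

/-- The slack at a node at the height `1 + r w`. -/
theorem NV.slk1 (hr : 0 < r) (hl : 0 < lam) (he1 : lam * r < 1) (hy : r * w ≤ 1 - lam * r)
    (hv : NV V T (lam * r) j q p (1 + r * w) s') (h : s' = s.sc r)
    (hx : crv T.D.P j q (1 + r * w) = p + r * xi) :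
    us2 (1 - lam * r) (μv V (lam * r)) 2 (1 + r * w) (crv T.D.P j q (1 + r * w))
      (T.R V j q (1 + r * w) (1 - lam * r)) (T.RL j q (1 + r * w) (1 - lam * r)) =
      p - 1 / 2 + r * g1 V r lam w p xi (vA V (lam * r) p r s) (s.cA + r * s.cB) := by
  rw [← us2_g1 (mul_pos hl hr) he1 hy, hv.valR h, hv.valL h hx, hx]

end

/-! ### The unit circle below `h0` -/

/-- The kernel at which the slack of a unit pair is zero, next to `h0`. -/
noncomputable def KF (e y : ℝ) : ℝ :=
  (3 / 4 * (1 - e + y) / (gs e + Floor.G y) - Floor.G y) / (2 * eh e)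

/-- The same for the two vertices. -/
noncomputable def KV (V : Vx) (e y : ℝ) : ℝ :=
  match V with
  | .far => KF e y
  | .near => (1 + LAM e * G.mu e) * KF e y + G.mu e * B0 e / 2

/-- The factor of the level. -/
noncomputable def l1V (V : Vx) (r lam w : ℝ) : ℝ :=
  match V with
  | .far => 1 / 2
  | .near => G.mu (lam * r) * (3 + r * w - lam * r) / 2

/-- The deviation of the kernel at which the slack is zero. -/
noncomputable def ksR (r lam w xi : ℝ) : ℝ :=
  -((3 / 4 * ((w * (gs (lam * r) + 1 / 2) + (2 - lam * r) * xi) *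
    (gs (lam * r) + (1 / 2 + r * xi))⁻¹ * ig (lam * r)) + xi) * (1 / 2 * (eh (lam * r))⁻¹))

/-- The difference of the deviations. -/
noncomputable def dkR (V : Vx) (r lam w xi : ℝ) (s : Sv) : ℝ :=
  match V with
  | .far => s.k - ksR r lam w xi
  | .near => (1 + LAM (lam * r) * G.mu (lam * r)) * (s.k - ksR r lam w xi) + G.mu (lam * r) * s.b

section

variable {V : Vx} {r lam w A c' m y e : ℝ} {s : Sv}

theorem G_quo (h0 : 0 < e) (h1 : e < 1) (y0 : 0 ≤ y) (y1 : y ≤ 1) :
    Floor.G y - gs e = 3 / 4 * (1 - e + y) / (gs e + Floor.G y) * (1 - e - y) := by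
  have a := G_sq (y := y) (by nlinarith)
  have b := gs_sq h0.le h1.le
  have c := G_nonneg y
  have d : 1 / 2 ≤ gs e := by
    rw [gs_e h0.le h1.le]
    have := eh_pos h0 h1
    nlinarith
  have f : gs e + Floor.G y ≠ 0 := by linarith
  field_simp
  nlinarith

theorem us2_down (h0 : 0 < e) (h1 : e < 1) (y0 : 0 ≤ y) (y1 : y ≤ 1) :
    fS (1 - e) (μv V e) y (Floor.G y) (e * eh e * A) (LAM e * (Floor.G y - 1 / 2) + c') m =
      eh e * (1 - e - y) * KV V e y - e * eh e * A * m -
        (match V with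
          | .far => 1 / 2
          | .near => G.mu e * (4 - e - y) / 2) * c' := by
  have hE := (eh_pos h0 h1).ne'
  have hg := gs_e h0.le h1.le
  have q := G_quo h0 h1 y0 y1
  have k1 : eh e * (1 - e - y) * KF e y =
      (Floor.G y * (1 + y - (1 - e)) - gs e) / 2 := by
    have : eh e * (1 - e - y) * KF e y = (3 / 4 * (1 - e + y) / (gs e + Floor.G y) * (1 - e - y) -
        Floor.G y * (1 - e - y)) / 2 := by
      unfold KF
      field_simp
    rw [this, ← q]
    ring
  unfold fS
  rw [En_eh h0.le h1.le, Qn_eh h0.le h1.le, G_gs]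
  cases V
  · show _ = eh e * (1 - e - y) * KF e y - e * eh e * A * m - 1 / 2 * c'
    rw [k1, LAM_e h0.le h1.le, hg]
    unfold μv
    ring
  · have hm := mu_mul e
    have hb : G.mu e * B0 e / 2 * eh e = G.mu e * LAM e / 4 := by
      unfold B0
      field_simp
      norm_num
    show _ = eh e * (1 - e - y) * ((1 + LAM e * G.mu e) * KF e y + G.mu e * B0 e / 2) -
      e * eh e * A * m - G.mu e * (4 - e - y) / 2 * c'
    have e1 : eh e * (1 - e - y) * ((1 + LAM e * G.mu e) * KF e y + G.mu e * B0 e / 2) =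
        (1 + LAM e * G.mu e) * ((Floor.G y * (1 + y - (1 - e)) - gs e) / 2) +
          (1 - e - y) * (G.mu e * LAM e / 4) := by
      rw [← k1, ← hb]
      ring
    rw [e1]
    rw [hg] at hm
    rw [LAM_e h0.le h1.le, hg]
    unfold μv
    linear_combination c' / 2 * hm

end

end Pool.Agent.Strip051.LC.E1
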