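import Pool.Agent.Strip051.LC.E1.FxS

/-! # The floor near the full period: the windows, the slack at the nodes -/

namespace Pool.Agent.Strip051.LC.E1

open Pool.Agent.StripNear Pool.Agent.StripSquare Pool.Agent.Strip051 Pool.Agent.Strip051.Sweep
open Pool.Agent.Strip051.PB Pool.Agent.Strip051.PB.Fx
open Pool.Agent.Strip051.LC.Floor (En Qn fS G_nonneg G_sq)
open Pool.Agent.Strip051.LC.E0.G (om qw cc1 xi1 sg1 cc3 xi3 sg3 xiw)
open G

/-- The two normalisations of a height at the distance `r w` from a lattice height. -/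
structure Scl (r lam w : ℝ) : Prop where
  r0 : 0 < r
  l0 : 0 < lam
  w0 : 0 ≤ w
  c : (lam = 1 ∧ w ≤ 1 ∧ r ≤ 1 / 40) ∨ (w = 1 ∧ lam < 1 ∧ r ≤ 1 / 36 ∧ lam * r ≤ 1 / 40)

theorem scl_ex {e v : ℝ} (h0 : 0 < e) (h1 : e ≤ 1 / 40) (v0 : 0 ≤ v) (v1 : v ≤ 1 / 36) :
    ∃ r lam w, Scl r lam w ∧ lam * r = e ∧ r * w = v := by
  rcases le_or_gt v e with h | h
  · refine ⟨e, 1, v / e, ⟨h0, one_pos, div_nonneg v0 h0.le, Or.inl ⟨rfl, ?_, h1⟩⟩, one_mul e, ?_⟩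
    · rw [div_le_one h0]
      exact h
    · field_simp
  · have hv : 0 < v := h0.trans h
    have e1 : e / v * v = e := by field_simp
    refine ⟨v, e / v, 1, ⟨hv, div_pos h0 hv, zero_le_one, Or.inr ⟨rfl, ?_, v1, ?_⟩⟩, e1, mul_one v⟩
    · rw [div_lt_one hv]
      exact h
    · rw [e1]
      exact h1

namespace Scl

variable {r lam w : ℝ}

theorem r1 (h : Scl r lam w) : r ≤ 1 / 36 := by
  rcases h.c with ⟨-, -, h⟩ | ⟨-, -, h, -⟩ <;> linarith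

theorem w1 (h : Scl r lam w) : w ≤ 1 := by
  rcases h.c with ⟨-, h, -⟩ | ⟨h, -, -, -⟩ <;> linarith

theorem l1 (h : Scl r lam w) : lam ≤ 1 := by
  rcases h.c with ⟨h, -, -⟩ | ⟨-, h, -, -⟩ <;> linarith

theorem e0 (h : Scl r lam w) : 0 < lam * r := mul_pos h.l0 h.r0

theorem e1 (h : Scl r lam w) : lam * r ≤ 1 / 40 := by
  rcases h.c with ⟨h, -, k⟩ | ⟨-, -, -, h⟩
  · rw [h, one_mul]
    exact k
  · exact h

theorem e1' (h : Scl r lam w) : lam * r < 1 := by linarith [h.e1]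

theorem v0 (h : Scl r lam w) : 0 ≤ r * w := mul_nonneg h.r0.le h.w0

theorem v1 (h : Scl r lam w) : r * w ≤ 1 / 36 := by
  calc r * w ≤ r * 1 := mul_le_mul_of_nonneg_left h.w1 h.r0.le
    _ ≤ 1 / 36 := by rw [mul_one]; exact h.r1

theorem v1' (h : Scl r lam w) : r * w < 1 / 16 := by linarith [h.v1]

theorem v2 (h : Scl r lam w) : r * w ≤ 1 - lam * r := by linarith [h.v1, h.e1]

end Scl

/-! ### Positions -/

section

variable {r lam w z : ℝ}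

theorem cc1_half' (h0 : -1 ≤ r * z) (h1 : r * z ≤ 1 / 8) : cc1 z r = 1 / 2 + r * xi1 z r := by
  have := cc1_half h0 h1
  rwa [cc1_h, xi1_h] at this

theorem cc3_half' (h0 : -1 ≤ r * z) (h1 : r * z ≤ 1 / 2) : cc3 z r = 3 / 2 + r * xi3 z r := by
  have := cc3_half h0 h1
  rwa [cc3_h, xi3_h] at this

theorem xi1_le_up (hr : 0 < r) (h0 : 0 ≤ z) (h1 : r * z ≤ 1 / 36) : -(8 / 5) * z ≤ xi1 z r := by
  have h2 : 91 / 200 ≤ cc1 z r := by
    unfold cc1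
    refine Real.le_sqrt_of_sq_le ?_
    have : 0 ≤ r * z := mul_nonneg hr.le h0
    nlinarith
  have h3 : 0 ≤ r * z := mul_nonneg hr.le h0
  have h4 : 0 ≤ z * (8 / 5 * (1 / 2 + cc1 z r) - 3 / 4 * (2 + r * z)) :=
    mul_nonneg h0 (by linarith)
  unfold xi1
  rw [show -(8 / 5) * z = -(8 / 5 * z) by ring, neg_le_neg_iff, div_le_iff₀ (by linarith)]
  linarith

theorem xi1_le_dn (hr : 0 < r) (h0 : 0 ≤ w) (h1 : r * w ≤ 1 / 36) : xi1 (-w) r ≤ 3 / 2 * w := by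
  have h3 : 0 ≤ r * w := mul_nonneg hr.le h0
  have h2 : 1 / 2 ≤ cc1 (-w) r := by
    unfold cc1
    refine Real.le_sqrt_of_sq_le ?_
    nlinarith
  unfold xi1
  rw [show -(3 / 4 * -w * (2 + r * -w) / (1 / 2 + cc1 (-w) r)) =
    3 / 4 * w * (2 - r * w) / (1 / 2 + cc1 (-w) r) by ring, div_le_iff₀ (by linarith)]
  nlinarith

theorem xi1_dn_nn (h0 : 0 ≤ w) (h1 : r * w ≤ 1 / 36) : 0 ≤ xi1 (-w) r := by
  have h2 : 0 ≤ cc1 (-w) r := Real.sqrt_nonneg _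
  unfold xi1
  rw [show -(3 / 4 * -w * (2 + r * -w) / (1 / 2 + cc1 (-w) r)) =
    3 / 4 * w * (2 - r * w) / (1 / 2 + cc1 (-w) r) by ring]
  have : 0 ≤ 2 - r * w := by linarith
  positivity

theorem xi1_up_np (h0 : 0 ≤ z) (h1 : 0 ≤ r * z) : xi1 z r ≤ 0 := by
  have h2 : 0 ≤ cc1 z r := Real.sqrt_nonneg _
  unfold xi1
  rw [neg_nonpos]
  have : 0 ≤ 2 + r * z := by linarith
  positivity

theorem sg1_up (hr : 0 < r) (h0 : 0 ≤ z) (h1 : r * z ≤ 1 / 36) (h2 : z ≤ 1) :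
    sg1 z r ≤ 21 / 10 := by
  have := xi1_le_up hr h0 h1
  unfold sg1
  linarith

theorem sg1_up_nn (h0 : 0 ≤ z) (h1 : 0 ≤ r * z) : 0 ≤ sg1 z r := by
  have := xi1_up_np h0 h1
  unfold sg1
  linarith

theorem sg1_dn (hr : 0 < r) (h0 : 0 ≤ w) (h1 : r * w ≤ 1 / 36) : -sg1 (-w) r ≤ 2 * w := by
  have := xi1_le_dn hr h0 h1
  unfold sg1
  linarith

theorem sg1_dn_nn (h0 : 0 ≤ w) (h1 : r * w ≤ 1 / 36) : 0 ≤ -sg1 (-w) r := by
  have := xi1_dn_nn h0 h1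
  unfold sg1
  linarith

theorem sg3_up (hr : 0 < r) (h0 : 0 ≤ z) (h1 : r * z ≤ 1 / 36) (h2 : z ≤ 1) :
    sg3 z r ≤ 21 / 10 := by
  have h3 : 0 ≤ r * z := mul_nonneg hr.le h0
  have h4 : 0 ≤ cc3 z r := Real.sqrt_nonneg _
  have h5 : -(2 * z) ≤ xi3 z r := by
    unfold xi3
    rw [neg_le_neg_iff, div_le_iff₀ (by linarith)]
    nlinarith
  unfold sg3
  linarith

theorem xi3_up_np (h0 : 0 ≤ z) (h1 : 0 ≤ r * z) : xi3 z r ≤ 0 := by
  have h2 : 0 ≤ cc3 z r := Real.sqrt_nonneg _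
  unfold xi3
  rw [neg_nonpos]
  have : 0 ≤ 2 + r * z := by linarith
  positivity

theorem om_nonneg (w r : ℝ) : 0 ≤ om w r := by
  unfold om
  have : 0 ≤ qw w r := Real.sqrt_nonneg _
  positivity

/-- A hinge at a fixed distance vanishes. -/
theorem hg_fix {t a b : ℝ} (hr : 0 < r) (hr1 : r ≤ 1 / 36) (ht : t ≤ 21 / 10) (hb : 0 < b)
    (hab : 13 * b ≤ 250 * a) : hg (Real.sqrt 3 / 2 * t - a / (b * r)) = 0 := by
  refine hg_neg ?_
  have h3 : Real.sqrt 3 ≤ 173206 / 100000 := by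
    rw [Real.sqrt_le_left (by norm_num)]
    norm_num
  have h4 : 0 ≤ Real.sqrt 3 := Real.sqrt_nonneg _
  have h5 : 13 / 250 * 36 ≤ a / (b * r) := by
    rw [le_div_iff₀ (mul_pos hb hr)]
    nlinarith
  nlinarith

end

/-! ### The slack at the nodes -/

section

variable {V : Vx} {T : Tbs 7} {r lam w : ℝ}

/-- The slack on the floor at a node of a table. -/
noncomputable def usN (V : Vx) (T : Tbs 7) (e : ℝ) (j : Fin 8) (q : ℕ) (y : ℝ) : ℝ :=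
  us2 (1 - e) (μv V e) q y (crv T.D.P j q y) (T.R V j q y (1 - e)) (T.RL j q y (1 - e))

theorem Nod.us00 (h : Nod V T (lam * r)) (s : Scl r lam w) :
    usN V T (lam * r) 0 0 (r * w) = r * g0 V r lam w (1 + r * -(r * om w r))
      (vA V (lam * r) 1 r (S1 r lam w)) ((S1 r lam w).cA + r * (S1 r lam w).cB) := by
  refine NV.slk0 s.r0 s.l0 s.e1' s.v2 (h.n00 _ s.v0 s.v1') (S1_h s.r0) ?_
  rw [h.x00 s.v0 s.v1', om_h]
  ring

theorem Nod.us30 (h : Nod V T (lam * r)) (s : Scl r lam w) :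
    usN V T (lam * r) 3 0 (r * w) = r * g0 V r lam w (1 + r * xi1 (-w) r)
      (vA V (lam * r) 1 r (W0 r lam w)) ((W0 r lam w).cA + r * (W0 r lam w).cB) := by
  refine NV.slk0 s.r0 s.l0 s.e1' s.v2 (h.n30 _ s.v0 s.v1') (W0_h s.r0) ?_
  rw [h.x30 s.v0 s.v1', xi1n_h]

theorem Nod.us40 (h : Nod V T (lam * r)) (s : Scl r lam w) :
    usN V T (lam * r) 4 0 (r * w) = r * g0 V r lam w (1 + r * xiq r lam w)
      (vA V (lam * r) 1 r (Q0 r lam w)) ((Q0 r lam w).cA + r * (Q0 r lam w).cB) := by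
  refine NV.slk0 s.r0 s.l0 s.e1' s.v2 (h.n40 _ s.v0 s.v1') (Q0_h s.r0) ?_
  rw [h.x40 s.v0 s.v1', xiq_h]

theorem Nod.us02 (h : Nod V T (lam * r)) (s : Scl r lam w) :
    usN V T (lam * r) 0 2 (1 + r * w) = 1 / 2 - 1 / 2 + r * g1 V r lam w (1 / 2) (xi1 w r)
      (vA V (lam * r) (1 / 2) r (C1u r lam w)) ((C1u r lam w).cA + r * (C1u r lam w).cB) := by
  refine NV.slk1 s.r0 s.l0 s.e1' s.v2 (h.n02 _ s.v0 s.v1') (C1u_h s.r0) ?_
  rw [h.x01 2 (by linarith [s.v0]) s.v1', xi1_h]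

theorem Nod.us32 (h : Nod V T (lam * r)) (s : Scl r lam w) :
    usN V T (lam * r) 3 2 (1 + r * w) = 1 / 2 - 1 / 2 + r * g1 V r lam w (1 / 2) (xiw w r)
      (vA V (lam * r) (1 / 2) r (W2 r lam w)) ((W2 r lam w).cA + r * (W2 r lam w).cB) := by
  refine NV.slk1 s.r0 s.l0 s.e1' s.v2 (h.n32 _ s.v0 s.v1') (W2_h s.r0) ?_
  rw [h.x32 (by linarith [s.v0]) s.v1', xiw_h]

theorem Nod.us72 (h : Nod V T (lam * r)) (s : Scl r lam w) :
    usN V T (lam * r) 7 2 (1 + r * w) = 3 / 2 - 1 / 2 + r * g1 V r lam w (3 / 2) (xi3 w r)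
      (vA V (lam * r) (3 / 2) r (C3u r lam w)) ((C3u r lam w).cA + r * (C3u r lam w).cB) := by
  refine NV.slk1 s.r0 s.l0 s.e1' s.v2 (h.n72 _ s.v0 s.v1') (C3u_h s.r0) ?_
  rw [h.x71 2 (by linarith [s.v0]) s.v1', xi3_h]

end

end Pool.Agent.Strip051.LC.E1
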