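import Pool.Agent.Strip051.LC.E1.FxT

/-! # The floor near the full period: the unit circle below `h0` and the curve `1.15` -/

namespace Pool.Agent.Strip051.LC.E1

open Pool.Agent.StripNear Pool.Agent.StripSquare Pool.Agent.Strip051 Pool.Agent.Strip051.Sweep
open Pool.Agent.Strip051.PB Pool.Agent.Strip051.PB.Fx
open Pool.Agent.Strip051.LC.Floor (En Qn fS G_nonneg G_sq)
open Pool.Agent.Strip051.LC.E0.G (om qw cc1 xi1 sg1 cc3 xi3 sg3 xiw)
open G

/-! ### The curve `1.15` next to the height `0` -/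

/-- The factor of the linear decrease. -/
noncomputable def rho5 (e : ℝ) : ℝ := (3 / 20 - 11 / 5 * e) * (1 - 11 / 5 * e)⁻¹

/-- The value of the kernel. -/
noncomputable def v5A (V : Vx) (r lam w : ℝ) : ℝ :=
  match V with
  | .far => (1 + r * (Q0 r lam w).k) * (1 - rho5 (lam * r))
  | .near => ((1 + LAM (lam * r) * G.mu (lam * r)) * (1 + r * (Q0 r lam w).k) +
      G.mu (lam * r) * (B0 (lam * r) + r * (Q0 r lam w).b)) * (1 - rho5 (lam * r))

section

variable {V : Vx} {T : Tbs 7} {r lam w : ℝ}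

theorem Nod.us50 (h : Nod V T (lam * r)) (s : Scl r lam w) :
    usN V T (lam * r) 5 0 (r * w) = r * g0 V r lam w (1 + r * xi1 (-w) r + 3 / 20 * dQ r w)
      (v5A V r lam w) (c5 r lam w) := by
  have v := h.n50 _ s.v0 s.v1'
  have q := Q0_h (lam := lam) (w := w) s.r0
  have hX : crv T.D.P 5 0 (r * w) = 1 + r * xi1 (-w) r + 3 / 20 * dQ r w := by
    rw [h.x50 s.v0 s.v1', xi1n_h, dQ_h]
    ring
  have hA : T.R V 5 0 (r * w) (1 - lam * r) = v5A V r lam w := by
    have k := v.K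
    unfold G.n5 at k
    rw [q] at k
    cases V
    · rw [show T.R .far 5 0 (r * w) (1 - lam * r) = 1 + (r * (Q0 r lam w).k -
        (1 + r * (Q0 r lam w).k) * ((3 / 20 - 11 / 5 * (lam * r)) / (1 - 11 / 5 * (lam * r)))) from k]
      unfold v5A rho5
      rw [div_eq_mul_inv]
      ring
    · rw [show T.R .near 5 0 (r * w) (1 - lam * r) = be (lam * r) * 1 + nk (lam * r)
        (r * (Q0 r lam w).k - (1 + r * (Q0 r lam w).k) *
          ((3 / 20 - 11 / 5 * (lam * r)) / (1 - 11 / 5 * (lam * r))))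
        (r * (Q0 r lam w).b - (B0 (lam * r) + r * (Q0 r lam w).b) *
          ((3 / 20 - 11 / 5 * (lam * r)) / (1 - 11 / 5 * (lam * r)))) from k]
      unfold v5A rho5 nk be
      rw [div_eq_mul_inv]
      ring
  have hL : T.RL 5 0 (r * w) (1 - lam * r) =
      LAM (lam * r) * (1 + r * xi1 (-w) r + 3 / 20 * dQ r w - 1) + r * c5 r lam w := by
    have l := v.L
    rw [l, hX]
    show _ + (c5 1 (lam * r) (r * w) / 1 + 0) = _
    rw [c5_h s.r0]
    ring
  unfold usN
  rw [← us2_g0 s.e0 s.e1' s.v2, hA, hL, hX]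

end

/-! ### Identities -/

section

variable {g c e r w xi i J E K : ℝ}

theorem ks_alg (hJ : J * (g + c) = 1) (hi : i * (g + 1 / 2) = 1) (hE : E * K = 1)
    (hq : E + 1 / 2 = (3 / 2 - 3 / 4 * e) * i) (hc : c = 1 / 2 + r * xi) :
    (3 / 4 * (1 - e + (1 + r * -w)) * J - c) * (1 / 2 * K) =
      1 / 2 + r * -((3 / 4 * ((w * (g + 1 / 2) + (2 - e) * xi) * J * i) + xi) * (1 / 2 * K)) := by
  linear_combination (1 / 2 * K * (-1 - 3 / 4 * (2 - e) * i * J)) * hc + (-(1 / 2) * K) * hq +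
    (1 / 2 * K * (3 / 4 * (2 - e) * (-J) + 3 / 4 * r * w * J)) * hi +
    (1 / 2 * K * (3 / 4 * (2 - e) * i)) * hJ + 1 / 2 * hE

end

/-! ### The unit circle below `h0` -/

section

variable {V : Vx} {T : Tbs 7} {r lam w e : ℝ}

theorem cc1_dn (s : Scl r lam w) : cc1 (-w) r = 1 / 2 + r * xi1 (-w) r :=
  cc1_half' (by nlinarith [s.v1]) (by nlinarith [s.v0])

theorem cc1_ge (s : Scl r lam w) : 1 / 2 ≤ cc1 (-w) r := by
  rw [cc1_dn s]
  have := mul_nonneg s.r0.le (xi1_dn_nn s.w0 s.v1)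
  linarith

theorem gc_ne (s : Scl r lam w) : gs (lam * r) + cc1 (-w) r ≠ 0 := by
  have := cc1_ge s
  have g0 : 0 ≤ gs (lam * r) := gs_nonneg
  linarith

theorem ksR_eq (s : Scl r lam w) :
    KF (lam * r) (1 + r * -w) = 1 / 2 + r * ksR r lam w (xi1 (-w) r) := by
  have hc := cc1_dn s
  have hE := (eh_pos s.e0 s.e1').ne'
  have k := ks_alg (e := lam * r) (w := w) (inv_mul_cancel₀ (gc_ne s)) (ig_mul (e := lam * r))
    (mul_inv_cancel₀ hE) (by unfold eh; ring) hc
  unfold KF ksR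
  rw [show Floor.G (1 + r * -w) = cc1 (-w) r from rfl, ← hc, ← k]
  rw [div_eq_mul_inv, div_eq_mul_inv, mul_inv]
  norm_num

theorem vA_sub (s : Scl r lam w) (v : Sv) :
    vA V (lam * r) (1 / 2) r v - KV V (lam * r) (1 + r * -w) =
      r * dkR V r lam w (xi1 (-w) r) v := by
  have k := ksR_eq s
  cases V
  · show 1 / 2 + r * v.k - KF (lam * r) (1 + r * -w) = r * (v.k - ksR r lam w (xi1 (-w) r))
    rw [k]
    ring
  · show be (lam * r) * (1 / 2) + r * nk (lam * r) v.k v.b -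
      ((1 + LAM (lam * r) * G.mu (lam * r)) * KF (lam * r) (1 + r * -w) +
        G.mu (lam * r) * B0 (lam * r) / 2) =
      r * ((1 + LAM (lam * r) * G.mu (lam * r)) * (v.k - ksR r lam w (xi1 (-w) r)) +
        G.mu (lam * r) * v.b)
    rw [k]
    unfold be nk
    ring

theorem Nod.us01_gen (h : Nod V T (lam * r)) (s : Scl r lam w) (hw : 0 < w) :
    usN V T (lam * r) 0 1 (1 + r * -w) =
      eh (lam * r) * (r * (w - lam)) * KV V (lam * r) (1 + r * -w) -
        lam * r * eh (lam * r) * vA V (lam * r) (1 / 2) r (C1d r lam (-w)) *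
          mnO (1 - lam * r) (1 + r * -w) -
        l1V V r lam w * (r ^ 2 * (C1d r lam (-w)).cB) := by
  have hz : r * -w < 0 := by
    have := mul_pos s.r0 hw
    linarith
  have v := h.n01 _ (by linarith [s.v1']) hz
  have hX : crv T.D.P 0 1 (1 + r * -w) = Floor.G (1 + r * -w) := h.cv0 _ _
  have hA := v.valR (C1d_h s.r0)
  have hL : T.RL 0 1 (1 + r * -w) (1 - lam * r) =
      LAM (lam * r) * (Floor.G (1 + r * -w) - 1 / 2) + r ^ 2 * (C1d r lam (-w)).cB := by
    have l := v.L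
    rw [C1d_h s.r0] at l
    rw [l, hX]
    show _ + (r * 0 / 1 + r ^ 2 * _) = _
    ring
  unfold usN us2
  rw [hA, hX, hL, En_eh s.e0.le s.e1'.le,
    us2_down s.e0 s.e1' (by linarith [s.v1]) (by linarith [s.v0])]
  show _ - _ - _ = _
  rw [show mnQ 1 (1 - lam * r) (1 + r * -w) = mnO (1 - lam * r) (1 + r * -w) from rfl]
  cases V
  · unfold l1V
    ring
  · unfold l1V
    ring

/-- Below the gap. -/
theorem Nod.us01 (h : Nod V T (lam * r)) (s : Scl r lam w) (hw : 0 < w) (hl : w ≤ lam)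
    (hB : (C1d r lam (-w)).cB = 0) :
    usN V T (lam * r) 0 1 (1 + r * -w) = r * (eh (lam * r) * ((lam - w) *
      (r * dkR V r lam w (xi1 (-w) r) (C1d r lam (-w))))) := by
  have e0 := s.e0
  have hm : mnO (1 - lam * r) (1 + r * -w) = (w - lam) * (lam)⁻¹ := by
    unfold mnO wgO
    rw [if_pos (by nlinarith [mul_le_mul_of_nonneg_left hl s.r0.le])]
    have := s.l0.ne'
    have := s.r0.ne'
    field_simp
    ring
  have k := vA_sub (V := V) s (C1d r lam (-w))
  rw [h.us01_gen s hw, hB, hm, ← k]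
  have := s.l0.ne'
  field_simp
  ring

/-- Above the gap. -/
theorem Nod.us01' (h : Nod V T (lam * r)) (s : Scl r lam w) (hl : lam ≤ w) :
    usN V T (lam * r) 0 1 (1 + r * -w) = r * ((w - lam) * (eh (lam * r) * ((w - lam) *
      (vA V (lam * r) (1 / 2) r (C1d r lam (-w)) * (w * (1 - lam * r))⁻¹) -
        r * dkR V r lam w (xi1 (-w) r) (C1d r lam (-w)))) -
        l1V V r lam w * (r * (C1d r lam (-w)).cB)) := by
  have hw : 0 < w := s.l0.trans_le hl
  have k := vA_sub (V := V) s (C1d r lam (-w))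
  have h1 := hw.ne'
  have h2 := s.r0.ne'
  have h3 : 1 - lam * r ≠ 0 := by linarith [s.e1']
  rcases hl.eq_or_lt with hl | hl
  · rw [h.us01_gen s hw, ← hl]
    have hm : mnO (1 - lam * r) (1 + r * -lam) = 0 := by
      unfold mnO
      rw [show 1 - lam * r - (1 + r * -lam) = 0 by ring, zero_mul]
    rw [hm]
    ring
  have hm : mnO (1 - lam * r) (1 + r * -w) =
      (w - lam) * (1 - r * w) * (w * (1 - lam * r))⁻¹ := by
    unfold mnO wgO
    rw [if_neg (by nlinarith [mul_lt_mul_of_pos_left hl s.r0])]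
    field_simp
    ring
  rw [h.us01_gen s hw, hm, ← k]
  field_simp
  ring

end

end Pool.Agent.Strip051.LC.E1
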