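import Pool.Agent.Strip051.LC.E1.FxU

/-! # The floor near the full period: quotients at `h0` and at the pin -/

namespace Pool.Agent.Strip051.LC.E1

open Pool.Agent.StripNear Pool.Agent.StripSquare Pool.Agent.Strip051 Pool.Agent.Strip051.Sweep
open Pool.Agent.Strip051.PB Pool.Agent.Strip051.PB.Fx
open Pool.Agent.Strip051.LC.E0.G (om qw cc1 xi1 sg1 cc3 xi3 sg3 xiw)
open G

/-! ### Next to `h0` -/

/-- `xi1 (-w) r / w`. -/
noncomputable def xh (w r : ℝ) : ℝ := 3 / 4 * (2 - r * w) * (1 / 2 + cc1 (-w) r)⁻¹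

/-- `-g1 (-w) r / w`. -/
noncomputable def gh (w r : ℝ) : ℝ :=
  3 / 4 * (1 / 2 + xh w r) * (1 + cc1 (-w) r / 2 + 3 / 4 * (1 - r * w))⁻¹

/-- `ksR / w`. -/
noncomputable def ksh (r lam w : ℝ) : ℝ :=
  -((3 / 4 * (((gs (lam * r) + 1 / 2) + (2 - lam * r) * xh w r) *
    (gs (lam * r) + cc1 (-w) r)⁻¹ * ig (lam * r)) + xh w r) * (1 / 2 * (eh (lam * r))⁻¹))

/-- `dkR / w` if the unit kernels are linear with the slopes `u`, `u'`. -/
noncomputable def q0R (V : Vx) (u u' r lam w : ℝ) : ℝ :=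
  match V with
  | .far => u * ((1 / 2 + xh w r) * (1 / 2 + r * (w * gh w r))) + gh w r - ksh r lam w
  | .near => (1 + LAM (lam * r) * G.mu (lam * r)) *
      (u * ((1 / 2 + xh w r) * (1 / 2 + r * (w * gh w r))) + gh w r - ksh r lam w) +
      G.mu (lam * r) * (u' * ((1 / 2 + xh w r) * (1 / 2 + r * (w * gh w r))) +
        B0 (lam * r) * gh w r)

section

variable {V : Vx} {r lam w u u' m m' : ℝ}

theorem xi1_xh (w r : ℝ) : xi1 (-w) r = w * xh w r := by
  unfold xi1 xh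
  rw [div_eq_mul_inv]
  ring

theorem sg1_xh (w r : ℝ) : -sg1 (-w) r = w * (1 / 2 + xh w r) := by
  unfold sg1
  rw [xi1_xh]
  ring

theorem g1_gh (w r : ℝ) : G.g1 (-w) r = -(w * gh w r) := by
  have h := sg1_xh w r
  have h' : sg1 (-w) r = -(w * (1 / 2 + xh w r)) := by linarith
  unfold G.g1 gh
  rw [h', div_eq_mul_inv]
  ring_nf

theorem dk_q0 (s : Scl r lam w) (hk : kU r lam (-sg1 (-w) r) = u * (-sg1 (-w) r))
    (hb : bU r lam (-sg1 (-w) r) = u' * (-sg1 (-w) r)) :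
    dkR V r lam w (xi1 (-w) r) (C1d r lam (-w)) = w * q0R V u u' r lam w := by
  have e1 : (C1d r lam (-w)).k = w * (u * ((1 / 2 + xh w r) * (1 / 2 + r * (w * gh w r))) +
      gh w r) := by
    show kU r lam (-sg1 (-w) r) * (1 / 2 - r * G.g1 (-w) r) - G.g1 (-w) r = _
    rw [hk, g1_gh, sg1_xh]
    ring
  have e2 : (C1d r lam (-w)).b = w * (u' * ((1 / 2 + xh w r) * (1 / 2 + r * (w * gh w r))) +
      B0 (lam * r) * gh w r) := by
    show bU r lam (-sg1 (-w) r) * (1 / 2 - r * G.g1 (-w) r) - B0 (lam * r) * G.g1 (-w) r = _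
    rw [hb, g1_gh, sg1_xh]
    ring
  have e3 : ksR r lam w (xi1 (-w) r) = w * ksh r lam w := by
    unfold ksR ksh
    rw [← cc1_dn s, xi1_xh]
    ring
  cases V
  · unfold dkR q0R
    rw [e1, e3]
    ring
  · unfold dkR q0R
    rw [e1, e2, e3]
    ring

end

/-! ### Next to the pin -/

/-- The chord slope of the unit circle between the heights `1 - r w` and `1 - e`. -/
noncomputable def Sqv (r lam w : ℝ) : ℝ :=
  3 / 4 * (1 - lam * r + (1 - r * w)) * (gs (lam * r) + cc1 (-w) r)⁻¹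

noncomputable def iN (w r : ℝ) : ℝ := (1 + cc1 (-w) r / 2 + 3 / 4 * (1 - r * w))⁻¹

noncomputable def iNs (e : ℝ) : ℝ := (1 + gs e / 2 + 3 / 4 * (1 - e))⁻¹

noncomputable def gq (r lam w : ℝ) : ℝ :=
  3 / 4 * ((Sqv r lam w + 1 / 2) * iN w r - r * (lam * (1 + eh (lam * r)) *
    ((Sqv r lam w / 2 - 3 / 4) * (iN w r * iNs (lam * r)))))

noncomputable def gst (w r : ℝ) : ℝ := 3 / 4 * ((xi1 (-w) r + w / 2) * iN w r)

noncomputable def ksq (r lam w : ℝ) : ℝ :=
  -(3 / 4 * ((gs (lam * r) + (1 - lam * r) * Sqv r lam w) *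
    (gs (lam * r) * (gs (lam * r) + cc1 (-w) r))⁻¹) + Sqv r lam w) * (1 / 2 * (eh (lam * r))⁻¹)

noncomputable def qpK (m r lam w : ℝ) : ℝ :=
  m * ((Sqv r lam w + 1 / 2) * (1 / 2 + r * gst w r)) + lam * (r * pK (lam * r)) * gq r lam w +
    gq r lam w - ksq r lam w

noncomputable def qpB (m' r lam w : ℝ) : ℝ :=
  m' * ((Sqv r lam w + 1 / 2) * (1 / 2 + r * gst w r)) + lam * (r * pB (lam * r)) * gq r lam w +
    B0 (lam * r) * gq r lam w

/-- `dkR / (w - lam)` if the unit kernels are linear next to the pin with the slopes `m`, `m'`. -/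
noncomputable def qpR (V : Vx) (m m' r lam w : ℝ) : ℝ :=
  match V with
  | .far => qpK m r lam w
  | .near => (1 + LAM (lam * r) * G.mu (lam * r)) * qpK m r lam w +
      G.mu (lam * r) * qpB m' r lam w

section

variable {e g E q i : ℝ}

/-- The identities of the unit vector of the pin. -/
theorem eh_quad (h0 : 0 ≤ e) (h1 : e ≤ 1) : 1 - eh e = e * (1 + eh e + eh e ^ 2) := by
  have g2 := gs_sq h0 h1
  have hg := gs_e h0 h1
  rw [hg] at g2
  rcases h0.eq_or_lt with h | h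
  · rw [← h]
    unfold eh ig gs
    rw [show (1 : ℝ) / 4 + 3 / 2 * 0 - 3 / 4 * 0 ^ 2 = (1 / 2) ^ 2 by norm_num,
      Real.sqrt_sq (by norm_num)]
    norm_num
  · have : e * (1 - eh e) = e * (e * (1 + eh e + eh e ^ 2)) := by nlinarith
    exact mul_left_cancel₀ h.ne' this

/-- The second pin. -/
theorem pin_b (h0 : 0 ≤ e) (h1 : e ≤ 1) :
    3 / 4 * (1 + eh e) * iNs e = q1 e / 2 * (1 / 2 + e * (3 / 4 * (1 + eh e) * iNs e)) := by
  have g0 : 0 ≤ gs e := gs_nonneg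
  have hg := gs_e h0 h1
  have hi := ig_mul (e := e)
  have hN : 1 + gs e / 2 + 3 / 4 * (1 - e) ≠ 0 := by linarith
  have hn : iNs e * (1 + gs e / 2 + 3 / 4 * (1 - e)) = 1 := inv_mul_cancel₀ hN
  unfold q1
  linear_combination (-(3 / 4) * (1 + eh e) * iNs e) * hi + (3 / 8 * (1 + eh e) * ig e) * hn +
    (9 / 16 * (1 + eh e) * ig e * iNs e) * hg

/-- The first pin. -/
theorem pin_k (h0 : 0 < e) (h1 : e < 1) :
    (1 + e * pK e) * (1 / 2 + e * (3 / 4 * (1 + eh e) * iNs e)) =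
      (3 / 4 * (1 - e) * (gs e)⁻¹ - gs e) * (1 / 2 * (eh e)⁻¹) := by
  have hb := pin_b h0.le h1.le
  have hq := one_sub_eh h0.le h1.le
  have hE := (eh_pos h0 h1).ne'
  have hg := gs_e h0.le h1.le
  have gh : 1 / 2 ≤ gs e := gs_ge h0.le h1.le
  have g0 : gs e ≠ 0 := by linarith
  have g2 := gs_sq h0.le h1.le
  have h2 : (2 - e * q1 e) ≠ 0 := by
    rw [← hq]
    have := eh_pos h0 h1
    linarith
  set h := 1 / 2 + e * (3 / 4 * (1 + eh e) * iNs e) with hh
  have hh2 : h * (2 - e * q1 e) = 1 := by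
    have : h = 1 / 2 + e * (q1 e / 2 * h) := by
      rw [← hb]
    linarith
  have hp : 1 + e * pK e = (3 / 4 * (1 - e) * (gs e)⁻¹ - gs e) * (1 / 2 * (eh e)⁻¹) *
      (2 - e * q1 e) := by
    have hq' : e * q1 e = 1 - eh e := hq.symm
    have key : 2 * eh e * gs e + e * (q1 e / 2 - (eh e + 1) * (9 / 4 - 3 / 4 * e) -
        eh e * (2 * eh e + 1)) = (3 / 4 * (1 - e) - gs e ^ 2) * (2 - e * q1 e) := by
      linear_combination (1 / 2 + 3 / 4 * (1 - e) - gs e ^ 2) * hq' + (1 + eh e) * g2 +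
        2 * eh e * hg
    have e1 : 1 + e * pK e = (2 * eh e * gs e + e * (q1 e / 2 - (eh e + 1) * (9 / 4 - 3 / 4 * e) -
        eh e * (2 * eh e + 1))) * (2 * (eh e * gs e))⁻¹ := by
      unfold pK
      field_simp
    rw [e1, key]
    field_simp
  rw [hp]
  linear_combination ((3 / 4 * (1 - e) * (gs e)⁻¹ - gs e) * (1 / 2 * (eh e)⁻¹)) * hh2

end

section

variable {V : Vx} {r lam w m m' : ℝ}

theorem cc1_sq_dn (s : Scl r lam w) : cc1 (-w) r ^ 2 = 1 - 3 / 4 * (1 - r * w) ^ 2 := by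
  unfold cc1
  rw [Real.sq_sqrt (by nlinarith [s.v0, s.v1])]
  ring

/-- The chord of the unit circle. -/
theorem Sq_eq (s : Scl r lam w) : cc1 (-w) r - gs (lam * r) = r * ((w - lam) * Sqv r lam w) := by
  have a := cc1_sq_dn s
  have b := gs_sq s.e0.le s.e1'.le
  have c := gc_ne s
  have hJ : (gs (lam * r) + cc1 (-w) r)⁻¹ * (gs (lam * r) + cc1 (-w) r) = 1 := inv_mul_cancel₀ c
  unfold Sqv
  linear_combination (cc1 (-w) r - gs (lam * r)) * (-hJ) +
    (gs (lam * r) + cc1 (-w) r)⁻¹ * (a - b)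

theorem xi1_Sq (s : Scl r lam w) :
    xi1 (-w) r - lam * (eh (lam * r) + 1 / 2) = (w - lam) * Sqv r lam w := by
  have a := Sq_eq s
  have b := gs_e s.e0.le s.e1'.le
  have c := cc1_dn s
  rw [b, c] at a
  refine mul_left_cancel₀ s.r0.ne' ?_
  linarith

theorem t_Sq (s : Scl r lam w) :
    -sg1 (-w) r - lam * (1 + eh (lam * r)) = (w - lam) * (Sqv r lam w + 1 / 2) := by
  have a := xi1_Sq s
  unfold sg1
  linarith

theorem gst_eq (w r : ℝ) : -G.g1 (-w) r = gst w r := by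
  unfold G.g1 gst sg1 iN
  rw [div_eq_mul_inv]
  ring_nf

theorem gq_eq (s : Scl r lam w) :
    gst w r - lam * (3 / 4 * (1 + eh (lam * r)) * iNs (lam * r)) = (w - lam) * gq r lam w := by
  have a := Sq_eq s
  have b := t_Sq s
  have g0 : 0 ≤ gs (lam * r) := gs_nonneg
  have c0 := cc1_ge s
  have hn : iN w r * (1 + cc1 (-w) r / 2 + 3 / 4 * (1 - r * w)) = 1 :=
    inv_mul_cancel₀ (by have := s.v1; linarith)
  have hs : iNs (lam * r) * (1 + gs (lam * r) / 2 + 3 / 4 * (1 - lam * r)) = 1 :=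
    inv_mul_cancel₀ (by have := s.e1; linarith)
  unfold sg1 at b
  unfold gst gq
  linear_combination (3 / 4 * iN w r) * b + (3 / 4 * lam * (1 + eh (lam * r)) * iNs (lam * r)) *
    hn - (3 / 4 * lam * (1 + eh (lam * r)) * iN w r) * hs -
    (3 / 4 * lam * (1 + eh (lam * r)) * iN w r * iNs (lam * r) / 2) * a

theorem ksq_eq (s : Scl r lam w) : KF (lam * r) (1 + r * -w) -
    (3 / 4 * (1 - lam * r) * (gs (lam * r))⁻¹ - gs (lam * r)) * (1 / 2 * (eh (lam * r))⁻¹) =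
      r * ((w - lam) * ksq r lam w) := by
  have a := Sq_eq s
  have gh : 1 / 2 ≤ gs (lam * r) := gs_ge s.e0.le s.e1'.le
  have g0 : gs (lam * r) ≠ 0 := by linarith
  have c := gc_ne s
  have hE := (eh_pos s.e0 s.e1').ne'
  have hJ : (gs (lam * r) + cc1 (-w) r)⁻¹ * (gs (lam * r) + cc1 (-w) r) = 1 := inv_mul_cancel₀ c
  have hp : (gs (lam * r))⁻¹ * gs (lam * r) = 1 := inv_mul_cancel₀ g0
  have hK : KF (lam * r) (1 + r * -w) = (Sqv r lam w - cc1 (-w) r) * (1 / 2 * (eh (lam * r))⁻¹) := by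
    unfold KF Sqv
    rw [show Floor.G (1 + r * -w) = cc1 (-w) r from rfl, div_eq_mul_inv _ (2 * eh (lam * r)),
      div_eq_mul_inv _ (gs (lam * r) + cc1 (-w) r), mul_inv]
    ring
  have hS : Sqv r lam w - 3 / 4 * (1 - lam * r) * (gs (lam * r))⁻¹ =
      -(r * ((w - lam) * (3 / 4 * ((gs (lam * r) + (1 - lam * r) * Sqv r lam w) *
        (gs (lam * r) * (gs (lam * r) + cc1 (-w) r))⁻¹)))) := by
    rw [mul_inv]
    have e1 : Sqv r lam w = 3 / 4 * (1 - lam * r + (1 - r * w)) *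
      (gs (lam * r) + cc1 (-w) r)⁻¹ := rfl
    set J := (gs (lam * r) + cc1 (-w) r)⁻¹
    set P := (gs (lam * r))⁻¹
    linear_combination e1 - (3 / 4 * (1 - lam * r + (1 - r * w)) * J) * hp +
      (3 / 4 * (1 - lam * r) * P) * hJ - (3 / 4 * P * J * (1 - lam * r)) * a
  rw [hK]
  unfold ksq
  linear_combination (1 / 2 * (eh (lam * r))⁻¹) * hS - (1 / 2 * (eh (lam * r))⁻¹) * a

/-- The difference of the kernels next to the pin. -/
theorem dk_qp (s : Scl r lam w)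
    (hk : kU r lam (-sg1 (-w) r) =
      lam * pK (lam * r) + m * (-sg1 (-w) r - lam * (1 + eh (lam * r))))
    (hb : bU r lam (-sg1 (-w) r) =
      lam * pB (lam * r) + m' * (-sg1 (-w) r - lam * (1 + eh (lam * r)))) :
    dkR V r lam w (xi1 (-w) r) (C1d r lam (-w)) = (w - lam) * qpR V m m' r lam w := by
  have q := gq_eq s
  have t := t_Sq s
  have k := ksq_eq s
  have k1 := ksR_eq s
  have pk := pin_k s.e0 s.e1'
  have pb := pin_b s.e0.le s.e1'.le
  have e1 : (C1d r lam (-w)).k = kU r lam (-sg1 (-w) r) * (1 / 2 + r * gst w r) + gst w r := by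
    show kU r lam (-sg1 (-w) r) * (1 / 2 - r * G.g1 (-w) r) - G.g1 (-w) r = _
    rw [← gst_eq]
    ring
  have e2 : (C1d r lam (-w)).b = bU r lam (-sg1 (-w) r) * (1 / 2 + r * gst w r) +
      B0 (lam * r) * gst w r := by
    show bU r lam (-sg1 (-w) r) * (1 / 2 - r * G.g1 (-w) r) - B0 (lam * r) * G.g1 (-w) r = _
    rw [← gst_eq]
    ring
  have hr := s.r0.ne'
  have f1 : (C1d r lam (-w)).k - ksR r lam w (xi1 (-w) r) = (w - lam) * qpK m r lam w := by
    refine mul_left_cancel₀ hr ?_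
    rw [e1, hk]
    unfold qpK
    linear_combination k1 - k + pk + r * m * (1 / 2 + r * gst w r) * t +
      (1 + lam * r * pK (lam * r)) * r * q
  have f2 : (C1d r lam (-w)).b = (w - lam) * qpB m' r lam w := by
    rw [e2, hb]
    unfold qpB
    unfold pB
    linear_combination m' * (1 / 2 + r * gst w r) * t +
      (B0 (lam * r) - lam * r * (B0 (lam * r) * q1 (lam * r) / 2)) * q + lam * B0 (lam * r) * pb
  cases V
  · exact f1
  · show _ * ((C1d r lam (-w)).k - ksR r lam w (xi1 (-w) r)) + _ * (C1d r lam (-w)).b = _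
    rw [f1, f2]
    unfold qpR
    ring

end

end Pool.Agent.Strip051.LC.E1
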