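import Pool.Agent.Strip051.LC.E1.FxY

/-! # The floor near the full period: positions of the curves, the scales of the windows -/

namespace Pool.Agent.Strip051.LC.E1

open Pool.Agent.StripNear Pool.Agent.StripSquare Pool.Agent.Strip051 Pool.Agent.Strip051.Sweep
open Pool.Agent.Strip051.PB Pool.Agent.Strip051.PB.Fx

/-- The scales of a window. -/
theorem win_use {x v : ℝ} (hx : 39 / 40 ≤ x) (hx' : x < 1) (v0 : 0 ≤ v) (v1 : v ≤ 1 / 36) :
    ∃ r lam w, Scl r lam w ∧ x = 1 - lam * r ∧ v = r * w := by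
  obtain ⟨r, lam, w, s, h1, h2⟩ := scl_ex (e := 1 - x) (by linarith) (by linarith) v0 v1
  exact ⟨r, lam, w, s, by rw [h1]; ring, h2.symm⟩

theorem mun_mu (e : ℝ) : mun 3 (1 - e) = G.mu e := by
  unfold mun G.mu
  rw [show c1n (1 - e) = G.gs e from G_gs e]
  norm_num

theorem Scl.of_low {r lam w : ℝ} (s : Scl r lam w) (h : r * w ≤ 7 / 20 * (lam * r)) :
    lam = 1 ∧ w ≤ 7 / 20 := by
  have hr := s.r0
  have k : w ≤ 7 / 20 * lam := by
    by_contra hc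
    push Not at hc
    nlinarith [mul_lt_mul_of_pos_left hc hr]
  rcases s.c with ⟨h1, -, -⟩ | ⟨h1, h2, -, -⟩
  · exact ⟨h1, by rw [h1] at k; linarith⟩
  · exfalso
    linarith

theorem Scl.of_high {r lam w : ℝ} (s : Scl r lam w) (h : 7 / 20 * (lam * r) ≤ r * w) :
    7 / 20 * lam ≤ w := by
  have hr := s.r0
  by_contra hc
  push Not at hc
  nlinarith [mul_lt_mul_of_pos_left hc hr]

/-- All curves. -/
theorem fin8 {P : Fin 8 → Prop} (h0 : P 0) (h1 : P 1) (h2 : P 2) (h3 : P 3) (h4 : P 4) (h5 : P 5)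
    (h6 : P 6) (h7 : P 7) : ∀ j, P j := by
  intro j
  fin_cases j
  · exact h0
  · exact h1
  · exact h2
  · exact h3
  · exact h4
  · exact h5
  · exact h6
  · exact h7

/-! ### The heights -/

section

variable {y e : ℝ}

theorem y_of_one (h : h0 * y ≤ 1) (h' : 0 ≤ y) : y ≤ 2887 / 2500 := by
  have hp := h0_pos
  have hs := h0_sq
  by_contra hc
  push Not at hc
  have : (h0 * y) ^ 2 ≤ 1 := by nlinarith [mul_nonneg hp.le h']
  rw [mul_pow, hs] at this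
  nlinarith

theorem y_of_one' (h : 1 ≤ h0 * y) (h' : 0 ≤ y) : 11547 / 10000 ≤ y := by
  have hp := h0_pos
  have hs := h0_sq
  by_contra hc
  push Not at hc
  have : 1 ≤ (h0 * y) ^ 2 := by nlinarith
  rw [mul_pow, hs] at this
  nlinarith

theorem y_of_17 (h : h0 * y ≤ 17 / 10) (h' : 0 ≤ y) : y ≤ 19631 / 10000 := by
  have hp := h0_pos
  have hs := h0_sq
  by_contra hc
  push Not at hc
  have : (h0 * y) ^ 2 ≤ (17 / 10) ^ 2 := pow_le_pow_left₀ (mul_nonneg hp.le h') h 2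
  rw [mul_pow, hs] at this
  nlinarith

theorem y_of_29 (h : h0 * y ≤ 29 / 20) (h' : 0 ≤ y) : y ≤ 2093 / 1250 := by
  have hp := h0_pos
  have hs := h0_sq
  by_contra hc
  push Not at hc
  have : (h0 * y) ^ 2 ≤ (29 / 20) ^ 2 := pow_le_pow_left₀ (mul_nonneg hp.le h') h 2
  rw [mul_pow, hs] at this
  nlinarith

/-- The condition for the short edges. -/
theorem inT_um {UM : ℝ} (h : InT UM y) : 1 - UM ^ 2 - 3 / 4 * y ^ 2 ≤ 0 := by
  have k := h.um
  rw [mul_pow, h0_sq] at k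
  linarith

theorem inT_pos {UM : ℝ} (h : InT UM y) : 0 < y := by
  have hp := h0_pos
  have k := h.lo
  by_contra hc
  push Not at hc
  nlinarith

theorem inT_gt (he : 0 < e) (he' : e ≤ 1 / 40) (h : InT (1 / 2 - 7 / 4 * e) y) :
    1 + e < y := by
  have k := inT_um h
  have k0 := inT_pos h
  by_contra hc
  push Not at hc
  nlinarith

/-! ### The curves -/

theorem c1n_le (h : 1 ≤ y) : c1n y ≤ 1 / 2 := by
  unfold c1n
  rw [Real.sqrt_le_left (by norm_num)]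
  nlinarith

theorem c1n_w (h : 37 / 36 ≤ y) : c1n y ≤ 4559 / 10000 := by
  unfold c1n
  rw [Real.sqrt_le_left (by norm_num)]
  nlinarith

theorem c1n_w' (h0 : 0 ≤ y) (h : y ≤ 37 / 36) : 4557 / 10000 ≤ c1n y := by
  refine Real.le_sqrt_of_sq_le ?_
  nlinarith

theorem c1n_lo17 (h : 17 / 16 ≤ y) : c1n y ≤ 979 / 2500 := by
  unfold c1n
  rw [Real.sqrt_le_left (by norm_num)]
  nlinarith

theorem c1n_low (he : 0 ≤ e) (h : 1 - 7 / 20 * e ≤ y) (he' : e ≤ 1 / 40) :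
    c1n y ≤ 1 / 2 + 3 / 4 * e := by
  unfold c1n
  rw [Real.sqrt_le_left (by positivity)]
  nlinarith

theorem c3n_le (h : 1 ≤ y) : c3n y ≤ 3 / 2 := by
  unfold c3n
  rw [Real.sqrt_le_left (by norm_num)]
  nlinarith

theorem c3n_le' (h : 3 / 2 ≤ y) : c3n y ≤ 11457 / 10000 := by
  unfold c3n
  rw [Real.sqrt_le_left (by norm_num)]
  nlinarith

theorem c3n_ge (h0 : 0 ≤ y) (h : y ≤ 3 / 2) : 5728 / 5000 ≤ c3n y := by
  refine Real.le_sqrt_of_sq_le ?_
  nlinarith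

theorem c3n_ge' (h0 : 0 ≤ y) (h : y ≤ 2093 / 1250) : 592 / 625 ≤ c3n y := by
  refine Real.le_sqrt_of_sq_le ?_
  nlinarith

theorem c3n_top (h0 : 0 ≤ y) (h : y ≤ 19631 / 10000) : 3311 / 10000 ≤ c3n y := by
  refine Real.le_sqrt_of_sq_le ?_
  nlinarith

theorem swnz_le (y : ℝ) : swn y ≤ 1 := by
  unfold swn
  rw [Real.sqrt_le_left (by norm_num)]
  nlinarith [sq_nonneg (y - 1)]

theorem swnz_ge (h0 : 1 ≤ y) (h : y ≤ 3 / 2) : 9013 / 10000 ≤ swn y := by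
  refine Real.le_sqrt_of_sq_le ?_
  nlinarith

theorem swn_le' (h0 : 3 / 2 ≤ y) : swn y ≤ 9014 / 10000 := by
  unfold swn
  rw [Real.sqrt_le_left (by norm_num)]
  nlinarith

theorem swn_ge' (h0 : 1 ≤ y) (h : y ≤ 2093 / 1250) : 811 / 1000 ≤ swn y := by
  refine Real.le_sqrt_of_sq_le ?_
  nlinarith

theorem swn_half (h0 : 0 ≤ y) (h : y ≤ 1) : 1 / 2 ≤ swn y := by
  refine Real.le_sqrt_of_sq_le ?_
  nlinarith

theorem swn_zero (h0 : 0 ≤ y) (h : y ≤ 1 / 80) : swn y ≤ 13 / 25 := by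
  unfold swn
  rw [Real.sqrt_le_left (by norm_num)]
  nlinarith

theorem c3n_zero (h0 : 0 ≤ y) (h : y ≤ 1 / 80) : 173 / 100 ≤ c3n y := by
  refine Real.le_sqrt_of_sq_le ?_
  nlinarith

theorem swn_w (h0 : 1 ≤ y) (h : y ≤ 37 / 36) : 999 / 1000 ≤ swn y := by
  refine Real.le_sqrt_of_sq_le ?_
  nlinarith

theorem c3n_w (h0 : 0 ≤ y) (h : y ≤ 37 / 36) : 148 / 100 ≤ c3n y := by
  refine Real.le_sqrt_of_sq_le ?_
  nlinarith

theorem Wn_up (y : ℝ) : Wn (decide (2 ≤ 2)) y = swn y - 1 / 2 := by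
  unfold Wn
  show swn y + -(1 / 2) = _
  ring

theorem Wn_up' (y : ℝ) : Wn (decide (2 ≤ 3)) y = swn y - 1 / 2 := by
  unfold Wn
  show swn y + -(1 / 2) = _
  ring

theorem Wn_dn (y : ℝ) : Wn (decide (2 ≤ 0)) y = swn y + 1 / 2 := rfl

end

end Pool.Agent.Strip051.LC.E1
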