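import Pool.Agent.Strip051.LC.E1.RowU

/-! # Rests near the full period: positions next to the lattice triangles -/

namespace Pool.Agent.Strip051.LC.E1

open Pool.Agent.StripNear Pool.Agent.StripSquare Pool.Agent.Strip051 Pool.Agent.Strip051.Sweep
open Pool.Agent.Strip051.PB
open Pool.Agent.Strip051.LC
open Pool.Agent.Strip051.LC.Line (jn tau mn)
open Pool.Agent.Strip051.LC.E0.G (om qw cc1 xi1 sg1 cc3 xi3 sg3 xiw dwl dwu)
open G

section

variable {y z u : ℝ}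

theorem c1n_le1 (y : ℝ) : c1n y ≤ 1 := by
  unfold c1n
  refine Real.sqrt_le_one.mpr ?_
  nlinarith [sq_nonneg y]

theorem c1n_lw (h : y ^ 2 ≤ 1) : 1 - 3 / 4 * y ^ 2 ≤ c1n y := by
  have := om_le h
  rw [c1n_om h]
  linarith

theorem c1n_an {a b : ℝ} (h : a ^ 2 ≤ b ^ 2) : c1n b ≤ c1n a := by
  unfold c1n
  exact Real.sqrt_le_sqrt (by linarith)

theorem c3n_anti {a b : ℝ} (h : a ^ 2 ≤ b ^ 2) : c3n b ≤ c3n a := by
  unfold c3n
  exact Real.sqrt_le_sqrt (by linarith)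

/-- The unit circle above `h0`. -/
theorem c1u_le (h0 : 0 ≤ z) (h1 : z ≤ 1 / 16) : c1n (1 + z) ≤ 1 / 2 - 3 / 2 * z := by
  have := xi1_neg h0 (by linarith)
  rw [c1n_cc1, cc1_half (by linarith) (by linarith)]
  linarith

theorem c1u_lo (h0 : 0 ≤ z) (h1 : z ≤ 1 / 16) : 39 / 100 ≤ c1n (1 + z) := by
  rw [c1n_cc1]
  exact cc1_lo h0 h1

theorem c1d_lo (h0 : -(1 / 16) ≤ z) (h1 : z ≤ 0) : 1 / 2 - 53 / 40 * z ≤ c1n (1 + z) := by
  have := xi1_pos h0 h1
  rw [c1n_cc1, cc1_half (by linarith) (by linarith)]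
  linarith

theorem c1d_le (h0 : -(1 / 16) ≤ z) (h1 : z ≤ 0) : c1n (1 + z) ≤ 1 / 2 - 3 / 2 * z := by
  have := xi1_pos' h0 h1
  rw [c1n_cc1, cc1_half (by linarith) (by linarith)]
  linarith

theorem c1_lo (h0 : -(1 / 16) ≤ z) (h1 : z ≤ 1 / 16) : 39 / 100 ≤ c1n (1 + z) := by
  rcases le_total 0 z with h | h
  · exact c1u_lo h h1
  · have := c1d_lo h0 h
    linarith

/-- The circle of radius `√3`. -/
theorem cc3_lo (h0 : -(1 / 16) ≤ z) (h1 : z ≤ 0) : 3 / 2 ≤ cc3 z 1 := by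
  unfold cc3
  refine Real.le_sqrt_of_sq_le ?_
  nlinarith

theorem cc3_lo' (_h0 : 0 ≤ z) (h1 : z ≤ 1 / 16) : 73 / 50 ≤ cc3 z 1 := by
  unfold cc3
  refine Real.le_sqrt_of_sq_le ?_
  nlinarith

theorem cc3_hi (h0 : 0 ≤ z) (_h1 : z ≤ 1 / 16) : cc3 z 1 ≤ 3 / 2 := by
  unfold cc3
  rw [Real.sqrt_le_left (by norm_num)]
  nlinarith

theorem cc3_hi' (h0 : -(1 / 16) ≤ z) (_h1 : z ≤ 0) : cc3 z 1 ≤ 77 / 50 := by
  unfold cc3
  rw [Real.sqrt_le_left (by norm_num)]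
  nlinarith

theorem c3u_le (h0 : 0 ≤ z) (h1 : z ≤ 1 / 16) : c3n (1 + z) ≤ 3 / 2 - z / 2 := by
  have a := cc3_hi h0 h1
  have b := cc3_lo' h0 h1
  rw [c3n_cc3, cc3_half (by linarith) (by linarith)]
  have : xi3 z 1 ≤ -(z / 2) := by
    unfold xi3
    rw [neg_le_neg_iff, le_div_iff₀ (by linarith)]
    nlinarith
  linarith

theorem c3u_lo (h0 : 0 ≤ z) (h1 : z ≤ 1 / 16) : 3 / 2 - 21 / 40 * z ≤ c3n (1 + z) := by
  have a := cc3_hi h0 h1
  have b := cc3_lo' h0 h1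
  rw [c3n_cc3, cc3_half (by linarith) (by linarith)]
  have : -(21 / 40 * z) ≤ xi3 z 1 := by
    unfold xi3
    rw [neg_le_neg_iff, div_le_iff₀ (by linarith)]
    nlinarith
  linarith

theorem c3d_le (h0 : -(1 / 16) ≤ z) (h1 : z ≤ 0) : c3n (1 + z) ≤ 3 / 2 - z / 2 := by
  have a := cc3_hi' h0 h1
  have b := cc3_lo h0 h1
  rw [c3n_cc3, cc3_half (by linarith) (by linarith)]
  have : xi3 z 1 ≤ -(z / 2) := by
    unfold xi3
    rw [show -(3 / 4 * z * (2 + 1 * z) / (3 / 2 + cc3 z 1)) =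
      3 / 4 * (-z) * (2 + 1 * z) / (3 / 2 + cc3 z 1) by ring, div_le_iff₀ (by linarith)]
    nlinarith
  linarith

theorem c3d_lo (h0 : -(1 / 16) ≤ z) (h1 : z ≤ 0) : 3 / 2 ≤ c3n (1 + z) := by
  rw [c3n_cc3]
  exact cc3_lo h0 h1

theorem c3_le (h0 : -(1 / 16) ≤ z) (h1 : z ≤ 1 / 16) : c3n (1 + z) ≤ 3 / 2 - z / 2 := by
  rcases le_total 0 z with h | h
  · exact c3u_le h h1
  · exact c3d_le h0 h

/-! The curves between the circles. -/

theorem xiw_om (z : ℝ) : xiw z 1 = -om z 1 := by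
  unfold xiw
  ring

theorem xb_lo (h0 : 0 ≤ z) (h1 : z ≤ 1 / 16) : 16 / 25 ≤ xb z 1 := by
  have a := om_le (y := z) (by nlinarith)
  have b := om_nn (y := z) (by nlinarith)
  have c := c3u_lo h0 h1
  rw [c3n_cc3, cc3_half (by linarith) (by linarith)] at c
  unfold xb dwu
  rw [xiw_om]
  nlinarith

theorem xb_hi (h0 : 0 ≤ z) (h1 : z ≤ 1 / 16) : xb z 1 ≤ 13 / 20 := by
  have a := om_le (y := z) (by nlinarith)
  have b := om_nn (y := z) (by nlinarith)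
  have c := c3u_le h0 h1
  rw [c3n_cc3, cc3_half (by linarith) (by linarith)] at c
  unfold xb dwu
  rw [xiw_om]
  nlinarith

theorem xa_lo (h0 : -(1 / 16) ≤ z) (h1 : z ≤ 0) : 7 / 10 ≤ xa z 1 := by
  have a := om_le (y := z) (by nlinarith)
  have b := om_nn (y := z) (by nlinarith)
  have c := xi1_pos h0 h1
  unfold xa dwl
  rw [xiw_om]
  nlinarith

theorem xc_hi (h0 : -(1 / 16) ≤ z) (h1 : z ≤ 0) : xc z 1 ≤ 6 / 5 := by
  have a := om_le (y := z) (by nlinarith)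
  have b := om_nn (y := z) (by nlinarith)
  have c := xi1_pos' h0 h1
  unfold xc dwl
  rw [xiw_om]
  nlinarith

theorem xd_hi (h0 : 0 ≤ z) (h1 : z ≤ 1 / 16) : xd z 1 ≤ 6 / 5 := by
  have a := om_le (y := z) (by nlinarith)
  have b := om_nn (y := z) (by nlinarith)
  have c := c3u_le h0 h1
  have d := c3u_lo h0 h1
  rw [c3n_cc3, cc3_half (by linarith) (by linarith)] at c d
  unfold xd dwu
  rw [xiw_om]
  nlinarith

/-! Comparison of the curves. -/

/-- The unit circle is inside of `W`, above `h0`. -/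
theorem c1_W (h0 : 0 ≤ z) (h1 : z ≤ 1 / 16) : c1n (1 + z) ≤ swn (1 + z) - 1 / 2 := by
  have a := c1u_le h0 h1
  have b := c1n_lw (y := z) (by nlinarith)
  rw [swn_c1n]
  nlinarith

theorem W_b (h0 : 0 ≤ z) (h1 : z ≤ 1 / 16) : swn (1 + z) - 1 / 2 ≤ xb z 1 := by
  have a := xb_lo h0 h1
  have b := c1n_le1 z
  rw [swn_c1n]
  linarith

theorem c1_a (h0 : -(1 / 16) ≤ z) (h1 : z ≤ 0) : c1n (1 + z) ≤ xa z 1 := by
  have a := xa_lo h0 h1
  have b := c1d_le h0 h1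
  linarith

end

/-! ### Affine functions -/

/-- `f` is affine on a segment. -/
def AfOn (f : ℝ → ℝ) (a b : ℝ) : Prop := ∃ α β, ∀ X, a ≤ X → X ≤ b → f X = α + β * X

theorem AfOn.sub {f : ℝ → ℝ} {a b a' b' : ℝ} (h : AfOn f a b) (h1 : a ≤ a') (h2 : b' ≤ b) :
    AfOn f a' b' := by
  obtain ⟨α, β, h⟩ := h
  exact ⟨α, β, fun X x1 x2 => h X (h1.trans x1) (x2.trans h2)⟩

theorem AfOn.neg {n : ℕ} {D : PV n} {R : Fin (n + 1) → ℕ → ℝ → ℝ → ℝ} {x y a b : ℝ}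
    (h : AfOn (fun X => kv D R x X y) a b) : AfOn (fun X => kv D R x X y) (-b) (-a) := by
  obtain ⟨α, β, h⟩ := h
  refine ⟨-α, β, fun X x1 x2 => ?_⟩
  have := h (-X) (by linarith) (by linarith)
  simp only at this ⊢
  rw [kv_neg] at this
  linarith

theorem afOn_kv {n : ℕ} {D : PV n} {R : Fin (n + 1) → ℕ → ℝ → ℝ → ℝ} {x y : ℝ}
    (h : PinsV D R x) {i j : Fin (n + 1)} {q : ℕ} (hq : InQ q y)
    (hn : ∀ k, D.r k y → k ≤ i ∨ j ≤ k) :
    AfOn (fun X => kv D R x X y) (crv D.P i q y) (crv D.P j q y) :=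
  ⟨R i q y x - (R j q y x - R i q y x) / (crv D.P j q y - crv D.P i q y) * crv D.P i q y,
    (R j q y x - R i q y x) / (crv D.P j q y - crv D.P i q y), fun X h1 h2 => by
      simp only
      rw [kv_between h hq hn h1 h2]
      ring⟩

section

variable {n : ℕ} {V : Vx} {T : Tbs n} {κ x X12 p q X y y' : ℝ}

/-- The kernel and the levels are affine on a segment. -/
structure Af (V : Vx) (T : Tbs n) (x y a b : ℝ) : Prop where
  K : AfOn (fun X => kv T.D (T.R V) x X y) a b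
  L : AfOn (fun X => kv T.D T.RL x X y) a b

theorem Af.sub {a b a' b' : ℝ} (h : Af V T x y a b) (h1 : a ≤ a') (h2 : b' ≤ b) :
    Af V T x y a' b' := ⟨h.K.sub h1 h2, h.L.sub h1 h2⟩

theorem Af.neg {a b : ℝ} (h : Af V T x y a b) : Af V T x y (-b) (-a) := ⟨h.K.neg, h.L.neg⟩

/-- **Concavity on a line.** -/
theorem okv_line (h : y + y' ≤ 3 + x) (hp : p ≤ X) (hq : X ≤ q)
    (A13 : Af V T x (y + y') p q) (A23 : Af V T x y' (p - X12) (q - X12))
    (Hp : OKV V T κ x X12 p y y') (Hq : OKV V T κ x X12 q y y') : OKV V T κ x X12 X y y' := by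
  rcases eq_or_lt_of_le (hp.trans hq) with e | e
  · have : X = p := le_antisymm (by linarith) hp
    rw [this]
    exact Hp
  have hd : 0 < q - p := by linarith
  set s := (X - p) / (q - p) with hs
  have s0 : 0 ≤ s := div_nonneg (by linarith) hd.le
  have s1 : s ≤ 1 := by
    rw [hs, div_le_one hd]
    linarith
  have hX : X = (1 - s) * p + s * q := by
    rw [hs]
    field_simp
    ring
  have key : ∀ R : Fin (n + 1) → ℕ → ℝ → ℝ → ℝ,
      AfOn (fun X => kv T.D R x X (y + y')) p q →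
      AfOn (fun X => kv T.D R x X y') (p - X12) (q - X12) →
      kv3 T.D R x X12 X y y' =
        cmb s (kv3 T.D R x X12 p y y') (kv3 T.D R x X12 q y y') := by
    rintro R ⟨α, β, h1⟩ ⟨γ, δ, h2⟩
    simp only at h1 h2
    unfold kv3 cmb
    simp only
    rw [h1 X hp hq, h1 p le_rfl e.le, h1 q e.le le_rfl, h2 (X - X12) (by linarith) (by linarith),
      h2 (p - X12) le_rfl (by linarith), h2 (q - X12) (by linarith) le_rfl]
    refine Prod.ext ?_ (Prod.ext ?_ ?_)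
    · simp only
      ring
    · simp only
      rw [hX]
      ring
    · simp only
      rw [hX]
      ring
  refine okv_conc s0 s1 h (X12 := X12) (X12' := X12) (by ring) hX (key _ A13.K A23.K)
    (key _ A13.L A23.L) Hp Hq

end

/-! ### The pieces -/

section

variable {V : Vx} {T : Tbs 7} {e y z : ℝ}

theorem Nod.afPa (h : Nod V T e) (h0 : -(1 / 16) < z) (h1 : z < 0) :
    Af V T (1 - e) (1 + z) (c1n (1 + z)) (xa z 1) := by
  have hn : ∀ k : Fin 8, T.D.r k (1 + z) → k ≤ 0 ∨ 1 ≤ k := by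
    intro k _
    fin_cases k
    iterate 1 left; decide
    all_goals right; decide
  rw [← h.x11 h0 (by linarith), ← h.cv0 1]
  exact ⟨afOn_kv h.pK (inq1 h0 h1) hn, afOn_kv h.pL (inq1 h0 h1) hn⟩

theorem Nod.afPc (h : Nod V T e) (h0 : -(1 / 16) < z) (h1 : z < 0) :
    Af V T (1 - e) (1 + z) (xc z 1) (swn (1 + z) + 1 / 2) := by
  have hn : ∀ k : Fin 8, T.D.r k (1 + z) → k ≤ 2 ∨ 3 ≤ k := by
    intro k _
    fin_cases k
    iterate 3 left; decide
    all_goals right; decide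
  rw [← h.x21 h0 (by linarith), ← wn_false (1 + z) (q := 1) (by norm_num), ← h.cv3 1]
  exact ⟨afOn_kv h.pK (inq1 h0 h1) hn, afOn_kv h.pL (inq1 h0 h1) hn⟩

theorem Nod.afP3 (h : Nod V T e) (h0 : -(1 / 16) < z) (h1 : z < 0) :
    Af V T (1 - e) (1 + z) (swn (1 + z) + 1 / 2) (c3n (1 + z)) := by
  have hn : ∀ k : Fin 8, T.D.r k (1 + z) → k ≤ 3 ∨ 7 ≤ k := by
    intro k hk
    fin_cases k
    · left; decide
    · left; decide
    · left; decide
    · left; decide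
    · have := h.r4 _ hk
      linarith
    · rcases h.r5 _ hk with h2 | h2 <;> linarith
    · rcases h.r6 _ hk with h2 | h2 <;> linarith
    · right; decide
  rw [← wn_false (1 + z) (q := 1) (by norm_num), ← h.cv3 1, ← h.cv7 1]
  exact ⟨afOn_kv h.pK (inq1 h0 h1) hn, afOn_kv h.pL (inq1 h0 h1) hn⟩

theorem Nod.afPw (h : Nod V T e) (h0 : 0 ≤ z) (h1 : z < 1 / 16) :
    Af V T (1 - e) (1 + z) (c1n (1 + z)) (swn (1 + z) - 1 / 2) := by
  have hn : ∀ k : Fin 8, T.D.r k (1 + z) → k ≤ 0 ∨ 3 ≤ k := by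
    intro k hk
    fin_cases k
    · left; decide
    · rcases h.r1 _ hk with ⟨-, h2⟩ | ⟨h2, -⟩ <;> linarith
    · rcases h.r2 _ hk with ⟨-, h2⟩ | ⟨h2, -⟩ <;> linarith
    all_goals right; decide
  rw [← wn_true (1 + z) (q := 2) (by norm_num), ← h.cv3 2, ← h.cv0 2]
  exact ⟨afOn_kv h.pK (inq2 h0 h1) hn, afOn_kv h.pL (inq2 h0 h1) hn⟩

theorem Nod.afPb (h : Nod V T e) (h0 : 0 ≤ z) (h1 : z < 1 / 16) :
    Af V T (1 - e) (1 + z) (swn (1 + z) - 1 / 2) (xb z 1) := by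
  have hn : ∀ k : Fin 8, T.D.r k (1 + z) → k ≤ 3 ∨ 5 ≤ k := by
    intro k hk
    fin_cases k
    · left; decide
    · left; decide
    · left; decide
    · left; decide
    · have := h.r4 _ hk
      linarith
    all_goals right; decide
  rw [← wn_true (1 + z) (q := 2) (by norm_num), ← h.cv3 2, ← h.x52 (by linarith) h1]
  exact ⟨afOn_kv h.pK (inq2 h0 h1) hn, afOn_kv h.pL (inq2 h0 h1) hn⟩

theorem Nod.afPd (h : Nod V T e) (h0 : 0 ≤ z) (h1 : z < 1 / 16) :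
    Af V T (1 - e) (1 + z) (xd z 1) (c3n (1 + z)) := by
  have hn : ∀ k : Fin 8, T.D.r k (1 + z) → k ≤ 6 ∨ 7 ≤ k := by
    intro k _
    fin_cases k
    iterate 7 left; decide
    all_goals right; decide
  rw [← h.cv7 2, ← h.x62 (by linarith) h1]
  exact ⟨afOn_kv h.pK (inq2 h0 h1) hn, afOn_kv h.pL (inq2 h0 h1) hn⟩

end

end Pool.Agent.Strip051.LC.E1
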