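import Pool.Agent.Strip051.LC.E1.Frame

/-! # Cubes near `x = 1`: the rows from the scaled slacks -/

namespace Pool.Agent.Strip051.LC.E1

open Pool.Agent.StripNear Pool.Agent.StripSquare Pool.Agent.Strip051 Pool.Agent.Strip051.Sweep
open Pool.Agent.Strip051.PB
open Pool.Agent.Strip051.LC.Exact (kE)
open G

theorem gs_eq (e : ℝ) : c1n (1 - e) = gs e := by
  unfold c1n gs
  congr 1
  ring

theorem mu_eq (e : ℝ) : mun 3 (1 - e) = G.mu e := by
  unfold mun G.mu
  rw [gs_eq]
  push_cast
  rw [add_comm]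

theorem kenE_e {e : ℝ} (he1 : e < 1) : kenE (1 - e) = 2 * eh e / (1 - e) := by
  have h : 1 - e ≠ 0 := by linarith
  unfold kenE eh ig
  rw [gs_eq]
  field_simp
  ring

/-- The factor in the two forms. -/
theorem kE_of {e κ : ℝ} (he : 0 < e) (he1 : e < 1) (hκ : κ * h0 = kenE (1 - e)) :
    kE (h0 * (1 - e)) = κ := by
  have hp := h0_pos
  have h1 := kE_h0 he he1
  rw [← kenE_e he1, ← hκ] at h1
  exact mul_right_cancel₀ hp.ne' h1

theorem amp_e {e κ : ℝ} (he1 : e < 1) (hκ : κ * h0 = kenE (1 - e)) :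
    κ * h0 * ((1 - e) * (1 - (1 - e))) / 2 = e * eh e := by
  have h : 1 - e ≠ 0 := by linarith
  rw [hκ, kenE_e he1]
  field_simp
  ring

/-- A side of a triangle next to a lattice point with the abscissa `p`; `s` are its values. -/
structure Sd {n : ℕ} (V : Vx) (T : Tbs n) (r lam p xi y : ℝ) (s : Sv) : Prop where
  K : kv T.D (T.R V) (1 - lam * r) (p + r * xi) y =
    match V with
    | .far => p + r * s.k
    | .near => be (lam * r) * p + r * nk (lam * r) s.k s.b
  L : kv T.D T.RL (1 - lam * r) (p + r * xi) y =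
    r * (LAM (lam * r) * xi) + r ^ 2 * s.c r

section

variable {n : ℕ} {V : Vx} {T : Tbs n} {r lam p xi y : ℝ} {s : Sv}

theorem nk_neg (e k b : ℝ) : nk e (-k) (-b) = -nk e k b := by
  unfold nk
  ring

theorem Sv.c_neg (s : Sv) (r : ℝ) : (-s).c r = -s.c r := by
  show -s.cA / r + -s.cB = -(s.cA / r + s.cB)
  ring

theorem Sd.neg (h : Sd V T r lam p xi y s) : Sd V T r lam (-p) (-xi) y (-s) := by
  have e1 : -p + r * -xi = -(p + r * xi) := by ring
  constructor
  · rw [e1, kv_neg, h.K]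
    cases V
    · show -(p + r * s.k) = -p + r * -s.k
      ring
    · show -(be (lam * r) * p + r * nk (lam * r) s.k s.b) =
        be (lam * r) * -p + r * nk (lam * r) (-s.k) (-s.b)
      rw [nk_neg]
      ring
  · rw [e1, kv_neg, h.L, Sv.c_neg]
    ring

end

/-- The heights of a window: `y = n + r w`, `y' = n' + r z`. -/
structure Win (B : Bs) (r lam w z y y' : ℝ) : Prop where
  r0 : 0 < r
  l0 : 0 < lam
  e1 : lam * r < 1
  hy : y = B.n + r * w
  hy' : y' = B.n' + r * z
  H : Hts r w z (h0 * y) (h0 * y')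
  one : B.p * (B.n + B.n') - B.q * B.n = 1

section

variable {n : ℕ} {V : Vx} {T : Tbs n} {B : Bs} {κ r lam w z y y' xi12 xi13 : ℝ} {P : Pat}
  {a b c : Sv}

theorem Win.e0 (h : Win B r lam w z y y') : 0 < lam * r := mul_pos h.l0 h.r0

theorem Win.ex (h : Win B r lam w z y y') {N S : ℝ}
    (hN : (3 * B.g w z + B.n' * xi12 - B.n * (xi13 - xi12)) / 2 = N + r * S) :
    exn' (B.p + r * xi12) (B.q + r * xi13) y (y + y') =
      r * (N - B.g w z) + r ^ 2 * (S + ((w + z) * xi12 - w * xi13) / 2) := by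
  unfold exn'
  unfold Bs.g at hN ⊢
  rw [h.hy, h.hy']
  linear_combination (1 / 2) * h.one + r * hN

theorem Win.le (h : Win B r lam w z y y') : y + y' ≤ 3 + (1 - lam * r) := by
  have h1 := h.H.p2
  have hp := h0_pos
  have h2 : y + y' ≤ 2 := by
    have : h0 * (y + y') ≤ h0 * 2 := by linarith
    exact le_of_mul_le_mul_left this hp
  linarith [h.e1]

/-- The statement from the slack with any splitting of the excess. -/
theorem okv_slk (h : Win B r lam w z y y') (hκ : κ * h0 = kenE (1 - lam * r)) (hP : P.Ok w z)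
    (s12 : Sd V T r lam B.p xi12 y a) (s23 : Sd V T r lam (B.q - B.p) (xi13 - xi12) y' b)
    (s13 : Sd V T r lam B.q xi13 (y + y') c) {nu base lev : ℝ}
    (hex : lvV V (1 - lam * r) y y' (exn' (B.p + r * xi12) (B.q + r * xi13) y (y + y'))
      (kv3 T.D T.RL (1 - lam * r) (B.p + r * xi12) (B.q + r * xi13) y y') =
      r * (nu - (match V with | .far => B.g w z | .near => be (lam * r) * B.g w z)) +
        r ^ 2 * (base - lev))
    (hS : match V with
      | .far => SlkP P r lam w z (B.g w z) a.k b.k c.k nu base lev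
      | .near => SlkP P r lam w z (be (lam * r) * B.g w z) (nk (lam * r) a.k a.b)
          (nk (lam * r) b.k b.b) (nk (lam * r) c.k c.b) nu base lev) :
    OKV V T κ (1 - lam * r) (B.p + r * xi12) (B.q + r * xi13) y y' := by
  have e23 : B.q + r * xi13 - (B.p + r * xi12) = B.q - B.p + r * (xi13 - xi12) := by ring
  have hk : kv3 T.D (T.R V) (1 - lam * r) (B.p + r * xi12) (B.q + r * xi13) y y' =
      (kv T.D (T.R V) (1 - lam * r) (B.p + r * xi12) y,
        kv T.D (T.R V) (1 - lam * r) (B.q - B.p + r * (xi13 - xi12)) y',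
        kv T.D (T.R V) (1 - lam * r) (B.q + r * xi13) (y + y')) := by
    unfold kv3
    rw [e23]
  rw [okv_iff]
  intro x0
  rw [hex, hk, s12.K, s23.K, s13.K]
  have hκ' := kE_of h.e0 h.e1 hκ
  cases V
  · have := pat_kf (r := r) (lam := lam) (B1 := B.p) (B2 := B.q - B.p) (g := B.g w z) h.H h.r0
      h.l0 h.e1 hP (by unfold Bs.g; ring) hS x0
    rw [hκ', add_sub_cancel] at this
    exact this
  · have := pat_kf (r := r) (lam := lam) (B1 := be (lam * r) * B.p)
      (B2 := be (lam * r) * (B.q - B.p)) (g := be (lam * r) * B.g w z) h.H h.r0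
      h.l0 h.e1 hP (by unfold Bs.g; ring) hS x0
    rw [hκ', show be (lam * r) * B.p + be (lam * r) * (B.q - B.p) = be (lam * r) * B.q by ring]
      at this
    exact this

/-- **A row** from its statement. -/
theorem okv_row (h : Win B r lam w z y y') (hκ : κ * h0 = kenE (1 - lam * r)) (hP : P.Ok w z)
    (s12 : Sd V T r lam B.p xi12 y a) (s23 : Sd V T r lam (B.q - B.p) (xi13 - xi12) y' b)
    (s13 : Sd V T r lam B.q xi13 (y + y') c) {N S : ℝ}
    (hN : (3 * B.g w z + B.n' * xi12 - B.n * (xi13 - xi12)) / 2 = N + r * S)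
    (hR : RowC V P B r lam w z xi12 xi13 N S a b c) :
    OKV V T κ (1 - lam * r) (B.p + r * xi12) (B.q + r * xi13) y y' := by
  have e23 : B.q + r * xi13 - (B.p + r * xi12) = B.q - B.p + r * (xi13 - xi12) := by ring
  have hr := h.r0
  have hc : r * (LAM (lam * r) * xi12) + r ^ 2 * a.c r +
      (r * (LAM (lam * r) * (xi13 - xi12)) + r ^ 2 * b.c r) -
      (r * (LAM (lam * r) * xi13) + r ^ 2 * c.c r) = r ^ 2 * (a.c r + b.c r - c.c r) := by ring
  have habs : |r ^ 2 * (a.c r + b.c r - c.c r)| = r ^ 2 * |a.c r + b.c r - c.c r| := by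
    rw [abs_mul, abs_of_pos (by positivity : 0 < r ^ 2)]
  cases V
  · refine okv_slk h hκ hP s12 s23 s13 ?_ hR
    show PB.lvF _ _ = _
    unfold kv3
    rw [e23, lvF_eq]
    simp only
    rw [s12.L, s23.L, s13.L, h.ex hN, hc, habs]
    ring
  · refine okv_slk h hκ hP s12 s23 s13 ?_ hR
    show PB.lvN 3 0 _ _ _ _ _ = _
    unfold kv3
    rw [e23, lvN_eq h.le]
    simp only
    rw [s12.L, s23.L, s13.L, h.ex hN, hc, habs, mu_eq]
    have h3 : be (lam * r) - 1 - 3 / 2 * (G.mu (lam * r) * LAM (lam * r)) =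
        lam * r * (G.mu (lam * r) * LAM (lam * r) * q1 (lam * r) / (2 * eh (lam * r))) := by
      have h4 := one_sub_eh h.e0.le h.e1.le
      have h5 := (eh_pos h.e0 h.e1).ne'
      unfold be B0
      field_simp
      linear_combination (G.mu (lam * r) * LAM (lam * r)) * h4
    unfold lvn
    rw [h.hy, h.hy']
    linear_combination (r * B.g w z) * h3 + (r * (G.mu (lam * r) * LAM (lam * r))) * hN

end

end Pool.Agent.Strip051.LC.E1
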