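import Pool.Agent.Strip051.LC.E1.Rows
import Pool.Agent.Strip051.LC.E1.Row

/-! # Rests near the full period: change of the scale

All functions of the tables are homogeneous: a value with the scales `r`, `lam` is `r` times the
value with the scales `1`, `lam * r` at the coordinate `r * w`. -/

namespace Pool.Agent.Strip051.LC.E1

open Pool.Agent.Strip051.LC.E0.G (om qw cc1 xi1 sg1 cc3 xi3 sg3 xiw dwl dwu)
open G

/-- The values with the scale `1`. -/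
noncomputable def Sv.sc (r : ℝ) (s : Sv) : Sv := ⟨r * s.k, r * s.cA, r ^ 2 * s.cB, r * s.b⟩

namespace G

section

variable {r lam w z xi : ℝ}

theorem hg_h (hr : 0 < r) (x : ℝ) : hg (r * x) = r * hg x := by
  unfold hg
  rw [mul_max_of_nonneg _ _ hr.le, mul_zero]

theorem om_h : om (r * w) 1 = r ^ 2 * om w r := by
  unfold om qw
  rw [show 1 - 3 / 4 * (1 : ℝ) ^ 2 * (r * w) ^ 2 = 1 - 3 / 4 * r ^ 2 * w ^ 2 by ring]
  ring

theorem cc1_h : cc1 (r * z) 1 = cc1 z r := by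
  unfold cc1
  rw [one_mul]

theorem cc3_h : cc3 (r * z) 1 = cc3 z r := by
  unfold cc3
  rw [one_mul]

theorem xi1_h : xi1 (r * z) 1 = r * xi1 z r := by
  unfold xi1
  rw [cc1_h]
  ring

theorem xi1n_h : xi1 (-(r * z)) 1 = r * xi1 (-z) r := by
  rw [← mul_neg, xi1_h]

theorem xi3_h : xi3 (r * z) 1 = r * xi3 z r := by
  unfold xi3
  rw [cc3_h]
  ring

theorem sg1_h : sg1 (r * z) 1 = r * sg1 z r := by
  unfold sg1
  rw [xi1_h]
  ring

theorem sg3_h : sg3 (r * z) 1 = r * sg3 z r := by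
  unfold sg3
  rw [xi3_h]
  ring

theorem xiw_h : xiw (r * z) 1 = r * xiw z r := by
  unfold xiw
  rw [om_h]
  ring

theorem dwl_h : dwl (r * z) 1 = dwl z r := by
  unfold dwl
  rw [xiw_h, xi1_h]
  ring

theorem dwu_h : dwu (r * z) 1 = dwu z r := by
  unfold dwu
  rw [xiw_h, xi3_h]
  ring

theorem g1_h : g1 (r * z) 1 = r * g1 z r := by
  unfold g1
  rw [sg1_h, cc1_h]
  ring

theorem g3_h : g3 (r * z) 1 = r * g3 z r := by
  unfold g3
  rw [sg3_h, cc3_h]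
  ring

theorem hg_1 (hr : 0 < r) (a b : ℝ) : hg (r * a - b * r) = r * hg (a - b) := by
  rw [← hg_h hr]
  congr 1
  ring

theorem hg_2 (hr : 0 < r) (a b c : ℝ) : hg (r * a - c * (b * r)) = r * hg (a - c * b) := by
  rw [← hg_h hr]
  congr 1
  ring

theorem hg_3 (hr : 0 < r) (a b c : ℝ) : hg (r * a - b * r / c) = r * hg (a - b / c) := by
  rw [← hg_h hr]
  congr 1
  ring

theorem hg_4 (hr : 0 < r) (a h c : ℝ) : hg (h * (r * a) - 1 / (c * 1)) =
    r * hg (h * a - 1 / (c * r)) := by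
  rw [← hg_h hr]
  congr 1
  rcases eq_or_ne c 0 with h | h
  · subst h
    simp
    ring
  · field_simp

theorem hg_5 (hr : 0 < r) (a h c d : ℝ) : hg (h * (r * a) - d / (c * 1)) =
    r * hg (h * a - d / (c * r)) := by
  rw [← hg_h hr]
  congr 1
  rcases eq_or_ne c 0 with h | h
  · subst h
    simp
    ring
  · field_simp

theorem hg_6 (hr : 0 < r) (a h b c d : ℝ) : hg (h * (r * a - b * (lam * r)) - d / (c * 1)) =
    r * hg (h * (a - b * lam) - d / (c * r)) := by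
  rw [← hg_h hr]
  congr 1
  rcases eq_or_ne c 0 with h | h
  · subst h
    simp
    ring
  · field_simp

theorem uR_h (hr : 0 < r) (k0 v m p f f' E t : ℝ) :
    uR k0 v m p f f' E 1 (lam * r) (r * t) = r * uR k0 v m p f f' E r lam t := by
  unfold uR
  rw [hg_1 hr]
  repeat rw [hg_2 hr]
  repeat rw [hg_4 hr]
  ring

theorem kU_h (hr : 0 < r) (t : ℝ) : kU 1 (lam * r) (r * t) = r * kU r lam t := by
  unfold kU
  rw [mul_one, uR_h hr]

theorem bU_h (hr : 0 < r) (t : ℝ) : bU 1 (lam * r) (r * t) = r * bU r lam t := by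
  unfold bU
  rw [mul_one, uR_h hr]

theorem aL_h (hr : 0 < r) (e t : ℝ) : aL e 1 (lam * r) (r * t) = r ^ 2 * aL e r lam t := by
  unfold aL
  repeat rw [hg_2 hr]
  repeat rw [hg_5 hr]
  ring

theorem bL_h (hr : 0 < r) (e t : ℝ) : bL e 1 (lam * r) (r * t) = r ^ 2 * bL e r lam t := by
  unfold bL
  repeat rw [hg_2 hr]
  repeat rw [hg_5 hr]
  ring

theorem kU'_h (hr : 0 < r) (t : ℝ) : kU' 1 (lam * r) (r * t) = r * kU' r lam t := by
  unfold kU'
  repeat rw [hg_5 hr]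
  rw [kU_h hr]
  ring

theorem bU'_h (hr : 0 < r) (t : ℝ) : bU' 1 (lam * r) (r * t) = r * bU' r lam t := by
  unfold bU'
  repeat rw [hg_5 hr]
  rw [mul_one, bU_h hr]
  ring

theorem aL'_h (hr : 0 < r) (e t : ℝ) : aL' e 1 (lam * r) (r * t) = r ^ 2 * aL' e r lam t := by
  unfold aL'
  repeat rw [hg_5 hr]
  rw [aL_h hr]
  ring

theorem bL'_h (hr : 0 < r) (e t : ℝ) : bL' e 1 (lam * r) (r * t) = r ^ 2 * bL' e r lam t := by
  unfold bL'
  repeat rw [hg_5 hr]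
  rw [bL_h hr]
  ring

theorem tl_h (hr : 0 < r) (b b' a : ℝ) : tl b b' (lam * r) (r * a) = r * tl b b' lam a := by
  unfold tl
  rw [hg_1 hr, hg_2 hr, hg_3 hr]
  ring

theorem nt_h (hr : 0 < r) (n n' m a : ℝ) : nt n n' m (lam * r) (r * a) = r * nt n n' m lam a := by
  unfold nt
  rw [hg_1 hr, hg_2 hr, hg_3 hr]
  ring

theorem wK0_h (hr : 0 < r) (a : ℝ) : wK0 1 (lam * r) (r * a) = r * wK0 r lam a := by
  unfold wK0
  rw [mul_one, tl_h hr]
  ring

theorem wB0_h (hr : 0 < r) (a : ℝ) : wB0 1 (lam * r) (r * a) = r * wB0 r lam a := by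
  unfold wB0
  rw [mul_one, tl_h hr]
  ring

theorem wK1_h (hr : 0 < r) (a : ℝ) : wK1 1 (lam * r) (r * a) = r * wK1 r lam a := by
  unfold wK1
  rw [tl_h hr]
  ring

theorem wB1_h (hr : 0 < r) (a : ℝ) : wB1 1 (lam * r) (r * a) = r * wB1 r lam a := by
  unfold wB1
  rw [tl_h hr]
  ring

theorem wK2_h (hr : 0 < r) (a : ℝ) : wK2 1 (lam * r) (r * a) = r * wK2 r lam a := by
  unfold wK2
  rw [tl_h hr]
  ring

theorem wB2_h (hr : 0 < r) (a : ℝ) : wB2 1 (lam * r) (r * a) = r * wB2 r lam a := by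
  unfold wB2
  rw [tl_h hr]
  ring

theorem wK3_h (hr : 0 < r) (a : ℝ) : wK3 1 (lam * r) (r * a) = r * wK3 r lam a := by
  unfold wK3
  rw [mul_one, tl_h hr]
  ring

theorem wB3_h (hr : 0 < r) (a : ℝ) : wB3 1 (lam * r) (r * a) = r * wB3 r lam a := by
  unfold wB3
  rw [tl_h hr]
  ring

theorem sv_ext {a b : Sv} (h1 : a.k = b.k) (h2 : a.cA = b.cA) (h3 : a.cB = b.cB)
    (h4 : a.b = b.b) : a = b := by
  cases a
  cases b
  simp_all

theorem S1_h (hr : 0 < r) : S1 1 (lam * r) (r * w) = (S1 r lam w).sc r := by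
  refine sv_ext ?_ ?_ ?_ ?_
  · exact kU_h hr w
  · show 0 = r * 0
    ring
  · show LAM (lam * r * 1) * aL (lam * r * 1) 1 (lam * r) (r * w) =
      r ^ 2 * (LAM (lam * r) * aL (lam * r) r lam w)
    rw [mul_one, aL_h hr]
    ring
  · exact bU_h hr w

theorem C1d_h (hr : 0 < r) : C1d 1 (lam * r) (r * z) = (C1d r lam z).sc r := by
  have e : -(sg1 (r * z) 1) = r * -(sg1 z r) := by
    rw [sg1_h]
    ring
  refine sv_ext ?_ ?_ ?_ ?_
  · show kU 1 (lam * r) (-(sg1 (r * z) 1)) * (1 / 2 - 1 * g1 (r * z) 1) - g1 (r * z) 1 =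
      r * (kU r lam (-(sg1 z r)) * (1 / 2 - r * g1 z r) - g1 z r)
    rw [e, kU_h hr, g1_h]
    ring
  · show 0 = r * 0
    ring
  · show LAM (lam * r * 1) * bL (lam * r * 1) 1 (lam * r) (-(sg1 (r * z) 1)) =
      r ^ 2 * (LAM (lam * r) * bL (lam * r) r lam (-(sg1 z r)))
    rw [mul_one, e, bL_h hr]
    ring
  · show bU 1 (lam * r) (-(sg1 (r * z) 1)) * (1 / 2 - 1 * g1 (r * z) 1) -
        B0 (lam * r * 1) * g1 (r * z) 1 =
      r * (bU r lam (-(sg1 z r)) * (1 / 2 - r * g1 z r) - B0 (lam * r) * g1 z r)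
    rw [mul_one, e, bU_h hr, g1_h]
    ring

theorem C1u_h (hr : 0 < r) : C1u 1 (lam * r) (r * z) = (C1u r lam z).sc r := by
  refine sv_ext ?_ ?_ ?_ ?_
  · show kU 1 (lam * r) (sg1 (r * z) 1) * (1 / 2 - 1 * g1 (r * z) 1) - g1 (r * z) 1 =
      r * (kU r lam (sg1 z r) * (1 / 2 - r * g1 z r) - g1 z r)
    rw [sg1_h, kU_h hr, g1_h]
    ring
  · show 0 = r * 0
    ring
  · show LAM (lam * r * 1) * (aL (lam * r * 1) 1 (lam * r) (sg1 (r * z) 1) -
        bL (lam * r * 1) 1 (lam * r) (sg1 (r * z) 1)) =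
      r ^ 2 * (LAM (lam * r) * (aL (lam * r) r lam (sg1 z r) - bL (lam * r) r lam (sg1 z r)))
    rw [mul_one, sg1_h, bL_h hr, aL_h hr]
    ring
  · show bU 1 (lam * r) (sg1 (r * z) 1) * (1 / 2 - 1 * g1 (r * z) 1) -
        B0 (lam * r * 1) * g1 (r * z) 1 =
      r * (bU r lam (sg1 z r) * (1 / 2 - r * g1 z r) - B0 (lam * r) * g1 z r)
    rw [mul_one, sg1_h, bU_h hr, g1_h]
    ring

theorem C3d_h (hr : 0 < r) : C3d 1 (lam * r) (r * z) = (C3d r lam z).sc r := by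
  have e : -(sg3 (r * z) 1) = r * -(sg3 z r) := by
    rw [sg3_h]
    ring
  refine sv_ext ?_ ?_ ?_ ?_
  · show kU 1 (lam * r) (-(sg3 (r * z) 1)) * (3 / 2 - 1 * g3 (r * z) 1) - g3 (r * z) 1 =
      r * (kU r lam (-(sg3 z r)) * (3 / 2 - r * g3 z r) - g3 z r)
    rw [e, kU_h hr, g3_h]
    ring
  · show 0 = r * 0
    ring
  · show LAM (lam * r * 1) * (aL (lam * r * 1) 1 (lam * r) (-(sg3 (r * z) 1)) +
        bL (lam * r * 1) 1 (lam * r) (-(sg3 (r * z) 1))) =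
      r ^ 2 * (LAM (lam * r) * (aL (lam * r) r lam (-(sg3 z r)) +
        bL (lam * r) r lam (-(sg3 z r))))
    rw [mul_one, e, bL_h hr, aL_h hr]
    ring
  · show bU 1 (lam * r) (-(sg3 (r * z) 1)) * (3 / 2 - 1 * g3 (r * z) 1) -
        B0 (lam * r * 1) * g3 (r * z) 1 =
      r * (bU r lam (-(sg3 z r)) * (3 / 2 - r * g3 z r) - B0 (lam * r) * g3 z r)
    rw [mul_one, e, bU_h hr, g3_h]
    ring

theorem C3u_h (hr : 0 < r) : C3u 1 (lam * r) (r * z) = (C3u r lam z).sc r := by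
  refine sv_ext ?_ ?_ ?_ ?_
  · show kU 1 (lam * r) (sg3 (r * z) 1) * (3 / 2 - 1 * g3 (r * z) 1) - g3 (r * z) 1 =
      r * (kU r lam (sg3 z r) * (3 / 2 - r * g3 z r) - g3 z r)
    rw [sg3_h, kU_h hr, g3_h]
    ring
  · show 0 = r * 0
    ring
  · show LAM (lam * r * 1) * (2 * aL (lam * r * 1) 1 (lam * r) (sg3 (r * z) 1) -
        bL (lam * r * 1) 1 (lam * r) (sg3 (r * z) 1)) =
      r ^ 2 * (LAM (lam * r) * (2 * aL (lam * r) r lam (sg3 z r) - bL (lam * r) r lam (sg3 z r)))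
    rw [mul_one, sg3_h, bL_h hr, aL_h hr]
    ring
  · show bU 1 (lam * r) (sg3 (r * z) 1) * (3 / 2 - 1 * g3 (r * z) 1) -
        B0 (lam * r * 1) * g3 (r * z) 1 =
      r * (bU r lam (sg3 z r) * (3 / 2 - r * g3 z r) - B0 (lam * r) * g3 z r)
    rw [mul_one, sg3_h, bU_h hr, g3_h]
    ring

theorem W0_h (hr : 0 < r) : W0 1 (lam * r) (r * w) = (W0 r lam w).sc r := by
  refine sv_ext ?_ ?_ ?_ ?_
  · show 1 * wK0 1 (lam * r) (r * w) + xi1 (-(r * w)) 1 * (1 + 1 * wK0 1 (lam * r) (r * w)) =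
      r * (1 * wK0 r lam w + xi1 (-w) r * (1 + r * wK0 r lam w))
    rw [wK0_h hr, xi1n_h]
    ring
  · unfold W0 Sv.sc
    simp only
    rw [hg_2 hr, mul_one]
    ring
  · show 0 = r ^ 2 * 0
    ring
  · show 1 * wB0 1 (lam * r) (r * w) + xi1 (-(r * w)) 1 *
        (B0 (lam * r * 1) + 1 * wB0 1 (lam * r) (r * w)) =
      r * (1 * wB0 r lam w + xi1 (-w) r * (B0 (lam * r) + r * wB0 r lam w))
    rw [wB0_h hr, xi1n_h, mul_one]
    ring

theorem W1_h (hr : 0 < r) : W1 1 (lam * r) (r * z) = (W1 r lam z).sc r := by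
  have e : -(r * z) = r * -z := by ring
  refine sv_ext ?_ ?_ ?_ ?_
  · unfold W1 Sv.sc
    simp only
    rw [e, wK1_h hr, xiw_h]
    ring
  · unfold W1 Sv.sc
    simp only
    rw [e, hg_2 hr, mul_one]
    ring
  · show 0 = r ^ 2 * 0
    ring
  · unfold W1 Sv.sc
    simp only
    rw [e, wB1_h hr, xiw_h, mul_one]
    ring

theorem W2_h (hr : 0 < r) : W2 1 (lam * r) (r * z) = (W2 r lam z).sc r := by
  refine sv_ext ?_ ?_ ?_ ?_
  · unfold W2 Sv.sc
    simp only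
    rw [wK2_h hr, xiw_h]
    ring
  · unfold W2 Sv.sc
    simp only
    rw [hg_2 hr, mul_one]
    ring
  · show 0 = r ^ 2 * 0
    ring
  · unfold W2 Sv.sc
    simp only
    rw [wB2_h hr, xiw_h, mul_one]
    ring

theorem W3_h (hr : 0 < r) : W3 1 (lam * r) (r * z) = (W3 r lam z).sc r := by
  have e : -(r * z) = r * -z := by ring
  refine sv_ext ?_ ?_ ?_ ?_
  · unfold W3 Sv.sc
    simp only
    rw [e, wK3_h hr]
  · unfold W3 Sv.sc
    simp only
    rw [e, hg_2 hr, mul_one]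
    ring
  · show 0 = r ^ 2 * 0
    ring
  · unfold W3 Sv.sc
    simp only
    rw [e, wB3_h hr]

theorem dQ_h : dQ 1 (r * w) = dQ r w := by
  unfold dQ
  rw [xi1n_h, one_mul]
  ring

theorem xiq_h : xiq 1 (lam * r) (r * w) = r * xiq r lam w := by
  unfold xiq
  rw [xi1n_h, dQ_h]
  ring

theorem c5_h (hr : 0 < r) : c5 1 (lam * r) (r * w) = r * c5 r lam w := by
  unfold c5
  rw [hg_2 hr, mul_one]
  ring

theorem Q0_h (hr : 0 < r) : Q0 1 (lam * r) (r * w) = (Q0 r lam w).sc r := by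
  refine sv_ext ?_ ?_ ?_ ?_
  · unfold Q0
    rw [W0_h hr]
    unfold Sv.sc
    simp only
    rw [nt_h hr]
    ring
  · unfold Q0
    rw [W0_h hr, c5_h hr]
    unfold Sv.sc
    simp only
    ring
  · show 0 = r ^ 2 * 0
    ring
  · unfold Q0
    rw [W0_h hr]
    unfold Sv.sc
    simp only
    rw [nt_h hr, mul_one]
    ring

theorem fKa_h : fKa 1 (r * z) = fKa r z := by unfold fKa; rw [one_mul]
theorem fBa_h : fBa 1 (r * z) = fBa r z := by unfold fBa; rw [one_mul]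
theorem fXa_h : fXa 1 (lam * r) (r * z) = fXa r lam z := by unfold fXa; rw [one_mul, mul_one]
theorem fKc_h : fKc 1 (r * z) = fKc r z := by unfold fKc; rw [one_mul]
theorem fBc_h : fBc 1 (r * z) = fBc r z := by unfold fBc; rw [one_mul]
theorem fXc_h : fXc 1 (lam * r) (r * z) = fXc r lam z := by unfold fXc; rw [one_mul, mul_one]
theorem fKb_h : fKb 1 (r * z) = fKb r z := by unfold fKb; rw [one_mul]
theorem fBb_h : fBb 1 (r * z) = fBb r z := by unfold fBb; rw [one_mul]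
theorem fXb_h : fXb 1 (lam * r) (r * z) = fXb r lam z := by unfold fXb; rw [one_mul, mul_one]
theorem fKd_h : fKd 1 (r * z) = fKd r z := by unfold fKd; rw [one_mul]
theorem fBd_h : fBd 1 (r * z) = fBd r z := by unfold fBd; rw [one_mul]
theorem fXd_h : fXd 1 (lam * r) (r * z) = fXd r lam z := by unfold fXd; rw [one_mul, mul_one]

theorem xa_h : xa (r * z) 1 = xa z r := by
  unfold xa
  rw [xi1_h, dwl_h, one_mul]

theorem xc_h : xc (r * z) 1 = xc z r := by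
  unfold xc
  rw [xiw_h, dwl_h, one_mul]

theorem xb_h : xb (r * z) 1 = xb z r := by
  unfold xb
  rw [xiw_h, dwu_h, one_mul]

theorem xd_h : xd (r * z) 1 = xd z r := by
  unfold xd
  rw [xi3_h, dwu_h, one_mul]

theorem rdiv (hr : 0 < r) (a b c d : ℝ) : (r * a - r * b) / (r * c - r * d) = (a - b) / (c - d) := by
  rw [← mul_sub, ← mul_sub, mul_div_mul_left _ _ hr.ne']

theorem Pa_h (hr : 0 < r) : Pa (r * xi) 1 (lam * r) (r * z) = (Pa xi r lam z).sc r := by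
  unfold Pa
  rw [C1d_h hr, xa_h, dwl_h, xi1_h, fKa_h, fXa_h, fBa_h]
  unfold Sv.sc
  refine sv_ext ?_ ?_ ?_ ?_ <;> simp only [mul_one] <;> ring

theorem Pc_h (hr : 0 < r) : Pc (r * xi) 1 (lam * r) (r * z) = (Pc xi r lam z).sc r := by
  unfold Pc
  rw [W1_h hr, xc_h, dwl_h, xiw_h, fKc_h, fXc_h, fBc_h]
  unfold Sv.sc
  refine sv_ext ?_ ?_ ?_ ?_ <;> simp only [mul_one] <;> ring

theorem P3_h (hr : 0 < r) : P3 (r * xi) 1 (lam * r) (r * z) = (P3 xi r lam z).sc r := by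
  unfold P3
  rw [W1_h hr, C3d_h hr, xiw_h, xi3_h, rdiv hr]
  unfold Sv.sc
  refine sv_ext ?_ ?_ ?_ ?_ <;> simp only <;> ring

theorem Pw_h (hr : 0 < r) : Pw (r * xi) 1 (lam * r) (r * z) = (Pw xi r lam z).sc r := by
  unfold Pw
  rw [W2_h hr, C1u_h hr, xiw_h, xi1_h, rdiv hr]
  unfold Sv.sc
  refine sv_ext ?_ ?_ ?_ ?_ <;> simp only <;> ring

theorem Pb_h (hr : 0 < r) : Pb (r * xi) 1 (lam * r) (r * z) = (Pb xi r lam z).sc r := by
  unfold Pb
  rw [W2_h hr, xb_h, dwu_h, xiw_h, fKb_h, fXb_h, fBb_h]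
  unfold Sv.sc
  refine sv_ext ?_ ?_ ?_ ?_ <;> simp only [mul_one] <;> ring

theorem Pd_h (hr : 0 < r) : Pd (r * xi) 1 (lam * r) (r * z) = (Pd xi r lam z).sc r := by
  unfold Pd
  rw [C3u_h hr, xd_h, dwu_h, xi3_h, fKd_h, fXd_h, fBd_h]
  unfold Sv.sc
  refine sv_ext ?_ ?_ ?_ ?_ <;> simp only [mul_one] <;> ring

theorem H1_h (hr : 0 < r) : H1 (r * xi) 1 (lam * r) (r * w) = (H1 xi r lam w).sc r := by
  have e : (r * xi + 1 * om (r * w) 1) / (xi1 (-(r * w)) 1 + 1 * om (r * w) 1) =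
      (xi + r * om w r) / (xi1 (-w) r + r * om w r) := by
    rw [xi1n_h, om_h, show r * xi + 1 * (r ^ 2 * om w r) = r * (xi + r * om w r) by ring,
      show r * xi1 (-w) r + 1 * (r ^ 2 * om w r) = r * (xi1 (-w) r + r * om w r) by ring,
      mul_div_mul_left _ _ hr.ne']
  unfold H1
  rw [W0_h hr, S1_h hr, e]
  unfold Sv.sc
  refine sv_ext ?_ ?_ ?_ ?_ <;> simp only <;> ring

theorem H2_h (hr : 0 < r) : H2 (r * xi) 1 (lam * r) (r * w) = (H2 xi r lam w).sc r := by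
  have e : (r * xi - xi1 (-(r * w)) 1) / (11 / 5 * (lam * r) * dQ 1 (r * w)) =
      (xi - xi1 (-w) r) / (11 / 5 * lam * dQ r w) := by
    rw [xi1n_h, dQ_h, show r * xi - r * xi1 (-w) r = r * (xi - xi1 (-w) r) by ring,
      show 11 / 5 * (lam * r) * dQ r w = r * (11 / 5 * lam * dQ r w) by ring,
      mul_div_mul_left _ _ hr.ne']
  unfold H2
  rw [W0_h hr, Q0_h hr, e]
  unfold Sv.sc
  refine sv_ext ?_ ?_ ?_ ?_ <;> simp only <;> ring

theorem H3_h (hr : 0 < r) : H3 (r * xi) 1 (lam * r) (r * w) = (H3 xi r lam w).sc r := by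
  unfold H3
  rw [Q0_h hr, c5_h hr, dQ_h, xiq_h]
  unfold Sv.sc
  refine sv_ext ?_ ?_ ?_ ?_ <;> simp only [mul_one] <;> ring

theorem x3v_h (hr : 0 < r) (u : ℝ) : x3v (r * u) 1 = r * x3v u r := by
  unfold x3v
  rw [show -(3 * (r * u) / 1) - 3 / 4 * (r * u) ^ 2 = r ^ 2 * (-(3 * u / r) - 3 / 4 * u ^ 2) by
    field_simp, Real.sqrt_mul (by positivity), Real.sqrt_sq hr.le]

theorem C33_h (hr : 0 < r) (u : ℝ) : C33 1 (lam * r) (r * u) = (C33 r lam u).sc r := by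
  have e : 2 / 3 * x3v (r * u) 1 = r * (2 / 3 * x3v u r) := by
    rw [x3v_h hr]
    ring
  unfold C33
  rw [e, x3v_h hr, kU'_h hr, bU'_h hr, mul_one, aL'_h hr, bL'_h hr]
  unfold Sv.sc
  refine sv_ext ?_ ?_ ?_ ?_ <;> simp only <;> ring

theorem xv5_h (hr : 0 < r) (u : ℝ) : xv5 (r * u) 1 = r * xv5 u r := by
  unfold xv5
  rw [xi1_h, x3v_h hr]
  ring

theorem xv6_h (hr : 0 < r) (u : ℝ) : xv6 (r * u) 1 = r * xv6 u r := by
  unfold xv6
  rw [xi1_h, x3v_h hr]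
  ring

theorem v5_h (hr : 0 < r) (u : ℝ) : v5 1 (lam * r) (r * u) = r ^ 2 * v5 r lam u := by
  unfold v5
  rw [xv5_h hr, mul_one]
  ring

theorem v6_h (hr : 0 < r) (u : ℝ) : v6 1 (lam * r) (r * u) = r ^ 2 * v6 r lam u := by
  unfold v6
  rw [xv6_h hr, mul_one]
  ring

theorem V0_h (hr : 0 < r) (u : ℝ) : V0 (r * xi) 1 (lam * r) (r * u) = (V0 xi r lam u).sc r := by
  unfold V0
  rw [W3_h hr, xi1_h]
  unfold Sv.sc
  refine sv_ext ?_ ?_ ?_ ?_ <;> simp only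
  · rw [mul_div_mul_left _ _ hr.ne']
    ring
  · rw [mul_div_mul_left _ _ hr.ne']
    ring
  · ring
  · rw [mul_div_mul_left _ _ hr.ne']
    ring

theorem V1_h (hr : 0 < r) (u : ℝ) : V1 (r * xi) 1 (lam * r) (r * u) = (V1 xi r lam u).sc r := by
  unfold V1
  rw [W3_h hr, C33_h hr, xi1_h, x3v_h hr, rdiv hr, v5_h hr]
  unfold Sv.sc
  refine sv_ext ?_ ?_ ?_ ?_ <;> simp only <;> ring

theorem V2_h (hr : 0 < r) (u : ℝ) : V2 (r * xi) 1 (lam * r) (r * u) = (V2 xi r lam u).sc r := by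
  unfold V2
  rw [W3_h hr, C33_h hr, xi1_h, x3v_h hr, rdiv hr, v5_h hr, v6_h hr]
  unfold Sv.sc
  refine sv_ext ?_ ?_ ?_ ?_ <;> simp only <;> ring

theorem V3_h (hr : 0 < r) (u : ℝ) : V3 (r * xi) 1 (lam * r) (r * u) = (V3 xi r lam u).sc r := by
  unfold V3
  rw [W3_h hr, C33_h hr, xi1_h, x3v_h hr, rdiv hr, v6_h hr]
  unfold Sv.sc
  refine sv_ext ?_ ?_ ?_ ?_ <;> simp only <;> ring

end

end G

/-- **Change of the scale** of the values on a side. -/
theorem Sd.of_one {n : ℕ} {V : Vx} {T : Tbs n} {r lam p xi y : ℝ} {s : Sv} (hr : 0 < r)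
    (h : Sd V T 1 (lam * r) p (r * xi) y (s.sc r)) : Sd V T r lam p xi y s := by
  have hK := h.K
  have hL := h.L
  rw [mul_one, one_mul] at hK hL
  refine ⟨?_, ?_⟩
  · rw [hK]
    cases V
    · show p + 1 * (r * s.k) = p + r * s.k
      ring
    · show be (lam * r) * p + 1 * nk (lam * r) (r * s.k) (r * s.b) =
        be (lam * r) * p + r * nk (lam * r) s.k s.b
      unfold nk
      ring
  · rw [hL]
    unfold Sv.c Sv.sc
    simp only
    field_simp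

end Pool.Agent.Strip051.LC.E1
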