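import Pool.Agent.Strip051.LC.Exact.CertT

/-! # Rests near the full period: scaled phases

`s` is near `h0`; the phase `s + (h0 - s) z` has the scaled coordinate `z`, the gap is `0 ≤ z ≤ 1`.
The density is `amp * (1 - 2 z)` in the gap and `amp * (1 - 2 z + 2 h0 / s * mm z)` in general.
The kernel `R = X` (the horizontal coordinate) has the flux of a weighted area. -/

namespace Pool.Agent.Strip051.LC.E1

open Pool.Agent.StripNear Pool.Agent.StripSquare Pool.Agent.Strip051 Pool.Agent.Strip051.Sweep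
open Pool.Agent.Strip051.LC.Line (D mn jn tau D_low D_high D_add D_add_int mn_shift mn_symm
  phi_nonneg_nonneg phi_nonpos_nonpos phi_pos_neg phi_comm)

/-- The signed distance from `[0, 1]`. -/
noncomputable def mm (z : ℝ) : ℝ := max 0 (z - 1) - max 0 (-z)

theorem mm_mid {z : ℝ} (h0 : 0 ≤ z) (h1 : z ≤ 1) : mm z = 0 := by
  unfold mm
  rw [max_eq_left (by linarith), max_eq_left (by linarith), sub_self]

theorem mm_low {z : ℝ} (h0 : z ≤ 0) : mm z = z := by
  unfold mm
  rw [max_eq_left (by linarith), max_eq_right (by linarith)]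
  ring

theorem mm_high {z : ℝ} (h1 : 1 ≤ z) : mm z = z - 1 := by
  unfold mm
  rw [max_eq_right (by linarith), max_eq_left (by linarith)]
  ring

theorem mm_refl (z : ℝ) : mm (1 - z) = -mm z := by
  unfold mm
  rw [show 1 - z - 1 = -z by ring, show -(1 - z) = z - 1 by ring]
  ring

theorem mm_continuous : Continuous mm := by
  unfold mm
  fun_prop

theorem mm_mono : Monotone mm := by
  intro a b hab
  unfold mm
  have h1 : max 0 (a - 1) ≤ max 0 (b - 1) := max_le_max le_rfl (by linarith)
  have h2 : max 0 (-b) ≤ max 0 (-a) := max_le_max le_rfl (by linarith)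
  linarith

/-- `mm` increases at most as fast as the identity. -/
theorem mm_lip {a b : ℝ} (hab : a ≤ b) : mm b - mm a ≤ b - a := by
  rcases le_total b 0 with hb | hb
  · rw [mm_low hb, mm_low (hab.trans hb)]
  rcases le_total b 1 with hb1 | hb1
  · rw [mm_mid hb hb1]
    rcases le_total a 0 with ha | ha
    · rw [mm_low ha]
      linarith
    · rw [mm_mid ha (hab.trans hb1)]
      linarith
  · rw [mm_high hb1]
    rcases le_total a 0 with ha | ha
    · rw [mm_low ha]
      linarith
    rcases le_total a 1 with ha1 | ha1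
    · rw [mm_mid ha ha1]
      linarith
    · rw [mm_high ha1]
      linarith

/-- The density in the scaled coordinate. -/
theorem D_scaled {κ s z : ℝ} (hs0 : 0 < s) (hs1 : s < h0) (h1 : -s ≤ (h0 - s) * z)
    (h2 : (h0 - s) * z ≤ h0) :
    D s κ (s + (h0 - s) * z) = amp κ s * (1 - 2 * z + 2 * h0 / s * mm z) := by
  have hp := h0_pos
  have he : 0 < h0 - s := by linarith
  unfold amp
  rcases le_total z 0 with hz | hz
  · rw [D_low (by linarith) (by nlinarith) hs1, mm_low hz]
    field_simp
    ring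
  rcases le_total z 1 with hz1 | hz1
  · rw [D_high (by nlinarith) (by nlinarith) hs0.le, mm_mid hz hz1]
    field_simp
    ring
  · have e : s + (h0 - s) * z = (s + (h0 - s) * z - h0) + h0 := by ring
    rw [e, D_add, D_low (by nlinarith) (by linarith) hs1, mm_high hz1]
    field_simp
    ring

private theorem conv {a b u A B : ℝ} (hu0 : 0 ≤ u) (hu1 : u ≤ 1) (ha : A ≤ a) (hb : A ≤ b)
    (ha' : a ≤ B) (hb' : b ≤ B) : A ≤ a + u * (b - a) ∧ a + u * (b - a) ≤ B := by
  constructor <;> nlinarith

/-- The mean of the density in scaled coordinates. -/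
theorem mn_scaled {κ s a b : ℝ} (hs0 : 0 < s) (hs1 : s < h0) (ha : -s ≤ (h0 - s) * a)
    (ha' : (h0 - s) * a ≤ h0) (hb : -s ≤ (h0 - s) * b) (hb' : (h0 - s) * b ≤ h0) :
    mn (D s κ) (s + (h0 - s) * a) (s + (h0 - s) * b) =
      amp κ s * (1 - a - b + 2 * h0 / s * mn mm a b) := by
  have e : ∀ u ∈ Set.uIcc (0 : ℝ) 1,
      D s κ (s + (h0 - s) * a + u * (s + (h0 - s) * b - (s + (h0 - s) * a))) =
      amp κ s * (1 - 2 * a + (-2 * (b - a)) * u + 2 * h0 / s * mm (a + u * (b - a))) := by
    intro u hu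
    rw [Set.uIcc_of_le zero_le_one] at hu
    obtain ⟨k1, k2⟩ := conv (a := (h0 - s) * a) (b := (h0 - s) * b) hu.1 hu.2 ha hb ha' hb'
    have e1 : s + (h0 - s) * a + u * (s + (h0 - s) * b - (s + (h0 - s) * a)) =
        s + (h0 - s) * (a + u * (b - a)) := by ring
    rw [e1, D_scaled hs0 hs1 (by nlinarith) (by nlinarith)]
    ring
  have i1 : IntervalIntegrable (fun u : ℝ => 1 - 2 * a + (-2 * (b - a)) * u)
      MeasureTheory.volume 0 1 :=
    Continuous.intervalIntegrable (by fun_prop) _ _
  have i2 : IntervalIntegrable (fun u : ℝ => 2 * h0 / s * mm (a + u * (b - a)))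
      MeasureTheory.volume 0 1 := by
    have := mm_continuous
    exact Continuous.intervalIntegrable (by fun_prop) _ _
  unfold mn
  rw [intervalIntegral.integral_congr e, intervalIntegral.integral_const_mul,
    intervalIntegral.integral_add i1 i2, intervalIntegral.integral_const_mul,
    intervalIntegral.integral_add (Continuous.intervalIntegrable (by fun_prop) _ _)
      (Continuous.intervalIntegrable (by fun_prop) _ _),
    intervalIntegral.integral_const, intervalIntegral.integral_const_mul, integral_id]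
  simp only [smul_eq_mul]
  ring

/-! ### The mean of `mm` -/

theorem mn_mm_mid {a b : ℝ} (ha : 0 ≤ a) (ha1 : a ≤ 1) (hb : 0 ≤ b) (hb1 : b ≤ 1) :
    mn mm a b = 0 := by
  unfold mn
  have e : ∀ u ∈ Set.uIcc (0 : ℝ) 1, mm (a + u * (b - a)) = 0 := by
    intro u hu
    rw [Set.uIcc_of_le zero_le_one] at hu
    obtain ⟨k1, k2⟩ := conv hu.1 hu.2 ha hb ha1 hb1
    exact mm_mid k1 k2
  rw [intervalIntegral.integral_congr e]
  simp

theorem mn_mm_low {a b : ℝ} (ha : a ≤ 0) (hb : b ≤ 0) : mn mm a b = (a + b) / 2 := by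
  unfold mn
  have e : ∀ u ∈ Set.uIcc (0 : ℝ) 1, mm (a + u * (b - a)) = a + (b - a) * u := by
    intro u hu
    rw [Set.uIcc_of_le zero_le_one] at hu
    rw [mm_low (by nlinarith [hu.1, hu.2])]
    ring
  rw [intervalIntegral.integral_congr e,
    intervalIntegral.integral_add (Continuous.intervalIntegrable (by fun_prop) _ _)
      (Continuous.intervalIntegrable (by fun_prop) _ _),
    intervalIntegral.integral_const, intervalIntegral.integral_const_mul, integral_id]
  simp only [smul_eq_mul]
  ring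

theorem mn_mm_refl (a b : ℝ) : mn mm (1 - a) (1 - b) = -mn mm a b := by
  unfold mn
  rw [← intervalIntegral.integral_neg]
  refine intervalIntegral.integral_congr fun u _ => ?_
  show mm (1 - a + u * (1 - b - (1 - a))) = -mm (a + u * (b - a))
  rw [← mm_refl]
  congr 1
  ring

theorem mn_mm_high {a b : ℝ} (ha : 1 ≤ a) (hb : 1 ≤ b) : mn mm a b = (a + b) / 2 - 1 := by
  have h := mn_mm_refl (1 - a) (1 - b)
  rw [sub_sub_cancel, sub_sub_cancel, mn_mm_low (a := 1 - a) (b := 1 - b) (by linarith)
    (by linarith)] at h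
  rw [h]
  ring

theorem mn_mm_comm (a b : ℝ) : mn mm a b = mn mm b a := mn_symm mm b a

/-- The mean is monotone. -/
theorem mn_mm_mono {a b a' b' : ℝ} (ha : a ≤ a') (hb : b ≤ b') : mn mm a b ≤ mn mm a' b' := by
  have hc := mm_continuous
  unfold mn
  refine intervalIntegral.integral_mono_on zero_le_one
    (Continuous.intervalIntegrable (by fun_prop) _ _)
    (Continuous.intervalIntegrable (by fun_prop) _ _) fun u hu => ?_
  refine mm_mono ?_
  nlinarith [hu.1, hu.2, mul_nonneg hu.1 (sub_nonneg.2 hb),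
    mul_nonneg (sub_nonneg.2 hu.2) (sub_nonneg.2 ha)]

/-- The mean of the positive part. -/
theorem mn_pos (p q : ℝ) : mn (fun x => max x 0) p q = Line.phi p q := by
  have main : ∀ p q : ℝ, 0 ≤ p → q < 0 → mn (fun x => max x 0) p q = Line.phi p q := by
    intro p q hp hq
    have hd : 0 < p - q := by linarith
    set u0 := p / (p - q) with hu
    have h0 : 0 ≤ u0 := by positivity
    have h1 : u0 ≤ 1 := by
      rw [hu, div_le_one hd]
      linarith
    have hm : u0 * (p - q) = p := by
      rw [hu]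
      field_simp
    rw [phi_pos_neg hp hq.le]
    unfold mn
    have hc : Continuous fun u : ℝ => max (p + u * (q - p)) 0 := by fun_prop
    rw [← intervalIntegral.integral_add_adjacent_intervals (b := u0)
      (hc.intervalIntegrable _ _) (hc.intervalIntegrable _ _)]
    have e1 : ∀ u ∈ Set.uIcc (0 : ℝ) u0, max (p + u * (q - p)) 0 = p + (q - p) * u := by
      intro u hu
      rw [Set.uIcc_of_le h0] at hu
      rw [max_eq_left (by nlinarith [hu.1, hu.2])]
      ring
    have e2 : ∀ u ∈ Set.uIcc u0 (1 : ℝ), max (p + u * (q - p)) 0 = 0 := by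
      intro u hu
      rw [Set.uIcc_of_le h1] at hu
      rw [max_eq_right (by nlinarith [hu.1, hu.2])]
    rw [intervalIntegral.integral_congr e1, intervalIntegral.integral_congr e2,
      intervalIntegral.integral_add (Continuous.intervalIntegrable (by fun_prop) _ _)
        (Continuous.intervalIntegrable (by fun_prop) _ _),
      intervalIntegral.integral_const, intervalIntegral.integral_const_mul, integral_id,
      intervalIntegral.integral_zero]
    simp only [smul_eq_mul]
    have e3 : u0 = p / (p - q) := hu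
    rw [e3]
    field_simp
    ring
  rcases le_or_gt 0 p with hp | hp <;> rcases le_or_gt 0 q with hq | hq
  · rw [phi_nonneg_nonneg hp hq]
    unfold mn
    have e1 : ∀ u ∈ Set.uIcc (0 : ℝ) 1, max (p + u * (q - p)) 0 = p + (q - p) * u := by
      intro u hu
      rw [Set.uIcc_of_le zero_le_one] at hu
      rw [max_eq_left (by nlinarith [hu.1, hu.2])]
      ring
    rw [intervalIntegral.integral_congr e1,
      intervalIntegral.integral_add (Continuous.intervalIntegrable (by fun_prop) _ _)
        (Continuous.intervalIntegrable (by fun_prop) _ _),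
      intervalIntegral.integral_const, intervalIntegral.integral_const_mul, integral_id]
    simp only [smul_eq_mul]
    ring
  · exact main p q hp hq
  · rw [mn_symm, phi_comm]
    exact main q p hq hp
  · rw [phi_nonpos_nonpos hp.le hq.le]
    unfold mn
    have e1 : ∀ u ∈ Set.uIcc (0 : ℝ) 1, max (p + u * (q - p)) 0 = 0 := by
      intro u hu
      rw [Set.uIcc_of_le zero_le_one] at hu
      rw [max_eq_right (by nlinarith [hu.1, hu.2])]
    rw [intervalIntegral.integral_congr e1, intervalIntegral.integral_zero]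

/-- The closed form of the mean. -/
theorem mn_mm_phi (a b : ℝ) : mn mm a b = Line.phi (a - 1) (b - 1) - Line.phi (-a) (-b) := by
  rw [← mn_pos, ← mn_pos]
  unfold mn
  rw [← intervalIntegral.integral_sub (Continuous.intervalIntegrable (by fun_prop) _ _)
    (Continuous.intervalIntegrable (by fun_prop) _ _)]
  refine intervalIntegral.integral_congr fun u _ => ?_
  show mm (a + u * (b - a)) =
    max (a - 1 + u * (b - 1 - (a - 1))) 0 - max (-a + u * (-b - -a)) 0
  unfold mm
  rw [max_comm (a - 1 + u * (b - 1 - (a - 1))) 0, max_comm (-a + u * (-b - -a)) 0]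
  congr 2 <;> ring

/-! ### The flux of a triangle in a window -/

/-- The flux of a triangle with the scaled phases `a`, `b`, `c`, in units of the amplitude. -/
noncomputable def sf (x : ℝ) (r : ℝ × ℝ × ℝ) (a b c : ℝ) : ℝ :=
  r.1 * (1 - a - b + 2 / x * mn mm a b) + r.2.1 * (1 - b - c + 2 / x * mn mm b c) -
    r.2.2 * (1 - a - c + 2 / x * mn mm a c)

/-- The flux is additive. -/
theorem sf_add (x : ℝ) (r1 r2 r3 q1 q2 q3 a b c : ℝ) :
    sf x (r1 + q1, r2 + q2, r3 + q3) a b c = sf x (r1, r2, r3) a b c + sf x (q1, q2, q3) a b c := by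
  unfold sf
  ring

/-- **The gauge**: the kernel `R = X` has the flux of a weighted area. -/
theorem sf_gauge (x X Y a b c : ℝ) : sf x (X, Y, X + Y) a b c =
    X * (c - b) - Y * (b - a) +
      2 / x * (X * mn mm a b + Y * mn mm b c - (X + Y) * mn mm a c) := by
  unfold sf
  ring

/-- The reflection of the phases. -/
theorem sf_refl (x r1 r2 r3 a b c : ℝ) :
    sf x (r1, r2, r3) (1 - a) (1 - b) (1 - c) = -sf x (r1, r2, r3) a b c := by
  unfold sf
  rw [mn_mm_refl, mn_mm_refl, mn_mm_refl]
  ring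

/-- The flux in scaled phases. -/
theorem kf_scaled {κ s : ℝ} (hs0 : 0 < s) (hs1 : s < h0) (r : ℝ × ℝ × ℝ) {t t' y a b c : ℝ}
    {k : ℤ} (hj : jn (t + t') = jn t + jn t') (hb : tau t = (h0 - s) * (b - a))
    (hc : tau t' = (h0 - s) * (c - b)) (hy : y = s + (h0 - s) * a + k * h0)
    (ha : -s ≤ (h0 - s) * a) (ha' : (h0 - s) * a ≤ h0) (hb1 : -s ≤ (h0 - s) * b)
    (hb2 : (h0 - s) * b ≤ h0) (hc1 : -s ≤ (h0 - s) * c) (hc2 : (h0 - s) * c ≤ h0) :
    kf κ s r t t' y = amp κ s * sf (s / h0) r a b c := by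
  have hp := h0_pos
  have hT : tau (t + t') = (h0 - s) * (c - a) := by
    have h1 : tau (t + t') = tau t + tau t' := by
      unfold tau
      rw [hj]
      push_cast
      ring
    rw [h1, hb, hc]
    ring
  have sh : ∀ (m : ℤ) (A B : ℝ), mn (D s κ) (A + m * h0) (B + m * h0) = mn (D s κ) A B :=
    fun m A B => mn_shift (fun z => D_add_int s κ z m) A B
  have e1 : mn (D s κ) y (y + tau t) = mn (D s κ) (s + (h0 - s) * a) (s + (h0 - s) * b) := by
    rw [hb, hy, ← sh k (s + (h0 - s) * a)]
    congr 1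
    ring
  have e2 : mn (D s κ) (y + t) (y + t + tau t') =
      mn (D s κ) (s + (h0 - s) * b) (s + (h0 - s) * c) := by
    have ht : t = tau t + jn t * h0 := by
      unfold tau
      ring
    rw [← sh (k + jn t) (s + (h0 - s) * b)]
    push_cast
    congr 1
    · rw [hy]
      linarith [hb, ht]
    · rw [hc, hy]
      linarith [hb, ht]
  have e3 : mn (D s κ) y (y + tau (t + t')) =
      mn (D s κ) (s + (h0 - s) * a) (s + (h0 - s) * c) := by
    rw [hT, hy, ← sh k (s + (h0 - s) * a)]
    congr 1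
    ring
  have e4 : 2 / (s / h0) = 2 * h0 / s := by
    field_simp
  unfold kf sf
  rw [e1, e2, e3, mn_scaled hs0 hs1 ha ha' hb1 hb2, mn_scaled hs0 hs1 hb1 hb2 hc1 hc2,
    mn_scaled hs0 hs1 ha ha' hc1 hc2, e4]
  ring

/-- Every phase has a representative for which the three scaled phases are in the range. -/
theorem exists_rep {s : ℝ} (hs1 : s < h0) (y : ℝ) {d d' : ℝ} (h1 : |(h0 - s) * d| ≤ s)
    (h2 : |(h0 - s) * d'| ≤ s) (h3 : |(h0 - s) * (d' - d)| ≤ s) :
    ∃ (k : ℤ) (a : ℝ), y = s + (h0 - s) * a + k * h0 ∧ -s ≤ (h0 - s) * a ∧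
      (h0 - s) * a ≤ h0 ∧ -s ≤ (h0 - s) * (a + d) ∧ (h0 - s) * (a + d) ≤ h0 ∧
      -s ≤ (h0 - s) * (a + d') ∧ (h0 - s) * (a + d') ≤ h0 ∧
      ((h0 - s) * a < h0 - s ∨ (h0 - s) * (a + d) < h0 - s ∨ (h0 - s) * (a + d') < h0 - s) := by
  have hp := h0_pos
  have he : 0 < h0 - s := by linarith
  obtain ⟨m, hm⟩ : ∃ m, m = min 0 (min ((h0 - s) * d) ((h0 - s) * d')) := ⟨_, rfl⟩
  obtain ⟨q1, q2⟩ := abs_le.1 h1
  obtain ⟨q3, q4⟩ := abs_le.1 h2
  obtain ⟨q5, q6⟩ := abs_le.1 h3
  have m0 : m ≤ 0 := by rw [hm]; exact min_le_left _ _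
  have m1 : m ≤ (h0 - s) * d := by
    rw [hm]; exact (min_le_right _ _).trans (min_le_left _ _)
  have m2 : m ≤ (h0 - s) * d' := by
    rw [hm]; exact (min_le_right _ _).trans (min_le_right _ _)
  have m3 : m = 0 ∨ m = (h0 - s) * d ∨ m = (h0 - s) * d' := by
    rw [hm]
    rcases min_choice (0 : ℝ) (min ((h0 - s) * d) ((h0 - s) * d')) with h | h
    · exact Or.inl h
    · rw [h]
      rcases min_choice ((h0 - s) * d) ((h0 - s) * d') with h' | h'
      · exact Or.inr (Or.inl h')
      · exact Or.inr (Or.inr h')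
  obtain ⟨k, hk⟩ : ∃ k : ℤ, k = ⌊(y + m) / h0⌋ := ⟨_, rfl⟩
  have k1 : (k : ℝ) * h0 ≤ y + m := by
    have := Int.floor_le ((y + m) / h0)
    rw [← hk, le_div_iff₀ hp] at this
    exact this
  have k2 : y + m < (k : ℝ) * h0 + h0 := by
    have := Int.lt_floor_add_one ((y + m) / h0)
    rw [← hk, div_lt_iff₀ hp] at this
    linarith
  obtain ⟨a, ha⟩ : ∃ a, a = (y - k * h0 - s) / (h0 - s) := ⟨_, rfl⟩
  have ea : (h0 - s) * a = y - k * h0 - s := by
    rw [ha]
    field_simp
  have e1 : (h0 - s) * (a + d) = (h0 - s) * a + (h0 - s) * d := by ring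
  have e2 : (h0 - s) * (a + d') = (h0 - s) * a + (h0 - s) * d' := by ring
  have e3 : (h0 - s) * (d' - d) = (h0 - s) * d' - (h0 - s) * d := by ring
  rw [e3] at q5 q6
  refine ⟨k, a, by linarith, by linarith, ?_, by linarith, ?_, by linarith, ?_, ?_⟩
  · rcases m3 with h | h | h <;> linarith
  · rcases m3 with h | h | h <;> linarith
  · rcases m3 with h | h | h <;> linarith
  · rcases m3 with h | h | h
    · exact Or.inl (by linarith)
    · exact Or.inr (Or.inl (by linarith))
    · exact Or.inr (Or.inr (by linarith))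

/-- The excess in scaled heights. -/
theorem exn_scaled {s X Y t t' n n' b c : ℝ} (ht : t = n * h0 + (h0 - s) * b)
    (ht' : t' = n' * h0 + (h0 - s) * c) :
    exn X (X + Y) t t' = (X * n' - Y * n - 1) / 2 + (h0 - s) / (2 * h0) * (X * c - Y * b) := by
  have hp := h0_pos
  unfold exn
  rw [ht, ht']
  field_simp
  ring

end Pool.Agent.Strip051.LC.E1
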