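import Pool.Agent.Strip051.LC.E1.Geo
import Pool.Agent.Strip051.PB.Base

/-! # Rests near the full period: triangles with the side bottom-middle on the unit circle -/

namespace Pool.Agent.Strip051.LC.E1

open Pool.Agent.StripNear Pool.Agent.StripSquare Pool.Agent.Strip051 Pool.Agent.Strip051.Sweep
open Pool.Agent.Strip051.PB
open Pool.Agent.Strip051.LC
open Pool.Agent.Strip051.LC.Line (jn tau mn)
open Pool.Agent.Strip051.LC.E0.G (om qw cc1 xi1 sg1 cc3 xi3 sg3 xiw dwl dwu)
open G

/-! ### The lattice heights -/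

/-- The height of the third side. -/
theorem hts_add (y z : ℝ) : y + (1 + z) = 1 + (y + z) := by ring

section

variable {n : ℕ} {V : Vx} {T : Tbs n} {κ x X12 X13 : ℝ}

/-- The statement at the lattice heights. -/
theorem okv_lat (hK : kv T.D (T.R V) x X12 0 + kv T.D (T.R V) x (X13 - X12) 1 =
      kv T.D (T.R V) x X13 1) (h12 : kv T.D T.RL x X12 0 = 0)
    (h23 : kv T.D T.RL x (X13 - X12) 1 = 0) (h13 : kv T.D T.RL x X13 1 = 0) (hx : 0 ≤ x)
    (hX : 1 ≤ X12) : OKV V T κ x X12 X13 0 1 := by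
  have hp := h0_pos
  rw [okv_iff]
  intro w
  have t0 : tau (h0 * 0) = 0 := by
    have := tau_q (q := 0) (y := 0) ⟨le_rfl, by norm_num⟩
    rw [this]
    show h0 * (0 - ((0 : ℕ) : ℝ)) = 0
    simp
  have t1 : tau (h0 * 1) = 0 := by
    have := tau_q (q := 2) (y := 1) ⟨le_rfl, by norm_num⟩
    rw [this]
    show h0 * (1 - ((1 : ℕ) : ℝ)) = 0
    simp
  have e3 : h0 * 0 + h0 * 1 = h0 * 1 := by ring
  have hk : kf κ (h0 * x) (kv3 T.D (T.R V) x X12 X13 0 1) (h0 * 0) (h0 * 1) w = 0 := by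
    unfold kf kv3
    simp only
    rw [e3, t0, t1, mul_zero, add_zero, add_zero, zero_add, ← hK]
    ring
  have hl : lvV V x 0 1 (exn' X12 X13 0 (0 + 1)) (kv3 T.D T.RL x X12 X13 0 1) =
      (X12 - 1) / 2 := by
    unfold kv3
    rw [h12, h23, zero_add, h13]
    cases V
    · show PB.lvF _ _ = _
      rw [lvF_eq]
      unfold exn'
      simp
      ring
    · show PB.lvN 3 0 _ _ _ _ _ = _
      rw [lvN_eq (by linarith)]
      unfold exn'
      simp
      ring
  rw [hk, hl]
  linarith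

end

section

variable {V : Vx} {T : Tbs 7} {κ e y z X : ℝ}

theorem aL_z {e : ℝ} (h : 0 ≤ e) : aL e 1 e 0 = 0 := by
  unfold aL
  repeat rw [hg_z3 (by norm_num) h]
  repeat rw [hg_z2 (by norm_num) (by norm_num)]
  ring

theorem bL_z {e : ℝ} (h : 0 ≤ e) : bL e 1 e 0 = 0 := by
  unfold bL
  repeat rw [hg_z3 (by norm_num) h]
  repeat rw [hg_z2 (by norm_num) (by norm_num)]
  ring

theorem hg_z4 {h d : ℝ} (hd : 0 ≤ d) : hg (h * 0 - 1 / d) = 0 := by
  refine hg_neg ?_
  rw [mul_zero, zero_sub]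
  exact neg_nonpos.2 (div_nonneg zero_le_one hd)

theorem hg_z5 {e : ℝ} (he : 0 ≤ e) : hg (0 - e) = 0 := by
  refine hg_neg ?_
  linarith

theorem hg_z6 {h c d f e : ℝ} (hh : 0 ≤ h) (hc : 0 ≤ c) (he : 0 ≤ e) (hd : 0 ≤ d) (hf : 0 ≤ f) :
    hg (h * (0 - c * e) - d / (f * 1)) = 0 := by
  refine hg_neg ?_
  have h1 := mul_nonneg hh (mul_nonneg hc he)
  have h2 : 0 ≤ d / (f * 1) := by positivity
  linarith

theorem kU_z {e : ℝ} (h : 0 ≤ e) : kU 1 e 0 = 0 := by
  unfold kU uR
  rw [hg_z5 h]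
  repeat rw [hg_z3 (by norm_num) h]
  repeat rw [hg_z6 (by positivity) (by norm_num) h (by norm_num) (by norm_num)]
  repeat rw [hg_z4 (by norm_num)]
  ring

theorem bU_z {e : ℝ} (h : 0 ≤ e) : bU 1 e 0 = 0 := by
  unfold bU uR
  rw [hg_z5 h]
  repeat rw [hg_z3 (by norm_num) h]
  repeat rw [hg_z6 (by positivity) (by norm_num) h (by norm_num) (by norm_num)]
  repeat rw [hg_z4 (by norm_num)]
  ring

theorem sg1_z : sg1 0 1 = 0 := by
  unfold sg1
  rw [xi1_zero]
  norm_num

theorem xi3_zero : xi3 0 1 = 0 := by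
  unfold xi3
  simp

theorem sg3_z : sg3 0 1 = 0 := by
  unfold sg3
  rw [xi3_zero]
  norm_num

theorem S1_z {e : ℝ} (h : 0 ≤ e) : S1 1 e 0 = ⟨0, 0, 0, 0⟩ := by
  unfold S1
  rw [mul_one, kU_z h, bU_z h, aL_z h, mul_zero]

theorem C1u_z {e : ℝ} (h : 0 ≤ e) : C1u 1 e 0 = ⟨0, 0, 0, 0⟩ := by
  unfold C1u g1
  rw [mul_one, sg1_z, kU_z h, bU_z h, aL_z h, bL_z h]
  simp

theorem C3u_z {e : ℝ} (h : 0 ≤ e) : C3u 1 e 0 = ⟨0, 0, 0, 0⟩ := by
  unfold C3u g3
  rw [mul_one, sg3_z, kU_z h, bU_z h, aL_z h, bL_z h]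
  simp

/-- The kernel at the lattice points. -/
noncomputable def kl (V : Vx) (e p : ℝ) : ℝ :=
  match V with
  | .far => p
  | .near => be e * p

theorem Nod.lat0 (h : Nod V T e) :
    kv T.D (T.R V) (1 - e) 1 0 = kl V e 1 ∧ kv T.D T.RL (1 - e) 1 0 = 0 := by
  have hv := h.n00 0 le_rfl (by norm_num)
  rw [S1_z h.e0.le] at hv
  have hx := h.x00 (y := 0) le_rfl (by norm_num)
  have ho : om 0 1 = 0 := by
    unfold om
    simp
  rw [ho, neg_zero, add_zero] at hx
  have hK := kv_cv h.pK 0 (inq0 (y := 0) le_rfl (by norm_num))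
  have hL := kv_cv h.pL 0 (inq0 (y := 0) le_rfl (by norm_num))
  rw [hx] at hK hL
  refine ⟨?_, ?_⟩
  · rw [hK, hv.K]
    cases V
    · show (1 : ℝ) + 0 = 1
      ring
    · show be e * 1 + nk e 0 0 = be e * 1
      unfold nk
      ring
  · rw [hL, hv.L, hx]
    show LAM e * (1 - 1) + (0 / 1 + 0) = 0
    ring

theorem Nod.lat1 (h : Nod V T e) :
    kv T.D (T.R V) (1 - e) (1 / 2) 1 = kl V e (1 / 2) ∧ kv T.D T.RL (1 - e) (1 / 2) 1 = 0 := by
  have hv := h.n02 0 le_rfl (by norm_num)
  rw [C1u_z h.e0.le] at hv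
  have hx := h.x01 2 (z := 0) (by norm_num) (by norm_num)
  rw [xi1_zero, add_zero, add_zero] at hx
  have hK := kv_cv h.pK 0 (inq2 (z := 0) le_rfl (by norm_num))
  have hL := kv_cv h.pL 0 (inq2 (z := 0) le_rfl (by norm_num))
  rw [add_zero] at hK hL hv
  rw [hx] at hK hL
  refine ⟨?_, ?_⟩
  · rw [hK, hv.K]
    cases V
    · show (1 : ℝ) / 2 + 0 = 1 / 2
      ring
    · show be e * (1 / 2) + nk e 0 0 = be e * (1 / 2)
      unfold nk
      ring
  · rw [hL, hv.L, hx]
    show LAM e * (1 / 2 - 1 / 2) + (0 / 1 + 0) = 0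
    ring

theorem Nod.lat3 (h : Nod V T e) :
    kv T.D (T.R V) (1 - e) (3 / 2) 1 = kl V e (3 / 2) ∧ kv T.D T.RL (1 - e) (3 / 2) 1 = 0 := by
  have hv := h.n72 0 le_rfl (by norm_num)
  rw [C3u_z h.e0.le] at hv
  have hx := h.x71 2 (z := 0) (by norm_num) (by norm_num)
  rw [xi3_zero, add_zero, add_zero] at hx
  have hK := kv_cv h.pK 7 (inq2 (z := 0) le_rfl (by norm_num))
  have hL := kv_cv h.pL 7 (inq2 (z := 0) le_rfl (by norm_num))
  rw [add_zero] at hK hL hv
  rw [hx] at hK hL
  refine ⟨?_, ?_⟩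
  · rw [hK, hv.K]
    cases V
    · show (3 : ℝ) / 2 + 0 = 3 / 2
      ring
    · show be e * (3 / 2) + nk e 0 0 = be e * (3 / 2)
      unfold nk
      ring
  · rw [hL, hv.L, hx]
    show LAM e * (3 / 2 - 3 / 2) + (0 / 1 + 0) = 0
    ring

theorem kl_add (V : Vx) (e a b : ℝ) : kl V e a + kl V e b = kl V e (a + b) := by
  cases V
  · rfl
  · show be e * a + be e * b = be e * (a + b)
    ring

theorem kl_neg (V : Vx) (e a : ℝ) : -kl V e a = kl V e (-a) := by
  cases V
  · rfl
  · show -(be e * a) = be e * -a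
    ring

theorem Nod.x1 (h : Nod V T e) : 0 ≤ 1 - e := by linarith [h.e1]

/-- The lattice triangle `(1, 0)`, `(1 / 2, 1)`. -/
theorem Nod.ok1 (h : Nod V T e) : OKV V T κ (1 - e) 1 (1 / 2) 0 1 := by
  have e1 : (1 / 2 - 1 : ℝ) = -(1 / 2) := by norm_num
  refine okv_lat ?_ h.lat0.2 ?_ h.lat1.2 h.x1 le_rfl
  · rw [e1, kv_neg, h.lat0.1, h.lat1.1, kl_neg, kl_add]
    congr 1
    norm_num
  · rw [e1, kv_neg, h.lat1.2, neg_zero]

/-- The lattice triangle `(1, 0)`, `(-1 / 2, 1)`. -/
theorem Nod.ok2 (h : Nod V T e) : OKV V T κ (1 - e) 1 (-(1 / 2)) 0 1 := by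
  have e1 : (-(1 / 2) - 1 : ℝ) = -(3 / 2) := by norm_num
  refine okv_lat ?_ h.lat0.2 ?_ ?_ h.x1 le_rfl
  · rw [e1, kv_neg, kv_neg, h.lat0.1, h.lat1.1, h.lat3.1, kl_neg, kl_neg, kl_add]
    congr 1
    norm_num
  · rw [e1, kv_neg, h.lat3.2, neg_zero]
  · rw [kv_neg, h.lat1.2, neg_zero]

/-- The lattice triangle `(1, 0)`, `(3 / 2, 1)`. -/
theorem Nod.ok3 (h : Nod V T e) : OKV V T κ (1 - e) 1 (3 / 2) 0 1 := by
  have e1 : (3 / 2 - 1 : ℝ) = 1 / 2 := by norm_num
  refine okv_lat ?_ h.lat0.2 ?_ h.lat3.2 h.x1 le_rfl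
  · rw [e1, h.lat0.1, h.lat1.1, h.lat3.1, kl_add]
    congr 1
    norm_num
  · rw [e1, h.lat1.2]

/-- **The first triangle**, the side bottom-middle on the unit circle. -/
theorem line1 (N : Nod V T e) (R : Rows V) (hκ : κ * h0 = kenE (1 - e)) (H : HT y z)
    (x0 : c1n (1 + (y + z)) ≤ X) (x1 : c1n (1 + z) ≤ c1n y - X) :
    OKV V T κ (1 - e) (c1n y) X y (1 + z) := by
  have hy := H.y0
  have hy1 := H.y1
  have hz := H.z0
  have hz1 := H.z1
  have hu := H.u1
  have hle : y + (1 + z) ≤ 3 + (1 - e) := by linarith [N.e1]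
  have c1y := c1n_le1 y
  rcases lt_or_ge z 0 with z0 | z0
  · have b1 := c1d_lo hz.le z0.le
    rcases lt_or_ge (y + z) 0 with u0 | u0
    · have b2 := c1d_lo (z := y + z) (by linarith) u0.le
      linarith
    · have l0 : 0 < y := by linarith
      have b2 := c1u_lo u0 hu.le
      have b3 := xa_lo hz.le z0.le
      have b4 : c1n y ≤ c1n (y + z) := c1n_an (by nlinarith)
      have b5 : c1n y - c1n (1 + z) ≤ swn (1 + (y + z)) - 1 / 2 := by
        rw [swn_c1n]
        linarith
      refine okv_line hle x0 (q := c1n y - c1n (1 + z)) (by linarith)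
        (by rw [hts_add]; exact (N.afPw u0 hu).sub le_rfl b5)
        ((N.afPa hz z0).neg.sub (by linarith) (by linarith))
        (r_t1b_c1_d N R hκ H z0 u0 rfl (by linarith) (by linarith) l0)
        (r_t1a_c1_d N R hκ H z0 u0 (by ring) (by linarith) b5 l0)
  · have u0 : 0 ≤ y + z := by linarith
    rcases eq_or_lt_of_le u0 with l0 | l0
    · have y0 : y = 0 := by linarith
      have z0' : z = 0 := by linarith
      subst y0 z0'
      have e1 : (1 : ℝ) + (0 + 0) = 1 := by norm_num
      have e2 : (1 : ℝ) + 0 = 1 := by norm_num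
      rw [e1, c1n_one] at x0
      rw [e2, c1n_one, c1n_zero] at x1
      have : X = 1 / 2 := by linarith
      rw [e2, c1n_zero, this]
      exact N.ok1
    have b1 := c1u_lo z0 hz1.le
    have b2 := c1u_lo u0 hu.le
    have b3 := xb_lo z0 hz1.le
    have b4 := xb_lo u0 hu.le
    have b5 := c1_W z0 hz1.le
    have b6 := c1_W u0 hu.le
    have b7 := W_b z0 hz1.le
    have b8 := W_b u0 hu.le
    have b9 : swn (1 + (y + z)) - 1 / 2 ≤ c1n y - (swn (1 + z) - 1 / 2) := by
      have a1 : c1n (y + z) ≤ c1n y := c1n_an (by nlinarith)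
      have a2 := c1n_le1 z
      rw [swn_c1n, swn_c1n]
      linarith
    rcases le_total X (swn (1 + (y + z)) - 1 / 2) with h1 | h1
    · refine okv_line hle x0 h1
        (by rw [hts_add]; exact (N.afPw u0 hu))
        ((N.afPb z0 hz1).neg.sub (by linarith) (by linarith))
        (r_t1b_c1_u N R hκ H z0 rfl (by linarith) (by linarith) l0)
        (r_t1b_W N R hκ H z0 rfl (by linarith) (by linarith) l0)
    rcases le_total X (c1n y - (swn (1 + z) - 1 / 2)) with h2 | h2
    · refine okv_line hle h1 h2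
        (by rw [hts_add]; exact (N.afPb u0 hu).sub le_rfl (by linarith))
        ((N.afPb z0 hz1).neg.sub (by linarith) (by linarith))
        (r_t1b_W N R hκ H z0 rfl (by linarith) (by linarith) l0)
        (r_t1a_W N R hκ H z0 (by ring) (by linarith) (by linarith) l0)
    · refine okv_line hle h2 (q := c1n y - c1n (1 + z)) (by linarith)
        (by rw [hts_add]; exact (N.afPb u0 hu).sub (by linarith) (by linarith))
        ((N.afPw z0 hz1).neg.sub (by linarith) (by linarith))
        (r_t1a_W N R hκ H z0 (by ring) (by linarith) (by linarith) l0)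
        (r_t1a_c1_u N R hκ H z0 (by ring) (by linarith) (by linarith) l0)

/-- **The second triangle**, the side bottom-middle on the unit circle. -/
theorem line2 (N : Nod V T e) (R : Rows V) (hκ : κ * h0 = kenE (1 - e)) (H : HT y z)
    (x0 : c1n (1 + (y + z)) ≤ X) (x1 : X + c1n y ≤ c3n (1 + z)) :
    OKV V T κ (1 - e) (c1n y) (-X) y (1 + z) := by
  have hy := H.y0
  have hy1 := H.y1
  have hz := H.z0
  have hz1 := H.z1
  have hu := H.u1
  have hle : y + (1 + z) ≤ 3 + (1 - e) := by linarith [N.e1]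
  have c1y := c1n_le1 y
  have cyl := c1n_lw (y := y) (by nlinarith)
  have cy2 : 99 / 100 ≤ c1n y := by nlinarith
  have c3z := c3_le hz.le hz1.le
  have cu := c1_lo (z := y + z) (by linarith) hu.le
  rcases lt_or_ge z 0 with z0 | z0
  · rcases lt_or_ge (y + z) 0 with u0 | u0
    · have b1 := c1d_lo (z := y + z) (by linarith) u0.le
      have b2 := xa_lo (z := y + z) (by linarith) u0.le
      have b3 : c1n z ≤ c1n y := c1n_an (by nlinarith)
      have b4 : swn (1 + z) + 1 / 2 ≤ c1n y + c1n (1 + (y + z)) := by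
        rw [swn_c1n]
        linarith
      have l1 : -(c3n (1 + z) - c1n y) ≤ -X := by linarith
      have l2 : -X ≤ -c1n (1 + (y + z)) := by linarith
      refine okv_line hle l1 l2
        (by rw [hts_add]; exact (N.afPa (by linarith) u0).neg.sub (by linarith) (by linarith))
        ((N.afP3 hz z0).neg.sub (by linarith) (by linarith))
        (r_t2a_c3_dd N R hκ H z0 u0 (by ring) (by linarith) (by linarith))
        (r_t2b_c1_dd N R hκ H z0 u0 rfl (by linarith) (by linarith))
    · have l0 : 0 < y := by linarith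
      have b1 := xb_lo u0 hu.le
      have b2 := xc_hi hz.le z0.le
      have b3 := c1_W u0 hu.le
      have b4 := W_b u0 hu.le
      have b5 : c1n y ≤ c1n z := c1n_an (by nlinarith)
      have b6 := c1n_le1 (y + z)
      have b8 : swn (1 + z) ≤ 1 := by
        rw [swn_c1n]
        exact c1n_le1 z
      have b7 : swn (1 + (y + z)) - 1 / 2 ≤ swn (1 + z) + 1 / 2 - c1n y := by
        rw [swn_c1n, swn_c1n]
        linarith
      rcases le_total X (swn (1 + (y + z)) - 1 / 2) with h1 | h1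
      · have l1 : -(swn (1 + (y + z)) - 1 / 2) ≤ -X := by linarith
        have l2 : -X ≤ -c1n (1 + (y + z)) := by linarith
        refine okv_line hle l1 l2
          (by rw [hts_add]; exact (N.afPw u0 hu).neg)
          ((N.afPc hz z0).neg.sub (by linarith) (by linarith))
          (r_t2b_W_d N R hκ H z0 u0 rfl (by linarith) (by linarith) l0)
          (r_t2b_c1_du N R hκ H z0 u0 rfl (by linarith) (by linarith) l0)
      rcases le_total X (swn (1 + z) + 1 / 2 - c1n y) with h2 | h2
      · have l1 : -(swn (1 + z) + 1 / 2 - c1n y) ≤ -X := by linarith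
        have l2 : -X ≤ -(swn (1 + (y + z)) - 1 / 2) := by linarith
        refine okv_line hle l1 l2
          (by rw [hts_add]; exact (N.afPb u0 hu).neg.sub (by linarith) (by linarith))
          ((N.afPc hz z0).neg.sub (by linarith) (by linarith))
          (r_t2a_W N R hκ H z0 u0 (by ring) (by linarith) (by linarith) l0)
          (r_t2b_W_d N R hκ H z0 u0 rfl (by linarith) (by linarith) l0)
      · have l1 : -(c3n (1 + z) - c1n y) ≤ -X := by linarith
        have l2 : -X ≤ -(swn (1 + z) + 1 / 2 - c1n y) := by linarith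
        refine okv_line hle l1 l2
          (by rw [hts_add]; exact (N.afPb u0 hu).neg.sub (by linarith) (by linarith))
          ((N.afP3 hz z0).neg.sub (by linarith) (by linarith))
          (r_t2a_c3_du N R hκ H z0 u0 (by ring) (by linarith) (by linarith) l0)
          (r_t2a_W N R hκ H z0 u0 (by ring) (by linarith) (by linarith) l0)
  · have u0 : 0 ≤ y + z := by linarith
    rcases eq_or_lt_of_le u0 with l0 | l0
    · have y0 : y = 0 := by linarith
      have z0' : z = 0 := by linarith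
      subst y0 z0'
      have e1 : (1 : ℝ) + (0 + 0) = 1 := by norm_num
      have e2 : (1 : ℝ) + 0 = 1 := by norm_num
      rw [e1, c1n_one] at x0
      rw [e2, c3n_one, c1n_zero] at x1
      have : X = 1 / 2 := by linarith
      rw [e2, c1n_zero, this]
      exact N.ok2
    have b1 := xb_lo u0 hu.le
    have b2 := xd_hi z0 hz1.le
    have b3 := c1_W u0 hu.le
    have b4 := W_b u0 hu.le
    rcases le_total X (swn (1 + (y + z)) - 1 / 2) with h1 | h1
    · have l2 : -X ≤ -c1n (1 + (y + z)) := by linarith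
      rcases le_total (swn (1 + (y + z)) - 1 / 2) (c3n (1 + z) - c1n y) with h2 | h2
      · have l1 : -(swn (1 + (y + z)) - 1 / 2) ≤ -X := by linarith
        refine okv_line hle l1 l2
          (by rw [hts_add]; exact (N.afPw u0 hu).neg)
          ((N.afPd z0 hz1).neg.sub (by linarith) (by linarith))
          (r_t2b_W_u N R hκ H z0 rfl (by linarith) (by linarith) l0)
          (r_t2b_c1_u N R hκ H z0 rfl (by linarith) (by linarith) l0)
      · have l1 : -(c3n (1 + z) - c1n y) ≤ -X := by linarith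
        refine okv_line hle l1 l2
          (by rw [hts_add]; exact (N.afPw u0 hu).neg.sub (by linarith) le_rfl)
          ((N.afPd z0 hz1).neg.sub (by linarith) (by linarith))
          (r_t2a_c3_u1 N R hκ H z0 (by ring) (by linarith) (by linarith) l0)
          (r_t2b_c1_u N R hκ H z0 rfl (by linarith) (by linarith) l0)
    · have l1 : -(c3n (1 + z) - c1n y) ≤ -X := by linarith
      have l2 : -X ≤ -(swn (1 + (y + z)) - 1 / 2) := by linarith
      refine okv_line hle l1 l2
        (by rw [hts_add]; exact (N.afPb u0 hu).neg.sub (by linarith) (by linarith))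
        ((N.afPd z0 hz1).neg.sub (by linarith) (by linarith))
        (r_t2a_c3_u2 N R hκ H z0 (by ring) (by linarith) (by linarith) l0)
        (r_t2b_W_u N R hκ H z0 rfl (by linarith) (by linarith) l0)

/-- Below `h0` the third triangle is impossible. -/
theorem no3 (H : HT y z) (z0 : z < 0) : c3n (1 + (y + z)) < c1n y + c1n (1 + z) := by
  have hy := H.y0
  have hy1 := H.y1
  have hz := H.z0
  have hu := H.u1
  have a1 := c1n_lw (y := y) (by nlinarith)
  have a2 := c1d_lo hz.le z0.le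
  have a3 := c3_le (z := y + z) (by linarith) hu.le
  nlinarith

/-- **The third triangle**, the side bottom-middle on the unit circle. -/
theorem line3 (N : Nod V T e) (R : Rows V) (hκ : κ * h0 = kenE (1 - e)) (H : HT y z)
    (x0 : c1n (1 + z) ≤ X - c1n y) (x1 : X ≤ c3n (1 + (y + z))) :
    OKV V T κ (1 - e) (c1n y) X y (1 + z) := by
  have hy := H.y0
  have hy1 := H.y1
  have hz := H.z0
  have hz1 := H.z1
  have hu := H.u1
  have hle : y + (1 + z) ≤ 3 + (1 - e) := by linarith [N.e1]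
  rcases lt_or_ge z 0 with z0 | z0
  · have := no3 H z0
    linarith
  have u0 : 0 ≤ y + z := by linarith
  rcases eq_or_lt_of_le u0 with l0 | l0
  · have y0 : y = 0 := by linarith
    have z0' : z = 0 := by linarith
    subst y0 z0'
    have e1 : (1 : ℝ) + (0 + 0) = 1 := by norm_num
    have e2 : (1 : ℝ) + 0 = 1 := by norm_num
    rw [e2, c1n_one, c1n_zero] at x0
    rw [e1, c3n_one] at x1
    have : X = 3 / 2 := by linarith
    rw [e2, c1n_zero, this]
    exact N.ok3
  have c1y := c1n_le1 y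
  have cyl := c1n_lw (y := y) (by nlinarith)
  have czl := c1n_lw (y := z) (by nlinarith)
  have b1 := c1u_lo z0 hz1.le
  have b2 := xd_hi u0 hu.le
  have b3 := c3u_le u0 hu.le
  have b4 : c3n (1 + (y + z)) - c1n y ≤ swn (1 + z) - 1 / 2 := by
    rw [swn_c1n]
    nlinarith
  have b5 : 99 / 100 ≤ c1n y := by nlinarith
  refine okv_line hle (p := c1n y + c1n (1 + z)) (by linarith) x1
    (by rw [hts_add]; exact (N.afPd u0 hu).sub (by linarith) le_rfl)
    ((N.afPw z0 hz1).sub (by linarith) (by linarith))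
    (r_t3a_c1 N R hκ H z0 (by ring) (by linarith) (by linarith) l0)
    (r_t3b_c3 N R hκ H z0 rfl (by linarith) (by linarith) l0)

/-- **The first triangle**, both slanted sides on the unit circle. -/
theorem lineU (N : Nod V T e) (R : Rows V) (hκ : κ * h0 = kenE (1 - e)) (H : HT y z)
    (hX : X = c1n (1 + (y + z)) + c1n (1 + z)) (x0 : c1n y ≤ X)
    (x1 : X ≤ 1 + (xi1 (-y) 1 + 3 / 20 * dQ 1 y)) :
    OKV V T κ (1 - e) X (c1n (1 + (y + z))) y (1 + z) := by
  have hy := H.y0
  have hy1 := H.y1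
  have hz := H.z0
  have hz1 := H.z1
  have hu := H.u1
  rcases lt_or_ge z 0 with z0 | z0
  · have hs : swn y = c1n (1 + -y) := by
      rw [swn_cc1, c1n_cc1]
    rcases lt_or_ge (y + z) 0 with u0 | u0
    · have b1 := c1d_lo (z := y + z) (by linarith) u0.le
      have b2 : c1n (1 + -y) ≤ c1n (1 + z) := c1n_an (by nlinarith)
      rcases le_total X (1 + xiq 1 e y) with h1 | h1
      · exact r_uu_2 N R hκ H z0 u0 hX (by linarith) h1
      · exact r_uu_3 N R hκ H z0 u0 hX h1 x1
    · have b1 := c1u_le u0 hu.le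
      have b2 : c1n (1 + z) ≤ c1n (1 + -y) := c1n_an (by nlinarith)
      exact r_uu_1 N R hκ H z0 u0 hX x0 (by linarith) (by linarith)
  · have u0 : 0 ≤ y + z := by linarith
    have b1 := c1u_le z0 hz1.le
    have b2 := c1u_le u0 hu.le
    have b3 := c1n_lw (y := y) (by nlinarith)
    have y0 : y = 0 := by nlinarith
    have z0' : z = 0 := by nlinarith
    subst y0 z0'
    have e1 : (1 : ℝ) + (0 + 0) = 1 := by norm_num
    have e2 : (1 : ℝ) + 0 = 1 := by norm_num
    rw [e1, e2, c1n_one] at hX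
    have : X = 1 := by linarith
    rw [e1, e2, c1n_one, this]
    exact N.ok1

end

end Pool.Agent.Strip051.LC.E1
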