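import Pool.Agent.Strip051.LC.E1.LineT

/-! # Rests near the full period: triangles next to a side `(1, 0)`

All triangles near the lattice triangles are reduced to the ones with the side bottom-middle on the unit
circle: the slopes of the kernels and of the levels are small (`Slo`). -/

namespace Pool.Agent.Strip051.LC.E1

open Pool.Agent.StripNear Pool.Agent.StripSquare Pool.Agent.Strip051 Pool.Agent.Strip051.Sweep
open Pool.Agent.Strip051.PB
open Pool.Agent.Strip051.LC
open Pool.Agent.Strip051.LC.E0.G (om qw cc1 xi1 sg1 cc3 xi3 sg3 xiw dwl dwu)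
open G

/-- The slopes of the kernel and of the levels on a segment: the modulus of the first one is at most
`k`, the second one is between `lo` and `hi`. -/
structure Lp {n : ℕ} (V : Vx) (T : Tbs n) (e y a b k lo hi : ℝ) : Prop where
  K : ∀ X X', a ≤ X → X ≤ X' → X' ≤ b →
    |kv T.D (T.R V) (1 - e) X' y - kv T.D (T.R V) (1 - e) X y| ≤ k * (X' - X)
  L0 : ∀ X X', a ≤ X → X ≤ X' → X' ≤ b →
    lo * (X' - X) ≤ kv T.D T.RL (1 - e) X' y - kv T.D T.RL (1 - e) X y
  L1 : ∀ X X', a ≤ X → X ≤ X' → X' ≤ b →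
    kv T.D T.RL (1 - e) X' y - kv T.D T.RL (1 - e) X y ≤ hi * (X' - X)

section

variable {n : ℕ} {V : Vx} {T : Tbs n} {e y a b c k lo hi : ℝ}

theorem Lp.mono {k' lo' hi' : ℝ} (h : Lp V T e y a b k lo hi) (hk : k ≤ k') (hl : lo' ≤ lo)
    (hh : hi ≤ hi') : Lp V T e y a b k' lo' hi' := by
  refine ⟨fun X X' h1 h2 h3 => ?_, fun X X' h1 h2 h3 => ?_, fun X X' h1 h2 h3 => ?_⟩
  · have := h.K X X' h1 h2 h3
    nlinarith
  · have := h.L0 X X' h1 h2 h3
    nlinarith
  · have := h.L1 X X' h1 h2 h3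
    nlinarith

theorem Lp.glue (h1 : Lp V T e y a b k lo hi) (h2 : Lp V T e y b c k lo hi) (hab : a ≤ b)
    (hbc : b ≤ c) : Lp V T e y a c k lo hi := by
  have key : ∀ X X', a ≤ X → X ≤ X' → X' ≤ c → X' ≤ b ∨ b ≤ X ∨ (X ≤ b ∧ b ≤ X') := by
    intro X X' _ _ _
    rcases le_total X' b with h | h
    · exact Or.inl h
    rcases le_total b X with h' | h'
    · exact Or.inr (Or.inl h')
    · exact Or.inr (Or.inr ⟨h', h⟩)
  refine ⟨fun X X' a1 a2 a3 => ?_, fun X X' a1 a2 a3 => ?_, fun X X' a1 a2 a3 => ?_⟩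
  · rcases key X X' a1 a2 a3 with h | h | ⟨h, h'⟩
    · exact h1.K X X' a1 a2 h
    · exact h2.K X X' h a2 a3
    · have e1 := h1.K X b a1 h le_rfl
      have e2 := h2.K b X' le_rfl h' a3
      have e3 := abs_add_le (kv T.D (T.R V) (1 - e) X' y - kv T.D (T.R V) (1 - e) b y)
        (kv T.D (T.R V) (1 - e) b y - kv T.D (T.R V) (1 - e) X y)
      rw [sub_add_sub_cancel] at e3
      linarith
  · rcases key X X' a1 a2 a3 with h | h | ⟨h, h'⟩
    · exact h1.L0 X X' a1 a2 h
    · exact h2.L0 X X' h a2 a3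
    · have e1 := h1.L0 X b a1 h le_rfl
      have e2 := h2.L0 b X' le_rfl h' a3
      linarith
  · rcases key X X' a1 a2 a3 with h | h | ⟨h, h'⟩
    · exact h1.L1 X X' a1 a2 h
    · exact h2.L1 X X' h a2 a3
    · have e1 := h1.L1 X b a1 h le_rfl
      have e2 := h2.L1 b X' le_rfl h' a3
      linarith

theorem Lp.sub {a' b' : ℝ} (h : Lp V T e y a b k lo hi) (h1 : a ≤ a') (h2 : b' ≤ b) :
    Lp V T e y a' b' k lo hi :=
  ⟨fun X X' a1 a2 a3 => h.K X X' (h1.trans a1) a2 (a3.trans h2),
    fun X X' a1 a2 a3 => h.L0 X X' (h1.trans a1) a2 (a3.trans h2),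
    fun X X' a1 a2 a3 => h.L1 X X' (h1.trans a1) a2 (a3.trans h2)⟩

/-- The conditions on the slopes of two sides, for moves. -/
structure Cnd (V : Vx) (e k1 lo1 hi1 k2 lo2 hi2 σ : ℝ) : Prop where
  s1 : hi1 - lo2 ≤ σ
  s2 : hi2 - lo1 ≤ σ
  l1 : 0 ≤ lo1
  l2 : 0 ≤ lo2
  c : match V with
    | .far => e * eh e * (k1 + k2) + σ / 2 ≤ 15 / 32
    | .near => e * eh e * (k1 + k2) + G.mu e * (49 / 32) * σ ≤ 15 / 32 + G.mu e * (15 / 32) * lo1

variable {κ X12 X13 y' d k1 lo1 hi1 k2 lo2 hi2 σ : ℝ}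

theorem mu_nn (h0 : 0 ≤ e) : 0 ≤ G.mu e := by
  have : 0 ≤ gs e := Real.sqrt_nonneg _
  unfold G.mu
  positivity

/-- **A move with the side middle-top fixed.** -/
theorem move23 (C : Cnd V e k1 lo1 hi1 k2 lo2 hi2 σ) (he : 0 < e) (he1 : e < 1)
    (hκ : κ * h0 = kenE (1 - e)) (hκ0 : 0 ≤ κ) (hy : 0 ≤ y) (h15 : 15 / 16 ≤ y')
    (h2 : y + y' ≤ 2) (hd : 0 ≤ d)
    (K12 : |kv T.D (T.R V) (1 - e) (X12 + d) y - kv T.D (T.R V) (1 - e) X12 y| ≤ k1 * d)
    (L12a : lo1 * d ≤ kv T.D T.RL (1 - e) (X12 + d) y - kv T.D T.RL (1 - e) X12 y)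
    (L12b : kv T.D T.RL (1 - e) (X12 + d) y - kv T.D T.RL (1 - e) X12 y ≤ hi1 * d)
    (K13 : |kv T.D (T.R V) (1 - e) (X13 + d) (y + y') - kv T.D (T.R V) (1 - e) X13 (y + y')| ≤
      k2 * d)
    (L13a : lo2 * d ≤ kv T.D T.RL (1 - e) (X13 + d) (y + y') - kv T.D T.RL (1 - e) X13 (y + y'))
    (L13b : kv T.D T.RL (1 - e) (X13 + d) (y + y') - kv T.D T.RL (1 - e) X13 (y + y') ≤ hi2 * d)
    (H : OKV V T κ (1 - e) X12 X13 y y') : OKV V T κ (1 - e) (X12 + d) (X13 + d) y y' := by
  have e23 : X13 + d - (X12 + d) = X13 - X12 := by ring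
  have hex : exn' (X12 + d) (X13 + d) y (y + y') - exn' X12 X13 y (y + y') = d * y' / 2 := by
    unfold exn'
    ring
  have ha := amp_e he1 hκ
  have hs : ∀ a b : ℝ, lo1 * d ≤ a → a ≤ hi1 * d → lo2 * d ≤ b → b ≤ hi2 * d →
      |a + 0 - b| ≤ σ * d := by
    intro a b a1 a2 b1 b2
    have := C.s1
    have := C.s2
    rw [abs_le]
    constructor <;> nlinarith
  refine okv_move (A := k1 * d) (B := 0) (C := k2 * d) (S := σ * d) hκ0 (by linarith)
    (by linarith) (by linarith) K12 ?_ K13 ?_ ?_ H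
  · unfold kv3
    simp only
    rw [e23, sub_self, abs_zero]
  · unfold kv3
    simp only
    rw [e23, sub_self]
    exact hs _ _ L12a L12b L13a L13b
  · have hc := C.c
    cases V
    · simp only at hc ⊢
      rw [hex, ha]
      have := mul_le_mul_of_nonneg_left hc hd
      nlinarith
    · simp only at hc ⊢
      rw [hex, ha, mu_eq]
      unfold kv3
      simp only
      rw [e23, sub_self, mul_zero, sub_zero]
      have hm := mu_nn he.le
      have hσ : 0 ≤ σ * d := by
        have := hs _ _ L12a L12b L13a L13b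
        exact (abs_nonneg _).trans this
      have h5 := mul_le_mul_of_nonneg_left hc hd
      have h6 : (3 + (1 - e) - y - y') / 2 * (σ * d) ≤ 49 / 32 * (σ * d) :=
        mul_le_mul_of_nonneg_right (by linarith) hσ
      have h7 : 15 / 32 * (lo1 * d) ≤ y' * (kv T.D T.RL (1 - e) (X12 + d) y -
          kv T.D T.RL (1 - e) X12 y) / 2 := by
        have := mul_nonneg C.l1 hd
        nlinarith
      have h8 := mul_le_mul_of_nonneg_left (sub_le_sub h7 h6) hm
      nlinarith

/-- **A move with the side bottom-top fixed.** -/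
theorem move13 (C : Cnd V e k1 lo1 hi1 k2 lo2 hi2 σ) (he : 0 < e) (he1 : e < 1)
    (hκ : κ * h0 = kenE (1 - e)) (hκ0 : 0 ≤ κ) (hy : 0 ≤ y) (h15 : 15 / 16 ≤ y')
    (h2 : y + y' ≤ 2) (hd : 0 ≤ d)
    (K12 : |kv T.D (T.R V) (1 - e) (X12 + d) y - kv T.D (T.R V) (1 - e) X12 y| ≤ k1 * d)
    (L12a : lo1 * d ≤ kv T.D T.RL (1 - e) (X12 + d) y - kv T.D T.RL (1 - e) X12 y)
    (L12b : kv T.D T.RL (1 - e) (X12 + d) y - kv T.D T.RL (1 - e) X12 y ≤ hi1 * d)
    (K23 : |kv T.D (T.R V) (1 - e) (X13 - (X12 + d)) y' -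
      kv T.D (T.R V) (1 - e) (X13 - X12) y'| ≤ k2 * d)
    (L23a : kv T.D T.RL (1 - e) (X13 - (X12 + d)) y' -
      kv T.D T.RL (1 - e) (X13 - X12) y' ≤ -(lo2 * d))
    (L23b : -(hi2 * d) ≤ kv T.D T.RL (1 - e) (X13 - (X12 + d)) y' -
      kv T.D T.RL (1 - e) (X13 - X12) y')
    (H : OKV V T κ (1 - e) X12 X13 y y') : OKV V T κ (1 - e) (X12 + d) X13 y y' := by
  have hex : exn' (X12 + d) X13 y (y + y') - exn' X12 X13 y (y + y') = d * (y + y') / 2 := by
    unfold exn'
    ring
  have ha := amp_e he1 hκ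
  have hs : ∀ a b : ℝ, lo1 * d ≤ a → a ≤ hi1 * d → b ≤ -(lo2 * d) → -(hi2 * d) ≤ b →
      |a + b - 0| ≤ σ * d := by
    intro a b a1 a2 b1 b2
    have := C.s1
    have := C.s2
    rw [abs_le]
    constructor <;> nlinarith
  refine okv_move (A := k1 * d) (B := k2 * d) (C := 0) (S := σ * d) hκ0 (by linarith)
    (by linarith) (by linarith) K12 K23 ?_ ?_ ?_ H
  · unfold kv3
    simp only
    rw [sub_self, abs_zero]
  · unfold kv3
    simp only
    rw [sub_self (kv T.D T.RL (1 - e) X13 (y + y'))]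
    exact hs _ _ L12a L12b L23a L23b
  · have hc := C.c
    cases V
    · simp only at hc ⊢
      rw [hex, ha]
      have := mul_le_mul_of_nonneg_left hc hd
      nlinarith
    · simp only at hc ⊢
      rw [hex, ha, mu_eq]
      unfold kv3
      simp only
      have hm := mu_nn he.le
      have hσ : 0 ≤ σ * d := by
        have := hs _ _ L12a L12b L23a L23b
        exact (abs_nonneg _).trans this
      have h5 := mul_le_mul_of_nonneg_left hc hd
      have h6 : (3 + (1 - e) - y - y') / 2 * (σ * d) ≤ 49 / 32 * (σ * d) :=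
        mul_le_mul_of_nonneg_right (by linarith) hσ
      have h7 : 15 / 32 * (lo1 * d) ≤ (y' * (kv T.D T.RL (1 - e) (X12 + d) y -
          kv T.D T.RL (1 - e) X12 y) - y * (kv T.D T.RL (1 - e) (X13 - (X12 + d)) y' -
          kv T.D T.RL (1 - e) (X13 - X12) y')) / 2 := by
        have a1 := mul_nonneg C.l1 hd
        have a2 := mul_nonneg hy (mul_nonneg C.l2 hd)
        nlinarith
      have h8 := mul_le_mul_of_nonneg_left (sub_le_sub h7 h6) hm
      nlinarith

end

/-! ### The regions -/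

/-- The position of the curve `1.15` next to the height `0`. -/
noncomputable def x5 (y : ℝ) : ℝ := 1 + (xi1 (-y) 1 + 3 / 20 * dQ 1 y)

/-- The positions up to which the slopes next to `h0` are used. -/
noncomputable def rt (z : ℝ) : ℝ := if z < 0 then xa z 1 else xb z 1

/-- The slopes in the windows. -/
structure Slo (V : Vx) (T : Tbs 7) (e k1 lo1 hi1 : ℝ) : Prop where
  h : ∀ y, 0 ≤ y → y < 1 / 16 → Lp V T e y (c1n y) (x5 y) k1 lo1 hi1
  p : ∀ z, -(1 / 16) < z → z < 1 / 16 → ∃ k2 lo2 hi2 σ,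
    Lp V T e (1 + z) (c1n (1 + z)) (rt z) k2 lo2 hi2 ∧ Cnd V e k1 lo1 hi1 k2 lo2 hi2 σ

theorem rt_lo {z : ℝ} (h0 : -(1 / 16) ≤ z) (h1 : z ≤ 1 / 16) : 16 / 25 ≤ rt z := by
  unfold rt
  split_ifs with h
  · have := xa_lo h0 h.le
    linarith
  · exact xb_lo (not_lt.1 h) h1

section

variable {V : Vx} {T : Tbs 7} {κ e y z X12 X13 k1 lo1 hi1 : ℝ}

/-- **The first triangle.** -/
theorem near1 (N : Nod V T e) (R : Rows V) (S : Slo V T e k1 lo1 hi1)
    (hκ : κ * h0 = kenE (1 - e)) (hκ0 : 0 ≤ κ) (H : HT y z) (a1 : c1n y ≤ X12) (a2 : X12 ≤ x5 y)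
    (b1 : c1n (1 + (y + z)) ≤ X13) (b2 : X13 ≤ rt (y + z)) (c1 : c1n (1 + z) ≤ X12 - X13)
    (c2 : X12 - X13 ≤ rt z) : OKV V T κ (1 - e) X12 X13 y (1 + z) := by
  have hy := H.y0
  have hy1 := H.y1
  have hz := H.z0
  have hz1 := H.z1
  have hu := H.u1
  have he := N.e0
  have he1 : e < 1 := by linarith [N.e1]
  have h12 := S.h y hy hy1
  obtain ⟨k2, lo2, hi2, σ, h13, C⟩ := S.p (y + z) (by linarith) hu
  obtain ⟨k3, lo3, hi3, σ', h23, C'⟩ := S.p z hz hz1
  -- second move
  have st2 : ∀ A, c1n y ≤ A → A ≤ x5 y → c1n (1 + z) ≤ A - c1n (1 + (y + z)) →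
      A - c1n (1 + (y + z)) ≤ rt z →
      OKV V T κ (1 - e) A (c1n (1 + (y + z))) y (1 + z) := by
    intro A r1 r2 r3 r4
    obtain ⟨B, hB, hB'⟩ : ∃ B, B = max (c1n y) (c1n (1 + (y + z)) + c1n (1 + z)) ∧ B ≤ A :=
      ⟨_, rfl, max_le r1 (by linarith)⟩
    have hB1 : c1n y ≤ B := by rw [hB]; exact le_max_left _ _
    have hB2 : c1n (1 + (y + z)) + c1n (1 + z) ≤ B := by rw [hB]; exact le_max_right _ _
    have h0 : OKV V T κ (1 - e) B (c1n (1 + (y + z))) y (1 + z) := by
      rcases le_total (c1n y) (c1n (1 + (y + z)) + c1n (1 + z)) with h | h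
      · rw [max_eq_right h] at hB
        exact lineU N R hκ H hB hB1 (hB'.trans r2)
      · rw [max_eq_left h] at hB
        rw [hB]
        exact line1 N R hκ H le_rfl (by linarith)
    have h1 := move13 (d := A - B) C' he he1 hκ hκ0 hy (by linarith) (by linarith)
      (by linarith) (X12 := B) (X13 := c1n (1 + (y + z)))
      (by
        rw [show B + (A - B) = A by ring]
        exact h12.K B A hB1 hB' r2)
      (by
        rw [show B + (A - B) = A by ring]
        exact h12.L0 B A hB1 hB' r2)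
      (by
        rw [show B + (A - B) = A by ring]
        exact h12.L1 B A hB1 hB' r2)
      (by
        have := h23.K (B - c1n (1 + (y + z))) (A - c1n (1 + (y + z))) (by linarith)
          (by linarith) r4
        rw [show c1n (1 + (y + z)) - (B + (A - B)) = -(A - c1n (1 + (y + z))) by ring,
          show c1n (1 + (y + z)) - B = -(B - c1n (1 + (y + z))) by ring, kv_neg, kv_neg,
          ← abs_neg, neg_sub_neg, neg_sub]
        rw [show A - c1n (1 + (y + z)) - (B - c1n (1 + (y + z))) = A - B by ring] at this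
        exact this)
      (by
        have := h23.L0 (B - c1n (1 + (y + z))) (A - c1n (1 + (y + z))) (by linarith)
          (by linarith) r4
        rw [show c1n (1 + (y + z)) - (B + (A - B)) = -(A - c1n (1 + (y + z))) by ring,
          show c1n (1 + (y + z)) - B = -(B - c1n (1 + (y + z))) by ring, kv_neg, kv_neg]
        rw [show A - c1n (1 + (y + z)) - (B - c1n (1 + (y + z))) = A - B by ring] at this
        linarith)
      (by
        have := h23.L1 (B - c1n (1 + (y + z))) (A - c1n (1 + (y + z))) (by linarith)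
          (by linarith) r4
        rw [show c1n (1 + (y + z)) - (B + (A - B)) = -(A - c1n (1 + (y + z))) by ring,
          show c1n (1 + (y + z)) - B = -(B - c1n (1 + (y + z))) by ring, kv_neg, kv_neg]
        rw [show A - c1n (1 + (y + z)) - (B - c1n (1 + (y + z))) = A - B by ring] at this
        linarith) h0
    rw [show B + (A - B) = A by ring] at h1
    exact h1
  -- first move
  have st1 : ∀ d, 0 ≤ d → c1n y ≤ X12 - d → c1n (1 + (y + z)) ≤ X13 - d →
      OKV V T κ (1 - e) (X12 - d) (X13 - d) y (1 + z) →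
      OKV V T κ (1 - e) X12 X13 y (1 + z) := by
    intro d hd r1 r2 h0
    have h1 := move23 (d := d) C he he1 hκ hκ0 hy (y' := 1 + z) (by linarith) (by linarith) hd
      (X12 := X12 - d) (X13 := X13 - d)
      (by
        have := h12.K (X12 - d) X12 r1 (by linarith) a2
        rw [sub_add_cancel]
        rw [sub_sub_cancel] at this
        exact this)
      (by
        have := h12.L0 (X12 - d) X12 r1 (by linarith) a2
        rw [sub_add_cancel]
        rw [sub_sub_cancel] at this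
        exact this)
      (by
        have := h12.L1 (X12 - d) X12 r1 (by linarith) a2
        rw [sub_add_cancel]
        rw [sub_sub_cancel] at this
        exact this)
      (by
        have := h13.K (X13 - d) X13 r2 (by linarith) b2
        rw [sub_add_cancel, hts_add]
        rw [sub_sub_cancel] at this
        exact this)
      (by
        have := h13.L0 (X13 - d) X13 r2 (by linarith) b2
        rw [sub_add_cancel, hts_add]
        rw [sub_sub_cancel] at this
        exact this)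
      (by
        have := h13.L1 (X13 - d) X13 r2 (by linarith) b2
        rw [sub_add_cancel, hts_add]
        rw [sub_sub_cancel] at this
        exact this) h0
    rw [sub_add_cancel, sub_add_cancel] at h1
    exact h1
  rcases le_total (X12 - c1n y) (X13 - c1n (1 + (y + z))) with h | h
  · refine st1 (X12 - c1n y) (by linarith) (by linarith) (by linarith) ?_
    rw [sub_sub_cancel]
    exact line1 N R hκ H (by linarith) (by linarith)
  · refine st1 (X13 - c1n (1 + (y + z))) (by linarith) (by linarith) (by linarith) ?_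
    rw [sub_sub_cancel]
    exact st2 _ (by linarith) (by linarith) (by linarith) (by linarith)

/-- **The second triangle**; `X` is the absolute value of the abscissa of the side bottom-top. -/
theorem near2 (N : Nod V T e) (R : Rows V) (S : Slo V T e k1 lo1 hi1)
    (hκ : κ * h0 = kenE (1 - e)) (hκ0 : 0 ≤ κ) (H : HT y z) {X : ℝ} (a1 : c1n y ≤ X12)
    (a2 : X12 ≤ x5 y) (b1 : c1n (1 + (y + z)) ≤ X) (c2 : X + X12 ≤ c3n (1 + z)) :
    OKV V T κ (1 - e) X12 (-X) y (1 + z) := by
  have hy := H.y0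
  have hy1 := H.y1
  have hz := H.z0
  have hz1 := H.z1
  have hu := H.u1
  have he := N.e0
  have he1 : e < 1 := by linarith [N.e1]
  have h12 := S.h y hy hy1
  obtain ⟨k2, lo2, hi2, σ, h13, C⟩ := S.p (y + z) (by linarith) hu
  have h0 : OKV V T κ (1 - e) (c1n y) (-(X + (X12 - c1n y))) y (1 + z) :=
    line2 N R hκ H (by linarith) (by linarith)
  have hb : X + (X12 - c1n y) ≤ rt (y + z) := by
    have f1 := rt_lo (z := y + z) (by linarith) hu.le
    have f2 := c3_le hz.le hz1.le
    have f3 := c1n_lw (y := y) (by nlinarith)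
    nlinarith
  have e1 : -(X + (X12 - c1n y)) + (X12 - c1n y) = -X := by ring
  have e2 : c1n y + (X12 - c1n y) = X12 := by ring
  have e3 : X + (X12 - c1n y) - X = X12 - c1n y := by ring
  have h1 := move23 (d := X12 - c1n y) C he he1 hκ hκ0 hy (y' := 1 + z) (by linarith)
    (by linarith) (by linarith) (X12 := c1n y) (X13 := -(X + (X12 - c1n y)))
    (by rw [e2]; exact h12.K _ _ le_rfl a1 a2)
    (by rw [e2]; exact h12.L0 _ _ le_rfl a1 a2)
    (by rw [e2]; exact h12.L1 _ _ le_rfl a1 a2)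
    (by
      have := h13.K X (X + (X12 - c1n y)) b1 (by linarith) hb
      rw [e1, hts_add, kv_neg, kv_neg, neg_sub_neg]
      rw [e3] at this
      exact this)
    (by
      have := h13.L0 X (X + (X12 - c1n y)) b1 (by linarith) hb
      rw [e1, hts_add, kv_neg, kv_neg, neg_sub_neg]
      rw [e3] at this
      exact this)
    (by
      have := h13.L1 X (X + (X12 - c1n y)) b1 (by linarith) hb
      rw [e1, hts_add, kv_neg, kv_neg, neg_sub_neg]
      rw [e3] at this
      exact this) h0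
  rw [e1, e2] at h1
  exact h1

/-- **The third triangle.** -/
theorem near3 (N : Nod V T e) (R : Rows V) (S : Slo V T e k1 lo1 hi1)
    (hκ : κ * h0 = kenE (1 - e)) (hκ0 : 0 ≤ κ) (H : HT y z) (a1 : c1n y ≤ X12)
    (a2 : X12 ≤ x5 y) (b1 : c1n (1 + z) ≤ X13 - X12) (c2 : X13 ≤ c3n (1 + (y + z))) :
    OKV V T κ (1 - e) X12 X13 y (1 + z) := by
  have hy := H.y0
  have hy1 := H.y1
  have hz := H.z0
  have hz1 := H.z1
  have hu := H.u1
  have he := N.e0
  have he1 : e < 1 := by linarith [N.e1]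
  have h12 := S.h y hy hy1
  obtain ⟨k3, lo3, hi3, σ', h23, C'⟩ := S.p z hz hz1
  have h0 : OKV V T κ (1 - e) (c1n y) X13 y (1 + z) :=
    line3 N R hκ H (by linarith) c2
  have hb : X13 - c1n y ≤ rt z := by
    have f1 := rt_lo hz.le hz1.le
    have f2 := c3_le (z := y + z) (by linarith) hu.le
    have f3 := c1n_lw (y := y) (by nlinarith)
    nlinarith
  have e2 : c1n y + (X12 - c1n y) = X12 := by ring
  have e3 : X13 - c1n y - (X13 - X12) = X12 - c1n y := by ring
  have h1 := move13 (d := X12 - c1n y) C' he he1 hκ hκ0 hy (y' := 1 + z) (by linarith)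
    (by linarith) (by linarith) (X12 := c1n y) (X13 := X13)
    (by rw [e2]; exact h12.K _ _ le_rfl a1 a2)
    (by rw [e2]; exact h12.L0 _ _ le_rfl a1 a2)
    (by rw [e2]; exact h12.L1 _ _ le_rfl a1 a2)
    (by
      have := h23.K (X13 - X12) (X13 - c1n y) b1 (by linarith) hb
      rw [e2, ← abs_neg, neg_sub]
      rw [e3] at this
      exact this)
    (by
      have := h23.L0 (X13 - X12) (X13 - c1n y) b1 (by linarith) hb
      rw [e2]
      rw [e3] at this
      linarith)
    (by
      have := h23.L1 (X13 - X12) (X13 - c1n y) b1 (by linarith) hb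
      rw [e2]
      rw [e3] at this
      linarith) h0
  rw [e2] at h1
  exact h1

end

end Pool.Agent.Strip051.LC.E1
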