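import Pool.Agent.Strip051.LC.E1.Slope
import Pool.Agent.Strip051.PB.Cuts

/-! # Rests near the full period: the cubes next to the triangles with a side `(1, 0)`

The statements for the pairs of nodes, for both families, in the cubes `(0, 1, 1)` and `(1, 0, 1)`. -/

namespace Pool.Agent.Strip051.LC.E1

open Pool.Agent.StripNear Pool.Agent.StripSquare Pool.Agent.Strip051 Pool.Agent.Strip051.Sweep
open Pool.Agent.Strip051.PB
open Pool.Agent.Strip051.LC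
open Pool.Agent.Strip051.LC.E0.G (om qw cc1 xi1 sg1 cc3 xi3 sg3 xiw dwl dwu)
open G

/-! ### The lists of conditions -/

/-- The cube `(0, 1, 1)`. -/
def w011 : List Cc := [⟨0, 0, 0, 67108864⟩, ⟨1, 1, 0, 67108864⟩, ⟨2, 1, 0, 67108864⟩]
/-- The cube `(1, 0, 1)`. -/
def w101 : List Cc := [⟨0, 1, 0, 67108864⟩, ⟨1, 0, 0, 67108864⟩, ⟨2, 1, 0, 67108864⟩]
/-- The cube `(0, 1, 1)`, the third side is short. -/
def t011 : List Cc :=
  [⟨0, 0, 0, 67108864⟩, ⟨1, 1, 0, 67108864⟩, ⟨2, 1, 0, 67108864⟩, ⟨3, 0, 0, 1233125376⟩]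
/-- The cube `(1, 0, 1)`, the third side is short. -/
def t101 : List Cc :=
  [⟨0, 1, 0, 67108864⟩, ⟨1, 0, 0, 67108864⟩, ⟨2, 1, 0, 67108864⟩, ⟨3, 0, 0, 1233125376⟩]
/-- The cube `(1, 0, 1)`, the third side `23` is short. -/
def s101 : List Cc :=
  [⟨0, 1, 0, 67108864⟩, ⟨1, 0, 0, 67108864⟩, ⟨2, 1, 0, 67108864⟩, ⟨3, 0, 0, 1317011456⟩]

section

variable {x y y' X Y : ℝ}

theorem ht_of (h0 : 0 ≤ y) (h1 : |y - 0| < 1 / 16) (h2 : |y' - 1| < 1 / 16)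
    (h3 : |y + y' - 1| < 1 / 16) : ∃ z, y' = 1 + z ∧ HT y z := by
  rw [sub_zero] at h1
  rw [abs_lt] at h1 h2 h3
  exact ⟨y' - 1, by ring, h0, h1.2, by linarith [h2.1], h2.2, by linarith⟩

theorem cc_0 {n : ℕ} {c : ℝ} (hc : c = n) (h : Cc.P ⟨0, n, 0, 67108864⟩ x y y' X Y) :
    |y - c| < 1 / 16 := by
  have h1 : |y - (n : ℝ)| < ((67108864 : ℕ) : ℝ) / 1073741824 := h
  rw [hc]
  refine lt_of_lt_of_eq h1 ?_
  push_cast
  norm_num

theorem cc_1 {n : ℕ} {c : ℝ} (hc : c = n) (h : Cc.P ⟨1, n, 0, 67108864⟩ x y y' X Y) :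
    |y' - c| < 1 / 16 := by
  have h1 : |y' - (n : ℝ)| < ((67108864 : ℕ) : ℝ) / 1073741824 := h
  rw [hc]
  refine lt_of_lt_of_eq h1 ?_
  push_cast
  norm_num

theorem cc_2 {n : ℕ} {c : ℝ} (hc : c = n) (h : Cc.P ⟨2, n, 0, 67108864⟩ x y y' X Y) :
    |y + y' - c| < 1 / 16 := by
  have h1 : |y + y' - (n : ℝ)| < ((67108864 : ℕ) : ℝ) / 1073741824 := h
  rw [hc]
  refine lt_of_lt_of_eq h1 ?_
  push_cast
  norm_num

theorem cc_3 {d : ℕ} (h : Cc.P ⟨3, 0, 0, d⟩ x y y' X Y) :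
    qqn X Y < (d : ℝ) / 1073741824 := h

theorem win011 (h0 : 0 ≤ y) (h : ∀ d ∈ w011, d.P x y y' X Y) : ∃ z, y' = 1 + z ∧ HT y z :=
  ht_of h0 (cc_0 (n := 0) (by norm_num) (h _ (by simp [w011])))
    (cc_1 (n := 1) (by norm_num) (h _ (by simp [w011])))
    (cc_2 (n := 1) (by norm_num) (h _ (by simp [w011])))

theorem win101 (h0 : 0 ≤ y') (h : ∀ d ∈ w101, d.P x y y' X Y) : ∃ z, y = 1 + z ∧ HT y' z :=
  ht_of h0 (cc_1 (n := 0) (by norm_num) (h _ (by simp [w101])))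
    (cc_0 (n := 1) (by norm_num) (h _ (by simp [w101])))
    (by rw [add_comm]; exact cc_2 (n := 1) (by norm_num) (h _ (by simp [w101])))

theorem win_t011 (h0 : 0 ≤ y) (h : ∀ d ∈ t011, d.P x y y' X Y) :
    (∃ z, y' = 1 + z ∧ HT y z) ∧ qqn X Y < 147 / 128 := by
  refine ⟨win011 h0 fun d hd => h d ?_, lt_of_lt_of_eq (cc_3 (h _ (by simp [t011]; rfl))) ?_⟩
  · simp only [w011, t011, List.mem_cons, List.not_mem_nil, or_false] at hd ⊢
    tauto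
  · push_cast
    norm_num

theorem win_t101 (h0 : 0 ≤ y') (h : ∀ d ∈ t101, d.P x y y' X Y) :
    (∃ z, y = 1 + z ∧ HT y' z) ∧ qqn X Y < 147 / 128 := by
  refine ⟨win101 h0 fun d hd => h d ?_, lt_of_lt_of_eq (cc_3 (h _ (by simp [t101]; rfl))) ?_⟩
  · simp only [w101, t101, List.mem_cons, List.not_mem_nil, or_false] at hd ⊢
    tauto
  · push_cast
    norm_num

theorem win_s101 (h0 : 0 ≤ y') (h : ∀ d ∈ s101, d.P x y y' X Y) :
    (∃ z, y = 1 + z ∧ HT y' z) ∧ qqn X Y < 157 / 128 := by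
  refine ⟨win101 h0 fun d hd => h d ?_, lt_of_lt_of_eq (cc_3 (h _ (by simp [s101]; rfl))) ?_⟩
  · simp only [w101, s101, List.mem_cons, List.not_mem_nil, or_false] at hd ⊢
    tauto
  · push_cast
    norm_num

end

/-! ### Geometry -/

section

variable {y z u X Y : ℝ}

theorem q_c1 (h : 1 ≤ qqn X Y) (hX : 0 ≤ X) : c1n Y ≤ X := by
  unfold qqn at h
  unfold c1n
  rw [Real.sqrt_le_left hX]
  linarith

theorem q_c3 (h : qqn X Y ≤ 3) : X ≤ c3n Y := by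
  unfold qqn at h
  unfold c3n
  refine Real.le_sqrt_of_sq_le ?_
  linarith

theorem qqn_neg (X Y : ℝ) : qqn (-X) Y = qqn X Y := by
  unfold qqn
  ring

theorem q_rt (h0 : -(1 / 16) < z) (h1 : z < 1 / 16) (h : qqn X (1 + z) < 147 / 128) :
    X ≤ rt z := by
  unfold qqn at h
  unfold rt
  split_ifs with hz
  · have := xa_lo h0.le hz.le
    refine le_trans ?_ this
    by_contra hh
    push Not at hh
    nlinarith
  · have := xb_lo (not_lt.1 hz) h1.le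
    refine le_trans ?_ this
    by_contra hh
    push Not at hh
    nlinarith [not_lt.1 hz]

theorem x5_lo (h0 : 0 ≤ y) (h1 : y ≤ 1 / 16) : 1109 / 1000 + 9 / 8 * y ≤ x5 y := by
  have a := xi1n_lo h0 h1
  have b : (17312 / 10000 : ℝ) ≤ Real.sqrt (3 - 3 / 4 * (1 * y) ^ 2) := by
    refine Real.le_sqrt_of_sq_le ?_
    nlinarith
  unfold x5 dQ
  linarith

theorem c1u_lo' (h0 : 0 ≤ u) (h1 : u ≤ 1 / 16) : 1 / 2 - 7 / 4 * u ≤ c1n (1 + u) := by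
  unfold c1n
  refine Real.le_sqrt_of_sq_le ?_
  nlinarith

theorem c1_le (h0 : -(1 / 16) < z) (h1 : z < 1 / 16) : c1n (1 + z) ≤ 3 / 5 := by
  rcases le_total 0 z with h | h
  · have := c1u_le h h1.le
    linarith
  · have := c1d_le h0.le h
    linarith

theorem c1_rt (h0 : -(1 / 16) < z) (h1 : z < 1 / 16) : c1n (1 + z) ≤ rt z := by
  have := rt_lo h0.le h1.le
  have := c1_le h0 h1
  linarith

theorem t2_x5 (H : HT y z) : c3n (1 + z) - c1n (1 + (y + z)) ≤ x5 y := by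
  have hy := H.y0
  have hy1 := H.y1
  have hz := H.z0
  have hz1 := H.z1
  have hu := H.u1
  have a := x5_lo hy hy1.le
  have b := c3_le hz.le hz1.le
  rcases le_total 0 (y + z) with h | h
  · have := c1u_lo' h hu.le
    linarith
  · have := c1d_lo (z := y + z) (by linarith) h
    linarith

theorem t3_x5 (H : HT y z) : c3n (1 + (y + z)) - c1n (1 + z) ≤ x5 y := by
  have hy := H.y0
  have hy1 := H.y1
  have hz := H.z0
  have hz1 := H.z1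
  have hu := H.u1
  have a := x5_lo hy hy1.le
  have b := c3_le (z := y + z) (by linarith) hu.le
  rcases le_total 0 z with h | h
  · have := c1u_lo' h hz1.le
    linarith
  · have := c1d_lo (z := z) hz.le h
    linarith

end

/-! ### The triangles in terms of the nodes -/

section

variable {V : Vx} {T : Tbs 7} {κ e y z P Q k1 lo1 hi1 : ℝ}

/-- The hypotheses. -/
structure Hyp (V : Vx) (T : Tbs 7) (κ e k1 lo1 hi1 : ℝ) : Prop where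
  N : Nod V T e
  R : Rows V
  S : Slo V T e k1 lo1 hi1
  hκ : κ * h0 = kenE (1 - e)
  hκ0 : 0 ≤ κ

theorem cy_lo (H : HT y z) : 99 / 100 ≤ c1n y := by
  have := c1n_lw (y := y) (by nlinarith [H.y0, H.y1])
  nlinarith [H.y0, H.y1]

theorem t1A (G : Hyp V T κ e k1 lo1 hi1) (H : HT y z) (p0 : c1n y ≤ P) (p1 : P ≤ x5 y)
    (q0 : c1n (1 + z) ≤ Q) (q1 : Q ≤ rt z) (q2 : Q ≤ 3 / 5) (l1 : 1 ≤ qqn (P - Q) (1 + (y + z)))
    (l2 : qqn (P - Q) (1 + (y + z)) < 147 / 128) : OKV V T κ (1 - e) P (P - Q) y (1 + z) := by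
  have hy := cy_lo H
  refine near1 G.N G.R G.S G.hκ G.hκ0 H p0 p1 (q_c1 l1 (by linarith))
    (q_rt (by linarith [H.y0, H.z0]) H.u1 l2) ?_ ?_
  · linarith
  · linarith

theorem t1B (G : Hyp V T κ e k1 lo1 hi1) (H : HT y z) (p0 : c1n y ≤ P) (p1 : P ≤ x5 y)
    (q0 : c1n (1 + (y + z)) ≤ Q) (q1 : Q ≤ rt (y + z)) (q2 : Q ≤ 3 / 5)
    (l1 : 1 ≤ qqn (Q - P) (1 + z)) (l2 : qqn (Q - P) (1 + z) < 147 / 128) :
    OKV V T κ (1 - e) P Q y (1 + z) := by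
  have hy := cy_lo H
  rw [← neg_sub P Q, qqn_neg] at l1 l2
  exact near1 G.N G.R G.S G.hκ G.hκ0 H p0 p1 q0 q1 (q_c1 l1 (by linarith)) (q_rt H.z0 H.z1 l2)

theorem t1C (G : Hyp V T κ e k1 lo1 hi1) (H : HT y z) (p0 : c1n (1 + z) ≤ P) (p1 : P ≤ rt z)
    (q0 : c1n (1 + (y + z)) ≤ Q) (q1 : Q ≤ rt (y + z)) (l1 : 1 ≤ qqn (P + Q) y)
    (l2 : qqn (P + Q) y < 157 / 128) : OKV V T κ (1 - e) (P + Q) Q y (1 + z) := by
  have a := c1_lo H.z0.le H.z1.le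
  have b := c1_lo (z := y + z) (by linarith [H.y0, H.z0]) H.u1.le
  have c := x5_lo H.y0 H.y1.le
  refine near1 G.N G.R G.S G.hκ G.hκ0 H (q_c1 l1 (by linarith)) ?_ q0 q1 (by linarith)
    (by linarith)
  unfold qqn at l2
  have hy := H.y0
  by_contra hh
  push Not at hh
  nlinarith

theorem t2A (G : Hyp V T κ e k1 lo1 hi1) (H : HT y z) (p0 : c1n y ≤ P) (p1 : P ≤ 17321 / 10000)
    (q0 : 73 / 50 ≤ Q) (q1 : Q ≤ c3n (1 + z)) (l1 : 1 ≤ qqn (P - Q) (1 + (y + z))) :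
    OKV V T κ (1 - e) P (P - Q) y (1 + z) := by
  have b := c1_lo (z := y + z) (by linarith [H.y0, H.z0]) H.u1.le
  rcases le_total 0 (P - Q) with h | h
  · have := q_c1 l1 h
    linarith
  rw [← neg_sub Q P, qqn_neg] at l1
  have a := q_c1 l1 (by linarith)
  have c := t2_x5 H
  rw [← neg_sub Q P]
  exact near2 G.N G.R G.S G.hκ G.hκ0 H p0 (by linarith) a (by linarith)

theorem t2B (G : Hyp V T κ e k1 lo1 hi1) (H : HT y z) (p0 : c1n y ≤ P)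
    (q0 : c1n (1 + (y + z)) ≤ Q) (l3 : qqn (-Q - P) (1 + z) ≤ 3) :
    OKV V T κ (1 - e) P (-Q) y (1 + z) := by
  have c := t2_x5 H
  rw [show -Q - P = -(Q + P) by ring, qqn_neg] at l3
  have a := q_c3 l3
  exact near2 G.N G.R G.S G.hκ G.hκ0 H p0 (by linarith) q0 a

theorem t2C (G : Hyp V T κ e k1 lo1 hi1) (H : HT y z) (p0 : 73 / 50 ≤ P) (p1 : P ≤ c3n (1 + z))
    (q0 : c1n (1 + (y + z)) ≤ Q) (q2 : Q ≤ 3 / 5) (l1 : 1 ≤ qqn (P - Q) y) :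
    OKV V T κ (1 - e) (P - Q) (-Q) y (1 + z) := by
  have c := t2_x5 H
  exact near2 G.N G.R G.S G.hκ G.hκ0 H (q_c1 l1 (by linarith)) (by linarith) q0 (by linarith)

theorem t3A (G : Hyp V T κ e k1 lo1 hi1) (H : HT y z) (p0 : c1n y ≤ P) (q0 : c1n (1 + z) ≤ Q)
    (l3 : qqn (P + Q) (1 + (y + z)) ≤ 3) : OKV V T κ (1 - e) P (P + Q) y (1 + z) := by
  have c := t3_x5 H
  have a := q_c3 l3
  exact near3 G.N G.R G.S G.hκ G.hκ0 H p0 (by linarith) (by linarith) a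

theorem t3B (G : Hyp V T κ e k1 lo1 hi1) (H : HT y z) (p0 : c1n y ≤ P) (p1 : P ≤ 17321 / 10000)
    (q0 : 73 / 50 ≤ Q) (q1 : Q ≤ c3n (1 + (y + z))) (l1 : 1 ≤ qqn (Q - P) (1 + z)) :
    OKV V T κ (1 - e) P Q y (1 + z) := by
  have b := c1_lo H.z0.le H.z1.le
  rcases le_total 0 (Q - P) with h | h
  · have a := q_c1 l1 h
    have c := t3_x5 H
    exact near3 G.N G.R G.S G.hκ G.hκ0 H p0 (by linarith) a q1
  · rw [← neg_sub P Q, qqn_neg] at l1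
    have := q_c1 l1 (by linarith)
    linarith

theorem t3C (G : Hyp V T κ e k1 lo1 hi1) (H : HT y z) (p0 : c1n (1 + z) ≤ P) (p2 : P ≤ 3 / 5)
    (q0 : 73 / 50 ≤ Q) (q1 : Q ≤ c3n (1 + (y + z))) (l1 : 1 ≤ qqn (Q - P) y) :
    OKV V T κ (1 - e) (Q - P) Q y (1 + z) := by
  have c := t3_x5 H
  exact near3 G.N G.R G.S G.hκ G.hκ0 H (q_c1 l1 (by linarith)) (by linarith) (by linarith) q1

/-! ### The nodes -/

theorem crv_lo (N : Nod V T e) (j : Fin 8) (h0 : 0 ≤ y) (h1 : y < 1 / 16) :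
    c1n y ≤ crv T.D.P j 0 y ∧ crv T.D.P j 0 y ≤ 17321 / 10000 := by
  have a1 := c1n_le1 y
  have hs : swn y = c1n (1 + -y) := by
    rw [swn_cc1, c1n_cc1]
  have a2 := c1d_lo (z := -y) (by linarith) (by linarith)
  have a3 := c1d_le (z := -y) (by linarith) (by linarith)
  have a4 : c3n y ≤ 17321 / 10000 := by
    unfold c3n
    rw [Real.sqrt_le_left (by norm_num)]
    nlinarith
  have a5 : (17 / 10 : ℝ) ≤ c3n y := by
    unfold c3n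
    refine Real.le_sqrt_of_sq_le ?_
    nlinarith
  have hw := wn_false y (q := 0) (by norm_num)
  have e0 := N.e0
  have e1 := N.e1
  rw [hs] at hw
  obtain ⟨W, hW⟩ : ∃ W, W = Wn (decide (2 ≤ 0)) y := ⟨_, rfl⟩
  rw [← hW] at hw
  have w1 : 1 ≤ W := by linarith
  have w2 : W ≤ 6 / 5 := by linarith
  fin_cases j
  · show c1n y ≤ crv T.D.P 0 0 y ∧ crv T.D.P 0 0 y ≤ _
    rw [N.cv0]
    exact ⟨le_rfl, by linarith⟩
  · show c1n y ≤ crv T.D.P 1 0 y ∧ crv T.D.P 1 0 y ≤ _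
    rw [N.cv1, ← hW]
    exact ⟨by linarith, by linarith⟩
  · show c1n y ≤ crv T.D.P 2 0 y ∧ crv T.D.P 2 0 y ≤ _
    rw [N.cv2, ← hW]
    exact ⟨by linarith, by linarith⟩
  · show c1n y ≤ crv T.D.P 3 0 y ∧ crv T.D.P 3 0 y ≤ _
    rw [N.cv3, ← hW]
    exact ⟨by linarith, by linarith⟩
  · show c1n y ≤ crv T.D.P 4 0 y ∧ crv T.D.P 4 0 y ≤ _
    rw [N.cv4, ← hW]
    have : 0 ≤ e * (c3n y - W) := mul_nonneg e0.le (by linarith)
    constructor <;> nlinarith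
  · show c1n y ≤ crv T.D.P 5 0 y ∧ crv T.D.P 5 0 y ≤ _
    rw [N.cv5, ← hW]
    exact ⟨by linarith, by linarith⟩
  · show c1n y ≤ crv T.D.P 6 0 y ∧ crv T.D.P 6 0 y ≤ _
    rw [N.cv6, ← hW]
    exact ⟨by linarith, by linarith⟩
  · show c1n y ≤ crv T.D.P 7 0 y ∧ crv T.D.P 7 0 y ≤ _
    rw [N.cv7]
    exact ⟨by linarith, by linarith⟩

theorem crv_x5 (N : Nod V T e) {j : Fin 8} (hj : j = 0 ∨ j = 3 ∨ j = 4) (h0 : 0 ≤ y)
    (h1 : y < 1 / 16) : crv T.D.P j 0 y ≤ x5 y := by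
  have hd := dQ_pos h0 h1
  have he := N.e0
  have he1 := N.e1
  have b := xi1n_lo h0 h1.le
  have c := om_nn (y := y) (by nlinarith)
  have hx : x5 y = 1 + (xi1 (-y) 1 + 3 / 20 * dQ 1 y) := rfl
  rcases hj with rfl | rfl | rfl
  · rw [N.x00 h0 h1, hx]
    nlinarith
  · rw [N.x30 h0 h1, hx]
    nlinarith
  · rw [N.x40 h0 h1, hx]
    unfold xiq
    have := mul_nonneg (by linarith : 0 ≤ 3 / 20 - 11 / 5 * e) hd.le
    linarith

theorem inQ_0 {q : ℕ} (h : InQ q y) (h1 : y < 1 / 16) : q = 0 := by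
  match q, h with
  | 0, _ => rfl
  | 1, h => exact absurd h.1 (by linarith)
  | 2, h => exact absurd h.1 (by linarith)
  | 3, h => exact absurd h.1 (by linarith)
  | _ + 4, h => exact h.elim

theorem inQ_1 {q : ℕ} (h : InQ q (1 + z)) (h0 : -(1 / 16) < z) (h1 : z < 1 / 16) :
    (q = 1 ∧ z < 0) ∨ (q = 2 ∧ 0 ≤ z) := by
  match q, h with
  | 0, h => exact absurd h.2 (by linarith)
  | 1, h => exact Or.inl ⟨rfl, by linarith [h.2]⟩
  | 2, h => exact Or.inr ⟨rfl, by linarith [h.1]⟩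
  | 3, h => exact absurd h.1 (by linarith)
  | _ + 4, h => exact h.elim

/-- The nodes next to `(1 / 2, 1)`. -/
theorem crv_s (N : Nod V T e) {k : Fin 8} {q : ℕ} (hq : InQ q (1 + z))
    (hk : k = 0 ∨ (k = 3 ∧ q = 2)) (h0 : -(1 / 16) < z) (h1 : z < 1 / 16) :
    c1n (1 + z) ≤ crv T.D.P k q (1 + z) ∧ crv T.D.P k q (1 + z) ≤ rt z ∧
      crv T.D.P k q (1 + z) ≤ 3 / 5 := by
  rcases hk with rfl | ⟨rfl, rfl⟩
  · rw [N.cv0]
    exact ⟨le_rfl, c1_rt h0 h1, c1_le h0 h1⟩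
  · rcases inQ_1 hq h0 h1 with ⟨h, -⟩ | ⟨-, h⟩
    · exact absurd h (by norm_num)
    · have b1 := c1_W h h1.le
      have b2 := W_b h h1.le
      have b3 := c1n_le1 z
      rw [N.cv3, wn_true _ (by norm_num)]
      refine ⟨b1, ?_, ?_⟩
      · unfold rt
        rw [if_neg (not_lt.2 h)]
        exact b2
      · rw [swn_c1n]
        linarith

/-- The nodes next to `(3 / 2, 1)`. -/
theorem crv_l (N : Nod V T e) {k : Fin 8} {q : ℕ} (hq : InQ q (1 + z))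
    (hk : k = 7 ∨ (k = 3 ∧ q = 1)) (h0 : -(1 / 16) < z) (h1 : z < 1 / 16) :
    73 / 50 ≤ crv T.D.P k q (1 + z) ∧ crv T.D.P k q (1 + z) ≤ c3n (1 + z) := by
  rcases hk with rfl | ⟨rfl, rfl⟩
  · rw [N.cv7]
    refine ⟨?_, le_rfl⟩
    rcases le_total 0 z with h | h
    · rw [c3n_cc3]
      exact cc3_lo' h h1.le
    · have := c3d_lo h0.le h
      linarith
  · rcases inQ_1 hq h0 h1 with ⟨-, h⟩ | ⟨h, -⟩
    · have b1 := c1n_lw (y := z) (by nlinarith)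
      have b2 := c1n_le1 z
      have b3 := c3d_lo h0.le h.le
      rw [N.cv3, wn_false _ (by norm_num), swn_c1n]
      exact ⟨by nlinarith, by linarith⟩
    · exact absurd h (by norm_num)

end

/-! ### The pairs of nodes -/

section

variable {V : Vx} {T : Tbs 7} {κ e y y' k1 lo1 hi1 : ℝ} {a b c : ℕ} {j k : Fin 8}

theorem pA1 (G : Hyp V T κ e k1 lo1 hi1) (hj : j = 0 ∨ j = 3 ∨ j = 4)
    (hk : k = 0 ∨ (k = 3 ∧ b = 2)) (F : FactsA T.D.P a b c j k 1 (-1) y y')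
    (hl : ∀ d ∈ t011, d.P (1 - e) y y'
      (1 * crv T.D.P j a y + -1 * crv T.D.P k b y') (y + y')) :
    OKV V T κ (1 - e) (1 * crv T.D.P j a y) (1 * crv T.D.P j a y + -1 * crv T.D.P k b y')
      y y' := by
  obtain ⟨⟨z, rfl, H⟩, l2⟩ := win_t011 F.q1.nonneg hl
  have ha := inQ_0 F.q1 H.y1
  subst ha
  have h1 := crv_lo G.N j H.y0 H.y1
  have h2 := crv_x5 G.N hj H.y0 H.y1
  obtain ⟨h3, h4, h5⟩ := crv_s G.N F.q2 hk H.z0 H.z1
  have l1 := F.len1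
  rw [one_mul, neg_one_mul, ← sub_eq_add_neg] at *
  rw [hts_add] at l1 l2
  exact t1A G H h1.1 h2 h3 h4 h5 l1 l2

theorem pB1 (G : Hyp V T κ e k1 lo1 hi1) (hj : j = 0 ∨ j = 3 ∨ j = 4)
    (hk : k = 0 ∨ (k = 3 ∧ c = 2)) (F : FactsB T.D.P a b c j k 1 1 y y')
    (hl : ∀ d ∈ t011, d.P (1 - e) y y'
      (1 * crv T.D.P k c (y + y') - 1 * crv T.D.P j a y) y') :
    OKV V T κ (1 - e) (1 * crv T.D.P j a y) (1 * crv T.D.P k c (y + y')) y y' := by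
  obtain ⟨⟨z, rfl, H⟩, l2⟩ := win_t011 F.q1.nonneg hl
  have ha := inQ_0 F.q1 H.y1
  subst ha
  have h1 := crv_lo G.N j H.y0 H.y1
  have h2 := crv_x5 G.N hj H.y0 H.y1
  have q3 := F.q3
  have l1 := F.len1
  rw [one_mul, one_mul] at *
  rw [hts_add] at l1 l2 q3 ⊢
  obtain ⟨h3, h4, h5⟩ := crv_s G.N q3 hk (by linarith [H.y0, H.z0]) H.u1
  exact t1B G H h1.1 h2 h3 h4 h5 l1 l2

theorem pA2 (G : Hyp V T κ e k1 lo1 hi1) (hk : k = 7 ∨ (k = 3 ∧ b = 1))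
    (F : FactsA T.D.P a b c j k 1 (-1) y y')
    (hl : ∀ d ∈ w011, d.P (1 - e) y y'
      (1 * crv T.D.P j a y + -1 * crv T.D.P k b y') (y + y')) :
    OKV V T κ (1 - e) (1 * crv T.D.P j a y) (1 * crv T.D.P j a y + -1 * crv T.D.P k b y')
      y y' := by
  obtain ⟨z, rfl, H⟩ := win011 F.q1.nonneg hl
  have ha := inQ_0 F.q1 H.y1
  subst ha
  have h1 := crv_lo G.N j H.y0 H.y1
  obtain ⟨h3, h4⟩ := crv_l G.N F.q2 hk H.z0 H.z1
  have l1 := F.len1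
  rw [one_mul, neg_one_mul, ← sub_eq_add_neg] at *
  rw [hts_add] at l1
  exact t2A G H h1.1 h1.2 h3 h4 l1

theorem pA3 (G : Hyp V T κ e k1 lo1 hi1) (hk : k = 0 ∨ (k = 3 ∧ b = 2))
    (F : FactsA T.D.P a b c j k 1 1 y y')
    (hl : ∀ d ∈ w011, d.P (1 - e) y y'
      (1 * crv T.D.P j a y + 1 * crv T.D.P k b y') (y + y')) :
    OKV V T κ (1 - e) (1 * crv T.D.P j a y) (1 * crv T.D.P j a y + 1 * crv T.D.P k b y')
      y y' := by
  obtain ⟨z, rfl, H⟩ := win011 F.q1.nonneg hl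
  have ha := inQ_0 F.q1 H.y1
  subst ha
  have h1 := crv_lo G.N j H.y0 H.y1
  obtain ⟨h3, h4⟩ := crv_s G.N F.q2 hk H.z0 H.z1
  have l3 := F.len3
  rw [one_mul, one_mul] at *
  rw [hts_add] at l3
  exact t3A G H h1.1 h3 l3

theorem pB2 (G : Hyp V T κ e k1 lo1 hi1) (hk : k = 0 ∨ (k = 3 ∧ c = 2))
    (F : FactsB T.D.P a b c j k 1 (-1) y y')
    (hl : ∀ d ∈ w011, d.P (1 - e) y y'
      (-1 * crv T.D.P k c (y + y') - 1 * crv T.D.P j a y) y') :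
    OKV V T κ (1 - e) (1 * crv T.D.P j a y) (-1 * crv T.D.P k c (y + y')) y y' := by
  obtain ⟨z, rfl, H⟩ := win011 F.q1.nonneg hl
  have ha := inQ_0 F.q1 H.y1
  subst ha
  have h1 := crv_lo G.N j H.y0 H.y1
  have q3 := F.q3
  have l3 := F.len3
  rw [one_mul, neg_one_mul] at *
  rw [hts_add] at l3 q3 ⊢
  obtain ⟨h3, h4⟩ := crv_s G.N q3 hk (by linarith [H.y0, H.z0]) H.u1
  exact t2B G H h1.1 h3 l3

theorem pB3 (G : Hyp V T κ e k1 lo1 hi1) (hk : k = 7 ∨ (k = 3 ∧ c = 1))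
    (F : FactsB T.D.P a b c j k 1 1 y y')
    (hl : ∀ d ∈ w011, d.P (1 - e) y y'
      (1 * crv T.D.P k c (y + y') - 1 * crv T.D.P j a y) y') :
    OKV V T κ (1 - e) (1 * crv T.D.P j a y) (1 * crv T.D.P k c (y + y')) y y' := by
  obtain ⟨z, rfl, H⟩ := win011 F.q1.nonneg hl
  have ha := inQ_0 F.q1 H.y1
  subst ha
  have h1 := crv_lo G.N j H.y0 H.y1
  have q3 := F.q3
  have l1 := F.len1
  rw [one_mul, one_mul] at *
  rw [hts_add] at l1 q3 ⊢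
  obtain ⟨h3, h4⟩ := crv_l G.N q3 hk (by linarith [H.y0, H.z0]) H.u1
  exact t3B G H h1.1 h1.2 h3 h4 l1

/-! The mirror images. -/

theorem Nod.hx (N : Nod V T e) : 0 ≤ 1 - e ∧ 1 - e < 1 := ⟨by linarith [N.e1], by linarith [N.e0]⟩

theorem pA1m (G : Hyp V T κ e k1 lo1 hi1) (hk : k = 0 ∨ k = 3 ∨ k = 4)
    (hj : j = 0 ∨ (j = 3 ∧ a = 2)) (F : FactsA T.D.P a b c j k 1 (-1) y y')
    (hl : ∀ d ∈ t101, d.P (1 - e) y y'
      (1 * crv T.D.P j a y + -1 * crv T.D.P k b y') (y + y')) :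
    OKV V T κ (1 - e) (1 * crv T.D.P j a y) (1 * crv T.D.P j a y + -1 * crv T.D.P k b y')
      y y' := by
  obtain ⟨⟨z, rfl, H⟩, l2⟩ := win_t101 F.q2.nonneg hl
  have ha := inQ_0 F.q2 H.y1
  subst ha
  have h1 := crv_lo G.N k H.y0 H.y1
  have h2 := crv_x5 G.N hk H.y0 H.y1
  obtain ⟨h3, h4, h5⟩ := crv_s G.N F.q1 hj H.z0 H.z1
  have l1 := F.len1
  rw [one_mul, neg_one_mul, ← sub_eq_add_neg] at *
  rw [add_comm (1 + z) y', hts_add, ← neg_sub, qqn_neg] at l1 l2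
  refine okv_mir V G.N.hx.1 G.N.hx.2 ?_
  rw [sub_sub_cancel, neg_sub]
  exact t1A G H h1.1 h2 h3 h4 h5 l1 l2

theorem pA2m (G : Hyp V T κ e k1 lo1 hi1) (hj : j = 7 ∨ (j = 3 ∧ a = 1))
    (F : FactsA T.D.P a b c j k 1 (-1) y y')
    (hl : ∀ d ∈ w101, d.P (1 - e) y y'
      (1 * crv T.D.P j a y + -1 * crv T.D.P k b y') (y + y')) :
    OKV V T κ (1 - e) (1 * crv T.D.P j a y) (1 * crv T.D.P j a y + -1 * crv T.D.P k b y')
      y y' := by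
  obtain ⟨z, rfl, H⟩ := win101 F.q2.nonneg hl
  have ha := inQ_0 F.q2 H.y1
  subst ha
  have h1 := crv_lo G.N k H.y0 H.y1
  obtain ⟨h3, h4⟩ := crv_l G.N F.q1 hj H.z0 H.z1
  have l1 := F.len1
  rw [one_mul, neg_one_mul, ← sub_eq_add_neg] at *
  rw [add_comm (1 + z) y', hts_add, ← neg_sub, qqn_neg] at l1
  refine okv_mir V G.N.hx.1 G.N.hx.2 ?_
  rw [sub_sub_cancel, neg_sub]
  exact t2A G H h1.1 h1.2 h3 h4 l1

theorem pA3m (G : Hyp V T κ e k1 lo1 hi1) (hj : j = 0 ∨ (j = 3 ∧ a = 2))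
    (F : FactsA T.D.P a b c j k (-1) (-1) y y')
    (hl : ∀ d ∈ w101, d.P (1 - e) y y'
      (-1 * crv T.D.P j a y + -1 * crv T.D.P k b y') (y + y')) :
    OKV V T κ (1 - e) (-1 * crv T.D.P j a y) (-1 * crv T.D.P j a y + -1 * crv T.D.P k b y')
      y y' := by
  obtain ⟨z, rfl, H⟩ := win101 F.q2.nonneg hl
  have ha := inQ_0 F.q2 H.y1
  subst ha
  have h1 := crv_lo G.N k H.y0 H.y1
  obtain ⟨h3, h4⟩ := crv_s G.N F.q1 hj H.z0 H.z1
  have l3 := F.len3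
  have e1 : -1 * crv T.D.P j a (1 + z) + -1 * crv T.D.P k 0 y' =
    -(crv T.D.P k 0 y' + crv T.D.P j a (1 + z)) := by ring
  rw [e1] at l3 ⊢
  rw [add_comm (1 + z) y', hts_add, qqn_neg] at l3
  refine okv_mir V G.N.hx.1 G.N.hx.2 ?_
  rw [neg_neg, show -1 * crv T.D.P j a (1 + z) - -(crv T.D.P k 0 y' + crv T.D.P j a (1 + z)) =
    crv T.D.P k 0 y' by ring]
  exact t3A G H h1.1 h3 l3

theorem pB1m (G : Hyp V T κ e k1 lo1 hi1) (hj : j = 0 ∨ (j = 3 ∧ a = 2))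
    (hk : k = 0 ∨ (k = 3 ∧ c = 2)) (F : FactsB T.D.P a b c j k 1 (-1) y y')
    (hl : ∀ d ∈ s101, d.P (1 - e) y y'
      (-1 * crv T.D.P k c (y + y') - 1 * crv T.D.P j a y) y') :
    OKV V T κ (1 - e) (1 * crv T.D.P j a y) (-1 * crv T.D.P k c (y + y')) y y' := by
  obtain ⟨⟨z, rfl, H⟩, l2⟩ := win_s101 F.q2.nonneg hl
  obtain ⟨h1, h2, -⟩ := crv_s G.N F.q1 hj H.z0 H.z1
  have q3 := F.q3
  have l1 := F.len1
  have e1 : -1 * crv T.D.P k c (1 + z + y') - 1 * crv T.D.P j a (1 + z) =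
    -(crv T.D.P j a (1 + z) + crv T.D.P k c (1 + z + y')) := by ring
  rw [e1, qqn_neg] at l1 l2
  rw [one_mul, neg_one_mul]
  rw [add_comm (1 + z) y', hts_add] at *
  obtain ⟨h3, h4, -⟩ := crv_s G.N q3 hk (by linarith [H.y0, H.z0]) H.u1
  refine okv_mir V G.N.hx.1 G.N.hx.2 ?_
  rw [neg_neg, sub_neg_eq_add]
  exact t1C G H h1 h2 h3 h4 l1 l2

theorem pB2m (G : Hyp V T κ e k1 lo1 hi1) (hj : j = 7 ∨ (j = 3 ∧ a = 1))
    (hk : k = 0 ∨ (k = 3 ∧ c = 2)) (F : FactsB T.D.P a b c j k 1 1 y y')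
    (hl : ∀ d ∈ w101, d.P (1 - e) y y'
      (1 * crv T.D.P k c (y + y') - 1 * crv T.D.P j a y) y') :
    OKV V T κ (1 - e) (1 * crv T.D.P j a y) (1 * crv T.D.P k c (y + y')) y y' := by
  obtain ⟨z, rfl, H⟩ := win101 F.q2.nonneg hl
  obtain ⟨h1, h2⟩ := crv_l G.N F.q1 hj H.z0 H.z1
  have q3 := F.q3
  have l1 := F.len1
  rw [one_mul, one_mul] at *
  rw [← neg_sub, qqn_neg] at l1
  rw [add_comm (1 + z) y', hts_add] at *
  obtain ⟨h3, -, h5⟩ := crv_s G.N q3 hk (by linarith [H.y0, H.z0]) H.u1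
  refine okv_mir V G.N.hx.1 G.N.hx.2 ?_
  exact t2C G H h1 h2 h3 h5 l1

theorem pB3m (G : Hyp V T κ e k1 lo1 hi1) (hj : j = 0 ∨ (j = 3 ∧ a = 2))
    (hk : k = 7 ∨ (k = 3 ∧ c = 1)) (F : FactsB T.D.P a b c j k (-1) (-1) y y')
    (hl : ∀ d ∈ w101, d.P (1 - e) y y'
      (-1 * crv T.D.P k c (y + y') - -1 * crv T.D.P j a y) y') :
    OKV V T κ (1 - e) (-1 * crv T.D.P j a y) (-1 * crv T.D.P k c (y + y')) y y' := by
  obtain ⟨z, rfl, H⟩ := win101 F.q2.nonneg hl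
  obtain ⟨h1, -, h2⟩ := crv_s G.N F.q1 hj H.z0 H.z1
  have q3 := F.q3
  have l1 := F.len1
  have e1 : -1 * crv T.D.P k c (1 + z + y') - -1 * crv T.D.P j a (1 + z) =
    -(crv T.D.P k c (1 + z + y') - crv T.D.P j a (1 + z)) := by ring
  rw [e1, qqn_neg] at l1
  rw [neg_one_mul, neg_one_mul]
  rw [add_comm (1 + z) y', hts_add] at *
  obtain ⟨h3, h4⟩ := crv_l G.N q3 hk (by linarith [H.y0, H.z0]) H.u1
  refine okv_mir V G.N.hx.1 G.N.hx.2 ?_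
  rw [neg_neg, neg_sub_neg]
  exact t3C G H h1 h2 h3 h4 l1

end

end Pool.Agent.Strip051.LC.E1
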