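import Pool.Agent.Strip051.LC.E1.Near

/-! # Rests near the full period: the cube `(1, 1, 2)` -/

namespace Pool.Agent.Strip051.LC.E1

open Pool.Agent.StripNear Pool.Agent.StripSquare Pool.Agent.Strip051 Pool.Agent.Strip051.Sweep
open Pool.Agent.Strip051.PB
open Pool.Agent.Strip051.LC
open Pool.Agent.Strip051.LC.E0.G (om qw cc1 xi1 sg1 cc3 xi3 sg3 xiw dwl dwu)
open G

/-- The cube `(1, 1, 2)`. -/
def w112 : List Cc := [⟨0, 1, 0, 67108864⟩, ⟨1, 1, 0, 67108864⟩, ⟨2, 2, 0, 67108864⟩]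
/-- The cube `(1, 1, 2)`, the third side is short. -/
def t112 : List Cc :=
  [⟨0, 1, 0, 67108864⟩, ⟨1, 1, 0, 67108864⟩, ⟨2, 2, 0, 67108864⟩, ⟨3, 0, 0, 1233125376⟩]

/-- The statement of the vertical cube. -/
def VCube (V : Vx) (T : Tbs 7) (κ e : ℝ) : Prop :=
  ∀ X12 X13 y y' : ℝ, 15 / 16 < y → y < 17 / 16 → 15 / 16 < y' → y' < 17 / 16 →
    31 / 16 < y + y' → y + y' ≤ 2 →
    (X12 = c1n y ∨ (1 ≤ y ∧ c1n y ≤ X12 ∧ X12 ≤ swn y - 1 / 2)) → c1n y' ≤ X12 - X13 →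
    (X12 - X13) ^ 2 + 3 / 4 * y' ^ 2 ≤ 147 / 128 → X13 ^ 2 + 3 / 4 * (y + y') ^ 2 ≤ 3 →
    OKV V T κ (1 - e) X12 X13 y y'

section

variable {x y y' X Y : ℝ}

theorem win112 (h : ∀ d ∈ w112, d.P x y y' X Y) :
    15 / 16 < y ∧ y < 17 / 16 ∧ 15 / 16 < y' ∧ y' < 17 / 16 ∧ 31 / 16 < y + y' := by
  have h1 := cc_0 (c := 1) (n := 1) (by norm_num) (h _ (by simp [w112]))
  have h2 := cc_1 (c := 1) (n := 1) (by norm_num) (h _ (by simp [w112]))
  have h3 := cc_2 (c := 2) (n := 2) (by norm_num) (h _ (by simp [w112]))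
  rw [abs_lt] at h1 h2 h3
  exact ⟨by linarith [h1.1], by linarith [h1.2], by linarith [h2.1], by linarith [h2.2],
    by linarith [h3.1]⟩

theorem win_t112 (h : ∀ d ∈ t112, d.P x y y' X Y) :
    (15 / 16 < y ∧ y < 17 / 16 ∧ 15 / 16 < y' ∧ y' < 17 / 16 ∧ 31 / 16 < y + y') ∧
      qqn X Y < 147 / 128 := by
  refine ⟨win112 fun d hd => h d ?_, lt_of_lt_of_eq (cc_3 (h _ (by simp [t112]; rfl))) ?_⟩
  · simp only [w112, t112, List.mem_cons, List.not_mem_nil, or_false] at hd ⊢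
    tauto
  · push_cast
    norm_num

end

section

variable {V : Vx} {T : Tbs 7} {κ e y y' : ℝ} {a b c : ℕ} {j k : Fin 8}

theorem c1w (h0 : 15 / 16 < y) (h1 : y < 17 / 16) : 39 / 100 ≤ c1n y ∧ c1n y ≤ 3 / 5 := by
  have a := c1_lo (z := y - 1) (by linarith) (by linarith)
  have b := c1_le (z := y - 1) (by linarith) (by linarith)
  rw [add_sub_cancel] at a b
  exact ⟨a, b⟩

/-- The nodes next to `(1 / 2, 1)`, for the vertical cube. -/
theorem crv_v (N : Nod V T e) {k : Fin 8} {q : ℕ} (hq : InQ q y)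
    (hk : k = 0 ∨ (k = 3 ∧ q = 2)) (h0 : 15 / 16 < y) (h1 : y < 17 / 16) :
    crv T.D.P k q y = c1n y ∨
      (1 ≤ y ∧ c1n y ≤ crv T.D.P k q y ∧ crv T.D.P k q y ≤ swn y - 1 / 2) := by
  rcases hk with rfl | ⟨rfl, rfl⟩
  · left
    exact N.cv0 _ _
  · right
    have hy : 1 ≤ y := hq.1
    have b1 := c1_W (z := y - 1) (by linarith) (by linarith)
    rw [add_sub_cancel] at b1
    rw [N.cv3, wn_true _ (by norm_num)]
    exact ⟨hy, b1, le_rfl⟩

/-- The pairs of the family `A`. -/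
theorem pAv (N : Nod V T e) (G : VCube V T κ e) (hj : j = 0 ∨ (j = 3 ∧ a = 2))
    (hk : k = 0 ∨ (k = 3 ∧ b = 2)) (F : FactsA T.D.P a b c j k 1 (-1) y y')
    (hl : ∀ d ∈ w112, d.P (1 - e) y y'
      (1 * crv T.D.P j a y + -1 * crv T.D.P k b y') (y + y')) :
    OKV V T κ (1 - e) (1 * crv T.D.P j a y) (1 * crv T.D.P j a y + -1 * crv T.D.P k b y')
      y y' := by
  obtain ⟨y0, y1, y2, y3, y4⟩ := win112 hl
  have h1 := crv_v N F.q1 hj y0 y1
  have h2 := crv_v N F.q2 hk y2 y3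
  have l3 := F.len3
  have h5 := F.q3.le_two
  obtain ⟨c1, c2⟩ := c1w y2 y3
  rw [one_mul, neg_one_mul, ← sub_eq_add_neg] at *
  refine G _ _ _ _ y0 y1 y2 y3 y4 h5 h1 ?_ ?_ l3
  · rw [sub_sub_cancel]
    rcases h2 with h | h
    · exact h.ge
    · exact h.2.1
  · rw [sub_sub_cancel]
    rcases h2 with h | ⟨h, h', h''⟩
    · rw [h]
      have e1 : c1n y' ^ 2 = 1 - 3 / 4 * y' ^ 2 := by
        unfold c1n
        exact Real.sq_sqrt (by nlinarith)
      rw [e1]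
      norm_num
    · have e1 : swn y' ≤ 1 := by
        have : y' = 1 + (y' - 1) := by ring
        rw [this, swn_c1n]
        exact c1n_le1 _
      nlinarith

/-- The pairs of the family `B`. -/
theorem pBv (N : Nod V T e) (G : VCube V T κ e) {σ : ℝ} (hj : j = 0 ∨ (j = 3 ∧ a = 2))
    (F : FactsB T.D.P a b c j k 1 σ y y')
    (hl : ∀ d ∈ t112, d.P (1 - e) y y'
      (σ * crv T.D.P k c (y + y') - 1 * crv T.D.P j a y) y')
    (h3 : (σ * crv T.D.P k c (y + y')) ^ 2 + 3 / 4 * (y + y') ^ 2 ≤ 3) :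
    OKV V T κ (1 - e) (1 * crv T.D.P j a y) (σ * crv T.D.P k c (y + y')) y y' := by
  obtain ⟨⟨y0, y1, y2, y3, y4⟩, l2⟩ := win_t112 hl
  have h1 := crv_v N F.q1 hj y0 y1
  have l1 := F.len1
  have h5 := F.q3.le_two
  obtain ⟨c1, c2⟩ := c1w y2 y3
  obtain ⟨c3, c4⟩ := c1w y0 y1
  rw [one_mul] at *
  generalize crv T.D.P j a y = P at *
  generalize σ * crv T.D.P k c (y + y') = Q at *
  have hP : 39 / 100 ≤ P := by
    rcases h1 with h | h
    · rw [h]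
      exact c3
    · linarith [h.2.1]
  have hQ : Q ≤ 1 / 2 := by
    by_contra hh
    push Not at hh
    nlinarith
  have hn : 0 ≤ P - Q := by
    by_contra hh
    push Not at hh
    have := q_c1 l1 (by linarith)
    linarith
  rw [← neg_sub, qqn_neg] at l1 l2
  have := q_c1 l1 hn
  unfold qqn at l2
  exact G _ _ _ _ y0 y1 y2 y3 y4 h5 h1 this l2.le h3

/-- All nodes are inside of the circle of radius `√3`. -/
theorem crv_in (N : Nod V T e) {k : Fin 8} {σ : ℝ} (hσ : σ = 1 ∨ σ = -1)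
    (h0 : 31 / 16 < y) (h2 : y ≤ 2) {q : ℕ} (hq : InQ q y) :
    (σ * crv T.D.P k q y) ^ 2 + 3 / 4 * y ^ 2 ≤ 3 := by
  have hσ2 : σ ^ 2 = 1 := by
    rcases hσ with rfl | rfl <;> norm_num
  have hq3 : q = 3 := by
    match q, hq with
    | 0, h => exact absurd h.2 (by linarith)
    | 1, h => exact absurd h.2 (by linarith)
    | 2, h => exact absurd h.2 (by linarith)
    | 3, _ => rfl
    | _ + 4, h => exact h.elim
  subst hq3
  have e0 := N.e0
  have e1 := N.e1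
  obtain ⟨W, hW⟩ : ∃ W, W = Wn (decide (2 ≤ 3)) y := ⟨_, rfl⟩
  have hw := wn_true y (q := 3) (by norm_num)
  rw [← hW] at hw
  have c0 : c1n y = 0 := by
    unfold c1n
    refine Real.sqrt_eq_zero_of_nonpos ?_
    nlinarith
  have c3 : c3n y ^ 2 = 3 - 3 / 4 * y ^ 2 := by
    unfold c3n
    exact Real.sq_sqrt (by nlinarith)
  have c3' : 0 ≤ c3n y := Real.sqrt_nonneg _
  have s2 : swn y ^ 2 = 1 - 3 / 4 * (y - 1) ^ 2 := by
    unfold swn
    exact Real.sq_sqrt (by nlinarith)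
  have s0 : 1 / 2 ≤ swn y := by
    unfold swn
    refine Real.le_sqrt_of_sq_le ?_
    nlinarith
  have w0 : 0 ≤ W := by linarith
  have w1 : W ≤ c3n y := by
    by_contra hh
    push Not at hh
    have hs : swn y ≤ 3 / 5 := by
      by_contra h4
      push Not at h4
      nlinarith
    nlinarith
  have key : 0 ≤ crv T.D.P k 3 y ∧ crv T.D.P k 3 y ≤ c3n y := by
    fin_cases k
    · show 0 ≤ crv T.D.P 0 3 y ∧ crv T.D.P 0 3 y ≤ _
      rw [N.cv0, c0]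
      exact ⟨le_rfl, c3'⟩
    · show 0 ≤ crv T.D.P 1 3 y ∧ crv T.D.P 1 3 y ≤ _
      rw [N.cv1, ← hW, c0]
      exact ⟨by linarith, by linarith⟩
    · show 0 ≤ crv T.D.P 2 3 y ∧ crv T.D.P 2 3 y ≤ _
      rw [N.cv2, ← hW, c0]
      exact ⟨by linarith, by linarith⟩
    · show 0 ≤ crv T.D.P 3 3 y ∧ crv T.D.P 3 3 y ≤ _
      rw [N.cv3, ← hW]
      exact ⟨by linarith, by linarith⟩
    · show 0 ≤ crv T.D.P 4 3 y ∧ crv T.D.P 4 3 y ≤ _
      rw [N.cv4, ← hW]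
      have : 0 ≤ e * (c3n y - W) := mul_nonneg e0.le (by linarith)
      constructor <;> nlinarith
    · show 0 ≤ crv T.D.P 5 3 y ∧ crv T.D.P 5 3 y ≤ _
      rw [N.cv5, ← hW]
      exact ⟨by linarith, by linarith⟩
    · show 0 ≤ crv T.D.P 6 3 y ∧ crv T.D.P 6 3 y ≤ _
      rw [N.cv6, ← hW]
      exact ⟨by linarith, by linarith⟩
    · show 0 ≤ crv T.D.P 7 3 y ∧ crv T.D.P 7 3 y ≤ _
      rw [N.cv7]
      exact ⟨c3', le_rfl⟩
  rw [mul_pow, hσ2, one_mul]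
  nlinarith [key.1, key.2]

theorem pBv' (N : Nod V T e) (G : VCube V T κ e) {σ : ℝ} (hσ : σ = 1 ∨ σ = -1)
    (hj : j = 0 ∨ (j = 3 ∧ a = 2)) (F : FactsB T.D.P a b c j k 1 σ y y')
    (hl : ∀ d ∈ t112, d.P (1 - e) y y'
      (σ * crv T.D.P k c (y + y') - 1 * crv T.D.P j a y) y') :
    OKV V T κ (1 - e) (1 * crv T.D.P j a y) (σ * crv T.D.P k c (y + y')) y y' :=
  pBv N G hj F hl (crv_in N hσ (win_t112 hl).1.2.2.2.2 F.q3.le_two F.q3)

end

end Pool.Agent.Strip051.LC.E1
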