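import Pool.Agent.Strip051.LC.E1.Hom

/-! # Rests near the full period: what is used of the tables

`Nod V T e` are the values of the tables at the nodes in the windows next to the lattice heights,
for the rest `1 - e`; `Nod.H1` .. `Nod.V3` are the values between the nodes, in all scales. -/

namespace Pool.Agent.Strip051.LC.E1

open Pool.Agent.StripNear Pool.Agent.StripSquare Pool.Agent.Strip051 Pool.Agent.Strip051.Sweep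
open Pool.Agent.Strip051.PB
open Pool.Agent.Strip051.LC.E0.G (om qw cc1 xi1 sg1 cc3 xi3 sg3 xiw dwl dwu)
open G

/-- The values at the node `j` in the quarter `q` at the height `y`, next to the lattice point with
the abscissa `p`. -/
structure NV {n : ℕ} (V : Vx) (T : Tbs n) (e : ℝ) (j : Fin (n + 1)) (q : ℕ) (p y : ℝ)
    (s : Sv) : Prop where
  K : T.R V j q y (1 - e) =
    match V with
    | .far => p + s.k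
    | .near => be e * p + nk e s.k s.b
  L : T.RL j q y (1 - e) = LAM e * (crv T.D.P j q y - p) + s.c 1

namespace G

/-- The values on the curve `.2` below `h0`. -/
noncomputable def na (e z : ℝ) : Sv :=
  ⟨xa z 1 * fKa 1 z - 1 / 2, LAM e * (xa z 1 * fXa 1 e z + 1 / 2), 0,
    xa z 1 * fBa 1 z - B0 e / 2⟩

/-- The values on the curve `.6` below `h0`. -/
noncomputable def nc (e z : ℝ) : Sv :=
  ⟨xc z 1 * fKc 1 z - 3 / 2, LAM e * (xc z 1 * fXc 1 e z + 3 / 2), 0,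
    xc z 1 * fBc 1 z - 3 / 2 * B0 e⟩

/-- The values on the curve `1.15` above `h0`. -/
noncomputable def nb (e z : ℝ) : Sv :=
  ⟨xb z 1 * fKb 1 z - 1 / 2, LAM e * (xb z 1 * fXb 1 e z + 1 / 2), 0,
    xb z 1 * fBb 1 z - B0 e / 2⟩

/-- The values on the curve `1.6` above `h0`. -/
noncomputable def nd (e z : ℝ) : Sv :=
  ⟨xd z 1 * fKd 1 z - 3 / 2, LAM e * (xd z 1 * fXd 1 e z + 3 / 2), 0,
    xd z 1 * fBd 1 z - 3 / 2 * B0 e⟩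

/-- The values on the curve `1.15` next to the height `0`. -/
noncomputable def n5 (e y : ℝ) : Sv :=
  ⟨(Q0 1 e y).k - (1 + (Q0 1 e y).k) * ((3 / 20 - 11 / 5 * e) / (1 - 11 / 5 * e)), c5 1 e y, 0,
    (Q0 1 e y).b - (B0 e + (Q0 1 e y).b) * ((3 / 20 - 11 / 5 * e) / (1 - 11 / 5 * e))⟩

/-- The values on the curve `1.15` below `2 h0`. -/
noncomputable def n53 (e u : ℝ) : Sv :=
  ⟨(W3 1 e u).k + 3 / 20 * ((C33 1 e u).k - (W3 1 e u).k), 0, v5 1 e u,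
    (W3 1 e u).b + 3 / 20 * ((C33 1 e u).b - (W3 1 e u).b)⟩

/-- The values on the curve `1.6` below `2 h0`. -/
noncomputable def n63 (e u : ℝ) : Sv :=
  ⟨(W3 1 e u).k + 3 / 5 * ((C33 1 e u).k - (W3 1 e u).k), 0, v6 1 e u,
    (W3 1 e u).b + 3 / 5 * ((C33 1 e u).b - (W3 1 e u).b)⟩

end G

/-- **What is used of the tables** at the vertex `V` for the rest `1 - e`. -/
structure Nod (V : Vx) (T : Tbs 7) (e : ℝ) : Prop where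
  e0 : 0 < e
  e1 : e ≤ 1 / 40
  pK : PinsV T.D (T.R V) (1 - e)
  pL : PinsV T.D T.RL (1 - e)
  cv0 : ∀ (q : ℕ) (y : ℝ), crv T.D.P 0 q y = c1n y
  cv1 : ∀ (q : ℕ) (y : ℝ), crv T.D.P 1 q y =
    c1n y * (1 - 1 / 5) + Wn (decide (2 ≤ q)) y * (1 / 5)
  cv2 : ∀ (q : ℕ) (y : ℝ), crv T.D.P 2 q y =
    c1n y * (1 - 3 / 5) + Wn (decide (2 ≤ q)) y * (3 / 5)
  cv3 : ∀ (q : ℕ) (y : ℝ), crv T.D.P 3 q y = Wn (decide (2 ≤ q)) y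
  cv4 : ∀ (q : ℕ) (y : ℝ), crv T.D.P 4 q y =
    Wn (decide (2 ≤ q)) y + 11 / 5 * e * (c3n y - Wn (decide (2 ≤ q)) y)
  cv5 : ∀ (q : ℕ) (y : ℝ), crv T.D.P 5 q y =
    Wn (decide (2 ≤ q)) y * (2 - 23 / 20) + c3n y * (23 / 20 - 1)
  cv6 : ∀ (q : ℕ) (y : ℝ), crv T.D.P 6 q y =
    Wn (decide (2 ≤ q)) y * (2 - 8 / 5) + c3n y * (8 / 5 - 1)
  cv7 : ∀ (q : ℕ) (y : ℝ), crv T.D.P 7 q y = c3n y
  r1 : ∀ y, T.D.r 1 y → (1 / 16 < y ∧ y < 1) ∨ (17 / 16 < y ∧ y ≤ 31 / 16)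
  r2 : ∀ y, T.D.r 2 y → (1 / 16 < y ∧ y < 1) ∨ (17 / 16 < y ∧ y ≤ 31 / 16)
  r4 : ∀ y, T.D.r 4 y → y ≤ 1 / 16
  r5 : ∀ y, T.D.r 5 y → y ≤ 15 / 16 ∨ 1 ≤ y
  r6 : ∀ y, T.D.r 6 y → y ≤ 15 / 16 ∨ 1 ≤ y
  n00 : ∀ y, 0 ≤ y → y < 1 / 16 → NV V T e 0 0 1 y (S1 1 e y)
  n30 : ∀ y, 0 ≤ y → y < 1 / 16 → NV V T e 3 0 1 y (W0 1 e y)
  n40 : ∀ y, 0 ≤ y → y < 1 / 16 → NV V T e 4 0 1 y (Q0 1 e y)
  n50 : ∀ y, 0 ≤ y → y < 1 / 16 → NV V T e 5 0 1 y (n5 e y)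
  n01 : ∀ z, -(1 / 16) < z → z < 0 → NV V T e 0 1 (1 / 2) (1 + z) (C1d 1 e z)
  n11 : ∀ z, -(1 / 16) < z → z < 0 → NV V T e 1 1 (1 / 2) (1 + z) (na e z)
  n21 : ∀ z, -(1 / 16) < z → z < 0 → NV V T e 2 1 (3 / 2) (1 + z) (nc e z)
  n31 : ∀ z, -(1 / 16) < z → z < 0 → NV V T e 3 1 (3 / 2) (1 + z) (W1 1 e z)
  n71 : ∀ z, -(1 / 16) < z → z < 0 → NV V T e 7 1 (3 / 2) (1 + z) (C3d 1 e z)
  n02 : ∀ z, 0 ≤ z → z < 1 / 16 → NV V T e 0 2 (1 / 2) (1 + z) (C1u 1 e z)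
  n32 : ∀ z, 0 ≤ z → z < 1 / 16 → NV V T e 3 2 (1 / 2) (1 + z) (W2 1 e z)
  n52 : ∀ z, 0 ≤ z → z < 1 / 16 → NV V T e 5 2 (1 / 2) (1 + z) (nb e z)
  n62 : ∀ z, 0 ≤ z → z < 1 / 16 → NV V T e 6 2 (3 / 2) (1 + z) (nd e z)
  n72 : ∀ z, 0 ≤ z → z < 1 / 16 → NV V T e 7 2 (3 / 2) (1 + z) (C3u 1 e z)
  n33 : ∀ u, -(1 / 16) < u → u ≤ 0 → NV V T e 3 3 0 (2 + u) (W3 1 e u)
  n53 : ∀ u, -(1 / 16) < u → u ≤ 0 → NV V T e 5 3 0 (2 + u) (n53 e u)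
  n63 : ∀ u, -(1 / 16) < u → u ≤ 0 → NV V T e 6 3 0 (2 + u) (n63 e u)
  n73 : ∀ u, -(1 / 16) < u → u ≤ 0 → NV V T e 7 3 0 (2 + u) (C33 1 e u)

end Pool.Agent.Strip051.LC.E1
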