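import Pool.Agent.Strip051.LC.E1.NodS

/-! # Rests near the full period: the values on all pieces -/

namespace Pool.Agent.Strip051.LC.E1

open Pool.Agent.StripNear Pool.Agent.StripSquare Pool.Agent.Strip051 Pool.Agent.Strip051.Sweep
open Pool.Agent.Strip051.PB
open Pool.Agent.Strip051.LC.E0.G (om qw cc1 xi1 sg1 cc3 xi3 sg3 xiw dwl dwu)
open G

section

variable {V : Vx} {T : Tbs 7} {e p xi y z : ℝ} {s : Sv}

theorem dQ_pos (h0 : 0 ≤ y) (h1 : y < 1 / 16) : 0 < dQ 1 y := by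
  have h2 := xi1_pos' (z := -y) (by linarith) (by linarith)
  have h3 : (17 / 10 : ℝ) ≤ Real.sqrt (3 - 3 / 4 * (1 * y) ^ 2) := by
    refine Real.le_sqrt_of_sq_le ?_
    nlinarith
  unfold dQ
  linarith

/-- The values at a node. -/
theorem NV.sd (h : Nod V T e) {j : Fin 8} {q : ℕ} (hq : InQ q y) (hv : NV V T e j q p y s)
    (hx : p + xi = crv T.D.P j q y) : Sd V T 1 e p xi y s := by
  refine sd_mk ?_ ?_
  · rw [hx, kv_cv h.pK j hq, hv.K]
    cases V <;> rfl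
  · rw [hx, kv_cv h.pL j hq, hv.L, ← hx]
    ring

theorem Nod.sdH1 (h : Nod V T e) (h0 : 0 ≤ y) (h1 : y < 1 / 16) (x0 : -om y 1 ≤ xi)
    (x1 : xi ≤ xi1 (-y) 1) : Sd V T 1 e 1 xi y (H1 xi 1 e y) := by
  have a0 := h.x00 h0 h1
  have a1 := h.x30 h0 h1
  refine sd_lin h.pK h.pL (i := 0) (j := 3) (q := 0) (inq0 h0 h1) ?_ (by rw [a0]; linarith)
    (by rw [a1]; linarith) (h.n00 y h0 h1) (h.n30 y h0 h1) (t := _) rfl ?_ ?_ ?_
  · intro k hk
    fin_cases k
    · left; decide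
    · rcases h.r1 _ hk with ⟨h2, -⟩ | ⟨h2, -⟩ <;> linarith
    · rcases h.r2 _ hk with ⟨h2, -⟩ | ⟨h2, -⟩ <;> linarith
    all_goals right; decide
  all_goals
    rw [a0, a1, show (1 + xi - (1 + -om y 1)) / (1 + xi1 (-y) 1 - (1 + -om y 1)) =
      (xi + 1 * om y 1) / (xi1 (-y) 1 + 1 * om y 1) by congr 1 <;> ring]
    simp only [H1, Sv.c, S1, W0, mul_one, div_one]
    try ring

theorem Nod.sdH2 (h : Nod V T e) (h0 : 0 ≤ y) (h1 : y < 1 / 16) (x0 : xi1 (-y) 1 ≤ xi)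
    (x1 : xi ≤ xiq 1 e y) : Sd V T 1 e 1 xi y (H2 xi 1 e y) := by
  have a0 := h.x30 h0 h1
  have a1 := h.x40 h0 h1
  refine sd_lin h.pK h.pL (i := 3) (j := 4) (q := 0) (inq0 h0 h1) ?_ (by rw [a0]; linarith)
    (by rw [a1]; linarith) (h.n30 y h0 h1) (h.n40 y h0 h1) (t := _) rfl ?_ ?_ ?_
  · intro k _
    fin_cases k
    iterate 4 left; decide
    all_goals right; decide
  all_goals
    rw [a0, a1, show (1 + xi - (1 + xi1 (-y) 1)) / (1 + xiq 1 e y - (1 + xi1 (-y) 1)) =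
      (xi - xi1 (-y) 1) / (11 / 5 * e * dQ 1 y) by unfold xiq; congr 1 <;> ring]
    simp only [H2, Sv.c, Q0, W0, mul_one, div_one]
    try ring

theorem Nod.sdH3 (h : Nod V T e) (h0 : 0 ≤ y) (h1 : y < 1 / 16) (x0 : xiq 1 e y ≤ xi)
    (x1 : xi ≤ xi1 (-y) 1 + 3 / 20 * dQ 1 y) : Sd V T 1 e 1 xi y (H3 xi 1 e y) := by
  have a0 := h.x40 h0 h1
  have a1 := h.x50 h0 h1
  have he : 3 / 20 - 11 / 5 * e ≠ 0 := by
    have := h.e1
    intro h2
    linarith
  have he' : 1 - 11 / 5 * e ≠ 0 := by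
    have := h.e1
    intro h2
    linarith
  have hd := (dQ_pos h0 h1).ne'
  refine sd_lin h.pK h.pL (i := 4) (j := 5) (q := 0) (inq0 h0 h1) ?_ (by rw [a0]; linarith)
    (by rw [a1]; linarith) (h.n40 y h0 h1) (h.n50 y h0 h1) (t := _) rfl ?_ ?_ ?_
  · intro k _
    fin_cases k
    iterate 5 left; decide
    all_goals right; decide
  all_goals
    rw [a0, a1, show (1 + xi - (1 + xiq 1 e y)) /
        (1 + (xi1 (-y) 1 + 3 / 20 * dQ 1 y) - (1 + xiq 1 e y)) =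
      (xi - xiq 1 e y) / ((3 / 20 - 11 / 5 * e) * dQ 1 y) by
        rw [show 1 + (xi1 (-y) 1 + 3 / 20 * dQ 1 y) - (1 + xiq 1 e y) =
          (3 / 20 - 11 / 5 * e) * dQ 1 y by unfold xiq; ring]
        congr 1
        ring]
    simp only [G.H3, Sv.c, n5, mul_one, div_one, one_mul]
  · generalize (Q0 1 e y).k = A
    generalize 3 / 20 - 11 / 5 * e = P at he ⊢
    generalize 1 - 11 / 5 * e = Q at he' ⊢
    field_simp
    ring
  · generalize (Q0 1 e y).b = A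
    generalize 3 / 20 - 11 / 5 * e = P at he ⊢
    generalize 1 - 11 / 5 * e = Q at he' ⊢
    field_simp
    ring
  · simp only [Q0]
    ring

theorem Nod.sdPa (h : Nod V T e) (h0 : -(1 / 16) < z) (h1 : z < 0) (x0 : xi1 z 1 ≤ xi)
    (x1 : 1 / 2 + xi ≤ xa z 1) : Sd V T 1 e (1 / 2) xi (1 + z) (Pa xi 1 e z) := by
  have a0 := h.x01 1 h0 (by linarith)
  have a1 := h.x11 h0 (by linarith)
  refine sd_lin h.pK h.pL (i := 0) (j := 1) (q := 1) (inq1 h0 h1) ?_ (by rw [a0]; linarith)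
    (by rw [a1]; linarith) (h.n01 z h0 h1) (h.n11 z h0 h1) (t := _) rfl ?_ ?_ ?_
  · intro k _
    fin_cases k
    iterate 1 left; decide
    all_goals right; decide
  all_goals
    rw [a0, a1, show (1 / 2 + xi - (1 / 2 + xi1 z 1)) / (xa z 1 - (1 / 2 + xi1 z 1)) =
      5 * (xi - xi1 z 1) / dwl z 1 by
        rw [show xa z 1 - (1 / 2 + xi1 z 1) = dwl z 1 / 5 by unfold xa; ring]
        rw [show 1 / 2 + xi - (1 / 2 + xi1 z 1) = xi - xi1 z 1 by ring]
        rw [div_div_eq_mul_div]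
        ring]
    simp only [Pa, Sv.c, na, C1d, mul_one, div_one]
    try ring

theorem Nod.sdPc (h : Nod V T e) (h0 : -(1 / 16) < z) (h1 : z < 0) (x0 : xc z 1 ≤ 3 / 2 + xi)
    (x1 : xi ≤ xiw z 1) : Sd V T 1 e (3 / 2) xi (1 + z) (Pc xi 1 e z) := by
  have a0 := h.x21 h0 (by linarith)
  have a1 := h.x31 h0 (by linarith)
  have hd : dwl z 1 ≠ 0 := by
    have h2 := xi1_pos' h0.le h1.le
    have h3 := om_le (y := z) (by nlinarith)
    unfold dwl xiw
    nlinarith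
  refine sd_lin h.pK h.pL (i := 2) (j := 3) (q := 1) (inq1 h0 h1) ?_ (by rw [a0]; linarith)
    (by rw [a1]; linarith) (h.n21 z h0 h1) (h.n31 z h0 h1) (t := _) rfl ?_ ?_ ?_
  · intro k _
    fin_cases k
    iterate 3 left; decide
    all_goals right; decide
  all_goals
    rw [a0, a1, show (3 / 2 + xi - xc z 1) / (3 / 2 + xiw z 1 - xc z 1) =
      1 + 5 * (xi - xiw z 1) / (2 * dwl z 1) by
        rw [show 3 / 2 + xiw z 1 - xc z 1 = 2 / 5 * dwl z 1 by unfold xc; ring]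
        rw [show 3 / 2 + xi - xc z 1 = 2 / 5 * dwl z 1 + (xi - xiw z 1) by unfold xc; ring]
        field_simp]
    simp only [Pc, Sv.c, nc, W1, mul_one, div_one]
    try ring

theorem Nod.sdP3 (h : Nod V T e) (h0 : -(1 / 16) < z) (h1 : z < 0) (x0 : xiw z 1 ≤ xi)
    (x1 : xi ≤ xi3 z 1) : Sd V T 1 e (3 / 2) xi (1 + z) (G.P3 xi 1 e z) := by
  have a0 := h.x31 h0 (by linarith)
  have a1 := h.x71 1 h0 (by linarith)
  refine sd_lin h.pK h.pL (i := 3) (j := 7) (q := 1) (inq1 h0 h1) ?_ (by rw [a0]; linarith)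
    (by rw [a1]; linarith) (h.n31 z h0 h1) (h.n71 z h0 h1) (t := _) rfl ?_ ?_ ?_
  · intro k hk
    fin_cases k
    · left; decide
    · left; decide
    · left; decide
    · left; decide
    · have := h.r4 _ hk
      linarith
    · rcases h.r5 _ hk with h2 | h2 <;> linarith
    · rcases h.r6 _ hk with h2 | h2 <;> linarith
    · right; decide
  all_goals
    rw [a0, a1, show (3 / 2 + xi - (3 / 2 + xiw z 1)) / (3 / 2 + xi3 z 1 - (3 / 2 + xiw z 1)) =
      (xi - xiw z 1) / (xi3 z 1 - xiw z 1) by congr 1 <;> ring]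
    simp only [G.P3, Sv.c, W1, C3d, mul_one, div_one]
    try ring

theorem Nod.sdPw (h : Nod V T e) (h0 : 0 ≤ z) (h1 : z < 1 / 16) (x0 : xi1 z 1 ≤ xi)
    (x1 : xi ≤ xiw z 1) : Sd V T 1 e (1 / 2) xi (1 + z) (Pw xi 1 e z) := by
  have a0 := h.x01 2 (by linarith) h1
  have a1 := h.x32 (by linarith) h1
  refine sd_lin h.pK h.pL (i := 0) (j := 3) (q := 2) (inq2 h0 h1) ?_ (by rw [a0]; linarith)
    (by rw [a1]; linarith) (h.n02 z h0 h1) (h.n32 z h0 h1) (t := _) rfl ?_ ?_ ?_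
  · intro k hk
    fin_cases k
    · left; decide
    · rcases h.r1 _ hk with ⟨-, h2⟩ | ⟨h2, -⟩ <;> linarith
    · rcases h.r2 _ hk with ⟨-, h2⟩ | ⟨h2, -⟩ <;> linarith
    all_goals right; decide
  all_goals
    rw [a0, a1, show (1 / 2 + xi - (1 / 2 + xi1 z 1)) / (1 / 2 + xiw z 1 - (1 / 2 + xi1 z 1)) =
      (xi - xi1 z 1) / (xiw z 1 - xi1 z 1) by congr 1 <;> ring]
    simp only [Pw, Sv.c, W2, C1u, mul_one, div_one]
    try ring

theorem Nod.sdPb (h : Nod V T e) (h0 : 0 ≤ z) (h1 : z < 1 / 16) (x0 : xiw z 1 ≤ xi)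
    (x1 : 1 / 2 + xi ≤ xb z 1) : Sd V T 1 e (1 / 2) xi (1 + z) (Pb xi 1 e z) := by
  have a0 := h.x32 (by linarith) h1
  have a1 := h.x52 (by linarith) h1
  refine sd_lin h.pK h.pL (i := 3) (j := 5) (q := 2) (inq2 h0 h1) ?_ (by rw [a0]; linarith)
    (by rw [a1]; linarith) (h.n32 z h0 h1) (h.n52 z h0 h1) (t := _) rfl ?_ ?_ ?_
  · intro k hk
    fin_cases k
    · left; decide
    · left; decide
    · left; decide
    · left; decide
    · have := h.r4 _ hk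
      linarith
    all_goals right; decide
  all_goals
    rw [a0, a1, show (1 / 2 + xi - (1 / 2 + xiw z 1)) / (xb z 1 - (1 / 2 + xiw z 1)) =
      20 * (xi - xiw z 1) / (3 * dwu z 1) by
        rw [show xb z 1 - (1 / 2 + xiw z 1) = dwu z 1 * (3 / 20) by unfold xb; ring]
        rw [show 1 / 2 + xi - (1 / 2 + xiw z 1) = xi - xiw z 1 by ring]
        rw [show dwu z 1 * (3 / 20) = 3 * dwu z 1 / 20 by ring, div_div_eq_mul_div]
        ring]
    simp only [Pb, Sv.c, nb, W2, mul_one, div_one]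
    try ring

theorem Nod.sdPd (h : Nod V T e) (h0 : 0 ≤ z) (h1 : z < 1 / 16) (x0 : xd z 1 ≤ 3 / 2 + xi)
    (x1 : xi ≤ xi3 z 1) : Sd V T 1 e (3 / 2) xi (1 + z) (Pd xi 1 e z) := by
  have a0 := h.x62 (by linarith) h1
  have a1 := h.x71 2 (by linarith) h1
  have hd : dwu z 1 ≠ 0 := by
    have h3 := om_le (y := z) (by nlinarith)
    have h4 := om_nn (y := z) (by nlinarith)
    have h5 : -z ≤ xi3 z 1 := by
      have h6 : (1 : ℝ) ≤ cc3 z 1 := by
        unfold cc3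
        refine Real.le_sqrt_of_sq_le ?_
        nlinarith
      unfold xi3
      rw [neg_le_neg_iff, div_le_iff₀ (by linarith)]
      nlinarith
    unfold dwu xiw
    nlinarith
  refine sd_lin h.pK h.pL (i := 6) (j := 7) (q := 2) (inq2 h0 h1) ?_ (by rw [a0]; linarith)
    (by rw [a1]; linarith) (h.n62 z h0 h1) (h.n72 z h0 h1) (t := _) rfl ?_ ?_ ?_
  · intro k _
    fin_cases k
    iterate 7 left; decide
    all_goals right; decide
  all_goals
    rw [a0, a1, show (3 / 2 + xi - xd z 1) / (3 / 2 + xi3 z 1 - xd z 1) =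
      1 + 5 * (xi - xi3 z 1) / (2 * dwu z 1) by
        rw [show 3 / 2 + xi3 z 1 - xd z 1 = 2 / 5 * dwu z 1 by unfold xd; ring]
        rw [show 3 / 2 + xi - xd z 1 = 2 / 5 * dwu z 1 + (xi - xi3 z 1) by unfold xd; ring]
        field_simp]
    simp only [Pd, Sv.c, nd, C3u, mul_one, div_one]
    try ring

end

end Pool.Agent.Strip051.LC.E1
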