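import Pool.Agent.Strip051.LC.E1.NodV

/-! # Rests near the full period: the values on the pieces and at the nodes, in all scales -/

namespace Pool.Agent.Strip051.LC.E1

open Pool.Agent.StripNear Pool.Agent.StripSquare Pool.Agent.Strip051 Pool.Agent.Strip051.Sweep
open Pool.Agent.Strip051.PB
open Pool.Agent.Strip051.LC.E0.G (om qw cc1 xi1 sg1 cc3 xi3 sg3 xiw dwl dwu)
open G

section

variable {V : Vx} {T : Tbs 7} {r lam xi w z : ℝ}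

/-- A value at a node. -/
theorem NV.sc (h : Nod V T (lam * r)) (hr : 0 < r) {j : Fin 8} {q : ℕ} {p y : ℝ} {s s' : Sv}
    (hq : InQ q y) (hv : NV V T (lam * r) j q p y s') (e : s' = s.sc r)
    (hx : p + r * xi = crv T.D.P j q y) : Sd V T r lam p xi y s := by
  refine Sd.of_one hr ?_
  rw [← e]
  exact hv.sd h hq hx

theorem Nod.rS1 (h : Nod V T (lam * r)) (hr : 0 < r) (h0 : 0 ≤ w) (h1 : r * w < 1 / 16) :
    Sd V T r lam 1 (-(r * om w r)) (r * w) (S1 r lam w) := by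
  have a := mul_nonneg hr.le h0
  refine NV.sc h hr (inq0 a h1) (h.n00 _ a h1) (S1_h hr) ?_
  rw [h.x00 a h1, om_h]
  ring

theorem Nod.rW0 (h : Nod V T (lam * r)) (hr : 0 < r) (h0 : 0 ≤ w) (h1 : r * w < 1 / 16) :
    Sd V T r lam 1 (xi1 (-w) r) (r * w) (W0 r lam w) := by
  have a := mul_nonneg hr.le h0
  refine NV.sc h hr (inq0 a h1) (h.n30 _ a h1) (W0_h hr) ?_
  rw [h.x30 a h1, xi1n_h]

theorem Nod.rQ0 (h : Nod V T (lam * r)) (hr : 0 < r) (h0 : 0 ≤ w) (h1 : r * w < 1 / 16) :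
    Sd V T r lam 1 (xiq r lam w) (r * w) (Q0 r lam w) := by
  have a := mul_nonneg hr.le h0
  refine NV.sc h hr (inq0 a h1) (h.n40 _ a h1) (Q0_h hr) ?_
  rw [h.x40 a h1, xiq_h]

theorem Nod.rC1d (h : Nod V T (lam * r)) (hr : 0 < r) (h0 : -(1 / 16) < r * z) (h1 : z < 0) :
    Sd V T r lam (1 / 2) (xi1 z r) (1 + r * z) (C1d r lam z) := by
  have a := mul_neg_of_pos_of_neg hr h1
  refine NV.sc h hr (inq1 h0 a) (h.n01 _ h0 a) (C1d_h hr) ?_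
  rw [h.x01 1 h0 (by linarith), xi1_h]

theorem Nod.rW1 (h : Nod V T (lam * r)) (hr : 0 < r) (h0 : -(1 / 16) < r * z) (h1 : z < 0) :
    Sd V T r lam (3 / 2) (xiw z r) (1 + r * z) (W1 r lam z) := by
  have a := mul_neg_of_pos_of_neg hr h1
  refine NV.sc h hr (inq1 h0 a) (h.n31 _ h0 a) (W1_h hr) ?_
  rw [h.x31 h0 (by linarith), xiw_h]

theorem Nod.rC3d (h : Nod V T (lam * r)) (hr : 0 < r) (h0 : -(1 / 16) < r * z) (h1 : z < 0) :
    Sd V T r lam (3 / 2) (xi3 z r) (1 + r * z) (C3d r lam z) := by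
  have a := mul_neg_of_pos_of_neg hr h1
  refine NV.sc h hr (inq1 h0 a) (h.n71 _ h0 a) (C3d_h hr) ?_
  rw [h.x71 1 h0 (by linarith), xi3_h]

theorem Nod.rC1u (h : Nod V T (lam * r)) (hr : 0 < r) (h0 : 0 ≤ z) (h1 : r * z < 1 / 16) :
    Sd V T r lam (1 / 2) (xi1 z r) (1 + r * z) (C1u r lam z) := by
  have a := mul_nonneg hr.le h0
  refine NV.sc h hr (inq2 a h1) (h.n02 _ a h1) (C1u_h hr) ?_
  rw [h.x01 2 (by linarith) h1, xi1_h]

theorem Nod.rW2 (h : Nod V T (lam * r)) (hr : 0 < r) (h0 : 0 ≤ z) (h1 : r * z < 1 / 16) :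
    Sd V T r lam (1 / 2) (xiw z r) (1 + r * z) (W2 r lam z) := by
  have a := mul_nonneg hr.le h0
  refine NV.sc h hr (inq2 a h1) (h.n32 _ a h1) (W2_h hr) ?_
  rw [h.x32 (by linarith) h1, xiw_h]

theorem Nod.rC3u (h : Nod V T (lam * r)) (hr : 0 < r) (h0 : 0 ≤ z) (h1 : r * z < 1 / 16) :
    Sd V T r lam (3 / 2) (xi3 z r) (1 + r * z) (C3u r lam z) := by
  have a := mul_nonneg hr.le h0
  refine NV.sc h hr (inq2 a h1) (h.n72 _ a h1) (C3u_h hr) ?_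
  rw [h.x71 2 (by linarith) h1, xi3_h]

theorem Nod.rW3 (h : Nod V T (lam * r)) (hr : 0 < r) (h0 : -(1 / 16) < r * z) (h1 : z ≤ 0) :
    Sd V T r lam 0 (xi1 z r) (2 + r * z) (W3 r lam z) := by
  have a := mul_nonpos_of_nonneg_of_nonpos hr.le h1
  refine NV.sc h hr (inq3 h0 a) (h.n33 _ h0 a) (W3_h hr) ?_
  rw [h.x33 h0 a, xi1_h, zero_add]

theorem Nod.rC33 (h : Nod V T (lam * r)) (hr : 0 < r) (h0 : -(1 / 16) < r * z) (h1 : z ≤ 0) :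
    Sd V T r lam 0 (x3v z r) (2 + r * z) (C33 r lam z) := by
  have a := mul_nonpos_of_nonneg_of_nonpos hr.le h1
  refine NV.sc h hr (inq3 h0 a) (h.n73 _ h0 a) (C33_h hr _) ?_
  rw [h.x73, x3v_h hr, zero_add]

theorem Nod.rH1 (h : Nod V T (lam * r)) (hr : 0 < r) (h0 : 0 ≤ w) (h1 : r * w < 1 / 16)
    (x0 : -(r * om w r) ≤ xi) (x1 : xi ≤ xi1 (-w) r) :
    Sd V T r lam 1 xi (r * w) (H1 xi r lam w) := by
  refine Sd.of_one hr ?_
  rw [← H1_h hr]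
  refine h.sdH1 (mul_nonneg hr.le h0) h1 ?_ ?_
  · rw [om_h]
    nlinarith
  · rw [xi1n_h]
    exact mul_le_mul_of_nonneg_left x1 hr.le

theorem Nod.rH2 (h : Nod V T (lam * r)) (hr : 0 < r) (h0 : 0 ≤ w) (h1 : r * w < 1 / 16)
    (x0 : xi1 (-w) r ≤ xi) (x1 : xi ≤ xiq r lam w) :
    Sd V T r lam 1 xi (r * w) (H2 xi r lam w) := by
  refine Sd.of_one hr ?_
  rw [← H2_h hr]
  refine h.sdH2 (mul_nonneg hr.le h0) h1 ?_ ?_
  · rw [xi1n_h]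
    exact mul_le_mul_of_nonneg_left x0 hr.le
  · rw [xiq_h]
    exact mul_le_mul_of_nonneg_left x1 hr.le

theorem Nod.rH3 (h : Nod V T (lam * r)) (hr : 0 < r) (h0 : 0 ≤ w) (h1 : r * w < 1 / 16)
    (x0 : xiq r lam w ≤ xi) (x1 : r * (xi - xi1 (-w) r) ≤ 3 / 20 * dQ r w) :
    Sd V T r lam 1 xi (r * w) (G.H3 xi r lam w) := by
  refine Sd.of_one hr ?_
  rw [← H3_h hr]
  refine h.sdH3 (mul_nonneg hr.le h0) h1 ?_ ?_
  · rw [xiq_h]
    exact mul_le_mul_of_nonneg_left x0 hr.le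
  · rw [xi1n_h, dQ_h]
    linarith

theorem Nod.rPa (h : Nod V T (lam * r)) (hr : 0 < r) (h0 : -(1 / 16) < r * z) (h1 : z < 0)
    (x0 : xi1 z r ≤ xi) (x1 : 1 / 2 + r * xi ≤ xa z r) :
    Sd V T r lam (1 / 2) xi (1 + r * z) (Pa xi r lam z) := by
  refine Sd.of_one hr ?_
  rw [← Pa_h hr]
  refine h.sdPa h0 (mul_neg_of_pos_of_neg hr h1) ?_ ?_
  · rw [xi1_h]
    exact mul_le_mul_of_nonneg_left x0 hr.le
  · rw [xa_h]
    exact x1

theorem Nod.rPc (h : Nod V T (lam * r)) (hr : 0 < r) (h0 : -(1 / 16) < r * z) (h1 : z < 0)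
    (x0 : xc z r ≤ 3 / 2 + r * xi) (x1 : xi ≤ xiw z r) :
    Sd V T r lam (3 / 2) xi (1 + r * z) (Pc xi r lam z) := by
  refine Sd.of_one hr ?_
  rw [← Pc_h hr]
  refine h.sdPc h0 (mul_neg_of_pos_of_neg hr h1) ?_ ?_
  · rw [xc_h]
    exact x0
  · rw [xiw_h]
    exact mul_le_mul_of_nonneg_left x1 hr.le

theorem Nod.rP3 (h : Nod V T (lam * r)) (hr : 0 < r) (h0 : -(1 / 16) < r * z) (h1 : z < 0)
    (x0 : xiw z r ≤ xi) (x1 : xi ≤ xi3 z r) :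
    Sd V T r lam (3 / 2) xi (1 + r * z) (G.P3 xi r lam z) := by
  refine Sd.of_one hr ?_
  rw [← P3_h hr]
  refine h.sdP3 h0 (mul_neg_of_pos_of_neg hr h1) ?_ ?_
  · rw [xiw_h]
    exact mul_le_mul_of_nonneg_left x0 hr.le
  · rw [xi3_h]
    exact mul_le_mul_of_nonneg_left x1 hr.le

theorem Nod.rPw (h : Nod V T (lam * r)) (hr : 0 < r) (h0 : 0 ≤ z) (h1 : r * z < 1 / 16)
    (x0 : xi1 z r ≤ xi) (x1 : xi ≤ xiw z r) :
    Sd V T r lam (1 / 2) xi (1 + r * z) (Pw xi r lam z) := by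
  refine Sd.of_one hr ?_
  rw [← Pw_h hr]
  refine h.sdPw (mul_nonneg hr.le h0) h1 ?_ ?_
  · rw [xi1_h]
    exact mul_le_mul_of_nonneg_left x0 hr.le
  · rw [xiw_h]
    exact mul_le_mul_of_nonneg_left x1 hr.le

theorem Nod.rPb (h : Nod V T (lam * r)) (hr : 0 < r) (h0 : 0 ≤ z) (h1 : r * z < 1 / 16)
    (x0 : xiw z r ≤ xi) (x1 : 1 / 2 + r * xi ≤ xb z r) :
    Sd V T r lam (1 / 2) xi (1 + r * z) (Pb xi r lam z) := by
  refine Sd.of_one hr ?_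
  rw [← Pb_h hr]
  refine h.sdPb (mul_nonneg hr.le h0) h1 ?_ ?_
  · rw [xiw_h]
    exact mul_le_mul_of_nonneg_left x0 hr.le
  · rw [xb_h]
    exact x1

theorem Nod.rPd (h : Nod V T (lam * r)) (hr : 0 < r) (h0 : 0 ≤ z) (h1 : r * z < 1 / 16)
    (x0 : xd z r ≤ 3 / 2 + r * xi) (x1 : xi ≤ xi3 z r) :
    Sd V T r lam (3 / 2) xi (1 + r * z) (Pd xi r lam z) := by
  refine Sd.of_one hr ?_
  rw [← Pd_h hr]
  refine h.sdPd (mul_nonneg hr.le h0) h1 ?_ ?_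
  · rw [xd_h]
    exact x0
  · rw [xi3_h]
    exact mul_le_mul_of_nonneg_left x1 hr.le

theorem Nod.rV0 (h : Nod V T (lam * r)) (hr : 0 < r) (h0 : -(1 / 16) < r * z) (h1 : z ≤ 0)
    (x0 : 0 ≤ xi) (x1 : xi ≤ xi1 z r) :
    Sd V T r lam 0 xi (2 + r * z) (V0 xi r lam z) := by
  refine Sd.of_one hr ?_
  rw [← V0_h hr]
  refine h.sdV0 h0 (mul_nonpos_of_nonneg_of_nonpos hr.le h1) (mul_nonneg hr.le x0) ?_
  rw [xi1_h]
  exact mul_le_mul_of_nonneg_left x1 hr.le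

theorem Nod.rV1 (h : Nod V T (lam * r)) (hr : 0 < r) (h0 : -(1 / 16) < r * z) (h1 : z ≤ 0)
    (x0 : xi1 z r ≤ xi) (x1 : xi ≤ xv5 z r) :
    Sd V T r lam 0 xi (2 + r * z) (V1 xi r lam z) := by
  refine Sd.of_one hr ?_
  rw [← V1_h hr]
  refine h.sdV1 h0 (mul_nonpos_of_nonneg_of_nonpos hr.le h1) ?_ ?_
  · rw [xi1_h]
    exact mul_le_mul_of_nonneg_left x0 hr.le
  · rw [xv5_h hr]
    exact mul_le_mul_of_nonneg_left x1 hr.le

theorem Nod.rV2 (h : Nod V T (lam * r)) (hr : 0 < r) (h0 : -(1 / 16) < r * z) (h1 : z ≤ 0)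
    (x0 : xv5 z r ≤ xi) (x1 : xi ≤ xv6 z r) :
    Sd V T r lam 0 xi (2 + r * z) (V2 xi r lam z) := by
  refine Sd.of_one hr ?_
  rw [← V2_h hr]
  refine h.sdV2 h0 (mul_nonpos_of_nonneg_of_nonpos hr.le h1) ?_ ?_
  · rw [xv5_h hr]
    exact mul_le_mul_of_nonneg_left x0 hr.le
  · rw [xv6_h hr]
    exact mul_le_mul_of_nonneg_left x1 hr.le

theorem Nod.rV3 (h : Nod V T (lam * r)) (hr : 0 < r) (h0 : -(1 / 16) < r * z) (h1 : z ≤ 0)
    (x0 : xv6 z r ≤ xi) (x1 : xi ≤ x3v z r) :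
    Sd V T r lam 0 xi (2 + r * z) (V3 xi r lam z) := by
  refine Sd.of_one hr ?_
  rw [← V3_h hr]
  refine h.sdV3 h0 (mul_nonpos_of_nonneg_of_nonpos hr.le h1) ?_ ?_
  · rw [xv6_h hr]
    exact mul_le_mul_of_nonneg_left x0 hr.le
  · rw [x3v_h hr]
    exact mul_le_mul_of_nonneg_left x1 hr.le

end

end Pool.Agent.Strip051.LC.E1
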