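import Pool.Agent.Strip051.LC.E1.NodP

/-! # Rests near the full period: the values between the nodes -/

namespace Pool.Agent.Strip051.LC.E1

open Pool.Agent.StripNear Pool.Agent.StripSquare Pool.Agent.Strip051 Pool.Agent.Strip051.Sweep
open Pool.Agent.Strip051.PB
open Pool.Agent.Strip051.LC.E0.G (om qw cc1 xi1 sg1 cc3 xi3 sg3 xiw dwl dwu)
open G

section

variable {n : ℕ} {V : Vx} {T : Tbs n} {e p xi y : ℝ} {s s1 s2 : Sv}

theorem sd_mk (hK : kv T.D (T.R V) (1 - e) (p + xi) y =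
      match V with
      | .far => p + s.k
      | .near => be e * p + nk e s.k s.b)
    (hL : kv T.D T.RL (1 - e) (p + xi) y = LAM e * xi + s.c 1) : Sd V T 1 e p xi y s := by
  refine ⟨?_, ?_⟩
  · rw [mul_one, one_mul, hK]
    cases V
    · show p + s.k = p + 1 * s.k
      ring
    · show be e * p + nk e s.k s.b = be e * p + 1 * nk e s.k s.b
      ring
  · rw [mul_one, one_mul, hL]
    ring

theorem nk_lin (e a b c d t : ℝ) : nk e (a + (c - a) * t) (b + (d - b) * t) =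
    nk e a b + (nk e c d - nk e a b) * t := by
  unfold nk
  ring

theorem div_seg {a b X : ℝ} (h1 : a ≤ X) (h2 : X ≤ b) : (b - a) * ((X - a) / (b - a)) = X - a := by
  rcases eq_or_ne (b - a) 0 with h | h
  · have : X - a = 0 := by linarith
    rw [h, this]
    simp
  · exact mul_div_cancel₀ _ h

/-- The values between two nodes. -/
theorem sd_lin (pK : PinsV T.D (T.R V) (1 - e)) (pL : PinsV T.D T.RL (1 - e))
    {i j : Fin (n + 1)} {q : ℕ} (hq : InQ q y) (hn : ∀ k, T.D.r k y → k ≤ i ∨ j ≤ k)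
    (h1 : crv T.D.P i q y ≤ p + xi) (h2 : p + xi ≤ crv T.D.P j q y)
    (v1 : NV V T e i q p y s1) (v2 : NV V T e j q p y s2) {t : ℝ}
    (ht : t = (p + xi - crv T.D.P i q y) / (crv T.D.P j q y - crv T.D.P i q y))
    (hk : s.k = s1.k + (s2.k - s1.k) * t) (hb : s.b = s1.b + (s2.b - s1.b) * t)
    (hc : s.c 1 = s1.c 1 + (s2.c 1 - s1.c 1) * t) : Sd V T 1 e p xi y s := by
  have e1 := div_seg h1 h2
  rw [← ht] at e1
  refine sd_mk ?_ ?_
  · rw [kv_between pK hq hn h1 h2, v1.K, v2.K, ← ht]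
    cases V
    · show p + s1.k + (p + s2.k - (p + s1.k)) * t = p + s.k
      rw [hk]
      ring
    · show be e * p + nk e s1.k s1.b + (be e * p + nk e s2.k s2.b -
        (be e * p + nk e s1.k s1.b)) * t = be e * p + nk e s.k s.b
      rw [hk, hb, nk_lin]
      ring
  · rw [kv_between pL hq hn h1 h2, v1.L, v2.L, ← ht, hc]
    linear_combination LAM e * e1

end

/-! ### The order of the positions -/

namespace G

section

variable {y z : ℝ}

theorem om_nn (h : y ^ 2 ≤ 1) : 0 ≤ om y 1 := by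
  have := c1n_om h
  have h2 : c1n y ≤ 1 := by
    unfold c1n
    refine Real.sqrt_le_one.mpr ?_
    nlinarith [sq_nonneg y]
  linarith

theorem om_le (h : y ^ 2 ≤ 1) : om y 1 ≤ 3 / 4 * y ^ 2 := by
  unfold om
  have : 0 ≤ qw y 1 := by
    unfold qw
    exact Real.sqrt_nonneg _
  rw [div_le_iff₀ (by linarith)]
  nlinarith [sq_nonneg y]

/-- `xi1` above the lattice height. -/
theorem xi1_neg (h0 : 0 ≤ z) (h1 : z ≤ 1 / 8) : xi1 z 1 ≤ -(3 / 2) * z := by
  unfold xi1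
  have h2 : cc1 z 1 ≤ 1 / 2 := by
    unfold cc1
    rw [Real.sqrt_le_left (by norm_num)]
    nlinarith
  have h3 : 0 ≤ cc1 z 1 := Real.sqrt_nonneg _
  rw [neg_le, le_div_iff₀ (by linarith)]
  nlinarith

theorem cc1_lo {z : ℝ} (h0 : 0 ≤ z) (h1 : z ≤ 1 / 16) : 39 / 100 ≤ cc1 z 1 := by
  unfold cc1
  refine Real.le_sqrt_of_sq_le ?_
  nlinarith

theorem cc1_hi {z : ℝ} (h0 : -(1 / 16) ≤ z) (_h1 : z ≤ 0) : cc1 z 1 ≤ 293 / 500 := by
  unfold cc1
  rw [Real.sqrt_le_left (by norm_num)]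
  nlinarith

theorem cc1_lo' {z : ℝ} (h0 : -(1 / 16) ≤ z) (h1 : z ≤ 0) : 1 / 2 ≤ cc1 z 1 := by
  unfold cc1
  refine Real.le_sqrt_of_sq_le ?_
  nlinarith

/-- `xi1` below the lattice height. -/
theorem xi1_pos (h0 : -(1 / 16) ≤ z) (h1 : z ≤ 0) : -(53 / 40) * z ≤ xi1 z 1 := by
  have h2 := cc1_hi h0 h1
  have h3 := cc1_lo' h0 h1
  unfold xi1
  rw [show -(3 / 4 * z * (2 + 1 * z) / (1 / 2 + cc1 z 1)) =
    3 / 4 * (-z) * (2 + 1 * z) / (1 / 2 + cc1 z 1) by ring, le_div_iff₀ (by linarith)]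
  nlinarith

theorem xi1_pos' (h0 : -(1 / 16) ≤ z) (h1 : z ≤ 0) : xi1 z 1 ≤ -(3 / 2) * z := by
  have h3 := cc1_lo' h0 h1
  unfold xi1
  rw [show -(3 / 4 * z * (2 + 1 * z) / (1 / 2 + cc1 z 1)) =
    3 / 4 * (-z) * (2 + 1 * z) / (1 / 2 + cc1 z 1) by ring, div_le_iff₀ (by linarith)]
  nlinarith

end

end G

end Pool.Agent.Strip051.LC.E1
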