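import Pool.Agent.Strip051.LC.E1.NodQ

/-! # Rests near the full period: the values on the pieces below `2 h0` -/

namespace Pool.Agent.Strip051.LC.E1

open Pool.Agent.StripNear Pool.Agent.StripSquare Pool.Agent.Strip051 Pool.Agent.Strip051.Sweep
open Pool.Agent.Strip051.PB
open Pool.Agent.Strip051.LC.E0.G (om qw cc1 xi1 sg1 cc3 xi3 sg3 xiw dwl dwu)
open G

namespace G

theorem xi1_zero : xi1 0 1 = 0 := by
  unfold xi1
  simp

theorem x3v_zero : x3v 0 1 = 0 := by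
  unfold x3v
  simp

theorem hg_neg {x : ℝ} (h : x ≤ 0) : hg x = 0 := max_eq_right h

theorem tl_zero {b b' e : ℝ} (h : 0 ≤ e) : tl b b' e 0 = 0 := by
  unfold tl
  rw [hg_neg (by linarith), hg_neg (by linarith), hg_neg (by linarith)]
  ring

theorem hg_z1 {h c e : ℝ} (hc : 0 ≤ c) (he : 0 ≤ e) : hg (h * 0 - c * e) = 0 := by
  refine hg_neg ?_
  have := mul_nonneg hc he
  linarith

theorem hg_z2 {h c d : ℝ} (hc : 0 ≤ c) (hd : 0 ≤ d) : hg (h * 0 - d / (c * 1)) = 0 := by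
  refine hg_neg ?_
  rw [mul_zero, mul_one, zero_sub]
  exact neg_nonpos.2 (div_nonneg hd hc)

theorem hg_z3 {c e : ℝ} (hc : 0 ≤ c) (he : 0 ≤ e) : hg (0 - c * e) = 0 := by
  refine hg_neg ?_
  have := mul_nonneg hc he
  linarith

theorem aL_zero {e : ℝ} (h : 0 ≤ e) : aL' e 1 e 0 = 0 := by
  unfold aL' aL
  repeat rw [hg_z3 (by norm_num) h]
  repeat rw [hg_z2 (by norm_num) (by norm_num)]
  ring

theorem bL_zero {e : ℝ} (h : 0 ≤ e) : bL' e 1 e 0 = 0 := by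
  unfold bL' bL
  repeat rw [hg_z3 (by norm_num) h]
  repeat rw [hg_z2 (by norm_num) (by norm_num)]
  ring

theorem W3_zero {e : ℝ} (h : 0 ≤ e) : W3 1 e 0 = ⟨0, 0, 0, 0⟩ := by
  unfold W3 wK3 wB3
  rw [neg_zero, tl_zero h, tl_zero h, hg_neg (by linarith)]
  simp

theorem C33_zero {e : ℝ} (h : 0 ≤ e) : C33 1 e 0 = ⟨0, 0, 0, 0⟩ := by
  unfold C33
  simp only [mul_one]
  rw [x3v_zero, mul_zero, aL_zero h, bL_zero h]
  simp

/-- The circle of radius `√3` is outside of `W`, below `2 h0`. -/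
theorem x3v_xi1 {u : ℝ} (h0 : -(1 / 16) ≤ u) (h1 : u < 0) : 0 < x3v u 1 - xi1 u 1 := by
  have h2 := xi1_pos' h0 h1.le
  have h3 : -(3 / 2) * u < x3v u 1 := by
    unfold x3v
    refine Real.lt_sqrt_of_sq_lt ?_
    nlinarith
  linarith

end G

section

variable {V : Vx} {T : Tbs 7} {e xi u : ℝ}

theorem Nod.n03 (h : Nod V T e) (h0 : -(1 / 16) < u) (h1 : u ≤ 0) :
    NV V T e 0 3 0 (2 + u) ⟨0, 0, 0, 0⟩ := by
  have a := h.x03 3 h0
  have b := kv_cv h.pK 0 (inq3 h0 h1)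
  have c := kv_cv h.pL 0 (inq3 h0 h1)
  rw [a, kv_zero] at b c
  refine ⟨?_, ?_⟩
  · rw [← b]
    cases V
    · show (0 : ℝ) = 0 + 0
      ring
    · show (0 : ℝ) = be e * 0 + nk e 0 0
      unfold nk
      ring
  · rw [← c, a]
    show (0 : ℝ) = LAM e * (0 - 0) + (0 / 1 + 0)
    ring

theorem Nod.sdV0 (h : Nod V T e) (h0 : -(1 / 16) < u) (h1 : u ≤ 0) (x0 : 0 ≤ xi)
    (x1 : xi ≤ xi1 u 1) : Sd V T 1 e 0 xi (2 + u) (V0 xi 1 e u) := by
  have a0 := h.x03 3 h0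
  have a1 := h.x33 h0 h1
  refine sd_lin h.pK h.pL (i := 0) (j := 3) (q := 3) (inq3 h0 h1) ?_ (by rw [a0]; linarith)
    (by rw [a1]; linarith) (h.n03 h0 h1) (h.n33 u h0 h1) (t := _) rfl ?_ ?_ ?_
  · intro k hk
    fin_cases k
    · left; decide
    · rcases h.r1 _ hk with ⟨-, h2⟩ | ⟨-, h2⟩ <;> linarith
    · rcases h.r2 _ hk with ⟨-, h2⟩ | ⟨-, h2⟩ <;> linarith
    all_goals right; decide
  all_goals
    rw [a0, a1]
    simp only [V0, Sv.c, W3, mul_one, div_one]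
    try ring

theorem Nod.sd_zero (h : Nod V T e) {s : Sv} (hs : s.k = 0) (hb : s.b = 0) (hc : s.c 1 = 0)
    (y : ℝ) : Sd V T 1 e 0 0 y s := by
  refine sd_mk ?_ ?_
  · rw [add_zero, kv_zero, hs, hb]
    cases V
    · show (0 : ℝ) = 0 + 0
      ring
    · show (0 : ℝ) = be e * 0 + nk e 0 0
      unfold nk
      ring
  · rw [add_zero, kv_zero, hc]
    ring

theorem Nod.sdV1 (h : Nod V T e) (h0 : -(1 / 16) < u) (h1 : u ≤ 0) (x0 : xi1 u 1 ≤ xi)
    (x1 : xi ≤ xv5 u 1) : Sd V T 1 e 0 xi (2 + u) (V1 xi 1 e u) := by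
  have a0 := h.x33 h0 h1
  have a1 := h.x53 h0 h1
  refine sd_lin h.pK h.pL (i := 3) (j := 5) (q := 3) (inq3 h0 h1) ?_ (by rw [a0]; linarith)
    (by rw [a1]; linarith) (h.n33 u h0 h1) (h.n53 u h0 h1) (t := _) rfl ?_ ?_ ?_
  · intro k hk
    fin_cases k
    iterate 4 left; decide
    · have := h.r4 _ hk
      linarith
    all_goals right; decide
  all_goals
    rw [a0, a1, show (0 + xi - xi1 u 1) / (xv5 u 1 - xi1 u 1) =
      20 / 3 * ((xi - xi1 u 1) / (x3v u 1 - xi1 u 1)) by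
        rw [show xv5 u 1 - xi1 u 1 = (x3v u 1 - xi1 u 1) * (3 / 20) by unfold xv5; ring,
          zero_add, ← div_div]
        ring]
    simp only [V1, Sv.c, G.n53, W3, mul_one, div_one]
    try ring

theorem Nod.sdV2 (h : Nod V T e) (h0 : -(1 / 16) < u) (h1 : u ≤ 0) (x0 : xv5 u 1 ≤ xi)
    (x1 : xi ≤ xv6 u 1) : Sd V T 1 e 0 xi (2 + u) (V2 xi 1 e u) := by
  rcases eq_or_lt_of_le h1 with rfl | h1'
  · have he := h.e0.le
    have hx : xi = 0 := by
      unfold xv5 at x0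
      unfold xv6 at x1
      rw [xi1_zero, x3v_zero] at x0 x1
      linarith
    rw [hx]
    refine h.sd_zero ?_ ?_ ?_ _ <;>
    · simp only [V2, Sv.c, mul_one, W3_zero he, C33_zero he, xi1_zero, x3v_zero, v5, v6]
      simp
  have a0 := h.x53 h0 h1
  have a1 := h.x63 h0 h1
  have hd := (x3v_xi1 h0.le h1').ne'
  refine sd_lin h.pK h.pL (i := 5) (j := 6) (q := 3) (inq3 h0 h1) ?_ (by rw [a0]; linarith)
    (by rw [a1]; linarith) (h.n53 u h0 h1) (h.n63 u h0 h1) (t := _) rfl ?_ ?_ ?_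
  · intro k hk
    fin_cases k
    iterate 6 left; decide
    all_goals right; decide
  all_goals
    rw [a0, a1, show (0 + xi - xv5 u 1) / (xv6 u 1 - xv5 u 1) =
      20 / 9 * ((xi - xi1 u 1) / (x3v u 1 - xi1 u 1) - 3 / 20) by
        rw [show xv6 u 1 - xv5 u 1 = (x3v u 1 - xi1 u 1) * (9 / 20) by unfold xv5 xv6; ring,
          show 0 + xi - xv5 u 1 = (xi - xi1 u 1) - 3 / 20 * (x3v u 1 - xi1 u 1) by
            unfold xv5; ring]
        field_simp]
    simp only [V2, Sv.c, G.n53, G.n63, W3, mul_one, div_one]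
    try ring

theorem Nod.sdV3 (h : Nod V T e) (h0 : -(1 / 16) < u) (h1 : u ≤ 0) (x0 : xv6 u 1 ≤ xi)
    (x1 : xi ≤ x3v u 1) : Sd V T 1 e 0 xi (2 + u) (V3 xi 1 e u) := by
  rcases eq_or_lt_of_le h1 with rfl | h1'
  · have he := h.e0.le
    have hx : xi = 0 := by
      unfold xv6 at x0
      rw [xi1_zero, x3v_zero] at x0
      rw [x3v_zero] at x1
      linarith
    rw [hx]
    refine h.sd_zero ?_ ?_ ?_ _ <;>
    · simp only [V3, Sv.c, mul_one, W3_zero he, C33_zero he, xi1_zero, x3v_zero, v6]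
      simp
  have a0 := h.x63 h0 h1
  have a1 : crv T.D.P 7 3 (2 + u) = x3v u 1 := h.x73
  have hd := (x3v_xi1 h0.le h1').ne'
  refine sd_lin h.pK h.pL (i := 6) (j := 7) (q := 3) (inq3 h0 h1) ?_ (by rw [a0]; linarith)
    (by rw [a1]; linarith) (h.n63 u h0 h1) (h.n73 u h0 h1) (t := _) rfl ?_ ?_ ?_
  · intro k hk
    fin_cases k
    iterate 7 left; decide
    all_goals right; decide
  all_goals
    rw [a0, a1, show (0 + xi - xv6 u 1) / (x3v u 1 - xv6 u 1) =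
      5 / 2 * ((xi - xi1 u 1) / (x3v u 1 - xi1 u 1) - 3 / 5) by
        rw [show x3v u 1 - xv6 u 1 = (x3v u 1 - xi1 u 1) * (2 / 5) by unfold xv6; ring,
          show 0 + xi - xv6 u 1 = (xi - xi1 u 1) - 3 / 5 * (x3v u 1 - xi1 u 1) by
            unfold xv6; ring]
        field_simp]
    simp only [V3, Sv.c, G.n63, C33, W3, mul_one, div_one]
    try ring

end

end Pool.Agent.Strip051.LC.E1
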