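import Pool.Agent.Strip051.LC.E1.RowT

/-! # Rests near the full period: the rows with the side bottom-middle on the unit circle

`X` is the absolute value of the abscissa of the side bottom-top. -/

namespace Pool.Agent.Strip051.LC.E1

open Pool.Agent.StripNear Pool.Agent.StripSquare Pool.Agent.Strip051 Pool.Agent.Strip051.Sweep
open Pool.Agent.Strip051.PB
open Pool.Agent.Strip051.LC
open Pool.Agent.Strip051.LC.E0.G (om qw cc1 xi1 sg1 cc3 xi3 sg3 xiw dwl dwu)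
open G

section

variable {V : Vx} {T : Tbs 7} {κ r lam w z p p' xi xi' y : ℝ} {s : Sv}

theorem Sd.cg (h : Sd V T r lam p xi y s) (hp : p' = p) (hx : xi' = xi) :
    Sd V T r lam p' xi' y s := by
  subst hp hx
  exact h

/-- The positions relative to the lattice points. -/
theorem rel {a b X : ℝ} (hr : 0 < r) : a + r * b = X ↔ b = (X - a) / r := by
  rw [eq_div_iff hr.ne']
  constructor <;> intro h <;> linarith

theorem rel_le {a b X c : ℝ} (hr : 0 < r) (h : a + r * b ≤ X) (hX : a + r * c = X) : b ≤ c := by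
  rw [← hX] at h
  exact le_of_mul_le_mul_left (by linarith) hr

theorem rel_ge {a b X c : ℝ} (hr : 0 < r) (h : X ≤ a + r * b) (hX : a + r * c = X) : c ≤ b := by
  rw [← hX] at h
  exact le_of_mul_le_mul_left (by linarith) hr

end

section

variable {V : Vx} {T : Tbs 7} {κ e y z X : ℝ}

theorem r_t1a_c1_d (N : Nod V T e) (R : Rows V) (hκ : κ * h0 = kenE (1 - e)) (H : HT y z)
    (z0 : z < 0) (u0 : 0 ≤ y + z) (hX : c1n y - X = c1n (1 + z)) (x0 : c1n (1 + (y + z)) ≤ X)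
    (x1 : X ≤ swn (1 + (y + z)) - 1 / 2) (l0 : 0 < y) :
    OKV V T κ (1 - e) (c1n y) X y (1 + z) := by
  obtain ⟨r, lam, w, z, rfl, rfl, rfl, D⟩ := scl (P := .pnp) N.e0 N.e1 ⟨H.y0, z0.le, u0⟩
    l0 H.y1.le
  have hr := D.r0
  have hy := H.y0
  have hy1 := H.y1
  have hz := H.z0
  have hz1 := H.z1
  have hu := H.u1
  have e0 : c1n (r * w) = 1 + r * -(r * om w r) := p_c1 (by nlinarith)
  have eu : r * w + r * z = r * (w + z) := by ring
  have w0 : 0 ≤ w := nonneg_of_mul_nonneg_right hy hr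
  have z0' : z < 0 := by
    by_contra hh
    push Not at hh
    nlinarith [mul_nonneg hr.le hh]
  have u0' : 0 ≤ w + z := by
    rw [eu] at u0
    exact nonneg_of_mul_nonneg_right u0 hr
  rw [eu] at hu x0 x1
  have f0 : c1n (1 + r * (w + z)) = 1 / 2 + r * xi1 (w + z) r := p_c1' (by nlinarith) (by nlinarith)
  have f1 : c1n (1 + r * z) = 1 / 2 + r * xi1 z r := p_c1' (by nlinarith) (by nlinarith)
  have f2 : swn (1 + r * (w + z)) = 1 + r * xiw (w + z) r := p_sw (by nlinarith)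
  have hx : X = 1 / 2 + r * (-(r * om w r) - xi1 z r) := by
    rw [e0, f1] at hX
    linarith
  subst hx
  rw [f0] at x0
  rw [f2] at x1
  have key := okv_T (B := B1) (xi := -(r * om w r) - xi1 z r) rfl rfl rfl D N hκ H
    (Sd.cg ((N.rC1d hr hz z0').neg) (by norm_num [B1]) (by ring))
    (Sd.cg (N.rPw hr u0' hu (rel_le hr x0 rfl) (rel_ge (a := 1 / 2) hr (by linarith) rfl)) (by norm_num [B1]) rfl)
    (R.t1a_c1_d r lam w z (-(r * om w r) - xi1 z r) D rfl (rel_le hr x0 rfl) (rel_ge (a := 1 / 2) hr (by linarith) rfl))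
  rw [e0]
  refine Eq.mp ?_ key
  congr 1

theorem r_t1a_c1_u (N : Nod V T e) (R : Rows V) (hκ : κ * h0 = kenE (1 - e)) (H : HT y z)
    (z0 : 0 ≤ z) (hX : c1n y - X = c1n (1 + z)) (x0 : swn (1 + (y + z)) - 1 / 2 ≤ X)
    (x1 : X ≤ xb (y + z) 1) (l0 : 0 < y + z) :
    OKV V T κ (1 - e) (c1n y) X y (1 + z) := by
  obtain ⟨r, lam, w, z, rfl, rfl, rfl, D⟩ := scl (P := .pp) N.e0 N.e1 ⟨H.y0, z0⟩
    l0 H.u1.le
  have hr := D.r0
  have hy := H.y0
  have hy1 := H.y1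
  have hz := H.z0
  have hz1 := H.z1
  have hu := H.u1
  have e0 : c1n (r * w) = 1 + r * -(r * om w r) := p_c1 (by nlinarith)
  have eu : r * w + r * z = r * (w + z) := by ring
  have w0 : 0 ≤ w := nonneg_of_mul_nonneg_right hy hr
  have z0' : 0 ≤ z := nonneg_of_mul_nonneg_right z0 hr
  have u0' : 0 ≤ w + z := by linarith
  rw [eu] at hu x0 x1
  have f0 : c1n (1 + r * z) = 1 / 2 + r * xi1 z r := p_c1' (by nlinarith) (by nlinarith)
  have f1 : swn (1 + r * (w + z)) = 1 + r * xiw (w + z) r := p_sw (by nlinarith)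
  have hx : X = 1 / 2 + r * (-(r * om w r) - xi1 z r) := by
    rw [e0, f0] at hX
    linarith
  subst hx
  rw [f1] at x0
  rw [xb_h] at x1
  have key := okv_T (B := B1) (xi := -(r * om w r) - xi1 z r) rfl rfl rfl D N hκ H
    (Sd.cg ((N.rC1u hr z0' hz1).neg) (by norm_num [B1]) (by ring))
    (Sd.cg (N.rPb hr u0' hu (rel_le (a := 1 / 2) hr (by linarith) rfl) x1) (by norm_num [B1]) rfl)
    (R.t1a_c1_u r lam w z (-(r * om w r) - xi1 z r) D rfl (rel_le (a := 1 / 2) hr (by linarith) rfl) x1)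
  rw [e0]
  refine Eq.mp ?_ key
  congr 1

theorem r_t1a_W (N : Nod V T e) (R : Rows V) (hκ : κ * h0 = kenE (1 - e)) (H : HT y z)
    (z0 : 0 ≤ z) (hX : c1n y - X = swn (1 + z) - 1 / 2) (x0 : swn (1 + (y + z)) - 1 / 2 ≤ X)
    (x1 : X ≤ xb (y + z) 1) (l0 : 0 < y + z) :
    OKV V T κ (1 - e) (c1n y) X y (1 + z) := by
  obtain ⟨r, lam, w, z, rfl, rfl, rfl, D⟩ := scl (P := .pp) N.e0 N.e1 ⟨H.y0, z0⟩
    l0 H.u1.le
  have hr := D.r0
  have hy := H.y0
  have hy1 := H.y1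
  have hz := H.z0
  have hz1 := H.z1
  have hu := H.u1
  have e0 : c1n (r * w) = 1 + r * -(r * om w r) := p_c1 (by nlinarith)
  have eu : r * w + r * z = r * (w + z) := by ring
  have w0 : 0 ≤ w := nonneg_of_mul_nonneg_right hy hr
  have z0' : 0 ≤ z := nonneg_of_mul_nonneg_right z0 hr
  have u0' : 0 ≤ w + z := by linarith
  rw [eu] at hu x0 x1
  have f0 : swn (1 + r * (w + z)) = 1 + r * xiw (w + z) r := p_sw (by nlinarith)
  have f1 : swn (1 + r * z) = 1 + r * xiw z r := p_sw (by nlinarith)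
  have hx : X = 1 / 2 + r * (-(r * om w r) - xiw z r) := by
    rw [e0, f1] at hX
    linarith
  subst hx
  rw [f0] at x0
  rw [xb_h] at x1
  have key := okv_T (B := B1) (xi := -(r * om w r) - xiw z r) rfl rfl rfl D N hκ H
    (Sd.cg ((N.rW2 hr z0' hz1).neg) (by norm_num [B1]) (by ring))
    (Sd.cg (N.rPb hr u0' hu (rel_le (a := 1 / 2) hr (by linarith) rfl) x1) (by norm_num [B1]) rfl)
    (R.t1a_W r lam w z (-(r * om w r) - xiw z r) D rfl (rel_le (a := 1 / 2) hr (by linarith) rfl) x1)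
  rw [e0]
  refine Eq.mp ?_ key
  congr 1

theorem r_t1b_c1_d (N : Nod V T e) (R : Rows V) (hκ : κ * h0 = kenE (1 - e)) (H : HT y z)
    (z0 : z < 0) (u0 : 0 ≤ y + z) (hX : X = c1n (1 + (y + z))) (x0 : c1n (1 + z) ≤ c1n y - X)
    (x1 : c1n y - X ≤ xa z 1) (l0 : 0 < y) :
    OKV V T κ (1 - e) (c1n y) X y (1 + z) := by
  obtain ⟨r, lam, w, z, rfl, rfl, rfl, D⟩ := scl (P := .pnp) N.e0 N.e1 ⟨H.y0, z0.le, u0⟩
    l0 H.y1.le
  have hr := D.r0
  have hy := H.y0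
  have hy1 := H.y1
  have hz := H.z0
  have hz1 := H.z1
  have hu := H.u1
  have e0 : c1n (r * w) = 1 + r * -(r * om w r) := p_c1 (by nlinarith)
  have eu : r * w + r * z = r * (w + z) := by ring
  have w0 : 0 ≤ w := nonneg_of_mul_nonneg_right hy hr
  have z0' : z < 0 := by
    by_contra hh
    push Not at hh
    nlinarith [mul_nonneg hr.le hh]
  have u0' : 0 ≤ w + z := by
    rw [eu] at u0
    exact nonneg_of_mul_nonneg_right u0 hr
  rw [eu] at hu hX
  have f0 : c1n (1 + r * (w + z)) = 1 / 2 + r * xi1 (w + z) r := p_c1' (by nlinarith) (by nlinarith)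
  have f1 : c1n (1 + r * z) = 1 / 2 + r * xi1 z r := p_c1' (by nlinarith) (by nlinarith)
  have hx : X = 1 / 2 + r * xi1 (w + z) r := by
    rw [f0] at hX
    linarith
  subst hx
  have hA : 1 + r * -(r * om w r) - (1 / 2 + r * xi1 (w + z) r) = 1 / 2 + r * (-(r * om w r) - xi1 (w + z) r) := by ring
  rw [e0, hA] at x0 x1
  rw [f1] at x0
  rw [xa_h] at x1
  have key := okv_T (B := B1) (xi := xi1 (w + z) r) rfl rfl rfl D N hκ H
    (Sd.cg ((N.rPa hr hz z0' (rel_le hr x0 rfl) x1).neg) (by norm_num [B1]) (by ring))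
    (Sd.cg (N.rC1u hr u0' hu) (by norm_num [B1]) rfl)
    (R.t1b_c1_d r lam w z (xi1 (w + z) r) (-(r * om w r) - xi1 (w + z) r) D rfl rfl (rel_le hr x0 rfl) x1)
  rw [e0]
  refine Eq.mp ?_ key
  congr 1

theorem r_t1b_c1_u (N : Nod V T e) (R : Rows V) (hκ : κ * h0 = kenE (1 - e)) (H : HT y z)
    (z0 : 0 ≤ z) (hX : X = c1n (1 + (y + z))) (x0 : swn (1 + z) - 1 / 2 ≤ c1n y - X)
    (x1 : c1n y - X ≤ xb z 1) (l0 : 0 < y + z) :
    OKV V T κ (1 - e) (c1n y) X y (1 + z) := by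
  obtain ⟨r, lam, w, z, rfl, rfl, rfl, D⟩ := scl (P := .pp) N.e0 N.e1 ⟨H.y0, z0⟩
    l0 H.u1.le
  have hr := D.r0
  have hy := H.y0
  have hy1 := H.y1
  have hz := H.z0
  have hz1 := H.z1
  have hu := H.u1
  have e0 : c1n (r * w) = 1 + r * -(r * om w r) := p_c1 (by nlinarith)
  have eu : r * w + r * z = r * (w + z) := by ring
  have w0 : 0 ≤ w := nonneg_of_mul_nonneg_right hy hr
  have z0' : 0 ≤ z := nonneg_of_mul_nonneg_right z0 hr
  have u0' : 0 ≤ w + z := by linarith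
  rw [eu] at hu hX
  have f0 : c1n (1 + r * (w + z)) = 1 / 2 + r * xi1 (w + z) r := p_c1' (by nlinarith) (by nlinarith)
  have f1 : swn (1 + r * z) = 1 + r * xiw z r := p_sw (by nlinarith)
  have hx : X = 1 / 2 + r * xi1 (w + z) r := by
    rw [f0] at hX
    linarith
  subst hx
  have hA : 1 + r * -(r * om w r) - (1 / 2 + r * xi1 (w + z) r) = 1 / 2 + r * (-(r * om w r) - xi1 (w + z) r) := by ring
  rw [e0, hA] at x0 x1
  rw [f1] at x0
  rw [xb_h] at x1
  have key := okv_T (B := B1) (xi := xi1 (w + z) r) rfl rfl rfl D N hκ H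
    (Sd.cg ((N.rPb hr z0' hz1 (rel_le (a := 1 / 2) hr (by linarith) rfl) x1).neg) (by norm_num [B1]) (by ring))
    (Sd.cg (N.rC1u hr u0' hu) (by norm_num [B1]) rfl)
    (R.t1b_c1_u r lam w z (xi1 (w + z) r) (-(r * om w r) - xi1 (w + z) r) D rfl rfl (rel_le (a := 1 / 2) hr (by linarith) rfl) x1)
  rw [e0]
  refine Eq.mp ?_ key
  congr 1

theorem r_t1b_W (N : Nod V T e) (R : Rows V) (hκ : κ * h0 = kenE (1 - e)) (H : HT y z)
    (z0 : 0 ≤ z) (hX : X = swn (1 + (y + z)) - 1 / 2) (x0 : swn (1 + z) - 1 / 2 ≤ c1n y - X)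
    (x1 : c1n y - X ≤ xb z 1) (l0 : 0 < y + z) :
    OKV V T κ (1 - e) (c1n y) X y (1 + z) := by
  obtain ⟨r, lam, w, z, rfl, rfl, rfl, D⟩ := scl (P := .pp) N.e0 N.e1 ⟨H.y0, z0⟩
    l0 H.u1.le
  have hr := D.r0
  have hy := H.y0
  have hy1 := H.y1
  have hz := H.z0
  have hz1 := H.z1
  have hu := H.u1
  have e0 : c1n (r * w) = 1 + r * -(r * om w r) := p_c1 (by nlinarith)
  have eu : r * w + r * z = r * (w + z) := by ring
  have w0 : 0 ≤ w := nonneg_of_mul_nonneg_right hy hr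
  have z0' : 0 ≤ z := nonneg_of_mul_nonneg_right z0 hr
  have u0' : 0 ≤ w + z := by linarith
  rw [eu] at hu hX
  have f0 : swn (1 + r * (w + z)) = 1 + r * xiw (w + z) r := p_sw (by nlinarith)
  have f1 : swn (1 + r * z) = 1 + r * xiw z r := p_sw (by nlinarith)
  have hx : X = 1 / 2 + r * xiw (w + z) r := by
    rw [f0] at hX
    linarith
  subst hx
  have hA : 1 + r * -(r * om w r) - (1 / 2 + r * xiw (w + z) r) = 1 / 2 + r * (-(r * om w r) - xiw (w + z) r) := by ring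
  rw [e0, hA] at x0 x1
  rw [f1] at x0
  rw [xb_h] at x1
  have key := okv_T (B := B1) (xi := xiw (w + z) r) rfl rfl rfl D N hκ H
    (Sd.cg ((N.rPb hr z0' hz1 (rel_le (a := 1 / 2) hr (by linarith) rfl) x1).neg) (by norm_num [B1]) (by ring))
    (Sd.cg (N.rW2 hr u0' hu) (by norm_num [B1]) rfl)
    (R.t1b_W r lam w z (xiw (w + z) r) (-(r * om w r) - xiw (w + z) r) D rfl rfl (rel_le (a := 1 / 2) hr (by linarith) rfl) x1)
  rw [e0]
  refine Eq.mp ?_ key
  congr 1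

theorem r_t2a_W (N : Nod V T e) (R : Rows V) (hκ : κ * h0 = kenE (1 - e)) (H : HT y z)
    (z0 : z < 0) (u0 : 0 ≤ y + z) (hX : X + c1n y = swn (1 + z) + 1 / 2)
    (x0 : swn (1 + (y + z)) - 1 / 2 ≤ X) (x1 : X ≤ xb (y + z) 1) (l0 : 0 < y) :
    OKV V T κ (1 - e) (c1n y) (-X) y (1 + z) := by
  obtain ⟨r, lam, w, z, rfl, rfl, rfl, D⟩ := scl (P := .pnp) N.e0 N.e1 ⟨H.y0, z0.le, u0⟩
    l0 H.y1.le
  have hr := D.r0
  have hy := H.y0
  have hy1 := H.y1
  have hz := H.z0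
  have hz1 := H.z1
  have hu := H.u1
  have e0 : c1n (r * w) = 1 + r * -(r * om w r) := p_c1 (by nlinarith)
  have eu : r * w + r * z = r * (w + z) := by ring
  have w0 : 0 ≤ w := nonneg_of_mul_nonneg_right hy hr
  have z0' : z < 0 := by
    by_contra hh
    push Not at hh
    nlinarith [mul_nonneg hr.le hh]
  have u0' : 0 ≤ w + z := by
    rw [eu] at u0
    exact nonneg_of_mul_nonneg_right u0 hr
  rw [eu] at hu x0 x1
  have f0 : swn (1 + r * (w + z)) = 1 + r * xiw (w + z) r := p_sw (by nlinarith)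
  have f1 : swn (1 + r * z) = 1 + r * xiw z r := p_sw (by nlinarith)
  have hx : X = 1 / 2 + r * (xiw z r + r * om w r) := by
    rw [e0, f1] at hX
    linarith
  subst hx
  rw [f0] at x0
  rw [xb_h] at x1
  have key := okv_T (B := B2) (xi := -(xiw z r + r * om w r)) rfl rfl rfl D N hκ H
    (Sd.cg ((N.rW1 hr hz z0').neg) (by norm_num [B2]) (by ring))
    (Sd.cg ((N.rPb hr u0' hu (rel_le (a := 1 / 2) hr (by linarith) rfl) x1).neg) (by norm_num [B2]) rfl)
    (R.t2a_W r lam w z (xiw z r + r * om w r) D rfl (rel_le (a := 1 / 2) hr (by linarith) rfl) x1)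
  rw [e0]
  refine Eq.mp ?_ key
  congr 1
  simp only [B2]
  ring

theorem r_t2a_c3_dd (N : Nod V T e) (R : Rows V) (hκ : κ * h0 = kenE (1 - e)) (H : HT y z)
    (z0 : z < 0) (u0 : y + z < 0) (hX : X + c1n y = c3n (1 + z)) (x0 : c1n (1 + (y + z)) ≤ X)
    (x1 : X ≤ xa (y + z) 1) :
    OKV V T κ (1 - e) (c1n y) (-X) y (1 + z) := by
  obtain ⟨r, lam, w, z, rfl, rfl, rfl, D⟩ := scl (P := .pnn) N.e0 N.e1 ⟨H.y0, z0.le, u0.le⟩
    (neg_pos.2 z0) (by show -z ≤ 1 / 16; linarith [H.z0])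
  have hr := D.r0
  have hy := H.y0
  have hy1 := H.y1
  have hz := H.z0
  have hz1 := H.z1
  have hu := H.u1
  have e0 : c1n (r * w) = 1 + r * -(r * om w r) := p_c1 (by nlinarith)
  have eu : r * w + r * z = r * (w + z) := by ring
  have w0 : 0 ≤ w := nonneg_of_mul_nonneg_right hy hr
  have z0' : z < 0 := by
    by_contra hh
    push Not at hh
    nlinarith [mul_nonneg hr.le hh]
  have u0' : w + z < 0 := by
    by_contra hh
    push Not at hh
    nlinarith [mul_nonneg hr.le hh]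
  rw [eu] at hu x0 x1
  have f0 : c1n (1 + r * (w + z)) = 1 / 2 + r * xi1 (w + z) r := p_c1' (by nlinarith) (by nlinarith)
  have f1 : c3n (1 + r * z) = 3 / 2 + r * xi3 z r := p_c3 (by nlinarith) (by nlinarith)
  have hx : X = 1 / 2 + r * (xi3 z r + r * om w r) := by
    rw [e0, f1] at hX
    linarith
  subst hx
  rw [f0] at x0
  rw [xa_h] at x1
  have key := okv_T (B := B2) (xi := -(xi3 z r + r * om w r)) rfl rfl rfl D N hκ H
    (Sd.cg ((N.rC3d hr hz z0').neg) (by norm_num [B2]) (by ring))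
    (Sd.cg ((N.rPa hr (by nlinarith) u0' (rel_le hr x0 rfl) x1).neg) (by norm_num [B2]) rfl)
    (R.t2a_c3_dd r lam w z (xi3 z r + r * om w r) D rfl (rel_le hr x0 rfl) x1)
  rw [e0]
  refine Eq.mp ?_ key
  congr 1
  simp only [B2]
  ring

theorem r_t2a_c3_du (N : Nod V T e) (R : Rows V) (hκ : κ * h0 = kenE (1 - e)) (H : HT y z)
    (z0 : z < 0) (u0 : 0 ≤ y + z) (hX : X + c1n y = c3n (1 + z))
    (x0 : swn (1 + (y + z)) - 1 / 2 ≤ X) (x1 : X ≤ xb (y + z) 1) (l0 : 0 < y) :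
    OKV V T κ (1 - e) (c1n y) (-X) y (1 + z) := by
  obtain ⟨r, lam, w, z, rfl, rfl, rfl, D⟩ := scl (P := .pnp) N.e0 N.e1 ⟨H.y0, z0.le, u0⟩
    l0 H.y1.le
  have hr := D.r0
  have hy := H.y0
  have hy1 := H.y1
  have hz := H.z0
  have hz1 := H.z1
  have hu := H.u1
  have e0 : c1n (r * w) = 1 + r * -(r * om w r) := p_c1 (by nlinarith)
  have eu : r * w + r * z = r * (w + z) := by ring
  have w0 : 0 ≤ w := nonneg_of_mul_nonneg_right hy hr
  have z0' : z < 0 := by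
    by_contra hh
    push Not at hh
    nlinarith [mul_nonneg hr.le hh]
  have u0' : 0 ≤ w + z := by
    rw [eu] at u0
    exact nonneg_of_mul_nonneg_right u0 hr
  rw [eu] at hu x0 x1
  have f0 : c3n (1 + r * z) = 3 / 2 + r * xi3 z r := p_c3 (by nlinarith) (by nlinarith)
  have f1 : swn (1 + r * (w + z)) = 1 + r * xiw (w + z) r := p_sw (by nlinarith)
  have hx : X = 1 / 2 + r * (xi3 z r + r * om w r) := by
    rw [e0, f0] at hX
    linarith
  subst hx
  rw [f1] at x0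
  rw [xb_h] at x1
  have key := okv_T (B := B2) (xi := -(xi3 z r + r * om w r)) rfl rfl rfl D N hκ H
    (Sd.cg ((N.rC3d hr hz z0').neg) (by norm_num [B2]) (by ring))
    (Sd.cg ((N.rPb hr u0' hu (rel_le (a := 1 / 2) hr (by linarith) rfl) x1).neg) (by norm_num [B2]) rfl)
    (R.t2a_c3_du r lam w z (xi3 z r + r * om w r) D rfl (rel_le (a := 1 / 2) hr (by linarith) rfl) x1)
  rw [e0]
  refine Eq.mp ?_ key
  congr 1
  simp only [B2]
  ring

theorem r_t2a_c3_u1 (N : Nod V T e) (R : Rows V) (hκ : κ * h0 = kenE (1 - e)) (H : HT y z)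
    (z0 : 0 ≤ z) (hX : X + c1n y = c3n (1 + z)) (x0 : c1n (1 + (y + z)) ≤ X)
    (x1 : X ≤ swn (1 + (y + z)) - 1 / 2) (l0 : 0 < y + z) :
    OKV V T κ (1 - e) (c1n y) (-X) y (1 + z) := by
  obtain ⟨r, lam, w, z, rfl, rfl, rfl, D⟩ := scl (P := .pp) N.e0 N.e1 ⟨H.y0, z0⟩
    l0 H.u1.le
  have hr := D.r0
  have hy := H.y0
  have hy1 := H.y1
  have hz := H.z0
  have hz1 := H.z1
  have hu := H.u1
  have e0 : c1n (r * w) = 1 + r * -(r * om w r) := p_c1 (by nlinarith)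
  have eu : r * w + r * z = r * (w + z) := by ring
  have w0 : 0 ≤ w := nonneg_of_mul_nonneg_right hy hr
  have z0' : 0 ≤ z := nonneg_of_mul_nonneg_right z0 hr
  have u0' : 0 ≤ w + z := by linarith
  rw [eu] at hu x0 x1
  have f0 : c1n (1 + r * (w + z)) = 1 / 2 + r * xi1 (w + z) r := p_c1' (by nlinarith) (by nlinarith)
  have f1 : c3n (1 + r * z) = 3 / 2 + r * xi3 z r := p_c3 (by nlinarith) (by nlinarith)
  have f2 : swn (1 + r * (w + z)) = 1 + r * xiw (w + z) r := p_sw (by nlinarith)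
  have hx : X = 1 / 2 + r * (xi3 z r + r * om w r) := by
    rw [e0, f1] at hX
    linarith
  subst hx
  rw [f0] at x0
  rw [f2] at x1
  have key := okv_T (B := B2) (xi := -(xi3 z r + r * om w r)) rfl rfl rfl D N hκ H
    (Sd.cg ((N.rC3u hr z0' hz1).neg) (by norm_num [B2]) (by ring))
    (Sd.cg ((N.rPw hr u0' hu (rel_le hr x0 rfl) (rel_ge (a := 1 / 2) hr (by linarith) rfl)).neg) (by norm_num [B2]) rfl)
    (R.t2a_c3_u1 r lam w z (xi3 z r + r * om w r) D rfl (rel_le hr x0 rfl) (rel_ge (a := 1 / 2) hr (by linarith) rfl))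
  rw [e0]
  refine Eq.mp ?_ key
  congr 1
  simp only [B2]
  ring

theorem r_t2a_c3_u2 (N : Nod V T e) (R : Rows V) (hκ : κ * h0 = kenE (1 - e)) (H : HT y z)
    (z0 : 0 ≤ z) (hX : X + c1n y = c3n (1 + z)) (x0 : swn (1 + (y + z)) - 1 / 2 ≤ X)
    (x1 : X ≤ xb (y + z) 1) (l0 : 0 < y + z) :
    OKV V T κ (1 - e) (c1n y) (-X) y (1 + z) := by
  obtain ⟨r, lam, w, z, rfl, rfl, rfl, D⟩ := scl (P := .pp) N.e0 N.e1 ⟨H.y0, z0⟩
    l0 H.u1.le
  have hr := D.r0
  have hy := H.y0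
  have hy1 := H.y1
  have hz := H.z0
  have hz1 := H.z1
  have hu := H.u1
  have e0 : c1n (r * w) = 1 + r * -(r * om w r) := p_c1 (by nlinarith)
  have eu : r * w + r * z = r * (w + z) := by ring
  have w0 : 0 ≤ w := nonneg_of_mul_nonneg_right hy hr
  have z0' : 0 ≤ z := nonneg_of_mul_nonneg_right z0 hr
  have u0' : 0 ≤ w + z := by linarith
  rw [eu] at hu x0 x1
  have f0 : c3n (1 + r * z) = 3 / 2 + r * xi3 z r := p_c3 (by nlinarith) (by nlinarith)
  have f1 : swn (1 + r * (w + z)) = 1 + r * xiw (w + z) r := p_sw (by nlinarith)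
  have hx : X = 1 / 2 + r * (xi3 z r + r * om w r) := by
    rw [e0, f0] at hX
    linarith
  subst hx
  rw [f1] at x0
  rw [xb_h] at x1
  have key := okv_T (B := B2) (xi := -(xi3 z r + r * om w r)) rfl rfl rfl D N hκ H
    (Sd.cg ((N.rC3u hr z0' hz1).neg) (by norm_num [B2]) (by ring))
    (Sd.cg ((N.rPb hr u0' hu (rel_le (a := 1 / 2) hr (by linarith) rfl) x1).neg) (by norm_num [B2]) rfl)
    (R.t2a_c3_u2 r lam w z (xi3 z r + r * om w r) D rfl (rel_le (a := 1 / 2) hr (by linarith) rfl) x1)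
  rw [e0]
  refine Eq.mp ?_ key
  congr 1
  simp only [B2]
  ring

theorem r_t2b_c1_dd (N : Nod V T e) (R : Rows V) (hκ : κ * h0 = kenE (1 - e)) (H : HT y z)
    (z0 : z < 0) (u0 : y + z < 0) (hX : X = c1n (1 + (y + z)))
    (x0 : swn (1 + z) + 1 / 2 ≤ X + c1n y) (x1 : X + c1n y ≤ c3n (1 + z)) :
    OKV V T κ (1 - e) (c1n y) (-X) y (1 + z) := by
  obtain ⟨r, lam, w, z, rfl, rfl, rfl, D⟩ := scl (P := .pnn) N.e0 N.e1 ⟨H.y0, z0.le, u0.le⟩
    (neg_pos.2 z0) (by show -z ≤ 1 / 16; linarith [H.z0])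
  have hr := D.r0
  have hy := H.y0
  have hy1 := H.y1
  have hz := H.z0
  have hz1 := H.z1
  have hu := H.u1
  have e0 : c1n (r * w) = 1 + r * -(r * om w r) := p_c1 (by nlinarith)
  have eu : r * w + r * z = r * (w + z) := by ring
  have w0 : 0 ≤ w := nonneg_of_mul_nonneg_right hy hr
  have z0' : z < 0 := by
    by_contra hh
    push Not at hh
    nlinarith [mul_nonneg hr.le hh]
  have u0' : w + z < 0 := by
    by_contra hh
    push Not at hh
    nlinarith [mul_nonneg hr.le hh]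
  rw [eu] at hu hX
  have f0 : c1n (1 + r * (w + z)) = 1 / 2 + r * xi1 (w + z) r := p_c1' (by nlinarith) (by nlinarith)
  have f1 : c3n (1 + r * z) = 3 / 2 + r * xi3 z r := p_c3 (by nlinarith) (by nlinarith)
  have f2 : swn (1 + r * z) = 1 + r * xiw z r := p_sw (by nlinarith)
  have hx : X = 1 / 2 + r * xi1 (w + z) r := by
    rw [f0] at hX
    linarith
  subst hx
  have hA : 1 / 2 + r * xi1 (w + z) r + (1 + r * -(r * om w r)) = 3 / 2 + r * (-(r * om w r) + xi1 (w + z) r) := by ring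
  rw [e0, hA] at x0 x1
  rw [f2] at x0
  rw [f1] at x1
  have key := okv_T (B := B2) (xi := -xi1 (w + z) r) rfl rfl rfl D N hκ H
    (Sd.cg ((N.rP3 hr hz z0' (rel_le (a := 3 / 2) hr (by linarith) rfl) (rel_ge hr x1 rfl)).neg) (by norm_num [B2]) (by ring))
    (Sd.cg ((N.rC1d hr (by nlinarith) u0').neg) (by norm_num [B2]) rfl)
    (R.t2b_c1_dd r lam w z (-(r * om w r) + xi1 (w + z) r) D rfl (rel_le (a := 3 / 2) hr (by linarith) rfl) (rel_ge hr x1 rfl))
  rw [e0]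
  refine Eq.mp ?_ key
  congr 1
  simp only [B2]
  ring

theorem r_t2b_c1_du (N : Nod V T e) (R : Rows V) (hκ : κ * h0 = kenE (1 - e)) (H : HT y z)
    (z0 : z < 0) (u0 : 0 ≤ y + z) (hX : X = c1n (1 + (y + z))) (x0 : xc z 1 ≤ X + c1n y)
    (x1 : X + c1n y ≤ swn (1 + z) + 1 / 2) (l0 : 0 < y) :
    OKV V T κ (1 - e) (c1n y) (-X) y (1 + z) := by
  obtain ⟨r, lam, w, z, rfl, rfl, rfl, D⟩ := scl (P := .pnp) N.e0 N.e1 ⟨H.y0, z0.le, u0⟩
    l0 H.y1.le
  have hr := D.r0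
  have hy := H.y0
  have hy1 := H.y1
  have hz := H.z0
  have hz1 := H.z1
  have hu := H.u1
  have e0 : c1n (r * w) = 1 + r * -(r * om w r) := p_c1 (by nlinarith)
  have eu : r * w + r * z = r * (w + z) := by ring
  have w0 : 0 ≤ w := nonneg_of_mul_nonneg_right hy hr
  have z0' : z < 0 := by
    by_contra hh
    push Not at hh
    nlinarith [mul_nonneg hr.le hh]
  have u0' : 0 ≤ w + z := by
    rw [eu] at u0
    exact nonneg_of_mul_nonneg_right u0 hr
  rw [eu] at hu hX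
  have f0 : c1n (1 + r * (w + z)) = 1 / 2 + r * xi1 (w + z) r := p_c1' (by nlinarith) (by nlinarith)
  have f1 : swn (1 + r * z) = 1 + r * xiw z r := p_sw (by nlinarith)
  have hx : X = 1 / 2 + r * xi1 (w + z) r := by
    rw [f0] at hX
    linarith
  subst hx
  have hA : 1 / 2 + r * xi1 (w + z) r + (1 + r * -(r * om w r)) = 3 / 2 + r * (-(r * om w r) + xi1 (w + z) r) := by ring
  rw [e0, hA] at x0 x1
  rw [xc_h] at x0
  rw [f1] at x1
  have key := okv_T (B := B2) (xi := -xi1 (w + z) r) rfl rfl rfl D N hκ H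
    (Sd.cg ((N.rPc hr hz z0' x0 (rel_ge (a := 3 / 2) hr (by linarith) rfl)).neg) (by norm_num [B2]) (by ring))
    (Sd.cg ((N.rC1u hr u0' hu).neg) (by norm_num [B2]) rfl)
    (R.t2b_c1_du r lam w z (-(r * om w r) + xi1 (w + z) r) D rfl x0 (rel_ge (a := 3 / 2) hr (by linarith) rfl))
  rw [e0]
  refine Eq.mp ?_ key
  congr 1
  simp only [B2]
  ring

theorem r_t2b_c1_u (N : Nod V T e) (R : Rows V) (hκ : κ * h0 = kenE (1 - e)) (H : HT y z)
    (z0 : 0 ≤ z) (hX : X = c1n (1 + (y + z))) (x0 : xd z 1 ≤ X + c1n y)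
    (x1 : X + c1n y ≤ c3n (1 + z)) (l0 : 0 < y + z) :
    OKV V T κ (1 - e) (c1n y) (-X) y (1 + z) := by
  obtain ⟨r, lam, w, z, rfl, rfl, rfl, D⟩ := scl (P := .pp) N.e0 N.e1 ⟨H.y0, z0⟩
    l0 H.u1.le
  have hr := D.r0
  have hy := H.y0
  have hy1 := H.y1
  have hz := H.z0
  have hz1 := H.z1
  have hu := H.u1
  have e0 : c1n (r * w) = 1 + r * -(r * om w r) := p_c1 (by nlinarith)
  have eu : r * w + r * z = r * (w + z) := by ring
  have w0 : 0 ≤ w := nonneg_of_mul_nonneg_right hy hr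
  have z0' : 0 ≤ z := nonneg_of_mul_nonneg_right z0 hr
  have u0' : 0 ≤ w + z := by linarith
  rw [eu] at hu hX
  have f0 : c1n (1 + r * (w + z)) = 1 / 2 + r * xi1 (w + z) r := p_c1' (by nlinarith) (by nlinarith)
  have f1 : c3n (1 + r * z) = 3 / 2 + r * xi3 z r := p_c3 (by nlinarith) (by nlinarith)
  have hx : X = 1 / 2 + r * xi1 (w + z) r := by
    rw [f0] at hX
    linarith
  subst hx
  have hA : 1 / 2 + r * xi1 (w + z) r + (1 + r * -(r * om w r)) = 3 / 2 + r * (-(r * om w r) + xi1 (w + z) r) := by ring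
  rw [e0, hA] at x0 x1
  rw [xd_h] at x0
  rw [f1] at x1
  have key := okv_T (B := B2) (xi := -xi1 (w + z) r) rfl rfl rfl D N hκ H
    (Sd.cg ((N.rPd hr z0' hz1 x0 (rel_ge hr x1 rfl)).neg) (by norm_num [B2]) (by ring))
    (Sd.cg ((N.rC1u hr u0' hu).neg) (by norm_num [B2]) rfl)
    (R.t2b_c1_u r lam w z (-(r * om w r) + xi1 (w + z) r) D rfl x0 (rel_ge hr x1 rfl))
  rw [e0]
  refine Eq.mp ?_ key
  congr 1
  simp only [B2]
  ring

theorem r_t2b_W_d (N : Nod V T e) (R : Rows V) (hκ : κ * h0 = kenE (1 - e)) (H : HT y z)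
    (z0 : z < 0) (u0 : 0 ≤ y + z) (hX : X = swn (1 + (y + z)) - 1 / 2) (x0 : xc z 1 ≤ X + c1n y)
    (x1 : X + c1n y ≤ swn (1 + z) + 1 / 2) (l0 : 0 < y) :
    OKV V T κ (1 - e) (c1n y) (-X) y (1 + z) := by
  obtain ⟨r, lam, w, z, rfl, rfl, rfl, D⟩ := scl (P := .pnp) N.e0 N.e1 ⟨H.y0, z0.le, u0⟩
    l0 H.y1.le
  have hr := D.r0
  have hy := H.y0
  have hy1 := H.y1
  have hz := H.z0
  have hz1 := H.z1
  have hu := H.u1
  have e0 : c1n (r * w) = 1 + r * -(r * om w r) := p_c1 (by nlinarith)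
  have eu : r * w + r * z = r * (w + z) := by ring
  have w0 : 0 ≤ w := nonneg_of_mul_nonneg_right hy hr
  have z0' : z < 0 := by
    by_contra hh
    push Not at hh
    nlinarith [mul_nonneg hr.le hh]
  have u0' : 0 ≤ w + z := by
    rw [eu] at u0
    exact nonneg_of_mul_nonneg_right u0 hr
  rw [eu] at hu hX
  have f0 : swn (1 + r * (w + z)) = 1 + r * xiw (w + z) r := p_sw (by nlinarith)
  have f1 : swn (1 + r * z) = 1 + r * xiw z r := p_sw (by nlinarith)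
  have hx : X = 1 / 2 + r * xiw (w + z) r := by
    rw [f0] at hX
    linarith
  subst hx
  have hA : 1 / 2 + r * xiw (w + z) r + (1 + r * -(r * om w r)) = 3 / 2 + r * (-(r * om w r) + xiw (w + z) r) := by ring
  rw [e0, hA] at x0 x1
  rw [xc_h] at x0
  rw [f1] at x1
  have key := okv_T (B := B2) (xi := -xiw (w + z) r) rfl rfl rfl D N hκ H
    (Sd.cg ((N.rPc hr hz z0' x0 (rel_ge (a := 3 / 2) hr (by linarith) rfl)).neg) (by norm_num [B2]) (by ring))
    (Sd.cg ((N.rW2 hr u0' hu).neg) (by norm_num [B2]) rfl)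
    (R.t2b_W_d r lam w z (-(r * om w r) + xiw (w + z) r) D rfl x0 (rel_ge (a := 3 / 2) hr (by linarith) rfl))
  rw [e0]
  refine Eq.mp ?_ key
  congr 1
  simp only [B2]
  ring

theorem r_t2b_W_u (N : Nod V T e) (R : Rows V) (hκ : κ * h0 = kenE (1 - e)) (H : HT y z)
    (z0 : 0 ≤ z) (hX : X = swn (1 + (y + z)) - 1 / 2) (x0 : xd z 1 ≤ X + c1n y)
    (x1 : X + c1n y ≤ c3n (1 + z)) (l0 : 0 < y + z) :
    OKV V T κ (1 - e) (c1n y) (-X) y (1 + z) := by
  obtain ⟨r, lam, w, z, rfl, rfl, rfl, D⟩ := scl (P := .pp) N.e0 N.e1 ⟨H.y0, z0⟩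
    l0 H.u1.le
  have hr := D.r0
  have hy := H.y0
  have hy1 := H.y1
  have hz := H.z0
  have hz1 := H.z1
  have hu := H.u1
  have e0 : c1n (r * w) = 1 + r * -(r * om w r) := p_c1 (by nlinarith)
  have eu : r * w + r * z = r * (w + z) := by ring
  have w0 : 0 ≤ w := nonneg_of_mul_nonneg_right hy hr
  have z0' : 0 ≤ z := nonneg_of_mul_nonneg_right z0 hr
  have u0' : 0 ≤ w + z := by linarith
  rw [eu] at hu hX
  have f0 : c3n (1 + r * z) = 3 / 2 + r * xi3 z r := p_c3 (by nlinarith) (by nlinarith)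
  have f1 : swn (1 + r * (w + z)) = 1 + r * xiw (w + z) r := p_sw (by nlinarith)
  have hx : X = 1 / 2 + r * xiw (w + z) r := by
    rw [f1] at hX
    linarith
  subst hx
  have hA : 1 / 2 + r * xiw (w + z) r + (1 + r * -(r * om w r)) = 3 / 2 + r * (-(r * om w r) + xiw (w + z) r) := by ring
  rw [e0, hA] at x0 x1
  rw [xd_h] at x0
  rw [f0] at x1
  have key := okv_T (B := B2) (xi := -xiw (w + z) r) rfl rfl rfl D N hκ H
    (Sd.cg ((N.rPd hr z0' hz1 x0 (rel_ge hr x1 rfl)).neg) (by norm_num [B2]) (by ring))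
    (Sd.cg ((N.rW2 hr u0' hu).neg) (by norm_num [B2]) rfl)
    (R.t2b_W_u r lam w z (-(r * om w r) + xiw (w + z) r) D rfl x0 (rel_ge hr x1 rfl))
  rw [e0]
  refine Eq.mp ?_ key
  congr 1
  simp only [B2]
  ring

theorem r_t3a_c1 (N : Nod V T e) (R : Rows V) (hκ : κ * h0 = kenE (1 - e)) (H : HT y z)
    (z0 : 0 ≤ z) (hX : X - c1n y = c1n (1 + z)) (x0 : xd (y + z) 1 ≤ X)
    (x1 : X ≤ c3n (1 + (y + z))) (l0 : 0 < y + z) :
    OKV V T κ (1 - e) (c1n y) X y (1 + z) := by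
  obtain ⟨r, lam, w, z, rfl, rfl, rfl, D⟩ := scl (P := .pp) N.e0 N.e1 ⟨H.y0, z0⟩
    l0 H.u1.le
  have hr := D.r0
  have hy := H.y0
  have hy1 := H.y1
  have hz := H.z0
  have hz1 := H.z1
  have hu := H.u1
  have e0 : c1n (r * w) = 1 + r * -(r * om w r) := p_c1 (by nlinarith)
  have eu : r * w + r * z = r * (w + z) := by ring
  have w0 : 0 ≤ w := nonneg_of_mul_nonneg_right hy hr
  have z0' : 0 ≤ z := nonneg_of_mul_nonneg_right z0 hr
  have u0' : 0 ≤ w + z := by linarith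
  rw [eu] at hu x0 x1
  have f0 : c1n (1 + r * z) = 1 / 2 + r * xi1 z r := p_c1' (by nlinarith) (by nlinarith)
  have f1 : c3n (1 + r * (w + z)) = 3 / 2 + r * xi3 (w + z) r := p_c3 (by nlinarith) (by nlinarith)
  have hx : X = 3 / 2 + r * (-(r * om w r) + xi1 z r) := by
    rw [e0, f0] at hX
    linarith
  subst hx
  rw [xd_h] at x0
  rw [f1] at x1
  have key := okv_T (B := B3) (xi := -(r * om w r) + xi1 z r) rfl rfl rfl D N hκ H
    (Sd.cg (N.rC1u hr z0' hz1) (by norm_num [B3]) (by ring))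
    (Sd.cg (N.rPd hr u0' hu x0 (rel_ge hr x1 rfl)) (by norm_num [B3]) rfl)
    (R.t3a_c1 r lam w z (-(r * om w r) + xi1 z r) D rfl x0 (rel_ge hr x1 rfl))
  rw [e0]
  refine Eq.mp ?_ key
  congr 1

theorem r_t3b_c3 (N : Nod V T e) (R : Rows V) (hκ : κ * h0 = kenE (1 - e)) (H : HT y z)
    (z0 : 0 ≤ z) (hX : X = c3n (1 + (y + z))) (x0 : c1n (1 + z) ≤ X - c1n y)
    (x1 : X - c1n y ≤ swn (1 + z) - 1 / 2) (l0 : 0 < y + z) :
    OKV V T κ (1 - e) (c1n y) X y (1 + z) := by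
  obtain ⟨r, lam, w, z, rfl, rfl, rfl, D⟩ := scl (P := .pp) N.e0 N.e1 ⟨H.y0, z0⟩
    l0 H.u1.le
  have hr := D.r0
  have hy := H.y0
  have hy1 := H.y1
  have hz := H.z0
  have hz1 := H.z1
  have hu := H.u1
  have e0 : c1n (r * w) = 1 + r * -(r * om w r) := p_c1 (by nlinarith)
  have eu : r * w + r * z = r * (w + z) := by ring
  have w0 : 0 ≤ w := nonneg_of_mul_nonneg_right hy hr
  have z0' : 0 ≤ z := nonneg_of_mul_nonneg_right z0 hr
  have u0' : 0 ≤ w + z := by linarith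
  rw [eu] at hu hX
  have f0 : c1n (1 + r * z) = 1 / 2 + r * xi1 z r := p_c1' (by nlinarith) (by nlinarith)
  have f1 : c3n (1 + r * (w + z)) = 3 / 2 + r * xi3 (w + z) r := p_c3 (by nlinarith) (by nlinarith)
  have f2 : swn (1 + r * z) = 1 + r * xiw z r := p_sw (by nlinarith)
  have hx : X = 3 / 2 + r * xi3 (w + z) r := by
    rw [f1] at hX
    linarith
  subst hx
  have hA : 3 / 2 + r * xi3 (w + z) r - (1 + r * -(r * om w r)) = 1 / 2 + r * (xi3 (w + z) r + r * om w r) := by ring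
  rw [e0, hA] at x0 x1
  rw [f0] at x0
  rw [f2] at x1
  have key := okv_T (B := B3) (xi := xi3 (w + z) r) rfl rfl rfl D N hκ H
    (Sd.cg (N.rPw hr z0' hz1 (rel_le hr x0 rfl) (rel_ge (a := 1 / 2) hr (by linarith) rfl)) (by norm_num [B3]) (by ring))
    (Sd.cg (N.rC3u hr u0' hu) (by norm_num [B3]) rfl)
    (R.t3b_c3 r lam w z (xi3 (w + z) r) (xi3 (w + z) r + r * om w r) D rfl rfl (rel_le hr x0 rfl) (rel_ge (a := 1 / 2) hr (by linarith) rfl))
  rw [e0]
  refine Eq.mp ?_ key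
  congr 1

end

end Pool.Agent.Strip051.LC.E1
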