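import Pool.Agent.Strip051.LC.E1.NodR

/-! # Rests near the full period: the rows in absolute coordinates

A lattice triangle with a side next to `(1, 0)`: `y` is the height of this side, `1 + z` the height of
the second side. -/

namespace Pool.Agent.Strip051.LC.E1

open Pool.Agent.StripNear Pool.Agent.StripSquare Pool.Agent.Strip051 Pool.Agent.Strip051.Sweep
open Pool.Agent.Strip051.PB
open Pool.Agent.Strip051.LC
open Pool.Agent.Strip051.LC.Line (jn tau)
open Pool.Agent.Strip051.LC.E0.G (om qw cc1 xi1 sg1 cc3 xi3 sg3 xiw dwl dwu)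
open G

/-! ### The choice of the scale -/

theorem Pat.len_div (P : Pat) (w z r : ℝ) : P.len (w / r) (z / r) = P.len w z / r := by
  cases P
  · show w / r + z / r = (w + z) / r
    ring
  · rfl
  · show -(z / r) = -z / r
    ring
  · show -(w / r) = -w / r
    ring
  · show -(w / r + z / r) = -(w + z) / r
    ring

theorem Pat.ok_div {P : Pat} {w z r : ℝ} (hr : 0 < r) (h : P.Ok w z) : P.Ok (w / r) (z / r) := by
  have e : w / r + z / r = (w + z) / r := by ring
  cases P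
  · exact ⟨div_nonneg h.1 hr.le, div_nonneg h.2 hr.le⟩
  · exact ⟨div_nonneg h.1 hr.le, div_nonpos_of_nonpos_of_nonneg h.2.1 hr.le,
      by rw [e]; exact div_nonneg h.2.2 hr.le⟩
  · exact ⟨div_nonneg h.1 hr.le, div_nonpos_of_nonpos_of_nonneg h.2.1 hr.le,
      by rw [e]; exact div_nonpos_of_nonpos_of_nonneg h.2.2 hr.le⟩
  · exact ⟨div_nonpos_of_nonpos_of_nonneg h.1 hr.le, div_nonneg h.2.1 hr.le,
      by rw [e]; exact div_nonpos_of_nonpos_of_nonneg h.2.2 hr.le⟩
  · exact ⟨div_nonpos_of_nonpos_of_nonneg h.1 hr.le, div_nonpos_of_nonpos_of_nonneg h.2 hr.le⟩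

/-- **The scales** for a pair of heights. -/
theorem scl {P : Pat} {e w z : ℝ} (he : 0 < e) (he1 : e ≤ 1 / 40) (hP : P.Ok w z)
    (hl : 0 < P.len w z) (hs : P.len w z ≤ 1 / 16) :
    ∃ r lam w' z', lam * r = e ∧ w = r * w' ∧ z = r * z' ∧ Dom P r lam w' z' := by
  rcases le_total (P.len w z) (5 / 2 * e) with h | h
  · refine ⟨e, 1, w / e, z / e, one_mul e, (mul_div_cancel₀ _ he.ne').symm,
      (mul_div_cancel₀ _ he.ne').symm, ⟨he, one_pos, by rw [one_mul]; exact he1, P.ok_div he hP,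
        ?_, ?_, Or.inl ⟨rfl, ?_⟩⟩⟩
    · rw [P.len_div]
      positivity
    · rw [P.len_div, mul_div_cancel₀ _ he.ne']
      exact hs
    · rw [P.len_div, div_le_iff₀ he]
      exact h
  · have hl' := hl.ne'
    refine ⟨P.len w z, e / P.len w z, w / P.len w z, z / P.len w z, div_mul_cancel₀ _ hl',
      (mul_div_cancel₀ _ hl').symm, (mul_div_cancel₀ _ hl').symm,
      ⟨hl, div_pos he hl, by rw [div_mul_cancel₀ _ hl']; exact he1, P.ok_div hl hP,
        ?_, ?_, Or.inr ⟨?_, ?_⟩⟩⟩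
    · rw [P.len_div, div_self hl']
      exact one_pos
    · rw [P.len_div, div_self hl', mul_one]
      exact hs
    · rw [P.len_div, div_self hl']
    · rw [div_le_iff₀ hl]
      linarith

/-! ### The heights -/

/-- The heights of the triangles with a side next to `(1, 0)`. -/
structure HT (y z : ℝ) : Prop where
  y0 : 0 ≤ y
  y1 : y < 1 / 16
  z0 : -(1 / 16) < z
  z1 : z < 1 / 16
  u1 : y + z < 1 / 16

theorem jt_mid {z : ℝ} (a0 : -(1 / 16) < z) (a1 : z < 1 / 16) :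
    jn (h0 * (1 + z)) = 1 ∧ tau (h0 * (1 + z)) = h0 * z := by
  rcases lt_or_ge z 0 with h | h
  · have q := inq1 a0 h
    refine ⟨jn_q q, ?_⟩
    rw [tau_q q]
    show h0 * (1 + z - ((1 : ℕ) : ℝ)) = _
    push_cast
    ring
  · have q := inq2 h a1
    refine ⟨jn_q q, ?_⟩
    rw [tau_q q]
    show h0 * (1 + z - ((1 : ℕ) : ℝ)) = _
    push_cast
    ring

theorem HT.hts {r w z y z' : ℝ} (h : HT y z) (ey : y = r * w) (ez : z = r * z') :
    Hts r w z' (h0 * y) (h0 * (1 + z)) := by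
  have hp := h0_pos
  have q := inq0 h.y0 h.y1
  have e : h0 * y + h0 * (1 + z) = h0 * (1 + (y + z)) := by ring
  have j1 := jn_q q
  have j2 := jt_mid h.z0 h.z1
  have hy := h.y0
  have j3 := jt_mid (z := y + z) (by linarith [h.z0]) h.u1
  have j4 := tau_q q
  refine ⟨?_, ?_, ?_, ?_, mul_nonneg hp.le h.y0, mul_nonneg hp.le (by linarith [h.z0]), ?_⟩
  · rw [e, j1, j2.1, j3.1]
    rfl
  · rw [j4, ey]
    show h0 * (r * w - ((0 : ℕ) : ℝ)) = _
    push_cast
    ring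
  · rw [j2.2, ez]
  · rw [e, j3.2, ey, ez]
    ring
  · have := h.u1
    nlinarith

/-! ### The positions -/

section

variable {r w z : ℝ}

theorem p_c1 (h : (r * w) ^ 2 ≤ 1) : c1n (r * w) = 1 + r * -(r * om w r) := by
  rw [c1n_om h, om_h]
  ring

theorem p_c1' (h0 : -1 ≤ r * z) (h1 : r * z ≤ 1 / 8) : c1n (1 + r * z) = 1 / 2 + r * xi1 z r := by
  rw [c1n_cc1, cc1_half h0 h1, xi1_h]

theorem p_c3 (h0 : -1 ≤ r * z) (h1 : r * z ≤ 1 / 2) : c3n (1 + r * z) = 3 / 2 + r * xi3 z r := by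
  rw [c3n_cc3, cc3_half h0 h1, xi3_h]

theorem p_sw (h : (r * z) ^ 2 ≤ 1) : swn (1 + r * z) = 1 + r * xiw z r := by
  rw [swn_c1n, c1n_om h, om_h]
  unfold xiw
  ring

theorem p_sw0 (h0 : -1 ≤ -(r * w)) (h1 : -(r * w) ≤ 1 / 8) :
    swn (r * w) = 1 / 2 + r * xi1 (-w) r := by
  rw [swn_cc1, cc1_half h0 h1, xi1n_h]

/-- The second order part of the unit circle. -/
theorem xi1_xs (hz : -1 ≤ r * z) (h1 : r * z ≤ 1 / 8) : xi1 z r = -(3 / 2) * z + r * x2 z r := by
  have h2 : (0 : ℝ) ≤ 1 - 3 / 4 * (1 + r * z) ^ 2 := by nlinarith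
  have h3 : cc1 z r ^ 2 = 1 - 3 / 4 * (1 + r * z) ^ 2 := Real.sq_sqrt h2
  have h4 : 0 ≤ cc1 z r := Real.sqrt_nonneg _
  have h5 : 1 / 2 + cc1 z r ≠ 0 := by linarith
  have h6 : 1 / 2 + r * xi1 z r = cc1 z r := by
    rw [← p_c1' hz h1, c1n_cc1, cc1_h]
  unfold x2
  rw [show r * (z * (3 / 2 * xi1 z r - 3 / 4 * z) / (1 / 2 + cc1 z r)) =
    (z * (3 / 2 * (r * xi1 z r) - 3 / 4 * (r * z))) / (1 / 2 + cc1 z r) by ring]
  rw [show r * xi1 z r = cc1 z r - 1 / 2 by linarith]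
  unfold xi1
  field_simp
  ring

end

/-! ### The rows -/

section

variable {V : Vx} {T : Tbs 7} {κ r lam w z xi : ℝ} {P : Pat} {B : Bs} {b c : Sv}

theorem okv_T (hn : B.n = 0) (hn' : B.n' = 1) (hp : B.p = 1) (D : Dom P r lam w z)
    (N : Nod V T (lam * r)) (hκ : κ * h0 = kenE (1 - lam * r)) (H : HT (r * w) (r * z))
    (s23 : Sd V T r lam (B.q - 1) (xi + r * om w r) (1 + r * z) b)
    (s13 : Sd V T r lam B.q xi (1 + r * (w + z)) c)
    (hR : RowT V P B r lam w z xi b c) :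
    OKV V T κ (1 - lam * r) (1 + r * -(r * om w r)) (B.q + r * xi) (r * w) (1 + r * z) := by
  have w0 : 0 ≤ w := nonneg_of_mul_nonneg_right H.y0 D.r0
  have hW : Win B r lam w z (r * w) (1 + r * z) := by
    refine ⟨D.r0, D.l0, by linarith [D.e], by rw [hn]; ring, by rw [hn'],
      H.hts rfl rfl, by rw [hp, hn, hn']; ring⟩
  have := okv_row (V := V) (T := T) (κ := κ) (P := P) (xi12 := -(r * om w r)) (xi13 := xi)
    (a := S1 r lam w) (b := b) (c := c) (N := 3 / 2 * B.g w z) (S := -(om w r / 2)) hW hκ D.ok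
    (by rw [hp]; exact N.rS1 D.r0 w0 H.y1)
    (by rw [hp, sub_neg_eq_add]; exact s23)
    (by rw [show r * w + (1 + r * z) = 1 + r * (w + z) by ring]; exact s13)
    (by rw [hn, hn']; ring) hR
  rw [hp] at this
  exact this

end

end Pool.Agent.Strip051.LC.E1
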