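import Pool.Agent.Strip051.LC.E1.RowR

/-! # Rests near the full period: the rows with both slanted sides on the unit circle -/

namespace Pool.Agent.Strip051.LC.E1

open Pool.Agent.StripNear Pool.Agent.StripSquare Pool.Agent.Strip051 Pool.Agent.Strip051.Sweep
open Pool.Agent.Strip051.PB
open Pool.Agent.Strip051.LC
open Pool.Agent.Strip051.LC.E0.G (om qw cc1 xi1 sg1 cc3 xi3 sg3 xiw dwl dwu)
open G

section

variable {V : Vx} {T : Tbs 7} {κ e y z X : ℝ}

theorem okv_U {r lam w z xi : ℝ} {P : Pat} {a b c : Sv} (D : Dom P r lam w z)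
    (hκ : κ * h0 = kenE (1 - lam * r)) (H : HT (r * w) (r * z))
    (hxi : xi = xi1 (w + z) r + xi1 z r) (s12 : Sd V T r lam 1 xi (r * w) a)
    (s23 : Sd V T r lam (1 / 2) (xi1 z r) (1 + r * z) b)
    (s13 : Sd V T r lam (1 / 2) (xi1 (w + z) r) (1 + r * (w + z)) c)
    (hR : RowU V P r lam w z xi a (-b) c) :
    OKV V T κ (1 - lam * r) (1 + r * xi) (1 / 2 + r * xi1 (w + z) r) (r * w) (1 + r * z) := by
  have hy := H.y0
  have hz := H.z0
  have hz1 := H.z1
  have hu := H.u1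
  have hW : Win B1 r lam w z (r * w) (1 + r * z) := by
    refine ⟨D.r0, D.l0, by linarith [D.e], by show _ = 0 + _; ring, rfl,
      H.hts rfl rfl, by norm_num [B1]⟩
  refine okv_row (V := V) (T := T) (κ := κ) (P := P) (B := B1) (xi12 := xi)
    (xi13 := xi1 (w + z) r)
    (a := a) (b := -b) (c := c) (N := 0) (S := (x2 z r + x2 (w + z) r) / 2) hW hκ D.ok
    s12 (Sd.cg s23.neg (by norm_num [B1]) (by rw [hxi]; ring))
    (by rw [show r * w + (1 + r * z) = 1 + r * (w + z) by ring]; exact s13) ?_ hR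
  have f0 := xi1_xs (r := r) (z := z) (by linarith) (by linarith)
  have f1 := xi1_xs (r := r) (z := w + z) (by linarith) (by linarith)
  show (3 * (z * 1 - w * (1 / 2 - 1)) + 1 * xi - 0 * (xi1 (w + z) r - xi)) / 2 = _
  rw [hxi]
  linear_combination (1 / 2) * f0 + (1 / 2) * f1

theorem r_uu_1 (N : Nod V T e) (R : Rows V) (hκ : κ * h0 = kenE (1 - e)) (H : HT y z)
    (z0 : z < 0) (u0 : 0 ≤ y + z) (hX : X = c1n (1 + (y + z)) + c1n (1 + z)) (x0 : c1n y ≤ X)
    (x1 : X ≤ swn y + 1 / 2) (l0 : 0 < y) :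
    OKV V T κ (1 - e) X (c1n (1 + (y + z))) y (1 + z) := by
  obtain ⟨r, lam, w, z, rfl, rfl, rfl, D⟩ := scl (P := .pnp) N.e0 N.e1 ⟨H.y0, z0.le, u0⟩
    l0 H.y1.le
  have hr := D.r0
  have hy := H.y0
  have hy1 := H.y1
  have hz := H.z0
  have hz1 := H.z1
  have hu := H.u1
  have e0 : c1n (r * w) = 1 + r * -(r * om w r) := p_c1 (by nlinarith)
  have e1 : swn (r * w) = 1 / 2 + r * xi1 (-w) r := p_sw0 (by linarith) (by linarith)
  have eu : r * w + r * z = r * (w + z) := by ring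
  have w0 : 0 ≤ w := nonneg_of_mul_nonneg_right hy hr
  have z0' : z < 0 := by
    by_contra hh
    push Not at hh
    nlinarith [mul_nonneg hr.le hh]
  have u0' : 0 ≤ w + z := by
    rw [eu] at u0
    exact nonneg_of_mul_nonneg_right u0 hr
  have f0 : c1n (1 + r * (w + z)) = 1 / 2 + r * xi1 (w + z) r := p_c1' (by nlinarith) (by nlinarith)
  have f1 : c1n (1 + r * z) = 1 / 2 + r * xi1 z r := p_c1' (by nlinarith) (by nlinarith)
  rw [eu] at hu hX ⊢
  rw [f0, f1] at hX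
  have hx : X = 1 + r * (xi1 (w + z) r + xi1 z r) := by linarith
  rw [hx, e0] at x0
  rw [hx, e1] at x1
  rw [hx, f0]
  have g0 := rel_le hr x0 rfl
  have g1 : xi1 (w + z) r + xi1 z r ≤ xi1 (-w) r := rel_ge (a := 1) hr (by linarith) rfl
  exact okv_U D hκ H rfl (N.rH1 hr w0 hy1 g0 g1) (N.rC1d hr hz z0') (N.rC1u hr u0' hu)
    (R.uu_1 r lam w z _ D rfl g0 g1)

theorem r_uu_2 (N : Nod V T e) (R : Rows V) (hκ : κ * h0 = kenE (1 - e)) (H : HT y z)
    (z0 : z < 0) (u0 : y + z < 0) (hX : X = c1n (1 + (y + z)) + c1n (1 + z))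
    (x0 : swn y + 1 / 2 ≤ X) (x1 : X ≤ 1 + xiq 1 e y) :
    OKV V T κ (1 - e) X (c1n (1 + (y + z))) y (1 + z) := by
  obtain ⟨r, lam, w, z, rfl, rfl, rfl, D⟩ := scl (P := .pnn) N.e0 N.e1 ⟨H.y0, z0.le, u0.le⟩
    (neg_pos.2 z0) (by show -z ≤ 1 / 16; linarith [H.z0])
  have hr := D.r0
  have hy := H.y0
  have hy1 := H.y1
  have hz := H.z0
  have hz1 := H.z1
  have hu := H.u1
  have e1 : swn (r * w) = 1 / 2 + r * xi1 (-w) r := p_sw0 (by linarith) (by linarith)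
  have eu : r * w + r * z = r * (w + z) := by ring
  have w0 : 0 ≤ w := nonneg_of_mul_nonneg_right hy hr
  have z0' : z < 0 := by
    by_contra hh
    push Not at hh
    nlinarith [mul_nonneg hr.le hh]
  have u0' : w + z < 0 := by
    by_contra hh
    push Not at hh
    nlinarith [mul_nonneg hr.le hh]
  have f0 : c1n (1 + r * (w + z)) = 1 / 2 + r * xi1 (w + z) r := p_c1' (by nlinarith) (by nlinarith)
  have f1 : c1n (1 + r * z) = 1 / 2 + r * xi1 z r := p_c1' (by nlinarith) (by nlinarith)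
  rw [eu] at hu hX ⊢
  rw [f0, f1] at hX
  have hx : X = 1 + r * (xi1 (w + z) r + xi1 z r) := by linarith
  rw [hx, e1] at x0
  rw [hx, xiq_h] at x1
  rw [hx, f0]
  have g0 : xi1 (-w) r ≤ xi1 (w + z) r + xi1 z r := rel_le (a := 1) hr (by linarith) rfl
  have g1 := rel_ge hr x1 rfl
  exact okv_U D hκ H rfl (N.rH2 hr w0 hy1 g0 g1) (N.rC1d hr hz z0')
    (N.rC1d hr (by nlinarith) u0') (R.uu_2 r lam w z _ D rfl g0 g1)

theorem r_uu_3 (N : Nod V T e) (R : Rows V) (hκ : κ * h0 = kenE (1 - e)) (H : HT y z)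
    (z0 : z < 0) (u0 : y + z < 0) (hX : X = c1n (1 + (y + z)) + c1n (1 + z))
    (x0 : 1 + xiq 1 e y ≤ X) (x1 : X ≤ 1 + (xi1 (-y) 1 + 3 / 20 * dQ 1 y)) :
    OKV V T κ (1 - e) X (c1n (1 + (y + z))) y (1 + z) := by
  obtain ⟨r, lam, w, z, rfl, rfl, rfl, D⟩ := scl (P := .pnn) N.e0 N.e1 ⟨H.y0, z0.le, u0.le⟩
    (neg_pos.2 z0) (by show -z ≤ 1 / 16; linarith [H.z0])
  have hr := D.r0
  have hy := H.y0
  have hy1 := H.y1
  have hz := H.z0
  have hz1 := H.z1
  have hu := H.u1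
  have eu : r * w + r * z = r * (w + z) := by ring
  have w0 : 0 ≤ w := nonneg_of_mul_nonneg_right hy hr
  have z0' : z < 0 := by
    by_contra hh
    push Not at hh
    nlinarith [mul_nonneg hr.le hh]
  have u0' : w + z < 0 := by
    by_contra hh
    push Not at hh
    nlinarith [mul_nonneg hr.le hh]
  have f0 : c1n (1 + r * (w + z)) = 1 / 2 + r * xi1 (w + z) r := p_c1' (by nlinarith) (by nlinarith)
  have f1 : c1n (1 + r * z) = 1 / 2 + r * xi1 z r := p_c1' (by nlinarith) (by nlinarith)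
  rw [eu] at hu hX ⊢
  rw [f0, f1] at hX
  have hx : X = 1 + r * (xi1 (w + z) r + xi1 z r) := by linarith
  rw [hx, xiq_h] at x0
  rw [hx, xi1n_h, dQ_h] at x1
  rw [hx, f0]
  have g0 := rel_le hr x0 rfl
  have g1 : r * (xi1 (w + z) r + xi1 z r - xi1 (-w) r) ≤ 3 / 20 * dQ r w := by linarith
  exact okv_U D hκ H rfl (N.rH3 hr w0 hy1 g0 g1) (N.rC1d hr hz z0')
    (N.rC1d hr (by nlinarith) u0') (R.uu_3 r lam w z _ D rfl g0 g1)

end

end Pool.Agent.Strip051.LC.E1
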