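import Pool.Agent.Strip051.LC.E1.VcC

/-! # Rests near the full period, the vertical window: the level of the triangle -/

namespace Pool.Agent.Strip051.LC.E1

open Pool.Agent.StripNear Pool.Agent.StripSquare Pool.Agent.Strip051 Pool.Agent.Strip051.Sweep
open Pool.Agent.Strip051.PB
open Pool.Agent.Strip051.LC.E0.G (om cc1 xi1 sg1 cc3 xi3 sg3 xiw dwl dwu)
open G

section

variable {e t t' : ℝ}

theorem psi_lip {T T' : ℝ} (h : T ≤ T') (hT : T' ≤ 1219 / 10000) :
    137421 / 200000 * ((hg (T' - 29 / 400) / (171 / 400)) ^ 2 -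
        (hg (T - 29 / 400) / (171 / 400)) ^ 2) -
      605345 / 1000000 * ((hg (T' - 9 / 100) / (41 / 100)) ^ 2 -
        (hg (T - 9 / 100) / (41 / 100)) ^ 2) ≤ 142 / 1000 * (T' - T) := by
  have m0 := hg_nn (T - 29 / 400)
  have md : hg (T' - 29 / 400) - hg (T - 29 / 400) ≤ T' - T := by
    have : hg (T' - 29 / 400) ≤ hg (T - 29 / 400) + (T' - T) :=
      hg_of (by linarith [@hg_le (T - 29 / 400)]) (by linarith)
    linarith
  have mm : hg (T - 29 / 400) ≤ hg (T' - 29 / 400) :=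
    hg_of (by linarith [@hg_le (T' - 29 / 400)]) (hg_nn _)
  have D0 : 0 ≤ T' - T := by linarith
  rcases le_total T' (9 / 100) with h1 | h1
  · rw [hg_np (x := T' - 9 / 100) (by linarith), hg_np (x := T - 9 / 100) (by linarith)]
    have m1 : hg (T' - 29 / 400) ≤ 7 / 400 := hg_of (by linarith) (by norm_num)
    obtain ⟨x, hx⟩ : ∃ x, x = hg (T - 29 / 400) := ⟨_, rfl⟩
    obtain ⟨x', hx'⟩ : ∃ x, x = hg (T' - 29 / 400) := ⟨_, rfl⟩
    rw [← hx] at m0 md mm ⊢
    rw [← hx'] at m1 md mm ⊢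
    have k : (x' - x) * (x' + x) ≤ (T' - T) * (7 / 200) :=
      mul_le_mul md (by linarith) (by linarith) D0
    have : x' ^ 2 - x ^ 2 ≤ (T' - T) * (7 / 200) := by linarith
    rw [div_pow, div_pow]
    linarith
  rw [hg_1 (x := T' - 9 / 100) (by linarith), hg_1 (x := T' - 29 / 400) (by linarith)] at *
  rcases le_total T (9 / 100) with h2 | h2
  · rw [hg_np (x := T - 9 / 100) (by linarith)]
    have m1 : hg (T - 29 / 400) ≤ 7 / 400 := hg_of (by linarith) (by norm_num)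
    obtain ⟨x, hx⟩ : ∃ x, x = hg (T - 29 / 400) := ⟨_, rfl⟩
    rw [← hx] at m0 m1 md mm ⊢
    have k : (7 / 400 - x) * (7 / 400 + x) ≤ (7 / 400 - x) * (7 / 200) :=
      mul_le_mul_of_nonneg_left (by linarith) (by linarith)
    have k2 : (T' - 9 / 100) ^ 2 ≤ 319 / 10000 * (T' - T) := by nlinarith
    rw [div_pow, div_pow, div_pow, div_pow]
    nlinarith
  · rw [hg_1 (x := T - 9 / 100) (by linarith), hg_1 (x := T - 29 / 400) (by linarith)]
    have k : (T' - T) * (T' + T) ≤ (T' - T) * (2438 / 10000) :=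
      mul_le_mul_of_nonneg_left (by linarith) D0
    nlinarith

/-- The increments of the second level function from below. -/
theorem bL_inc' (he : 0 < e) (he1 : e ≤ 1 / 40) (ht0 : 0 ≤ t) (ht : t ≤ t')
    (ht1 : t' ≤ 1407 / 10000) :
    -((2 / 100 + 444 / 100 * e) * (t' - t)) ≤ bL e 1 e t' - bL e 1 e t := by
  obtain ⟨S1, S2, S3, S4, S5, h⟩ := sq_ex he he1 (ht0.trans ht) (by linarith)
  obtain ⟨R1, R2, R3, R4, R5, h'⟩ := sq_ex he he1 ht0 (by linarith)
  obtain ⟨x4, x3, x2, x1, l1, l2, l3, l4⟩ := sq_dd he he1 ht0 ht ht1 h h'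
  have a1 := h3_lo
  have a2 := h3_up
  have ps : 137421 / 200000 * (S2 - R2) - 605345 / 1000000 * (S3 - R3) ≤ 123 / 1000 * (t' - t) := by
    have T1 : Real.sqrt 3 / 2 * t' ≤ 1219 / 10000 := by
      have : Real.sqrt 3 / 2 * t' ≤ 8661 / 10000 * (1407 / 10000) :=
        mul_le_mul a2 ht1 (ht0.trans ht) (by norm_num)
      linarith
    have := psi_lip (T := Real.sqrt 3 / 2 * t) (T' := Real.sqrt 3 / 2 * t')
      (mul_le_mul_of_nonneg_left ht (by linarith)) T1
    have f2 := h.e2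
    have f2' := h'.e2
    have f3 := h.e3
    have f3' := h'.e3
    rw [mul_one] at f2 f2' f3 f3'
    rw [← f2, ← f2', ← f3, ← f3'] at this
    have Td : Real.sqrt 3 / 2 * (t' - t) ≤ 8661 / 10000 * (t' - t) :=
      mul_le_mul_of_nonneg_right a2 (by linarith)
    linarith
  rw [bL_sq h, bL_sq h']
  have A0 : 0 ≤ (2661 / 12500) * (S1 - R1) + (14331 / 50000) * (S2 - R2) +
    (-(13849 / 25000)) * (S3 - R3) + (5519 / 50000) * (S4 - R4) +
        2 / 100 * (t' - t) := by linarith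
  have A1 : 0 ≤ (-(1739 / 200000)) * (S1 - R1) + (-(137421 / 200000)) * (S2 - R2) +
      (114479 / 100000) * (S3 - R3) + (-(107889 / 200000)) * (S4 - R4) +
        131 / 1000 * (t' - t) := by linarith
  have := mul_nonneg (by linarith : 0 ≤ 1 - 40 * e) A0
  have := mul_nonneg he.le A1
  linarith

end

section

variable {e a z p q X d g g' k t t' s : ℝ}

theorem prime_a (hs : 0 ≤ s) (hs1 : s ≤ 129 / 1000) : aL' e 1 e s = aL e 1 e s := by
  have := h3_up
  have k : Real.sqrt 3 / 2 * s ≤ 8661 / 10000 * (129 / 1000) :=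
    mul_le_mul this hs1 hs (by norm_num)
  unfold aL'
  rw [hg_np (by linarith)]
  norm_num

theorem prime_b (hs : 0 ≤ s) (hs1 : s ≤ 129 / 1000) : bL' e 1 e s = bL e 1 e s := by
  have := h3_up
  have k : Real.sqrt 3 / 2 * s ≤ 8661 / 10000 * (129 / 1000) :=
    mul_le_mul this hs1 hs (by norm_num)
  unfold bL'
  rw [hg_np (by linarith)]
  norm_num

/-- The level of the triangle; `ρ` is the deviation of the level of the side middle-top from the
unit circle. -/
theorem lev_bd (he : 0 < e) (he1 : e ≤ 1 / 40) (h : Vg a z p q X d g g' k t t' s) {P ρ : ℝ}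
    (hρ : P = aL e 1 e t' - bL e 1 e t' - ρ) (r1 : -((2109 / 10000 - 362 / 100 * e) * d) ≤ ρ)
    (r2 : ρ ≤ (45 / 100) * d) :
    |bL e 1 e t - P - (2 * bL' e 1 e s - aL' e 1 e s)| ≤ (67 / 100 - 4 * e) * d := by
  obtain ⟨h1, h2, h3, h4, h5, h6⟩ := h.ts
  obtain ⟨s0, s1, t0, tm, tm'⟩ := h.t1
  have d0 := h.b.d0
  obtain ⟨-, b2⟩ := bL_inc he he1 s0 (by linarith : s ≤ t) tm
  have b1 := bL_inc' he he1 s0 (by linarith : s ≤ t) tm
  obtain ⟨g1, g2⟩ := gL_inc he he1 s0 (by linarith : s ≤ t') tm'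
  rw [prime_a s0 s1, prime_b s0 s1, hρ]
  have c1 := mul_le_mul_of_nonneg_left h4 (by linarith : 0 ≤ 2 / 100 + 444 / 100 * e)
  have c2 := mul_le_mul_of_nonneg_left h4 (by linarith : 0 ≤ 32 / 100 - 672 / 100 * e)
  have c3 := mul_le_mul_of_nonneg_left h6 (by linarith : 0 ≤ 555 / 1000 - 416 / 100 * e)
  have de := mul_nonneg he.le d0
  have de1 : e * d ≤ 1 / 40 * d := mul_le_mul_of_nonneg_right he1 d0
  rw [abs_le]
  constructor
  · linarith
  · linarith

/-- The side middle-top between the unit circle and `W`. -/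
theorem rho_1 (he : 0 < e) (he1 : e ≤ 1 / 40) (hU : Up z) {σ : ℝ} (σ0 : 0 ≤ σ)
    (hσ : σ * dD z = d) :
    -((2065 / 10000 * (1 - 40 * e)) * d) ≤
      σ * (aL e 1 e (sg1 z 1) - bL e 1 e (sg1 z 1) - 3097 / 10000 * hg (z - 5 / 2 * e)) ∧
    σ * (aL e 1 e (sg1 z 1) - bL e 1 e (sg1 z 1) - 3097 / 10000 * hg (z - 5 / 2 * e)) ≤
      (3792 / 10000 - 62 / 10 * e) * d := by
  obtain ⟨g1, g2⟩ := gL_up he he1 hU.t0 hU.tm
  obtain ⟨p1, p2⟩ := pW_bd he he1 hU
  have a0 := hU.a0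
  have a1 := hU.a1
  have d1 := hU.dlo
  have t1 := hU.tup
  have z2 : z ^ 2 ≤ 1 / 16 * z := by nlinarith
  have z20 := sq_nonneg z
  have k1 : sg1 z 1 ≤ 13535 / 10000 * dD z := by linarith
  have k2 : z ≤ 2 / 3 * dD z := by linarith
  rw [← hσ]
  constructor
  · have c := mul_le_mul_of_nonneg_right k2 (by linarith : 0 ≤ 1 - 40 * e)
    have c2 : -(2065 / 10000 * (1 - 40 * e) * dD z) ≤
      aL e 1 e (sg1 z 1) - bL e 1 e (sg1 z 1) - 3097 / 10000 * hg (z - 5 / 2 * e) := by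
      have : 0 ≤ (1 - 40 * e) * dD z := mul_nonneg (by linarith) (by linarith)
      linarith
    have := mul_le_mul_of_nonneg_left c2 σ0
    linarith
  · have c := mul_le_mul_of_nonneg_left k1 (by linarith : 0 ≤ 28 / 100 - 46 / 10 * e)
    have c2 : aL e 1 e (sg1 z 1) - bL e 1 e (sg1 z 1) - 3097 / 10000 * hg (z - 5 / 2 * e) ≤
      (3792 / 10000 - 62 / 10 * e) * dD z := by
      have : 0 ≤ e * dD z := mul_nonneg he.le (by linarith)
      have : 0 ≤ dD z := by linarith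
      linarith
    have := mul_le_mul_of_nonneg_left c2 σ0
    linarith

/-- The distance to `W` is at most half the distance to the unit circle. -/
theorem Vc.y (h : Vc a z p q X d) : d ≤ 3 * z + 3 / 2 * z ^ 2 := by
  have a0 := h.a0
  have a1 := h.a1
  have z0 := h.z0
  have za := h.za
  have dd := h.dd
  have pu := h.pup
  have ql := h.qlo
  have x0 := h.x0
  have xx := h.xx
  have k : 3 / 2 * (a - z) ≤ X := by
    refine abs_le_of_sq_le_sq' ?_ x0 |>.2
    rw [xx]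
    nlinarith
  nlinarith

end

end Pool.Agent.Strip051.LC.E1
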