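import Pool.Agent.Strip051.LC.E1.VcA

/-! # Rests near the full period, the vertical window: the moments of the kernels -/

namespace Pool.Agent.Strip051.LC.E1

open Pool.Agent.StripNear Pool.Agent.StripSquare Pool.Agent.Strip051 Pool.Agent.Strip051.Sweep
open Pool.Agent.Strip051.PB
open G

section

variable {a z p q X d g g' k t t' s κ0 n1 n2 n3 ν : ℝ}

/-- The second moment. -/
noncomputable def vM (a z d g' k κ0 n2 n3 ν : ℝ) : ℝ :=
  (a - z) * ((1 / 2 - g') * (κ0 + n2) + d * ν) - z * (k * (κ0 + n3))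

/-- The defect of the kernels. -/
noncomputable def vD (d g g' k κ0 n1 n2 n3 ν : ℝ) : ℝ :=
  (1 / 2 - g') * (κ0 + n2) + d * ν + k * (κ0 + n3) - (1 / 2 + g) * (κ0 + n1)

theorem vM_eq (h : Vg a z p q X d g g' k t t' s) : vM a z d g' k κ0 n2 n3 ν =
    k * (s * (d * ν) - (1 / 2 - g') * ((t' - s) * (κ0 + n2) + t' * (n3 - n2))) := by
  have h1 := h.ec
  have h2 := h.ez
  unfold vM
  linear_combination ((1 / 2 - g') * (κ0 + n2) + d * ν) * h1 - k * (κ0 + n3) * h2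

theorem vD_eq : vD d g g' k κ0 n1 n2 n3 ν = -((g + g' - k) * (κ0 + n1) +
    (1 / 2 - g') * (n1 - n2) + k * (n1 - n3) - d * ν) := by
  unfold vD
  ring

/-- The moment from bounds of the parts. -/
theorem vM_bd (h : Vg a z p q X d g g' k t t' s) {m M w W y Y : ℝ} (hm : 0 ≤ m) (hM : 0 ≤ M)
    (n5 : -m ≤ ν) (n6 : ν ≤ M)
    (h1 : -(w * d) ≤ (t' - s) * (κ0 + n2) + t' * (n3 - n2))
    (h2 : (t' - s) * (κ0 + n2) + t' * (n3 - n2) ≤ W * d) (hw : 0 ≤ w) (hW : 0 ≤ W)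
    (hy : 985 / 10000 * (129 / 1000 * m + W / 2) ≤ y)
    (hY : 985 / 10000 * (129 / 1000 * M + w / 2) ≤ Y) :
    -(y * d) ≤ vM a z d g' k κ0 n2 n3 ν ∧ vM a z d g' k κ0 n2 n3 ν ≤ Y * d := by
  obtain ⟨s0, s1, t0, tm, tm'⟩ := h.t1
  obtain ⟨g2, g3⟩ := h.g0'
  have d0 := h.b.d0
  have k0 := h.k0
  have k1 := h.k1
  rw [vM_eq h]
  obtain ⟨F, hF⟩ : ∃ F, F = (t' - s) * (κ0 + n2) + t' * (n3 - n2) := ⟨_, rfl⟩
  rw [← hF] at h1 h2 ⊢
  have q0 : 0 ≤ 1 / 2 - g' := by linarith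
  have q1 : 1 / 2 - g' ≤ 1 / 2 := by linarith
  have wd : 0 ≤ w * d := mul_nonneg hw d0
  have Wd : 0 ≤ W * d := mul_nonneg hW d0
  have a1 : (1 / 2 - g') * F ≤ 1 / 2 * (W * d) := by
    have i1 := mul_le_mul_of_nonneg_left h2 q0
    have i2 := mul_le_mul_of_nonneg_right q1 Wd
    linarith
  have a2 : -(1 / 2 * (w * d)) ≤ (1 / 2 - g') * F := by
    have i1 := mul_le_mul_of_nonneg_left h1 q0
    have i2 := mul_le_mul_of_nonneg_right q1 wd
    linarith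
  have b1 : s * (d * ν) ≤ 129 / 1000 * (M * d) := by
    have i1 : s * (d * ν) ≤ s * (d * M) :=
      mul_le_mul_of_nonneg_left (mul_le_mul_of_nonneg_left n6 d0) s0
    have i2 := mul_le_mul_of_nonneg_right s1 (mul_nonneg hM d0)
    linarith
  have b2 : -(129 / 1000 * (m * d)) ≤ s * (d * ν) := by
    have i1 : s * (d * -m) ≤ s * (d * ν) :=
      mul_le_mul_of_nonneg_left (mul_le_mul_of_nonneg_left n5 d0) s0
    have i2 := mul_le_mul_of_nonneg_right s1 (mul_nonneg hm d0)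
    linarith
  obtain ⟨Z, hZ⟩ : ∃ Z, Z = s * (d * ν) - (1 / 2 - g') * F := ⟨_, rfl⟩
  rw [← hZ]
  have Z1 : Z ≤ (129 / 1000 * M + w / 2) * d := by rw [hZ]; linarith
  have Z2 : -((129 / 1000 * m + W / 2) * d) ≤ Z := by rw [hZ]; linarith
  have c1 := mul_le_mul_of_nonneg_left Z1 k0
  have c2 := mul_le_mul_of_nonneg_left Z2 k0
  have e1 : k * ((129 / 1000 * M + w / 2) * d) ≤ 985 / 10000 * ((129 / 1000 * M + w / 2) * d) :=
    mul_le_mul_of_nonneg_right k1 (by positivity)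
  have e2 : k * ((129 / 1000 * m + W / 2) * d) ≤ 985 / 10000 * ((129 / 1000 * m + W / 2) * d) :=
    mul_le_mul_of_nonneg_right k1 (by positivity)
  have f1 := mul_le_mul_of_nonneg_right hy d0
  have f2 := mul_le_mul_of_nonneg_right hY d0
  constructor <;> linarith

/-- The moments at the far vertex. -/
theorem vM_far (h : Vg a z p q X d g g' k t t' s) (h1 : -(434 / 100) * t' ≤ n2)
    (h2 : n2 ≤ -(19 / 10) * t') (h3 : 19 / 10 * (t' - s) ≤ n3 - n2)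
    (h4 : n3 - n2 ≤ 76 / 10 * (t' - s)) (n5 : -3 ≤ ν) (n6 : ν ≤ 5 / 2) :
    -(11 / 100 * d) ≤ vM a z d g' k 1 n2 n3 ν ∧ vM a z d g' k 1 n2 n3 ν ≤ 13 / 1000 * d := by
  obtain ⟨s0, s1, t0, tm, tm'⟩ := h.t1
  obtain ⟨t1, t2, t3, t4, t5, t6⟩ := h.ts
  obtain ⟨g2, g3⟩ := h.g0'
  have d0 := h.b.d0
  have k0 := h.k0
  have k1 := h.k1
  have D0 : 0 ≤ t' - s := by linarith
  have tt : 0 ≤ t' := by linarith
  have F1 : (t' - s) * (1 + n2) + t' * (n3 - n2) ≤ (t' - s) * (1 + 57 / 10 * t') := by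
    have i1 := mul_le_mul_of_nonneg_left (by linarith : 1 + n2 ≤ 1 + -(19 / 10) * t') D0
    have i2 := mul_le_mul_of_nonneg_left h4 tt
    linarith
  have F2 : (t' - s) * (1 - 244 / 100 * t') ≤ (t' - s) * (1 + n2) + t' * (n3 - n2) := by
    have i1 := mul_le_mul_of_nonneg_left (by linarith : 1 + -(434 / 100) * t' ≤ 1 + n2) D0
    have i2 := mul_le_mul_of_nonneg_left h3 tt
    linarith
  have F3 : (t' - s) * (1 + 57 / 10 * t') ≤ 803 / 1000 * d * (1 + 57 / 10 * (1407 / 10000)) :=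
    mul_le_mul t6 (by linarith) (by linarith) (by linarith)
  have F4 : 2 / 3 * d * (1 - 244 / 100 * (1407 / 10000)) ≤ (t' - s) * (1 - 244 / 100 * t') :=
    mul_le_mul t5 (by linarith) (by norm_num) D0
  constructor
  · exact (vM_bd h (m := 3) (M := 5 / 2) (w := 0) (W := 1448 / 1000) (y := 11 / 100)
      (Y := 1) (by norm_num) (by norm_num) n5 n6 (by linarith) (by linarith) (by norm_num)
      (by norm_num) (by norm_num) (by norm_num)).1
  · rw [vM_eq h]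
    have b1 : s * (d * ν) ≤ 129 / 1000 * (5 / 2 * d) := by
      have i1 : s * (d * ν) ≤ s * (d * (5 / 2)) :=
        mul_le_mul_of_nonneg_left (mul_le_mul_of_nonneg_left n6 d0) s0
      have i2 := mul_le_mul_of_nonneg_right s1 (by linarith : 0 ≤ 5 / 2 * d)
      linarith
    have c1 : 445 / 1000 * (2 / 3 * d * (1 - 244 / 100 * (1407 / 10000))) ≤
        (1 / 2 - g') * ((t' - s) * (1 + n2) + t' * (n3 - n2)) :=
      mul_le_mul (by linarith) (by linarith) (by linarith) (by linarith)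
    have Z : s * (d * ν) - (1 / 2 - g') * ((t' - s) * (1 + n2) + t' * (n3 - n2)) ≤
        128 / 1000 * d := by linarith
    have i1 := mul_le_mul_of_nonneg_left Z k0
    have i2 := mul_le_mul_of_nonneg_right k1 (by linarith : 0 ≤ 128 / 1000 * d)
    linarith

/-- The moments at the near vertex. -/
theorem vM_near (h : Vg a z p q X d g g' k t t' s) (hκ : 1349 / 1000 ≤ κ0) (hκ1 : κ0 ≤ 11 / 8)
    (h1 : -(103 / 10) * t' ≤ n2) (h2 : n2 ≤ 8 * t') (h3 : -(8 * (t' - s)) ≤ n3 - n2)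
    (h4 : n3 - n2 ≤ 103 / 10 * (t' - s)) (n5 : -(475 / 100) ≤ ν) (n6 : ν ≤ 49 / 10) :
    -(22 / 100 * d) ≤ vM a z d g' k κ0 n2 n3 ν ∧ vM a z d g' k κ0 n2 n3 ν ≤ 111 / 1000 * d := by
  obtain ⟨s0, s1, t0, tm, tm'⟩ := h.t1
  obtain ⟨t1, t2, t3, t4, t5, t6⟩ := h.ts
  have d0 := h.b.d0
  have D0 : 0 ≤ t' - s := by linarith
  have tt : 0 ≤ t' := by linarith
  have F1 : (t' - s) * (κ0 + n2) + t' * (n3 - n2) ≤ (t' - s) * (11 / 8 + 183 / 10 * t') := by
    have i1 := mul_le_mul_of_nonneg_left (by linarith : κ0 + n2 ≤ 11 / 8 + 8 * t') D0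
    have i2 := mul_le_mul_of_nonneg_left h4 tt
    linarith
  have F2 : (t' - s) * (1349 / 1000 - 183 / 10 * t') ≤
      (t' - s) * (κ0 + n2) + t' * (n3 - n2) := by
    have i1 := mul_le_mul_of_nonneg_left
      (by linarith : 1349 / 1000 + -(103 / 10) * t' ≤ κ0 + n2) D0
    have i2 := mul_le_mul_of_nonneg_left h3 tt
    linarith
  have F3 : (t' - s) * (11 / 8 + 183 / 10 * t') ≤
      803 / 1000 * d * (11 / 8 + 183 / 10 * (1407 / 10000)) :=
    mul_le_mul t6 (by linarith) (by linarith) (by linarith)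
  have F4 : (t' - s) * (183 / 10 * (1407 / 10000) - 1349 / 1000) ≤
      803 / 1000 * d * (183 / 10 * (1407 / 10000) - 1349 / 1000) :=
    mul_le_mul_of_nonneg_right t6 (by norm_num)
  have F5 : (t' - s) * (1349 / 1000 - 183 / 10 * (1407 / 10000)) ≤
      (t' - s) * (1349 / 1000 - 183 / 10 * t') :=
    mul_le_mul_of_nonneg_left (by linarith) D0
  exact vM_bd h (m := 475 / 100) (M := 49 / 10) (w := 9844 / 10000) (W := 3172 / 1000)
    (y := 22 / 100) (Y := 111 / 1000) (by norm_num) (by norm_num) n5 n6 (by linarith)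
    (by linarith) (by norm_num) (by norm_num) (by norm_num) (by norm_num)

/-- The defect at the far vertex. -/
theorem vD_far (h : Vg a z p q X d g g' k t t' s) (h1 : -(434 / 100) * t ≤ n1)
    (h2 : n1 ≤ 0) (h3 : 0 ≤ n1 - n2) (h4 : n1 - n2 ≤ 76 / 10 * (t' - t)) (h5 : 0 ≤ n3 - n1)
    (h6 : n3 - n1 ≤ 76 / 10 * (t - s)) (n5 : -3 ≤ ν) (n6 : ν ≤ 5 / 2) :
    |vD d g g' k 1 n1 n2 n3 ν| ≤ 46 / 10 * d := by
  obtain ⟨s0, s1, t0, tm, tm'⟩ := h.t1
  obtain ⟨t1, t2, t3, t4, t5, t6⟩ := h.ts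
  obtain ⟨g2, g3⟩ := h.g0'
  obtain ⟨Q0, Q1⟩ := h.Q
  have d0 := h.b.d0
  have k0 := h.k0
  have k1 := h.k1
  have A1 : (g + g' - k) * (1 + n1) ≤ 517 / 1000 * d * 1 :=
    mul_le_mul Q1 (by linarith) (by linarith) (by linarith)
  have A2 : 0 ≤ (g + g' - k) * (1 + n1) := mul_nonneg Q0 (by linarith)
  have B1 : (1 / 2 - g') * (n1 - n2) ≤ 1 / 2 * (76 / 10 * (272 / 1000 * d)) :=
    mul_le_mul (by linarith) (by linarith) h3 (by norm_num)
  have B2 : 0 ≤ (1 / 2 - g') * (n1 - n2) := mul_nonneg (by linarith) h3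
  have C1 : k * (n3 - n1) ≤ 985 / 10000 * (76 / 10 * (2 / 3 * d)) :=
    mul_le_mul k1 (by linarith) h5 (by norm_num)
  have C2 : 0 ≤ k * (n3 - n1) := mul_nonneg k0 h5
  have D1 := mul_le_mul_of_nonneg_left n6 d0
  have D2 := mul_le_mul_of_nonneg_left n5 d0
  rw [vD_eq, abs_neg, abs_le]
  constructor <;> linarith

/-- The defect at the near vertex. -/
theorem vD_near (h : Vg a z p q X d g g' k t t' s) (hκ : 1349 / 1000 ≤ κ0) (hκ1 : κ0 ≤ 11 / 8)
    (h1 : -(103 / 10) * t ≤ n1) (h2 : n1 ≤ 8 * t) (h3 : -(8 * (t' - t)) ≤ n1 - n2)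
    (h4 : n1 - n2 ≤ 103 / 10 * (t' - t)) (h5 : -(8 * (t - s)) ≤ n3 - n1)
    (h6 : n3 - n1 ≤ 103 / 10 * (t - s)) (n5 : -(475 / 100) ≤ ν) (n6 : ν ≤ 49 / 10) :
    |vD d g g' k κ0 n1 n2 n3 ν| ≤ 8 * d := by
  obtain ⟨s0, s1, t0, tm, tm'⟩ := h.t1
  obtain ⟨t1, t2, t3, t4, t5, t6⟩ := h.ts
  obtain ⟨g2, g3⟩ := h.g0'
  obtain ⟨Q0, Q1⟩ := h.Q
  have d0 := h.b.d0
  have k0 := h.k0
  have k1 := h.k1
  have A1 : (g + g' - k) * (κ0 + n1) ≤ 517 / 1000 * d * (251 / 100) := by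
    have i1 := mul_le_mul_of_nonneg_left (by linarith : κ0 + n1 ≤ 251 / 100) Q0
    have i2 := mul_le_mul_of_nonneg_right Q1 (by norm_num : (0 : ℝ) ≤ 251 / 100)
    linarith
  have A2 : -(517 / 1000 * d * (101 / 1000)) ≤ (g + g' - k) * (κ0 + n1) := by
    have i1 := mul_le_mul_of_nonneg_left (by linarith : -(101 / 1000) ≤ κ0 + n1) Q0
    have i2 := mul_le_mul_of_nonneg_right Q1 (by norm_num : (0 : ℝ) ≤ 101 / 1000)
    linarith
  have q0 : 0 ≤ 1 / 2 - g' := by linarith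
  have q1 : 1 / 2 - g' ≤ 1 / 2 := by linarith
  have B1 : (1 / 2 - g') * (n1 - n2) ≤ 1 / 2 * (103 / 10 * (272 / 1000 * d)) := by
    have i1 := mul_le_mul_of_nonneg_left (by linarith : n1 - n2 ≤ 103 / 10 * (272 / 1000 * d)) q0
    have i2 := mul_le_mul_of_nonneg_right q1 (by linarith : 0 ≤ 103 / 10 * (272 / 1000 * d))
    linarith
  have B2 : -(1 / 2 * (8 * (272 / 1000 * d))) ≤ (1 / 2 - g') * (n1 - n2) := by
    have i1 := mul_le_mul_of_nonneg_left (by linarith : -(8 * (272 / 1000 * d)) ≤ n1 - n2) q0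
    have i2 := mul_le_mul_of_nonneg_right q1 (by linarith : 0 ≤ 8 * (272 / 1000 * d))
    linarith
  have C1 : k * (n3 - n1) ≤ 985 / 10000 * (103 / 10 * (2 / 3 * d)) := by
    have i1 := mul_le_mul_of_nonneg_left (by linarith : n3 - n1 ≤ 103 / 10 * (2 / 3 * d)) k0
    have i2 := mul_le_mul_of_nonneg_right k1 (by linarith : 0 ≤ 103 / 10 * (2 / 3 * d))
    linarith
  have C2 : -(985 / 10000 * (8 * (2 / 3 * d))) ≤ k * (n3 - n1) := by
    have i1 := mul_le_mul_of_nonneg_left (by linarith : -(8 * (2 / 3 * d)) ≤ n3 - n1) k0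
    have i2 := mul_le_mul_of_nonneg_right k1 (by linarith : 0 ≤ 8 * (2 / 3 * d))
    linarith
  have D1 := mul_le_mul_of_nonneg_left n6 d0
  have D2 := mul_le_mul_of_nonneg_left n5 d0
  rw [vD_eq, abs_neg, abs_le]
  constructor <;> linarith

end

end Pool.Agent.Strip051.LC.E1
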