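import Pool.Agent.Strip051.LC.E1.VcA

/-! # Rests near the full period, the vertical window: the last inequalities -/

namespace Pool.Agent.Strip051.LC.E1

open Pool.Agent.StripNear Pool.Agent.StripSquare Pool.Agent.Strip051 Pool.Agent.Strip051.Sweep
open Pool.Agent.Strip051.PB
open G

section

variable {e a z p q X d g g' k t t' s L M D Y : ℝ}

theorem LL_nn (he : 0 < e) (he1 : e ≤ 1 / 40) : 0 ≤ LAM e ∧ 1 - 3 * e ≤ LAM e := by
  have := LAM_lo he he1
  constructor <;> nlinarith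

theorem e_pow (he : 0 < e) (he1 : e ≤ 1 / 40) : 0 ≤ e ^ 2 ∧ 0 ≤ e ^ 3 ∧ 0 ≤ e ^ 4 ∧
    e ^ 2 ≤ 1 / 40 * e ∧ e ^ 3 ≤ 1 / 1600 * e ∧ e ^ 4 ≤ 1 / 64000 * e := by
  have h2 : e ^ 2 ≤ 1 / 40 * e := by nlinarith
  have h3 : e ^ 3 ≤ 1 / 1600 * e := by
    have : e * e ^ 2 ≤ e * (1 / 40 * e) := mul_le_mul_of_nonneg_left h2 he.le
    linarith
  have h4 : e ^ 4 ≤ 1 / 64000 * e := by
    have : e * e ^ 3 ≤ e * (1 / 1600 * e) := mul_le_mul_of_nonneg_left h3 he.le
    linarith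
  exact ⟨by positivity, by positivity, by positivity, h2, h3, h4⟩

theorem c_up (h : Vc a z p q X d) : a - z ≤ 126 / 10000 := by
  have := h.xx
  have := h.xd
  have := h.x0
  have := h.d0
  have := h.a1
  have := h.za
  have := h.z0
  nlinarith

theorem eh_1 (he : 0 < e) (he1 : e ≤ 1 / 40) : eh e ≤ 1 := by
  have E1 := eh_up he he1
  nlinarith

theorem fin_aux (he : 0 < e) (he1 : e ≤ 1 / 40) {W : ℝ} (hW : 0 ≤ W) :
    e * eh e * W / (1 - e) ≤ e * W := by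
  have E1 := eh_up he he1
  have : eh e ≤ 1 - e := by nlinarith
  rw [div_le_iff₀ (by linarith)]
  have i1 := mul_le_mul_of_nonneg_left this (mul_nonneg he.le hW)
  linarith

theorem W_up {A C : ℝ} (d0 : 0 ≤ d) (a0 : 0 ≤ a) (a1 : a ≤ 1) (hC : 0 ≤ C) (M1 : -(C * d) ≤ M)
    (hD : |D| ≤ A * d) : 0 ≤ |D| * (1 - a) + max (-M) 0 ∧
      |D| * (1 - a) + max (-M) 0 ≤ (A + C) * d := by
  have i0 := abs_nonneg D
  have i1 : 0 ≤ |D| * (1 - a) := mul_nonneg i0 (by linarith)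
  have i2 : 0 ≤ |D| * a := mul_nonneg i0 a0
  have i3 : max (-M) 0 ≤ C * d := max_le (by linarith) (mul_nonneg hC d0)
  have i4 : 0 ≤ max (-M) 0 := le_max_right _ _
  constructor <;> linarith

/-- The last inequality at the far vertex. -/
theorem fin_far (he : 0 < e) (he1 : e ≤ 1 / 40) (d0 : 0 ≤ d) (a0 : 0 ≤ a) (a1 : a ≤ 1)
    (hL : |L| ≤ LAM e * ((67 / 100 - 4 * e) * d)) (M1 : -(11 / 100 * d) ≤ M)
    (M2 : M ≤ 13 / 1000 * d) (hD : |D| ≤ 46 / 10 * d) (hG : 2 / 5 * d ≤ Y) :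
    |L| / 2 + eh e * max M 0 + e * eh e * (|D| * (1 - a) + max (-M) 0) / (1 - e) ≤ Y := by
  obtain ⟨W0, W1⟩ := W_up (A := 46 / 10) (C := 11 / 100) d0 a0 a1 (by norm_num) M1 hD
  have F := fin_aux he he1 W0
  have E1 := eh_up he he1
  have E0 := (eh_pos he (by linarith)).le
  have E2 := eh_1 he he1
  have m1 : max M 0 ≤ 13 / 1000 * d := max_le M2 (by linarith)
  have m0 : 0 ≤ max M 0 := le_max_right _ _
  have i1 : eh e * max M 0 ≤ 1 * (13 / 1000 * d) := mul_le_mul E2 m1 m0 (by norm_num)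
  have i2 := mul_le_mul_of_nonneg_left W1 he.le
  have L1 := LAM_up he he1
  have i3 : LAM e * ((67 / 100 - 4 * e) * d) ≤ (1 - 3 * e + 6 * e ^ 2) * ((67 / 100 - 4 * e) * d) :=
    mul_le_mul_of_nonneg_right L1 (mul_nonneg (by linarith) d0)
  have i4 : ((1 - 3 * e + 6 * e ^ 2) * (67 / 100 - 4 * e) / 2 + 13 / 1000 + 471 / 100 * e) * d ≤
      2 / 5 * d := by
    refine mul_le_mul_of_nonneg_right ?_ d0
    obtain ⟨p2, p3, p4, e2, e3, e4⟩ := e_pow he he1
    linarith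
  linarith

/-- The last inequality at the near vertex. -/
theorem fin_near (he : 0 < e) (he1 : e ≤ 1 / 40) (h : Vg a z p q X d g g' k t t' s) {A B : ℝ}
    (hL : |L| ≤ LAM e * ((67 / 100 - 4 * e) * d)) (M1 : -(22 / 100 * d) ≤ M)
    (M2 : M ≤ 111 / 1000 * d) (hD : |D| ≤ 8 * d) (hG : 2 / 5 * d ≤ Y)
    (hA : -(1 / 5 * t ^ 2) ≤ A) (hB : -(1 / 4 * d) ≤ B) :
    G.mu e * ((2 - e + (a - z)) / 2 * |L| - ((1 + z) * (LAM e * A) + (1 - a) * (LAM e * B)) / 2) +
      eh e * max M 0 + e * eh e * (|D| * (1 - a) + max (-M) 0) / (1 - e) ≤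
      (1 + LAM e * G.mu e) * Y + G.mu e * LAM e * (a - z) / 4 := by
  obtain ⟨s0, s1, t0, tm, tm'⟩ := h.t1
  obtain ⟨t1, t2, t3, t4, t5, t6⟩ := h.ts
  have d0 := h.b.d0
  have a0 := h.b.a0
  have a1 := h.b.a1
  have z0 := h.b.z0
  have za := h.b.za
  obtain ⟨W0, W1⟩ := W_up (A := 8) (C := 22 / 100) d0 a0.le (by linarith) (by norm_num) M1 hD
  have F := fin_aux he he1 W0
  have E1 := eh_up he he1
  have E0 := (eh_pos he (by linarith)).le
  have E2 := eh_1 he he1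
  have m1 : max M 0 ≤ 111 / 1000 * d := max_le M2 (by linarith)
  have m0 : 0 ≤ max M 0 := le_max_right _ _
  have i1 : eh e * max M 0 ≤ 1 * (111 / 1000 * d) := mul_le_mul E2 m1 m0 (by norm_num)
  have i2 := mul_le_mul_of_nonneg_left W1 he.le
  have L1 := LAM_up he he1
  have L0 := LAM_lo he he1
  obtain ⟨LL, LL1⟩ := LL_nn he he1
  have u0 := mu_lo he he1
  have u1 := mu_up he he1
  -- the bracket
  have c1 := c_up h.b
  have c2 : 3 / 4 * s ^ 2 ≤ a - z := by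
    have h1 := h.sk
    have h2 := h.ec
    have k0 := h.k0
    have : 3 / 4 * s ≤ k := by
      have : 0 ≤ s * k ^ 2 := by positivity
      linarith
    have := mul_le_mul_of_nonneg_left this s0
    linarith
  have t2' : t ^ 2 ≤ s ^ 2 + 18 / 100 * d := by
    have : (t - s) * (t + s) ≤ 2 / 3 * d * (27 / 100) :=
      mul_le_mul t4 (by linarith) (by linarith) (by linarith)
    linarith
  have Br : (2 - e + (a - z)) / 2 * ((67 / 100 - 4 * e) * d) - ((1 + z) * A + (1 - a) * B) / 2 -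
      (a - z) / 4 ≤ ((10063 / 10000 - e / 2) * (67 / 100 - 4 * e) + 1442 / 10000) * d := by
    have j1 : (2 - e + (a - z)) / 2 * ((67 / 100 - 4 * e) * d) ≤
        (10063 / 10000 - e / 2) * ((67 / 100 - 4 * e) * d) :=
      mul_le_mul_of_nonneg_right (by linarith) (mul_nonneg (by linarith) d0)
    have j2 := mul_le_mul_of_nonneg_left hA (by linarith : 0 ≤ 1 + z)
    have j3 := mul_le_mul_of_nonneg_left hB (by linarith : 0 ≤ 1 - a)
    have j4 : (1 + z) * (1 / 5 * t ^ 2) ≤ 17 / 16 * (1 / 5 * t ^ 2) :=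
      mul_le_mul_of_nonneg_right (by linarith) (by positivity)
    have j5 : (1 - a) * (1 / 4 * d) ≤ 1 * (1 / 4 * d) :=
      mul_le_mul_of_nonneg_right (by linarith) (by linarith)
    have s2 := sq_nonneg s
    linarith
  have K1 : (2 - e + (a - z)) / 2 * |L| ≤
      LAM e * ((2 - e + (a - z)) / 2 * ((67 / 100 - 4 * e) * d)) := by
    have := mul_le_mul_of_nonneg_left hL (by linarith : 0 ≤ (2 - e + (a - z)) / 2)
    linarith
  have K2 : G.mu e * ((2 - e + (a - z)) / 2 * |L| -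
      ((1 + z) * (LAM e * A) + (1 - a) * (LAM e * B)) / 2) - G.mu e * LAM e * (a - z) / 4 ≤
      G.mu e * LAM e * (((10063 / 10000 - e / 2) * (67 / 100 - 4 * e) + 1442 / 10000) * d) := by
    have k1 := mul_le_mul_of_nonneg_left K1 (by linarith : 0 ≤ G.mu e)
    have k2 := mul_le_mul_of_nonneg_left Br (mul_nonneg (by linarith : 0 ≤ G.mu e) LL)
    linarith
  have K3 : G.mu e * LAM e * (((10063 / 10000 - e / 2) * (67 / 100 - 4 * e) + 1442 / 10000) * d) ≤
      1 / 4 * (1 - 3 * e + 6 * e ^ 2) *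
        (((10063 / 10000 - e / 2) * (67 / 100 - 4 * e) + 1442 / 10000) * d) := by
    have k1 : G.mu e * LAM e ≤ 1 / 4 * (1 - 3 * e + 6 * e ^ 2) :=
      mul_le_mul u1 L1 LL (by norm_num)
    refine mul_le_mul_of_nonneg_right k1 (mul_nonneg ?_ d0)
    have : 0 ≤ (10063 / 10000 - e / 2) * (67 / 100 - 4 * e) :=
      mul_nonneg (by linarith) (by linarith)
    linarith
  have K4 : (1 + (1 - 3 * e) * (12 / 49)) * (2 / 5 * d) ≤ (1 + LAM e * G.mu e) * Y := by
    have k1 : (1 - 3 * e) * (12 / 49) ≤ LAM e * G.mu e :=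
      mul_le_mul LL1 u0 (by norm_num) LL
    exact mul_le_mul (by linarith) hG (by linarith) (by linarith [mul_nonneg LL (by linarith : 0 ≤ G.mu e)])
  have K5 : (1 / 4 * (1 - 3 * e + 6 * e ^ 2) *
      ((10063 / 10000 - e / 2) * (67 / 100 - 4 * e) + 1442 / 10000) + 111 / 1000 +
        822 / 100 * e) * d ≤ (1 + (1 - 3 * e) * (12 / 49)) * (2 / 5) * d := by
    refine mul_le_mul_of_nonneg_right ?_ d0
    obtain ⟨p2, p3, p4, e2, e3, e4⟩ := e_pow he he1
    linarith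
  linarith

end

end Pool.Agent.Strip051.LC.E1
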