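import Pool.Agent.Strip051.LC.E1.VcB
import Pool.Agent.Strip051.LC.E1.VcE
import Pool.Agent.Strip051.LC.E1.VcF
import Pool.Agent.Strip051.LC.E1.VcG

/-! # Rests near the full period, the vertical window: the inequality in the unit scale -/

namespace Pool.Agent.Strip051.LC.E1

open Pool.Agent.StripNear Pool.Agent.StripSquare Pool.Agent.Strip051 Pool.Agent.Strip051.Sweep
open Pool.Agent.Strip051.PB
open Pool.Agent.Strip051.LC.E0.G (om cc1 xi1 sg1 cc3 xi3 sg3 xiw dwl dwu)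
open G

section

variable {e a z d : ℝ}

theorem cc1_sq {y : ℝ} (h : 3 / 4 * (1 + y) ^ 2 ≤ 1) : cc1 y 1 ^ 2 + 3 / 4 * (1 + y) ^ 2 = 1 := by
  unfold cc1
  rw [one_mul, Real.sq_sqrt (by linarith)]
  ring

/-- The tangent of the half angle. -/
theorem g1_mul {y : ℝ} (h : 3 / 4 * (1 + y) ^ 2 ≤ 1) (h0 : -(1 / 16) ≤ y) :
    g1 y 1 * (2 + y) = 1 / 2 - cc1 y 1 := by
  have h1 := cc1_sq h
  have h2 : 0 ≤ cc1 y 1 := by unfold cc1; exact Real.sqrt_nonneg _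
  have h3 := xi1_1 h
  have h4 : 1 + (cc1 y 1 / 2 + 3 / 4 * (1 + 1 * y)) ≠ 0 := by linarith
  have h5 : sg1 y 1 = y / 2 + (1 / 2 - cc1 y 1) := by
    unfold sg1
    rw [h3]
    ring
  unfold g1
  rw [h5, div_mul_eq_mul_div, div_eq_iff h4]
  linear_combination (1 / 2) * h1

/-- The abscissas of the triangle. -/
abbrev VC (a z d : ℝ) : Prop := Vc a z (cc1 (-a) 1) (cc1 z 1) (x3v (-(a - z)) 1) d

abbrev VG (a z d : ℝ) : Prop :=
  Vg a z (cc1 (-a) 1) (cc1 z 1) (x3v (-(a - z)) 1) d (-g1 (-a) 1) (g1 z 1)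
    (x3v (-(a - z)) 1 / (2 + -(a - z) / 2)) (-sg1 (-a) 1) (sg1 z 1) (2 / 3 * x3v (-(a - z)) 1)

theorem vc_of (a0 : 0 < a) (a1 : a ≤ 1 / 16) (z0 : 0 ≤ z) (za : z ≤ a)
    (dd : cc1 (-a) 1 - cc1 z 1 = x3v (-(a - z)) 1 + d) (d0 : 0 ≤ d) : VC a z d := by
  have h1 := dn a0 a1
  have h2 := up z0 (by linarith)
  have e1 : 3 / 4 * (1 + -a) ^ 2 ≤ 1 := by nlinarith
  have e2 : 3 / 4 * (1 + z) ^ 2 ≤ 1 := by nlinarith
  have e3 : -(3 * -(a - z) / 1) - 3 / 4 * (-(a - z)) ^ 2 = 3 * (a - z) - 3 / 4 * (a - z) ^ 2 := by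
    ring
  have e4 : 0 ≤ 3 * (a - z) - 3 / 4 * (a - z) ^ 2 := by nlinarith
  refine ⟨a0, a1, z0, za, h1.clo, h1.cup, ?_, h2.clo, h2.cup, cc1_sq e2, ?_, ?_, dd, d0⟩
  · have := cc1_sq e1
    linarith
  · unfold x3v
    exact Real.sqrt_nonneg _
  · unfold x3v
    rw [e3, Real.sq_sqrt e4]

theorem vg_of (h : VC a z d) : VG a z d := by
  have h1 := dn h.a0 h.a1
  have h2 := up h.z0 (by linarith [h.za, h.a1])
  have a1 := h.a1
  have z0 := h.z0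
  have za := h.za
  have a0 := h.a0
  have e1 := g1_mul (y := -a) (by nlinarith) (by linarith)
  have e2 := g1_mul (y := z) (by nlinarith) (by linarith)
  refine ⟨h, h1.t, h2.t, rfl, ?_, ?_, ?_⟩
  · linear_combination -e1
  · linear_combination e2
  · have : 2 + -(a - z) / 2 ≠ 0 := by linarith
    rw [div_mul_eq_mul_div, div_eq_iff this]
    ring

/-- The height of the side middle-top is positive. -/
theorem Vc.zp {p q X : ℝ} (h : Vc a z p q X d) : 0 < z := by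
  rcases h.z0.eq_or_lt with hz | hz
  · exfalso
    have y := h.y
    have d0 := h.d0
    have dd := h.dd
    have pu := h.pup
    have ql := h.qlo
    have x0 := h.x0
    have xx := h.xx
    have a0 := h.a0
    have a1 := h.a1
    rw [← hz] at *
    have hX : X ≤ 3 / 2 * a := by nlinarith
    nlinarith
  · exact hz

/-- The values of the three sides: `ν` is the slope of the kernel of the side middle-top, `P` its
level. -/
structure Bv (e a z d : ℝ) (B : Sv) (P : ℝ) : Prop where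
  k : ∃ x, B.k = (C1u 1 e z).k + d * x ∧ -3 ≤ x ∧ x ≤ 5 / 2 ∧
    ∃ y, B.b = (C1u 1 e z).b + d * y ∧ -4 ≤ y ∧ y ≤ 7
  c : B.c 1 = LAM e * P
  r1 : -((2109 / 10000 - 362 / 100 * e) * d) ≤ aL e 1 e (sg1 z 1) - bL e 1 e (sg1 z 1) - P
  r2 : aL e 1 e (sg1 z 1) - bL e 1 e (sg1 z 1) - P ≤ 45 / 100 * d
  p : -(1 / 4 * d) ≤ P

/-- The level of the triangle. -/
theorem lev_L (he : 0 < e) (he1 : e ≤ 1 / 40) (h : VG a z d) {B : Sv} {P : ℝ}
    (hB : Bv e a z d B P) :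
    |(C1d 1 e (-a)).c 1 - B.c 1 - (C33 1 e (-(a - z))).c 1| ≤
      LAM e * ((67 / 100 - 4 * e) * d) := by
  have LL := (LL_nn he he1).1
  have e1 : (C1d 1 e (-a)).c 1 - B.c 1 - (C33 1 e (-(a - z))).c 1 =
      LAM e * (bL e 1 e (-sg1 (-a) 1) - P - (2 * bL' e 1 e (2 / 3 * x3v (-(a - z)) 1) -
        aL' e 1 e (2 / 3 * x3v (-(a - z)) 1))) := by
    rw [hB.c]
    simp only [Sv.c, C1d, C33, mul_one]
    ring
  rw [e1, abs_mul, abs_of_nonneg LL]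
  refine mul_le_mul_of_nonneg_left ?_ LL
  exact lev_bd he he1 h (ρ := aL e 1 e (sg1 z 1) - bL e 1 e (sg1 z 1) - P) (by ring) hB.r1
    (by linarith [hB.r2])

/-- The values of the unit kernels. -/
theorem ks (h : VG a z d) (he : 0 < e) (he1 : e ≤ 1 / 40) :
    kU' 1 e (2 / 3 * x3v (-(a - z)) 1) = kU 1 e (2 / 3 * x3v (-(a - z)) 1) ∧
      bU' 1 e (2 / 3 * x3v (-(a - z)) 1) = bU 1 e (2 / 3 * x3v (-(a - z)) 1) := by
  obtain ⟨s0, s1, -, -, -⟩ := h.t1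
  exact ⟨kU_eq s0 (by linarith), bU_eq s0 (by linarith)⟩

/-- The inequality at the far vertex. -/
theorem core_far (he : 0 < e) (he1 : e ≤ 1 / 40) (h : VG a z d) {B : Sv} {P M D L : ℝ}
    (hB : Bv e a z d B P)
    (hM : M = (a - z) * (1 / 2 + B.k) - z * (C33 1 e (-(a - z))).k)
    (hD : D = B.k + (C33 1 e (-(a - z))).k - (C1d 1 e (-a)).k)
    (hL : L = (C1d 1 e (-a)).c 1 - B.c 1 - (C33 1 e (-(a - z))).c 1) :
    |L| / 2 + eh e * max M 0 + e * eh e * (|D| * (1 - a) + max (-M) 0) / (1 - e) ≤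
      (cc1 (-a) 1 * (2 - (a - z)) - x3v (-(a - z)) 1 * (1 - a) - 1) / 2 := by
  obtain ⟨s0, s1, t0, tm, tm'⟩ := h.t1
  obtain ⟨t1, t2, t3, t4, t5, t6⟩ := h.ts
  have a0 := h.b.a0
  have a1 := h.b.a1
  have d0 := h.b.d0
  obtain ⟨ν, hk, ν1, ν2, -⟩ := hB.k
  obtain ⟨k1, k2, -⟩ := kU_bd he he1 t0 (by linarith)
  obtain ⟨k3, k4, -⟩ := kU_bd he he1 (t := sg1 z 1) (by linarith) (by linarith)
  obtain ⟨i1, i2⟩ := kU_inc he he1 s0 (by linarith : 2 / 3 * x3v (-(a - z)) 1 ≤ sg1 z 1)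
  obtain ⟨j1, j2⟩ := kU_inc he he1 t0 (by linarith : -sg1 (-a) 1 ≤ sg1 z 1)
  obtain ⟨l1, l2⟩ := kU_inc he he1 s0 (by linarith : 2 / 3 * x3v (-(a - z)) 1 ≤ -sg1 (-a) 1)
  have ksk := (ks h he he1).1
  have eM : M = vM a z d (g1 z 1) (x3v (-(a - z)) 1 / (2 + -(a - z) / 2)) 1 (kU 1 e (sg1 z 1))
      (kU 1 e (2 / 3 * x3v (-(a - z)) 1)) ν := by
    rw [hM, hk]
    simp only [C1u, C33, one_mul, ksk]
    unfold vM
    ring
  have eD : D = vD d (-g1 (-a) 1) (g1 z 1) (x3v (-(a - z)) 1 / (2 + -(a - z) / 2)) 1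
      (kU 1 e (-sg1 (-a) 1)) (kU 1 e (sg1 z 1)) (kU 1 e (2 / 3 * x3v (-(a - z)) 1)) ν := by
    rw [hD, hk]
    simp only [C1u, C33, C1d, one_mul, ksk]
    unfold vD
    ring
  obtain ⟨M1, M2⟩ := vM_far h (n2 := kU 1 e (sg1 z 1)) (n3 := kU 1 e (2 / 3 * x3v (-(a - z)) 1))
    (ν := ν) (by linarith) (by linarith) (by linarith) (by linarith) ν1 ν2
  have D1 := vD_far h (n1 := kU 1 e (-sg1 (-a) 1)) (n2 := kU 1 e (sg1 z 1))
    (n3 := kU 1 e (2 / 3 * x3v (-(a - z)) 1)) (ν := ν) (by linarith) (by linarith) (by linarith)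
    (by linarith) (by linarith) (by linarith) ν1 ν2
  rw [← eM] at M1 M2
  rw [← eD] at D1
  refine fin_far he he1 d0 a0.le (by linarith) ?_ M1 M2 D1 h.b.G
  rw [hL]
  exact lev_L he he1 h hB

theorem be_bd (he : 0 < e) (he1 : e ≤ 1 / 40) : 1349 / 1000 ≤ be e ∧ be e ≤ 11 / 8 := by
  obtain ⟨LL, LL1⟩ := LL_nn he he1
  have LL2 := LAM_up he he1
  have u0 := mu_lo he he1
  have u1 := mu_up he he1
  obtain ⟨b0, b1⟩ := B0_bd he he1
  obtain ⟨p2, p3, p4, e2, e3, e4⟩ := e_pow he he1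
  have L0 := LAM_lo he he1
  have a1 : LAM e ≤ 1 := by linarith
  have a2 : 928 / 1000 ≤ LAM e := by nlinarith
  have c1 : 928 / 1000 * (12 / 49) ≤ LAM e * G.mu e := mul_le_mul a2 u0 (by norm_num) LL
  have c2 : LAM e * G.mu e ≤ 1 * (1 / 4) := mul_le_mul a1 u1 (by linarith) (by norm_num)
  have c3 : 12 / 49 * (249 / 500) ≤ G.mu e * B0 e := mul_le_mul u0 b0 (by norm_num) (by linarith)
  have c4 : G.mu e * B0 e ≤ 1 / 4 * (1 / 2) := mul_le_mul u1 b1 (by linarith) (by norm_num)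
  unfold be
  constructor <;> linarith

theorem nk_0 (he : 0 < e) (he1 : e ≤ 1 / 40) : nk e (kU 1 e 0) (bU 1 e 0) = 0 := by
  obtain ⟨k1, k2, -⟩ := kU_bd he he1 (t := 0) le_rfl (by norm_num)
  obtain ⟨k3, k4⟩ := bU_bd he he1 (t := 0) le_rfl (by norm_num)
  have e1 : kU 1 e 0 = 0 := by linarith
  have e2 : bU 1 e 0 = 0 := by linarith
  rw [e1, e2]
  unfold nk
  ring

/-- The inequality at the near vertex. -/
theorem core_near (he : 0 < e) (he1 : e ≤ 1 / 40) (h : VG a z d) {B : Sv} {P M D L : ℝ}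
    (hB : Bv e a z d B P)
    (hM : M = (a - z) * (be e / 2 + nk e B.k B.b) -
      z * nk e (C33 1 e (-(a - z))).k (C33 1 e (-(a - z))).b)
    (hD : D = nk e B.k B.b + nk e (C33 1 e (-(a - z))).k (C33 1 e (-(a - z))).b -
      nk e (C1d 1 e (-a)).k (C1d 1 e (-a)).b)
    (hL : L = (C1d 1 e (-a)).c 1 - B.c 1 - (C33 1 e (-(a - z))).c 1) :
    G.mu e * ((2 - e + (a - z)) / 2 * |L| -
        ((1 + z) * (C1d 1 e (-a)).c 1 + (1 - a) * B.c 1) / 2) + eh e * max M 0 +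
      e * eh e * (|D| * (1 - a) + max (-M) 0) / (1 - e) ≤
      (1 + LAM e * G.mu e) *
        ((cc1 (-a) 1 * (2 - (a - z)) - x3v (-(a - z)) 1 * (1 - a) - 1) / 2) +
          G.mu e * LAM e * (a - z) / 4 := by
  obtain ⟨s0, s1, t0, tm, tm'⟩ := h.t1
  obtain ⟨t1, t2, t3, t4, t5, t6⟩ := h.ts
  have a0 := h.b.a0
  have a1 := h.b.a1
  have d0 := h.b.d0
  obtain ⟨κ1, κ2⟩ := be_bd he he1
  obtain ⟨x, hk, x1, x2, y, hb, y1, y2⟩ := hB.k
  obtain ⟨ν1, ν2⟩ := nk_bd he he1 (k := x) (b := y) (m := 3) (M := 5 / 2) (m' := 4) (M' := 7)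
    x1 x2 y1 y2 (by norm_num) (by norm_num) (by norm_num) (by norm_num)
  obtain ⟨k1, k2⟩ := nU_inc he he1 le_rfl t0
  obtain ⟨k3, k4⟩ := nU_inc he he1 le_rfl (by linarith : 0 ≤ sg1 z 1)
  obtain ⟨i1, i2⟩ := nU_inc he he1 s0 (by linarith : 2 / 3 * x3v (-(a - z)) 1 ≤ sg1 z 1)
  obtain ⟨j1, j2⟩ := nU_inc he he1 t0 (by linarith : -sg1 (-a) 1 ≤ sg1 z 1)
  obtain ⟨l1, l2⟩ := nU_inc he he1 s0 (by linarith : 2 / 3 * x3v (-(a - z)) 1 ≤ -sg1 (-a) 1)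
  rw [nk_0 he he1] at k1 k2 k3 k4
  obtain ⟨ksk, ksb⟩ := ks h he he1
  have eM : M = vM a z d (g1 z 1) (x3v (-(a - z)) 1 / (2 + -(a - z) / 2)) (be e)
      (nk e (kU 1 e (sg1 z 1)) (bU 1 e (sg1 z 1)))
      (nk e (kU 1 e (2 / 3 * x3v (-(a - z)) 1)) (bU 1 e (2 / 3 * x3v (-(a - z)) 1)))
      (nk e x y) := by
    rw [hM, hk, hb]
    simp only [C1u, C33, one_mul, ksk, ksb, mul_one]
    unfold vM nk be
    ring
  have eD : D = vD d (-g1 (-a) 1) (g1 z 1) (x3v (-(a - z)) 1 / (2 + -(a - z) / 2)) (be e)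
      (nk e (kU 1 e (-sg1 (-a) 1)) (bU 1 e (-sg1 (-a) 1)))
      (nk e (kU 1 e (sg1 z 1)) (bU 1 e (sg1 z 1)))
      (nk e (kU 1 e (2 / 3 * x3v (-(a - z)) 1)) (bU 1 e (2 / 3 * x3v (-(a - z)) 1)))
      (nk e x y) := by
    rw [hD, hk, hb]
    simp only [C1u, C33, C1d, one_mul, ksk, ksb, mul_one]
    unfold vD nk be
    ring
  obtain ⟨M1, M2⟩ := vM_near h κ1 κ2 (n2 := nk e (kU 1 e (sg1 z 1)) (bU 1 e (sg1 z 1)))
    (n3 := nk e (kU 1 e (2 / 3 * x3v (-(a - z)) 1)) (bU 1 e (2 / 3 * x3v (-(a - z)) 1)))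
    (ν := nk e x y) (by linarith) (by linarith) (by linarith) (by linarith) (by linarith)
    (by linarith)
  have D1 := vD_near h κ1 κ2 (n1 := nk e (kU 1 e (-sg1 (-a) 1)) (bU 1 e (-sg1 (-a) 1)))
    (n2 := nk e (kU 1 e (sg1 z 1)) (bU 1 e (sg1 z 1)))
    (n3 := nk e (kU 1 e (2 / 3 * x3v (-(a - z)) 1)) (bU 1 e (2 / 3 * x3v (-(a - z)) 1)))
    (ν := nk e x y) (by linarith) (by linarith) (by linarith)
    (by linarith) (by linarith) (by linarith) (by linarith) (by linarith)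
  rw [← eM] at M1 M2
  rw [← eD] at D1
  have eA : (C1d 1 e (-a)).c 1 = LAM e * bL e 1 e (-sg1 (-a) 1) := by
    simp only [Sv.c, C1d, mul_one]
    ring
  have := fin_near he he1 h (L := L) (A := bL e 1 e (-sg1 (-a) 1)) (B := P) (by
    rw [hL]
    exact lev_L he he1 h hB) M1 M2 D1 h.b.G (bL_lo he he1 t0 tm) hB.p
  rw [eA, hB.c]
  exact this

end

end Pool.Agent.Strip051.LC.E1
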