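import Pool.Agent.Strip051.LC.E1.VcD
import Pool.Agent.Strip051.LC.E1.VcH

/-! # Rests near the full period, the vertical window: the rows with two sides on circles -/

namespace Pool.Agent.Strip051.LC.E1

open Pool.Agent.StripNear Pool.Agent.StripSquare Pool.Agent.Strip051 Pool.Agent.Strip051.Sweep
open Pool.Agent.Strip051.PB
open Pool.Agent.Strip051.LC.E0.G (om cc1 xi1 sg1 cc3 xi3 sg3 xiw dwl dwu)
open G

section

variable {e a z d xi : ℝ}

/-- The side middle-top between the unit circle and `W`. -/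
theorem bv_1 (he : 0 < e) (he1 : e ≤ 1 / 40) (h : VC a z d) (hx : d = xi - xi1 z 1)
    (h1 : xi ≤ xiw z 1) : ∃ P, Bv e a z d (Pw xi 1 e z) P := by
  have hU := up h.z0 (by linarith [h.za, h.a1])
  have zp := h.zp
  have dl := hU.dlo
  have d0 := h.d0
  have dp : 0 < dD z := by nlinarith
  obtain ⟨g1', g2⟩ := gL_up he he1 hU.t0 hU.tm
  obtain ⟨k1, k2⟩ := kw he he1 hU
  obtain ⟨b1, b2⟩ := bw he he1 hU
  have dd : d ≤ dD z := by
    unfold dD
    linarith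
  have σ0 : 0 ≤ d / dD z := div_nonneg d0 dp.le
  have σ1 : d / dD z ≤ 1 := (div_le_one dp).2 dd
  have hσ : d / dD z * dD z = d := div_mul_cancel₀ _ dp.ne'
  obtain ⟨r1, r2⟩ := rho_1 he he1 hU σ0 hσ
  have hs : (xi - xi1 z 1) / (xiw z 1 - xi1 z 1) = d / dD z := by rw [hx]; rfl
  have ed := mul_nonneg he.le d0
  have hh := hg_nn (z - 5 / 2 * e)
  refine ⟨aL e 1 e (sg1 z 1) - bL e 1 e (sg1 z 1) - d / dD z * (aL e 1 e (sg1 z 1) -
    bL e 1 e (sg1 z 1) - 3097 / 10000 * hg (z - 5 / 2 * e)), ⟨(sPw e z).k, ?_, k1, k2,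
      (sPw e z).b, ?_, b1, b2⟩, ?_, ?_, ?_, ?_⟩
  · simp only [Pw, sPw]
    rw [hx]
    ring
  · simp only [Pw, sPw]
    rw [hx]
    ring
  · have e1 : (Pw xi 1 e z).c 1 = (W2 1 e z).cA * (d / dD z) + (C1u 1 e z).cB * (1 - d / dD z) := by
      simp only [Sv.c, Pw, hs, div_one]
    rw [e1, W2_cA]
    simp only [C1u, mul_one]
    ring
  · linarith
  · linarith
  · have e1 : aL e 1 e (sg1 z 1) - bL e 1 e (sg1 z 1) - d / dD z * (aL e 1 e (sg1 z 1) -
        bL e 1 e (sg1 z 1) - 3097 / 10000 * hg (z - 5 / 2 * e)) =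
        (1 - d / dD z) * (aL e 1 e (sg1 z 1) - bL e 1 e (sg1 z 1)) +
          d / dD z * (3097 / 10000 * hg (z - 5 / 2 * e)) := by ring
    rw [e1]
    have i1 := mul_nonneg (by linarith : 0 ≤ 1 - d / dD z) g1'
    have i2 := mul_nonneg σ0 (by linarith : 0 ≤ 3097 / 10000 * hg (z - 5 / 2 * e))
    linarith

/-- The side middle-top between `W` and the next curve. -/
theorem bv_2 (he : 0 < e) (he1 : e ≤ 1 / 40) (h : VC a z d) (hx : d = xi - xi1 z 1)
    (h1 : xiw z 1 ≤ xi) : ∃ P, Bv e a z d (Pb xi 1 e z) P := by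
  have hU := up h.z0 (by linarith [h.za, h.a1])
  have zp := h.zp
  have z1 : z ≤ 1 / 16 := by linarith [h.za, h.a1]
  have dl := hU.dlo
  have d0 := h.d0
  have dp : 0 < dD z := by nlinarith
  obtain ⟨g1', g2⟩ := gL_up he he1 hU.t0 hU.tm
  obtain ⟨p1, p2⟩ := pW_bd he he1 hU
  obtain ⟨k1, k2⟩ := kw he he1 hU
  obtain ⟨b1, b2⟩ := bw he he1 hU
  obtain ⟨k3, k4⟩ := kb he he1 hU
  obtain ⟨b3, b4⟩ := bb he he1 hU
  obtain ⟨l1, l2⟩ := lb he he1 hU
  obtain ⟨LL, LL1⟩ := LL_nn he he1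
  have LP : 0 < LAM e := by linarith
  rw [lPb_eq W2_cA] at l1 l2
  obtain ⟨β, hβ⟩ : ∃ β, β = 20 * (xb z 1 * fXb 1 e z + 1 / 2 - 3097 / 10000 * hg (z - 5 / 2 * e)) /
    (3 * dwu z 1) := ⟨_, rfl⟩
  rw [← hβ] at l1 l2
  have β1 : -(1 / 2) ≤ β := by
    have := le_of_mul_le_mul_left l1 LP
    linarith
  have β2 : β ≤ -(28 / 100) + 20 * e := by
    have := le_of_mul_le_mul_left l2 LP
    linarith
  obtain ⟨y, hy⟩ : ∃ y, y = xi - xiw z 1 := ⟨_, rfl⟩
  have y0 : 0 ≤ y := by linarith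
  have ey : d = dD z + y := by
    unfold dD
    linarith
  have y1 : y ≤ dD z := by
    have := h.y
    nlinarith
  have dpos : 0 < d := by linarith
  have z2 : z ^ 2 ≤ 1 / 16 * z := by nlinarith
  have t1 := hU.tup
  have s1 : sg1 z 1 ≤ 13535 / 10000 * dD z := by linarith
  have s2 : z ≤ 2 / 3 * dD z := by nlinarith
  have G2 : aL e 1 e (sg1 z 1) - bL e 1 e (sg1 z 1) ≤ (3792 / 10000 - 62 / 10 * e) * dD z := by
    have c := mul_le_mul_of_nonneg_left s1 (by linarith : 0 ≤ 28 / 100 - 46 / 10 * e)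
    have : 0 ≤ e * dD z := mul_nonneg he.le dp.le
    linarith
  have P2 : hg (z - 5 / 2 * e) ≤ 2 / 3 * dD z * (1 - 40 * e) := by
    have := mul_le_mul_of_nonneg_right s2 (by linarith : 0 ≤ 1 - 40 * e)
    linarith
  have ed := mul_nonneg he.le dp.le
  have ed1 : e * dD z ≤ 1 / 40 * dD z := mul_le_mul_of_nonneg_right he1 dp.le
  have ey0 := mul_nonneg he.le y0
  have ey1 : e * y ≤ 1 / 40 * y := mul_le_mul_of_nonneg_right he1 y0
  have βy1 := mul_le_mul_of_nonneg_right β1 y0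
  have βy2 := mul_le_mul_of_nonneg_right β2 y0
  have dne : xiw z 1 - xi1 z 1 ≠ 0 := dp.ne'
  have hWk : (W2 1 e z).k = (C1u 1 e z).k + dD z * (sPw e z).k := by
    simp only [sPw]
    unfold dD
    rw [mul_div_cancel₀ _ dne]
    ring
  have hWb : (W2 1 e z).b = (C1u 1 e z).b + dD z * (sPw e z).b := by
    simp only [sPw]
    unfold dD
    rw [mul_div_cancel₀ _ dne]
    ring
  have conv : ∀ u v m M : ℝ, m ≤ u → u ≤ M → m ≤ v → v ≤ M →
      m ≤ (dD z * u + y * v) / d ∧ (dD z * u + y * v) / d ≤ M := by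
    intro u v m M h1 h2 h3 h4
    rw [le_div_iff₀ dpos, div_le_iff₀ dpos, ey]
    have := mul_le_mul_of_nonneg_left h1 dp.le
    have := mul_le_mul_of_nonneg_left h2 dp.le
    have := mul_le_mul_of_nonneg_left h3 y0
    have := mul_le_mul_of_nonneg_left h4 y0
    constructor <;> linarith
  obtain ⟨x1, x2⟩ := conv (sPw e z).k (sPb e z).k (-3) (5 / 2) k1 k2 (by linarith) k4
  obtain ⟨x3, x4⟩ := conv (sPw e z).b (sPb e z).b (-4) 7 b1 b2 b3 (by linarith)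
  refine ⟨3097 / 10000 * hg (z - 5 / 2 * e) + y * β, ⟨_, ?_, x1, x2, _, ?_, x3, x4⟩, ?_, ?_, ?_, ?_⟩
  · rw [mul_div_cancel₀ _ dpos.ne']
    simp only [Pb, sPb, one_mul, ← hy]
    rw [hWk]
    ring
  · rw [mul_div_cancel₀ _ dpos.ne']
    simp only [Pb, sPb, one_mul, mul_one, ← hy]
    rw [hWb]
    ring
  · have e1 : (Pb xi 1 e z).c 1 = (W2 1 e z).cA +
        20 * (LAM e * (xb z 1 * fXb 1 e z + 1 / 2) - (W2 1 e z).cA) / (3 * dwu z 1) * y := by
      simp only [Sv.c, Pb, mul_one, one_mul, div_one, ← hy]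
      ring
    rw [e1, W2_cA, hβ]
    ring
  · nlinarith
  · nlinarith
  · nlinarith

/-- The data of a row in the unit scale. -/
structure Rd (r lam w z xi' a z1 d : ℝ) : Prop where
  he : 0 < lam * r
  he1 : lam * r ≤ 1 / 40
  w0 : w < 0
  z0 : 0 ≤ z
  wz : w + z ≤ 0
  ha : a = -(r * w)
  hz : z1 = r * z
  v : VC a z1 d
  hx : r * xi' = d + xi1 z1 1
  e1 : -(a - z1) = r * (w + z)
  p : cc1 (-a) 1 = 1 / 2 + xi1 (-a) 1
  q : cc1 z1 1 = 1 / 2 + xi1 z1 1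

theorem rd_of {r lam w z xi' : ℝ} (h : Dom .npn r lam w z) (hwz : w + z ≤ 0)
    (hx : xi' = xi1 w r - x3v (w + z) r) (h1 : xi1 z r ≤ xi') :
    Rd r lam w z xi' (-(r * w)) (r * z) (r * xi' - xi1 (r * z) 1) := by
  have r0 := h.r0
  have l : 0 < -w := h.l
  have s : r * -w ≤ 1 / 16 := h.s
  obtain ⟨o1, o2, -⟩ := h.ok
  have a0 : 0 < -(r * w) := by nlinarith
  have z0 : 0 ≤ r * z := mul_nonneg r0.le o2
  have za : r * z ≤ -(r * w) := by nlinarith
  have e1 : -(-(r * w) - r * z) = r * (w + z) := by ring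
  have p := xi1_1 (z := -(-(r * w))) (by nlinarith)
  have q := xi1_1 (z := r * z) (by nlinarith)
  refine ⟨mul_pos h.l0 r0, h.e, by linarith, o2, hwz, rfl, rfl, ?_, by ring, e1, by linarith,
    by linarith⟩
  refine vc_of a0 (by linarith) z0 za ?_ ?_
  · rw [e1, x3v_h r0, hx]
    have : xi1 (-(-(r * w))) 1 = r * xi1 w r := by rw [neg_neg, xi1_h]
    linarith
  · rw [xi1_h]
    nlinarith

variable {r lam w z1 xi' : ℝ}

/-- A row at the far vertex. -/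
theorem Rd.far (h : Rd r lam w z xi' a z1 d) (hr : 0 < r) {B : Sv} {P : ℝ}
    (hB : Bv (lam * r) a z1 d (B.sc r) P) :
    RowV .far .npn r lam w z (x3v (w + z) r) ((xi' - xi1 z r) / 2) (C1d r lam w) (-B)
      (C33 r lam (w + z)) := by
  have he1 := h.he1
  have eA : C1d 1 (lam * r) (-a) = (C1d r lam w).sc r := by
    rw [h.ha, neg_neg, C1d_h hr]
  have eC : C33 1 (lam * r) (-(a - z1)) = (C33 r lam (w + z)).sc r := by
    rw [h.e1, C33_h hr]
  have key := core_far h.he he1 (vg_of h.v) hB rfl rfl rfl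
  rw [eA, eC] at key
  refine rowV_far hr h.he (by linarith) h.w0 h.z0 h.wz h.ha h.hz h.v.a1 h.p h.q ?_ rfl rfl rfl ?_
    key
  · rw [h.e1, x3v_h hr]
  · have h1 := h.v.dd
    have h2 := h.hx
    have h3 : xi1 z1 1 = r * xi1 z r := by rw [h.hz, xi1_h]
    linarith

/-- A row at the near vertex. -/
theorem Rd.near (h : Rd r lam w z xi' a z1 d) (hr : 0 < r) {B : Sv} {P : ℝ}
    (hB : Bv (lam * r) a z1 d (B.sc r) P) :
    RowV .near .npn r lam w z (x3v (w + z) r) ((xi' - xi1 z r) / 2) (C1d r lam w) (-B)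
      (C33 r lam (w + z)) := by
  have he1 := h.he1
  have eA : C1d 1 (lam * r) (-a) = (C1d r lam w).sc r := by
    rw [h.ha, neg_neg, C1d_h hr]
  have eC : C33 1 (lam * r) (-(a - z1)) = (C33 r lam (w + z)).sc r := by
    rw [h.e1, C33_h hr]
  have key := core_near h.he he1 (vg_of h.v) hB rfl rfl rfl
  rw [eA, eC] at key
  refine rowV_near hr h.he (by linarith) h.w0 h.z0 h.wz h.ha h.hz h.v.a1 h.p h.q ?_ rfl rfl rfl ?_
    key
  · rw [h.e1, x3v_h hr]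
  · have h1 := h.v.dd
    have h2 := h.hx
    have h3 : xi1 z1 1 = r * xi1 z r := by rw [h.hz, xi1_h]
    linarith

theorem rd_1 (D : Dom .npn r lam w z) (hwz : w + z ≤ 0)
    (hx : xi' = xi1 w r - x3v (w + z) r) (h1 : xi1 z r ≤ xi') (h2 : xi' ≤ xiw z r) :
    ∃ P, Bv (lam * r) (-(r * w)) (r * z) (r * xi' - xi1 (r * z) 1) ((Pw xi' r lam z).sc r) P := by
  have hd := rd_of D hwz hx h1
  rw [← Pw_h D.r0]
  refine bv_1 hd.he hd.he1 hd.v rfl ?_
  rw [xiw_h]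
  exact mul_le_mul_of_nonneg_left h2 D.r0.le

theorem rd_2 (D : Dom .npn r lam w z) (hwz : w + z ≤ 0)
    (hx : xi' = xi1 w r - x3v (w + z) r) (h1 : xi1 z r ≤ xi') (h2 : xiw z r ≤ xi') :
    ∃ P, Bv (lam * r) (-(r * w)) (r * z) (r * xi' - xi1 (r * z) 1) ((Pb xi' r lam z).sc r) P := by
  have hd := rd_of D hwz hx h1
  rw [← Pb_h D.r0]
  refine bv_2 hd.he hd.he1 hd.v rfl ?_
  rw [xiw_h]
  exact mul_le_mul_of_nonneg_left h2 D.r0.le

/-- `W` is to the right of the unit circle above `h0`. -/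
theorem xi1_xiw (D : Dom .npn r lam w z) (hwz : w + z ≤ 0) : xi1 z r ≤ xiw z r := by
  have r0 := D.r0
  have s : r * -w ≤ 1 / 16 := D.s
  obtain ⟨-, o2, -⟩ := D.ok
  have z0 : 0 ≤ r * z := mul_nonneg r0.le o2
  have z1 : r * z ≤ 1 / 16 := by nlinarith
  have h1 := (up z0 z1).dlo
  unfold dD at h1
  rw [xiw_h, xi1_h, ← mul_sub] at h1
  have h2 : 0 ≤ r * (xiw z r - xi1 z r) := by nlinarith
  have := nonneg_of_mul_nonneg_right h2 r0
  linarith

end

/-- V, 12 on `c1`, 13 on `c3`, 23 in `[c1, W]`, at the far vertex. -/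
theorem vc_1_far : ∀ r lam w z xi' : ℝ, Dom .npn r lam w z → w + z ≤ 0 →
    xi' = xi1 w r - x3v (w + z) r → xi1 z r ≤ xi' → xi' ≤ xiw z r →
    RowV .far .npn r lam w z (x3v (w + z) r) ((xi' - xi1 z r) / 2) (C1d r lam w)
      (-Pw xi' r lam z) (C33 r lam (w + z)) := by
  intro r lam w z xi' D hwz hx h1 h2
  obtain ⟨P, hP⟩ := rd_1 D hwz hx h1 h2
  exact (rd_of D hwz hx h1).far D.r0 hP

/-- V, 12 on `c1`, 13 on `c3`, 23 in `[c1, W]`, at the near vertex. -/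
theorem vc_1_near : ∀ r lam w z xi' : ℝ, Dom .npn r lam w z → w + z ≤ 0 →
    xi' = xi1 w r - x3v (w + z) r → xi1 z r ≤ xi' → xi' ≤ xiw z r →
    RowV .near .npn r lam w z (x3v (w + z) r) ((xi' - xi1 z r) / 2) (C1d r lam w)
      (-Pw xi' r lam z) (C33 r lam (w + z)) := by
  intro r lam w z xi' D hwz hx h1 h2
  obtain ⟨P, hP⟩ := rd_1 D hwz hx h1 h2
  exact (rd_of D hwz hx h1).near D.r0 hP

/-- V, 12 on `c1`, 13 on `c3`, 23 in `[W, 1.15]`, at the far vertex. -/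
theorem vc_2_far : ∀ r lam w z xi' : ℝ, Dom .npn r lam w z → w + z ≤ 0 →
    xi' = xi1 w r - x3v (w + z) r → xiw z r ≤ xi' → 1 / 2 + r * xi' ≤ xb z r →
    RowV .far .npn r lam w z (x3v (w + z) r) ((xi' - xi1 z r) / 2) (C1d r lam w)
      (-Pb xi' r lam z) (C33 r lam (w + z)) := by
  intro r lam w z xi' D hwz hx h1 _
  have h2 := (xi1_xiw D hwz).trans h1
  obtain ⟨P, hP⟩ := rd_2 D hwz hx h2 h1
  exact (rd_of D hwz hx h2).far D.r0 hP

/-- V, 12 on `c1`, 13 on `c3`, 23 in `[W, 1.15]`, at the near vertex. -/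
theorem vc_2_near : ∀ r lam w z xi' : ℝ, Dom .npn r lam w z → w + z ≤ 0 →
    xi' = xi1 w r - x3v (w + z) r → xiw z r ≤ xi' → 1 / 2 + r * xi' ≤ xb z r →
    RowV .near .npn r lam w z (x3v (w + z) r) ((xi' - xi1 z r) / 2) (C1d r lam w)
      (-Pb xi' r lam z) (C33 r lam (w + z)) := by
  intro r lam w z xi' D hwz hx h1 _
  have h2 := (xi1_xiw D hwz).trans h1
  obtain ⟨P, hP⟩ := rd_2 D hwz hx h2 h1
  exact (rd_of D hwz hx h2).near D.r0 hP

end Pool.Agent.Strip051.LC.E1
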