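import Pool.Agent.Strip051.LC.E1.Ch.AllT
import Pool.Agent.Strip051.LC.E1.Ch.L6
import Pool.Agent.Strip051.LC.E1.V0.Fin
import Pool.Agent.Strip051.LC.E1.V1.Fin
import Pool.Agent.Strip051.LC.E1.V2.Fin
import Pool.Agent.Strip051.LC.E1.VcI

/-! # Rests near the full period: all rows but one -/

namespace Pool.Agent.Strip051.LC.E1

open Pool.Agent.Strip051.LC.E0.G (om cc1 xi1 sg1 cc3 xi3 sg3 xiw dwl dwu)
open G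

/-- The rows of the far vertex, with the row `vu_3` as hypothesis. -/
theorem rowsF_of
    (vu_3_far : ∀ r lam w z xi : ℝ, Dom .npn r lam w z → w + z < 0 → xi = xi1 w r - xi1 z r →
    xv6 (w + z) r ≤ xi → xi ≤ x3v (w + z) r →
    RowV .far .npn r lam w z xi 0 (C1d r lam w) (-C1u r lam z) (V3 xi r lam (w + z))) :
    Rows .far :=
  ⟨Ch.a_t1a_c1_d_f,
    Ch.a_t1a_c1_u_f,
    Ch.a_t1a_W_f,
    Ch.a_t1b_c1_d_f,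
    Ch.a_t1b_c1_u_f,
    Ch.a_t1b_W_f,
    Ch.a_t2a_W_f,
    Ch.a_t2a_c3_dd_f,
    Ch.a_t2a_c3_du_f,
    Ch.a_t2a_c3_u1_f,
    Ch.a_t2a_c3_u2_f,
    Ch.a_t2b_c1_dd_f,
    Ch.a_t2b_c1_du_f,
    Ch.a_t2b_c1_u_f,
    Ch.a_t2b_W_d_f,
    Ch.a_t2b_W_u_f,
    Ch.a_t3a_c1_f,
    Ch.a_t3b_c3_f,
    Ch.a_u1_p_f,
    Ch.a_uq_n_f,
    Ch.a_u5_n_f,
    Ch.a_u6_n_f,
    vu_0_far,
    vu_1_far,
    vu_2_far,
    vu_3_far,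
    vc_1_far,
    vc_2_far⟩

/-- The rows of the near vertex, with the row `vu_3` as hypothesis. -/
theorem rowsN_of
    (vu_3_near : ∀ r lam w z xi : ℝ, Dom .npn r lam w z → w + z < 0 → xi = xi1 w r - xi1 z r →
    xv6 (w + z) r ≤ xi → xi ≤ x3v (w + z) r →
    RowV .near .npn r lam w z xi 0 (C1d r lam w) (-C1u r lam z) (V3 xi r lam (w + z))) :
    Rows .near :=
  ⟨Ch.a_t1a_c1_d_n,
    Ch.a_t1a_c1_u_n,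
    Ch.a_t1a_W_n,
    Ch.a_t1b_c1_d_n,
    Ch.a_t1b_c1_u_n,
    Ch.a_t1b_W_n,
    Ch.a_t2a_W_n,
    Ch.a_t2a_c3_dd_n,
    Ch.a_t2a_c3_du_n,
    Ch.a_t2a_c3_u1_n,
    Ch.a_t2a_c3_u2_n,
    Ch.a_t2b_c1_dd_n,
    Ch.a_t2b_c1_du_n,
    Ch.a_t2b_c1_u_n,
    Ch.a_t2b_W_d_n,
    Ch.a_t2b_W_u_n,
    Ch.a_t3a_c1_n,
    Ch.a_t3b_c3_n,
    Ch.a_u1_p_n,
    Ch.a_uq_n_n,
    Ch.a_u5_n_n,
    Ch.a_u6_n_n,
    vu_0_near,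
    vu_1_near,
    vu_2_near,
    vu_3_near,
    vc_1_near,
    vc_2_near⟩

end Pool.Agent.Strip051.LC.E1
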