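import Pool.Agent.Strip051.LC.E1.Def

/-! # Rests near the full period: the two normalisations

The slacks are homogeneous: a row with `lam = 1` and coordinates `w`, `z` is the same as the row
with `r`, `lam` and coordinates `lam * w`, `lam * z`, `e = lam * r`. -/

namespace Pool.Agent.Strip051.LC.E1

namespace G

section

variable {r lam a b l n gam del nu base lev : ℝ}

theorem FinS_scale (hr : r ≠ 0) (hl : 0 < lam) :
    FinS r lam (lam * a) (lam * b) (lam * l) (lam * n) (lam ^ 2 * gam) (lam * del) (lam * nu)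
      (lam ^ 2 * base) (lam ^ 2 * lev) =
      lam ^ 2 * FinS (lam * r) 1 a b l n gam del nu base lev := by
  have hl' := hl.ne'
  have e1 : lam * del ≤ 0 ↔ del ≤ 0 := by
    constructor
    · intro h
      by_contra hh
      push Not at hh
      have := mul_pos hl hh
      linarith
    · intro h
      nlinarith
  have e2 : (if lam * del ≤ 0 then lam * b else lam * a) = lam * (if del ≤ 0 then b else a) := by
    by_cases hd : del ≤ 0
    · rw [if_pos hd, if_pos (e1.mpr hd)]
    · rw [if_neg hd, if_neg (fun h => hd (e1.mp h))]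
  unfold FinS
  rw [e2, abs_mul, abs_of_pos hl]
  set c := if del ≤ 0 then b else a
  rw [one_mul]
  have e3 : r * (lam * l) = lam * r * l := by ring
  have e4 : lam * n + r * (lam ^ 2 * gam) + r * (lam * c) * (lam * |del|) * (1 - lam * r * l) =
      lam * (n + lam * r * gam + lam * r * c * |del| * (1 - lam * r * l)) := by ring
  rw [e3, e4]
  have e5 : ∀ A B C : ℝ, r * A * (lam * c) * (lam * l) * (lam * del) ^ 2 * B / (C * (lam *
      (n + lam * r * gam + lam * r * c * |del| * (1 - lam * r * l)))) =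
      lam ^ 2 * (lam * r * A * c * l * del ^ 2 * B / (C *
        (n + lam * r * gam + lam * r * c * |del| * (1 - lam * r * l)))) := by
    intro A B C
    rw [show C * (lam * (n + lam * r * gam + lam * r * c * |del| * (1 - lam * r * l))) =
      lam * (C * (n + lam * r * gam + lam * r * c * |del| * (1 - lam * r * l))) by ring,
      show r * A * (lam * c) * (lam * l) * (lam * del) ^ 2 * B =
        lam * (lam ^ 2 * (lam * r * A * c * l * del ^ 2 * B)) by ring,
      mul_div_mul_left _ _ hl', mul_div_assoc]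
  rw [e5]
  have e6 : lam * nu / r = lam ^ 2 * (nu / (lam * r)) := by
    field_simp
  rw [e6]
  ring

theorem FcS_scale (hr : r ≠ 0) (hl : 0 < lam) :
    FcS r lam (lam * l) (lam * n) (lam ^ 2 * gam) (lam * del) (lam * nu)
      (lam ^ 2 * base) (lam ^ 2 * lev) =
      lam ^ 2 * FcS (lam * r) 1 l n gam del nu base lev := by
  have hl' := hl.ne'
  unfold FcS
  rw [abs_mul, abs_of_pos hl, one_mul]
  have e3 : r * (lam * l) = lam * r * l := by ring
  have e6 : lam * nu / r = lam ^ 2 * (nu / (lam * r)) := by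
    field_simp
  rw [e3, e6]
  ring

theorem FnS_scale (hr : r ≠ 0) (hl : 0 < lam) :
    FnS r lam (lam * l) (lam * n) (lam ^ 2 * gam) (lam * del) (lam * nu)
      (lam ^ 2 * base) (lam ^ 2 * lev) =
      lam ^ 2 * FnS (lam * r) 1 l n gam del nu base lev := by
  have hl' := hl.ne'
  unfold FnS
  rw [abs_mul, abs_of_pos hl, one_mul]
  have e3 : r * (lam * l) = lam * r * l := by ring
  have e6 : (lam * nu + lam * n) / r = lam ^ 2 * ((nu + n) / (lam * r)) := by
    field_simp
  have e7 : lam * n + r * (lam ^ 2 * gam) = lam * (n + lam * r * gam) := by ring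
  rw [e3, e6, e7]
  ring

theorem FoutS_scale (hr : r ≠ 0) (hl : 0 < lam) :
    FoutS r lam (lam * a) (lam * b) (lam * l) (lam * n) (lam ^ 2 * gam) (lam * del) (lam * nu)
      (lam ^ 2 * base) (lam ^ 2 * lev) =
      lam ^ 2 * FoutS (lam * r) 1 a b l n gam del nu base lev := by
  have hl' := hl.ne'
  unfold FoutS
  have e3 : r * (lam * l) = lam * r * l := by ring
  have e6 : lam * nu / r = lam ^ 2 * (nu / (lam * r)) := by
    field_simp
  have e8 : lam * n / r = lam ^ 2 * (n / (lam * r)) := by
    field_simp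
  have e7 : lam * n + r * (lam ^ 2 * gam) = lam * (n + lam * r * gam) := by ring
  have e9 : lam / (lam * l) = 1 / l := by rw [div_mul_eq_div_div, div_self hl']
  have e10 : lam / (2 * (lam * l)) = 1 / (2 * l) := by
    rw [show 2 * (lam * l) = lam * (2 * l) by ring, div_mul_eq_div_div, div_self hl']
  have e11 : lam ^ 2 / (lam * l) = lam * (1 / l) := by
    rw [pow_two, mul_div_mul_left _ _ hl']
    ring
  have e12 : ∀ A B : ℝ, lam ^ 2 * gam * A / (lam * l) = lam * (gam * A / l) := by
    intro A B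
    rw [show lam ^ 2 * gam * A = lam * (lam * (gam * A)) by ring, mul_div_mul_left _ _ hl',
      mul_div_assoc]
  have e13 : ∀ A B : ℝ, (lam * a - lam * b) * (lam * del) * A * B / (2 * (lam * l)) =
      lam * ((a - b) * del * A * B / (2 * l)) := by
    intro A B
    rw [show (lam * a - lam * b) * (lam * del) * A * B = lam * (lam * ((a - b) * del * A * B))
      by ring, show 2 * (lam * l) = lam * (2 * l) by ring, mul_div_mul_left _ _ hl',
      mul_div_assoc]
  have e14 : ∀ A : ℝ, lam * a * (lam * b) * (lam * r) * (lam * del) ^ 2 * A /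
      (2 * (lam * l) ^ 2 * (lam * (n + lam * r * gam))) =
      lam * (a * b * (1 * (lam * r)) * del ^ 2 * A / (2 * l ^ 2 * (n + lam * r * gam))) := by
    intro A
    rw [show lam * a * (lam * b) * (lam * r) * (lam * del) ^ 2 * A = lam ^ 3 *
      (lam * (a * b * (1 * (lam * r)) * del ^ 2 * A)) by ring,
      show 2 * (lam * l) ^ 2 * (lam * (n + lam * r * gam)) = lam ^ 3 *
        (2 * l ^ 2 * (n + lam * r * gam)) by ring, mul_div_mul_left _ _ (pow_ne_zero 3 hl'),
      mul_div_assoc]
  rw [e7, e3, e9, e10, e11, e12 _ 0, e13, e14, e6, e8]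
  ring

theorem SlkS_scale (hr : r ≠ 0) (hl : 0 < lam)
    (h : SlkS r lam (lam * a) (lam * b) (lam * l) (lam * n) (lam ^ 2 * gam) (lam * del) (lam * nu)
      (lam ^ 2 * base) (lam ^ 2 * lev)) : SlkS (lam * r) 1 a b l n gam del nu base lev := by
  have h2 : 0 < lam ^ 2 := by positivity
  have k1 : ∀ {y : ℝ}, 0 ≤ lam * y → 0 ≤ y := fun h => nonneg_of_mul_nonneg_right h hl
  have k2 : ∀ {y : ℝ}, 0 < lam * y → 0 < y := fun h => pos_of_mul_pos_right h hl.le
  have k3 : ∀ {y : ℝ}, 0 ≤ lam ^ 2 * y → 0 ≤ y := fun h => nonneg_of_mul_nonneg_right h h2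
  have e3 : r * (lam * l) = lam * r * l := by ring
  have e7 : lam * n + r * (lam ^ 2 * gam) = lam * (n + lam * r * gam) := by ring
  have e1 : lam * del ≤ 0 ↔ del ≤ 0 := by
    constructor
    · intro h
      by_contra hh
      push Not at hh
      have := mul_pos hl hh
      linarith
    · intro h
      nlinarith
  rcases h with ⟨⟨a1, a2, a3, a4, a5⟩, h⟩ | ⟨⟨a1, a2, a3, a4, a5, a6, a7, a8⟩, h⟩ |
    ⟨⟨a1, a2, a3, a4, a5⟩, h⟩ | ⟨⟨a1, a2, a3, a4, a5⟩, h⟩
  · left
    refine ⟨⟨k1 a1, k1 a2, k2 a3, by rwa [e3] at a4, ?_⟩, ?_⟩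
    · have e2 : (if lam * del ≤ 0 then lam * a else lam * b) =
          lam * (if del ≤ 0 then a else b) := by
        by_cases hd : del ≤ 0
        · rw [if_pos hd, if_pos (e1.mpr hd)]
        · rw [if_neg hd, if_neg (fun h => hd (e1.mp h))]
      rw [e2, abs_mul, abs_of_pos hl, e3, e7] at a5
      refine le_of_mul_le_mul_left (le_trans (le_of_eq ?_) a5) hl
      ring
    · rw [FinS_scale hr hl] at h
      exact k3 h
  · right
    left
    rw [e7] at a4 a5 a6 a7 a8
    rw [e3] at a5 a6 a7 a8
    refine ⟨⟨k1 a1, k1 a2, k2 a3, k2 a4, k2 (lt_of_lt_of_eq a5 ?_), k2 (lt_of_lt_of_eq a6 ?_),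
      ?_, ?_⟩, ?_⟩
    · ring
    · ring
    · refine le_of_mul_le_mul_left (le_trans (le_of_eq ?_) (le_trans a7 (le_of_eq ?_))) h2 <;> ring
    · refine le_of_mul_le_mul_left (le_trans (le_of_eq ?_) (le_trans a8 (le_of_eq ?_))) h2 <;> ring
    · rw [FoutS_scale hr hl] at h
      exact k3 h
  · right
    right
    left
    rw [e7] at a5
    refine ⟨⟨k1 a1, k1 a2, k2 a3, by rwa [e3] at a4, k1 a5⟩, ?_⟩
    rw [FcS_scale hr hl] at h
    exact k3 h
  · right
    right
    right
    rw [e7] at a5
    refine ⟨⟨k1 a1, k1 a2, k2 a3, by rwa [e3] at a4, ?_⟩, ?_⟩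
    · have : 0 ≤ lam * -(n + lam * r * gam) := by linarith
      have := k1 this
      linarith
    · rw [FnS_scale hr hl] at h
      exact k3 h

end

end G

open G

/-- **The two normalisations of a row.** -/
theorem SlkP_scale {P : Pat} {r lam w z g k12 k23 k13 nu base lev : ℝ} (hr : r ≠ 0) (hl : 0 < lam)
    (h : SlkP P r lam (lam * w) (lam * z) (lam * g) (lam * k12) (lam * k23) (lam * k13)
      (lam * nu) (lam ^ 2 * base) (lam ^ 2 * lev)) :
    SlkP P (lam * r) 1 w z g k12 k23 k13 nu base lev := by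
  cases P <;> refine SlkS_scale hr hl ?_ <;> unfold SlkP at h <;> convert h using 1 <;> ring

end Pool.Agent.Strip051.LC.E1
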