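import Pool.Agent.Strip051.LC.E0.Fin
import Pool.Agent.Strip051.LC.E1.Def

/-! # Rests near the full period: the modulus inequality in closed form

The window of length `s` is replaced by its complement, a window of length `h0 - s = h0 e`; then
the closed forms of the small rests apply with `e` in place of `x`. All quantities are divided by
`r`, where `e = lam * r`; `nu` is the part of the excess which is of first order. -/

namespace Pool.Agent.Strip051.LC.E1

open Pool.Agent.StripNear Pool.Agent.StripSquare Pool.Agent.Strip051 Pool.Agent.Strip051.Sweep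
open Pool.Agent.Strip051.LC.Line
open Pool.Agent.Strip051.LC.Exact (kE)
open Pool.Agent.Strip051.LC.E0 (monIn1 monIn3 monOut monC)

/-! ### The complementary window -/

theorem phi_flip (p q : ℝ) : Line.phi p q = (p + q) / 2 + Line.phi (-p) (-q) := by
  rcases le_total 0 p with hp | hp <;> rcases le_total 0 q with hq | hq
  · rw [phi_nonneg_nonneg hp hq, phi_nonpos_nonpos (by linarith) (by linarith), add_zero]
  · rw [phi_pos_neg hp hq, phi_neg_pos (p := -p) (q := -q) (by linarith) (by linarith)]
    rcases eq_or_ne (p - q) 0 with h | h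
    · have h1 : p = 0 := by linarith
      have h2 : q = 0 := by linarith
      subst h1
      subst h2
      simp
    · have h' : -q - -p ≠ 0 := by
        rw [show -q - -p = p - q by ring]
        exact h
      field_simp
      ring
  · rw [phi_neg_pos hp hq, phi_pos_neg (p := -p) (q := -q) (by linarith) (by linarith)]
    rcases eq_or_ne (q - p) 0 with h | h
    · have h1 : p = 0 := by linarith
      have h2 : q = 0 := by linarith
      subst h1
      subst h2
      simp
    · have h' : -p - -q ≠ 0 := by
        rw [show -p - -q = q - p by ring]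
        exact h
      field_simp
      ring
  · rw [phi_nonpos_nonpos hp hq, phi_nonneg_nonneg (p := -p) (q := -q) (by linarith)
      (by linarith)]
    ring

/-- The complementary window. -/
theorem Mo_compl {κ s ex l1 l2 l3 W1 W2 W3 : ℝ} (hl : l1 + l2 + l3 = h0)
    (hm : l1 * (W1 + W2) + l2 * (W2 + W3) + l3 * (W3 + W1) = 0)
    (h : Mo κ (h0 - s) ex l1 l2 l3 (-W1) (-W2) (-W3)) : Mo κ s ex l1 l2 l3 W1 W2 W3 := by
  obtain ⟨γ, h⟩ := h
  refine ⟨-γ, ?_⟩
  refine le_trans (le_of_eq ?_) h
  have e : ∀ a b : ℝ, Line.phi (a - -γ) (b - -γ) =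
      (a + b) / 2 + γ + Line.phi (-a - γ) (-b - γ) := by
    intro a b
    rw [phi_flip, show -(a - -γ) = -a - γ by ring, show -(b - -γ) = -b - γ by ring]
    ring
  rw [e, e, e]
  have h1 : l3 = h0 - l1 - l2 := by linarith
  linear_combination κ / 2 * hm + κ * γ * hl

theorem MoN_compl {κ s ex l1 l2 A1 A2 A3 : ℝ} (hL : 0 < l1 + l2)
    (h : MoN κ (h0 - s) ex l1 l2 (-A1) (-A2) (-A3)) : MoN κ s ex l1 l2 A1 A2 A3 := by
  have hh := h0_pos
  unfold MoN at *
  refine Mo_compl (by ring) ?_ ?_
  · field_simp
    ring
  · convert h using 1 <;> ring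

/-! ### The constants -/

namespace G

theorem gs_sq {e : ℝ} (he : 0 ≤ e) (he1 : e ≤ 1) : gs e ^ 2 = 1 / 4 + 3 / 2 * e - 3 / 4 * e ^ 2 :=
  Real.sq_sqrt (by nlinarith)

theorem gs_nonneg {e : ℝ} : 0 ≤ gs e := Real.sqrt_nonneg _

theorem gs_ge {e : ℝ} (he : 0 ≤ e) (he1 : e ≤ 1) : 1 / 2 ≤ gs e := by
  unfold gs
  exact Real.le_sqrt_of_sq_le (by nlinarith)

theorem gs_le {e : ℝ} (he : 0 ≤ e) : gs e ≤ 1 / 2 + 3 / 2 * e := by
  unfold gs
  exact Real.sqrt_le_iff.2 ⟨by linarith, by nlinarith [sq_nonneg e]⟩

theorem ig_pos {e : ℝ} : 0 < ig e := by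
  unfold ig
  have := @gs_nonneg e
  positivity

theorem ig_mul {e : ℝ} : ig e * (gs e + 1 / 2) = 1 := by
  unfold ig
  have := @gs_nonneg e
  field_simp

theorem gs_sub {e : ℝ} (he : 0 ≤ e) (he1 : e ≤ 1) :
    gs e - 1 / 2 = e * ((3 / 2 - 3 / 4 * e) * ig e) := by
  have h := gs_sq he he1
  have h2 := @ig_mul e
  have h3 : (gs e - 1 / 2) * (gs e + 1 / 2) = e * (3 / 2 - 3 / 4 * e) := by nlinarith
  calc gs e - 1 / 2 = (gs e - 1 / 2) * (ig e * (gs e + 1 / 2)) := by rw [h2, mul_one]
    _ = ((gs e - 1 / 2) * (gs e + 1 / 2)) * ig e := by ring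
    _ = e * ((3 / 2 - 3 / 4 * e) * ig e) := by rw [h3]; ring

theorem one_sub_eh {e : ℝ} (he : 0 ≤ e) (he1 : e ≤ 1) : 1 - eh e = e * q1 e := by
  have h1 := gs_sub he he1
  have h2 := @ig_mul e
  have h4 : gs e = 1 / 2 + e * ((3 / 2 - 3 / 4 * e) * ig e) := by linarith
  unfold q1 eh
  rw [h4] at h2
  linear_combination (-3 / 2 : ℝ) * h2

theorem one_add_et {e : ℝ} (he : 0 ≤ e) (he1 : e < 1) : 1 + e * et e = eh e / (1 - e) := by
  have h1 := one_sub_eh he he1.le
  have h2 : (1 - e : ℝ) ≠ 0 := by linarith
  unfold et
  field_simp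
  linarith

end G

open G

section

variable {e : ℝ}

theorem we_h0 (he : 0 ≤ e) (he1 : e ≤ 1) : we (h0 * (1 - e)) = e * eh e := by
  have hp := h0_pos
  have hh := h0_sq'
  have hg : g (h0 * (1 - e)) = gs e := by
    unfold g gs
    congr 1
    rw [mul_pow, hh]
    ring
  have h1 := gs_sub he he1
  unfold we
  rw [hg]
  have e1 : h0 * (1 - e) / (2 * h0) = (1 - e) / 2 := by
    field_simp
  rw [e1]
  unfold eh
  linear_combination h1

theorem kE_h0 (he : 0 < e) (he1 : e < 1) :
    kE (h0 * (1 - e)) * h0 = 2 * eh e / (1 - e) := by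
  have hp := h0_pos
  unfold kE
  rw [we_h0 he.le he1.le]
  have h2 : (1 - e : ℝ) ≠ 0 := by linarith
  have h3 : h0 - h0 * (1 - e) = h0 * e := by ring
  rw [h3]
  have he' := he.ne'
  field_simp

end

/-! ### The scaled slacks -/

/-- The modulus inequality with a negative second moment. -/
theorem monNeg {κ x ex l1 l2 A1 A2 A3 N d : ℝ} (h1 : 0 ≤ l1) (h2 : 0 ≤ l2) (hL : 0 < l1 + l2)
    (hN : N = l1 * A2 - l2 * A1) (hd : d = (A1 + A2 - A3) * (1 - (l1 + l2)) / 2) (hN0 : N ≤ 0)
    (h : κ * h0 * (x * (|d| - N / 2)) ≤ ex) :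
    MoN κ (h0 * x) ex (h0 * l1) (h0 * l2) A1 A2 A3 := by
  have hh := h0_pos
  unfold MoN
  rw [E0.pot1 hN hd, E0.pot2 hL hN hd, E0.pot3 hN hd]
  refine ⟨|d| - N / 2, ?_⟩
  have a1 := le_abs_self d
  have a2 := neg_abs_le d
  have a3 := abs_nonneg d
  set L := l1 + l2 with hLd
  obtain ⟨u, hu⟩ : ∃ u, u = N / L - N / 2 - (l1 - l2) * d / L - (|d| - N / 2) := ⟨_, rfl⟩
  rw [← hu]
  have uL : u * L = N - (l1 - l2) * d - L * |d| := by
    rw [hu]
    have : L ≠ 0 := hL.ne'
    field_simp
    ring
  have w1 : d - N / 2 - (|d| - N / 2) ≤ 0 := by linarith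
  have w3 : -d - N / 2 - (|d| - N / 2) ≤ 0 := by linarith
  have u0 : u ≤ 0 := by
    have h5 : -((l1 - l2) * d) ≤ L * |d| := by
      have k1 := mul_le_mul_of_nonneg_left a2 h1
      have k2 := mul_le_mul_of_nonneg_left a1 h2
      rw [hLd]
      linarith
    have h6 : u * L ≤ 0 := by
      rw [uL]
      linarith
    exact nonpos_of_mul_nonpos_left h6 hL
  rw [phi_nonpos_nonpos w3 w1, phi_nonpos_nonpos w1 u0, phi_nonpos_nonpos u0 w3]
  refine le_trans (le_of_eq ?_) h
  ring

theorem eh_pos {e : ℝ} (he : 0 < e) (he1 : e < 1) : 0 < eh e := by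
  have h2 := gs_sq he.le he1.le
  have h3 := gs_ge he.le he1.le
  have h5 := @ig_mul e
  have h6 := @ig_pos e
  have h4 : gs e ≤ 1 := by nlinarith
  have e1 : eh e = ig e * (5 / 4 - 3 / 4 * e - gs e / 2) := by
    unfold eh
    linear_combination (1 / 2 : ℝ) * h5
  rw [e1]
  have : 0 < 5 / 4 - 3 / 4 * e - gs e / 2 := by linarith
  positivity

section

variable {r lam : ℝ}

/-- **The modulus inequality from the scaled slack.** -/
theorem slk_monS (hr : 0 < r) (hl0 : 0 < lam) (he1 : lam * r < 1)
    {a b l n gam del nu base lev A1 A2 A3 ex : ℝ}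
    (hl : l = a + b) (hN : n + r * gam = b * A1 - a * A2)
    (hD : A1 + A2 - A3 = r * del) (hex : ex = r ^ 2 * ((nu + n) / r + base - lev))
    (h : SlkS r lam a b l n gam del nu base lev) :
    MoN (kE (h0 * (1 - lam * r))) (h0 * (1 - lam * r)) ex (h0 * (r * a)) (h0 * (r * b))
      A1 A2 A3 := by
  have hp := h0_pos
  have hL : r * a + r * b = r * l := by rw [hl]; ring
  have hd : (-A1 + -A2 - -A3) * (1 - (r * a + r * b)) / 2 = -(r * del) * (1 - r * l) / 2 := by
    rw [show -A1 + -A2 - -A3 = -(r * del) by linarith, hL]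
  have hN' : r * (n + r * gam) = r * a * -A2 - r * b * -A1 := by rw [hN]; ring
  obtain ⟨e, he⟩ : ∃ e, e = lam * r := ⟨_, rfl⟩
  have e0 : 0 < e := by rw [he]; positivity
  rw [← he] at he1 ⊢
  have x1 : 0 < 1 - e := by linarith
  have l0 : 0 < l := by
    rcases h with ⟨⟨-, -, h, -⟩, -⟩ | ⟨⟨-, -, h, -⟩, -⟩ | ⟨⟨-, -, h, -⟩, -⟩ |
      ⟨⟨-, -, h, -⟩, -⟩ <;> exact h
  refine MoN_compl (by rw [← mul_add, hL]; positivity) ?_
  rw [show h0 - h0 * (1 - e) = h0 * e by ring]
  have eq1 := one_sub_eh e0.le he1.le
  rcases h with ⟨⟨ha, hb, -, l1, hc⟩, hF⟩ | ⟨⟨ha, hb, -, n0, p0, q0, hpp, hq⟩, hF⟩ |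
    ⟨⟨ha, hb, -, l1, hn⟩, hF⟩ | ⟨⟨ha, hb, -, l1, hn⟩, hF⟩
  · have hxl : 0 < 1 - r * l := by linarith
    have hL0 : 0 < r * a + r * b := by rw [hL]; positivity
    rcases le_or_gt del 0 with h | h
    · rw [if_pos h] at hc
      unfold G.FinS at hF
      rw [if_pos h, abs_of_nonpos h, ← he] at hF
      rw [abs_of_nonpos h] at hc
      have hd0 : 0 ≤ -(r * del) * (1 - r * l) / 2 := by
        have : 0 ≤ -(r * del) := by nlinarith
        positivity
      refine monIn1 (d := -(r * del) * (1 - r * l) / 2) (N := r * (n + r * gam)) (by positivity)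
        (by positivity) hL0 hN' hd.symm hd0 ?_ ?_
      · have : 2 * (r * a) * (-(r * del) * (1 - r * l) / 2) =
            r * (r * a * -del * (1 - r * l)) := by ring
        rw [this]
        exact mul_le_mul_of_nonneg_left hc hr.le
      · rw [kE_h0 e0 he1, hex, hL]
        have key : r ^ 2 * ((nu + n) / r + base - lev) -
            2 * eh e / (1 - e) * (r * (n + r * gam) / 2 * (1 - e) +
              (e - r * l) * (-(r * del) * (1 - r * l) / 2) +
              2 * (r * b) * (r * l) * (-(r * del) * (1 - r * l) / 2) ^ 2 /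
                (r * (n + r * gam) + 2 * (r * b) * (-(r * del) * (1 - r * l) / 2))) =
            r ^ 2 * (nu / r + n * lam * q1 e + base - eh e * gam - lev -
              eh e * (lam - l) * -del * (1 - r * l) / (1 - e) -
              r * eh e * b * l * del ^ 2 * (1 - r * l) ^ 2 /
                ((1 - e) * (n + r * gam + r * b * -del * (1 - r * l)))) := by
          have e1 : r * (n + r * gam) + 2 * (r * b) * (-(r * del) * (1 - r * l) / 2) =
              r * (n + r * gam + r * b * -del * (1 - r * l)) := by ring
          rw [e1]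
          obtain ⟨M, hM⟩ : ∃ M, M = n + r * gam + r * b * -del * (1 - r * l) := ⟨_, rfl⟩
          rw [← hM]
          have e2 : n * lam * q1 e = n / r - n * eh e / r := by
            have e3 : lam = e / r := by rw [he]; field_simp
            rw [e3]
            field_simp
            linear_combination -n * eq1
          rw [e2]
          have hxn := hr.ne'
          have hx1n := x1.ne'
          rcases eq_or_ne M 0 with hM0 | hM0
          · rw [hM0]
            simp only [mul_zero, div_zero]
            have e3 : e - r * l = r * (lam - l) := by rw [he]; ring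
            rw [e3]
            field_simp
            ring
          · have e3 : e - r * l = r * (lam - l) := by rw [he]; ring
            rw [e3]
            field_simp
            ring
        have h2 := mul_nonneg (sq_nonneg r) hF
        linarith
    · rw [if_neg h.not_ge] at hc
      unfold G.FinS at hF
      rw [if_neg h.not_ge, abs_of_pos h, ← he] at hF
      rw [abs_of_pos h] at hc
      have hd0 : -(r * del) * (1 - r * l) / 2 ≤ 0 := by
        have : 0 ≤ r * del * (1 - r * l) := by positivity
        linarith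
      refine monIn3 (d := -(r * del) * (1 - r * l) / 2) (N := r * (n + r * gam)) (by positivity)
        (by positivity) hL0 hN' hd.symm hd0 ?_ ?_
      · have : 2 * (r * b) * -(-(r * del) * (1 - r * l) / 2) =
            r * (r * b * del * (1 - r * l)) := by ring
        rw [this]
        exact mul_le_mul_of_nonneg_left hc hr.le
      · rw [kE_h0 e0 he1, hex, hL]
        have key : r ^ 2 * ((nu + n) / r + base - lev) -
            2 * eh e / (1 - e) * (r * (n + r * gam) / 2 * (1 - e) +
              (e - r * l) * -(-(r * del) * (1 - r * l) / 2) +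
              2 * (r * a) * (r * l) * (-(r * del) * (1 - r * l) / 2) ^ 2 /
                (r * (n + r * gam) + 2 * (r * a) * -(-(r * del) * (1 - r * l) / 2))) =
            r ^ 2 * (nu / r + n * lam * q1 e + base - eh e * gam - lev -
              eh e * (lam - l) * del * (1 - r * l) / (1 - e) -
              r * eh e * a * l * del ^ 2 * (1 - r * l) ^ 2 /
                ((1 - e) * (n + r * gam + r * a * del * (1 - r * l)))) := by
          have e1 : r * (n + r * gam) + 2 * (r * a) * -(-(r * del) * (1 - r * l) / 2) =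
              r * (n + r * gam + r * a * del * (1 - r * l)) := by ring
          rw [e1]
          obtain ⟨M, hM⟩ : ∃ M, M = n + r * gam + r * a * del * (1 - r * l) := ⟨_, rfl⟩
          rw [← hM]
          have e2 : n * lam * q1 e = n / r - n * eh e / r := by
            have e3 : lam = e / r := by rw [he]; field_simp
            rw [e3]
            field_simp
            linear_combination -n * eq1
          rw [e2]
          have hxn := hr.ne'
          have hx1n := x1.ne'
          rcases eq_or_ne M 0 with hM0 | hM0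
          · rw [hM0]
            simp only [mul_zero, div_zero]
            have e3 : e - r * l = r * (lam - l) := by rw [he]; ring
            rw [e3]
            field_simp
            ring
          · have e3 : e - r * l = r * (lam - l) := by rw [he]; ring
            rw [e3]
            field_simp
            ring
        have h2 := mul_nonneg (sq_nonneg r) hF
        linarith
  · have hL0 : 0 < r * a + r * b := by rw [hL]; positivity
    have e1 : r * (n + r * gam) - 2 * (r * a) * (-(r * del) * (1 - r * l) / 2) =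
        r * (n + r * gam + r * a * del * (1 - r * l)) := by ring
    have e2 : r * (n + r * gam) + 2 * (r * b) * (-(r * del) * (1 - r * l) / 2) =
        r * (n + r * gam - r * b * del * (1 - r * l)) := by ring
    refine monOut (d := -(r * del) * (1 - r * l) / 2) (N := r * (n + r * gam)) (by positivity)
      (by positivity) e0.le hL0 hN' hd.symm (by positivity) (by rw [e1]; positivity)
      (by rw [e2]; positivity) ?_ ?_ ?_
    · rw [e1, hL, he]
      have := mul_le_mul_of_nonneg_left hpp (by positivity : 0 ≤ r ^ 2)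
      linarith
    · rw [e2, hL, he]
      have := mul_le_mul_of_nonneg_left hq (by positivity : 0 ≤ r ^ 2)
      linarith
    · rw [kE_h0 e0 he1, hex, hL, mul_div_assoc, ← one_add_et e0.le he1]
      have hxn := hr.ne'
      have hln := l0.ne'
      have hnn := n0.ne'
      have key : r ^ 2 * ((nu + n) / r + base - lev) -
          2 * (1 + e * et e) * (e * (r * (n + r * gam) / (r * l) *
            (1 - e / (2 * (r * l)) - r * l / 2) - (r * a - r * b) / (r * l) *
            (-(r * del) * (1 - r * l) / 2) * (1 - e / (r * l)) +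
            2 * (r * a) * (r * b) * e * (-(r * del) * (1 - r * l) / 2) ^ 2 /
              ((r * l) ^ 2 * (r * (n + r * gam))))) =
          r ^ 2 * FoutS r lam a b l n gam del nu base lev := by
        unfold FoutS
        rw [← he]
        have e3 : lam = e / r := by rw [he]; field_simp
        obtain ⟨M, hM⟩ : ∃ M, M = n + r * gam := ⟨_, rfl⟩
        have hM0 : M ≠ 0 := by rw [hM]; exact hnn
        rw [← hM]
        have hg : n = M - r * gam := by linarith
        rw [hg, e3]
        field_simp
        ring
      have h2 : 0 ≤ r ^ 2 * FoutS r lam a b l n gam del nu base lev :=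
        mul_nonneg (sq_nonneg r) hF
      linarith
  · have hxl : 0 < 1 - r * l := by linarith
    have hL0 : 0 < r * a + r * b := by rw [hL]; positivity
    have hκ : 0 ≤ kE (h0 * (1 - e)) := by
      have hk := kE_h0 e0 he1
      have h5 : 0 ≤ kE (h0 * (1 - e)) * h0 := by
        rw [hk]
        have := (eh_pos e0 he1).le
        positivity
      exact nonneg_of_mul_nonneg_left h5 hp
    refine monC (d := -(r * del) * (1 - r * l) / 2) (N := r * (n + r * gam)) hκ e0.le
      (by positivity) (by positivity) hL0 hN' hd.symm (by positivity) ?_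
    rw [kE_h0 e0 he1, hex]
    have e3 : |-(r * del) * (1 - r * l) / 2| = r * |del| * (1 - r * l) / 2 := by
      rw [abs_div, abs_mul, abs_neg, abs_mul, abs_of_pos hr, abs_of_pos hxl,
        abs_of_pos (by norm_num : (0 : ℝ) < 2)]
    rw [e3]
    unfold G.FcS at hF
    rw [← he] at hF
    have key : r ^ 2 * ((nu + n) / r + base - lev) -
        2 * eh e / (1 - e) * (r * (n + r * gam) / 2 * (1 - e) +
          e * (r * |del| * (1 - r * l) / 2)) =
        r ^ 2 * (nu / r + n * lam * q1 e + base - eh e * gam - lev -
          lam * eh e * |del| * (1 - r * l) / (1 - e)) := by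
      have e2 : n * lam * q1 e = n / r - n * eh e / r := by
        have e3 : lam = e / r := by rw [he]; field_simp
        rw [e3]
        field_simp
        linear_combination -n * eq1
      rw [e2]
      have e4 : lam = e / r := by rw [he]; field_simp
      rw [e4]
      have hxn := hr.ne'
      have hx1n := x1.ne'
      field_simp
      ring
    have h2 := mul_nonneg (sq_nonneg r) hF
    linarith
  · have hxl : 0 < 1 - r * l := by linarith
    have hL0 : 0 < r * a + r * b := by rw [hL]; positivity
    refine monNeg (d := -(r * del) * (1 - r * l) / 2) (N := r * (n + r * gam))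
      (by positivity) (by positivity) hL0 hN' hd.symm
      (mul_nonpos_of_nonneg_of_nonpos hr.le hn) ?_
    rw [kE_h0 e0 he1, hex]
    have e3 : |-(r * del) * (1 - r * l) / 2| = r * |del| * (1 - r * l) / 2 := by
      rw [abs_div, abs_mul, abs_neg, abs_mul, abs_of_pos hr, abs_of_pos hxl,
        abs_of_pos (by norm_num : (0 : ℝ) < 2)]
    rw [e3]
    unfold G.FnS at hF
    rw [← he] at hF
    have key : r ^ 2 * ((nu + n) / r + base - lev) -
        2 * eh e / (1 - e) * (e * (r * |del| * (1 - r * l) / 2 - r * (n + r * gam) / 2)) =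
        r ^ 2 * ((nu + n) / r + base - lev -
          lam * eh e * (|del| * (1 - r * l) - (n + r * gam)) / (1 - e)) := by
      have e4 : lam = e / r := by rw [he]; field_simp
      rw [e4]
      have hxn := hr.ne'
      have hx1n := x1.ne'
      field_simp
    have h2 := mul_nonneg (sq_nonneg r) hF
    linarith

end

end Pool.Agent.Strip051.LC.E1
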