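import Pool.Agent.Strip051.LC.E1.Slope
import Pool.Agent.Strip051.LC.E1.Cst

/-! # Rests near the full period: piecewise linear functions, for the slopes next to the height `0` -/

namespace Pool.Agent.Strip051.LC.E1

open Pool.Agent.Strip051.LC.E0.G (om qw cc1 xi1 sg1 cc3 xi3 sg3 xiw dwl dwu)
open G

theorem hg_le' {a b : ℝ} (h : a ≤ b) : hg a ≤ hg b := max_le_max h le_rfl

theorem hg_nn' (a : ℝ) : 0 ≤ hg a := le_max_right _ _

theorem hg_ge' (a : ℝ) : a ≤ hg a := le_max_left _ _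

theorem hg_ps {a : ℝ} (h : 0 ≤ a) : hg a = a := max_eq_left h

section

variable {s0 s1 s2 s3 s4 k1 k2 k3 k4 y m M : ℝ}

/-- A sum of hinges is above `m y` if all slopes are at least `m`. -/
theorem hs_lo (hy : 0 ≤ y) (h1 : 0 ≤ k1) (h2 : k1 ≤ k2) (h3 : k2 ≤ k3) (h4 : k3 ≤ k4)
    (a0 : m ≤ s0) (a1 : m ≤ s1) (a2 : m ≤ s2) (a3 : m ≤ s3) (a4 : m ≤ s4) :
    m * y ≤ s0 * y + (s1 - s0) * hg (y - k1) + (s2 - s1) * hg (y - k2) +
      (s3 - s2) * hg (y - k3) + (s4 - s3) * hg (y - k4) := by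
  have b1 : hg (y - k1) ≤ y := max_le (by linarith) hy
  have b2 : hg (y - k2) ≤ hg (y - k1) := hg_le' (by linarith)
  have b3 : hg (y - k3) ≤ hg (y - k2) := hg_le' (by linarith)
  have b4 : hg (y - k4) ≤ hg (y - k3) := hg_le' (by linarith)
  have b5 := hg_nn' (y - k4)
  have c0 := mul_nonneg (by linarith : 0 ≤ s0 - m) (by linarith : 0 ≤ y - hg (y - k1))
  have c1 := mul_nonneg (by linarith : 0 ≤ s1 - m) (by linarith : 0 ≤ hg (y - k1) - hg (y - k2))
  have c2 := mul_nonneg (by linarith : 0 ≤ s2 - m) (by linarith : 0 ≤ hg (y - k2) - hg (y - k3))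
  have c3 := mul_nonneg (by linarith : 0 ≤ s3 - m) (by linarith : 0 ≤ hg (y - k3) - hg (y - k4))
  have c4 := mul_nonneg (by linarith : 0 ≤ s4 - m) b5
  linarith

theorem hs_hi (hy : 0 ≤ y) (h1 : 0 ≤ k1) (h2 : k1 ≤ k2) (h3 : k2 ≤ k3) (h4 : k3 ≤ k4)
    (a0 : s0 ≤ M) (a1 : s1 ≤ M) (a2 : s2 ≤ M) (a3 : s3 ≤ M) (a4 : s4 ≤ M) :
    s0 * y + (s1 - s0) * hg (y - k1) + (s2 - s1) * hg (y - k2) +
      (s3 - s2) * hg (y - k3) + (s4 - s3) * hg (y - k4) ≤ M * y := by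
  have := hs_lo (m := -M) (s0 := -s0) (s1 := -s1) (s2 := -s2) (s3 := -s3) (s4 := -s4) hy h1 h2 h3
    h4 (by linarith) (by linarith) (by linarith) (by linarith) (by linarith)
  linarith

end

/-! ### The tents -/

section

variable {e a b b' n n' m lo hi : ℝ}

/-- The second tent. -/
noncomputable def te1 (e a : ℝ) : ℝ := 2 * a - 4 * hg (a - e / 2) + 2 * hg (a - e)

/-- The third tent. -/
noncomputable def te2 (e a : ℝ) : ℝ :=
  2 * hg (a - e / 2) - 8 / 3 * hg (a - e) + 2 / 3 * hg (a - 5 / 2 * e)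

theorem te0_nn (a : ℝ) : 0 ≤ e - 2 * a + 2 * hg (a - e / 2) := by
  have := hg_ge' (a - e / 2)
  linarith

theorem te1_nn (ha : 0 ≤ a) : 0 ≤ te1 e a := by
  unfold te1
  rcases le_total a (e / 2) with h | h
  · rw [hg_np (by linarith : a - e / 2 ≤ 0)]
    have := hg_nn' (a - e)
    linarith
  · rw [hg_ps (by linarith : 0 ≤ a - e / 2)]
    have := hg_ge' (a - e)
    linarith

theorem te2_nn (he : 0 ≤ e) : 0 ≤ te2 e a := by
  unfold te2
  rcases le_total a e with h | h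
  · rw [hg_np (by linarith : a - e ≤ 0), hg_np (by linarith : a - 5 / 2 * e ≤ 0)]
    have := hg_nn' (a - e / 2)
    linarith
  · rw [hg_ps (by linarith : 0 ≤ a - e), hg_ps (by linarith : 0 ≤ a - e / 2)]
    have := hg_ge' (a - 5 / 2 * e)
    linarith

theorem te3_nn (he : 0 ≤ e) : 0 ≤ 2 / 3 * (hg (a - e) - hg (a - 5 / 2 * e)) := by
  have : hg (a - 5 / 2 * e) ≤ hg (a - e) := hg_le' (by linarith)
  linarith

theorem te_sum (he : 0 ≤ e) : te1 e a + te2 e a ≤ e := by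
  have h0 := te0_nn (e := e) a
  have := te3_nn (a := a) he
  unfold te1 te2
  linarith

theorem tl_te : tl b b' e a = b * te1 e a + b' * te2 e a := by
  unfold tl te1 te2
  ring

theorem nt_te : nt n n' m e a = n * (e - 2 * a + 2 * hg (a - e / 2)) + n' * te1 e a +
    m * te2 e a := by
  unfold nt te1 te2
  ring

theorem nt_lo (he : 0 ≤ e) (ha : 0 ≤ a) (h0 : lo ≤ 0) (h1 : lo ≤ n) (h2 : lo ≤ n') (h3 : lo ≤ m) :
    lo * e ≤ nt n n' m e a := by
  rw [nt_te]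
  have t0 := te0_nn (e := e) a
  have t1 := te1_nn ha (e := e)
  have t2 := te2_nn (a := a) he
  have t3 := te3_nn (a := a) he
  have a0 := mul_nonneg (by linarith : 0 ≤ n - lo) t0
  have a1 := mul_nonneg (by linarith : 0 ≤ n' - lo) t1
  have a2 := mul_nonneg (by linarith : 0 ≤ m - lo) t2
  have a3 := mul_nonneg (by linarith : 0 ≤ -lo) t3
  have key : e = (e - 2 * a + 2 * hg (a - e / 2)) + te1 e a + te2 e a +
      2 / 3 * (hg (a - e) - hg (a - 5 / 2 * e)) := by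
    unfold te1 te2
    ring
  have : lo * e = lo * (e - 2 * a + 2 * hg (a - e / 2)) + lo * te1 e a + lo * te2 e a +
      lo * (2 / 3 * (hg (a - e) - hg (a - 5 / 2 * e))) := by
    conv_lhs => rw [key]
    ring
  linarith

theorem nt_hi (he : 0 ≤ e) (ha : 0 ≤ a) (h0 : 0 ≤ hi) (h1 : n ≤ hi) (h2 : n' ≤ hi) (h3 : m ≤ hi) :
    nt n n' m e a ≤ hi * e := by
  have h := nt_lo (n := -n) (n' := -n') (m := -m) (lo := -hi) he ha (by linarith) (by linarith)
    (by linarith) (by linarith)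
  have : nt (-n) (-n') (-m) e a = -nt n n' m e a := by
    unfold nt
    ring
  rw [this] at h
  linarith

/-- Beyond the last node the correction is `0`. -/
theorem nt_0 (he : 0 ≤ e) (ha : 5 / 2 * e ≤ a) : nt n n' m e a = 0 := by
  unfold nt
  rw [hg_ps (by linarith : 0 ≤ a - e / 2), hg_ps (by linarith : 0 ≤ a - e),
    hg_ps (by linarith : 0 ≤ a - 5 / 2 * e)]
  ring

theorem tl_0 (he : 0 ≤ e) (ha : 5 / 2 * e ≤ a) : tl b b' e a = 0 := by
  unfold tl
  rw [hg_ps (by linarith : 0 ≤ a - e / 2), hg_ps (by linarith : 0 ≤ a - e),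
    hg_ps (by linarith : 0 ≤ a - 5 / 2 * e)]
  ring

end

/-! ### The kernels -/

section

variable {k0 v m p f f' E e y lo hi : ℝ}

theorem s3_lo : 433 / 500 ≤ Real.sqrt 3 / 2 := by
  have : 433 / 250 ≤ Real.sqrt 3 := Real.le_sqrt_of_sq_le (by norm_num)
  linarith

theorem s3_hi : Real.sqrt 3 / 2 ≤ 4331 / 5000 := by
  have : Real.sqrt 3 ≤ 4331 / 2500 := Real.sqrt_le_iff.2 ⟨by norm_num, by norm_num⟩
  linarith

/-- The kernel up to the last scaled node. -/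
theorem uR_A (he1 : e ≤ 1 / 40) (h1 : y ≤ 5 / 2 * e) :
    uR k0 v m p f f' E 1 e y = u1 k0 v * y + (u2 k0 v m p E - u1 k0 v) * hg (y - e) +
      (u3 k0 m - u2 k0 v m p E) * hg (y - 8 / 5 * e) +
      (u4 k0 m p (u5 k0 f) E - u3 k0 m) * hg (y - 11 / 5 * e) := by
  have a1 := s3_lo
  have a2 := s3_hi
  unfold uR
  rw [mul_one, mul_one]
  have c2 : Real.sqrt 3 / 2 * y ≤ Real.sqrt 3 / 2 * (1 / 16) :=
    mul_le_mul_of_nonneg_left (by linarith) (by linarith)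
  rw [hg_np (by linarith : y - 5 / 2 * e ≤ 0),
    hg_np (by linarith : Real.sqrt 3 / 2 * y - 1 / 16 ≤ 0),
    hg_np (by linarith : Real.sqrt 3 / 2 * y - 1 / 10 ≤ 0)]
  ring

/-- The kernel beyond the last scaled node. -/
theorem uR_B (he : 0 < e) (h0 : 5 / 2 * e ≤ y) (h1 : y < 1 / 16) :
    uR k0 v m p f f' E 1 e y = u5 k0 f * y := by
  have a1 := s3_lo
  have a2 := s3_hi
  unfold uR
  rw [mul_one, mul_one]
  have c2 : Real.sqrt 3 / 2 * y ≤ Real.sqrt 3 / 2 * (1 / 16) :=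
    mul_le_mul_of_nonneg_left (by linarith) (by linarith)
  rw [hg_ps (by linarith : 0 ≤ y - 5 / 2 * e), hg_ps (by linarith : 0 ≤ y - 11 / 5 * e),
    hg_ps (by linarith : 0 ≤ y - 8 / 5 * e), hg_ps (by linarith : 0 ≤ y - e),
    hg_np (by linarith : Real.sqrt 3 / 2 * y - 1 / 16 ≤ 0),
    hg_np (by linarith : Real.sqrt 3 / 2 * y - 1 / 10 ≤ 0)]
  unfold u4 u2
  ring

theorem uR_neg : uR (-k0) (-v) (-m) (-p) (-f) (-f') E 1 e y = -uR k0 v m p f f' E 1 e y := by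
  unfold uR u4 u2 u5 u3 u1 u6 u7
  ring

end

end Pool.Agent.Strip051.LC.E1
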