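import Pool.Agent.Strip051.LC.E1.SloA

/-! # Rests near the full period: the slopes next to the height `0`, tools -/

namespace Pool.Agent.Strip051.LC.E1

open Pool.Agent.StripNear Pool.Agent.StripSquare Pool.Agent.Strip051 Pool.Agent.Strip051.Sweep
open Pool.Agent.Strip051.PB
open Pool.Agent.Strip051.LC.E0.G (om qw cc1 xi1 sg1 cc3 xi3 sg3 xiw dwl dwu)
open G

theorem sg_ge {a b s va m y : ℝ} (h1 : a ≤ y) (h2 : y ≤ b) (ha : m * a ≤ va)
    (hb : m * b ≤ va + s * (b - a)) : m * y ≤ va + s * (y - a) := by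
  rcases le_total m s with h | h
  · nlinarith [mul_nonneg (by linarith : 0 ≤ s - m) (by linarith : 0 ≤ y - a)]
  · nlinarith [mul_nonneg (by linarith : 0 ≤ m - s) (by linarith : 0 ≤ b - y)]

section

variable {s0 s1 s2 s3 s4 k1 k2 k3 k4 k5 y m : ℝ}

/-- A sum of hinges is above `m y` if this holds at the nodes. -/
theorem pw_lo (hy : 0 ≤ y) (h1 : 0 ≤ k1) (h2 : k1 ≤ k2) (h3 : k2 ≤ k3) (h4 : k3 ≤ k4)
    (h5 : y ≤ k5) (a1 : m * k1 ≤ s0 * k1) (a2 : m * k2 ≤ s0 * k1 + s1 * (k2 - k1))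
    (a3 : m * k3 ≤ s0 * k1 + s1 * (k2 - k1) + s2 * (k3 - k2))
    (a4 : m * k4 ≤ s0 * k1 + s1 * (k2 - k1) + s2 * (k3 - k2) + s3 * (k4 - k3))
    (a5 : m * k5 ≤ s0 * k1 + s1 * (k2 - k1) + s2 * (k3 - k2) + s3 * (k4 - k3) + s4 * (k5 - k4)) :
    m * y ≤ s0 * y + (s1 - s0) * hg (y - k1) + (s2 - s1) * hg (y - k2) +
      (s3 - s2) * hg (y - k3) + (s4 - s3) * hg (y - k4) := by
  rcases le_total y k1 with h | h
  · rw [hg_np (by linarith : y - k1 ≤ 0), hg_np (by linarith : y - k2 ≤ 0),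
      hg_np (by linarith : y - k3 ≤ 0), hg_np (by linarith : y - k4 ≤ 0)]
    have := sg_ge (a := 0) (b := k1) (s := s0) (va := 0) (m := m) hy h (by simp) (by linarith)
    linarith
  rw [hg_ps (by linarith : 0 ≤ y - k1)]
  rcases le_total y k2 with h' | h'
  · rw [hg_np (by linarith : y - k2 ≤ 0),
      hg_np (by linarith : y - k3 ≤ 0), hg_np (by linarith : y - k4 ≤ 0)]
    have := sg_ge (a := k1) (b := k2) (s := s1) (m := m) h h' a1 a2
    linarith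
  rw [hg_ps (by linarith : 0 ≤ y - k2)]
  rcases le_total y k3 with h'' | h''
  · rw [hg_np (by linarith : y - k3 ≤ 0), hg_np (by linarith : y - k4 ≤ 0)]
    have := sg_ge (a := k2) (b := k3) (s := s2) (m := m) h' h'' a2 a3
    linarith
  rw [hg_ps (by linarith : 0 ≤ y - k3)]
  rcases le_total y k4 with h3' | h3'
  · rw [hg_np (by linarith : y - k4 ≤ 0)]
    have := sg_ge (a := k3) (b := k4) (s := s3) (m := m) h'' h3' a3 a4
    linarith
  rw [hg_ps (by linarith : 0 ≤ y - k4)]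
  have := sg_ge (a := k4) (b := k5) (s := s4) (m := m) h3' h5 a4 a5
  linarith

end

section

variable {M b b' τ k0 v m p f f' E e y lo hi : ℝ}

/-- The difference of the values on `W` and on the unit circle, up to the last scaled node. -/
theorem pwA_lo (he : 0 < e) (he1 : e ≤ 1 / 40) (h0 : 0 ≤ y) (hA : y ≤ 5 / 2 * e)
    (a1 : lo ≤ M + 2 * b + τ - u1 k0 v) (a2 : lo ≤ M + b' + τ - u1 k0 v)
    (a3 : lo * (8 / 5) ≤ 8 / 5 * M + 3 / 5 * b' + 8 / 5 * τ - (p + u3 k0 m * (3 / 5 - E)))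
    (a4 : lo * (11 / 5) ≤ 11 / 5 * M + 1 / 5 * b' + 11 / 5 * τ - (p + u3 k0 m * (6 / 5 - E)))
    (a5 : lo ≤ M + τ - u5 k0 f) :
    lo * y ≤ M * y + tl b b' e y + τ * y - uR k0 v m p f f' E 1 e y := by
  have e1 : uR k0 v m p f f' E 1 e y = u1 k0 v * y + (u2 k0 v m p E - u1 k0 v) * hg (y - e) +
      (u3 k0 m - u2 k0 v m p E) * hg (y - 8 / 5 * e) +
      (u4 k0 m p (u5 k0 f) E - u3 k0 m) * hg (y - 11 / 5 * e) := uR_A he1 hA
  have e2 : tl b b' e y = 2 * b * y + (2 * b' - 4 * b) * hg (y - e / 2) +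
      (2 * b - 8 / 3 * b') * hg (y - e) := by
    unfold tl
    rw [hg_np (by linarith : y - 5 / 2 * e ≤ 0)]
    ring
  have n1 := mul_le_mul_of_nonneg_right a1 (by linarith : 0 ≤ e / 2)
  have n2 := mul_le_mul_of_nonneg_right a2 he.le
  have n3 := mul_le_mul_of_nonneg_right a3 he.le
  have n4 := mul_le_mul_of_nonneg_right a4 he.le
  have n5 := mul_le_mul_of_nonneg_right a5 (by linarith : 0 ≤ 5 / 2 * e)
  have key := pw_lo (m := lo) (y := y) (s0 := M + 2 * b + τ - u1 k0 v)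
    (s1 := M + (2 * b' - 2 * b) + τ - u1 k0 v) (s2 := M - 2 / 3 * b' + τ - u2 k0 v m p E)
    (s3 := M - 2 / 3 * b' + τ - u3 k0 m) (s4 := M - 2 / 3 * b' + τ - u4 k0 m p (u5 k0 f) E)
    (k1 := e / 2) (k2 := e) (k3 := 8 / 5 * e) (k4 := 11 / 5 * e) (k5 := 5 / 2 * e) h0 (by linarith)
    (by linarith) (by linarith) (by linarith) hA n1 (by linarith)
    (by unfold u2; linarith) (by unfold u2; linarith) (by
      have h3 : e * (u4 k0 m p (u5 k0 f) E * (3 / 10)) =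
          e * (u5 k0 f * (5 / 2) - p - u3 k0 m * (6 / 5 - E)) := by
        unfold u4
        ring
      have h4 : e * (u2 k0 v m p E * (3 / 5)) = e * (p + u3 k0 m * (3 / 5 - E) - u1 k0 v) := by
        unfold u2
        ring
      linarith)
  rw [e1, e2]
  linarith

theorem tlw_neg : tl (-b) (-b') e y = -tl b b' e y := by
  unfold tl
  ring

theorem pwA_hi (he : 0 < e) (he1 : e ≤ 1 / 40) (h0 : 0 ≤ y) (hA : y ≤ 5 / 2 * e)
    (a1 : M + 2 * b + τ - u1 k0 v ≤ hi) (a2 : M + b' + τ - u1 k0 v ≤ hi)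
    (a3 : 8 / 5 * M + 3 / 5 * b' + 8 / 5 * τ - (p + u3 k0 m * (3 / 5 - E)) ≤ hi * (8 / 5))
    (a4 : 11 / 5 * M + 1 / 5 * b' + 11 / 5 * τ - (p + u3 k0 m * (6 / 5 - E)) ≤ hi * (11 / 5))
    (a5 : M + τ - u5 k0 f ≤ hi) :
    M * y + tl b b' e y + τ * y - uR k0 v m p f f' E 1 e y ≤ hi * y := by
  have g1 : u1 (-k0) (-v) = -u1 k0 v := by unfold u1; ring
  have g3 : u3 (-k0) (-m) = -u3 k0 m := by unfold u3; ring
  have g5 : u5 (-k0) (-f) = -u5 k0 f := by unfold u5; ring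
  have := pwA_lo (M := -M) (b := -b) (b' := -b') (τ := -τ) (k0 := -k0) (v := -v) (m := -m)
    (p := -p) (f := -f) (f' := -f') (E := E) (lo := -hi) he he1 h0 hA
    (by rw [g1]; linarith) (by rw [g1]; linarith) (by rw [g3]; linarith) (by rw [g3]; linarith)
    (by rw [g5]; linarith)
  rw [uR_neg, tlw_neg] at this
  linarith

end

section

variable {M b b' τ k0 v m p f f' E e y c : ℝ}

theorem ps_le {X θ : ℝ} (he : 0 < e) (h : e * X ≤ c * θ) : X ≤ c / e * θ := by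
  rw [div_mul_eq_mul_div, le_div_iff₀ he]
  linarith

theorem ng_le {X θ : ℝ} (he : 0 < e) (h : -(c * θ) ≤ e * X) : -(c / e) * θ ≤ X := by
  rw [← neg_div, div_mul_eq_mul_div, div_le_iff₀ he]
  linarith

theorem ps_le1 {X : ℝ} (he : 0 < e) (h : e * X ≤ c) : X ≤ c / e := by
  rw [le_div_iff₀ he]
  linarith

theorem ng_le1 {X : ℝ} (he : 0 < e) (h : -c ≤ e * X) : -(c / e) ≤ X := by
  rw [← neg_div, div_le_iff₀ he]
  linarith

/-- The same with the factor `e`. -/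
theorem pwA_lo' (he : 0 < e) (he1 : e ≤ 1 / 40) (h0 : 0 ≤ y) (hA : y ≤ 5 / 2 * e)
    (a1 : -c ≤ e * (M + 2 * b + τ - u1 k0 v)) (a2 : -c ≤ e * (M + b' + τ - u1 k0 v))
    (a3 : -(c * (8 / 5)) ≤
      e * (8 / 5 * M + 3 / 5 * b' + 8 / 5 * τ - (p + u3 k0 m * (3 / 5 - E))))
    (a4 : -(c * (11 / 5)) ≤
      e * (11 / 5 * M + 1 / 5 * b' + 11 / 5 * τ - (p + u3 k0 m * (6 / 5 - E))))
    (a5 : -c ≤ e * (M + τ - u5 k0 f)) :
    -(c * y) ≤ e * (M * y + tl b b' e y + τ * y - uR k0 v m p f f' E 1 e y) := by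
  have h := pwA_lo (M := M) (b := b) (b' := b') (τ := τ) (k0 := k0) (v := v) (m := m) (p := p)
    (f := f) (f' := f') (E := E) (lo := -(c / e)) he he1 h0 hA
    (ng_le1 he a1)
    (ng_le1 he a2)
    (ng_le he a3) (ng_le he a4)
    (ng_le1 he a5)
  have h1 := mul_le_mul_of_nonneg_left h he.le
  have e1 : e * (-(c / e) * y) = -(c * y) := by
    have := he.ne'
    field_simp
  linarith

theorem pwA_hi' (he : 0 < e) (he1 : e ≤ 1 / 40) (h0 : 0 ≤ y) (hA : y ≤ 5 / 2 * e)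
    (a1 : e * (M + 2 * b + τ - u1 k0 v) ≤ c) (a2 : e * (M + b' + τ - u1 k0 v) ≤ c)
    (a3 : e * (8 / 5 * M + 3 / 5 * b' + 8 / 5 * τ - (p + u3 k0 m * (3 / 5 - E))) ≤ c * (8 / 5))
    (a4 : e * (11 / 5 * M + 1 / 5 * b' + 11 / 5 * τ - (p + u3 k0 m * (6 / 5 - E))) ≤
      c * (11 / 5))
    (a5 : e * (M + τ - u5 k0 f) ≤ c) :
    e * (M * y + tl b b' e y + τ * y - uR k0 v m p f f' E 1 e y) ≤ c * y := by
  have h := pwA_hi (M := M) (b := b) (b' := b') (τ := τ) (k0 := k0) (v := v) (m := m) (p := p)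
    (f := f) (f' := f') (E := E) (hi := c / e) he he1 h0 hA
    (ps_le1 he a1)
    (ps_le1 he a2)
    (ps_le he a3) (ps_le he a4)
    (ps_le1 he a5)
  have h1 := mul_le_mul_of_nonneg_left h he.le
  have e1 : e * (c / e * y) = c * y := by
    have := he.ne'
    field_simp
  linarith

/-- Bounds of the functions on `W`. -/
theorem tlw_lo {lo : ℝ} (he : 0 ≤ e) (h0 : 0 ≤ y) (a1 : lo ≤ M + 2 * b) (a2 : lo ≤ M + 2 * b' - 2 * b)
    (a3 : lo ≤ M - 2 / 3 * b') (a4 : lo ≤ M) : lo * y ≤ M * y + tl b b' e y := by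
  have := hs_lo (m := lo) (y := y) (s0 := M + 2 * b) (s1 := M + 2 * b' - 2 * b)
    (s2 := M - 2 / 3 * b') (s3 := M) (s4 := M) (k1 := e / 2) (k2 := e) (k3 := 5 / 2 * e)
    (k4 := 5 / 2 * e) h0 (by linarith) (by linarith) (by linarith) le_rfl a1 a2 a3 a4 a4
  unfold tl
  linarith

theorem tlw_hi {hi : ℝ} (he : 0 ≤ e) (h0 : 0 ≤ y) (a1 : M + 2 * b ≤ hi) (a2 : M + 2 * b' - 2 * b ≤ hi)
    (a3 : M - 2 / 3 * b' ≤ hi) (a4 : M ≤ hi) : M * y + tl b b' e y ≤ hi * y := by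
  have := hs_hi (M := hi) (y := y) (s0 := M + 2 * b) (s1 := M + 2 * b' - 2 * b)
    (s2 := M - 2 / 3 * b') (s3 := M) (s4 := M) (k1 := e / 2) (k2 := e) (k3 := 5 / 2 * e)
    (k4 := 5 / 2 * e) h0 (by linarith) (by linarith) (by linarith) le_rfl a1 a2 a3 a4 a4
  unfold tl
  linarith

end

/-! ### The bounds of the differences -/

/-- Bounds of the differences of two values, for the two kernels separately. -/
structure Df0 (kK kB lo hi d : ℝ) (a b : Sv) : Prop where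
  K : |b.k - a.k| ≤ kK * d
  B : |b.b - a.b| ≤ kB * d
  L0 : lo * d ≤ b.c 1 - a.c 1
  L1 : b.c 1 - a.c 1 ≤ hi * d

/-- The slope for the vertex. -/
noncomputable def kVx (V : Vx) (kK kB : ℝ) : ℝ :=
  match V with
  | .far => kK
  | .near => 5 / 4 * kK + 1 / 4 * kB

theorem Df0.df {kK kB lo hi d e : ℝ} {a b : Sv} (h : Df0 kK kB lo hi d a b) (C : Cs e) (V : Vx) :
    Df V e (kVx V kK kB) lo hi d a b := by
  refine ⟨?_, h.L0, h.L1⟩
  cases V
  · exact h.K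
  · simp only [kVx]
    have h1 := h.K
    have h2 := h.B
    have hl0 := C.L0
    have hl1 := C.L1
    have hm0 := C.m0
    have hm1 := C.m1
    have k1 : LAM e * G.mu e ≤ 1 * (1 / 4) := mul_le_mul hl1 hm1 (by linarith) (by norm_num)
    have k0 : 0 ≤ LAM e * G.mu e := mul_nonneg (by linarith) (by linarith)
    have e1 : nk e b.k b.b - nk e a.k a.b = (1 + LAM e * G.mu e) * (b.k - a.k) +
        G.mu e * (b.b - a.b) := by
      unfold nk
      ring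
    rw [e1]
    refine (abs_add_le _ _).trans ?_
    rw [abs_mul, abs_mul, abs_of_nonneg (by linarith : 0 ≤ 1 + LAM e * G.mu e),
      abs_of_nonneg (by linarith : 0 ≤ G.mu e)]
    have b1 := abs_nonneg (b.k - a.k)
    have b2 := abs_nonneg (b.b - a.b)
    nlinarith

/-- The positions next to the height `0`. -/
structure Ph (y : ℝ) : Prop where
  y0 : 0 ≤ y
  y1 : y < 1 / 16
  xlo : 3 / 2 * y - 3 * y ^ 2 ≤ xi1 (-y) 1
  xup : xi1 (-y) 1 ≤ 3 / 2 * y - 5 / 2 * y ^ 2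
  olo : 3 / 8 * y ^ 2 ≤ om y 1
  oup : om y 1 ≤ 2 / 5 * y ^ 2
  dlo : 133 / 100 * y ≤ xi1 (-y) 1 + om y 1
  x0 : 0 ≤ xi1 (-y) 1
  x1 : xi1 (-y) 1 ≤ 3 / 2 * y
  qlo : 647 / 1000 ≤ dQ 1 y
  qup : dQ 1 y ≤ 37 / 50

theorem ph {y : ℝ} (h0 : 0 ≤ y) (h1 : y < 1 / 16) : Ph y := by
  have e : (1 : ℝ) + -y = 1 - y := by ring
  have c1 := c1_dn_lo h0 h1.le
  have c2 := c1_dn_up h0 h1.le
  rw [← e, ← cc1_c] at c1 c2
  have p := xi1_1 (z := -y) (by rw [e]; nlinarith)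
  obtain ⟨w1, w2⟩ := xiw_bd (z := y) (by nlinarith)
  rw [xiw_om] at w1 w2
  have y2 : y ^ 2 ≤ 1 / 16 * y := by nlinarith
  have y2' : 0 ≤ y ^ 2 := sq_nonneg y
  have q1 : 17311 / 10000 ≤ Real.sqrt (3 - 3 / 4 * (1 * y) ^ 2) :=
    Real.le_sqrt_of_sq_le (by nlinarith)
  have q3 := mul_nonneg (by linarith : 0 ≤ 1 / 16 - y) (by linarith : 0 ≤ 3 / 2 - 5 / 2 * (y + 1 / 16))
  have q2 : Real.sqrt (3 - 3 / 4 * (1 * y) ^ 2) ≤ 173205081 / 100000000 :=
    Real.sqrt_le_iff.2 ⟨by norm_num, by nlinarith⟩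
  refine ⟨h0, h1, by linarith, by linarith, by linarith, by linarith, by nlinarith, by nlinarith,
    by nlinarith, ?_, ?_⟩
  · unfold dQ
    nlinarith
  · unfold dQ
    nlinarith

end Pool.Agent.Strip051.LC.E1
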