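import Pool.Agent.Strip051.LC.E1.SloB

/-! # Rests near the full period: the slopes next to the height `0` -/

namespace Pool.Agent.Strip051.LC.E1

open Pool.Agent.StripNear Pool.Agent.StripSquare Pool.Agent.Strip051 Pool.Agent.Strip051.Sweep
open Pool.Agent.Strip051.PB
open Pool.Agent.Strip051.LC.E0.G (om qw cc1 xi1 sg1 cc3 xi3 sg3 xiw dwl dwu)
open G

section

variable {e y : ℝ}

/-- Products with `√3 / 2`. -/
theorem es (C : Cs e) : 433 / 500 * e ≤ e * (Real.sqrt 3 / 2) ∧
    e * (Real.sqrt 3 / 2) ≤ 4331 / 5000 * e := by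
  have h1 := mul_le_mul_of_nonneg_left s3_lo C.e0.le
  have h2 := mul_le_mul_of_nonneg_left s3_hi C.e0.le
  constructor <;> linarith

theorem esE (C : Cs e) : 929 / 1000 * (e * (Real.sqrt 3 / 2)) ≤ e * (Real.sqrt 3 / 2) * eh e ∧
    e * (Real.sqrt 3 / 2) * eh e ≤ e * (Real.sqrt 3 / 2) := by
  have h0 : 0 ≤ e * (Real.sqrt 3 / 2) := by
    have := C.e0
    positivity
  have h1 := mul_le_mul_of_nonneg_left C.eh0 h0
  have h2 := mul_le_mul_of_nonneg_left C.eh1 h0
  constructor <;> linarith

/-- The first kernel. -/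
theorem kD (C : Cs e) (h0 : 0 ≤ y) (h1 : y < 1 / 16) :
    -(7 / 100 * y) ≤ e * (wK0 1 e y + 3 / 2 * y - kU 1 e y) ∧
      e * (wK0 1 e y + 3 / 2 * y - kU 1 e y) ≤ 7 / 100 * y := by
  have he := C.e0
  have he1 := C.e1
  obtain ⟨s0, s1⟩ := es C
  obtain ⟨t0, t1⟩ := esE C
  have p0 := mul_le_mul_of_nonneg_left C.p0 he.le
  have p1 := mul_le_mul_of_nonneg_left C.p1 he.le
  have v0 := mul_le_mul_of_nonneg_left C.v0 he.le
  have v1 := mul_le_mul_of_nonneg_left C.v1 he.le
  rcases le_total y (5 / 2 * e) with hA | hB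
  · unfold wK0 kU
    rw [mul_one]
    constructor
    · refine pwA_lo' he he1 h0 hA ?_ ?_ ?_ ?_ ?_
      · unfold u1
        linarith
      · unfold u1
        linarith
      · unfold u3
        linarith
      · unfold u3
        linarith
      · unfold u5
        linarith
    · refine pwA_hi' he he1 h0 hA ?_ ?_ ?_ ?_ ?_
      · unfold u1
        linarith
      · unfold u1
        linarith
      · unfold u3
        linarith
      · unfold u3
        linarith
      · unfold u5
        linarith
  · unfold wK0 kU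
    rw [uR_B he hB h1, tl_0 he.le hB]
    have ey := mul_le_mul_of_nonneg_right he1 h0
    have ey0 := mul_nonneg he.le h0
    have t2 := mul_le_mul_of_nonneg_right s0 h0
    have t3 := mul_le_mul_of_nonneg_right s1 h0
    unfold u5
    constructor <;> linarith

/-- The second kernel. -/
theorem bD (C : Cs e) (h0 : 0 ≤ y) (h1 : y < 1 / 16) :
    -(1 / 20 * y) ≤ e * (wB0 1 e y + 3 / 2 * B0 e * y - bU 1 e y) ∧
      e * (wB0 1 e y + 3 / 2 * B0 e * y - bU 1 e y) ≤ 33 / 200 * y := by
  have he := C.e0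
  have he1 := C.e1
  obtain ⟨s0, s1⟩ := es C
  obtain ⟨t0, t1⟩ := esE C
  have p0 := mul_le_mul_of_nonneg_left C.q0' he.le
  have p1 := mul_le_mul_of_nonneg_left C.q1' he.le
  have v0 := mul_le_mul_of_nonneg_left C.w0 he.le
  have v1 := mul_le_mul_of_nonneg_left C.w1 he.le
  have hS : 0 ≤ e * (Real.sqrt 3 / 2) := by positivity
  have b0 := mul_le_mul_of_nonneg_left C.B0 he.le
  have b1 := mul_le_mul_of_nonneg_left C.B1 he.le
  have c0 := mul_le_mul_of_nonneg_left C.B0 hS
  have c1 := mul_le_mul_of_nonneg_left C.B1 hS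
  have hE0 := C.eh0
  have hE1 := C.eh1
  have d0 := mul_le_mul_of_nonneg_left C.B0 (mul_nonneg hS (by linarith : 0 ≤ eh e - 3 / 5))
  have d1 := mul_le_mul_of_nonneg_left C.B1 (mul_nonneg hS (by linarith : 0 ≤ eh e - 3 / 5))
  rcases le_total y (5 / 2 * e) with hA | hB
  · unfold wB0 bU
    rw [mul_one]
    constructor
    · refine pwA_lo' he he1 h0 hA ?_ ?_ ?_ ?_ ?_
      · unfold u1
        linarith
      · unfold u1
        linarith
      · unfold u3
        linarith
      · unfold u3
        linarith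
      · unfold u5
        linarith
    · refine pwA_hi' he he1 h0 hA ?_ ?_ ?_ ?_ ?_
      · unfold u1
        linarith
      · unfold u1
        linarith
      · unfold u3
        linarith
      · unfold u3
        linarith
      · unfold u5
        linarith
  · unfold wB0 bU
    rw [uR_B he hB h1, tl_0 he.le hB, mul_one]
    have ey := mul_le_mul_of_nonneg_right he1 h0
    have ey0 := mul_nonneg he.le h0
    have t2 := mul_le_mul_of_nonneg_right s0 h0
    have t3 := mul_le_mul_of_nonneg_right s1 h0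
    have t4 := mul_le_mul_of_nonneg_right c0 h0
    have t5 := mul_le_mul_of_nonneg_right c1 h0
    have t6 := mul_le_mul_of_nonneg_right b0 h0
    have t7 := mul_le_mul_of_nonneg_right b1 h0
    unfold u5
    constructor <;> linarith

/-- The values on `W`. -/
theorem wK_bd (C : Cs e) (h0 : 0 ≤ y) : -(19 / 2) * y ≤ wK0 1 e y ∧ wK0 1 e y ≤ -(3 / 2) * y := by
  have he := C.e0
  have v0 := C.v0
  have v1 := C.v1
  unfold wK0
  rw [mul_one]
  constructor
  · exact tlw_lo he.le h0 (by norm_num) (by linarith) (by linarith) (by norm_num)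
  · exact tlw_hi he.le h0 (by norm_num) (by linarith) (by linarith) (by norm_num)

theorem wB_bd (C : Cs e) (h0 : 0 ≤ y) : -(5 / 2) * y ≤ wB0 1 e y ∧ wB0 1 e y ≤ 19 / 2 * y := by
  have he := C.e0
  have v0 := C.w0
  have v1 := C.w1
  unfold wB0
  rw [mul_one]
  constructor
  · exact tlw_lo he.le h0 (by norm_num) (by linarith) (by linarith) (by norm_num)
  · exact tlw_hi he.le h0 (by norm_num) (by linarith) (by linarith) (by norm_num)

end

end Pool.Agent.Strip051.LC.E1
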