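import Pool.Agent.Strip051.LC.E1.SloC

/-! # Rests near the full period: the slopes next to the height `0`, the three pieces -/

namespace Pool.Agent.Strip051.LC.E1

open Pool.Agent.StripNear Pool.Agent.StripSquare Pool.Agent.Strip051 Pool.Agent.Strip051.Sweep
open Pool.Agent.Strip051.PB
open Pool.Agent.Strip051.LC.E0.G (om qw cc1 xi1 sg1 cc3 xi3 sg3 xiw dwl dwu)
open G

section

variable {e y c d X : ℝ}

theorem ab_le (he : 0 < e) (h1 : -(c * d) ≤ e * X) (h2 : e * X ≤ c * d) : |X| ≤ c / e * d := by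
  rw [abs_le]
  constructor
  · have : -(c / e) * d ≤ X := ng_le he h1
    linarith
  · exact ps_le he h2

theorem W0k : (W0 1 e y).k = wK0 1 e y + xi1 (-y) 1 * (1 + wK0 1 e y) := by
  simp only [W0, one_mul]

theorem W0b : (W0 1 e y).b = wB0 1 e y + xi1 (-y) 1 * (B0 e + wB0 1 e y) := by
  simp only [W0, one_mul, mul_one]

/-- The first piece: the first kernel. -/
theorem d1K (C : Cs e) (P : Ph y) :
    |(W0 1 e y).k - (S1 1 e y).k| ≤ 17 / 200 / e * (xi1 (-y) 1 + om y 1) := by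
  have he := C.e0
  have he1 := C.e1
  have y0 := P.y0
  have y1 := P.y1
  have d0 := P.dlo
  have x0 := P.x0
  have x1 := P.x1
  have xl := P.xlo
  have y2 : y ^ 2 ≤ 1 / 16 * y := by nlinarith
  obtain ⟨w0, w1⟩ := wK_bd C y0
  obtain ⟨a0, a1⟩ := kD C y0 y1
  have ey : e * y ≤ 1 / 40 * y := mul_le_mul_of_nonneg_right he1 y0
  have ey0 : 0 ≤ e * y := mul_nonneg he.le y0
  have ey2 : e * y ^ 2 ≤ 1 / 640 * y := by nlinarith
  rw [W0k]
  have S : (S1 1 e y).k = kU 1 e y := rfl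
  rw [S]
  -- the product
  have m0 : e * (-(19 / 2) * y * (3 / 2 * y)) ≤ e * (wK0 1 e y * xi1 (-y) 1) := by
    refine mul_le_mul_of_nonneg_left ?_ he.le
    have a1 := mul_le_mul_of_nonneg_right w0 x0
    have a2 : -(19 / 2) * y * (3 / 2 * y) ≤ -(19 / 2) * y * xi1 (-y) 1 := by
      have := mul_le_mul_of_nonneg_left x1 (by linarith : 0 ≤ 19 / 2 * y)
      linarith
    linarith
  have m1 : e * (wK0 1 e y * xi1 (-y) 1) ≤ 0 := by
    have : 0 ≤ e * (-wK0 1 e y * xi1 (-y) 1) :=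
      mul_nonneg he.le (mul_nonneg (by linarith) x0)
    linarith
  have n0 := mul_le_mul_of_nonneg_left xl he.le
  have n1 := mul_le_mul_of_nonneg_left x1 he.le
  apply ab_le he <;> linarith

/-- The first piece: the second kernel. -/
theorem d1B (C : Cs e) (P : Ph y) :
    |(W0 1 e y).b - (S1 1 e y).b| ≤ 3 / 20 / e * (xi1 (-y) 1 + om y 1) := by
  have he := C.e0
  have he1 := C.e1
  have y0 := P.y0
  have y1 := P.y1
  have d0 := P.dlo
  have x0 := P.x0
  have x1 := P.x1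
  have xl := P.xlo
  have b0 := C.B0
  have b1 := C.B1
  have y2 : y ^ 2 ≤ 1 / 16 * y := by nlinarith
  obtain ⟨w0, w1⟩ := wB_bd C y0
  obtain ⟨a0, a1⟩ := bD C y0 y1
  have ey : e * y ≤ 1 / 40 * y := mul_le_mul_of_nonneg_right he1 y0
  have ey0 : 0 ≤ e * y := mul_nonneg he.le y0
  have ey2 : e * y ^ 2 ≤ 1 / 640 * y := by nlinarith
  rw [W0b]
  have S : (S1 1 e y).b = bU 1 e y := rfl
  rw [S]
  -- the products
  have m0 : e * (-(5 / 2) * y * (3 / 2 * y)) ≤ e * (wB0 1 e y * xi1 (-y) 1) := by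
    refine mul_le_mul_of_nonneg_left ?_ he.le
    have a1 := mul_le_mul_of_nonneg_right w0 x0
    have a2 : -(5 / 2) * y * (3 / 2 * y) ≤ -(5 / 2) * y * xi1 (-y) 1 := by
      have := mul_le_mul_of_nonneg_left x1 (by linarith : 0 ≤ 5 / 2 * y)
      linarith
    linarith
  have m1 : e * (wB0 1 e y * xi1 (-y) 1) ≤ e * (19 / 2 * y * (3 / 2 * y)) := by
    refine mul_le_mul_of_nonneg_left ?_ he.le
    have a1 := mul_le_mul_of_nonneg_right w1 x0
    have a2 : 19 / 2 * y * xi1 (-y) 1 ≤ 19 / 2 * y * (3 / 2 * y) :=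
      mul_le_mul_of_nonneg_left x1 (by linarith)
    linarith
  have B0n : 0 ≤ B0 e := by linarith
  have n0 := mul_le_mul_of_nonneg_left xl (mul_nonneg he.le B0n)
  have n1 := mul_le_mul_of_nonneg_left x1 (mul_nonneg he.le B0n)
  have n2 := mul_le_mul_of_nonneg_right b1 ey0
  have n3 : B0 e * (e * y ^ 2) ≤ 1 / 2 * (e * y ^ 2) :=
    mul_le_mul_of_nonneg_right b1 (mul_nonneg he.le (sq_nonneg y))
  apply ab_le he <;> linarith

/-- The first piece: the levels. -/
theorem d1L (C : Cs e) (P : Ph y) :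
    -(3 / 20) * (xi1 (-y) 1 + om y 1) ≤ (W0 1 e y).c 1 - (S1 1 e y).c 1 ∧
      (W0 1 e y).c 1 - (S1 1 e y).c 1 ≤ 1 / 40 * (xi1 (-y) 1 + om y 1) := by
  have he := C.e0
  have he1 := C.e1
  have y0 := P.y0
  have y1 := P.y1
  have d0 := P.dlo
  have L0 := C.L0
  have L1 := C.L1
  obtain ⟨s0, s1⟩ := es C
  have r0 := s3_lo
  have r1 := s3_hi
  have r2 : (Real.sqrt 3 / 2) ^ 2 = 3 / 4 := by
    rw [div_pow, Real.sq_sqrt (by norm_num)]
    norm_num
  have Sy : Real.sqrt 3 / 2 * y ≤ 29 / 400 := by nlinarith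
  have W : (W0 1 e y).c 1 = LAM e * (((1 / 50) + 0 * e) *
      hg (y - 5 / 2 * e)) := by
    simp only [W0, Sv.c, mul_one, one_mul, add_zero]
    ring
  have S : (S1 1 e y).c 1 = LAM e * (((85937 / 100000) + (-(10723 / 500)) * e) *
      ((Real.sqrt 3 / 2) * hg (y - 167 / 50 * e) / (1 / 2 - 167 / 50 * (Real.sqrt 3 / 2) * e)) ^ 2)
      := by
    simp only [S1, Sv.c, mul_one, aL]
    rw [hg_np (by linarith : Real.sqrt 3 / 2 * y - 29 / 400 ≤ 0),
      hg_np (by linarith : Real.sqrt 3 / 2 * y - 9 / 100 ≤ 0),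
      hg_np (by linarith : Real.sqrt 3 / 2 * y - 3 / 25 ≤ 0)]
    ring
  rw [W, S, ← mul_sub]
  obtain ⟨v, hv⟩ : ∃ v, v = hg (y - 167 / 50 * e) := ⟨_, rfl⟩
  obtain ⟨u, hu⟩ : ∃ u, u = hg (y - 5 / 2 * e) := ⟨_, rfl⟩
  rw [← hv, ← hu]
  have v0 : 0 ≤ v := by rw [hv]; exact hg_nn' _
  have vu : v ≤ u := by rw [hv, hu]; exact hg_le' (by linarith)
  have u0 : 0 ≤ u := v0.trans vu
  have uy : u ≤ y := by rw [hu]; exact max_le (by linarith) y0
  have cs : u = 0 ∨ y = u + 5 / 2 * e := by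
    rcases le_total y (5 / 2 * e) with h | h
    · left
      rw [hu, hg_np (by linarith : y - 5 / 2 * e ≤ 0)]
    · right
      rw [hu, hg_ps (by linarith : 0 ≤ y - 5 / 2 * e)]
      ring
  have D1 : 0 < 1 / 2 - 167 / 50 * (Real.sqrt 3 / 2) * e := by nlinarith
  have X1 : ∃ X1, X1 = (Real.sqrt 3 / 2 * v / (1 / 2 - 167 / 50 * (Real.sqrt 3 / 2) * e)) ^ 2 ∧
      0 ≤ X1 ∧ X1 ≤ (3 + 45 * e) * v ^ 2 := by
    refine ⟨_, rfl, sq_nonneg _, ?_⟩
    rw [div_pow, mul_pow, r2, div_le_iff₀ (by positivity)]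
    have a2 : 1 / 2 - 2894 / 1000 * e ≤ 1 / 2 - 167 / 50 * (Real.sqrt 3 / 2) * e := by nlinarith
    have a3 : (1 / 2 - 2894 / 1000 * e) ^ 2 ≤ (1 / 2 - 167 / 50 * (Real.sqrt 3 / 2) * e) ^ 2 :=
      pow_le_pow_left₀ (by linarith) a2 2
    have a1 : 3 / 4 ≤ (3 + 45 * e) * (1 / 2 - 2894 / 1000 * e) ^ 2 := by nlinarith
    have a4 := mul_le_mul_of_nonneg_left a3 (by linarith : 0 ≤ 3 + 45 * e)
    have := mul_le_mul_of_nonneg_left (a1.trans a4) (sq_nonneg v)
    linarith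
  obtain ⟨X1, h1, X10, X11⟩ := X1
  rw [← h1]
  constructor
  · have key : -(399 / 2000) * y ≤ (1 / 50 + 0 * e) * u -
        (85937 / 100000 + -(10723 / 500) * e) * X1 := by
      have b3 : (85937 / 100000 + -(10723 / 500) * e) * X1 ≤
          (85937 / 100000 + -(10723 / 500) * e) * ((3 + 45 * e) * v ^ 2) :=
        mul_le_mul_of_nonneg_left X11 (by linarith)
      have b5 : (85937 / 100000 + -(10723 / 500) * e) * ((3 + 45 * e) * v ^ 2) ≤
          (2579 / 1000 - 25 * e) * v ^ 2 := by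
        have : (85937 / 100000 + -(10723 / 500) * e) * (3 + 45 * e) ≤ 2579 / 1000 - 25 * e := by
          nlinarith
        have := mul_le_mul_of_nonneg_right this (sq_nonneg v)
        linarith
      have b4 : (2579 / 1000 - 25 * e) * v ^ 2 ≤ (2579 / 1000 - 25 * e) * (u * u) := by
        refine mul_le_mul_of_nonneg_left ?_ (by linarith)
        nlinarith
      rcases cs with h | h
      · rw [h] at b4 ⊢
        nlinarith
      · have w0 : 0 ≤ 1 / 16 - 5 / 2 * e - u := by linarith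
        have b6 := mul_nonneg u0 w0
        have b7 := mul_nonneg he.le w0
        have b8 := mul_nonneg u0 (by linarith : 0 ≤ 1 / 40 - e)
        have b9 : 0 ≤ (e * u) * u := mul_nonneg (mul_nonneg he.le u0) u0
        have b10 := mul_nonneg he.le (by linarith : 0 ≤ 1 / 40 - e)
        subst h
        nlinarith
    have a1 := mul_le_mul_of_nonneg_left key (by linarith : 0 ≤ LAM e)
    nlinarith
  · have key : (1 / 50 + 0 * e) * u -
        (85937 / 100000 + -(10723 / 500) * e) * X1 ≤ 1 / 50 * y := by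
      have b3 : 0 ≤ (85937 / 100000 + -(10723 / 500) * e) * X1 := mul_nonneg (by linarith) X10
      have b4 := mul_nonneg he.le u0
      linarith
    have a1 := mul_le_mul_of_nonneg_left key (by linarith : 0 ≤ LAM e)
    nlinarith

/-- The difference of the window slopes. -/
theorem c5_bd (C : Cs e) (P : Ph y) :
    -(3 / 20) * dQ 1 y ≤ 20 / 3 * (c5 1 e y - (W0 1 e y).cA) ∧
      20 / 3 * (c5 1 e y - (W0 1 e y).cA) ≤ 1 / 40 * dQ 1 y := by
  have he := C.e0
  have he1 := C.e1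
  have y0 := P.y0
  have y1 := P.y1
  have L0 := C.L0
  have L1 := C.L1
  have q0 := P.qlo
  have W : c5 1 e y - (W0 1 e y).cA = LAM e * ((-(1571 / 10000)) *
      hg (y - 5 / 2 * e)) := by
    simp only [W0, c5, mul_one]
    ring
  rw [W]
  obtain ⟨u, hu⟩ : ∃ u, u = hg (y - 5 / 2 * e) := ⟨_, rfl⟩
  rw [← hu]
  have u0 : 0 ≤ u := by rw [hu]; exact hg_nn' _
  have u1 : u ≤ 1 / 16 - 5 / 2 * e := by rw [hu]; exact max_le (by linarith) (by linarith)
  have k1 : -(1 / 100) ≤ (-(1571 / 10000)) * u := by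
    have a1 := mul_le_mul_of_nonneg_left u1 (by linarith : 0 ≤ (1571 / 10000 : ℝ))
    nlinarith
  have k2 : (-(1571 / 10000)) * u ≤ 0 := by
    have := mul_nonneg (by linarith : 0 ≤ (1571 / 10000 : ℝ)) u0
    linarith
  have a1 := mul_le_mul_of_nonneg_left k1 (by linarith : 0 ≤ LAM e)
  have a2 := mul_le_mul_of_nonneg_left k2 (by linarith : 0 ≤ LAM e)
  constructor <;> nlinarith

/-- The first piece. -/
theorem d1 (C : Cs e) (P : Ph y) :
    Df0 (17 / 200 / e) (3 / 20 / e) (-(3 / 20)) (1 / 40) (xi1 (-y) 1 + om y 1) (S1 1 e y)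
      (W0 1 e y) :=
  ⟨d1K C P, d1B C P, (d1L C P).1, (d1L C P).2⟩

/-- The values on the next curve. -/
theorem k1_bd (C : Cs e) (P : Ph y) : 0 ≤ 1 + (W0 1 e y).k ∧ 1 + (W0 1 e y).k ≤ 1 := by
  obtain ⟨w0, w1⟩ := wK_bd C P.y0
  have x0 := P.x0
  have x1 := P.x1
  have y0 := P.y0
  have y1 := P.y1
  have e1 : 1 + (W0 1 e y).k = (1 + wK0 1 e y) * (1 + xi1 (-y) 1) := by
    rw [W0k]
    ring
  rw [e1]
  constructor
  · exact mul_nonneg (by linarith) (by linarith)
  · have : (1 + wK0 1 e y) * (1 + xi1 (-y) 1) ≤ (1 - 3 / 2 * y) * (1 + 3 / 2 * y) :=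
      mul_le_mul (by linarith) (by linarith) (by linarith) (by linarith)
    nlinarith [sq_nonneg y]

theorem b1_bd (C : Cs e) (P : Ph y) : 0 ≤ B0 e + (W0 1 e y).b ∧ B0 e + (W0 1 e y).b ≤ 6 / 5 := by
  obtain ⟨w0, w1⟩ := wB_bd C P.y0
  have x0 := P.x0
  have x1 := P.x1
  have y0 := P.y0
  have y1 := P.y1
  have b0 := C.B0
  have b1 := C.B1
  have e1 : B0 e + (W0 1 e y).b = (B0 e + wB0 1 e y) * (1 + xi1 (-y) 1) := by
    rw [W0b]
    ring
  rw [e1]
  constructor
  · exact mul_nonneg (by linarith) (by linarith)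
  · have : (B0 e + wB0 1 e y) * (1 + xi1 (-y) 1) ≤ (35 / 32) * (35 / 32) :=
      mul_le_mul (by linarith) (by linarith) (by linarith) (by norm_num)
    linarith

/-- The second piece. -/
theorem d2 (C : Cs e) (P : Ph y) :
    Df0 (17 / 200 / e) (3 / 20 / e) (-(3 / 20)) (1 / 40) (11 / 5 * e * dQ 1 y) (W0 1 e y)
      (Q0 1 e y) := by
  have he := C.e0
  have he1 := C.e1
  have q0 := P.qlo
  have c := c5_bd C P
  obtain ⟨k0, k1⟩ := k1_bd C P
  obtain ⟨b0, b1⟩ := b1_bd C P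
  have eL : (Q0 1 e y).c 1 - (W0 1 e y).c 1 = 11 / 5 * e * (20 / 3 * (c5 1 e y - (W0 1 e y).cA)) := by
    simp only [Q0, Sv.c, W0, mul_one, add_zero]
    ring
  have eK : (Q0 1 e y).k - (W0 1 e y).k = -(11 / 5 * e * (1 + (W0 1 e y).k)) +
      nt (8437 / 5000) (-(4991 / 2000)) (11871 / 5000) e y := by
    simp only [Q0, one_mul]
    ring
  have eB : (Q0 1 e y).b - (W0 1 e y).b = -(11 / 5 * e * (B0 e + (W0 1 e y).b)) +
      nt (1019 / 1250) (5391 / 1250) (14501 / 10000) e y := by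
    simp only [Q0, one_mul, mul_one]
    ring
  have n0 := nt_lo (n := 8437 / 5000) (n' := -(4991 / 2000)) (m := 11871 / 5000) (lo := -(5 / 2)) he.le
    P.y0 (by norm_num) (by norm_num) (by norm_num) (by norm_num)
  have n1 := nt_hi (n := 8437 / 5000) (n' := -(4991 / 2000)) (m := 11871 / 5000) (hi := 12 / 5) he.le
    P.y0 (by norm_num) (by norm_num) (by norm_num) (by norm_num)
  have m0 := nt_lo (n := 1019 / 1250) (n' := 5391 / 1250) (m := 14501 / 10000) (lo := 0) he.le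
    P.y0 (by norm_num) (by norm_num) (by norm_num) (by norm_num)
  have m1 := nt_hi (n := 1019 / 1250) (n' := 5391 / 1250) (m := 14501 / 10000) (hi := 9 / 2) he.le
    P.y0 (by norm_num) (by norm_num) (by norm_num) (by norm_num)
  have ec : ∀ {c d : ℝ}, c / e * (11 / 5 * e * d) = 11 / 5 * c * d := fun {c d} => by
    have := he.ne'
    field_simp
  have ek0 := mul_nonneg he.le k0
  have ek1 := mul_le_mul_of_nonneg_left k1 he.le
  have eb0 := mul_nonneg he.le b0
  have eb1 := mul_le_mul_of_nonneg_left b1 he.le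
  refine ⟨?_, ?_, ?_, ?_⟩
  · rw [eK, ec, abs_le]
    constructor <;> linarith
  · rw [eB, ec, abs_le]
    constructor <;> linarith
  · rw [eL]
    have := mul_le_mul_of_nonneg_left c.1 (by linarith : 0 ≤ 11 / 5 * e)
    linarith
  · rw [eL]
    have := mul_le_mul_of_nonneg_left c.2 (by linarith : 0 ≤ 11 / 5 * e)
    linarith

/-- The third piece. -/
theorem d3 (C : Cs e) (P : Ph y) :
    Df0 (17 / 200 / e) (3 / 20 / e) (-(3 / 20)) (1 / 40) ((3 / 20 - 11 / 5 * e) * dQ 1 y)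
      (Q0 1 e y) (G.n5 e y) := by
  have he := C.e0
  have he1 := C.e1
  have q0 := P.qlo
  have c := c5_bd C P
  obtain ⟨k0, k1⟩ := k1_bd C P
  obtain ⟨b0, b1⟩ := b1_bd C P
  have t0 : 0 ≤ 3 / 20 - 11 / 5 * e := by linarith
  have t1 : 0 < 1 - 11 / 5 * e := by linarith
  have eL : (n5 e y).c 1 - (Q0 1 e y).c 1 =
      (3 / 20 - 11 / 5 * e) * (20 / 3 * (c5 1 e y - (W0 1 e y).cA)) := by
    simp only [n5, Q0, Sv.c, W0, mul_one, add_zero]
    ring
  have n0 := nt_lo (n := 8437 / 5000) (n' := -(4991 / 2000)) (m := 11871 / 5000) (lo := -(5 / 2)) he.le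
    P.y0 (by norm_num) (by norm_num) (by norm_num) (by norm_num)
  have n1 := nt_hi (n := 8437 / 5000) (n' := -(4991 / 2000)) (m := 11871 / 5000) (hi := 12 / 5) he.le
    P.y0 (by norm_num) (by norm_num) (by norm_num) (by norm_num)
  have m0 := nt_lo (n := 1019 / 1250) (n' := 5391 / 1250) (m := 14501 / 10000) (lo := 0) he.le
    P.y0 (by norm_num) (by norm_num) (by norm_num) (by norm_num)
  have m1 := nt_hi (n := 1019 / 1250) (n' := 5391 / 1250) (m := 14501 / 10000) (hi := 9 / 2) he.le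
    P.y0 (by norm_num) (by norm_num) (by norm_num) (by norm_num)
  have eK : 1 + (Q0 1 e y).k = (1 - 11 / 5 * e) * (1 + (W0 1 e y).k) +
      nt (8437 / 5000) (-(4991 / 2000)) (11871 / 5000) e y := by
    simp only [Q0, one_mul]
    ring
  have eB : B0 e + (Q0 1 e y).b = (1 - 11 / 5 * e) * (B0 e + (W0 1 e y).b) +
      nt (1019 / 1250) (5391 / 1250) (14501 / 10000) e y := by
    simp only [Q0, one_mul, mul_one]
    ring
  have ek0 := mul_nonneg t1.le k0
  have ek1 := mul_le_mul_of_nonneg_left k1 t1.le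
  have eb0 := mul_nonneg t1.le b0
  have eb1 := mul_le_mul_of_nonneg_left b1 t1.le
  have key : ∀ {c A : ℝ}, |A| ≤ (1 - 11 / 5 * e) * (c * dQ 1 y) →
      |A * ((3 / 20 - 11 / 5 * e) / (1 - 11 / 5 * e))| ≤
        c * ((3 / 20 - 11 / 5 * e) * dQ 1 y) := by
    intro c A h
    rw [abs_mul, abs_of_nonneg (div_nonneg t0 t1.le)]
    have h1 := mul_le_mul_of_nonneg_right h (div_nonneg t0 t1.le)
    refine h1.trans (le_of_eq ?_)
    have : (1 - 11 / 5 * e) * ((3 / 20 - 11 / 5 * e) / (1 - 11 / 5 * e)) = 3 / 20 - 11 / 5 * e :=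
      mul_div_cancel₀ _ t1.ne'
    linear_combination (c * dQ 1 y) * this
  have cK : 17 / 5 ≤ 17 / 200 / e := by
    rw [le_div_iff₀ he]
    linarith
  have cB : 6 ≤ 3 / 20 / e := by
    rw [le_div_iff₀ he]
    linarith
  refine ⟨?_, ?_, ?_, ?_⟩
  · have e1 : (n5 e y).k - (Q0 1 e y).k =
        -(1 + (Q0 1 e y).k) * ((3 / 20 - 11 / 5 * e) / (1 - 11 / 5 * e)) := by
      simp only [n5]
      ring
    rw [e1]
    refine key ?_
    have f1 : |-(1 + (Q0 1 e y).k)| ≤ 6 / 5 := by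
      rw [abs_neg, eK, abs_le]
      constructor <;> linarith
    refine f1.trans ?_
    have f2 : 17 / 5 * (647 / 1000) ≤ 17 / 200 / e * dQ 1 y :=
      mul_le_mul cK q0 (by norm_num) (by linarith)
    have f3 : (9 / 10) * (17 / 5 * (647 / 1000)) ≤ (1 - 11 / 5 * e) * (17 / 200 / e * dQ 1 y) :=
      mul_le_mul (by linarith) f2 (by norm_num) t1.le
    linarith
  · have e1 : (n5 e y).b - (Q0 1 e y).b =
        -(B0 e + (Q0 1 e y).b) * ((3 / 20 - 11 / 5 * e) / (1 - 11 / 5 * e)) := by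
      simp only [n5]
      ring
    rw [e1]
    refine key ?_
    have f1 : |-(B0 e + (Q0 1 e y).b)| ≤ 7 / 5 := by
      rw [abs_neg, eB, abs_le]
      constructor <;> linarith
    refine f1.trans ?_
    have f2 : 6 * (647 / 1000) ≤ 3 / 20 / e * dQ 1 y :=
      mul_le_mul cB q0 (by norm_num) (by linarith)
    have f3 : (9 / 10) * (6 * (647 / 1000)) ≤ (1 - 11 / 5 * e) * (3 / 20 / e * dQ 1 y) :=
      mul_le_mul (by linarith) f2 (by norm_num) t1.le
    linarith
  · rw [eL]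
    have := mul_le_mul_of_nonneg_left c.1 t0
    linarith
  · rw [eL]
    have := mul_le_mul_of_nonneg_left c.2 t0
    linarith

/-- **The slopes next to the height `0`.** -/
theorem lpH' {V : Vx} {T : Tbs 7} (N : Nod V T e) (C : Cs e) (h0 : 0 ≤ y) (h1 : y < 1 / 16) :
    Lp V T e y (c1n y) (x5 y) (kVx V (17 / 200 / e) (3 / 20 / e)) (LAM e + -(3 / 20))
      (LAM e + 1 / 40) :=
  lpH N h0 h1 ((d1 C (ph h0 h1)).df C V) ((d2 C (ph h0 h1)).df C V) ((d3 C (ph h0 h1)).df C V)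

end

end Pool.Agent.Strip051.LC.E1
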