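import Pool.Agent.Strip051.LC.E1.Move

/-! # Rests near the full period: the slopes from the values at the nodes -/

namespace Pool.Agent.Strip051.LC.E1

open Pool.Agent.StripNear Pool.Agent.StripSquare Pool.Agent.Strip051 Pool.Agent.Strip051.Sweep
open Pool.Agent.Strip051.PB
open Pool.Agent.Strip051.LC
open Pool.Agent.Strip051.LC.E0.G (om qw cc1 xi1 sg1 cc3 xi3 sg3 xiw dwl dwu)
open G

/-- The bounds for the differences of the values at two nodes with the distance `d`; the slope of the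
levels is `LAM` plus a number between `lo` and `hi`. -/
structure Df (V : Vx) (e k lo hi d : ℝ) (a b : Sv) : Prop where
  K : match V with
    | .far => |b.k - a.k| ≤ k * d
    | .near => |nk e b.k b.b - nk e a.k a.b| ≤ k * d
  L0 : lo * d ≤ b.c 1 - a.c 1
  L1 : b.c 1 - a.c 1 ≤ hi * d

section

variable {n : ℕ} {V : Vx} {T : Tbs n} {e p y k lo hi : ℝ} {s1 s2 : Sv}

theorem seg_slope {a b c d X X' : ℝ} (h : a < b) : c + (d - c) * ((X' - a) / (b - a)) -
    (c + (d - c) * ((X - a) / (b - a))) = (d - c) / (b - a) * (X' - X) := by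
  have : b - a ≠ 0 := by linarith
  field_simp
  ring

theorem lp_nodes (pK : PinsV T.D (T.R V) (1 - e)) (pL : PinsV T.D T.RL (1 - e))
    {i j : Fin (n + 1)} {q : ℕ} (hq : InQ q y) (hn : ∀ k, T.D.r k y → k ≤ i ∨ j ≤ k)
    (v1 : NV V T e i q p y s1) (v2 : NV V T e j q p y s2) {d : ℝ}
    (hd : crv T.D.P j q y - crv T.D.P i q y = d) (hd0 : 0 ≤ d) (h : Df V e k lo hi d s1 s2) :
    Lp V T e y (crv T.D.P i q y) (crv T.D.P j q y) k (LAM e + lo) (LAM e + hi) := by
  rcases eq_or_lt_of_le hd0 with h0 | h0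
  · have hc : crv T.D.P j q y = crv T.D.P i q y := by linarith
    have key : ∀ X X', crv T.D.P i q y ≤ X → X ≤ X' → X' ≤ crv T.D.P j q y → X = X' :=
      fun X X' a1 a2 a3 => by linarith
    refine ⟨fun X X' a1 a2 a3 => ?_, fun X X' a1 a2 a3 => ?_, fun X X' a1 a2 a3 => ?_⟩ <;>
    · rw [key X X' a1 a2 a3]
      simp
  have hij : crv T.D.P i q y < crv T.D.P j q y := by linarith
  have kK : ∀ X X', crv T.D.P i q y ≤ X → X ≤ X' → X' ≤ crv T.D.P j q y →
      kv T.D (T.R V) (1 - e) X' y - kv T.D (T.R V) (1 - e) X y =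
        (T.R V j q y (1 - e) - T.R V i q y (1 - e)) / d * (X' - X) := fun X X' a1 a2 a3 => by
    rw [kv_between pK hq hn (a1.trans a2) a3, kv_between pK hq hn a1 (a2.trans a3),
      seg_slope hij, hd]
  have kL : ∀ X X', crv T.D.P i q y ≤ X → X ≤ X' → X' ≤ crv T.D.P j q y →
      kv T.D T.RL (1 - e) X' y - kv T.D T.RL (1 - e) X y =
        (T.RL j q y (1 - e) - T.RL i q y (1 - e)) / d * (X' - X) := fun X X' a1 a2 a3 => by
    rw [kv_between pL hq hn (a1.trans a2) a3, kv_between pL hq hn a1 (a2.trans a3),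
      seg_slope hij, hd]
  have eK : |(T.R V j q y (1 - e) - T.R V i q y (1 - e)) / d| ≤ k := by
    rw [abs_div, abs_of_pos h0, div_le_iff₀ h0, v1.K, v2.K]
    have := h.K
    cases V
    · simp only at this ⊢
      rw [show p + s2.k - (p + s1.k) = s2.k - s1.k by ring]
      exact this
    · simp only at this ⊢
      rw [show be e * p + nk e s2.k s2.b - (be e * p + nk e s1.k s1.b) =
        nk e s2.k s2.b - nk e s1.k s1.b by ring]
      exact this
  have eL : (T.RL j q y (1 - e) - T.RL i q y (1 - e)) / d = LAM e + (s2.c 1 - s1.c 1) / d := by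
    rw [v1.L, v2.L]
    field_simp
    linear_combination LAM e * hd
  have l0 := h.L0
  have l1 := h.L1
  rw [← le_div_iff₀ h0] at l0
  rw [← div_le_iff₀ h0] at l1
  refine ⟨fun X X' a1 a2 a3 => ?_, fun X X' a1 a2 a3 => ?_, fun X X' a1 a2 a3 => ?_⟩
  · rw [kK X X' a1 a2 a3, abs_mul, abs_of_nonneg (by linarith : 0 ≤ X' - X)]
    exact mul_le_mul_of_nonneg_right eK (by linarith)
  · rw [kL X X' a1 a2 a3, eL]
    exact mul_le_mul_of_nonneg_right (by linarith) (by linarith)
  · rw [kL X X' a1 a2 a3, eL]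
    exact mul_le_mul_of_nonneg_right (by linarith) (by linarith)

end

section

variable {V : Vx} {T : Tbs 7} {e y z k lo hi : ℝ}

theorem xi1n_lo (h0 : 0 ≤ y) (h1 : y ≤ 1 / 16) : 53 / 40 * y ≤ xi1 (-y) 1 := by
  have := xi1_pos (z := -y) (by linarith) (by linarith)
  linarith

theorem xi1n_hi (h0 : 0 ≤ y) (h1 : y ≤ 1 / 16) : xi1 (-y) 1 ≤ 3 / 2 * y := by
  have := xi1_pos' (z := -y) (by linarith) (by linarith)
  linarith

/-- The slopes next to the height `0`. -/
theorem lpH (N : Nod V T e) (h0 : 0 ≤ y) (h1 : y < 1 / 16)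
    (d1 : Df V e k lo hi (xi1 (-y) 1 + om y 1) (S1 1 e y) (W0 1 e y))
    (d2 : Df V e k lo hi (11 / 5 * e * dQ 1 y) (W0 1 e y) (Q0 1 e y))
    (d3 : Df V e k lo hi ((3 / 20 - 11 / 5 * e) * dQ 1 y) (Q0 1 e y) (G.n5 e y)) :
    Lp V T e y (c1n y) (x5 y) k (LAM e + lo) (LAM e + hi) := by
  have a0 := N.x00 h0 h1
  have a3 := N.x30 h0 h1
  have a4 := N.x40 h0 h1
  have a5 := N.x50 h0 h1
  have hd := dQ_pos h0 h1
  have he := N.e0
  have he1 := N.e1
  have ho := om_nn (y := y) (by nlinarith)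
  have hx := xi1n_lo h0 h1.le
  have e1 : xiq 1 e y = xi1 (-y) 1 + 11 / 5 * e * dQ 1 y := by
    unfold xiq
    ring
  have l1 := lp_nodes N.pK N.pL (i := 0) (j := 3) (q := 0) (inq0 h0 h1) (by
      intro k hk
      fin_cases k
      · left; decide
      · rcases N.r1 _ hk with ⟨h2, -⟩ | ⟨h2, -⟩ <;> linarith
      · rcases N.r2 _ hk with ⟨h2, -⟩ | ⟨h2, -⟩ <;> linarith
      all_goals right; decide) (N.n00 y h0 h1) (N.n30 y h0 h1)
    (d := xi1 (-y) 1 + om y 1) (by rw [a0, a3]; ring) (by nlinarith) d1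
  have l2 := lp_nodes N.pK N.pL (i := 3) (j := 4) (q := 0) (inq0 h0 h1) (by
      intro k _
      fin_cases k
      iterate 4 left; decide
      all_goals right; decide) (N.n30 y h0 h1) (N.n40 y h0 h1)
    (d := 11 / 5 * e * dQ 1 y) (by rw [a3, a4, e1]; ring) (by positivity) d2
  have l3 := lp_nodes N.pK N.pL (i := 4) (j := 5) (q := 0) (inq0 h0 h1) (by
      intro k _
      fin_cases k
      iterate 5 left; decide
      all_goals right; decide) (N.n40 y h0 h1) (N.n50 y h0 h1)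
    (d := (3 / 20 - 11 / 5 * e) * dQ 1 y) (by rw [a4, a5, e1]; ring)
    (mul_nonneg (by linarith) hd.le) d3
  rw [N.cv0] at l1
  have e5 : crv T.D.P 5 0 y = x5 y := a5
  rw [e5] at l3
  have o1 : c1n y ≤ crv T.D.P 3 0 y := by
    have := N.cv0 0 y
    rw [← this, a0, a3]
    nlinarith
  have o2 : crv T.D.P 3 0 y ≤ crv T.D.P 4 0 y := by
    rw [a3, a4, e1]
    have : 0 ≤ 11 / 5 * e * dQ 1 y := by positivity
    linarith
  have o3 : crv T.D.P 4 0 y ≤ x5 y := by
    rw [← e5, a4, a5, e1]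
    have : 0 ≤ (3 / 20 - 11 / 5 * e) * dQ 1 y := mul_nonneg (by linarith) hd.le
    linarith
  exact l1.glue (l2.glue l3 o2 o3) o1 (o2.trans o3)

/-- The slopes below `h0`. -/
theorem lpA (N : Nod V T e) (h0 : -(1 / 16) < z) (h1 : z < 0)
    (d : Df V e k lo hi (dwl z 1 / 5) (C1d 1 e z) (na e z)) :
    Lp V T e (1 + z) (c1n (1 + z)) (rt z) k (LAM e + lo) (LAM e + hi) := by
  have a0 := N.x01 1 h0 (by linarith)
  have a1 := N.x11 h0 (by linarith)
  have hd : 0 ≤ dwl z 1 / 5 := by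
    have h2 := xi1_pos' h0.le h1.le
    have h3 := om_le (y := z) (by nlinarith)
    unfold dwl xiw
    nlinarith
  have l := lp_nodes N.pK N.pL (i := 0) (j := 1) (q := 1) (inq1 h0 h1) (by
      intro k _
      fin_cases k
      iterate 1 left; decide
      all_goals right; decide) (N.n01 z h0 h1) (N.n11 z h0 h1)
    (d := dwl z 1 / 5) (by rw [a0, a1]; unfold xa; ring) hd d
  rw [N.cv0, a1] at l
  unfold rt
  rw [if_pos h1]
  exact l

/-- The slopes above `h0`. -/
theorem lpB (N : Nod V T e) (h0 : 0 ≤ z) (h1 : z < 1 / 16)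
    (d1 : Df V e k lo hi (xiw z 1 - xi1 z 1) (C1u 1 e z) (W2 1 e z))
    (d2 : Df V e k lo hi (3 / 20 * dwu z 1) (W2 1 e z) (nb e z)) :
    Lp V T e (1 + z) (c1n (1 + z)) (rt z) k (LAM e + lo) (LAM e + hi) := by
  have a0 := N.x01 2 (by linarith) h1
  have a3 := N.x32 (by linarith) h1
  have a5 := N.x52 (by linarith) h1
  have hd : 0 ≤ xiw z 1 - xi1 z 1 := by
    have h2 := xi1_neg h0 (by linarith)
    have h3 := om_le (y := z) (by nlinarith)
    rw [xiw_om]
    nlinarith
  have hd' : 0 ≤ 3 / 20 * dwu z 1 := by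
    have h2 := xb_lo h0 h1.le
    have h3 := om_nn (y := z) (by nlinarith)
    unfold xb at h2
    rw [xiw_om] at h2
    nlinarith
  have l1 := lp_nodes N.pK N.pL (i := 0) (j := 3) (q := 2) (inq2 h0 h1) (by
      intro k hk
      fin_cases k
      · left; decide
      · rcases N.r1 _ hk with ⟨-, h2⟩ | ⟨h2, -⟩ <;> linarith
      · rcases N.r2 _ hk with ⟨-, h2⟩ | ⟨h2, -⟩ <;> linarith
      all_goals right; decide) (N.n02 z h0 h1) (N.n32 z h0 h1)
    (d := xiw z 1 - xi1 z 1) (by rw [a0, a3]; ring) hd d1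
  have l2 := lp_nodes N.pK N.pL (i := 3) (j := 5) (q := 2) (inq2 h0 h1) (by
      intro k hk
      fin_cases k
      · left; decide
      · left; decide
      · left; decide
      · left; decide
      · have := N.r4 _ hk
        linarith
      all_goals right; decide) (N.n32 z h0 h1) (N.n52 z h0 h1)
    (d := 3 / 20 * dwu z 1) (by rw [a3, a5]; unfold xb; ring) hd' d2
  have o1 : c1n (1 + z) ≤ crv T.D.P 3 2 (1 + z) := by
    rw [← N.cv0 2, a0, a3]
    linarith
  have o2 : crv T.D.P 3 2 (1 + z) ≤ xb z 1 := by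
    rw [a3]
    unfold xb
    linarith
  rw [N.cv0] at l1
  rw [a5] at l2
  unfold rt
  rw [if_neg (not_lt.2 h0)]
  exact l1.glue l2 o1 o2

end

end Pool.Agent.Strip051.LC.E1
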