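import Pool.Agent.Strip051.LC.E1.VertK

/-! # Rests near the full period, the vertical window: the triangle with two sides on circles -/

namespace Pool.Agent.Strip051.LC.E1

open Pool.Agent.StripNear Pool.Agent.StripSquare Pool.Agent.Strip051 Pool.Agent.Strip051.Sweep
open Pool.Agent.Strip051.PB
open Pool.Agent.Strip051.LC.E0.G (om cc1 xi1 sg1 cc3 xi3 sg3 xiw dwl dwu)
open G

/-- A triangle with the side bottom-middle on the unit circle, the side bottom-top on the circle of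
radius `√3`; `d` is the distance of the side middle-top from the unit circle. -/
structure Vc (a z p q X d : ℝ) : Prop where
  a0 : 0 < a
  a1 : a ≤ 1 / 16
  z0 : 0 ≤ z
  za : z ≤ a
  plo : 1 / 2 + 3 / 2 * a - 3 * a ^ 2 ≤ p
  pup : p ≤ 1 / 2 + 3 / 2 * a - 5 / 2 * a ^ 2
  pp : p ^ 2 + 3 / 4 * (1 - a) ^ 2 = 1
  qlo : 1 / 2 - 3 / 2 * z - 4 * z ^ 2 ≤ q
  qup : q ≤ 1 / 2 - 3 / 2 * z - 3 * z ^ 2
  qq : q ^ 2 + 3 / 4 * (1 + z) ^ 2 = 1
  x0 : 0 ≤ X
  xx : X ^ 2 = 3 * (a - z) - 3 / 4 * (a - z) ^ 2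
  dd : p - q = X + d
  d0 : 0 ≤ d

section

variable {a z p q X d g g' k t t' s : ℝ}

theorem Vc.xd (h : Vc a z p q X d) : X + d ≤ 1934 / 10000 := by
  have := h.a0
  have := h.a1
  have := h.z0
  have := h.za
  have := h.pup
  have := h.qlo
  have := h.dd
  nlinarith

theorem Vc.sum (h : Vc a z p q X d) : 97 / 100 ≤ p + q := by
  have := h.a0
  have := h.a1
  have := h.z0
  have := h.za
  have := h.plo
  have := h.qlo
  nlinarith

/-- The sum of the abscissas. -/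
theorem Vc.sq (h : Vc a z p q X d) : (p + q) ^ 2 * (3 + (2 * X * d + d ^ 2)) =
    (3 - X ^ 2) * (1 - (2 * X * d + d ^ 2)) := by
  have h1 := h.pp
  have h2 := h.qq
  have h3 := h.xx
  have h4 := h.dd
  have e1 : (p - q) * (p + q) = 3 / 4 * (a + z) * (2 - (a - z)) := by linear_combination h1 - h2
  have e2 : 3 - X ^ 2 = 3 / 4 * (2 - (a - z)) ^ 2 := by rw [h3]; ring
  have e3 : 3 / 4 * (a + z) ^ 2 = 1 - (2 * X * d + d ^ 2) - (p + q) ^ 2 := by
    have : (p - q) ^ 2 = (X + d) ^ 2 := by rw [h4]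
    linear_combination -this + 2 * h1 + 2 * h2 + e2
  have e4 : (X + d) ^ 2 * (p + q) ^ 2 = (1 - (2 * X * d + d ^ 2) - (p + q) ^ 2) * (3 - X ^ 2) := by
    rw [← e3, e2]
    have : (X + d) * (p + q) = 3 / 4 * (a + z) * (2 - (a - z)) := by rw [← h4]; exact e1
    linear_combination ((X + d) * (p + q) + 3 / 4 * (a + z) * (2 - (a - z))) * this
  linear_combination e4

/-- The angles of the two unit sides. -/
theorem Vc.dt (h : Vc a z p q X d) : 0 ≤ 1 - (a - z) / 2 - (p + q) ∧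
    1 - (a - z) / 2 - (p + q) ≤ 272 / 1000 * d := by
  have h0 := h.sq
  have h1 := h.sum
  have h2 := h.xd
  have x0 := h.x0
  have d0 := h.d0
  have a0 := h.a0
  have a1 := h.a1
  have z0 := h.z0
  have za := h.za
  have e2 : 3 - X ^ 2 = 3 * (1 - (a - z) / 2) ^ 2 := by rw [h.xx]; ring
  obtain ⟨η, hη⟩ : ∃ η, η = 2 * X * d + d ^ 2 := ⟨_, rfl⟩
  obtain ⟨S, hS⟩ : ∃ S, S = p + q := ⟨_, rfl⟩
  obtain ⟨u, hu⟩ : ∃ u, u = 1 - (a - z) / 2 := ⟨_, rfl⟩
  have η0 : 0 ≤ η := by rw [hη]; positivity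
  have η1 : η ≤ 3868 / 10000 * d := by
    rw [hη]
    have := mul_nonneg d0 (by linarith : 0 ≤ 3868 / 10000 - 2 * X - 2 * d)
    nlinarith [mul_nonneg d0 d0]
  rw [← hS] at h0 h1 ⊢
  rw [← hu] at e2 ⊢
  rw [← hη, e2] at h0
  have u0 : 96 / 100 ≤ u := by linarith
  have u1 : u ≤ 1 := by linarith
  have k : (3 + η) * ((u - S) * (u + S)) = 4 * η * u ^ 2 := by linear_combination -h0
  have us : 0 < u + S := by linarith
  have k0 : 0 ≤ (3 + η) * ((u - S) * (u + S)) := by rw [k]; positivity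
  have k1 : 0 ≤ (u - S) * (u + S) := nonneg_of_mul_nonneg_right k0 (by linarith)
  have D0 : 0 ≤ u - S := nonneg_of_mul_nonneg_left k1 us
  refine ⟨D0, ?_⟩
  have k2 : 3 * ((u - S) * (193 / 100)) ≤ (3 + η) * ((u - S) * (u + S)) := by
    have j1 : (u - S) * (193 / 100) ≤ (u - S) * (u + S) :=
      mul_le_mul_of_nonneg_left (by linarith) D0
    have j2 : 0 ≤ η * ((u - S) * (u + S)) := mul_nonneg η0 k1
    linarith
  have k3 : u ^ 2 ≤ 1 := by nlinarith
  have k4 : 4 * η * u ^ 2 ≤ 4 * η := by nlinarith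
  linarith

/-- The derived quantities: `t`, `t'`, `s` are the heights of the rotated horizontal vectors, `g`,
`g'`, `k / 2` the tangents of the half angles. -/
structure Vg (a z p q X d g g' k t t' s : ℝ) : Prop where
  b : Vc a z p q X d
  ht : t = a / 2 + (p - 1 / 2)
  ht' : t' = z / 2 + (1 / 2 - q)
  hs : s = 2 / 3 * X
  hg : g * (2 - a) = p - 1 / 2
  hg' : g' * (2 + z) = 1 / 2 - q
  hk : k * (4 - (a - z)) = 2 * X

theorem Vg.ea (h : Vg a z p q X d g g' k t t' s) : a = t * (1 / 2 + g) := by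
  have h1 := h.b.pp
  have h2 := h.hg
  have a1 := h.b.a1
  have k : (2 - a) * (t * (1 / 2 + g) - a) = 0 := by
    rw [h.ht]
    linear_combination (a / 2 + (p - 1 / 2)) * h2 + h1
  have := (mul_eq_zero.1 k).resolve_left (by linarith)
  linarith

theorem Vg.ez (h : Vg a z p q X d g g' k t t' s) : z = t' * (1 / 2 - g') := by
  have h1 := h.b.qq
  have h2 := h.hg'
  have z0 := h.b.z0
  have k : (2 + z) * (t' * (1 / 2 - g') - z) = 0 := by
    rw [h.ht']
    linear_combination -(z / 2 + (1 / 2 - q)) * h2 - h1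
  have := (mul_eq_zero.1 k).resolve_left (by linarith)
  linarith

theorem Vg.ec (h : Vg a z p q X d g g' k t t' s) : a - z = s * k := by
  have h1 := h.b.xx
  have h2 := h.hk
  have z0 := h.b.z0
  have a1 := h.b.a1
  have k : (4 - (a - z)) * (s * k - (a - z)) = 0 := by
    rw [h.hs]
    linear_combination 2 / 3 * X * h2 + 4 / 3 * h1
  have := (mul_eq_zero.1 k).resolve_left (by linarith)
  linarith

theorem Vg.k0 (h : Vg a z p q X d g g' k t t' s) : 0 ≤ k := by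
  have h1 := h.hk
  have := h.b.x0
  have := h.b.a1
  have := h.b.z0
  by_contra hh
  nlinarith [not_le.1 hh]

theorem Vg.k1 (h : Vg a z p q X d g g' k t t' s) : k ≤ 985 / 10000 := by
  have h1 := h.hk
  have := h.b.x0
  have := h.b.a1
  have := h.b.z0
  have := h.b.za
  have := h.b.xd
  have := h.b.d0
  have := h.k0
  nlinarith

/-- The sum of the angles. -/
theorem Vg.ts (h : Vg a z p q X d g g' k t t' s) : 0 ≤ t' - t ∧ t' - t ≤ 272 / 1000 * d ∧
    0 ≤ t - s ∧ t - s ≤ 2 / 3 * d ∧ 2 / 3 * d ≤ t' - s ∧ t' - s ≤ 803 / 1000 * d := by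
  obtain ⟨h1, h2⟩ := h.b.dt
  have e1 : t' - t = 1 - (a - z) / 2 - (p + q) := by rw [h.ht, h.ht']; ring
  rw [← e1] at h1 h2
  have x0 := h.b.x0
  have d0 := h.b.d0
  have a1 := h.b.a1
  have z0 := h.b.z0
  have za := h.b.za
  have xd := h.b.xd
  have e2 : (p - q) * (p + q) = 3 / 4 * (a + z) * (2 - (a - z)) := by
    linear_combination h.b.pp - h.b.qq
  have e3 : (2 - (a - z)) * (t + t' - 2 * s - 4 / 3 * d) = -(2 / 3 * (t' - t) * (X + d)) := by
    rw [e1, h.ht, h.ht', h.hs]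
    have dd := h.b.dd
    linear_combination (2 - (a - z)) * dd - 2 / 3 * e2 + 2 / 3 * (p + q) * dd
  have c1 : 193 / 100 ≤ 2 - (a - z) := by linarith
  have k0 : 0 ≤ (t' - t) * (X + d) := mul_nonneg h1 (by linarith)
  have k1 : (t' - t) * (X + d) ≤ (t' - t) * (1934 / 10000) := mul_le_mul_of_nonneg_left xd h1
  obtain ⟨y, hy⟩ : ∃ y, y = t + t' - 2 * s - 4 / 3 * d := ⟨_, rfl⟩
  rw [← hy] at e3
  have y0 : y ≤ 0 := by
    by_contra hh
    have := mul_pos (by linarith : 0 < 2 - (a - z)) (not_le.1 hh)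
    linarith
  have y1 : -(7 / 100 * (t' - t)) ≤ y := by
    by_contra hh
    have := mul_lt_mul_of_pos_left (not_le.1 hh) (by linarith : 0 < 2 - (a - z))
    have j : 193 / 100 * (7 / 100 * (t' - t)) ≤ (2 - (a - z)) * (7 / 100 * (t' - t)) :=
      mul_le_mul_of_nonneg_right c1 (by linarith)
    linarith
  refine ⟨h1, h2, ?_, ?_, ?_, ?_⟩ <;> linarith

theorem Vg.g0 (h : Vg a z p q X d g g' k t t' s) : 0 ≤ g ∧ g ≤ 44 / 1000 := by
  have h1 := h.hg
  have a0 := h.b.a0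
  have a1 := h.b.a1
  have p0 := h.b.plo
  have p1 := h.b.pup
  have g0 : 0 ≤ g := by
    have : 0 ≤ g * (2 - a) := by rw [h1]; nlinarith
    exact nonneg_of_mul_nonneg_left this (by linarith)
  exact ⟨g0, by nlinarith⟩

theorem Vg.g0' (h : Vg a z p q X d g g' k t t' s) : 0 ≤ g' ∧ g' ≤ 55 / 1000 := by
  have h1 := h.hg'
  have z0 := h.b.z0
  have za := h.b.za
  have a1 := h.b.a1
  have p0 := h.b.qlo
  have p1 := h.b.qup
  have g0 : 0 ≤ g' := by
    have : 0 ≤ g' * (2 + z) := by rw [h1]; nlinarith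
    exact nonneg_of_mul_nonneg_left this (by linarith)
  exact ⟨g0, by nlinarith⟩

theorem Vg.tg (h : Vg a z p q X d g g' k t t' s) : t * (3 + 4 * g ^ 2) = 8 * g := by
  have h1 := h.hg
  have h2 := h.ea
  have h3 := h.ht
  linear_combination -4 * h1 + 4 * h3 + (2 - 4 * g) * h2

theorem Vg.tg' (h : Vg a z p q X d g g' k t t' s) : t' * (3 + 4 * g' ^ 2) = 8 * g' := by
  have h1 := h.hg'
  have h2 := h.ez
  have h3 := h.ht'
  linear_combination -4 * h1 + 4 * h3 + (2 + 4 * g') * h2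

theorem Vg.sk (h : Vg a z p q X d g g' k t t' s) : s * (3 + k ^ 2) = 4 * k := by
  have h1 := h.hk
  have h2 := h.ec
  have h3 := h.hs
  linear_combination -h1 + 3 * h3 - k * h2

theorem Vg.t1 (h : Vg a z p q X d g g' k t t' s) : 0 ≤ s ∧ s ≤ 129 / 1000 ∧ 0 ≤ t ∧
    t ≤ 1407 / 10000 ∧ t' ≤ 1407 / 10000 := by
  obtain ⟨h1, h2, h3, h4, h5, h6⟩ := h.ts
  have x0 := h.b.x0
  have d0 := h.b.d0
  have xd := h.b.xd
  have := h.hs
  have ht' := h.ht'
  have z0 := h.b.z0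
  have za := h.b.za
  have a1 := h.b.a1
  have p0 := h.b.qlo
  have k : t' ≤ 1407 / 10000 := by nlinarith
  refine ⟨by linarith, by linarith, by linarith, by linarith, k⟩

theorem half_le {g k t s : ℝ} (hg : 0 ≤ g) (hg1 : g ≤ 1 / 10) (hk : 0 ≤ k) (hk1 : k ≤ 1 / 10)
    (hs : 0 ≤ s) (hs1 : s ≤ 1) (h1 : t * (3 + 4 * g ^ 2) = 8 * g) (h2 : s * (3 + k ^ 2) = 4 * k)
    (h : 0 ≤ t - s) : 0 ≤ g - k / 2 := by
  have e : (g - k / 2) * (8 - 2 * s * (2 * g + k)) = (3 + 4 * g ^ 2) * (t - s) := by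
    linear_combination h2 - h1
  have r : 0 ≤ (g - k / 2) * (8 - 2 * s * (2 * g + k)) := by
    rw [e]
    positivity
  have : s * (2 * g + k) ≤ 1 * (3 / 10) := mul_le_mul hs1 (by linarith) (by linarith) (by norm_num)
  exact nonneg_of_mul_nonneg_left r (by linarith)

/-- The sum of the three kernels of the rotated vectors. -/
theorem Vg.Q (h : Vg a z p q X d g g' k t t' s) : 0 ≤ g + g' - k ∧
    g + g' - k ≤ 517 / 1000 * d := by
  obtain ⟨h1, h2, h3, h4, h5, h6⟩ := h.ts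
  obtain ⟨g0, g1⟩ := h.g0
  obtain ⟨g2, g3⟩ := h.g0'
  obtain ⟨s0, s1, -, -, -⟩ := h.t1
  have k0 := h.k0
  have k1 := h.k1
  have d0 := h.b.d0
  have u := half_le g0 (by linarith) k0 (by linarith) s0 (by linarith) h.tg h.sk h3
  have v := half_le g2 (by linarith) k0 (by linarith) s0 (by linarith) h.tg' h.sk (by linarith)
  have e : (2 - a) * (g - k / 2) + (2 + z) * (g' - k / 2) = d := by
    linear_combination h.hg + h.hg' - 1 / 2 * h.hk + h.b.dd
  have a1 := h.b.a1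
  have z0 := h.b.z0
  have j1 : (31 / 16) * (g - k / 2) ≤ (2 - a) * (g - k / 2) :=
    mul_le_mul_of_nonneg_right (by linarith) u
  have j2 : 2 * (g' - k / 2) ≤ (2 + z) * (g' - k / 2) :=
    mul_le_mul_of_nonneg_right (by linarith) v
  constructor <;> linarith

/-- The excess of the area. -/
theorem Vc.G (h : Vc a z p q X d) :
    2 / 5 * d ≤ (p * (2 - (a - z)) - X * (1 - a) - 1) / 2 := by
  obtain ⟨G, hG⟩ : ∃ G, G = (p * (2 - (a - z)) - X * (1 - a) - 1) / 2 := ⟨_, rfl⟩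
  obtain ⟨η, hη⟩ : ∃ η, η = 2 * q * d + d ^ 2 := ⟨_, rfl⟩
  rw [← hG]
  have a0 := h.a0
  have a1 := h.a1
  have z0 := h.z0
  have za := h.za
  have x0 := h.x0
  have d0 := h.d0
  have xd := h.xd
  have dd := h.dd
  have e1 : p = q + X + d := by linarith
  have e2 : (1 + G) * G = η / 2 - η ^ 2 / 12 := by
    have k1 : p ^ 2 + 3 / 4 * (1 - a) ^ 2 = 1 := h.pp
    have k2 : X ^ 2 + 3 / 4 * (2 - (a - z)) ^ 2 = 3 := by rw [h.xx]; ring
    have k3 : (p - X) ^ 2 + 3 / 4 * (1 + z) ^ 2 = 1 + η := by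
      rw [hη, e1]
      linear_combination h.qq
    have k4 : p * X + 3 / 4 * (1 - a) * (2 - (a - z)) = (3 - η) / 2 := by
      linear_combination (k1 + k2 - k3) / 2
    have k5 : 3 / 4 * (p * (2 - (a - z)) - X * (1 - a)) ^ 2 = 3 - ((3 - η) / 2) ^ 2 := by
      rw [← k4]
      linear_combination (X ^ 2 + 3 / 4 * (2 - (a - z)) ^ 2) * k1 + k2
    rw [hG]
    linear_combination 1 / 3 * k5
  obtain ⟨D0, D1⟩ := h.dt
  have qs : q = (1 - (a - z) / 2 - (1 - (a - z) / 2 - (p + q)) - X - d) / 2 := by linarith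
  have c0 : a - z ≤ 126 / 10000 := by
    have := h.xx
    nlinarith
  have q0 : (8003 / 10000 - 272 / 1000 * d) / 2 ≤ q := by linarith
  have p0 := h.plo
  have G0 : 1 / 4 ≤ 1 + G := by
    rw [hG]
    have j1 : 1 / 2 * 1 ≤ p * (2 - (a - z)) :=
      mul_le_mul (by nlinarith) (by linarith) (by norm_num) (by nlinarith)
    have j2 : X * (1 - a) ≤ 1 / 2 * 1 :=
      mul_le_mul (by linarith) (by linarith) (by linarith) (by norm_num)
    linarith
  have η0 : 0 ≤ η := by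
    rw [hη]
    have : 0 ≤ q * d := mul_nonneg (by linarith) d0
    nlinarith
  have η1 : η ≤ d := by
    rw [hη]
    have : 0 ≤ d * (1 - 2 * q - d) := mul_nonneg d0 (by linarith)
    nlinarith
  have η2 : d * (8003 / 10000 + 728 / 1000 * d) ≤ η := by
    rw [hη]
    have := mul_le_mul_of_nonneg_left q0 d0
    linarith
  have η3 : η ^ 2 ≤ η * d := by
    have := mul_le_mul_of_nonneg_left η1 η0
    linarith
  by_contra hh
  have hG1 := not_le.1 hh
  have k1 : (1 + G) * G < (1 + 2 / 5 * d) * (2 / 5 * d) := by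
    have := mul_pos (by linarith : 0 < 2 / 5 * d - G) (by linarith : 0 < 1 + G + 2 / 5 * d)
    linarith
  have d1 : d ≤ 1934 / 10000 := by linarith
  have k2 : (8003 / 10000 + 728 / 1000 * d) * (1 / 2 - d / 12) * d ≤ η / 2 - η ^ 2 / 12 := by
    have := mul_le_mul_of_nonneg_right η2 (by linarith : 0 ≤ 1 / 2 - d / 12)
    linarith
  have k3 : (2 / 5 + 4 / 25 * d) * d ≤ (8003 / 10000 + 728 / 1000 * d) * (1 / 2 - d / 12) * d := by
    refine mul_le_mul_of_nonneg_right ?_ d0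
    nlinarith
  linarith

end

end Pool.Agent.Strip051.LC.E1
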