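import Pool.Agent.Strip051.LC.E1.VertK

/-! # Rests near the full period: the increments of the unit kernels -/

namespace Pool.Agent.Strip051.LC.E1

open Pool.Agent.StripNear Pool.Agent.StripSquare Pool.Agent.Strip051 Pool.Agent.Strip051.Sweep
open Pool.Agent.Strip051.PB
open G

section

variable {e t t' : ℝ}

theorem hg_dd {b b' : ℝ} (hb : b ≤ b') (ht : t ≤ t') : 0 ≤ hg (t' - b') - hg (t - b') ∧
    hg (t' - b') - hg (t - b') ≤ hg (t' - b) - hg (t - b) := by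
  rcases le_total t b with h1 | h1
  · rw [hg_np (x := t - b) (by linarith), hg_np (x := t - b') (by linarith)]
    refine ⟨by linarith [hg_nn (t' - b')], ?_⟩
    have : hg (t' - b') ≤ hg (t' - b) := hg_of (by linarith [@hg_le (t' - b)]) (hg_nn _)
    linarith
  · rw [hg_1 (x := t - b) (by linarith), hg_1 (x := t' - b) (by linarith)]
    rcases le_total t b' with h2 | h2
    · rw [hg_np (x := t - b') (by linarith)]
      refine ⟨by linarith [hg_nn (t' - b')], ?_⟩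
      have : hg (t' - b') ≤ t' - t := hg_of (by linarith) (by linarith)
      linarith
    · rw [hg_1 (x := t - b') (by linarith), hg_1 (x := t' - b') (by linarith)]
      constructor <;> linarith

/-- The increments of a unit kernel: the lengths of the parts in the pieces. -/
theorem uR_x (he : 0 < e) (he1 : e ≤ 1 / 40) (ht0 : 0 ≤ t) (ht : t ≤ t') :
    ∃ x1 x2 x3 x4 x5 x6 x7 y : ℝ, 0 ≤ x1 ∧ 0 ≤ x2 ∧ 0 ≤ x3 ∧ 0 ≤ x4 ∧ 0 ≤ x5 ∧ 0 ≤ x6 ∧ 0 ≤ x7 ∧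
      0 ≤ y ∧ x1 + x2 + x3 + x4 + y = t' - t ∧ Real.sqrt 3 / 2 * y = x5 + x6 + x7 ∧
      ∀ k0 v m p f f' E, uR k0 v m p f f' E 1 e t' - uR k0 v m p f f' E 1 e t =
        u1 k0 v * x1 + u2 k0 v m p E * x2 + u3 k0 m * x3 + u4 k0 m p (u5 k0 f) E * x4 +
        (16 * f - 2 * k0) * x5 + u6 k0 f f' * x6 + u7 k0 f' * x7 := by
  have a1 := h3_lo
  have a2 := h3_up
  obtain ⟨p1, q1⟩ := hg_dd (b := 0) (b' := e) he.le ht
  obtain ⟨p2, q2⟩ := hg_dd (b := e) (b' := 8 / 5 * e) (by linarith) ht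
  obtain ⟨p3, q3⟩ := hg_dd (b := 8 / 5 * e) (b' := 11 / 5 * e) (by linarith) ht
  obtain ⟨p4, q4⟩ := hg_dd (b := 11 / 5 * e) (b' := 5 / 2 * e) (by linarith) ht
  have hT : Real.sqrt 3 / 2 * t ≤ Real.sqrt 3 / 2 * t' :=
    mul_le_mul_of_nonneg_left ht (by linarith)
  obtain ⟨p5, q5⟩ := hg_dd (b := Real.sqrt 3 / 2 * (5 / 2 * e)) (b' := 1 / (16 * 1))
    (by nlinarith) hT
  obtain ⟨p6, q6⟩ := hg_dd (b := 1 / (16 * 1)) (b' := 1 / (10 * 1)) (by norm_num) hT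
  have sc : ∀ x : ℝ, hg (Real.sqrt 3 / 2 * x - Real.sqrt 3 / 2 * (5 / 2 * e)) =
      Real.sqrt 3 / 2 * hg (x - 5 / 2 * e) := by
    intro x
    unfold hg
    rw [mul_max_of_nonneg _ _ (by linarith : 0 ≤ Real.sqrt 3 / 2), mul_zero]
    congr 1
    ring
  rw [sc, sc] at q5
  rw [sub_zero, sub_zero, hg_1 ht0, hg_1 (ht0.trans ht)] at q1
  refine ⟨_, _, _, _, _, _, _, hg (t' - 5 / 2 * e) - hg (t - 5 / 2 * e), sub_nonneg.2 q1,
    sub_nonneg.2 q2, sub_nonneg.2 q3, sub_nonneg.2 q4, sub_nonneg.2 q5, sub_nonneg.2 q6, p6, p4,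
    by ring, by ring, ?_⟩
  intro k0 v m p f f' E
  have e5 : u5 k0 f = (16 * f - 2 * k0) * (Real.sqrt 3 / 2) := rfl
  unfold uR
  rw [e5]
  ring

/-- Bounds of the increments from bounds of the slopes. -/
theorem inc_of {x1 x2 x3 x4 x5 x6 x7 y s1 s2 s3 s4 s5 s6 s7 lo hi l h H Δ : ℝ} (X1 : 0 ≤ x1)
    (X2 : 0 ≤ x2) (X3 : 0 ≤ x3) (X4 : 0 ≤ x4) (X5 : 0 ≤ x5) (X6 : 0 ≤ x6) (X7 : 0 ≤ x7)
    (Y : 0 ≤ y) (a1 : 8660 / 10000 ≤ H) (a2 : H ≤ 8661 / 10000) (e1 : x1 + x2 + x3 + x4 + y = Δ)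
    (e2 : H * y = x5 + x6 + x7) (b1 : lo ≤ s1 ∧ s1 ≤ hi) (b2 : lo ≤ s2 ∧ s2 ≤ hi)
    (b3 : lo ≤ s3 ∧ s3 ≤ hi) (b4 : lo ≤ s4 ∧ s4 ≤ hi) (b5 : l ≤ s5 ∧ s5 ≤ h)
    (b6 : l ≤ s6 ∧ s6 ≤ h) (b7 : l ≤ s7 ∧ s7 ≤ h) (l0 : l ≤ 0) (h0 : h ≤ 0)
    (c1 : lo ≤ l * (8661 / 10000)) (c2 : h * (8660 / 10000) ≤ hi) :
    lo * Δ ≤ s1 * x1 + s2 * x2 + s3 * x3 + s4 * x4 + s5 * x5 + s6 * x6 + s7 * x7 ∧
      s1 * x1 + s2 * x2 + s3 * x3 + s4 * x4 + s5 * x5 + s6 * x6 + s7 * x7 ≤ hi * Δ := by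
  have y1 : 8660 / 10000 * y ≤ H * y := mul_le_mul_of_nonneg_right a1 Y
  have y2 : H * y ≤ 8661 / 10000 * y := mul_le_mul_of_nonneg_right a2 Y
  have y3 : l * (8661 / 10000 * y) ≤ l * (H * y) := mul_le_mul_of_nonpos_left y2 l0
  have y4 : h * (H * y) ≤ h * (8660 / 10000 * y) := mul_le_mul_of_nonpos_left y1 h0
  rw [e2] at y3 y4
  have y5 := mul_le_mul_of_nonneg_right c1 Y
  have y6 := mul_le_mul_of_nonneg_right c2 Y
  have i1 := mul_le_mul_of_nonneg_right b1.1 X1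
  have i2 := mul_le_mul_of_nonneg_right b2.1 X2
  have i3 := mul_le_mul_of_nonneg_right b3.1 X3
  have i4 := mul_le_mul_of_nonneg_right b4.1 X4
  have i5 := mul_le_mul_of_nonneg_right b5.1 X5
  have i6 := mul_le_mul_of_nonneg_right b6.1 X6
  have i7 := mul_le_mul_of_nonneg_right b7.1 X7
  have j1 := mul_le_mul_of_nonneg_right b1.2 X1
  have j2 := mul_le_mul_of_nonneg_right b2.2 X2
  have j3 := mul_le_mul_of_nonneg_right b3.2 X3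
  have j4 := mul_le_mul_of_nonneg_right b4.2 X4
  have j5 := mul_le_mul_of_nonneg_right b5.2 X5
  have j6 := mul_le_mul_of_nonneg_right b6.2 X6
  have j7 := mul_le_mul_of_nonneg_right b7.2 X7
  rw [← e1]
  constructor <;> linarith

/-- The slopes of the first unit kernel. -/
theorem slK (he : 0 < e) (he1 : e ≤ 1 / 40) :
    (-(191 / 100) ≤ u1 1 (-(9997 / 50000)) ∧ u1 1 (-(9997 / 50000)) ≤ -(19 / 10)) ∧
    (-(422 / 100) ≤ u2 1 (-(9997 / 50000)) (-(359209 / 100000)) (pK e) (eh e) ∧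
      u2 1 (-(9997 / 50000)) (-(359209 / 100000)) (pK e) (eh e) ≤ -(274 / 100)) ∧
    (-(485 / 100) ≤ u3 1 (-(359209 / 100000)) ∧ u3 1 (-(359209 / 100000)) ≤ -(484 / 100)) ∧
    (-(757 / 100) ≤ u4 1 (-(359209 / 100000)) (pK e) (u5 1 (-(1589 / 12500))) (eh e) ∧
      u4 1 (-(359209 / 100000)) (pK e) (u5 1 (-(1589 / 12500))) (eh e) ≤ -(465 / 100)) ∧
    (16 * (-(1589 / 12500) : ℝ) - 2 * 1 = -(403392 / 100000)) ∧
    (u6 1 (-(1589 / 12500)) (-(7153 / 25000)) = -(624 / 100)) ∧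
    (u7 1 (-(7153 / 25000)) = -(51388 / 10000)) := by
  have a1 := h3_lo
  have a2 := h3_up
  have p1 := pK_lo he he1
  have p2 := pK_up he he1
  have e1 := eh_lo he he1
  have e2 := eh_up he he1
  obtain ⟨H, hH⟩ : ∃ H, H = Real.sqrt 3 / 2 := ⟨_, rfl⟩
  obtain ⟨E, hE⟩ : ∃ H, H = eh e := ⟨_, rfl⟩
  obtain ⟨p, hp⟩ : ∃ H, H = pK e := ⟨_, rfl⟩
  unfold u2 u4 u5 u3 u1 u6 u7
  rw [← hE, ← hp, ← hH]
  rw [← hE] at e1 e2
  rw [← hp] at p1 p2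
  rw [← hH] at a1 a2
  have E1 : 925 / 1000 ≤ E := by nlinarith
  have E2 : E ≤ 1 := by nlinarith
  have HE1 : H * (E - 925 / 1000) ≤ 8661 / 10000 * (E - 925 / 1000) :=
    mul_le_mul_of_nonneg_right a2 (by linarith)
  have HE2 : 8660 / 10000 * (E - 925 / 1000) ≤ H * (E - 925 / 1000) :=
    mul_le_mul_of_nonneg_right a1 (by linarith)
  refine ⟨⟨?_, ?_⟩, ⟨?_, ?_⟩, ⟨?_, ?_⟩, ⟨?_, ?_⟩, ?_, ?_, ?_⟩
  all_goals linarith

/-- The slopes of the second unit kernel. -/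
theorem slB (he : 0 < e) (he1 : e ≤ 1 / 40) :
    (-(1 / 10) ≤ u1 (B0 e) (18757 / 20000) ∧ u1 (B0 e) (18757 / 20000) ≤ 0) ∧
    (18 / 10 ≤ u2 (B0 e) (18757 / 20000) (-(280683 / 50000)) (pB e) (eh e) ∧
      u2 (B0 e) (18757 / 20000) (-(280683 / 50000)) (pB e) (eh e) ≤ 29 / 10) ∧
    (-(574 / 100) ≤ u3 (B0 e) (-(280683 / 50000)) ∧ u3 (B0 e) (-(280683 / 50000)) ≤ -(57 / 10)) ∧
    (52 ≤ u4 (B0 e) (-(280683 / 50000)) (pB e) (u5 (B0 e) (23151 / 50000)) (eh e) ∧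
      u4 (B0 e) (-(280683 / 50000)) (pB e) (u5 (B0 e) (23151 / 50000)) (eh e) ≤ 542 / 10) ∧
    (64 / 10 ≤ 16 * (23151 / 50000) - 2 * B0 e ∧ 16 * (23151 / 50000) - 2 * B0 e ≤ 642 / 100) ∧
    (-(1562 / 100) ≤ u6 (B0 e) (23151 / 50000) (-(8487 / 100000)) ∧
      u6 (B0 e) (23151 / 50000) (-(8487 / 100000)) ≤ -(156 / 10)) ∧
    (-(316 / 100) ≤ u7 (B0 e) (-(8487 / 100000)) ∧
      u7 (B0 e) (-(8487 / 100000)) ≤ -(313 / 100)) := by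
  have a1 := h3_lo
  have a2 := h3_up
  have e1 := eh_lo he he1
  have e2 := eh_up he he1
  have b1 := B0_lo he he1
  have b2 := B0_up he he1
  have q1' := q1_lo he he1
  have q2' := q1_up he he1
  have p1 : -(3 / 4) ≤ pB e := by
    unfold pB
    nlinarith
  have p2 : pB e ≤ -(69 / 100) := by
    unfold pB
    nlinarith
  obtain ⟨H, hH⟩ : ∃ H, H = Real.sqrt 3 / 2 := ⟨_, rfl⟩
  obtain ⟨E, hE⟩ : ∃ H, H = eh e := ⟨_, rfl⟩
  obtain ⟨p, hp⟩ : ∃ H, H = pB e := ⟨_, rfl⟩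
  obtain ⟨b, hb⟩ : ∃ H, H = B0 e := ⟨_, rfl⟩
  unfold u2 u4 u5 u3 u1 u6 u7
  rw [← hE, ← hp, ← hH, ← hb]
  rw [← hE] at e1 e2
  rw [← hp] at p1 p2
  rw [← hH] at a1 a2
  rw [← hb] at b1 b2
  have E1 : 925 / 1000 ≤ E := by nlinarith
  have E2 : E ≤ 1 := by nlinarith
  have HE1 : H * (E - 925 / 1000) ≤ 8661 / 10000 * (E - 925 / 1000) :=
    mul_le_mul_of_nonneg_right a2 (by linarith)
  have HE2 : 8660 / 10000 * (E - 925 / 1000) ≤ H * (E - 925 / 1000) :=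
    mul_le_mul_of_nonneg_right a1 (by linarith)
  have Hb1 : H * (1 / 2 - b) ≤ 8661 / 10000 * (1 / 2 - b) :=
    mul_le_mul_of_nonneg_right a2 (by linarith)
  have Hb2 : 8660 / 10000 * (1 / 2 - b) ≤ H * (1 / 2 - b) :=
    mul_le_mul_of_nonneg_right a1 (by linarith)
  have HEb1 : H * ((E - 925 / 1000) * (1 / 2 - b)) ≤ 8661 / 10000 * (75 / 1000 * (1 / 2 - b)) :=
    mul_le_mul a2 (mul_le_mul_of_nonneg_right (by linarith) (by linarith))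
      (mul_nonneg (by linarith) (by linarith)) (by norm_num)
  have HEb2 : 0 ≤ H * ((E - 925 / 1000) * (1 / 2 - b)) :=
    mul_nonneg (by linarith) (mul_nonneg (by linarith) (by linarith))
  refine ⟨⟨?_, ?_⟩, ⟨?_, ?_⟩, ⟨?_, ?_⟩, ⟨?_, ?_⟩, ⟨?_, ?_⟩, ⟨?_, ?_⟩, ⟨?_, ?_⟩⟩
  all_goals linarith

/-- The increments of the first kernel. -/
theorem kU_inc (he : 0 < e) (he1 : e ≤ 1 / 40) (ht0 : 0 ≤ t) (ht : t ≤ t') :
    -(76 / 10) * (t' - t) ≤ kU 1 e t' - kU 1 e t ∧ kU 1 e t' - kU 1 e t ≤ -(19 / 10) * (t' - t) := by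
  obtain ⟨x1, x2, x3, x4, x5, x6, x7, y, X1, X2, X3, X4, X5, X6, X7, Y, e1, e2, h⟩ :=
    uR_x he he1 ht0 ht
  obtain ⟨s1, s2, s3, s4, s5, s6, s7⟩ := slK he he1
  unfold kU
  rw [h, mul_one e]
  exact inc_of X1 X2 X3 X4 X5 X6 X7 Y h3_lo h3_up e1 e2 ⟨by linarith, by linarith⟩
    ⟨by linarith, by linarith⟩ ⟨by linarith, by linarith⟩ ⟨by linarith, by linarith⟩
    (l := -(624 / 100)) (h := -(403 / 100)) ⟨by linarith, by linarith⟩ ⟨by linarith, by linarith⟩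
    ⟨by linarith, by linarith⟩ (by norm_num) (by norm_num) (by norm_num) (by norm_num)

/-- The increments of the kernel of the near vertex. -/
theorem nU_inc (he : 0 < e) (he1 : e ≤ 1 / 40) (ht0 : 0 ≤ t) (ht : t ≤ t') :
    -(103 / 10) * (t' - t) ≤ nk e (kU 1 e t') (bU 1 e t') - nk e (kU 1 e t) (bU 1 e t) ∧
      nk e (kU 1 e t') (bU 1 e t') - nk e (kU 1 e t) (bU 1 e t) ≤ 8 * (t' - t) := by
  obtain ⟨x1, x2, x3, x4, x5, x6, x7, y, X1, X2, X3, X4, X5, X6, X7, Y, e1, e2, h⟩ :=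
    uR_x he he1 ht0 ht
  obtain ⟨⟨s1, r1⟩, ⟨s2, r2⟩, ⟨s3, r3⟩, ⟨s4, r4⟩, s5, s6, s7⟩ := slK he he1
  obtain ⟨⟨c1, d1⟩, ⟨c2, d2⟩, ⟨c3, d3⟩, ⟨c4, d4⟩, ⟨c5, d5⟩, ⟨c6, d6⟩, ⟨c7, d7⟩⟩ := slB he he1
  have L0 : 925 / 1000 ≤ LAM e := by linarith [LAM_lo he he1, sq_nonneg e]
  have L1 : LAM e ≤ 1 := by
    have := LAM_up he he1
    have : e * e ≤ 1 / 40 * e := mul_le_mul_of_nonneg_right he1 he.le
    linarith
  have m0 := mu_lo he he1
  have m1 := mu_up he he1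
  have hk := h 1 (-(9997 / 50000)) (-(359209 / 100000)) (pK e) (-(1589 / 12500))
    (-(7153 / 25000)) (eh e)
  have hb := h (B0 e) (18757 / 20000) (-(280683 / 50000)) (pB e) (23151 / 50000)
    (-(8487 / 100000)) (eh e)
  obtain ⟨α, hα⟩ : ∃ α, α = 1 + LAM e * G.mu e := ⟨_, rfl⟩
  obtain ⟨μ, hμ⟩ : ∃ μ, μ = G.mu e := ⟨_, rfl⟩
  rw [← hμ] at m0 m1 hα
  have A0 : 12264 / 10000 ≤ α := by
    rw [hα]
    have : 925 / 1000 * (12 / 49) ≤ LAM e * μ :=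
      mul_le_mul L0 m0 (by norm_num) (by linarith)
    linarith
  have A1 : α ≤ 5 / 4 := by
    rw [hα]
    have : LAM e * μ ≤ 1 * (1 / 4) := mul_le_mul L1 m1 (by linarith) (by norm_num)
    linarith
  have key : nk e (kU 1 e t') (bU 1 e t') - nk e (kU 1 e t) (bU 1 e t) =
      (α * u1 1 (-(9997 / 50000)) + μ * u1 (B0 e) (18757 / 20000)) * x1 +
      (α * u2 1 (-(9997 / 50000)) (-(359209 / 100000)) (pK e) (eh e) +
        μ * u2 (B0 e) (18757 / 20000) (-(280683 / 50000)) (pB e) (eh e)) * x2 +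
      (α * u3 1 (-(359209 / 100000)) + μ * u3 (B0 e) (-(280683 / 50000))) * x3 +
      (α * u4 1 (-(359209 / 100000)) (pK e) (u5 1 (-(1589 / 12500))) (eh e) +
        μ * u4 (B0 e) (-(280683 / 50000)) (pB e) (u5 (B0 e) (23151 / 50000)) (eh e)) * x4 +
      (α * (16 * (-(1589 / 12500)) - 2 * 1) + μ * (16 * (23151 / 50000) - 2 * B0 e)) * x5 +
      (α * u6 1 (-(1589 / 12500)) (-(7153 / 25000)) +
        μ * u6 (B0 e) (23151 / 50000) (-(8487 / 100000))) * x6 +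
      (α * u7 1 (-(7153 / 25000)) + μ * u7 (B0 e) (-(8487 / 100000))) * x7 := by
    unfold nk kU bU
    rw [mul_one e, ← hμ, ← hα]
    linear_combination α * hk + μ * hb
  rw [key]
  have m00 : 0 ≤ μ := by linarith
  have lo {a b s w : ℝ} (h1 : a ≤ s) (h2 : b ≤ w) (h3 : s ≤ 0) : 5 / 4 * a + μ * b ≤ α * s + μ * w := by
    have k1 : 5 / 4 * s ≤ α * s := mul_le_mul_of_nonpos_right A1 h3
    have k2 := mul_le_mul_of_nonneg_left h2 m00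
    linarith
  have up {a b s w : ℝ} (h1 : s ≤ a) (h2 : w ≤ b) (h3 : s ≤ 0) :
      α * s + μ * w ≤ 12264 / 10000 * a + μ * b := by
    have k1 : α * s ≤ 12264 / 10000 * s := mul_le_mul_of_nonpos_right A0 h3
    have k2 := mul_le_mul_of_nonneg_left h2 m00
    linarith
  refine inc_of X1 X2 X3 X4 X5 X6 X7 Y h3_lo h3_up e1 e2
    ⟨le_trans ?_ (lo s1 c1 (by linarith)), (up r1 d1 (by linarith)).trans ?_⟩
    ⟨le_trans ?_ (lo s2 c2 (by linarith)), (up r2 d2 (by linarith)).trans ?_⟩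
    ⟨le_trans ?_ (lo s3 c3 (by linarith)), (up r3 d3 (by linarith)).trans ?_⟩
    ⟨le_trans ?_ (lo s4 c4 (by linarith)), (up r4 d4 (by linarith)).trans ?_⟩
    (l := -(1171 / 100)) (h := -3)
    ⟨le_trans ?_ (lo s5.ge c5 (by linarith)), (up s5.le d5 (by linarith)).trans ?_⟩
    ⟨le_trans ?_ (lo s6.ge c6 (by linarith)), (up s6.le d6 (by linarith)).trans ?_⟩
    ⟨le_trans ?_ (lo s7.ge c7 (by linarith)), (up s7.le d7 (by linarith)).trans ?_⟩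
    (by norm_num) (by norm_num) (by norm_num) (by norm_num)
  all_goals linarith

end

end Pool.Agent.Strip051.LC.E1
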