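import Pool.Agent.Strip051.LC.E1.VertK
import Pool.Agent.Strip051.LC.E1.Cst

/-! # Rests near the full period: the slopes below `2 h0` -/

namespace Pool.Agent.Strip051.LC.E1

open Pool.Agent.StripNear Pool.Agent.StripSquare Pool.Agent.Strip051 Pool.Agent.Strip051.Sweep
open Pool.Agent.Strip051.PB
open Pool.Agent.Strip051.LC.E0.G (om cc1 xi1 sg1 cc3 xi3 sg3 xiw dwl dwu)
open G

section

variable {e a t : ℝ}

theorem vW3_bd (he : 0 < e) (he1 : e ≤ 1 / 40) : -(11 / 10) ≤ vW3 e ∧ vW3 e ≤ -(1 / 2) := by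
  have h1 := q1_lo he he1
  have h1' := q1_up he he1
  have h2 := eh_lo he he1
  have h3 := eh_up he he1
  have p1 := pK_lo he he1
  have p2 := pK_up he he1
  have d1 := dW_lo he he1
  have d2 := dW_up he he1
  have e2 : 0 ≤ e ^ 2 := sq_nonneg e
  have e2' : e ^ 2 ≤ 1 / 40 * e := by nlinarith
  have f1 : -(9 / 4) - 6 * e ≤ (q1 e / 2 + pK e) / (eh e + 1) := by
    rw [le_div_iff₀ (by linarith)]
    nlinarith
  have f2 : (q1 e / 2 + pK e) / (eh e + 1) ≤ -2 - 4 * e := by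
    rw [div_le_iff₀ (by linarith)]
    nlinarith
  unfold vW3
  constructor <;> linarith

theorem wK3_bd (he : 0 < e) (he1 : e ≤ 1 / 40) (ha : 0 ≤ a) :
    -(13 / 10 * a) ≤ wK3 1 e a ∧ wK3 1 e a ≤ (1377 / 2500) * a := by
  obtain ⟨v1, v2⟩ := vW3_bd he he1
  have h1 := tl_lo (b := (-(157 / 625))) (b' := vW3 e - (1377 / 2500))
    (s := -(11 / 10) - (1377 / 2500)) he ha (by norm_num) (by linarith) (by norm_num)
  have h2 := tl_hi (b := (-(157 / 625))) (b' := vW3 e - (1377 / 2500)) (s := 0) he ha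
    (by norm_num) (by linarith) (by norm_num)
  unfold wK3
  rw [mul_one e]
  constructor <;> linarith

theorem wB3_bd (he : 0 < e) (ha : 0 ≤ a) :
    -(13 / 10 * a) ≤ wB3 1 e a ∧ wB3 1 e a ≤ 13 / 10 * a := by
  have h1 := tl_lo (b := (-(12119 / 10000))) (b' := 0 - (237 / 200)) (s := 2 *
    (-(12119 / 10000))) he ha
    (by norm_num) (by norm_num) (by norm_num)
  have h2 := tl_hi (b := (-(12119 / 10000))) (b' := 0 - (237 / 200)) (s := 0) he ha
    (by norm_num) (by norm_num) (by norm_num)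
  unfold wB3
  constructor <;> linarith

theorem k0 (he : 0 < e) (he1 : e ≤ 1 / 40) (h : Vt a) :
    -(1 : ℝ) ≤ (sV0 e (-a)).k ∧ (sV0 e (-a)).k ≤ 1 := by
  have a0 := h.a0
  obtain ⟨c, d⟩ := wK3_bd he he1 h.a0.le
  rw [sV0_eq]
  exact kV0 h (by norm_num) (by norm_num) (by linarith) (by linarith)

theorem b0 (he : 0 < e) (h : Vt a) :
    -(1 : ℝ) ≤ (sV0 e (-a)).b ∧ (sV0 e (-a)).b ≤ 1 := by
  have a0 := h.a0
  obtain ⟨c, d⟩ := wB3_bd he h.a0.le
  rw [sV0_eq]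
  exact kV0 h (by norm_num) (by norm_num) (by linarith) (by linarith)

/-- The slopes of the kernels of the other zones. -/
noncomputable def kV (e a : ℝ) : ℝ :=
  (x3v (-a) 1 * (1 + kU' 1 e (2 / 3 * x3v (-a) 1)) / (2 - a / 2) - wK3 1 e a) / dV a

noncomputable def bV (e a : ℝ) : ℝ :=
  (x3v (-a) 1 * (B0 e + bU' 1 e (2 / 3 * x3v (-a) 1)) / (2 - a / 2) - wB3 1 e a) / dV a

theorem kV_bd (he : 0 < e) (he1 : e ≤ 1 / 40) (h : Vt a) :
    -(3 / 10) ≤ kV e a ∧ kV e a ≤ 9 / 10 := by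
  have a0 := h.a0
  have x0 := h.x0
  have x1 := h.xup
  obtain ⟨c, d⟩ := wK3_bd he he1 h.a0.le
  obtain ⟨K1, K2, -⟩ := kU'_bd he he1 (t := 2 / 3 * x3v (-a) 1) (by linarith) (by linarith)
  exact kV1 h (c1 := -(3 / 10)) (c2 := 1) (c := -(13 / 10)) (d := (1377 / 2500))
    (m := 3 / 10) (M := 9 / 10)
    (by linarith) (by linarith) (by norm_num) (by norm_num) (by linarith) d (by norm_num)
    (by norm_num) (by norm_num) (by norm_num)

theorem bV_bd (he : 0 < e) (he1 : e ≤ 1 / 40) (h : Vt a) : -(1 / 2) ≤ bV e a ∧ bV e a ≤ 2 := by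
  have a0 := h.a0
  have x0 := h.x0
  have x1 := h.xup
  obtain ⟨c, d⟩ := wB3_bd he h.a0.le
  obtain ⟨b1, b2⟩ := B0_bd he he1
  obtain ⟨K1, K2⟩ := bU'_bd he he1 (t := 2 / 3 * x3v (-a) 1) (by linarith) (by linarith)
  exact kV1 h (c1 := -(2 / 10)) (c2 := 22 / 10) (c := -(13 / 10)) (d := 13 / 10)
    (m := 1 / 2) (M := 2)
    (by linarith) (by linarith) (by norm_num) (by norm_num) (by linarith) d (by norm_num)
    (by norm_num) (by norm_num) (by norm_num)

/-! ### The levels -/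

theorem W3_cA : (W3 1 e (-a)).cA = LAM e * ((-(9 / 1250)) * hg (a - 5 / 2 * e)) := by
  simp only [W3, neg_neg]
  rw [mul_one e]
  ring

theorem v5_eq : v5 1 e (-a) = LAM e * (xv5 (-a) 1 * (16 * ((-(1283 / 100000)) +
  (1299 / 1000) * e) * a)) := by
  unfold v5
  rw [mul_one e, neg_neg]
  ring

theorem v6_eq : v6 1 e (-a) = LAM e * (xv6 (-a) 1 * (16 * ((611 / 100000) +
  (507 / 500) * e) * a)) := by
  unfold v6
  rw [mul_one e, neg_neg]
  ring

theorem Vt.h (h : Vt a) (he : 0 < e) : 0 ≤ hg (a - 5 / 2 * e) ∧ hg (a - 5 / 2 * e) ≤ a :=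
  ⟨hg_nn _, hg_of (by linarith) h.a0.le⟩

theorem L_nn (he : 0 < e) (he1 : e ≤ 1 / 40) : 0 ≤ LAM e := by
  have := LAM_lo he he1
  nlinarith

theorem l0 (he : 0 < e) (he1 : e ≤ 1 / 40) (h : Vt a) :
    LAM e * (99 / 100) ≤ lsl e (sV0 e (-a)) ∧ lsl e (sV0 e (-a)) ≤ LAM e * 1 := by
  obtain ⟨p1, p2⟩ := h.h he
  have a0 := h.a0
  have L0 := L_nn he he1
  obtain ⟨q1', q2'⟩ := kV0 h (κ := (-(9 / 1250)) * hg (a - 5 / 2 * e)) (m := 1 / 100) (M := 0)
    (by norm_num) le_rfl (by linarith) (by linarith)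
  rw [lV0_eq W3_cA]
  constructor
  · refine mul_le_mul_of_nonneg_left ?_ L0
    linarith
  · refine mul_le_mul_of_nonneg_left ?_ L0
    linarith

/-- The abscissas of the curves relative to the width. -/
theorem Vt.x5 (h : Vt a) : 3 / 20 * dV a ≤ xv5 (-a) 1 ∧ xv5 (-a) 1 ≤ 85 / 200 * dV a := by
  have a0 := h.a0
  have a1 := h.a1
  have d0 := h.d0
  have t1 := h.tlo
  have t2 := h.tup
  have e1 : xv5 (-a) 1 = xi1 (-a) 1 + 3 / 20 * dV a := rfl
  rw [e1]
  constructor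
  · nlinarith
  · nlinarith

theorem Vt.x6 (h : Vt a) : 3 / 5 * dV a ≤ xv6 (-a) 1 ∧ xv6 (-a) 1 ≤ 7 / 8 * dV a := by
  have a0 := h.a0
  have a1 := h.a1
  have d0 := h.d0
  have t1 := h.tlo
  have t2 := h.tup
  have e1 : xv6 (-a) 1 = xi1 (-a) 1 + 3 / 5 * dV a := rfl
  rw [e1]
  constructor
  · nlinarith
  · nlinarith

/-- The value on the curve `1.15`. -/
theorem v5_bd (he : 0 < e) (he1 : e ≤ 1 / 40) (h : Vt a) :
    -(7 / 1000 * dV a) ≤ xv5 (-a) 1 * (16 * ((-(1283 / 100000)) + (1299 / 1000) * e) * a) ∧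
      xv5 (-a) 1 * (16 * ((-(1283 / 100000)) + (1299 / 1000) * e) * a) ≤ 9 / 1000 * dV a := by
  have a0 := h.a0
  have a1 := h.a1
  have dp := h.dp
  obtain ⟨x1, x2⟩ := h.x5
  have x0 : 0 ≤ xv5 (-a) 1 := by linarith
  have ax : xv5 (-a) 1 * (16 * a) ≤ 85 / 200 * dV a * 1 :=
    mul_le_mul x2 (by linarith) (by linarith) (by linarith)
  have ax0 : 0 ≤ xv5 (-a) 1 * (16 * a) := by positivity
  have e1 : xv5 (-a) 1 * (16 * ((-(1283 / 100000)) + (1299 / 1000) * e) * a) =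
      ((-(1283 / 100000)) + (1299 / 1000) * e) * (xv5 (-a) 1 * (16 * a)) := by ring
  rw [e1]
  constructor
  · have := mul_le_mul_of_nonneg_right
      (by linarith : -(16 / 1000) ≤ (-(1283 / 100000)) + (1299 / 1000) * e) ax0
    linarith
  · have := mul_le_mul_of_nonneg_right
      (by linarith : (-(1283 / 100000)) + (1299 / 1000) * e ≤ 21 / 1000) ax0
    linarith

/-- The value on the curve `1.6`. -/
theorem v6_bd (he : 0 < e) (h : Vt a) :
    0 ≤ xv6 (-a) 1 * (16 * ((611 / 100000) + (507 / 500) * e) * a) ∧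
      xv6 (-a) 1 * (16 * ((611 / 100000) + (507 / 500) * e) * a) ≤
        ((611 / 100000) + (507 / 500) * e) * (14 * a) * dV a := by
  have a0 := h.a0
  have a1 := h.a1
  have dp := h.dp
  obtain ⟨x1, x2⟩ := h.x6
  have x0 : 0 ≤ xv6 (-a) 1 := by linarith
  have c0 : 0 ≤ (611 / 100000) + (507 / 500) * e := by positivity
  constructor
  · positivity
  · have := mul_le_mul_of_nonneg_left x2 (by positivity : 0 ≤ ((611 / 100000) +
    (507 / 500) * e) * (16 * a))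
    linarith

theorem l1 (he : 0 < e) (he1 : e ≤ 1 / 40) (h : Vt a) :
    LAM e * (95 / 100) ≤ lsl e (sV1 e (-a)) ∧ lsl e (sV1 e (-a)) ≤ LAM e * (108 / 100) := by
  obtain ⟨p1, p2⟩ := h.h he
  obtain ⟨v1, v2⟩ := v5_bd he he1 h
  have a0 := h.a0
  have d0 := h.d0
  have L0 := L_nn he he1
  obtain ⟨q1', q2'⟩ := qV h (N := 20 / 3 * (xv5 (-a) 1 * (16 * ((-(1283 / 100000)) +
    (1299 / 1000) * e) * a) -
    (-(9 / 1250)) * hg (a - 5 / 2 * e))) (m := 5 / 100) (M := 8 / 100) (by linarith) (by linarith)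
  rw [lV1_eq W3_cA v5_eq]
  constructor
  · refine mul_le_mul_of_nonneg_left ?_ L0
    linarith
  · refine mul_le_mul_of_nonneg_left ?_ L0
    linarith

theorem l2 (he : 0 < e) (he1 : e ≤ 1 / 40) (h : Vt a) :
    LAM e * (97 / 100) ≤ lsl e (sV2 e (-a)) ∧ lsl e (sV2 e (-a)) ≤ LAM e * (109 / 100) := by
  obtain ⟨v1, v2⟩ := v5_bd he he1 h
  obtain ⟨w1, w2⟩ := v6_bd he h
  have a0 := h.a0
  have a1 := h.a1
  have d0 := h.d0
  have dp := h.dp
  have L0 := L_nn he he1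
  have w3 : ((611 / 100000) + (507 / 500) * e) * (14 * a) * dV a ≤ 29 / 1000 * dV a := by
    refine mul_le_mul_of_nonneg_right ?_ dp.le
    have := mul_le_mul (by linarith : (611 / 100000) + (507 / 500) * e ≤ 33 / 1000)
      (by linarith : 14 * a ≤ 7 / 8) (by linarith) (by norm_num)
    linarith
  obtain ⟨q1', q2'⟩ := qV h (N := 20 / 9 * (xv6 (-a) 1 * (16 * ((611 / 100000) +
    (507 / 500) * e) * a) -
    xv5 (-a) 1 * (16 * ((-(1283 / 100000)) + (1299 / 1000) * e) * a))) (m := 3 / 100) (M := 9 / 100)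
    (by linarith) (by linarith)
  rw [lV2_eq v5_eq v6_eq]
  constructor
  · refine mul_le_mul_of_nonneg_left ?_ L0
    linarith
  · refine mul_le_mul_of_nonneg_left ?_ L0
    linarith

/-! ### The last zone -/

/-- The difference of the levels of the two circles. -/
theorem dL_sq {S1 S2 S3 S4 S5 : ℝ} (h : Sq e t S1 S2 S3 S4 S5) :
    2 * bL' e 1 e t - aL' e 1 e t = ((-(43361 / 100000)) + (93 / 25) * e) * S1 +
      ((43849 / 100000) + (-(6641 / 200)) * e) * S2 +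
      ((-(5323 / 10000)) + (4324 / 125) * e) * S3 + ((-(20713 / 50000)) +
        (4487 / 500) * e) * S4 + ((10927 / 50000) + (-(24141 / 1000)) * e) * S5 := by
  unfold aL' bL'
  rw [bL_sq h, aL_sq h, h.e5]
  ring

/-- The hinges beyond a common point are ordered. -/
theorem hinge_mono {T k k' : ℝ} (h : k ≤ k') (hk : k' < 1 / 2) (hT : T ≤ 1 / 2) :
    hg (T - k') / (1 / 2 - k') ≤ hg (T - k) / (1 / 2 - k) := by
  rw [div_le_div_iff₀ (by linarith) (by linarith)]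
  rcases le_total T k' with h1 | h1
  · rw [hg_np (by linarith), zero_mul]
    exact mul_nonneg (hg_nn _) (by linarith)
  · rw [hg_1 (by linarith), hg_1 (by linarith)]
    nlinarith

/-- The squares are ordered. -/
theorem Sq.mono {S1 S2 S3 S4 S5 : ℝ} (h : Sq e t S1 S2 S3 S4 S5) (he : 0 < e) (he1 : e ≤ 1 / 40)
    (ht : 0 ≤ t) (ht1 : t ≤ 1 / 2) : S5 ≤ S4 ∧ S4 ≤ S3 ∧ S3 ≤ S2 ∧ S2 ≤ S1 ∧ 0 ≤ S5 := by
  have a1 := h3_lo
  have a2 := h3_up
  obtain ⟨H, hH⟩ : ∃ H, H = Real.sqrt 3 / 2 := ⟨_, rfl⟩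
  obtain ⟨e1, e2, e3, e4, e5, -, -⟩ := h
  rw [← hH] at a1 a2 e1 e2 e3 e4 e5
  have T1 : H * t ≤ 1 / 2 := by nlinarith
  have He : H * e ≤ 8661 / 10000 * (1 / 40) := mul_le_mul a2 he1 he.le (by norm_num)
  have He0 : 0 < H * e := mul_pos (by linarith) he
  have m {k k' : ℝ} (h : k ≤ k') (hk : k' < 1 / 2) : (hg (H * t - k') / (1 / 2 - k')) ^ 2 ≤
      (hg (H * t - k) / (1 / 2 - k)) ^ 2 :=
    pow_le_pow_left₀ (div_nonneg (hg_nn _) (by linarith)) (hinge_mono h hk T1) 2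
  have m4 := m (k := 3 / 25) (k' := 9 / 50) (by norm_num) (by norm_num)
  have m3 := m (k := 9 / 100) (k' := 3 / 25) (by norm_num) (by norm_num)
  have m2 := m (k := 29 / 400) (k' := 9 / 100) (by norm_num) (by norm_num)
  have m1 := m (k := 167 / 50 * (H * e)) (k' := 29 / 400) (by linarith) (by norm_num)
  have e1' : H * hg (t - 167 / 50 * e) = hg (H * t - 167 / 50 * (H * e)) := by
    unfold hg
    rw [mul_max_of_nonneg _ _ (by linarith : 0 ≤ H), mul_zero]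
    congr 1
    ring
  have f1 : (hg (H * t - 167 / 50 * (H * e)) / (1 / 2 - 167 / 50 * (H * e))) ^ 2 = S1 := by
    rw [e1, e1']
    congr 2
    ring
  have f2 : (hg (H * t - 29 / 400) / (1 / 2 - 29 / 400)) ^ 2 = S2 := by
    rw [e2]
    norm_num
  have f3 : (hg (H * t - 9 / 100) / (1 / 2 - 9 / 100)) ^ 2 = S3 := by
    rw [e3]
    norm_num
  have f4 : (hg (H * t - 3 / 25) / (1 / 2 - 3 / 25)) ^ 2 = S4 := by
    rw [e4]
    norm_num
  have f5 : (hg (H * t - 9 / 50) / (1 / 2 - 9 / 50)) ^ 2 = S5 := by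
    rw [e5]
    norm_num
  rw [f4, f5] at m4
  rw [f3, f4] at m3
  rw [f2, f3] at m2
  rw [f1, f2] at m1
  exact ⟨m4, m3, m2, m1, by rw [e5]; positivity⟩

/-- The data of the last zone: `T` is the distance of the two circles. -/
theorem v3_data (he : 0 < e) (he1 : e ≤ 1 / 40) (h : Vt a) : ∃ T S1 S2 S3 S4 S5,
    Sq e (2 / 3 * x3v (-a) 1) S1 S2 S3 S4 S5 ∧ 0 < T ∧ T ≤ 2485 / 10000 ∧ T ^ 2 ≤ a ∧
    S5 ≤ S4 ∧ S4 ≤ S3 ∧ S3 ≤ S2 ∧ S2 ≤ S1 ∧ 0 ≤ S5 ∧
    S1 ≤ 4 * T ^ 2 ∧ (29 / 10 * e ≤ T → S1 ≤ 4 * (T - 289 / 100 * e * (1 - 2 * T)) ^ 2) ∧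
    17319 / 10000 * T - 3 / 2 * T ^ 2 ≤ dV a ∧
    S2 = (hg (T - 29 / 400) / (171 / 400)) ^ 2 ∧ S3 = (hg (T - 9 / 100) / (41 / 100)) ^ 2 ∧
    S4 = (hg (T - 3 / 25) / (19 / 50)) ^ 2 ∧ S5 = (hg (T - 9 / 50) / (8 / 25)) ^ 2 := by
  have a0 := h.a0
  have ha1 := h.a1
  have x0 := h.x0
  have x1 := h.x1
  have xup := h.xup
  have a1 := h3_lo
  have a2 := h3_up
  have a3 : (Real.sqrt 3 / 2) ^ 2 = 3 / 4 := by
    rw [div_pow, Real.sq_sqrt (by norm_num)]
    norm_num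
  obtain ⟨S1, S2, S3, S4, S5, hS⟩ := sq_ex he he1 (t := 2 / 3 * x3v (-a) 1) (by linarith)
    (by linarith)
  obtain ⟨m1, m2, m3, m4, m5⟩ := hS.mono he he1 (by linarith) (by linarith)
  refine ⟨Real.sqrt 3 / 2 * (2 / 3 * x3v (-a) 1), S1, S2, S3, S4, S5, hS, by positivity, ?_, ?_,
    m1, m2, m3, m4, m5, ?_, ?_, ?_, ?_, ?_, ?_, ?_⟩
  · nlinarith
  · rw [mul_pow, a3]
    nlinarith
  · have := hS.u1
    rw [mul_pow (Real.sqrt 3 / 2), a3]
    linarith
  · intro hT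
    rw [hS.e1]
    obtain ⟨H, hH⟩ : ∃ H, H = Real.sqrt 3 / 2 := ⟨_, rfl⟩
    rw [← hH] at a1 a2 a3 hT ⊢
    have He : H * e ≤ 8661 / 10000 * (1 / 40) := mul_le_mul a2 he1 he.le (by norm_num)
    have He0 : 0 < H * e := mul_pos (by linarith) he
    have He1 : 8660 / 10000 * e ≤ H * e := mul_le_mul_of_nonneg_right a1 he.le
    have He2 : H * e ≤ 8661 / 10000 * e := mul_le_mul_of_nonneg_right a2 he.le
    obtain ⟨T, hTT⟩ : ∃ T, T = H * (2 / 3 * x3v (-a) 1) := ⟨_, rfl⟩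
    rw [← hTT] at hT ⊢
    have e1' : H * hg (2 / 3 * x3v (-a) 1 - 167 / 50 * e) = hg (T - 167 / 50 * (H * e)) := by
      unfold hg
      rw [mul_max_of_nonneg _ _ (by linarith : 0 ≤ H), mul_zero, hTT]
      congr 1
      ring
    have Tm : T ≤ 25 / 100 := by nlinarith
    rw [e1', hg_1 (by linarith)]
    have d : 0 < 1 / 2 - 167 / 50 * H * e := by linarith
    have c1 : 289 / 100 * e * (1 - 2 * T) ≤ 167 / 50 * (H * e) * (1 - 2 * T) :=
      mul_le_mul_of_nonneg_right (by linarith) (by linarith)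
    have c0 : 0 ≤ 289 / 100 * e * (1 - 2 * T) := mul_nonneg (by positivity) (by linarith)
    have c2 : 0 ≤ 289 / 100 * e * (1 - 2 * T) * (H * e) := mul_nonneg c0 He0.le
    have k : (T - 167 / 50 * (H * e)) / (1 / 2 - 167 / 50 * H * e) ≤
        2 * (T - 289 / 100 * e * (1 - 2 * T)) := by
      rw [div_le_iff₀ d]
      linarith
    have := pow_le_pow_left₀ (div_nonneg (by linarith) d.le) k 2
    rw [mul_pow] at this
    linarith
  · have e1 : x3v (-a) 1 ^ 2 = 3 * (Real.sqrt 3 / 2 * (2 / 3 * x3v (-a) 1)) ^ 2 := by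
      rw [mul_pow (Real.sqrt 3 / 2), a3]
      ring
    have t2 := h.tup
    have k1 : xi1 (-a) 1 ≤ 3 / 2 * (Real.sqrt 3 / 2 * (2 / 3 * x3v (-a) 1)) ^ 2 := by
      nlinarith
    have k2 : Real.sqrt 3 / 2 * (2 / 3 * x3v (-a) 1) ≤ 8661 / 10000 * (2 / 3 * x3v (-a) 1) :=
      mul_le_mul_of_nonneg_right a2 (by linarith)
    unfold dV
    linarith
  · rw [hS.e2]
    norm_num
  · rw [hS.e3]
    norm_num
  · rw [hS.e4]
    norm_num
  · rw [hS.e5]
    norm_num

/-- The sum of the squares, at `e = 0` and at `e = 1 / 40`. -/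
theorem v3_comb {m0 m1 D S1 S2 S3 S4 S5 : ℝ} (he : 0 < e) (he1 : e ≤ 1 / 40)
    (A0 : 0 ≤ m0 * D + 5 / 2 * ((-(43361 / 100000)) * S1 + (43849 / 100000) * S2 +
      (-(5323 / 10000)) * S3 + (-(20713 / 50000)) * S4 + (10927 / 50000) * S5))
    (A1 : 0 ≤ m1 * D + 5 / 2 * ((-(34061 / 100000)) * S1 + (-(78327 / 200000)) * S2 +
      (133 / 400) * S3 + (-(18991 / 100000)) * S4 + (-(76997 / 200000)) * S5)) :
    0 ≤ (m0 + 40 * (m1 - m0) * e) * D + 5 / 2 * (((-(43361 / 100000)) + (93 / 25) * e) * S1 +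
      ((43849 / 100000) + (-(6641 / 200)) * e) * S2 + ((-(5323 / 10000)) +
        (4324 / 125) * e) * S3 + ((-(20713 / 50000)) + (4487 / 500) * e) * S4 +
      ((10927 / 50000) + (-(24141 / 1000)) * e) * S5) := by
  have := mul_nonneg (by linarith : 0 ≤ 1 - 40 * e) A0
  have := mul_nonneg he.le A1
  linarith

/-- The last zone for short distances. -/
theorem v3_c1 {T S1 S2 S3 S4 S5 : ℝ} (he : 0 < e) (he1 : e ≤ 1 / 40) (T0 : 0 < T)
    (T1 : T ≤ 12 / 100) (s5 : 0 ≤ S5) (s4 : S5 ≤ S4) (s3 : S4 ≤ S3) (s2 : S3 ≤ S2) (s1 : S2 ≤ S1)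
    (u1 : S1 ≤ 4 * T ^ 2) (e2 : S2 = (hg (T - 29 / 400) / (171 / 400)) ^ 2)
    (e3 : S3 = (hg (T - 9 / 100) / (41 / 100)) ^ 2)
    (e4 : S4 = (hg (T - 3 / 25) / (19 / 50)) ^ 2) :
    0 ≤ ((66331 / 100000) +
      40 * ((56059 / 100000) - (66331 / 100000)) * e) * (17319 / 10000 * T - 3 / 2 * T ^ 2) +
      5 / 2 * (((-(43361 / 100000)) + (93 / 25) * e) * S1 +
      ((43849 / 100000) + (-(6641 / 200)) * e) * S2 + ((-(5323 / 10000)) +
        (4324 / 125) * e) * S3 + ((-(20713 / 50000)) + (4487 / 500) * e) * S4 +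
      ((10927 / 50000) + (-(24141 / 1000)) * e) * S5) := by
  have z4 : S4 = 0 := by
    rw [e4, hg_np (by linarith)]
    norm_num
  have z5 : S5 = 0 := by linarith
  have u2 : S2 ≤ 86 / 100 * T ^ 2 := by
    have k : hg (T - 29 / 400) / (171 / 400) ≤ 927 / 1000 * T := by
      rw [div_le_iff₀ (by norm_num)]
      exact hg_of (by linarith) (by positivity)
    have := pow_le_pow_left₀ (div_nonneg (hg_nn _) (by norm_num)) k 2
    rw [← e2, mul_pow] at this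
    nlinarith [sq_nonneg T]
  have u3 : S3 ≤ 38 / 100 * T ^ 2 := by
    have k : hg (T - 9 / 100) / (41 / 100) ≤ 61 / 100 * T := by
      rw [div_le_iff₀ (by norm_num)]
      exact hg_of (by linarith) (by positivity)
    have := pow_le_pow_left₀ (div_nonneg (hg_nn _) (by norm_num)) k 2
    rw [← e3, mul_pow] at this
    nlinarith [sq_nonneg T]
  rw [z4, z5] at *
  have TT : T ^ 2 ≤ 12 / 100 * T := by nlinarith
  refine v3_comb he he1 ?_ ?_
  · linarith
  · linarith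

/-- The last zone for medium distances. -/
theorem v3_c2 {T S1 S2 S3 S4 S5 : ℝ} (he : 0 < e) (he1 : e ≤ 1 / 40) (T0 : 12 / 100 ≤ T)
    (T1 : T ≤ 177 / 1000) (u1 : S1 ≤ 4 * T ^ 2)
    (e2 : S2 = (hg (T - 29 / 400) / (171 / 400)) ^ 2)
    (e3 : S3 = (hg (T - 9 / 100) / (41 / 100)) ^ 2)
    (e4 : S4 = (hg (T - 3 / 25) / (19 / 50)) ^ 2)
    (e5 : S5 = (hg (T - 9 / 50) / (8 / 25)) ^ 2) :
    0 ≤ ((66331 / 100000) +
      40 * ((56059 / 100000) - (66331 / 100000)) * e) * (17319 / 10000 * T - 3 / 2 * T ^ 2) +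
      5 / 2 * (((-(43361 / 100000)) + (93 / 25) * e) * S1 +
      ((43849 / 100000) + (-(6641 / 200)) * e) * S2 + ((-(5323 / 10000)) +
        (4324 / 125) * e) * S3 + ((-(20713 / 50000)) + (4487 / 500) * e) * S4 +
      ((10927 / 50000) + (-(24141 / 1000)) * e) * S5) := by
  have z5 : S5 = 0 := by
    rw [e5, hg_np (by linarith)]
    norm_num
  rw [hg_1 (by linarith)] at e2 e3 e4
  have TT := mul_nonneg (by linarith : 0 ≤ T - 12 / 100) (by linarith : 0 ≤ 177 / 1000 - T)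
  rw [z5, e2, e3, e4]
  refine v3_comb he he1 ?_ ?_
  · linarith
  · linarith

/-- The last zone for large distances. -/
theorem v3_c3 {T S1 S2 S3 S4 S5 : ℝ} (he : 0 < e) (he1 : e ≤ 1 / 40) (T0 : 176 / 1000 ≤ T)
    (T1 : T ≤ 2485 / 10000)
    (v1 : S1 ≤ 4 * (T - 289 / 100 * e * (1 - 2 * T)) ^ 2)
    (e2 : S2 = (hg (T - 29 / 400) / (171 / 400)) ^ 2)
    (e3 : S3 = (hg (T - 9 / 100) / (41 / 100)) ^ 2)
    (e4 : S4 = (hg (T - 3 / 25) / (19 / 50)) ^ 2)
    (e5 : S5 = (hg (T - 9 / 50) / (8 / 25)) ^ 2) :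
    0 ≤ ((118663 / 100000) +
      40 * ((45559 / 50000) - (118663 / 100000)) * e) * (17319 / 10000 * T - 3 / 2 * T ^ 2) +
      5 / 2 * (((-(43361 / 100000)) + (93 / 25) * e) * S1 +
      ((43849 / 100000) + (-(6641 / 200)) * e) * S2 + ((-(5323 / 10000)) +
        (4324 / 125) * e) * S3 + ((-(20713 / 50000)) + (4487 / 500) * e) * S4 +
      ((10927 / 50000) + (-(24141 / 1000)) * e) * S5) := by
  have x1 : 20 * e * T * (1 - 2 * T) ≤ 4 * T ^ 2 - S1 := by
    have c0 : 0 ≤ e * (1 - 2 * T) := mul_nonneg he.le (by linarith)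
    have c1 : e * (1 - 2 * T) ≤ 1 / 40 * (648 / 1000) :=
      mul_le_mul he1 (by linarith) (by linarith) (by norm_num)
    nlinarith [mul_nonneg c0 (by linarith : 0 ≤ 9 / 25 * T - 289 / 100 * (e * (1 - 2 * T)))]
  have x2 : 34 / 100 * (20 * e * T * (1 - 2 * T)) ≤ -((-(43361 / 100000)) +
    (93 / 25) * e) * (4 * T ^ 2 - S1) := by
    have c0 : 0 ≤ 20 * e * T * (1 - 2 * T) :=
      mul_nonneg (by positivity) (by linarith)
    exact mul_le_mul (by linarith) x1 c0 (by linarith)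
  have e4' : S4 = ((T - 3 / 25) / (19 / 50)) ^ 2 := by rw [e4, hg_1 (by linarith)]
  have e3' : S3 = ((T - 9 / 100) / (41 / 100)) ^ 2 := by rw [e3, hg_1 (by linarith)]
  have e2' : S2 = ((T - 29 / 400) / (171 / 400)) ^ 2 := by rw [e2, hg_1 (by linarith)]
  have key : 0 ≤ ((118663 / 100000) +
    40 * ((45559 / 50000) - (118663 / 100000)) * e) * (17319 / 10000 * T - 3 / 2 * T ^ 2) +
      5 / 2 * (((-(43361 / 100000)) + (93 / 25) * e) * (4 * T ^ 2) +
        34 / 100 * (20 * e * T * (1 - 2 * T)) +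
      ((43849 / 100000) + (-(6641 / 200)) * e) * S2 + ((-(5323 / 10000)) +
        (4324 / 125) * e) * S3 + ((-(20713 / 50000)) + (4487 / 500) * e) * S4 +
      ((10927 / 50000) + (-(24141 / 1000)) * e) * S5) := by
    rcases le_total T (9 / 50) with h5 | h5
    · have z5 : S5 = 0 := by
        rw [e5, hg_np (by linarith)]
        norm_num
      have TT := mul_nonneg (by linarith : 0 ≤ T - 176 / 1000) (by linarith : 0 ≤ 9 / 50 - T)
      have A0 : 0 ≤ (118663 / 100000) * (17319 / 10000 * T - 3 / 2 * T ^ 2) +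
        5 / 2 * ((-(43361 / 100000)) * (4 * T ^ 2) +
          (43849 / 100000) * S2 + (-(5323 / 10000)) * S3 + (-(20713 / 50000)) * S4 +
            (10927 / 50000) * S5) := by
        rw [z5, e2', e3', e4']
        linarith
      have A1 : 0 ≤ (45559 / 50000) * (17319 / 10000 * T - 3 / 2 * T ^ 2) +
        5 / 2 * ((-(34061 / 100000)) * (4 * T ^ 2) +
          34 / 100 * (20 * (1 / 40) * T * (1 - 2 * T)) +
          (-(78327 / 200000)) * S2 + (133 / 400) * S3 + (-(18991 / 100000)) * S4 +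
            (-(76997 / 200000)) * S5) := by
        rw [z5, e2', e3', e4']
        linarith
      have := mul_nonneg (by linarith : 0 ≤ 1 - 40 * e) A0
      have := mul_nonneg he.le A1
      linarith
    · have e5' : S5 = ((T - 9 / 50) / (8 / 25)) ^ 2 := by rw [e5, hg_1 (by linarith)]
      have TT := mul_nonneg (by linarith : 0 ≤ T - 9 / 50) (by linarith : 0 ≤ 2485 / 10000 - T)
      have A0 : 0 ≤ (118663 / 100000) * (17319 / 10000 * T - 3 / 2 * T ^ 2) +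
        5 / 2 * ((-(43361 / 100000)) * (4 * T ^ 2) +
          (43849 / 100000) * S2 + (-(5323 / 10000)) * S3 + (-(20713 / 50000)) * S4 +
            (10927 / 50000) * S5) := by
        rw [e5', e2', e3', e4']
        linarith
      have A1 : 0 ≤ (45559 / 50000) * (17319 / 10000 * T - 3 / 2 * T ^ 2) +
        5 / 2 * ((-(34061 / 100000)) * (4 * T ^ 2) +
          34 / 100 * (20 * (1 / 40) * T * (1 - 2 * T)) +
          (-(78327 / 200000)) * S2 + (133 / 400) * S3 + (-(18991 / 100000)) * S4 +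
            (-(76997 / 200000)) * S5) := by
        rw [e5', e2', e3', e4']
        linarith
      have := mul_nonneg (by linarith : 0 ≤ 1 - 40 * e) A0
      have := mul_nonneg he.le A1
      linarith
  linarith

theorem M_lo (he : 0 < e) (he1 : e ≤ 1 / 40) : 0 ≤ (118663 / 100000) +
  40 * ((45559 / 50000) - (118663 / 100000)) * e ∧
    0 ≤ (66331 / 100000) + 40 * ((56059 / 100000) - (66331 / 100000)) * e ∧
    (66331 / 100000) + 40 * ((56059 / 100000) - (66331 / 100000)) * e ≤ (118663 / 100000) +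
      40 * ((45559 / 50000) - (118663 / 100000)) * e ∧
    (118663 / 100000) + 40 * ((45559 / 50000) - (118663 / 100000)) * e +
      35 / 16 * ((611 / 100000) + (507 / 500) * e) ≤ 6 / 5 - 44 / 5 * e ∧
    (66331 / 100000) + 40 * ((56059 / 100000) - (66331 / 100000)) * e +
      35 / 32 * ((611 / 100000) + (507 / 500) * e) ≤ 67 / 100 - 3 * e := by
  refine ⟨?_, ?_, ?_, ?_, ?_⟩ <;> linarith

/-- The lower bounds in the last zone. -/
theorem v3_lo (he : 0 < e) (he1 : e ≤ 1 / 40) (h : Vt a) :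
    -(6 / 5 - 44 / 5 * e) ≤ 5 / 2 * ((2 * bL' e 1 e (2 / 3 * x3v (-a) 1) -
      aL' e 1 e (2 / 3 * x3v (-a) 1)) - xv6 (-a) 1 * (16 * ((611 / 100000) +
        (507 / 500) * e) * a)) / dV a ∧
    5 / 2 * ((2 * bL' e 1 e (2 / 3 * x3v (-a) 1) -
      aL' e 1 e (2 / 3 * x3v (-a) 1)) - xv6 (-a) 1 * (16 * ((611 / 100000) +
        (507 / 500) * e) * a)) / dV a ≤
      1 / 10 ∧
    (a ≤ 1 / 32 → -(67 / 100 - 3 * e) ≤ 5 / 2 * ((2 * bL' e 1 e (2 / 3 * x3v (-a) 1) -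
      aL' e 1 e (2 / 3 * x3v (-a) 1)) -
        xv6 (-a) 1 * (16 * ((611 / 100000) + (507 / 500) * e) * a)) / dV a) := by
  obtain ⟨T, S1, S2, S3, S4, S5, hS, T0, T1, T2, s5, s4, s3, s2, s0, u1, v1, D1, e2, e3, e4, e5⟩ :=
    v3_data he he1 h
  obtain ⟨w1, w2⟩ := v6_bd he h
  obtain ⟨p1, p2, p3, p4, p5⟩ := M_lo he he1
  have a0 := h.a0
  have a1 := h.a1
  have dp := h.dp
  have c0 : 0 ≤ (611 / 100000) + (507 / 500) * e := by linarith
  have D0 : 0 ≤ 17319 / 10000 * T - 3 / 2 * T ^ 2 := by nlinarith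
  rw [dL_sq hS]
  generalize hv : xv6 (-a) 1 * (16 * ((611 / 100000) + (507 / 500) * e) * a) = v at *
  obtain ⟨Q, hQ⟩ : ∃ Q, Q = ((-(43361 / 100000)) + (93 / 25) * e) * S1 + ((43849 / 100000) +
    (-(6641 / 200)) * e) * S2 +
    ((-(5323 / 10000)) + (4324 / 125) * e) * S3 + ((-(20713 / 50000)) + (4487 / 500) * e) * S4 +
      ((10927 / 50000) + (-(24141 / 1000)) * e) * S5 := ⟨_, rfl⟩
  rw [← hQ]
  have small : T ≤ 177 / 1000 → 0 ≤ ((66331 / 100000) +
    40 * ((56059 / 100000) - (66331 / 100000)) * e) *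
      (17319 / 10000 * T - 3 / 2 * T ^ 2) + 5 / 2 * Q := by
    intro hT
    rw [hQ]
    rcases le_total T (12 / 100) with h1 | h1
    · exact v3_c1 he he1 T0 h1 s0 s5 s4 s3 s2 u1 e2 e3 e4
    · exact v3_c2 he he1 h1 hT u1 e2 e3 e4 e5
  have gen : 0 ≤ ((118663 / 100000) + 40 * ((45559 / 50000) - (118663 / 100000)) * e) *
      (17319 / 10000 * T - 3 / 2 * T ^ 2) + 5 / 2 * Q := by
    rcases le_total T (176 / 1000) with h1 | h1
    · have k1 := small (by linarith)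
      have k2 := mul_le_mul_of_nonneg_right p3 D0
      linarith
    · rw [hQ]
      exact v3_c3 he he1 h1 T1 (v1 (by linarith)) e2 e3 e4 e5
  have up : Q ≤ 1 / 200 * S1 := by
    have A0 : 0 ≤ 1 / 200 * S1 - ((-(43361 / 100000)) * S1 + (43849 / 100000) * S2 +
      (-(5323 / 10000)) * S3 + (-(20713 / 50000)) * S4 +
      (10927 / 50000) * S5) := by linarith
    have A1 : 0 ≤ 1 / 200 * S1 - ((-(34061 / 100000)) * S1 + (-(78327 / 200000)) * S2 +
      (133 / 400) * S3 + (-(18991 / 100000)) * S4 +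
      (-(76997 / 200000)) * S5) := by linarith
    have := mul_nonneg (by linarith : 0 ≤ 1 - 40 * e) A0
    have := mul_nonneg he.le A1
    rw [hQ]
    linarith
  rw [le_div_iff₀ dp, div_le_iff₀ dp]
  refine ⟨?_, ?_, fun ha => ?_⟩
  · have k1 := mul_le_mul_of_nonneg_left D1 p1
    have k2 := mul_le_mul_of_nonneg_right p4 dp.le
    have k3 : ((611 / 100000) + (507 / 500) * e) * (14 * a) * dV a ≤ ((611 / 100000) +
      (507 / 500) * e) * (7 / 8) * dV a :=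
      mul_le_mul_of_nonneg_right (mul_le_mul_of_nonneg_left (by linarith) c0) dp.le
    linarith
  · have TT : T * T ≤ 1 / 4 * T := mul_le_mul_of_nonneg_right (by linarith) T0.le
    linarith
  · rw [le_div_iff₀ dp]
    have hT : T ≤ 177 / 1000 := by
      by_contra hh
      have := pow_lt_pow_left₀ (not_le.1 hh) (by norm_num : (0 : ℝ) ≤ 177 / 1000) two_ne_zero
      norm_num at this
      linarith
    have k0 := small hT
    have k1 := mul_le_mul_of_nonneg_left D1 p2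
    have k2 := mul_le_mul_of_nonneg_right p5 dp.le
    have k3 : ((611 / 100000) + (507 / 500) * e) * (14 * a) * dV a ≤ ((611 / 100000) +
      (507 / 500) * e) * (7 / 16) * dV a :=
      mul_le_mul_of_nonneg_right (mul_le_mul_of_nonneg_left (by linarith) c0) dp.le
    linarith

theorem l3 (he : 0 < e) (he1 : e ≤ 1 / 40) (h : Vt a) :
    LAM e * (-(1 / 5) + 44 / 5 * e) ≤ lsl e (sV3 e (-a)) ∧
      lsl e (sV3 e (-a)) ≤ LAM e * (11 / 10) ∧
      (a ≤ 1 / 32 → LAM e * (33 / 100 + 3 * e) ≤ lsl e (sV3 e (-a))) := by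
  obtain ⟨q1', q2', q3'⟩ := v3_lo he he1 h
  have L0 := L_nn he he1
  rw [lV3_eq v6_eq]
  refine ⟨mul_le_mul_of_nonneg_left ?_ L0, mul_le_mul_of_nonneg_left ?_ L0,
    fun ha => mul_le_mul_of_nonneg_left ?_ L0⟩
  · linarith
  · linarith
  · linarith [q3' ha]

end

end Pool.Agent.Strip051.LC.E1
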