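import Pool.Agent.Strip051.LC.E1.VcA
import Pool.Agent.Strip051.LC.E1.VertL

/-! # Rests near the full period: the increments of the levels of the unit circle -/

namespace Pool.Agent.Strip051.LC.E1

open Pool.Agent.StripNear Pool.Agent.StripSquare Pool.Agent.Strip051 Pool.Agent.Strip051.Sweep
open Pool.Agent.Strip051.PB
open G

section

variable {e t t' : ℝ}

/-- The increments of the squares of the hinges are ordered. -/
theorem phi_mono {k k' T T' : ℝ} (hk : k ≤ k') (hk1 : k' ≤ 1 / 8) (h : T ≤ T')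
    (hT : T' ≤ 1 / 8) (hk0 : 0 ≤ k) :
    (hg (T' - k') / (1 / 2 - k')) ^ 2 - (hg (T - k') / (1 / 2 - k')) ^ 2 ≤
      (hg (T' - k) / (1 / 2 - k)) ^ 2 - (hg (T - k) / (1 / 2 - k)) ^ 2 := by
  rw [div_pow, div_pow, div_pow, div_pow, ← sub_div, ← sub_div,
    div_le_div_iff₀ (by nlinarith) (by nlinarith)]
  have n0 : 0 < 1 / 2 - k' := by linarith
  have key : (T' - k') * ((1 / 2 - k) ^ 2 - (1 / 2 - k') ^ 2) ≤ (k' - k) * (1 / 2 - k') ^ 2 := by
    have e1 : (T' - k') * ((1 / 2 - k) ^ 2 - (1 / 2 - k') ^ 2) =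
        (k' - k) * ((T' - k') * (1 - k - k')) := by ring
    rw [e1]
    refine mul_le_mul_of_nonneg_left ?_ (by linarith)
    rcases le_total T' k' with h1 | h1
    · nlinarith [mul_nonneg (by linarith : 0 ≤ k' - T') (by linarith : 0 ≤ 1 - k - k')]
    · nlinarith [mul_nonneg (by linarith : 0 ≤ T' - k') (by linarith : 0 ≤ k + k')]
  rcases le_total T' k' with h1 | h1
  · rw [hg_np (x := T' - k') (by linarith), hg_np (x := T - k') (by linarith)]
    have m : hg (T - k) ≤ hg (T' - k) := hg_of (by linarith [@hg_le (T' - k)]) (hg_nn _)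
    have m2 : hg (T - k) ^ 2 ≤ hg (T' - k) ^ 2 := pow_le_pow_left₀ (hg_nn _) m 2
    have : 0 ≤ (hg (T' - k) ^ 2 - hg (T - k) ^ 2) * (1 / 2 - k') ^ 2 :=
      mul_nonneg (by linarith) (sq_nonneg _)
    nlinarith
  rw [hg_1 (x := T' - k') (by linarith), hg_1 (x := T' - k) (by linarith)]
  rcases le_total T k' with h2 | h2
  · rw [hg_np (x := T - k') (by linarith)]
    have m : hg (T - k) ≤ k' - k := hg_of (by linarith) (by linarith)
    have m2 : hg (T - k) ^ 2 ≤ (k' - k) ^ 2 := pow_le_pow_left₀ (hg_nn _) m 2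
    have k1 : (T' - k') * (T' + k' - 2 * k) * (1 / 2 - k') ^ 2 ≤
        ((T' - k) ^ 2 - hg (T - k) ^ 2) * (1 / 2 - k') ^ 2 :=
      mul_le_mul_of_nonneg_right (by nlinarith) (sq_nonneg _)
    have k2 := mul_le_mul_of_nonneg_left key (by linarith : 0 ≤ T' - k')
    have k3 : 0 ≤ (T' - k') * ((k' - k) * (1 / 2 - k') ^ 2) :=
      mul_nonneg (by linarith) (mul_nonneg (by linarith) (sq_nonneg _))
    nlinarith
  · rw [hg_1 (x := T - k') (by linarith), hg_1 (x := T - k) (by linarith)]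
    have k2 := mul_le_mul_of_nonneg_left key (by linarith : 0 ≤ T' - T)
    have k3 : (T' - T) * ((T - k') * ((1 / 2 - k) ^ 2 - (1 / 2 - k') ^ 2)) ≤
        (T' - T) * ((T' - k') * ((1 / 2 - k) ^ 2 - (1 / 2 - k') ^ 2)) :=
      mul_le_mul_of_nonneg_left (mul_le_mul_of_nonneg_right (by linarith) (by nlinarith))
        (by linarith)
    nlinarith

/-- The increments of the square of a hinge. -/
theorem phi_lip {k T T' c : ℝ} (hk : k ≤ 1219 / 10000) (h : T ≤ T')
    (hT : T' ≤ 1219 / 10000) (hc : 2 * (1219 / 10000 - k) ≤ c * (1 / 2 - k) ^ 2) :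
    0 ≤ (hg (T' - k) / (1 / 2 - k)) ^ 2 - (hg (T - k) / (1 / 2 - k)) ^ 2 ∧
    (hg (T' - k) / (1 / 2 - k)) ^ 2 - (hg (T - k) / (1 / 2 - k)) ^ 2 ≤ c * (T' - T) := by
  have n0 : 0 < 1 / 2 - k := by linarith
  have m : hg (T - k) ≤ hg (T' - k) := hg_of (by linarith [@hg_le (T' - k)]) (hg_nn _)
  have m1 : hg (T' - k) ≤ 1219 / 10000 - k := hg_of (by linarith) (by linarith)
  have m0 := hg_nn (T - k)
  have md : hg (T' - k) - hg (T - k) ≤ T' - T := by
    have : hg (T' - k) ≤ hg (T - k) + (T' - T) :=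
      hg_of (by linarith [@hg_le (T - k)]) (by linarith)
    linarith
  rw [div_pow, div_pow, ← sub_div]
  have n2 : 0 < (1 / 2 - k) ^ 2 := by positivity
  have e : hg (T' - k) ^ 2 - hg (T - k) ^ 2 =
    (hg (T' - k) - hg (T - k)) * (hg (T' - k) + hg (T - k)) := by ring
  rw [e]
  constructor
  · exact div_nonneg (mul_nonneg (by linarith) (by linarith)) n2.le
  · rw [div_le_iff₀ n2]
    have k1 : (hg (T' - k) - hg (T - k)) * (hg (T' - k) + hg (T - k)) ≤
        (T' - T) * (2 * (1219 / 10000 - k)) :=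
      mul_le_mul md (by linarith) (by linarith) (by linarith)
    have k2 := mul_le_mul_of_nonneg_left hc (by linarith : 0 ≤ T' - T)
    linarith

/-- The first hinge in the other form. -/
theorem Sq.f1 {S1 S2 S3 S4 S5 : ℝ} (h : Sq e t S1 S2 S3 S4 S5) :
    S1 = (hg (Real.sqrt 3 / 2 * t - 167 / 50 * (Real.sqrt 3 / 2 * e)) /
      (1 / 2 - 167 / 50 * (Real.sqrt 3 / 2 * e))) ^ 2 := by
  have a1 := h3_lo
  obtain ⟨H, hH⟩ : ∃ H, H = Real.sqrt 3 / 2 := ⟨_, rfl⟩
  have e1 := h.e1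
  rw [← hH] at a1 e1 ⊢
  have e1' : H * hg (t - 167 / 50 * e) = hg (H * t - 167 / 50 * (H * e)) := by
    unfold hg
    rw [mul_max_of_nonneg _ _ (by linarith : 0 ≤ H), mul_zero]
    congr 1
    ring
  rw [e1, e1']
  congr 2
  ring

/-- The increments of the squares. -/
theorem sq_dd {S1 S2 S3 S4 S5 R1 R2 R3 R4 R5 : ℝ} (he : 0 < e) (he1 : e ≤ 1 / 40)
    (ht0 : 0 ≤ t) (ht : t ≤ t') (ht1 : t' ≤ 1407 / 10000) (h : Sq e t' S1 S2 S3 S4 S5)
    (h' : Sq e t R1 R2 R3 R4 R5) :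
    0 ≤ S4 - R4 ∧ S4 - R4 ≤ S3 - R3 ∧ S3 - R3 ≤ S2 - R2 ∧ S2 - R2 ≤ S1 - R1 ∧
      S1 - R1 ≤ 8447 / 10000 * (t' - t) ∧ S2 - R2 ≤ 4683 / 10000 * (t' - t) ∧
      S3 - R3 ≤ 3288 / 10000 * (t' - t) ∧ S4 - R4 ≤ 229 / 10000 * (t' - t) := by
  have a1 := h3_lo
  have a2 := h3_up
  have f1 := h.f1
  have f1' := h'.f1
  have f2 := h.e2
  have f2' := h'.e2
  have f3 := h.e3
  have f3' := h'.e3
  have f4 := h.e4
  have f4' := h'.e4
  obtain ⟨H, hH⟩ : ∃ H, H = Real.sqrt 3 / 2 := ⟨_, rfl⟩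
  rw [← hH] at a1 a2 f1 f1' f2 f2' f3 f3' f4 f4'
  have T0 : H * t ≤ H * t' := mul_le_mul_of_nonneg_left ht (by linarith)
  have T1 : H * t' ≤ 1219 / 10000 := by
    have : H * t' ≤ 8661 / 10000 * (1407 / 10000) := mul_le_mul a2 ht1 (by linarith) (by norm_num)
    linarith
  have Td : H * t' - H * t ≤ 8661 / 10000 * (t' - t) := by
    have : H * (t' - t) ≤ 8661 / 10000 * (t' - t) := mul_le_mul_of_nonneg_right a2 (by linarith)
    linarith
  have He : H * e ≤ 8661 / 10000 * (1 / 40) := mul_le_mul a2 he1 he.le (by norm_num)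
  have He0 : 0 < H * e := mul_pos (by linarith) he
  have n2 : (1 / 2 - 29 / 400 : ℝ) = 171 / 400 := by norm_num
  have n3 : (1 / 2 - 9 / 100 : ℝ) = 41 / 100 := by norm_num
  have n4 : (1 / 2 - 3 / 25 : ℝ) = 19 / 50 := by norm_num
  rw [mul_one] at f2 f2' f3 f3' f4 f4'
  rw [← n2] at f2 f2'
  rw [← n3] at f3 f3'
  rw [← n4] at f4 f4'
  have m1 := phi_mono (k := 167 / 50 * (H * e)) (k' := 29 / 400) (T := H * t) (T' := H * t')
    (by linarith) (by norm_num) T0 (by linarith) (by linarith)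
  have m2 := phi_mono (k := 29 / 400) (k' := 9 / 100) (T := H * t) (T' := H * t')
    (by norm_num) (by norm_num) T0 (by linarith) (by norm_num)
  have m3 := phi_mono (k := 9 / 100) (k' := 3 / 25) (T := H * t) (T' := H * t')
    (by norm_num) (by norm_num) T0 (by linarith) (by norm_num)
  obtain ⟨-, l1⟩ := phi_lip (k := 167 / 50 * (H * e)) (T := H * t) (T' := H * t')
    (c := 9752 / 10000) (by linarith) T0 T1 (by nlinarith)
  obtain ⟨-, l2⟩ := phi_lip (k := 29 / 400) (T := H * t) (T' := H * t')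
    (c := 54062 / 100000) (by norm_num) T0 T1 (by norm_num)
  obtain ⟨-, l3⟩ := phi_lip (k := 9 / 100) (T := H * t) (T' := H * t')
    (c := 37955 / 100000) (by norm_num) T0 T1 (by norm_num)
  obtain ⟨l4', l4⟩ := phi_lip (k := 3 / 25) (T := H * t) (T' := H * t')
    (c := 264 / 10000) (by norm_num) T0 T1 (by norm_num)
  rw [← f1, ← f1', ← f2, ← f2'] at m1
  rw [← f2, ← f2', ← f3, ← f3'] at m2
  rw [← f3, ← f3', ← f4, ← f4'] at m3
  rw [← f1, ← f1'] at l1
  rw [← f2, ← f2'] at l2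
  rw [← f3, ← f3'] at l3
  rw [← f4, ← f4'] at l4 l4'
  refine ⟨l4', m3, m2, m1, ?_, ?_, ?_, ?_⟩ <;> linarith

/-- The increments of the second level function. -/
theorem bL_inc (he : 0 < e) (he1 : e ≤ 1 / 40) (ht0 : 0 ≤ t) (ht : t ≤ t')
    (ht1 : t' ≤ 1407 / 10000) :
    -((2 / 100 + 124 / 10 * e) * (t' - t)) ≤ bL e 1 e t' - bL e 1 e t ∧
      bL e 1 e t' - bL e 1 e t ≤ (32 / 100 - 672 / 100 * e) * (t' - t) := by
  obtain ⟨S1, S2, S3, S4, S5, h⟩ := sq_ex he he1 (ht0.trans ht) (by linarith)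
  obtain ⟨R1, R2, R3, R4, R5, h'⟩ := sq_ex he he1 ht0 (by linarith)
  obtain ⟨x4, x3, x2, x1, l1, l2, l3, l4⟩ := sq_dd he he1 ht0 ht ht1 h h'
  rw [bL_sq h, bL_sq h']
  constructor
  · have A0 : 0 ≤ (2661 / 12500) * (S1 - R1) + (14331 / 50000) * (S2 - R2) +
    (-(13849 / 25000)) * (S3 - R3) + (5519 / 50000) * (S4 - R4) +
        2 / 100 * (t' - t) := by linarith
    have A1 : 0 ≤ (-(1739 / 200000)) * (S1 - R1) + (-(137421 / 200000)) * (S2 - R2) +
      (114479 / 100000) * (S3 - R3) + (-(107889 / 200000)) * (S4 - R4) +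
        33 / 100 * (t' - t) := by linarith
    have := mul_nonneg (by linarith : 0 ≤ 1 - 40 * e) A0
    have := mul_nonneg he.le A1
    linarith
  · have A0 : 0 ≤ 32 / 100 * (t' - t) - ((2661 / 12500) * (S1 - R1) + (14331 / 50000) * (S2 - R2) +
        (-(13849 / 25000)) * (S3 - R3) + (5519 / 50000) * (S4 - R4)) := by linarith
    have A1 : 0 ≤ 152 / 1000 * (t' - t) - ((-(1739 / 200000)) * (S1 - R1) +
      (-(137421 / 200000)) * (S2 - R2) +
        (114479 / 100000) * (S3 - R3) + (-(107889 / 200000)) * (S4 - R4)) := by linarith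
    have := mul_nonneg (by linarith : 0 ≤ 1 - 40 * e) A0
    have := mul_nonneg he.le A1
    linarith

/-- The increments of the level of the unit circle above `h0`. -/
theorem gL_inc (he : 0 < e) (he1 : e ≤ 1 / 40) (ht0 : 0 ≤ t) (ht : t ≤ t')
    (ht1 : t' ≤ 1407 / 10000) :
    0 ≤ (aL e 1 e t' - bL e 1 e t') - (aL e 1 e t - bL e 1 e t) ∧
      (aL e 1 e t' - bL e 1 e t') - (aL e 1 e t - bL e 1 e t) ≤
        (555 / 1000 - 416 / 100 * e) * (t' - t) := by
  obtain ⟨S1, S2, S3, S4, S5, h⟩ := sq_ex he he1 (ht0.trans ht) (by linarith)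
  obtain ⟨R1, R2, R3, R4, R5, h'⟩ := sq_ex he he1 ht0 (by linarith)
  obtain ⟨x4, x3, x2, x1, l1, l2, l3, l4⟩ := sq_dd he he1 ht0 ht ht1 h h'
  rw [bL_sq h, bL_sq h', aL_sq h, aL_sq h']
  constructor
  · have A0 : 0 ≤ (64649 / 100000) * (S1 - R1) + (-(15187 / 100000)) * (S2 - R2) +
    (-(1083 / 50000)) * (S3 - R3) +
        (3279 / 6250) * (S4 - R4) := by linarith
    have A1 : 0 ≤ (66383 / 200000) * (S1 - R1) + (-(29547 / 100000)) * (S2 - R2) +
      (81229 / 100000) * (S3 - R3) +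
        (-(69907 / 200000)) * (S4 - R4) := by linarith
    have := mul_nonneg (by linarith : 0 ≤ 1 - 40 * e) A0
    have := mul_nonneg he.le A1
    linarith
  · have A0 : 0 ≤ 555 / 1000 * (t' - t) - ((64649 / 100000) * (S1 - R1) +
    (-(15187 / 100000)) * (S2 - R2) +
        (-(1083 / 50000)) * (S3 - R3) + (3279 / 6250) * (S4 - R4)) := by linarith
    have A1 : 0 ≤ 451 / 1000 * (t' - t) - ((66383 / 200000) * (S1 - R1) +
      (-(29547 / 100000)) * (S2 - R2) +
        (81229 / 100000) * (S3 - R3) + (-(69907 / 200000)) * (S4 - R4)) := by linarith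
    have := mul_nonneg (by linarith : 0 ≤ 1 - 40 * e) A0
    have := mul_nonneg he.le A1
    linarith

/-- The level of the unit circle above `h0`. -/
theorem gL_up (he : 0 < e) (he1 : e ≤ 1 / 40) (ht : 0 ≤ t) (ht1 : t ≤ 1407 / 10000) :
    0 ≤ aL e 1 e t - bL e 1 e t ∧
      aL e 1 e t - bL e 1 e t ≤ (28 / 100 - 46 / 10 * e) * t := by
  obtain ⟨S1, S2, S3, S4, S5, h⟩ := sq_ex he he1 ht (by linarith)
  obtain ⟨m4, m3, m2, m1, m0⟩ := h.mono he he1 ht (by linarith)
  rw [bL_sq h, aL_sq h]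
  have u1 := h.u1
  have t2 : t ^ 2 ≤ 1407 / 10000 * t := by nlinarith
  have u3 : S3 ≤ 433 / 10000 * t := by
    rw [h.e3]
    refine (hsq_ch (t1 := 1407 / 10000) (m := 319 / 10000) (by norm_num) (by norm_num)
      (by norm_num) (by norm_num) ht ht1 (by norm_num)).trans ?_
    have : (319 / 10000 : ℝ) ^ 2 / (1407 / 10000 * (41 / 100) ^ 2) ≤ 433 / 10000 := by norm_num
    exact mul_le_mul_of_nonneg_right this ht
  have u4 : S4 ≤ 1 / 5000 * t := by
    rw [h.e4]
    refine (hsq_ch (t1 := 1407 / 10000) (m := 19 / 10000) (by norm_num) (by norm_num)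
      (by norm_num) (by norm_num) ht ht1 (by norm_num)).trans ?_
    have : (19 / 10000 : ℝ) ^ 2 / (1407 / 10000 * (19 / 50) ^ 2) ≤ 1 / 5000 := by norm_num
    exact mul_le_mul_of_nonneg_right this ht
  constructor
  · have A0 : 0 ≤ (64649 / 100000) * S1 + (-(15187 / 100000)) * S2 + (-(1083 / 50000)) * S3 +
    (3279 / 6250) * S4 := by linarith
    have A1 : 0 ≤ (66383 / 200000) * S1 + (-(29547 / 100000)) * S2 + (81229 / 100000) * S3 +
      (-(69907 / 200000)) * S4 := by linarith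
    have := mul_nonneg (by linarith : 0 ≤ 1 - 40 * e) A0
    have := mul_nonneg he.le A1
    linarith
  · have A0 : 0 ≤ 28 / 100 * t - ((64649 / 100000) * S1 + (-(15187 / 100000)) * S2 +
    (-(1083 / 50000)) * S3 + (3279 / 6250) * S4) := by
      linarith
    have A1 : 0 ≤ 165 / 1000 * t - ((66383 / 200000) * S1 + (-(29547 / 100000)) * S2 +
      (81229 / 100000) * S3 + (-(69907 / 200000)) * S4) := by
      linarith
    have := mul_nonneg (by linarith : 0 ≤ 1 - 40 * e) A0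
    have := mul_nonneg he.le A1
    linarith

/-- The level of the unit circle below `h0` from below. -/
theorem bL_lo (he : 0 < e) (he1 : e ≤ 1 / 40) (ht : 0 ≤ t) (ht1 : t ≤ 1407 / 10000) :
    -(1 / 5 * t ^ 2) ≤ bL e 1 e t := by
  obtain ⟨S1, S2, S3, S4, S5, h⟩ := sq_ex he he1 ht (by linarith)
  obtain ⟨m4, m3, m2, m1, m0⟩ := h.mono he he1 ht (by linarith)
  rw [bL_sq h]
  have u1 := h.u1
  have f2 := h.e2
  have f3 := h.e3
  have f4 := h.e4
  have a1 := h3_lo
  have a2 := h3_up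
  have a3 : (Real.sqrt 3 / 2) ^ 2 = 3 / 4 := by
    rw [div_pow, Real.sq_sqrt (by norm_num)]
    norm_num
  obtain ⟨T, hT⟩ : ∃ T, T = Real.sqrt 3 / 2 * t := ⟨_, rfl⟩
  have T2 : T ^ 2 = 3 / 4 * t ^ 2 := by rw [hT, mul_pow, a3]
  have T0 : 0 ≤ T := by rw [hT]; exact mul_nonneg (by linarith) ht
  have T1 : T ≤ 1219 / 10000 := by
    rw [hT]
    have : Real.sqrt 3 / 2 * t ≤ 8661 / 10000 * (1407 / 10000) :=
      mul_le_mul a2 ht1 ht (by norm_num)
    linarith
  rw [← hT, mul_one] at f2 f3 f4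
  have v3 : S3 ≤ 42 / 100 * T ^ 2 := by
    have k : hg (T - 9 / 100) / (41 / 100) ≤ 64 / 100 * T := by
      rw [div_le_iff₀ (by norm_num)]
      exact hg_of (by linarith) (by positivity)
    have := pow_le_pow_left₀ (div_nonneg (hg_nn _) (by norm_num)) k 2
    rw [← f3, mul_pow] at this
    nlinarith [sq_nonneg T]
  have v4 : S4 ≤ 2 / 1000 * T ^ 2 := by
    have k : hg (T - 3 / 25) / (19 / 50) ≤ 42 / 1000 * T := by
      rw [div_le_iff₀ (by norm_num)]
      exact hg_of (by linarith) (by positivity)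
    have := pow_le_pow_left₀ (div_nonneg (hg_nn _) (by norm_num)) k 2
    rw [← f4, mul_pow] at this
    nlinarith [sq_nonneg T]
  have A0 : 0 ≤ (2661 / 12500) * S1 + (14331 / 50000) * S2 + (-(13849 / 25000)) * S3 +
    (5519 / 50000) * S4 + 1 / 5 * t ^ 2 := by
    linarith
  have A1 : 0 ≤ (-(1739 / 200000)) * S1 + (-(137421 / 200000)) * S2 + (114479 / 100000) * S3 +
    (-(107889 / 200000)) * S4 + 1 / 5 * t ^ 2 := by
    rcases le_total T (9 / 100) with h9 | h9
    · have z3 : S3 = 0 := by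
        rw [f3, hg_np (by linarith)]
        norm_num
      have z4 : S4 = 0 := by linarith
      have v2 : S2 ≤ 21 / 100 * T ^ 2 := by
        have k : hg (T - 29 / 400) / (171 / 400) ≤ 4549 / 10000 * T := by
          rw [div_le_iff₀ (by norm_num)]
          exact hg_of (by linarith) (by positivity)
        have := pow_le_pow_left₀ (div_nonneg (hg_nn _) (by norm_num)) k 2
        rw [← f2, mul_pow] at this
        nlinarith [sq_nonneg T]
      rw [z3, z4]
      linarith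
    · have g2 : S2 = ((T - 29 / 400) / (171 / 400)) ^ 2 := by rw [f2, hg_1 (by linarith)]
      have g3 : S3 = ((T - 9 / 100) / (41 / 100)) ^ 2 := by rw [f3, hg_1 (by linarith)]
      rw [g2, g3]
      have := sq_nonneg (T - 1038 / 10000)
      nlinarith
  have := mul_nonneg (by linarith : 0 ≤ 1 - 40 * e) A0
  have := mul_nonneg he.le A1
  linarith

end

end Pool.Agent.Strip051.LC.E1
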