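import Pool.Agent.Strip051.LC.E1.Hom
import Pool.Agent.Strip051.LC.E1.RowT

/-! # Rests near the full period: the rows of the vertical window in the unit scale -/

namespace Pool.Agent.Strip051.LC.E1

open Pool.Agent.StripNear Pool.Agent.StripSquare Pool.Agent.Strip051 Pool.Agent.Strip051.Sweep
open Pool.Agent.Strip051.PB
open Pool.Agent.Strip051.LC.E0.G (xi1)
open G

section

variable {r lam a b l n gam del nu base lev w z : ℝ}

theorem e_q1 {e : ℝ} (he : 0 ≤ e) (he1 : e ≤ 1) : e * q1 e = 1 - eh e := by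
  have := one_sub_eh he he1
  linarith

/-- The two crude slacks in the unit scale. -/
theorem slk_one (hr : 0 < r) (he : 0 < lam * r) (he1 : lam * r < 1) (A : 0 ≤ a) (B : 0 ≤ b)
    (L : 0 < l) (L1 : r * l < 1) {M D : ℝ} (hM : M = r * n + r ^ 2 * gam) (hD : D = r * del)
    (h : r ^ 2 * lev + eh (lam * r) * max M 0 +
      lam * r * eh (lam * r) * (|D| * (1 - r * l) + max (-M) 0) / (1 - lam * r) ≤
        r * nu + r * n + r ^ 2 * base) : SlkS r lam a b l n gam del nu base lev := by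
  have e1 : |D| = r * |del| := by rw [hD, abs_mul, abs_of_pos hr]
  have e2 : M = r * (n + r * gam) := by rw [hM]; ring
  have hq := e_q1 he.le he1.le
  have h1 : (1 - lam * r) ≠ 0 := by linarith
  have r2 : 0 < r ^ 2 := by positivity
  rcases le_total 0 M with m | m
  · have k : 0 ≤ n + r * gam := by
      rw [e2] at m
      exact nonneg_of_mul_nonneg_right m hr
    refine Or.inr (Or.inr (Or.inl ⟨⟨A, B, L, L1, k⟩, ?_⟩))
    rw [max_eq_left m, max_eq_right (by linarith), e1] at h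
    have e : r ^ 2 * FcS r lam l n gam del nu base lev = r * nu + r * n + r ^ 2 * base -
        (r ^ 2 * lev + eh (lam * r) * M +
          lam * r * eh (lam * r) * (r * |del| * (1 - r * l) + 0) / (1 - lam * r)) := by
      unfold FcS
      rw [hM]
      have e3 : r ^ 2 * (nu / r) = r * nu := by field_simp
      rw [div_eq_mul_inv _ (1 - lam * r), div_eq_mul_inv _ (1 - lam * r)]
      linear_combination e3 + r * n * hq
    exact nonneg_of_mul_nonneg_right (by rw [e]; linarith) r2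
  · have k : n + r * gam ≤ 0 := by
      rw [e2] at m
      by_contra hh
      have := mul_pos hr (not_le.1 hh)
      linarith
    refine Or.inr (Or.inr (Or.inr ⟨⟨A, B, L, L1, k⟩, ?_⟩))
    rw [max_eq_right m, max_eq_left (by linarith), e1] at h
    have e : r ^ 2 * FnS r lam l n gam del nu base lev = r * nu + r * n + r ^ 2 * base -
        (r ^ 2 * lev + eh (lam * r) * 0 +
          lam * r * eh (lam * r) * (r * |del| * (1 - r * l) + -M) / (1 - lam * r)) := by
      unfold FnS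
      rw [hM]
      have e3 : r ^ 2 * ((nu + n) / r) = r * (nu + n) := by field_simp
      rw [div_eq_mul_inv _ (1 - lam * r), div_eq_mul_inv _ (1 - lam * r)]
      linear_combination e3
    exact nonneg_of_mul_nonneg_right (by rw [e]; linarith) r2

theorem Sv.c_sc (s : Sv) (hr : 0 < r) : (s.sc r).c 1 = r ^ 2 * s.c r := by
  unfold Sv.c Sv.sc
  simp only
  field_simp

variable {a1 z1 p q X d xi M D L : ℝ} {A B C : Sv}

/-- The row at the far vertex. -/
theorem rowV_far (hr : 0 < r) (he : 0 < lam * r) (he1 : lam * r < 1) (w0 : w < 0) (z0 : 0 ≤ z)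
    (wz : w + z ≤ 0) (ha : a1 = -(r * w)) (hz : z1 = r * z) (a16 : a1 ≤ 1 / 16)
    (hp : p = 1 / 2 + xi1 (-a1) 1) (hq : q = 1 / 2 + xi1 z1 1) (hX : X = r * xi)
    (hM : M = (a1 - z1) * (1 / 2 + (B.sc r).k) - z1 * (C.sc r).k)
    (hD : D = (B.sc r).k + (C.sc r).k - (A.sc r).k)
    (hL : L = (A.sc r).c 1 - (B.sc r).c 1 - (C.sc r).c 1)
    {N : ℝ} (hN : 2 * (r * N) = p - q - X)
    (h : |L| / 2 + eh (lam * r) * max M 0 +
      lam * r * eh (lam * r) * (|D| * (1 - a1) + max (-M) 0) / (1 - lam * r) ≤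
        (p * (2 - (a1 - z1)) - X * (1 - a1) - 1) / 2) :
    RowV .far .npn r lam w z xi N A (-B) C := by
  have zz : z1 ≤ a1 := by
    rw [ha, hz]
    nlinarith
  have hx : xi1 (-a1) 1 = r * xi1 w r := by
    rw [ha, neg_neg, xi1_h]
  have hy : xi1 z1 1 = r * xi1 z r := by
    rw [hz, xi1_h]
  have x1 := xi1_xs (z := w) (r := r) (by linarith) (by nlinarith)
  have x2' := xi1_xs (z := z) (r := r) (by nlinarith) (by linarith)
  have hB : (-B).k = -B.k := rfl
  have g0 : BV.g w z = (w + z) / 2 := by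
    show z * (1 / 2) - w * (0 - 1 / 2) = _
    ring
  have l1 : r ^ 2 * |A.c r + (-B).c r - C.c r| = |L| := by
    rw [hL, Sv.c_sc _ hr, Sv.c_sc _ hr, Sv.c_sc _ hr, Sv.c_neg,
      show r ^ 2 * A.c r - r ^ 2 * B.c r - r ^ 2 * C.c r =
        r ^ 2 * (A.c r + -B.c r - C.c r) by ring, abs_mul, abs_of_pos (by positivity : 0 < r ^ 2)]
  show SlkS r lam z (-(w + z)) (-w) (-(BV.g w z)) ((w + z) * (-B).k - z * C.k)
    (-(A.k + (-B).k - C.k)) N ((x2 w r + x2 z r) / 2 + ((w + z) * xi1 w r - w * xi) / 2)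
    (|A.c r + (-B).c r - C.c r| / 2)
  have el : 1 - r * -w = 1 - a1 := by rw [ha]; ring
  refine slk_one (M := M) (D := D) hr he he1 z0 (by linarith) (by linarith) (by linarith) ?_ ?_ ?_
  · rw [hM, g0, hB, ha, hz]
    show (-(r * w) - r * z) * (1 / 2 + r * B.k) - r * z * (r * C.k) = _
    ring
  · rw [hD, hB]
    show r * B.k + r * C.k - r * A.k = _
    ring
  · rw [el]
    have e1 : r * N + r * -(BV.g w z) +
        r ^ 2 * ((x2 w r + x2 z r) / 2 + ((w + z) * xi1 w r - w * xi) / 2) =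
        (p * (2 - (a1 - z1)) - X * (1 - a1) - 1) / 2 := by
      rw [g0]
      rw [hx] at hp
      rw [hy] at hq
      rw [hp, hq] at hN
      rw [hp, hX, ha, hz] at *
      linear_combination (1 / 2) * hN - r / 2 * x1 - r / 2 * x2'
    rw [e1]
    have e2 : r ^ 2 * (|A.c r + (-B).c r - C.c r| / 2) = |L| / 2 := by
      rw [← l1]
      ring
    rw [e2]
    exact h

/-- The row at the near vertex. -/
theorem rowV_near (hr : 0 < r) (he : 0 < lam * r) (he1 : lam * r < 1) (w0 : w < 0) (z0 : 0 ≤ z)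
    (wz : w + z ≤ 0) (ha : a1 = -(r * w)) (hz : z1 = r * z) (a16 : a1 ≤ 1 / 16)
    (hp : p = 1 / 2 + xi1 (-a1) 1) (hq : q = 1 / 2 + xi1 z1 1) (hX : X = r * xi)
    (hM : M = (a1 - z1) * (be (lam * r) / 2 + nk (lam * r) (B.sc r).k (B.sc r).b) -
      z1 * nk (lam * r) (C.sc r).k (C.sc r).b)
    (hD : D = nk (lam * r) (B.sc r).k (B.sc r).b + nk (lam * r) (C.sc r).k (C.sc r).b -
      nk (lam * r) (A.sc r).k (A.sc r).b)
    (hL : L = (A.sc r).c 1 - (B.sc r).c 1 - (C.sc r).c 1)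
    {N : ℝ} (hN : 2 * (r * N) = p - q - X)
    (h : G.mu (lam * r) * ((2 - lam * r + (a1 - z1)) / 2 * |L| -
        ((1 + z1) * (A.sc r).c 1 + (1 - a1) * (B.sc r).c 1) / 2) + eh (lam * r) * max M 0 +
      lam * r * eh (lam * r) * (|D| * (1 - a1) + max (-M) 0) / (1 - lam * r) ≤
        (1 + LAM (lam * r) * G.mu (lam * r)) * ((p * (2 - (a1 - z1)) - X * (1 - a1) - 1) / 2) +
          G.mu (lam * r) * LAM (lam * r) * (a1 - z1) / 4) :
    RowV .near .npn r lam w z xi N A (-B) C := by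
  have zz : z1 ≤ a1 := by
    rw [ha, hz]
    nlinarith
  have hx : xi1 (-a1) 1 = r * xi1 w r := by
    rw [ha, neg_neg, xi1_h]
  have hy : xi1 z1 1 = r * xi1 z r := by
    rw [hz, xi1_h]
  have x1 := xi1_xs (z := w) (r := r) (by linarith) (by nlinarith)
  have x2' := xi1_xs (z := z) (r := r) (by nlinarith) (by linarith)
  have hB : nk (lam * r) (-B).k (-B).b = -nk (lam * r) B.k B.b := nk_neg _ _ _
  have nr : ∀ s : Sv, nk (lam * r) (s.sc r).k (s.sc r).b = r * nk (lam * r) s.k s.b := by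
    intro s
    show (1 + LAM (lam * r) * G.mu (lam * r)) * (r * s.k) + G.mu (lam * r) * (r * s.b) =
      r * ((1 + LAM (lam * r) * G.mu (lam * r)) * s.k + G.mu (lam * r) * s.b)
    ring
  have g0 : BV.g w z = (w + z) / 2 := by
    show z * (1 / 2) - w * (0 - 1 / 2) = _
    ring
  have l1 : r ^ 2 * |A.c r + (-B).c r - C.c r| = |L| := by
    rw [hL, Sv.c_sc _ hr, Sv.c_sc _ hr, Sv.c_sc _ hr, Sv.c_neg,
      show r ^ 2 * A.c r - r ^ 2 * B.c r - r ^ 2 * C.c r =
        r ^ 2 * (A.c r + -B.c r - C.c r) by ring, abs_mul, abs_of_pos (by positivity : 0 < r ^ 2)]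
  show SlkS r lam z (-(w + z)) (-w) (-(be (lam * r) * BV.g w z))
    ((w + z) * nk (lam * r) (-B).k (-B).b - z * nk (lam * r) C.k C.b)
    (-(nk (lam * r) A.k A.b + nk (lam * r) (-B).k (-B).b - nk (lam * r) C.k C.b))
    ((1 + LAM (lam * r) * G.mu (lam * r)) * N)
    ((1 + LAM (lam * r) * G.mu (lam * r)) *
      ((x2 w r + x2 z r) / 2 + ((w + z) * xi1 w r - w * xi) / 2) +
        G.mu (lam * r) * LAM (lam * r) * lam * q1 (lam * r) / (2 * eh (lam * r)) * BV.g w z)
    (-(G.mu (lam * r) * (((1 + r * z) * A.c r - (1 + r * w) * (-B).c r) / 2 -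
      (4 - lam * r - (1 + 1) - r * (w + z)) / 2 * |A.c r + (-B).c r - C.c r|)))
  have el : 1 - r * -w = 1 - a1 := by rw [ha]; ring
  refine slk_one (M := M) (D := D) hr he he1 z0 (by linarith) (by linarith) (by linarith) ?_ ?_ ?_
  · rw [hM, g0, hB, ha, hz, nr, nr]
    ring
  · rw [hD, hB, nr, nr, nr]
    ring
  · rw [el]
    have e0 := e_q1 he.le he1.le
    have E0 := (eh_pos he he1).ne'
    have e1 : r * ((1 + LAM (lam * r) * G.mu (lam * r)) * N) + r * -(be (lam * r) * BV.g w z) +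
        r ^ 2 * ((1 + LAM (lam * r) * G.mu (lam * r)) *
      ((x2 w r + x2 z r) / 2 + ((w + z) * xi1 w r - w * xi) / 2) +
        G.mu (lam * r) * LAM (lam * r) * lam * q1 (lam * r) / (2 * eh (lam * r)) * BV.g w z) =
        (1 + LAM (lam * r) * G.mu (lam * r)) * ((p * (2 - (a1 - z1)) - X * (1 - a1) - 1) / 2) +
          G.mu (lam * r) * LAM (lam * r) * (a1 - z1) / 4 := by
      have e2 : r * (be (lam * r) * BV.g w z) - r ^ 2 * (G.mu (lam * r) * LAM (lam * r) * lam *
          q1 (lam * r) / (2 * eh (lam * r)) * BV.g w z) =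
          (1 + LAM (lam * r) * G.mu (lam * r)) * (r * BV.g w z) +
            G.mu (lam * r) * LAM (lam * r) * (r * BV.g w z) / 2 := by
        unfold be B0
        obtain ⟨E, hE⟩ : ∃ E, E = eh (lam * r) := ⟨_, rfl⟩
        obtain ⟨Q, hQ⟩ : ∃ Q, Q = q1 (lam * r) := ⟨_, rfl⟩
        rw [← hE, ← hQ] at e0 ⊢
        rw [← hE] at E0
        have hI : E * (2 * E)⁻¹ = 1 / 2 := by field_simp
        rw [div_eq_mul_inv _ (2 * E), div_eq_mul_inv _ (2 * E)]
        linear_combination (G.mu (lam * r) * LAM (lam * r) * r * BV.g w z) * hI -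
          (G.mu (lam * r) * LAM (lam * r) * r * BV.g w z * (2 * E)⁻¹) * e0
      rw [g0] at e2 ⊢
      rw [hx] at hp
      rw [hy] at hq
      rw [hp, hq] at hN
      rw [hp, hX, ha, hz] at *
      linear_combination (1 + LAM (lam * r) * G.mu (lam * r)) *
        ((1 / 2) * hN - r / 2 * x1 - r / 2 * x2') - e2
    rw [e1]
    have e2 : r ^ 2 * (-(G.mu (lam * r) * (((1 + r * z) * A.c r - (1 + r * w) * (-B).c r) / 2 -
      (4 - lam * r - (1 + 1) - r * (w + z)) / 2 * |A.c r + (-B).c r - C.c r|))) =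
        G.mu (lam * r) * ((2 - lam * r + (a1 - z1)) / 2 * |L| -
        ((1 + z1) * (A.sc r).c 1 + (1 - a1) * (B.sc r).c 1) / 2) := by
      rw [← l1, Sv.c_sc _ hr, Sv.c_sc _ hr, Sv.c_neg, ha, hz]
      ring
    rw [e2]
    exact h

end

end Pool.Agent.Strip051.LC.E1
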