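import Pool.Agent.Strip051.LC.E1.Row

/-! # Rests near the full period, the vertical cube: moves with slopes -/

namespace Pool.Agent.Strip051.LC.E1

open Pool.Agent.StripNear Pool.Agent.StripSquare Pool.Agent.Strip051 Pool.Agent.Strip051.Sweep
open Pool.Agent.Strip051.PB

/-- The slopes of `f` on `[a, b]` are between `m` and `M`. -/
def Lip (f : ℝ → ℝ) (a b m M : ℝ) : Prop :=
  ∀ X X', a ≤ X → X ≤ X' → X' ≤ b → m * (X' - X) ≤ f X' - f X ∧ f X' - f X ≤ M * (X' - X)

namespace Lip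

variable {f : ℝ → ℝ} {a b c m M m' M' : ℝ}

theorem glue (h : Lip f a b m M) (h' : Lip f b c m M) : Lip f a c m M := by
  intro X X' h1 h2 h3
  rcases le_total X' b with h4 | h4
  · exact h X X' h1 h2 h4
  rcases le_total b X with h5 | h5
  · exact h' X X' h5 h2 h3
  obtain ⟨p1, p2⟩ := h X b h1 h5 le_rfl
  obtain ⟨q1, q2⟩ := h' b X' le_rfl h4 h3
  constructor <;> linarith

theorem mono (h : Lip f a b m M) (h1 : m' ≤ m) (h2 : M ≤ M') : Lip f a b m' M' := by
  intro X X' h3 h4 h5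
  obtain ⟨p1, p2⟩ := h X X' h3 h4 h5
  have h6 : 0 ≤ X' - X := by linarith
  have := mul_le_mul_of_nonneg_right h1 h6
  have := mul_le_mul_of_nonneg_right h2 h6
  constructor <;> linarith

theorem sub {a' b' : ℝ} (h : Lip f a b m M) (h1 : a ≤ a') (h2 : b' ≤ b) : Lip f a' b' m M :=
  fun X X' h3 h4 h5 => h X X' (h1.trans h3) h4 (h5.trans h2)

theorem neg (h : Lip f a b m M) (ho : ∀ X, f (-X) = -f X) : Lip f (-b) (-a) m M := by
  intro X X' h1 h2 h3
  obtain ⟨p1, p2⟩ := h (-X') (-X) (by linarith) (by linarith) (by linarith)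
  rw [ho, ho] at p1 p2
  constructor <;> linarith

/-- An affine function. -/
theorem of_aff {p q : ℝ} (h : ∀ X, a ≤ X → X ≤ b → f X = p + q * X) (h1 : m ≤ q) (h2 : q ≤ M) :
    Lip f a b m M := by
  intro X X' h3 h4 h5
  rw [h X h3 (h4.trans h5), h X' (h3.trans h4) h5]
  have h6 : 0 ≤ X' - X := by linarith
  have := mul_le_mul_of_nonneg_right h1 h6
  have := mul_le_mul_of_nonneg_right h2 h6
  constructor <;> linarith

end Lip

section

variable {n : ℕ} {V : Vx} {T : Tbs n} {κ x y y' : ℝ}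

/-- The first number of the moves. -/
noncomputable def am (κ x : ℝ) : ℝ := κ * h0 * (x * (1 - x)) / 2

/-- The condition for the move of the side 13 (the side 12 is fixed). -/
def M12 (V : Vx) (κ x y y' k m S : ℝ) : Prop :=
  match V with
  | .far => am κ x * k + S / 2 ≤ y / 2
  | .near => am κ x * k ≤ y / 2 + mun 3 x * (y * m / 2 - (3 + x - y - y') / 2 * S)

/-- **The side 12 is fixed, the side 13 moves to the left.** -/
theorem mv12 (hκ : 0 ≤ κ) (h0x : 0 ≤ x) (h1x : x < 1) (h : y + y' ≤ 3 + x) (hy : 0 ≤ y)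
    {X12 P P' a b c d k2 k3 m2 M2 m3 M3 S : ℝ}
    (K2 : Lip (fun X => kv T.D (T.R V) x X y') a b (-k2) k2)
    (L2 : Lip (fun X => kv T.D T.RL x X y') a b m2 M2)
    (K3 : Lip (fun X => kv T.D (T.R V) x X (y + y')) c d (-k3) k3)
    (L3 : Lip (fun X => kv T.D T.RL x X (y + y')) c d m3 M3)
    (hP : P ≤ P') (h1 : c ≤ P) (h2 : P' ≤ d) (h3 : a ≤ X12 - P') (h4 : X12 - P ≤ b)
    (s1 : M2 - m3 ≤ S) (s2 : M3 - m2 ≤ S) (hM : M12 V κ x y y' (k2 + k3) m2 S)
    (H : OKV V T κ x X12 P' y y') : OKV V T κ x X12 P y y' := by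
  have e0 : 0 ≤ P' - P := by linarith
  have hm := mun_nonneg 3 x
  have g0 : 0 ≤ (3 + x - y - y') / 2 := by linarith
  obtain ⟨a1, a2⟩ := K2 (X12 - P') (X12 - P) h3 (by linarith) h4
  obtain ⟨b1, b2⟩ := L2 (X12 - P') (X12 - P) h3 (by linarith) h4
  obtain ⟨c1', c2'⟩ := K3 P P' h1 hP h2
  obtain ⟨d1, d2⟩ := L3 P P' h1 hP h2
  simp only at a1 a2 b1 b2 c1' c2' d1 d2
  rw [show X12 - P - (X12 - P') = P' - P by ring] at a1 a2 b1 b2
  have n1 : ∀ {R : Fin (n + 1) → ℕ → ℝ → ℝ → ℝ} (Q : ℝ), kv T.D R x (Q - X12) y' =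
      -kv T.D R x (X12 - Q) y' := by
    intro R Q
    rw [← kv_neg, neg_sub]
  have hS : |((kv3 T.D T.RL x X12 P y y').1 - (kv3 T.D T.RL x X12 P' y y').1) +
      ((kv3 T.D T.RL x X12 P y y').2.1 - (kv3 T.D T.RL x X12 P' y y').2.1) -
      ((kv3 T.D T.RL x X12 P y y').2.2 - (kv3 T.D T.RL x X12 P' y y').2.2)| ≤ S * (P' - P) := by
    unfold kv3
    simp only
    rw [n1, n1, abs_le]
    have k1 := mul_le_mul_of_nonneg_right s1 e0
    have k2 := mul_le_mul_of_nonneg_right s2 e0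
    constructor <;> linarith
  refine okv_move (A := 0) (B := k2 * (P' - P)) (C := k3 * (P' - P)) (S := S * (P' - P)) hκ h0x
    h1x h ?_ ?_ ?_ hS ?_ H
  · unfold kv3
    simp
  · unfold kv3
    simp only
    rw [n1, n1, abs_le]
    constructor <;> linarith
  · unfold kv3
    simp only
    rw [abs_le]
    constructor <;> linarith
  · have ee : exn' X12 P y (y + y') - exn' X12 P' y (y + y') = y / 2 * (P' - P) := by
      unfold exn'
      ring
    cases V
    · have k := mul_le_mul_of_nonneg_right (show am κ x * (k2 + k3) + S / 2 ≤ y / 2 from hM) e0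
      unfold am at k
      simp only
      rw [ee]
      linarith
    · have k := mul_le_mul_of_nonneg_right (show am κ x * (k2 + k3) ≤ y / 2 + mun 3 x *
        (y * m2 / 2 - (3 + x - y - y') / 2 * S) from hM) e0
      unfold am at k
      simp only
      rw [ee]
      unfold kv3
      simp only
      rw [n1, n1]
      have q1 : y * (m2 * (P' - P)) ≤
          y * (kv T.D T.RL x (X12 - P) y' - kv T.D T.RL x (X12 - P') y') :=
        mul_le_mul_of_nonneg_left b1 hy
      have q2 := mul_le_mul_of_nonneg_left q1 hm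
      linarith

/-- The condition for the move of the side 12 (the side 13 is fixed). -/
def M13 (V : Vx) (κ x y y' k m1 m2 S : ℝ) : Prop :=
  match V with
  | .far => am κ x * k + S / 2 ≤ (y + y') / 2
  | .near => am κ x * k ≤ (y + y') / 2 +
      mun 3 x * ((y' * m1 + y * m2) / 2 - (3 + x - y - y') / 2 * S)

/-- **The side 13 is fixed, the side 12 moves to the right.** -/
theorem mv13 (hκ : 0 ≤ κ) (h0x : 0 ≤ x) (h1x : x < 1) (h : y + y' ≤ 3 + x) (hy : 0 ≤ y)
    (hy' : 0 ≤ y') {X13 P P' a b c d k1 k2 m1 M1 m2 M2 S : ℝ}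
    (K1 : Lip (fun X => kv T.D (T.R V) x X y) c d (-k1) k1)
    (L1 : Lip (fun X => kv T.D T.RL x X y) c d m1 M1)
    (K2 : Lip (fun X => kv T.D (T.R V) x X y') a b (-k2) k2)
    (L2 : Lip (fun X => kv T.D T.RL x X y') a b m2 M2)
    (hP : P ≤ P') (h1 : c ≤ P) (h2 : P' ≤ d) (h3 : a ≤ P - X13) (h4 : P' - X13 ≤ b)
    (s1 : M1 - m2 ≤ S) (s2 : M2 - m1 ≤ S) (hM : M13 V κ x y y' (k1 + k2) m1 m2 S)
    (H : OKV V T κ x P X13 y y') : OKV V T κ x P' X13 y y' := by
  have e0 : 0 ≤ P' - P := by linarith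
  have hm := mun_nonneg 3 x
  have g0 : 0 ≤ (3 + x - y - y') / 2 := by linarith
  obtain ⟨a1, a2⟩ := K2 (P - X13) (P' - X13) h3 (by linarith) h4
  obtain ⟨b1, b2⟩ := L2 (P - X13) (P' - X13) h3 (by linarith) h4
  obtain ⟨c1', c2'⟩ := K1 P P' h1 hP h2
  obtain ⟨d1, d2⟩ := L1 P P' h1 hP h2
  simp only at a1 a2 b1 b2 c1' c2' d1 d2
  rw [show P' - X13 - (P - X13) = P' - P by ring] at a1 a2 b1 b2
  have n1 : ∀ {R : Fin (n + 1) → ℕ → ℝ → ℝ → ℝ} (Q : ℝ), kv T.D R x (X13 - Q) y' =
      -kv T.D R x (Q - X13) y' := by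
    intro R Q
    rw [← kv_neg, neg_sub]
  have hS : |((kv3 T.D T.RL x P' X13 y y').1 - (kv3 T.D T.RL x P X13 y y').1) +
      ((kv3 T.D T.RL x P' X13 y y').2.1 - (kv3 T.D T.RL x P X13 y y').2.1) -
      ((kv3 T.D T.RL x P' X13 y y').2.2 - (kv3 T.D T.RL x P X13 y y').2.2)| ≤ S * (P' - P) := by
    unfold kv3
    simp only
    rw [n1, n1, abs_le]
    have k1 := mul_le_mul_of_nonneg_right s1 e0
    have k2 := mul_le_mul_of_nonneg_right s2 e0
    constructor <;> linarith
  refine okv_move (A := k1 * (P' - P)) (B := k2 * (P' - P)) (C := 0) (S := S * (P' - P)) hκ h0x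
    h1x h ?_ ?_ ?_ hS ?_ H
  · unfold kv3
    simp only
    rw [abs_le]
    constructor <;> linarith
  · unfold kv3
    simp only
    rw [n1, n1, abs_le]
    constructor <;> linarith
  · unfold kv3
    simp
  · have ee : exn' P' X13 y (y + y') - exn' P X13 y (y + y') = (y + y') / 2 * (P' - P) := by
      unfold exn'
      ring
    cases V
    · have k := mul_le_mul_of_nonneg_right
        (show am κ x * (k1 + k2) + S / 2 ≤ (y + y') / 2 from hM) e0
      unfold am at k
      simp only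
      rw [ee]
      linarith
    · have k := mul_le_mul_of_nonneg_right (show am κ x * (k1 + k2) ≤ (y + y') / 2 + mun 3 x *
        ((y' * m1 + y * m2) / 2 - (3 + x - y - y') / 2 * S) from hM) e0
      unfold am at k
      simp only
      rw [ee]
      unfold kv3
      simp only
      rw [n1, n1]
      have q1 : y * (m2 * (P' - P)) ≤
          y * (kv T.D T.RL x (P' - X13) y' - kv T.D T.RL x (P - X13) y') :=
        mul_le_mul_of_nonneg_left b1 hy
      have q3 : y' * (m1 * (P' - P)) ≤ y' * (kv T.D T.RL x P' y - kv T.D T.RL x P y) :=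
        mul_le_mul_of_nonneg_left d1 hy'
      have q2 := mul_le_mul_of_nonneg_left (add_le_add q1 q3) hm
      linarith

end

end Pool.Agent.Strip051.LC.E1
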