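import Pool.Agent.Strip051.LC.E1.VertA
import Pool.Agent.Strip051.LC.E1.NodR
import Pool.Agent.Strip051.LC.E0.BaseP

/-! # Rests near the full period, the vertical cube: the rows -/

namespace Pool.Agent.Strip051.LC.E1

open Pool.Agent.StripNear Pool.Agent.StripSquare Pool.Agent.Strip051 Pool.Agent.Strip051.Sweep
open Pool.Agent.Strip051.PB
open Pool.Agent.Strip051.LC.E0.G (om cc1 xi1 sg1 cc3 xi3 sg3 xiw dwl dwu)
open Pool.Agent.Strip051.LC.Line (jn tau)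
open G

/-- The facts about the tables which are used in the vertical cube. -/
structure VD {n : ℕ} (V : Vx) (T : Tbs n) (e : ℝ) : Prop where
  pa : ∀ {r lam z xi : ℝ}, 0 < r → lam * r = e → -(1 / 16) < r * z → z < 0 →
    xi1 z r ≤ xi → 1 / 2 + r * xi ≤ xa z r → Sd V T r lam (1 / 2) xi (1 + r * z) (Pa xi r lam z)
  pw : ∀ {r lam z xi : ℝ}, 0 < r → lam * r = e → 0 ≤ z → r * z < 1 / 16 →
    xi1 z r ≤ xi → xi ≤ xiw z r → Sd V T r lam (1 / 2) xi (1 + r * z) (Pw xi r lam z)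
  pb : ∀ {r lam z xi : ℝ}, 0 < r → lam * r = e → 0 ≤ z → r * z < 1 / 16 →
    xiw z r ≤ xi → 1 / 2 + r * xi ≤ xb z r → Sd V T r lam (1 / 2) xi (1 + r * z) (Pb xi r lam z)
  c1d : ∀ {r lam z : ℝ}, 0 < r → 0 < lam → lam * r = e → -(1 / 16) < r * z → z ≤ 0 →
    Sd V T r lam (1 / 2) (xi1 z r) (1 + r * z) (C1d r lam z)
  c1u : ∀ {r lam z : ℝ}, 0 < r → lam * r = e → 0 ≤ z → r * z < 1 / 16 →
    Sd V T r lam (1 / 2) (xi1 z r) (1 + r * z) (C1u r lam z)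
  v0 : ∀ {r lam u xi : ℝ}, 0 < r → lam * r = e → -(1 / 16) < r * u → u ≤ 0 →
    0 ≤ xi → xi ≤ xi1 u r → Sd V T r lam 0 xi (2 + r * u) (V0 xi r lam u)
  v1 : ∀ {r lam u xi : ℝ}, 0 < r → lam * r = e → -(1 / 16) < r * u → u ≤ 0 →
    xi1 u r ≤ xi → xi ≤ xv5 u r → Sd V T r lam 0 xi (2 + r * u) (V1 xi r lam u)
  v2 : ∀ {r lam u xi : ℝ}, 0 < r → lam * r = e → -(1 / 16) < r * u → u ≤ 0 →
    xv5 u r ≤ xi → xi ≤ xv6 u r → Sd V T r lam 0 xi (2 + r * u) (V2 xi r lam u)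
  v3 : ∀ {r lam u xi : ℝ}, 0 < r → lam * r = e → -(1 / 16) < r * u → u ≤ 0 →
    xv6 u r ≤ xi → xi ≤ x3v u r → Sd V T r lam 0 xi (2 + r * u) (V3 xi r lam u)
  c33 : ∀ {r lam u : ℝ}, 0 < r → lam * r = e → -(1 / 16) < r * u → u ≤ 0 →
    Sd V T r lam 0 (x3v u r) (2 + r * u) (C33 r lam u)

theorem hg_np {x : ℝ} (h : x ≤ 0) : hg x = 0 := max_eq_right h

theorem h3_nn : 0 ≤ Real.sqrt 3 / 2 := by positivity

/-- At the height `h0` the two level functions are zero. -/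
theorem bL_0 {r lam : ℝ} (hr : 0 < r) (hl : 0 < lam) : bL (lam * r) r lam 0 = 0 := by
  have q : ∀ {a : ℝ}, 0 ≤ a → hg (0 - a) = 0 := fun ha => hg_np (by linarith)
  unfold bL
  simp only [mul_zero]
  repeat rw [q (by positivity)]
  ring

theorem aL_0 {r lam : ℝ} (hr : 0 < r) (hl : 0 < lam) : aL (lam * r) r lam 0 = 0 := by
  have q : ∀ {a : ℝ}, 0 ≤ a → hg (0 - a) = 0 := fun ha => hg_np (by linarith)
  unfold aL
  simp only [mul_zero]
  repeat rw [q (by positivity)]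
  ring

theorem uR_0 {k0 v m p f f' E r lam : ℝ} (hr : 0 < r) (hl : 0 < lam) :
    uR k0 v m p f f' E r lam 0 = 0 := by
  have q : ∀ {a : ℝ}, 0 ≤ a → hg (0 - a) = 0 := fun ha => hg_np (by linarith)
  unfold uR
  simp only [mul_zero]
  repeat rw [q (by positivity)]
  ring

/-- At the height `h0` the two forms of the unit circle agree. -/
theorem C1_0 {r lam : ℝ} (hr : 0 < r) (hl : 0 < lam) : C1d r lam 0 = C1u r lam 0 := by
  have g0 : sg1 0 r = 0 := E0.BaseP.sg1_0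
  unfold C1d C1u
  rw [g0, neg_zero, aL_0 hr hl, bL_0 hr hl, sub_zero]

/-- The facts from the table. -/
theorem VD.of {V : Vx} {T : Tbs 7} {e : ℝ} (h : Nod V T e) : VD V T e where
  pa := by
    rintro r lam z xi hr rfl h0 h1 x0 x1
    exact h.rPa hr h0 h1 x0 x1
  pw := by
    rintro r lam z xi hr rfl h0 h1 x0 x1
    exact h.rPw hr h0 h1 x0 x1
  pb := by
    rintro r lam z xi hr rfl h0 h1 x0 x1
    exact h.rPb hr h0 h1 x0 x1
  c1d := by
    rintro r lam z hr hl rfl h0 h1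
    rcases eq_or_lt_of_le h1 with h2 | h2
    · subst h2
      rw [C1_0 hr hl]
      exact h.rC1u hr le_rfl (by norm_num)
    · exact h.rC1d hr h0 h2
  c1u := by
    rintro r lam z hr rfl h0 h1
    exact h.rC1u hr h0 h1
  v0 := by
    rintro r lam u xi hr rfl h0 h1 x0 x1
    exact h.rV0 hr h0 h1 x0 x1
  v1 := by
    rintro r lam u xi hr rfl h0 h1 x0 x1
    exact h.rV1 hr h0 h1 x0 x1
  v2 := by
    rintro r lam u xi hr rfl h0 h1 x0 x1
    exact h.rV2 hr h0 h1 x0 x1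
  v3 := by
    rintro r lam u xi hr rfl h0 h1 x0 x1
    exact h.rV3 hr h0 h1 x0 x1
  c33 := by
    rintro r lam u hr rfl h0 h1
    exact h.rC33 hr h0 h1

/-! ### Positions -/

theorem pos1 {z r : ℝ} (h : 3 / 4 * (1 + r * z) ^ 2 ≤ 1) :
    r * xi1 z r = c1n (1 + r * z) - 1 / 2 := E0.BaseP.x_xi1 h

theorem v_xi1_x2 {z r : ℝ} (h : 3 / 4 * (1 + r * z) ^ 2 ≤ 1) :
    xi1 z r = -(3 / 2 * z) + r * x2 z r := by
  have h1 : r * xi1 z r = cc1 z r - 1 / 2 := E0.BaseP.x_xi1 h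
  have h2 : 0 ≤ cc1 z r := Real.sqrt_nonneg _
  have h3 : (1 / 2 + cc1 z r) ≠ 0 := by linarith
  have h4 : xi1 z r * (1 / 2 + cc1 z r) = -(3 / 4 * z * (2 + r * z)) := by
    have e : xi1 z r = -(3 / 4 * z * (2 + r * z)) / (1 / 2 + cc1 z r) := by
      unfold xi1
      ring
    rw [e, div_mul_cancel₀ _ h3]
  have h5 : xi1 z r + 3 / 2 * z = r * (z * (3 / 2 * xi1 z r - 3 / 4 * z)) / (1 / 2 + cc1 z r) := by
    rw [eq_div_iff h3]
    linear_combination h4 - 3 / 2 * z * h1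
  have h6 : r * x2 z r = r * (z * (3 / 2 * xi1 z r - 3 / 4 * z)) / (1 / 2 + cc1 z r) := by
    unfold x2
    ring
  linarith

theorem posw {z r : ℝ} (h : 3 / 4 * (r * z) ^ 2 ≤ 1) :
    r * xiw z r = swn (1 + r * z) - 1 := by
  have e1 : swn (1 + r * z) = Real.sqrt (1 - 3 / 4 * r ^ 2 * z ^ 2) := by
    unfold swn
    congr 1
    ring
  have h2 : 0 ≤ Real.sqrt (1 - 3 / 4 * r ^ 2 * z ^ 2) := Real.sqrt_nonneg _
  have h3 : (1 + Real.sqrt (1 - 3 / 4 * r ^ 2 * z ^ 2)) ≠ 0 := by linarith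
  have h4 : Real.sqrt (1 - 3 / 4 * r ^ 2 * z ^ 2) ^ 2 = 1 - 3 / 4 * r ^ 2 * z ^ 2 :=
    Real.sq_sqrt (by nlinarith)
  rw [e1]
  unfold xiw om E0.G.qw
  have e2 : r * -(r * (3 / 4 * z ^ 2 / (1 + Real.sqrt (1 - 3 / 4 * r ^ 2 * z ^ 2)))) =
      -(3 / 4 * r ^ 2 * z ^ 2) / (1 + Real.sqrt (1 - 3 / 4 * r ^ 2 * z ^ 2)) := by ring
  rw [e2, div_eq_iff h3]
  linear_combination -h4

theorem pos3 {u r : ℝ} (hr : 0 < r) (hu : u ≤ 0) (h : 3 / 4 * (2 + r * u) ^ 2 ≤ 3) :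
    r * x3v u r = c3n (2 + r * u) := by
  have e : c3n (2 + r * u) = Real.sqrt (r ^ 2 * (-(3 * u / r) - 3 / 4 * u ^ 2)) := by
    unfold c3n
    congr 1
    field_simp
    ring
  rw [e, Real.sqrt_mul (sq_nonneg r), Real.sqrt_sq hr.le]
  rfl

/-! ### The normalisations -/

theorem Pat.len_smul (P : Pat) (r w z : ℝ) : P.len (r * w) (r * z) = r * P.len w z := by
  cases P <;> · unfold Pat.len; ring

theorem Pat.ok_smul (P : Pat) {r w z : ℝ} (hr : 0 < r) (h : P.Ok (r * w) (r * z)) : P.Ok w z := by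
  have k : ∀ {v : ℝ}, 0 ≤ r * v → 0 ≤ v := fun h => nonneg_of_mul_nonneg_right h hr
  have k' : ∀ {v : ℝ}, r * v ≤ 0 → v ≤ 0 := fun h => nonpos_of_mul_nonpos_right h hr
  cases P <;> simp only [Pat.Ok, ← mul_add] at h ⊢
  · exact ⟨k h.1, k h.2⟩
  · exact ⟨k h.1, k' h.2.1, k h.2.2⟩
  · exact ⟨k h.1, k' h.2.1, k' h.2.2⟩
  · exact ⟨k' h.1, k h.2.1, k' h.2.2⟩
  · exact ⟨k' h.1, k' h.2⟩

/-- The choice of the scales. -/
theorem dom_ex (P : Pat) {e A Z : ℝ} (he : 0 < e) (he1 : e ≤ 1 / 40) (ho : P.Ok A Z)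
    (h0 : 0 < P.len A Z) (h1 : P.len A Z ≤ 1 / 16) :
    ∃ r lam w z, Dom P r lam w z ∧ lam * r = e ∧ A = r * w ∧ Z = r * z := by
  rcases le_or_gt (P.len A Z) (5 / 2 * e) with h | h
  · refine ⟨e, 1, A / e, Z / e, ?_, one_mul e, by field_simp, by field_simp⟩
    have e1 : A = e * (A / e) := by field_simp
    have e2 : Z = e * (Z / e) := by field_simp
    have hl : P.len A Z = e * P.len (A / e) (Z / e) := by
      conv_lhs => rw [e1, e2]
      exact P.len_smul e _ _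
    rw [hl] at h0 h1 h
    refine ⟨he, one_pos, by rw [one_mul]; exact he1, ?_, ?_, h1, Or.inl ⟨rfl, ?_⟩⟩
    · rw [e1, e2] at ho
      exact P.ok_smul he ho
    · exact (mul_pos_iff_of_pos_left he).1 h0
    · exact le_of_mul_le_mul_left (by linarith) he
  · set L := P.len A Z with hL
    refine ⟨L, e / L, A / L, Z / L, ?_, by field_simp, by field_simp, by field_simp⟩
    have e1 : A = L * (A / L) := by field_simp
    have e2 : Z = L * (Z / L) := by field_simp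
    have hl : P.len A Z = L * P.len (A / L) (Z / L) := by
      conv_lhs => rw [e1, e2]
      exact P.len_smul L _ _
    have h2 : P.len (A / L) (Z / L) = 1 := by
      rw [← hL] at hl
      exact mul_left_cancel₀ h0.ne' (by linarith)
    have hlam : 0 < e / L := div_pos he h0
    refine ⟨h0, hlam, ?_, ?_, ?_, ?_, Or.inr ⟨h2, ?_⟩⟩
    · rw [div_mul_cancel₀ _ h0.ne']
      exact he1
    · rw [e1, e2] at ho
      exact P.ok_smul h0 ho
    · rw [h2]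
      exact one_pos
    · rw [h2, mul_one]
      exact h1
    · rw [div_le_iff₀ h0]
      linarith

end Pool.Agent.Strip051.LC.E1
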