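import Pool.Agent.Strip051.LC.E1.VertB
import Pool.Agent.Strip051.PB.Base

/-! # Rests near the full period, the vertical cube: the shapes of the rows -/

namespace Pool.Agent.Strip051.LC.E1

open Pool.Agent.StripNear Pool.Agent.StripSquare Pool.Agent.Strip051 Pool.Agent.Strip051.Sweep
open Pool.Agent.Strip051.PB
open Pool.Agent.Strip051.LC.E0.G (om cc1 xi1 sg1 cc3 xi3 sg3 xiw dwl dwu)
open Pool.Agent.Strip051.LC.Line (jn tau mn D)
open G

theorem jn_mi' {T : ℝ} (h : h0 / 2 ≤ T) (h' : T < 3 * h0 / 2) : jn T = 1 := by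
  have := h0_pos
  unfold jn
  rw [if_neg (by linarith), if_pos h']

theorem jn_hi' {T : ℝ} (h : 3 * h0 / 2 ≤ T) : jn T = 2 := by
  have := h0_pos
  unfold jn
  rw [if_neg (by linarith), if_neg (by linarith)]

/-- The heights of the cube. -/
structure Hv (y y' : ℝ) : Prop where
  a : 15 / 16 < y
  b : y < 17 / 16
  a' : 15 / 16 < y'
  b' : y' < 17 / 16
  c : 31 / 16 < y + y'
  d : y + y' ≤ 2

theorem Hv.mir {y y' : ℝ} (h : Hv y y') : Hv y' y :=
  ⟨h.a', h.b', h.a, h.b, by linarith [h.c], by linarith [h.d]⟩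

theorem winV {y y' r lam w z : ℝ} (h : Hv y y') (hr : 0 < r) (hl : 0 < lam) (h1 : lam * r < 1)
    (hy : y = 1 + r * w) (hy' : y' = 1 + r * z) : E1.Win BV r lam w z y y' := by
  have hh := h0_pos
  have k : ∀ {v : ℝ}, 15 / 16 ≤ v → v ≤ 17 / 16 → jn (h0 * v) = 1 := by
    intro v h1 h2
    have a := mul_le_mul_of_nonneg_left h1 hh.le
    have b := mul_le_mul_of_nonneg_left h2 hh.le
    exact jn_mi' (by linarith) (by linarith)
  have j1 := k h.a.le h.b.le
  have j2 := k h.a'.le h.b'.le
  have c := mul_le_mul_of_nonneg_left h.c.le hh.le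
  have d := mul_le_mul_of_nonneg_left h.d hh.le
  have j3 : jn (h0 * y + h0 * y') = 2 := jn_hi' (by linarith)
  refine ⟨hr, hl, h1, hy, hy', ⟨?_, ?_, ?_, ?_, ?_, ?_, ?_⟩, by norm_num [BV]⟩
  · rw [j1, j2, j3]
  · unfold tau
    rw [j1, hy]
    push_cast
    ring
  · unfold tau
    rw [j2, hy']
    push_cast
    ring
  · unfold tau
    rw [j3, hy, hy']
    push_cast
    ring
  · exact mul_nonneg hh.le (by linarith [h.a])
  · exact mul_nonneg hh.le (by linarith [h.a'])
  · linarith

/-! ### The functions `c1n`, `c3n` -/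

theorem c1n_anti' {a b : ℝ} (ha : 0 ≤ a) (h : a ≤ b) : c1n b ≤ c1n a := by
  unfold c1n
  refine Real.sqrt_le_sqrt ?_
  nlinarith

theorem c1n_1 : c1n 1 = 1 / 2 := c1n_one

theorem sq_ok {v : ℝ} (h1 : 15 / 16 ≤ v) (h2 : v ≤ 17 / 16) : 3 / 4 * v ^ 2 ≤ 1 := by nlinarith

theorem c3n_2 : c3n 2 = 0 := by
  unfold c3n
  rw [show (3 : ℝ) - 3 / 4 * 2 ^ 2 = 0 by norm_num, Real.sqrt_zero]

section

variable {n : ℕ} {V : Vx} {T : Tbs n} {κ e y y' : ℝ}

/-- The lattice triangle. -/
theorem v_pt (hD : VD V T e) (he : 0 < e) (he1 : e ≤ 1 / 40) : OKV V T κ (1 - e) (1 / 2) 0 1 1 := by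
  have hh := h0_pos
  have s1 := hD.c1d (r := 1) (lam := e) (z := 0) one_pos he (mul_one e) (by norm_num) le_rfl
  have x0 : xi1 0 1 = 0 := by
    unfold xi1
    simp
  have g0 : sg1 0 1 = 0 := by
    unfold sg1
    rw [x0]
    ring
  have hg0 : g1 0 1 = 0 := by
    unfold g1
    rw [g0]
    simp
  have kU0 : kU 1 e 0 = 0 := uR_0 one_pos he
  have bU0 : bU 1 e 0 = 0 := uR_0 one_pos he
  have bL0 : bL (e * 1) 1 e 0 = 0 := bL_0 one_pos he
  have sK := s1.K
  have sL := s1.L
  simp only [x0, mul_zero, add_zero, mul_one] at sK sL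
  have cz : (C1d 1 e 0).c 1 = 0 := by
    unfold Sv.c C1d
    simp only
    rw [g0, neg_zero, bL0]
    ring
  have kz : (C1d 1 e 0).k = 0 := by
    unfold C1d
    simp only
    rw [g0, neg_zero, hg0, kU0]
    ring
  have bz : (C1d 1 e 0).b = 0 := by
    unfold C1d
    simp only
    rw [g0, neg_zero, hg0, bU0]
    ring
  rw [cz] at sL
  rw [kz, bz] at sK
  obtain ⟨β, hβ⟩ : ∃ β : ℝ, kv T.D (T.R V) (1 - e) (1 / 2) 1 = β := ⟨_, rfl⟩
  have e1 : kv3 T.D T.RL (1 - e) (1 / 2) 0 1 1 = (0, 0, 0) := by
    unfold kv3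
    rw [zero_sub, kv_neg, sL, kv_zero]
    simp
  have e2 : kv3 T.D (T.R V) (1 - e) (1 / 2) 0 1 1 = (β, -β, 0) := by
    unfold kv3
    rw [zero_sub, kv_neg, kv_zero, hβ]
  have ex : exn' (1 / 2) 0 1 (1 + 1) = 0 := by
    unfold exn'
    norm_num
  rw [okv_iff]
  intro x
  rw [e1, e2, ex]
  have lv : lvV V (1 - e) 1 1 0 (0, 0, 0) = 0 := by
    cases V
    · show PB.lvF _ _ = 0
      rw [lvF_eq]
      simp
    · show PB.lvN 3 0 _ _ _ _ _ = 0
      rw [lvN_eq (by linarith)]
      simp
  rw [lv, zero_add]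
  have t1 : tau (h0 * 1) = 0 := by
    unfold tau
    rw [jn_mi' (by linarith) (by linarith)]
    push_cast
    ring
  have sh : mn (D (h0 * (1 - e)) κ) (x + h0 * 1) (x + h0 * 1 + 0) =
      mn (D (h0 * (1 - e)) κ) x (x + 0) := by
    have := LC.Line.mn_shift (f := D (h0 * (1 - e)) κ) (c := h0) (fun z => by
      have := LC.Line.D_add_int (h0 * (1 - e)) κ z 1
      push_cast at this
      rwa [one_mul] at this) x (x + 0)
    rw [← this]
    congr 1 <;> ring
  unfold kf
  simp only
  rw [t1, sh]
  linarith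

/-- Both short sides on the unit circle. -/
theorem v_uu' (hR : Rows V) (hD : VD V T e) (he : 0 < e) (he1 : e ≤ 1 / 40)
    (hκ : κ * h0 = kenE (1 - e)) (h : Hv y y') (ho : y ≤ y')
    (h6 : c1n y - c1n y' ≤ c3n (y + y')) :
    OKV V T κ (1 - e) (c1n y) (c1n y - c1n y') y y' := by
  have hh := h0_pos
  have ya := h.a.le
  have yb := h.b.le
  have ya' := h.a'.le
  have yb' := h.b'.le
  have sa := h.a
  have sb := h.b
  have sa' := h.a'
  have sb' := h.b'
  have yc := h.c
  have yd := h.d
  have y1 : y ≤ 1 := by linarith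
  have s0 : 0 ≤ c1n y - c1n y' := by
    have := c1n_anti' (by linarith) ho
    linarith
  rcases le_or_gt y' 1 with hz | hz
  · -- both heights are below `h0`
    rcases eq_or_lt_of_le yd with h2 | h2
    · have e1 : y = 1 := by linarith
      have e2 : y' = 1 := by linarith
      subst e1
      subst e2
      rw [c1n_1, sub_self]
      exact v_pt hD he he1
    obtain ⟨r, lam, w, z, hd, e1, e2, e3⟩ := dom_ex .nn (A := y - 1) (Z := y' - 1) he he1
      ⟨by linarith, by linarith⟩ (by unfold Pat.len; linarith) (by unfold Pat.len; linarith)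
    have ey : y = 1 + r * w := by linarith
    have ey' : y' = 1 + r * z := by linarith
    have eY : y + y' = 2 + r * (w + z) := by linarith
    have hr := hd.r0
    have hl := hd.l0
    obtain ⟨w0, z0⟩ := hd.ok
    have p1 : r * xi1 w r = c1n y - 1 / 2 := by
      rw [ey]
      exact pos1 (by rw [← ey]; exact sq_ok ya yb)
    have p2 : r * xi1 z r = c1n y' - 1 / 2 := by
      rw [ey']
      exact pos1 (by rw [← ey']; exact sq_ok ya' yb')
    have p3 : r * xi1 (w + z) r = c1n (y + y' - 1) - 1 / 2 := by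
      have e4 : y + y' - 1 = 1 + r * (w + z) := by linarith
      rw [e4]
      exact pos1 (by rw [← e4]; exact sq_ok (by linarith) (by linarith))
    have q1 : 0 ≤ xi1 w r - xi1 z r := by
      refine le_of_mul_le_mul_left ?_ hr
      rw [mul_sub, p1, p2]
      linarith
    have q2 : xi1 w r - xi1 z r ≤ xi1 (w + z) r := by
      refine le_of_mul_le_mul_left ?_ hr
      rw [mul_sub, p1, p2, p3]
      have a1 := c1n_anti' (a := y + y' - 1) (b := y) (by linarith) (by linarith)
      have a2 := c1n_anti' (a := y') (b := 1) (by linarith) hz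
      rw [c1n_1] at a2
      linarith
    have wz : w + z < 0 := by
      have : r * (w + z) < 0 := by linarith
      exact neg_of_mul_neg_right this hr.le
    have row := hR.vu_0 r lam w z _ hd rfl q1 q2
    have hW := winV h hr hl (by rw [e1]; linarith) ey ey'
    have s12 := hD.c1d hr hl e1 (by linarith : -(1 / 16) < r * w) w0
    have s23 := (hD.c1d hr hl e1 (by linarith : -(1 / 16) < r * z) z0).neg
    have s13 := hD.v0 hr e1 (by linarith : -(1 / 16) < r * (w + z)) wz.le q1 q2
    rw [← ey] at s12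
    rw [← ey'] at s23
    rw [← eY] at s13
    have x1 := v_xi1_x2 (z := w) (r := r) (by rw [← ey]; exact sq_ok ya yb)
    have x2 := v_xi1_x2 (z := z) (r := r) (by rw [← ey']; exact sq_ok ya' yb')
    have := okv_row (κ := κ) (V := V) (T := T) (B := BV) (xi12 := xi1 w r)
      (xi13 := xi1 w r - xi1 z r) (a := C1d r lam w) (b := -C1d r lam z)
      (c := V0 (xi1 w r - xi1 z r) r lam (w + z)) hW (by rw [e1]; exact hκ) hd.ok s12
      (by
        have e5 : BV.q - BV.p = -(1 / 2) := by norm_num [BV]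
        rw [e5, show xi1 w r - xi1 z r - xi1 w r = -xi1 z r by ring]
        exact s23) s13 (N := 0) (S := (G.x2 w r + G.x2 z r) / 2)
      (by
        unfold Bs.g
        simp only [BV]
        linear_combination (1 / 2) * x1 + (1 / 2) * x2) row
    have e6 : BV.p + r * xi1 w r = c1n y := by
      rw [p1]
      simp only [BV]
      ring
    have e7 : BV.q + r * (xi1 w r - xi1 z r) = c1n y - c1n y' := by
      rw [mul_sub, p1, p2]
      simp only [BV]
      ring
    rw [e6, e7, e1] at this
    exact this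
  · -- the height of the side 23 is above `h0`
    have y1' : y < 1 := by linarith
    have h2 : y + y' < 2 := by
      rcases eq_or_lt_of_le yd with h2 | h2
      · exfalso
        rw [h2, c3n_2] at h6
        have a1 := sq_ok ya yb
        have k1 := PB.c1n_sq a1
        have k2 := PB.c1n_sq (sq_ok ya' yb')
        have k3 : c1n y = c1n y' := by linarith
        rw [k3] at k1
        nlinarith
      · exact h2
    obtain ⟨r, lam, w, z, hd, e1, e2, e3⟩ := dom_ex .npn (A := y - 1) (Z := y' - 1) he he1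
      ⟨by linarith, by linarith, by linarith⟩ (by unfold Pat.len; linarith)
      (by unfold Pat.len; linarith)
    have ey : y = 1 + r * w := by linarith
    have ey' : y' = 1 + r * z := by linarith
    have eY : y + y' = 2 + r * (w + z) := by linarith
    have hr := hd.r0
    have hl := hd.l0
    obtain ⟨w0, z0, u0⟩ := hd.ok
    have wz : w + z < 0 := by
      have : r * (w + z) < 0 := by linarith
      exact neg_of_mul_neg_right this hr.le
    have p1 : r * xi1 w r = c1n y - 1 / 2 := by
      rw [ey]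
      exact pos1 (by rw [← ey]; exact sq_ok ya yb)
    have p2 : r * xi1 z r = c1n y' - 1 / 2 := by
      rw [ey']
      exact pos1 (by rw [← ey']; exact sq_ok ya' yb')
    have p3 : r * xi1 (w + z) r = c1n (y + y' - 1) - 1 / 2 := by
      have e4 : y + y' - 1 = 1 + r * (w + z) := by linarith
      rw [e4]
      exact pos1 (by rw [← e4]; exact sq_ok (by linarith) (by linarith))
    have p4 : r * x3v (w + z) r = c3n (y + y') := by
      rw [eY]
      exact pos3 hr u0 (by rw [← eY]; nlinarith)
    have q1 : xi1 (w + z) r ≤ xi1 w r - xi1 z r := by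
      refine le_of_mul_le_mul_left ?_ hr
      rw [mul_sub, p1, p2, p3]
      have a1 := c1n_anti' (a := y) (b := y + y' - 1) (by linarith) (by linarith)
      have a2 := c1n_anti' (a := 1) (b := y') (by linarith) hz.le
      rw [c1n_1] at a2
      linarith
    have q4 : xi1 w r - xi1 z r ≤ x3v (w + z) r := by
      refine le_of_mul_le_mul_left ?_ hr
      rw [mul_sub, p1, p2, p4]
      linarith
    have hW := winV h hr hl (by rw [e1]; linarith) ey ey'
    have s12 := hD.c1d hr hl e1 (by linarith : -(1 / 16) < r * w) w0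
    have s23 := (hD.c1u hr e1 z0 (by linarith : r * z < 1 / 16)).neg
    rw [← ey] at s12
    rw [← ey'] at s23
    have x1 := v_xi1_x2 (z := w) (r := r) (by rw [← ey]; exact sq_ok ya yb)
    have x2 := v_xi1_x2 (z := z) (r := r) (by rw [← ey']; exact sq_ok ya' yb')
    have e6 : BV.p + r * xi1 w r = c1n y := by
      rw [p1]
      simp only [BV]
      ring
    have e7 : BV.q + r * (xi1 w r - xi1 z r) = c1n y - c1n y' := by
      rw [mul_sub, p1, p2]
      simp only [BV]
      ring
    have key : ∀ c : Sv, Sd V T r lam 0 (xi1 w r - xi1 z r) (2 + r * (w + z)) c →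
        RowV V .npn r lam w z (xi1 w r - xi1 z r) 0 (C1d r lam w) (-C1u r lam z) c →
        OKV V T κ (1 - e) (c1n y) (c1n y - c1n y') y y' := by
      intro c s13 row
      rw [← eY] at s13
      have := okv_row (κ := κ) (V := V) (T := T) (B := BV) (xi12 := xi1 w r)
        (xi13 := xi1 w r - xi1 z r) (a := C1d r lam w) (b := -C1u r lam z)
        (c := c) hW (by rw [e1]; exact hκ) hd.ok s12
        (by
          have e5 : BV.q - BV.p = -(1 / 2) := by norm_num [BV]
          rw [e5, show xi1 w r - xi1 z r - xi1 w r = -xi1 z r by ring]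
          exact s23) s13 (N := 0) (S := (G.x2 w r + G.x2 z r) / 2)
        (by
          unfold Bs.g
          simp only [BV]
          linear_combination (1 / 2) * x1 + (1 / 2) * x2) row
      rw [e6, e7, e1] at this
      exact this
    have ru : -(1 / 16) < r * (w + z) := by linarith
    rcases le_total (xi1 w r - xi1 z r) (xv5 (w + z) r) with c5 | c5
    · exact key _ (hD.v1 hr e1 ru wz.le q1 c5) (hR.vu_1 r lam w z _ hd wz rfl q1 c5)
    rcases le_total (xi1 w r - xi1 z r) (xv6 (w + z) r) with c6 | c6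
    · exact key _ (hD.v2 hr e1 ru wz.le c5 c6) (hR.vu_2 r lam w z _ hd wz rfl c5 c6)
    · exact key _ (hD.v3 hr e1 ru wz.le c6 q4) (hR.vu_3 r lam w z _ hd wz rfl c6 q4)

end

end Pool.Agent.Strip051.LC.E1
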