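import Pool.Agent.Strip051.LC.E1.VertC

/-! # Rests near the full period, the vertical cube: the side bottom-top on the circle `√3` -/

namespace Pool.Agent.Strip051.LC.E1

open Pool.Agent.StripNear Pool.Agent.StripSquare Pool.Agent.Strip051 Pool.Agent.Strip051.Sweep
open Pool.Agent.Strip051.PB
open Pool.Agent.Strip051.LC.E0.G (om cc1 xi1 sg1 cc3 xi3 sg3 xiw dwl dwu)
open Pool.Agent.Strip051.LC.Line (jn tau mn D)
open G

theorem swn_ge {v : ℝ} (h1 : 15 / 16 ≤ v) (h2 : v ≤ 17 / 16) : 997 / 1000 ≤ swn v := by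
  unfold swn
  exact Real.le_sqrt_of_sq_le (by nlinarith)

theorem swn_le {v : ℝ} : swn v ≤ 1 := by
  unfold swn
  exact Real.sqrt_le_one.2 (by nlinarith [sq_nonneg (v - 1)])

theorem c1n_sq2 {v : ℝ} (h1 : 15 / 16 ≤ v) (h2 : v ≤ 17 / 16) : c1n v ^ 2 = 1 - 3 / 4 * v ^ 2 :=
  Real.sq_sqrt (by nlinarith)

theorem c1n_nn {v : ℝ} : 0 ≤ c1n v := Real.sqrt_nonneg _

theorem c3n_nn {v : ℝ} : 0 ≤ c3n v := Real.sqrt_nonneg _

theorem c1n_hi {v : ℝ} (h1 : 15 / 16 ≤ v) (h2 : v ≤ 1) : 1 / 2 ≤ c1n v := by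
  have := c1n_anti' (by linarith) h2
  rwa [c1n_1] at this

theorem c1n_lo' {v : ℝ} (h1 : 1 ≤ v) : c1n v ≤ 1 / 2 := by
  have := c1n_anti' (by norm_num) h1
  rwa [c1n_1] at this

theorem c1_dn_up' {v : ℝ} (h : 15 / 16 ≤ v) : c1n v ≤ 584 / 1000 := by
  unfold c1n
  exact Real.sqrt_le_iff.2 ⟨by norm_num, by nlinarith⟩

theorem c1_up_lo' {v : ℝ} (h : v ≤ 17 / 16) (h1 : 15 / 16 ≤ v) : 391 / 1000 ≤ c1n v := by
  unfold c1n
  exact Real.le_sqrt_of_sq_le (by nlinarith)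

theorem pos_a {z r : ℝ} (h1 : 15 / 16 ≤ 1 + r * z) (h2 : 1 + r * z ≤ 17 / 16) :
    xa z r = 4 / 5 * c1n (1 + r * z) + (swn (1 + r * z) + 1 / 2) / 5 := by
  have a := pos1 (sq_ok h1 h2)
  have b := posw (z := z) (r := r) (by nlinarith)
  unfold xa dwl
  linear_combination (4 / 5) * a + (1 / 5) * b

theorem pos_c3 {z r : ℝ} (h : 3 / 4 * (1 + r * z) ^ 2 ≤ 3) :
    r * xi3 z r = c3n (1 + r * z) - 3 / 2 := E0.BaseP.x_xi3 h

theorem pos_b {z r : ℝ} (h1 : 15 / 16 ≤ 1 + r * z) (h2 : 1 + r * z ≤ 17 / 16) :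
    xb z r = 17 / 20 * (swn (1 + r * z) - 1 / 2) + 3 / 20 * c3n (1 + r * z) := by
  have a := pos_c3 (z := z) (r := r) (by nlinarith)
  have b := posw (z := z) (r := r) (by nlinarith)
  unfold xb dwu
  linear_combination (17 / 20) * b + (3 / 20) * a

/-- A short side below `h0` is in the first cell. -/
theorem in_a {v X : ℝ} (h1 : 15 / 16 ≤ v) (h2 : v ≤ 1) (h : X ^ 2 + 3 / 4 * v ^ 2 ≤ 147 / 128) :
    X ≤ 4 / 5 * c1n v + (swn v + 1 / 2) / 5 := by
  have a := c1n_sq2 h1 (by linarith)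
  have b := swn_ge h1 (by linarith)
  have c := c1n_hi h1 h2
  have c' : c1n v ≤ 3 / 5 := by nlinarith
  refine le_trans ?_ (by linarith : 4 / 5 * c1n v + 299 / 1000 ≤ _)
  refine abs_le_of_sq_le_sq' ?_ (by linarith) |>.2
  nlinarith

theorem in_b {v X : ℝ} (h1 : 1 ≤ v) (h2 : v ≤ 17 / 16) (h : X ^ 2 + 3 / 4 * v ^ 2 ≤ 147 / 128) :
    X ≤ 17 / 20 * (swn v - 1 / 2) + 3 / 20 * c3n v := by
  have b := swn_ge (by linarith) h2
  have c : 146 / 100 ≤ c3n v := by
    unfold c3n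
    exact Real.le_sqrt_of_sq_le (by nlinarith)
  refine le_trans ?_ (by linarith : (64 / 100 : ℝ) ≤ _)
  refine abs_le_of_sq_le_sq' ?_ (by norm_num) |>.2
  nlinarith

section

variable {n : ℕ} {V : Vx} {T : Tbs n} {κ e y y' : ℝ}

/-- The side bottom-top on the circle of radius `√3`. -/
theorem v_c3 (hR : Rows V) (hD : VD V T e) (he : 0 < e) (he1 : e ≤ 1 / 40)
    (hκ : κ * h0 = kenE (1 - e)) (h : Hv y y')
    (h5 : c1n y' ≤ c1n y - c3n (y + y'))
    (h6 : (c1n y - c3n (y + y')) ^ 2 + 3 / 4 * y' ^ 2 ≤ 147 / 128) :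
    OKV V T κ (1 - e) (c1n y) (c3n (y + y')) y y' := by
  have hh := h0_pos
  have ya := h.a.le
  have yb := h.b.le
  have ya' := h.a'.le
  have yb' := h.b'.le
  have sa := h.a
  have sb := h.b
  have sa' := h.a'
  have sb' := h.b'
  have yc := h.c
  have yd := h.d
  have s1 := c1n_sq2 ya yb
  have s2 := c1n_sq2 ya' yb'
  have s3 : c3n (y + y') ^ 2 = 3 - 3 / 4 * (y + y') ^ 2 := Real.sq_sqrt (by nlinarith)
  have n1 := @c1n_nn y
  have n2 := @c1n_nn y'
  have n3 := @c3n_nn (y + y')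
  set p := c1n y with hp
  set q := c1n y' with hq
  set d := c3n (y + y') with hd
  -- the angle between the sides 12 and 13 is at least 30 degrees
  have k1 : q ^ 2 ≤ (p - d) ^ 2 := pow_le_pow_left₀ n2 h5 2
  have m1 : p * d + 3 / 4 * (y * (y + y')) ≤ 3 / 2 := by linarith
  have m0 : 0 ≤ p * d + 3 / 4 * (y * (y + y')) := by
    have k2 := mul_nonneg n1 n3
    have k3 : 0 ≤ y * (y + y') := mul_nonneg (by linarith) (by linarith)
    linarith
  have id1 : (p * d + 3 / 4 * (y * (y + y'))) ^ 2 + 3 / 4 * (p * (y + y') - d * y) ^ 2 = 3 := by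
    have : (p * d + 3 / 4 * (y * (y + y'))) ^ 2 + 3 / 4 * (p * (y + y') - d * y) ^ 2 =
      (p ^ 2 + 3 / 4 * y ^ 2) * (d ^ 2 + 3 / 4 * (y + y') ^ 2) := by ring
    rw [this, s1, s3]
    ring
  have pd : d ≤ p := by linarith
  have c0 : 0 ≤ p * (y + y') - d * y := by
    have k1 : d * y ≤ p * y := mul_le_mul_of_nonneg_right pd (by linarith)
    have k2 : 0 ≤ p * y' := mul_nonneg n1 (by linarith)
    linarith
  have y3 : 3 * y = (p * d + 3 / 4 * (y * (y + y'))) * (y + y') -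
      d * (p * (y + y') - d * y) := by
    linear_combination (-y) * s3
  have c1 : 1 ≤ p * (y + y') - d * y := by
    obtain ⟨M, hM⟩ : ∃ M, M = p * d + 3 / 4 * (y * (y + y')) := ⟨_, rfl⟩
    obtain ⟨N, hN⟩ : ∃ N, N = p * (y + y') - d * y := ⟨_, rfl⟩
    rw [← hM] at m0 m1 id1
    rw [← hN] at c0 id1 ⊢
    have k2 : M ^ 2 ≤ (3 / 2) ^ 2 := pow_le_pow_left₀ m0 m1 2
    refine abs_le_of_sq_le_sq' ?_ c0 |>.2
    linarith
  have y4 : 3 * y ≤ 3 / 2 * (y + y') - d := by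
    have k1 := mul_le_mul_of_nonneg_right m1 (by linarith : 0 ≤ y + y')
    have k2 := mul_le_mul_of_nonneg_left c1 n3
    linarith
  have d3 : 3 * (1 - (y + y') / 2) ≤ d := by
    refine abs_le_of_sq_le_sq' ?_ n3 |>.2
    rw [s3]
    have := mul_nonneg (by linarith : 0 ≤ y + y' - 1) (by linarith : 0 ≤ 2 - (y + y'))
    linarith
  have z1 : 1 ≤ y' := by linarith
  have y1 : y ≤ 1 := by linarith
  rcases eq_or_lt_of_le y1 with y1' | y1'
  · have e2 : y' = 1 := by linarith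
    subst e2
    have e3 : d = 0 := by
      rw [hd, y1', show (1 : ℝ) + 1 = 2 by norm_num, c3n_2]
    rw [e3, hp, y1', c1n_1]
    exact v_pt hD he he1
  obtain ⟨r, lam, w, z, hdm, e1, e2, e3⟩ := dom_ex .npn (A := y - 1) (Z := y' - 1) he he1
    ⟨by linarith, by linarith, by linarith⟩ (by unfold Pat.len; linarith)
    (by unfold Pat.len; linarith)
  have ey : y = 1 + r * w := by linarith
  have ey' : y' = 1 + r * z := by linarith
  have eY : y + y' = 2 + r * (w + z) := by linarith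
  have hr := hdm.r0
  have hl := hdm.l0
  obtain ⟨w0, z0, u0⟩ := hdm.ok
  have p1 : r * xi1 w r = p - 1 / 2 := by
    rw [hp, ey]
    exact pos1 (by rw [← ey]; exact sq_ok ya yb)
  have p2 : r * xi1 z r = q - 1 / 2 := by
    rw [hq, ey']
    exact pos1 (by rw [← ey']; exact sq_ok ya' yb')
  have p4 : r * x3v (w + z) r = d := by
    rw [hd, eY]
    exact pos3 hr u0 (by rw [← eY]; nlinarith)
  have q1 : xi1 z r ≤ xi1 w r - x3v (w + z) r := by
    refine le_of_mul_le_mul_left ?_ hr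
    rw [mul_sub, p1, p2, p4]
    linarith
  have hW := winV h hr hl (by rw [e1]; linarith) ey ey'
  have s12 := hD.c1d hr hl e1 (by linarith : -(1 / 16) < r * w) w0
  have s13 := hD.c33 hr e1 (by linarith : -(1 / 16) < r * (w + z)) u0
  rw [← ey] at s12
  rw [← eY] at s13
  have x1 := v_xi1_x2 (z := w) (r := r) (by rw [← ey]; exact sq_ok ya yb)
  have x2 := v_xi1_x2 (z := z) (r := r) (by rw [← ey']; exact sq_ok ya' yb')
  have e6 : BV.p + r * xi1 w r = p := by
    rw [p1]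
    simp only [BV]
    ring
  have e7 : BV.q + r * x3v (w + z) r = d := by
    rw [p4]
    simp only [BV]
    ring
  have key : ∀ b : Sv, Sd V T r lam (1 / 2) (xi1 w r - x3v (w + z) r) (1 + r * z) b →
      RowV V .npn r lam w z (x3v (w + z) r) ((xi1 w r - x3v (w + z) r - xi1 z r) / 2)
        (C1d r lam w) (-b) (C33 r lam (w + z)) →
      OKV V T κ (1 - e) p d y y' := by
    intro b s23 row
    rw [← ey'] at s23
    have := okv_row (κ := κ) (V := V) (T := T) (B := BV) (xi12 := xi1 w r)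
      (xi13 := x3v (w + z) r) (a := C1d r lam w) (b := -b)
      (c := C33 r lam (w + z)) hW (by rw [e1]; exact hκ) hdm.ok s12
      (by
        have e5 : BV.q - BV.p = -(1 / 2) := by norm_num [BV]
        rw [e5, show x3v (w + z) r - xi1 w r = -(xi1 w r - x3v (w + z) r) by ring]
        exact s23.neg) s13 (N := (xi1 w r - x3v (w + z) r - xi1 z r) / 2)
      (S := (G.x2 w r + G.x2 z r) / 2)
      (by
        unfold Bs.g
        simp only [BV]
        linear_combination (1 / 2) * x1 + (1 / 2) * x2) row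
    rw [e6, e7, e1] at this
    exact this
  have rz : r * z < 1 / 16 := by linarith
  rcases le_total (xi1 w r - x3v (w + z) r) (xiw z r) with c5 | c5
  · exact key _ (hD.pw hr e1 z0 rz q1 c5) (hR.vc_1 r lam w z _ hdm u0 rfl q1 c5)
  · have c6 : 1 / 2 + r * (xi1 w r - x3v (w + z) r) ≤ xb z r := by
      rw [pos_b (by rw [← ey']; exact ya') (by rw [← ey']; exact yb'), ← ey', mul_sub, p1, p4,
        show 1 / 2 + (p - 1 / 2 - d) = p - d by ring]
      exact in_b z1 yb' h6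
    exact key _ (hD.pb hr e1 z0 rz c5 c6) (hR.vc_2 r lam w z _ hdm u0 rfl c5 c6)

end

end Pool.Agent.Strip051.LC.E1
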