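import Pool.Agent.Strip051.LC.E1.VertD

/-! # Rests near the full period, the vertical cube: the paths -/

namespace Pool.Agent.Strip051.LC.E1

open Pool.Agent.StripNear Pool.Agent.StripSquare Pool.Agent.Strip051 Pool.Agent.Strip051.Sweep
open Pool.Agent.Strip051.PB
open Pool.Agent.Strip051.LC.E0.G (om cc1 xi1 sg1 cc3 xi3 sg3 xiw dwl dwu)
open G

/-- The bounds of the slopes of the kernels on an interval. -/
structure Zn {n : ℕ} (V : Vx) (T : Tbs n) (x y a b k m M : ℝ) : Prop where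
  K : Lip (fun X => kv T.D (T.R V) x X y) a b (-k) k
  L : Lip (fun X => kv T.D T.RL x X y) a b m M

section

variable {n : ℕ} {V : Vx} {T : Tbs n} {κ x y y' a b c d k m M : ℝ}

theorem Zn.neg (h : Zn V T x y a b k m M) : Zn V T x y (-b) (-a) k m M :=
  ⟨h.K.neg fun _ => kv_neg _ _, h.L.neg fun _ => kv_neg _ _⟩

theorem Zn.mono {k' m' M' : ℝ} (h : Zn V T x y a b k m M) (h1 : k ≤ k') (h2 : m' ≤ m)
    (h3 : M ≤ M') : Zn V T x y a b k' m' M' :=
  ⟨h.K.mono (by linarith) h1, h.L.mono h2 h3⟩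

theorem Zn.glue (h : Zn V T x y a b k m M) (h' : Zn V T x y b c k m M) :
    Zn V T x y a c k m M :=
  ⟨h.K.glue h'.K, h.L.glue h'.L⟩

theorem Zn.deg (h : b ≤ a) : Zn V T x y a b k m M := by
  constructor <;> intro X X' h1 h2 h3 <;>
  · have : X = X' := by linarith
    subst this
    simp

/-- The condition for the moves with the side 12 fixed. -/
def C12 (V : Vx) (κ x y y' k m M k' m' M' : ℝ) : Prop :=
  ∃ S, M - m' ≤ S ∧ M' - m ≤ S ∧ M12 V κ x y y' (k + k') m S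

/-- The statement `G` moves to the left on the part of `[a, b]` between `lo` and `hi`. -/
def Mv (G : ℝ → Prop) (lo hi a b : ℝ) : Prop :=
  ∀ P P', lo ≤ P → P' ≤ hi → a ≤ P → P ≤ P' → P' ≤ b → G P' → G P

theorem Mv.glue {G : ℝ → Prop} {lo hi : ℝ} (h : Mv G lo hi a b) (h' : Mv G lo hi b c) :
    Mv G lo hi a c := by
  intro P P' h1 h2 h3 h4 h5 h6
  rcases le_total P' b with h7 | h7
  · exact h P P' h1 h2 h3 h4 h7 h6
  rcases le_total b P with h8 | h8
  · exact h' P P' h1 h2 h8 h4 h5 h6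
  exact h P b h1 (by linarith) h3 h8 le_rfl (h' b P' (by linarith) h2 le_rfl h7 h5 h6)

theorem Mv.of12 (hκ : 0 ≤ κ) (h0x : 0 ≤ x) (h1x : x < 1) (h : y + y' ≤ 3 + x) (hy : 0 ≤ y)
    {X12 k' m' M' : ℝ} (z2 : Zn V T x y' a b k m M) (z3 : Zn V T x (y + y') c d k' m' M')
    (hc : C12 V κ x y y' k m M k' m' M') :
    Mv (fun P => OKV V T κ x X12 P y y') (X12 - b) (X12 - a) c d := by
  obtain ⟨S, s1, s2, hM⟩ := hc
  intro P P' h1 h2 h3 h4 h5 h6
  exact mv12 hκ h0x h1x h hy z2.K z2.L z3.K z3.L h4 h3 h5 (by linarith) (by linarith) s1 s2 hM h6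

/-- The moves over all zones of the side 13. -/
theorem line_z (hκ : 0 ≤ κ) (h0x : 0 ≤ x) (h1x : x < 1) (h : y + y' ≤ 3 + x) (hy : 0 ≤ y)
    {X12 R t0 t5 t6 t3 k0 m0 M0 k1 m1 M1 k2 m2 M2 k3 m3 M3 : ℝ} (z : Zn V T x y' a b k m M)
    (v0 : Zn V T x (y + y') (-t0) t0 k0 m0 M0) (v1 : Zn V T x (y + y') t0 t5 k1 m1 M1)
    (v2 : Zn V T x (y + y') t5 t6 k2 m2 M2) (v3 : Zn V T x (y + y') t6 t3 k3 m3 M3)
    (hlo : -R ≤ X12 - b) (hhi : X12 - a ≤ R)
    (c0 : C12 V κ x y y' k m M k0 m0 M0) (c1 : C12 V κ x y y' k m M k1 m1 M1)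
    (c2 : C12 V κ x y y' k m M k2 m2 M2) (c3 : t6 ≤ R → C12 V κ x y y' k m M k3 m3 M3) :
    Mv (fun P => OKV V T κ x X12 P y y') (X12 - b) (X12 - a) (-t3) t3 := by
  have w2 := Mv.of12 hκ h0x h1x h hy (X12 := X12) z v2.neg c2
  have w1 := Mv.of12 hκ h0x h1x h hy (X12 := X12) z v1.neg c1
  have u0 := Mv.of12 hκ h0x h1x h hy (X12 := X12) z v0 c0
  have u1 := Mv.of12 hκ h0x h1x h hy (X12 := X12) z v1 c1
  have u2 := Mv.of12 hκ h0x h1x h hy (X12 := X12) z v2 c2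
  rcases le_or_gt t6 R with h6 | h6
  · have w3 := Mv.of12 hκ h0x h1x h hy (X12 := X12) z v3.neg (c3 h6)
    have u3 := Mv.of12 hκ h0x h1x h hy (X12 := X12) z v3 (c3 h6)
    exact w3.glue (w2.glue (w1.glue (u0.glue (u1.glue (u2.glue u3)))))
  · have w3 : Mv (fun P => OKV V T κ x X12 P y y') (X12 - b) (X12 - a) (-t3) (-t6) := by
      intro P P' h1 h2 h3 h4 h5 _
      exfalso
      linarith
    have u3 : Mv (fun P => OKV V T κ x X12 P y y') (X12 - b) (X12 - a) t6 t3 := by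
      intro P P' h1 h2 h3 h4 h5 _
      exfalso
      linarith
    exact w3.glue (w2.glue (w1.glue (u0.glue (u1.glue (u2.glue u3)))))

end

/-! ### The data of the slopes -/

/-- Bounds of slopes: the modulus of the slope of the kernel, the slope of the level. -/
structure Sp where
  k : ℝ
  m : ℝ
  M : ℝ

/-- The zones of a side next to `(1 / 2, 1)`. -/
structure Z1 {n : ℕ} (V : Vx) (T : Tbs n) (x y : ℝ) (A W B : Sp) : Prop where
  A : y < 1 → Zn V T x y (c1n y) (4 / 5 * c1n y + (swn y + 1 / 2) / 5) A.k A.m A.M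
  W : 1 ≤ y → Zn V T x y (c1n y) (swn y - 1 / 2) W.k W.m W.M
  B : 1 ≤ y → Zn V T x y (swn y - 1 / 2) (17 / 20 * (swn y - 1 / 2) + 3 / 20 * c3n y)
    B.k B.m B.M

/-- The beginning of the zones of a side next to `(0, 2)`. -/
noncomputable def t0 (y : ℝ) : ℝ := c1n (y - 1) - 1 / 2

/-- The zones of a side next to `(0, 2)`. -/
structure Z3 {n : ℕ} (V : Vx) (T : Tbs n) (x y : ℝ) (Z0 Z1 Z2 W3 : Sp) : Prop where
  v0 : Zn V T x y (-t0 y) (t0 y) Z0.k Z0.m Z0.M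
  v1 : Zn V T x y (t0 y) (t0 y + 3 / 20 * (c3n y - t0 y)) Z1.k Z1.m Z1.M
  v2 : Zn V T x y (t0 y + 3 / 20 * (c3n y - t0 y)) (t0 y + 3 / 5 * (c3n y - t0 y))
    Z2.k Z2.m Z2.M
  v3 : Zn V T x y (t0 y + 3 / 5 * (c3n y - t0 y)) (c3n y) W3.k W3.m W3.M

/-- The condition for the moves with the side 12 fixed. -/
def K12 (V : Vx) (κ x y y' : ℝ) (s s' : Sp) : Prop :=
  C12 V κ x y y' s.k s.m s.M s'.k s'.m s'.M

/-- The conditions of the moves for a triangle. -/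
structure Cn (V : Vx) (κ x y y' : ℝ) (A W B Z0 Z1 Z2 ZZ : Sp) : Prop where
  A0 : y' < 1 → K12 V κ x y y' A Z0
  A1 : y' < 1 → K12 V κ x y y' A Z1
  A2 : y' < 1 → K12 V κ x y y' A Z2
  A3 : y' < 1 → K12 V κ x y y' A ZZ
  W0 : 1 ≤ y' → K12 V κ x y y' W Z0
  W1 : 1 ≤ y' → K12 V κ x y y' W Z1
  W2 : 1 ≤ y' → K12 V κ x y y' W Z2
  W3 : 1 ≤ y' → 63 / 32 ≤ y + y' → K12 V κ x y y' W ZZ
  B0 : 1 ≤ y' → K12 V κ x y y' B Z0
  B1 : 1 ≤ y' → K12 V κ x y y' B Z1
  B2 : 1 ≤ y' → K12 V κ x y y' B Z2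
  B3 : 1 ≤ y' → 63 / 32 ≤ y + y' → K12 V κ x y y' B ZZ

/-- The last zone is far away from the vertical unless the height is next to `2`. -/
theorem t6_far {Y : ℝ} (h1 : 31 / 16 < Y) (h2 : Y ≤ 2)
    (h : t0 Y + 3 / 5 * (c3n Y - t0 Y) ≤ 1 / 5) : 63 / 32 ≤ Y := by
  by_contra hc
  push Not at hc
  have h3 : 439 / 10000 ≤ t0 Y := by
    unfold t0 c1n
    have : (5439 / 10000 : ℝ) ≤ Real.sqrt (1 - 3 / 4 * (Y - 1) ^ 2) :=
      Real.le_sqrt_of_sq_le (by nlinarith)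
    linarith
  have h4 : 3049 / 10000 ≤ c3n Y := by
    unfold c3n
    exact Real.le_sqrt_of_sq_le (by nlinarith)
  linarith

section

variable {n : ℕ} {V : Vx} {T : Tbs n} {κ e y y' : ℝ} {A W B A' W' B' Z0 Z1s Z2 Z3s : Sp}

theorem kap_nn (he : 0 < e) (he1 : e ≤ 1 / 40) (hκ : κ * h0 = kenE (1 - e)) : 0 ≤ κ := by
  have hp := h0_pos
  have h1 := kenE_e (e := e) (by linarith)
  have h2 := eh_pos he (by linarith)
  have h3 : 0 ≤ κ * h0 := by
    rw [hκ, h1]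
    have : 0 < 1 - e := by linarith
    positivity
  exact nonneg_of_mul_nonneg_left h3 hp

/-- Both short sides on the unit circle. -/
theorem v_uu (hR : Rows V) (hD : VD V T e) (he : 0 < e) (he1 : e ≤ 1 / 40)
    (hκ : κ * h0 = kenE (1 - e)) (h : Hv y y')
    (h6 : c1n y - c1n y' ≤ c3n (y + y')) (h7 : -c3n (y + y') ≤ c1n y - c1n y') :
    OKV V T κ (1 - e) (c1n y) (c1n y - c1n y') y y' := by
  rcases le_total y y' with ho | ho
  · exact v_uu' hR hD he he1 hκ h ho h6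
  · refine okv_mir V (by linarith) (by linarith) ?_
    have k := v_uu' hR hD he he1 hκ h.mir ho (by rw [add_comm y' y]; linarith)
    rw [show c1n y - (c1n y - c1n y') = c1n y' by ring,
      show -(c1n y - c1n y') = c1n y' - c1n y by ring]
    exact k

/-- **The side bottom-middle on the unit circle.** -/
theorem line12 (hR : Rows V) (hD : VD V T e) (he : 0 < e) (he1 : e ≤ 1 / 40)
    (hκ : κ * h0 = kenE (1 - e)) (h : Hv y y') (z1 : Z1 V T (1 - e) y' A W B)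
    (z3 : Z3 V T (1 - e) (y + y') Z0 Z1s Z2 Z3s)
    (cn : Cn V κ (1 - e) y y' A W B Z0 Z1s Z2 Z3s)
    {X13 : ℝ} (h1 : c1n y' ≤ c1n y - X13) (h2 : (c1n y - X13) ^ 2 + 3 / 4 * y' ^ 2 ≤ 147 / 128)
    (h3 : X13 ^ 2 + 3 / 4 * (y + y') ^ 2 ≤ 3) : OKV V T κ (1 - e) (c1n y) X13 y y' := by
  have ya := h.a.le
  have yb := h.b.le
  have ya' := h.a'.le
  have yb' := h.b'.le
  have yc := h.c
  have yd := h.d
  have s3 : c3n (y + y') ^ 2 = 3 - 3 / 4 * (y + y') ^ 2 := Real.sq_sqrt (by nlinarith)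
  have n3 := @c3n_nn (y + y')
  have n2 := @c1n_nn y'
  have hκ0 := kap_nn he he1 hκ
  have r3 : X13 ≤ c3n (y + y') := abs_le_of_sq_le_sq' (by linarith) n3 |>.2
  have l3 : -c3n (y + y') ≤ X13 := abs_le_of_sq_le_sq' (by linarith) n3 |>.1
  -- the end of the path
  have hend : ∃ E, X13 ≤ E ∧ E ≤ c3n (y + y') ∧ E ≤ c1n y - c1n y' ∧
      OKV V T κ (1 - e) (c1n y) E y y' := by
    rcases le_total (c1n y - c1n y') (c3n (y + y')) with h4 | h4
    · refine ⟨c1n y - c1n y', by linarith, h4, le_rfl, ?_⟩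
      exact v_uu hR hD he he1 hκ h h4 (by linarith)
    · refine ⟨c3n (y + y'), r3, le_rfl, h4, ?_⟩
      refine v_c3 hR hD he he1 hκ h (by linarith) ?_
      have : (c1n y - c3n (y + y')) ^ 2 ≤ (c1n y - X13) ^ 2 :=
        pow_le_pow_left₀ (by linarith) (by linarith) 2
      linarith
  obtain ⟨E, e1, e2, e3, hE⟩ := hend
  have u1 : c1n y ≤ 584 / 1000 := c1_dn_up' ya
  have u0 : 391 / 1000 ≤ c1n y' := c1_up_lo' yb' ya'
  rcases lt_or_ge y' 1 with hz | hz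
  · have k := line_z (X12 := c1n y) (R := 1) hκ0 (by linarith) (by linarith) (by linarith)
      (by linarith) (z1.A hz) z3.v0 z3.v1 z3.v2 z3.v3
      (by
        have a1 := @swn_le y'
        have a2 : c1n y' ≤ 584 / 1000 := c1_dn_up' ya'
        linarith [@c1n_nn y])
      (by linarith) (cn.A0 hz) (cn.A1 hz) (cn.A2 hz) (fun _ => cn.A3 hz)
    refine k X13 E ?_ (by linarith) l3 e1 e2 hE
    have := in_a ya' hz.le h2
    linarith
  · have y1 : y ≤ 1 := by linarith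
    have a0 := c1n_hi ya y1
    have a1 := @swn_le y'
    have a2 : c3n y' ≤ 15 / 10 := by
      unfold c3n
      exact Real.sqrt_le_iff.2 ⟨by norm_num, by nlinarith⟩
    have a3 := swn_ge ya' yb'
    have kw := line_z (X12 := c1n y) (R := 1 / 5) hκ0 (by linarith) (by linarith) (by linarith)
      (by linarith) (z1.W hz) z3.v0 z3.v1 z3.v2 z3.v3 (by linarith) (by linarith)
      (cn.W0 hz) (cn.W1 hz) (cn.W2 hz) (fun h6 => cn.W3 hz (t6_far yc yd h6))
    have kb := line_z (X12 := c1n y) (R := 1 / 5) hκ0 (by linarith) (by linarith) (by linarith)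
      (by linarith) (z1.B hz) z3.v0 z3.v1 z3.v2 z3.v3 (by linarith) (by linarith)
      (cn.B0 hz) (cn.B1 hz) (cn.B2 hz) (fun h6 => cn.B3 hz (t6_far yc yd h6))
    have hb := in_b hz yb' h2
    rcases le_total (c1n y - X13) (swn y' - 1 / 2) with h5 | h5
    · exact kw X13 E (by linarith) (by linarith) l3 e1 e2 hE
    rcases le_total (swn y' - 1 / 2) (c1n y - E) with h6 | h6
    · exact kb X13 E (by linarith) (by linarith) l3 e1 e2 hE
    · refine kb X13 (c1n y - (swn y' - 1 / 2)) (by linarith) (by linarith) l3 (by linarith)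
        (by linarith) ?_
      exact kw _ E (by linarith) (by linarith) (by linarith) (by linarith) e2 hE

/-- The condition for the moves with the side 13 fixed. -/
def C13 (V : Vx) (κ x y y' : ℝ) (s s' : Sp) : Prop :=
  ∃ S, s.M - s'.m ≤ S ∧ s'.M - s.m ≤ S ∧ M13 V κ x y y' (s.k + s'.k) s.m s'.m S

/-- **The vertical cube**, from the data of the slopes. -/
theorem vcube_of (hR : Rows V) (hD : VD V T e) (he : 0 < e) (he1 : e ≤ 1 / 40)
    (hκ : κ * h0 = kenE (1 - e)) (h : Hv y y') (z1 : Z1 V T (1 - e) y A W B)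
    (z1' : Z1 V T (1 - e) y' A' W' B') (z3 : Z3 V T (1 - e) (y + y') Z0 Z1s Z2 Z3s)
    (cn : Cn V κ (1 - e) y y' A' W' B' Z0 Z1s Z2 Z3s)
    (cn' : Cn V κ (1 - e) y' y A W B Z0 Z1s Z2 Z3s)
    (c13 : 1 ≤ y → y' < 1 → C13 V κ (1 - e) y y' W A')
    {X12 X13 : ℝ} (h0 : X12 = c1n y ∨ (1 ≤ y ∧ c1n y ≤ X12 ∧ X12 ≤ swn y - 1 / 2))
    (h1 : c1n y' ≤ X12 - X13) (h2 : (X12 - X13) ^ 2 + 3 / 4 * y' ^ 2 ≤ 147 / 128)
    (h3 : X13 ^ 2 + 3 / 4 * (y + y') ^ 2 ≤ 3) : OKV V T κ (1 - e) X12 X13 y y' := by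
  have ya := h.a.le
  have yb := h.b.le
  have ya' := h.a'.le
  have yb' := h.b'.le
  have yc := h.c
  have yd := h.d
  have n2 := @c1n_nn y'
  have n1 := @c1n_nn y
  have hκ0 := kap_nn he he1 hκ
  rcases h0 with h0 | ⟨y1, c1, c2⟩
  · rw [h0] at h1 h2 ⊢
    exact line12 hR hD he he1 hκ h z1' z3 cn h1 h2 h3
  rcases lt_or_ge y' 1 with y1' | y1'
  swap
  · have e1 : y = 1 := by linarith
    have e2 : X12 = c1n y := by
      rw [e1] at c1 c2 ⊢
      rw [c1n_1] at *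
      have := @swn_le 1
      linarith
    rw [e2] at h1 h2 ⊢
    exact line12 hR hD he he1 hκ h z1' z3 cn h1 h2 h3
  obtain ⟨S, s1, s2, hM⟩ := c13 y1 y1'
  have hb := in_a ya' y1'.le h2
  have hbase : ∀ P, c1n y ≤ P → X13 + c1n y' ≤ P → P ≤ X12 → OKV V T κ (1 - e) P X13 y y' →
      OKV V T κ (1 - e) X12 X13 y y' := by
    intro P p1 p2 p3 hP
    exact mv13 hκ0 (by linarith) (by linarith) (by linarith) (by linarith) (by linarith)
      (z1.W y1).K (z1.W y1).L (z1'.A y1').K (z1'.A y1').L p3 p1 c2 (by linarith) (by linarith)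
      s1 s2 hM hP
  rcases le_total (X13 + c1n y') (c1n y) with h4 | h4
  · refine hbase (c1n y) le_rfl h4 c1 ?_
    refine line12 hR hD he he1 hκ h z1' z3 cn (by linarith) ?_ h3
    have : (c1n y - X13) ^ 2 ≤ (X12 - X13) ^ 2 := pow_le_pow_left₀ (by linarith) (by linarith) 2
    linarith
  · refine hbase (X13 + c1n y') h4 le_rfl (by linarith) ?_
    refine okv_mir V (by linarith) (by linarith) ?_
    rw [show X13 + c1n y' - X13 = c1n y' by ring]
    have z3' := z3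
    rw [add_comm y y'] at z3'
    refine line12 hR hD he he1 hκ h.mir z1 z3' cn' ?_ ?_ ?_
    · linarith
    · have e1 : c1n y' - -X13 ≤ 1 / 2 := by
        have := @swn_le y
        linarith
      have e2 : (c1n y' - -X13) ^ 2 ≤ (1 / 2) ^ 2 := pow_le_pow_left₀ (by linarith) e1 2
      nlinarith
    · rw [neg_sq, add_comm y' y]
      exact h3

end

end Pool.Agent.Strip051.LC.E1
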