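import Pool.Agent.Strip051.LC.E1.VertE

/-! # Rests near the full period, the vertical cube: the slopes on the zones -/

namespace Pool.Agent.Strip051.LC.E1

open Pool.Agent.StripNear Pool.Agent.StripSquare Pool.Agent.Strip051 Pool.Agent.Strip051.Sweep
open Pool.Agent.Strip051.PB
open Pool.Agent.Strip051.LC.E0.G (om cc1 xi1 sg1 cc3 xi3 sg3 xiw dwl dwu)
open G

/-- The slope of the kernel. -/
noncomputable def ksl (V : Vx) (e : ℝ) (B : Sv) : ℝ :=
  match V with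
  | .far => B.k
  | .near => nk e B.k B.b

/-- The slope of the level. -/
noncomputable def lsl (e : ℝ) (B : Sv) : ℝ := LAM e + (B.cA + B.cB)

theorem Lip.cg {f g : ℝ → ℝ} {a b m M : ℝ} (h : Lip g a b m M)
    (e : ∀ X, a ≤ X → X ≤ b → f X = g X) : Lip f a b m M := by
  intro X X' h1 h2 h3
  rw [e X h1 (h2.trans h3), e X' (h1.trans h2) h3]
  exact h X X' h1 h2 h3

section

variable {n : ℕ} {V : Vx} {T : Tbs n} {e : ℝ}

/-- The slopes of an affine piece. -/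
theorem Zn.of_sv {y p a b x0 k m M : ℝ} {A B : Sv} {P : ℝ → Sv}
    (hk' : ∀ xi, (P xi).k = A.k + (xi - x0) * B.k) (hA' : ∀ xi, (P xi).cA = A.cA + (xi - x0) * B.cA)
    (hB' : ∀ xi, (P xi).cB = A.cB + (xi - x0) * B.cB)
    (hb' : ∀ xi, (P xi).b = A.b + (xi - x0) * B.b)
    (hS : ∀ X, a ≤ X → X ≤ b → Sd V T 1 e p (X - p) y (P (X - p)))
    (hk : |ksl V e B| ≤ k) (hm : m ≤ lsl e B) (hM : lsl e B ≤ M) :
    Zn V T (1 - e) y a b k m M := by
  have e0 : e * 1 = e := mul_one e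
  have ex : ∀ X : ℝ, p + 1 * (X - p) = X := fun X => by ring
  constructor
  · obtain ⟨k1, k2⟩ := abs_le.1 hk
    cases V
    · refine Lip.of_aff (p := p + (A.k + (-p - x0) * B.k)) (q := B.k) ?_ k1 k2
      intro X h1 h2
      have := (hS X h1 h2).K
      rw [e0, ex] at this
      rw [this]
      simp only
      rw [hk']
      ring
    · refine Lip.of_aff (p := be e * p + nk e (A.k + (-p - x0) * B.k) (A.b + (-p - x0) * B.b))
        (q := nk e B.k B.b) ?_ k1 k2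
      intro X h1 h2
      have := (hS X h1 h2).K
      rw [e0, ex] at this
      rw [this]
      simp only
      rw [hk', hb']
      unfold nk
      ring
  · refine Lip.of_aff (p := LAM e * (-p) + (A.cA + (-p - x0) * B.cA) + (A.cB + (-p - x0) * B.cB))
      (q := lsl e B) ?_ hm hM
    intro X h1 h2
    have := (hS X h1 h2).L
    rw [e0, ex] at this
    rw [this]
    unfold Sv.c lsl
    rw [hA', hB']
    ring

end

namespace G

/-- The slopes of `Pa`. -/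
noncomputable def sPa (e z : ℝ) : Sv :=
  ⟨5 * (xa z 1 * fKa 1 z - (1 / 2 + (C1d 1 e z).k)) / dwl z 1,
    5 * LAM e * (xa z 1 * fXa 1 e z + 1 / 2) / dwl z 1,
    -(5 * (C1d 1 e z).cB / dwl z 1),
    5 * (xa z 1 * fBa 1 z - (B0 e / 2 + (C1d 1 e z).b)) / dwl z 1⟩

/-- The slopes of `Pw`. -/
noncomputable def sPw (e z : ℝ) : Sv :=
  ⟨((W2 1 e z).k - (C1u 1 e z).k) / (xiw z 1 - xi1 z 1),
    (W2 1 e z).cA / (xiw z 1 - xi1 z 1),
    -((C1u 1 e z).cB / (xiw z 1 - xi1 z 1)),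
    ((W2 1 e z).b - (C1u 1 e z).b) / (xiw z 1 - xi1 z 1)⟩

/-- The slopes of `Pb`. -/
noncomputable def sPb (e z : ℝ) : Sv :=
  ⟨20 * (xb z 1 * fKb 1 z - (1 / 2 + (W2 1 e z).k)) / (3 * dwu z 1),
    20 * (LAM e * (xb z 1 * fXb 1 e z + 1 / 2) - (W2 1 e z).cA) / (3 * dwu z 1), 0,
    20 * (xb z 1 * fBb 1 z - (B0 e / 2 + (W2 1 e z).b)) / (3 * dwu z 1)⟩

/-- The slopes of `V0`. -/
noncomputable def sV0 (e u : ℝ) : Sv :=
  ⟨(W3 1 e u).k / xi1 u 1, (W3 1 e u).cA / xi1 u 1, 0, (W3 1 e u).b / xi1 u 1⟩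

/-- The slopes of `V1`. -/
noncomputable def sV1 (e u : ℝ) : Sv :=
  ⟨((C33 1 e u).k - (W3 1 e u).k) / (x3v u 1 - xi1 u 1),
    -(20 / 3 * (W3 1 e u).cA / (x3v u 1 - xi1 u 1)),
    20 / 3 * v5 1 e u / (x3v u 1 - xi1 u 1),
    ((C33 1 e u).b - (W3 1 e u).b) / (x3v u 1 - xi1 u 1)⟩

/-- The slopes of `V2`. -/
noncomputable def sV2 (e u : ℝ) : Sv :=
  ⟨((C33 1 e u).k - (W3 1 e u).k) / (x3v u 1 - xi1 u 1), 0,
    20 / 9 * (v6 1 e u - v5 1 e u) / (x3v u 1 - xi1 u 1),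
    ((C33 1 e u).b - (W3 1 e u).b) / (x3v u 1 - xi1 u 1)⟩

/-- The slopes of `V3`. -/
noncomputable def sV3 (e u : ℝ) : Sv :=
  ⟨((C33 1 e u).k - (W3 1 e u).k) / (x3v u 1 - xi1 u 1), 0,
    5 / 2 * ((C33 1 e u).cB - v6 1 e u) / (x3v u 1 - xi1 u 1),
    ((C33 1 e u).b - (W3 1 e u).b) / (x3v u 1 - xi1 u 1)⟩

end G

section

variable {n : ℕ} {V : Vx} {T : Tbs n} {e k m M : ℝ}

theorem zn_a (hD : VD V T e) {y : ℝ} (h1 : 15 / 16 < y) (h2 : y < 1)
    (hk : |ksl V e (sPa e (y - 1))| ≤ k) (hm : m ≤ lsl e (sPa e (y - 1)))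
    (hM : lsl e (sPa e (y - 1)) ≤ M) :
    Zn V T (1 - e) y (c1n y) (4 / 5 * c1n y + (swn y + 1 / 2) / 5) k m M := by
  have ey : 1 + 1 * (y - 1) = y := by ring
  have p1 : xi1 (y - 1) 1 = c1n y - 1 / 2 := by
    have := pos1 (z := y - 1) (r := 1) (by rw [ey]; exact sq_ok h1.le (by linarith))
    rw [ey, one_mul] at this
    exact this
  have p2 := pos_a (z := y - 1) (r := 1) (by rw [ey]; exact h1.le) (by rw [ey]; linarith)
  rw [ey] at p2
  refine Zn.of_sv (p := 1 / 2) (x0 := xi1 (y - 1) 1) (A := C1d 1 e (y - 1)) (B := sPa e (y - 1))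
    (P := fun xi => Pa xi 1 e (y - 1)) ?_ ?_ ?_ ?_ ?_ hk hm hM
  · intro xi
    simp only [Pa, sPa]
    ring
  · intro xi
    simp only [Pa, sPa, C1d]
    rw [mul_one]
    ring
  · intro xi
    simp only [Pa, sPa]
    ring
  · intro xi
    simp only [Pa, sPa]
    rw [mul_one]
    ring
  · intro X h3 h4
    have := hD.pa (r := 1) (lam := e) (z := y - 1) (xi := X - 1 / 2) one_pos (mul_one e)
      (by linarith) (by linarith) (by linarith) (by rw [p2]; linarith)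
    rwa [ey] at this

theorem zn_w (hD : VD V T e) {y : ℝ} (h1 : 1 ≤ y) (h2 : y < 17 / 16)
    (hk : |ksl V e (sPw e (y - 1))| ≤ k) (hm : m ≤ lsl e (sPw e (y - 1)))
    (hM : lsl e (sPw e (y - 1)) ≤ M) :
    Zn V T (1 - e) y (c1n y) (swn y - 1 / 2) k m M := by
  have ey : 1 + 1 * (y - 1) = y := by ring
  have p1 : xi1 (y - 1) 1 = c1n y - 1 / 2 := by
    have := pos1 (z := y - 1) (r := 1) (by rw [ey]; exact sq_ok (by linarith) h2.le)
    rw [ey, one_mul] at this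
    exact this
  have p2 : xiw (y - 1) 1 = swn y - 1 := by
    have := posw (z := y - 1) (r := 1) (by nlinarith)
    rw [ey, one_mul] at this
    exact this
  refine Zn.of_sv (p := 1 / 2) (x0 := xi1 (y - 1) 1)
    (A := ⟨(C1u 1 e (y - 1)).k, 0, (C1u 1 e (y - 1)).cB, (C1u 1 e (y - 1)).b⟩)
    (B := sPw e (y - 1)) (P := fun xi => Pw xi 1 e (y - 1)) ?_ ?_ ?_ ?_ ?_ hk hm hM
  · intro xi
    simp only [Pw, sPw]
    ring
  · intro xi
    simp only [Pw, sPw]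
    ring
  · intro xi
    simp only [Pw, sPw]
    ring
  · intro xi
    simp only [Pw, sPw]
    ring
  · intro X h3 h4
    have := hD.pw (r := 1) (lam := e) (z := y - 1) (xi := X - 1 / 2) one_pos (mul_one e)
      (by linarith) (by linarith) (by linarith) (by rw [p2]; linarith)
    rwa [ey] at this

theorem zn_b (hD : VD V T e) {y : ℝ} (h1 : 1 ≤ y) (h2 : y < 17 / 16)
    (hk : |ksl V e (sPb e (y - 1))| ≤ k) (hm : m ≤ lsl e (sPb e (y - 1)))
    (hM : lsl e (sPb e (y - 1)) ≤ M) :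
    Zn V T (1 - e) y (swn y - 1 / 2) (17 / 20 * (swn y - 1 / 2) + 3 / 20 * c3n y) k m M := by
  have ey : 1 + 1 * (y - 1) = y := by ring
  have p2 : xiw (y - 1) 1 = swn y - 1 := by
    have := posw (z := y - 1) (r := 1) (by nlinarith)
    rw [ey, one_mul] at this
    exact this
  have p3 := pos_b (z := y - 1) (r := 1) (by rw [ey]; linarith) (by rw [ey]; linarith)
  rw [ey] at p3
  refine Zn.of_sv (p := 1 / 2) (x0 := xiw (y - 1) 1)
    (A := ⟨(W2 1 e (y - 1)).k, (W2 1 e (y - 1)).cA, 0, (W2 1 e (y - 1)).b⟩)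
    (B := sPb e (y - 1)) (P := fun xi => Pb xi 1 e (y - 1)) ?_ ?_ ?_ ?_ ?_ hk hm hM
  · intro xi
    simp only [Pb, sPb]
    ring
  · intro xi
    simp only [Pb, sPb]
    rw [mul_one]
    ring
  · intro xi
    simp only [Pb, sPb]
    ring
  · intro xi
    simp only [Pb, sPb]
    rw [mul_one]
    ring
  · intro X h3 h4
    have := hD.pb (r := 1) (lam := e) (z := y - 1) (xi := X - 1 / 2) one_pos (mul_one e)
      (by linarith) (by linarith) (by linarith) (by rw [p3]; linarith)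
    rwa [ey] at this

theorem pos_t0 {Y : ℝ} (h1 : 31 / 16 < Y) (h2 : Y ≤ 2) : xi1 (Y - 2) 1 = t0 Y := by
  have ey : 1 + 1 * (Y - 2) = Y - 1 := by ring
  have := pos1 (z := Y - 2) (r := 1) (by rw [ey]; exact sq_ok (by linarith) (by linarith))
  rw [ey, one_mul] at this
  exact this

theorem pos_x3v {Y : ℝ} (h2 : Y ≤ 2) (h1 : 31 / 16 < Y) : x3v (Y - 2) 1 = c3n Y := by
  have ey : 2 + 1 * (Y - 2) = Y := by ring
  have := pos3 (u := Y - 2) (r := 1) one_pos (by linarith) (by rw [ey]; nlinarith)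
  rw [ey, one_mul] at this
  exact this

theorem t0_nn {Y : ℝ} (h1 : 31 / 16 < Y) (h2 : Y ≤ 2) : 0 ≤ t0 Y := by
  have := c1n_hi (v := Y - 1) (by linarith) (by linarith)
  unfold t0
  linarith

theorem zn_v0 (hD : VD V T e) {Y : ℝ} (h1 : 31 / 16 < Y) (h2 : Y ≤ 2)
    (hk : |ksl V e (sV0 e (Y - 2))| ≤ k) (hm : m ≤ lsl e (sV0 e (Y - 2)))
    (hM : lsl e (sV0 e (Y - 2)) ≤ M) : Zn V T (1 - e) Y (-t0 Y) (t0 Y) k m M := by
  have ey : 2 + 1 * (Y - 2) = Y := by ring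
  have p1 := pos_t0 h1 h2
  have h : Zn V T (1 - e) Y 0 (t0 Y) k m M := by
    refine Zn.of_sv (p := 0) (x0 := 0) (A := ⟨0, 0, 0, 0⟩)
      (B := sV0 e (Y - 2)) (P := fun xi => V0 xi 1 e (Y - 2)) ?_ ?_ ?_ ?_ ?_ hk hm hM
    · intro xi
      simp only [V0, sV0]
      ring
    · intro xi
      simp only [V0, sV0]
      ring
    · intro xi
      simp only [V0, sV0]
      ring
    · intro xi
      simp only [V0, sV0]
      ring
    · intro X h3 h4
      have := hD.v0 (r := 1) (lam := e) (u := Y - 2) (xi := X - 0) one_pos (mul_one e)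
        (by linarith) (by linarith) (by linarith) (by rw [p1]; linarith)
      rwa [ey] at this
  have h' := h.neg
  rw [neg_zero] at h'
  exact h'.glue h

theorem zn_v1 (hD : VD V T e) {Y : ℝ} (h1 : 31 / 16 < Y) (h2 : Y ≤ 2)
    (hk : |ksl V e (sV1 e (Y - 2))| ≤ k) (hm : m ≤ lsl e (sV1 e (Y - 2)))
    (hM : lsl e (sV1 e (Y - 2)) ≤ M) :
    Zn V T (1 - e) Y (t0 Y) (t0 Y + 3 / 20 * (c3n Y - t0 Y)) k m M := by
  have ey : 2 + 1 * (Y - 2) = Y := by ring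
  have p1 := pos_t0 h1 h2
  have p2 := pos_x3v h2 h1
  refine Zn.of_sv (p := 0) (x0 := xi1 (Y - 2) 1)
    (A := ⟨(W3 1 e (Y - 2)).k, (W3 1 e (Y - 2)).cA, 0, (W3 1 e (Y - 2)).b⟩)
    (B := sV1 e (Y - 2)) (P := fun xi => V1 xi 1 e (Y - 2)) ?_ ?_ ?_ ?_ ?_ hk hm hM
  · intro xi
    simp only [V1, sV1]
    ring
  · intro xi
    simp only [V1, sV1]
    ring
  · intro xi
    simp only [V1, sV1]
    ring
  · intro xi
    simp only [V1, sV1]
    ring
  · intro X h3 h4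
    have := hD.v1 (r := 1) (lam := e) (u := Y - 2) (xi := X - 0) one_pos (mul_one e)
      (by linarith) (by linarith) (by rw [p1]; linarith)
      (by unfold xv5; rw [p1, p2]; linarith)
    rwa [ey] at this

theorem zn_v2 (hD : VD V T e) {Y : ℝ} (h1 : 31 / 16 < Y) (h2 : Y ≤ 2)
    (hk : |ksl V e (sV2 e (Y - 2))| ≤ k) (hm : m ≤ lsl e (sV2 e (Y - 2)))
    (hM : lsl e (sV2 e (Y - 2)) ≤ M) :
    Zn V T (1 - e) Y (t0 Y + 3 / 20 * (c3n Y - t0 Y)) (t0 Y + 3 / 5 * (c3n Y - t0 Y)) k m M := by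
  have ey : 2 + 1 * (Y - 2) = Y := by ring
  have p1 := pos_t0 h1 h2
  have p2 := pos_x3v h2 h1
  refine Zn.of_sv (p := 0) (x0 := xi1 (Y - 2) 1)
    (A := ⟨(W3 1 e (Y - 2)).k, 0, v5 1 e (Y - 2) - 1 / 3 * (v6 1 e (Y - 2) - v5 1 e (Y - 2)),
      (W3 1 e (Y - 2)).b⟩)
    (B := sV2 e (Y - 2)) (P := fun xi => V2 xi 1 e (Y - 2)) ?_ ?_ ?_ ?_ ?_ hk hm hM
  · intro xi
    simp only [V2, sV2]
    ring
  · intro xi
    simp only [V2, sV2]
    ring
  · intro xi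
    simp only [V2, sV2]
    ring
  · intro xi
    simp only [V2, sV2]
    ring
  · intro X h3 h4
    have := hD.v2 (r := 1) (lam := e) (u := Y - 2) (xi := X - 0) one_pos (mul_one e)
      (by linarith) (by linarith) (by unfold xv5; rw [p1, p2]; linarith)
      (by unfold xv6; rw [p1, p2]; linarith)
    rwa [ey] at this

theorem zn_v3 (hD : VD V T e) {Y : ℝ} (h1 : 31 / 16 < Y) (h2 : Y ≤ 2)
    (hk : |ksl V e (sV3 e (Y - 2))| ≤ k) (hm : m ≤ lsl e (sV3 e (Y - 2)))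
    (hM : lsl e (sV3 e (Y - 2)) ≤ M) :
    Zn V T (1 - e) Y (t0 Y + 3 / 5 * (c3n Y - t0 Y)) (c3n Y) k m M := by
  have ey : 2 + 1 * (Y - 2) = Y := by ring
  have p1 := pos_t0 h1 h2
  have p2 := pos_x3v h2 h1
  refine Zn.of_sv (p := 0) (x0 := xi1 (Y - 2) 1)
    (A := ⟨(W3 1 e (Y - 2)).k, 0, v6 1 e (Y - 2) - 3 / 2 * ((C33 1 e (Y - 2)).cB - v6 1 e (Y - 2)),
      (W3 1 e (Y - 2)).b⟩)
    (B := sV3 e (Y - 2)) (P := fun xi => V3 xi 1 e (Y - 2)) ?_ ?_ ?_ ?_ ?_ hk hm hM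
  · intro xi
    simp only [V3, sV3]
    ring
  · intro xi
    simp only [V3, sV3]
    ring
  · intro xi
    simp only [V3, sV3]
    ring
  · intro xi
    simp only [V3, sV3]
    ring
  · intro X h3 h4
    have := hD.v3 (r := 1) (lam := e) (u := Y - 2) (xi := X - 0) one_pos (mul_one e)
      (by linarith) (by linarith) (by unfold xv6; rw [p1, p2]; linarith)
      (by rw [p2]; linarith)
    rwa [ey] at this

end

end Pool.Agent.Strip051.LC.E1
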