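import Pool.Agent.Strip051.LC.E1.VertF

/-! # Rests near the full period: bounds of the constants -/

namespace Pool.Agent.Strip051.LC.E1

open Pool.Agent.StripNear Pool.Agent.StripSquare Pool.Agent.Strip051 Pool.Agent.Strip051.Sweep
open Pool.Agent.Strip051.PB
open Pool.Agent.Strip051.LC.E0.G (om cc1 xi1 sg1 cc3 xi3 sg3 xiw dwl dwu)
open G

section

variable {e : ℝ}

theorem gs_lo (he : 0 < e) (he1 : e ≤ 1 / 40) : 1 / 2 + 3 / 2 * e - 3 * e ^ 2 ≤ gs e := by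
  unfold gs
  refine Real.le_sqrt_of_sq_le ?_
  have h3 : 0 ≤ e ^ 3 * (9 - 9 * e) := by
    have : 0 ≤ 9 - 9 * e := by linarith
    positivity
  nlinarith

theorem gs_up (he : 0 < e) (he1 : e ≤ 1 / 40) : gs e ≤ 1 / 2 + 3 / 2 * e - 11 / 4 * e ^ 2 := by
  unfold gs
  refine Real.sqrt_le_iff.2 ⟨by nlinarith, ?_⟩
  have h3 : 0 ≤ e ^ 2 * (1 / 4 - 33 / 4 * e) := by
    have : 0 ≤ 1 / 4 - 33 / 4 * e := by linarith
    positivity
  have h4 : 0 ≤ e ^ 4 := by positivity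
  nlinarith

theorem LAM_lo (he : 0 < e) (he1 : e ≤ 1 / 40) : 1 - 3 * e + 11 / 2 * e ^ 2 ≤ LAM e := by
  have := gs_up he he1
  unfold LAM
  linarith

theorem LAM_up (he : 0 < e) (he1 : e ≤ 1 / 40) : LAM e ≤ 1 - 3 * e + 6 * e ^ 2 := by
  have := gs_lo he he1
  unfold LAM
  linarith

theorem ig_lo (he : 0 < e) (he1 : e ≤ 1 / 40) : 1 - 3 / 2 * e + 4 * e ^ 2 ≤ ig e := by
  have h1 := @ig_mul e
  have h2 := @ig_pos e
  have h3 := gs_up he he1
  have h4 : ig e * (1 + 3 / 2 * e - 11 / 4 * e ^ 2) ≥ 1 := by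
    have := mul_le_mul_of_nonneg_left h3 h2.le
    linarith
  have h5 : 0 < 1 + 3 / 2 * e - 11 / 4 * e ^ 2 := by nlinarith
  by_contra h
  push Not at h
  have h6 := mul_lt_mul_of_pos_right h h5
  have h7 : 0 ≤ e ^ 2 * (1 - 81 / 8 * e) := by
    have : 0 ≤ 1 - 81 / 8 * e := by linarith
    positivity
  have h8 : 0 ≤ e ^ 4 := by positivity
  nlinarith

theorem ig_up (he : 0 < e) (he1 : e ≤ 1 / 40) : ig e ≤ 1 - 3 / 2 * e + 21 / 4 * e ^ 2 := by
  have h1 := @ig_mul e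
  have h2 := @ig_pos e
  have h3 := gs_lo he he1
  have h4 : ig e * (1 + 3 / 2 * e - 3 * e ^ 2) ≤ 1 := by
    have := mul_le_mul_of_nonneg_left h3 h2.le
    linarith
  have h5 : 0 < 1 + 3 / 2 * e - 3 * e ^ 2 := by nlinarith
  by_contra h
  push Not at h
  have h6 := mul_lt_mul_of_pos_right h h5
  have h7 : 0 ≤ e ^ 3 * (99 / 8 - 63 / 4 * e) := by
    have : 0 ≤ 99 / 8 - 63 / 4 * e := by linarith
    positivity
  nlinarith

theorem eh_lo (he : 0 < e) (he1 : e ≤ 1 / 40) : 1 - 3 * e + 7 * e ^ 2 ≤ eh e := by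
  have h1 := ig_lo he he1
  have h2 : 0 ≤ 3 / 2 - 3 / 4 * e := by linarith
  have h3 := mul_le_mul_of_nonneg_left h1 h2
  have h4 : 0 ≤ e ^ 2 * (1 / 8 - 3 * e) := by
    have : 0 ≤ 1 / 8 - 3 * e := by linarith
    positivity
  unfold eh
  nlinarith

theorem eh_up (he : 0 < e) (he1 : e ≤ 1 / 40) : eh e ≤ 1 - 3 * e + 9 * e ^ 2 := by
  have h1 := ig_up he he1
  have h2 : 0 ≤ 3 / 2 - 3 / 4 * e := by linarith
  have h3 := mul_le_mul_of_nonneg_left h1 h2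
  have h4 : 0 ≤ e ^ 3 := by positivity
  unfold eh
  nlinarith

theorem q1_lo (he : 0 < e) (he1 : e ≤ 1 / 40) : 3 - 9 * e ≤ q1 e := by
  have h1 := ig_lo he he1
  have h2 := eh_lo he he1
  have h3 : 0 ≤ 1 - 3 / 2 * e + 4 * e ^ 2 := by nlinarith
  have h4 : (2 - 3 * e + 7 * e ^ 2) * (1 - 3 / 2 * e + 4 * e ^ 2) ≤ (1 + eh e) * ig e :=
    mul_le_mul (by linarith) h1 h3 (by nlinarith [sq_nonneg e])
  have h5 : 0 ≤ e ^ 2 * (39 / 2 - 45 / 2 * e + 28 * e ^ 2) := by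
    have : 0 ≤ 39 / 2 - 45 / 2 * e + 28 * e ^ 2 := by nlinarith [sq_nonneg e]
    positivity
  unfold q1
  nlinarith

theorem q1_up (he : 0 < e) (he1 : e ≤ 1 / 40) : q1 e ≤ 3 - 8 * e := by
  have h1 := ig_up he he1
  have h2 := eh_up he he1
  have h2' := eh_lo he he1
  have h3 : 0 ≤ ig e := ig_pos.le
  have h4 : (1 + eh e) * ig e ≤ (2 - 3 * e + 9 * e ^ 2) * (1 - 3 / 2 * e + 21 / 4 * e ^ 2) :=
    mul_le_mul (by linarith) h1 h3 (by nlinarith [sq_nonneg e])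
  have h5 : 0 ≤ e * (2 / 3 - 24 * e + 117 / 4 * e ^ 2 - 189 / 4 * e ^ 3) := by
    have : 0 ≤ 2 / 3 - 24 * e + 117 / 4 * e ^ 2 - 189 / 4 * e ^ 3 := by
      have k : e ^ 3 ≤ 1 / 40 * e ^ 2 := by nlinarith [sq_nonneg e]
      nlinarith [sq_nonneg e]
    positivity
  unfold q1
  nlinarith

theorem mu_lo (he : 0 < e) (he1 : e ≤ 1 / 40) : 12 / 49 ≤ G.mu e := by
  have h1 := gs_up he he1
  have h0 := @gs_nonneg e
  unfold G.mu
  rw [le_div_iff₀ (by linarith)]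
  nlinarith [sq_nonneg e]

theorem mu_up (he : 0 < e) (he1 : e ≤ 1 / 40) : G.mu e ≤ 1 / 4 := by
  have h1 := gs_lo he he1
  unfold G.mu
  rw [div_le_iff₀ (by nlinarith)]
  nlinarith

theorem B0_up (he : 0 < e) (he1 : e ≤ 1 / 40) : B0 e ≤ 1 / 2 := by
  have h1 := LAM_up he he1
  have h2 := eh_lo he he1
  have h3 : 0 < eh e := eh_pos he (by linarith)
  unfold B0
  rw [div_le_iff₀ (by linarith)]
  nlinarith [sq_nonneg e]

theorem B0_lo (he : 0 < e) (he1 : e ≤ 1 / 40) : 249 / 500 ≤ B0 e := by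
  have h1 := LAM_lo he he1
  have h2 := eh_up he he1
  have h3 : 0 < eh e := eh_pos he (by linarith)
  unfold B0
  rw [le_div_iff₀ (by linarith)]
  nlinarith [sq_nonneg e]

theorem pK_lo (he : 0 < e) (he1 : e ≤ 1 / 40) : -6 ≤ pK e := by
  have h1 := q1_lo he he1
  have h2 := eh_lo he he1
  have h3 := eh_up he he1
  have h4 := gs_lo he he1
  have h5 := gs_up he he1
  have h6 : 0 < eh e := eh_pos he (by linarith)
  have h7 : 0 < gs e := by nlinarith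
  unfold pK
  rw [le_div_iff₀ (by positivity)]
  have k1 : eh e * (1 / 2 + 3 / 2 * e - 3 * e ^ 2) ≤ eh e * gs e :=
    mul_le_mul_of_nonneg_left h4 h6.le
  -- `-12 eh gs + (eh + 1) (9/4 - 3/4 e) + eh (2 eh + 1) ≤ q1 / 2`
  have k2 : 0 ≤ (eh e - (1 - 3 * e + 7 * e ^ 2)) * (1 - 3 * e + 9 * e ^ 2 - eh e) :=
    mul_nonneg (by linarith) (by linarith)
  have k3 : 0 ≤ e * (eh e - (1 - 3 * e + 7 * e ^ 2)) := mul_nonneg he.le (by linarith)
  have k4 : 0 ≤ e * (1 - 3 * e + 9 * e ^ 2 - eh e) := mul_nonneg he.le (by linarith)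
  have k5 : 0 ≤ e ^ 2 * (eh e - (1 - 3 * e + 7 * e ^ 2)) := mul_nonneg (sq_nonneg e) (by linarith)
  have k6 : 0 ≤ e ^ 2 * (1 - 3 * e + 9 * e ^ 2 - eh e) := mul_nonneg (sq_nonneg e) (by linarith)
  have k7 : e ^ 3 ≤ 1 / 40 * e ^ 2 := by nlinarith [sq_nonneg e]
  have k8 : e ^ 4 ≤ 1 / 1600 * e ^ 2 := by nlinarith [sq_nonneg e]
  have k9 : 0 ≤ e ^ 3 := by positivity
  have k10 : 0 ≤ e ^ 4 := by positivity
  nlinarith

theorem pK_up (he : 0 < e) (he1 : e ≤ 1 / 40) : pK e ≤ -(11 / 2) := by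
  have h1 := q1_up he he1
  have h2 := eh_lo he he1
  have h3 := eh_up he he1
  have h4 := gs_lo he he1
  have h5 := gs_up he he1
  have h6 : 0 < eh e := eh_pos he (by linarith)
  have h7 : 0 < gs e := by nlinarith
  unfold pK
  rw [div_le_iff₀ (by positivity)]
  have k1 : eh e * gs e ≤ eh e * (1 / 2 + 3 / 2 * e - 11 / 4 * e ^ 2) :=
    mul_le_mul_of_nonneg_left h5 h6.le
  have k2 : 0 ≤ (eh e - (1 - 3 * e + 7 * e ^ 2)) * (1 - 3 * e + 9 * e ^ 2 - eh e) :=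
    mul_nonneg (by linarith) (by linarith)
  have k3 : 0 ≤ e * (eh e - (1 - 3 * e + 7 * e ^ 2)) := mul_nonneg he.le (by linarith)
  have k4 : 0 ≤ e * (1 - 3 * e + 9 * e ^ 2 - eh e) := mul_nonneg he.le (by linarith)
  have k5 : 0 ≤ e ^ 2 * (eh e - (1 - 3 * e + 7 * e ^ 2)) := mul_nonneg (sq_nonneg e) (by linarith)
  have k6 : 0 ≤ e ^ 2 * (1 - 3 * e + 9 * e ^ 2 - eh e) := mul_nonneg (sq_nonneg e) (by linarith)
  have k7 : e ^ 3 ≤ 1 / 40 * e ^ 2 := by nlinarith [sq_nonneg e]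
  have k9 : 0 ≤ e ^ 3 := by positivity
  have k10 : 0 ≤ e ^ 4 := by positivity
  nlinarith

end

/-! ### Piecewise linear functions -/

/-- `F` is between two multiples of `t` and linear beyond `a` with the slope `S`. -/
structure Hs (F : ℝ → ℝ) (lo hi a S : ℝ) : Prop where
  a0 : 0 ≤ a
  lo : ∀ t, 0 ≤ t → lo * t ≤ F t
  hi : ∀ t, 0 ≤ t → F t ≤ hi * t
  af : ∀ t, a ≤ t → F t = F a + S * (t - a)

theorem Hs.init {lo hi S : ℝ} (h1 : lo ≤ S) (h2 : S ≤ hi) : Hs (fun t => S * t) lo hi 0 S := by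
  refine ⟨le_rfl, fun t ht => ?_, fun t ht => ?_, fun t _ => by ring⟩
  · exact mul_le_mul_of_nonneg_right h1 ht
  · exact mul_le_mul_of_nonneg_right h2 ht

theorem Hs.step {F : ℝ → ℝ} {lo hi a S b S' : ℝ} (h : Hs F lo hi a S) (hb : a ≤ b)
    (h1 : lo ≤ S') (h2 : S' ≤ hi) : Hs (fun t => F t + (S' - S) * hg (t - b)) lo hi b S' := by
  have a0 := h.a0
  have key : ∀ t, b ≤ t → F t + (S' - S) * hg (t - b) = F b + S' * (t - b) := by
    intro t ht
    have e1 := h.af t (by linarith)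
    have e2 := h.af b hb
    have e3 : hg (t - b) = t - b := by
      unfold hg
      exact max_eq_left (by linarith)
    rw [e3, e1, e2]
    ring
  have low : ∀ t, t ≤ b → F t + (S' - S) * hg (t - b) = F t := by
    intro t ht
    have e3 : hg (t - b) = 0 := by
      unfold hg
      exact max_eq_right (by linarith)
    rw [e3]
    ring
  refine ⟨by linarith, fun t ht => ?_, fun t ht => ?_, fun t ht => ?_⟩
  · rcases le_total t b with h3 | h3
    · rw [low t h3]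
      exact h.lo t ht
    · rw [key t h3]
      have k1 := h.lo b (by linarith)
      have k2 := mul_le_mul_of_nonneg_right h1 (by linarith : 0 ≤ t - b)
      linarith
  · rcases le_total t b with h3 | h3
    · rw [low t h3]
      exact h.hi t ht
    · rw [key t h3]
      have k1 := h.hi b (by linarith)
      have k2 := mul_le_mul_of_nonneg_right h2 (by linarith : 0 ≤ t - b)
      linarith
  · rw [key t ht, low b le_rfl]

/-- The same with a factor of the hinge. -/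
theorem Hs.step' {F : ℝ → ℝ} {lo hi a S c b S' D : ℝ} (h : Hs F lo hi a S) (hc : 0 < c)
    (hb : c * a ≤ b) (hD : D * c = S' - S) (h1 : lo ≤ S') (h2 : S' ≤ hi) :
    Hs (fun t => F t + D * hg (c * t - b)) lo hi (b / c) S' := by
  have h3 := h.step (b := b / c) (by rw [le_div_iff₀ hc]; linarith) h1 h2
  have e : ∀ t, D * hg (c * t - b) = (S' - S) * hg (t - b / c) := by
    intro t
    have e1 : c * t - b = c * (t - b / c) := by field_simp
    have e2 : hg (c * (t - b / c)) = c * hg (t - b / c) := by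
      unfold hg
      rw [mul_max_of_nonneg _ _ hc.le, mul_zero]
    rw [e1, e2, ← hD]
    ring
  simp only [e]
  exact h3

theorem Hs.cg {F G : ℝ → ℝ} {lo hi a S : ℝ} (h : Hs F lo hi a S) (e : ∀ t, G t = F t) :
    Hs G lo hi a S := by
  have : G = F := funext e
  rw [this]
  exact h

/-! ### The positions -/

theorem c1_dn_up {a : ℝ} (h0 : 0 ≤ a) (h1 : a ≤ 1 / 16) :
    c1n (1 - a) ≤ 1 / 2 + 3 / 2 * a - 5 / 2 * a ^ 2 := by
  unfold c1n
  refine Real.sqrt_le_iff.2 ⟨by nlinarith, ?_⟩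
  have h3 : 0 ≤ a ^ 2 * (1 / 2 - 15 / 2 * a + 25 / 4 * a ^ 2) := by
    have : 0 ≤ 1 / 2 - 15 / 2 * a + 25 / 4 * a ^ 2 := by nlinarith
    positivity
  nlinarith

theorem c1_dn_lo {a : ℝ} (h0 : 0 ≤ a) (h1 : a ≤ 1 / 16) :
    1 / 2 + 3 / 2 * a - 3 * a ^ 2 ≤ c1n (1 - a) := by
  unfold c1n
  refine Real.le_sqrt_of_sq_le ?_
  have h3 : 0 ≤ a ^ 3 * (9 - 9 * a) := by
    have : 0 ≤ 9 - 9 * a := by linarith
    positivity
  nlinarith

theorem c1_up_up {a : ℝ} (h0 : 0 ≤ a) (h1 : a ≤ 1 / 16) :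
    c1n (1 + a) ≤ 1 / 2 - 3 / 2 * a - 3 * a ^ 2 := by
  unfold c1n
  refine Real.sqrt_le_iff.2 ⟨by nlinarith, ?_⟩
  have h3 : 0 ≤ a ^ 3 * (9 + 9 * a) := by positivity
  nlinarith

theorem c1_up_lo {a : ℝ} (h0 : 0 ≤ a) (h1 : a ≤ 1 / 16) :
    1 / 2 - 3 / 2 * a - 4 * a ^ 2 ≤ c1n (1 + a) := by
  unfold c1n
  refine Real.le_sqrt_of_sq_le ?_
  have h3 : 0 ≤ a ^ 2 * (1 - 12 * a - 16 * a ^ 2) := by
    have : 0 ≤ 1 - 12 * a - 16 * a ^ 2 := by nlinarith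
    positivity
  nlinarith

end Pool.Agent.Strip051.LC.E1
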