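import Pool.Agent.Strip051.LC.E1.VertG

/-! # Rests near the full period: the positions in the unit scale -/

namespace Pool.Agent.Strip051.LC.E1

open Pool.Agent.StripNear Pool.Agent.StripSquare Pool.Agent.Strip051 Pool.Agent.Strip051.Sweep
open Pool.Agent.Strip051.PB
open Pool.Agent.Strip051.LC.E0.G (om cc1 xi1 sg1 cc3 xi3 sg3 xiw dwl dwu)
open G

/-- The positions at the height `1 - a`. -/
structure Dn (a : ℝ) : Prop where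
  a0 : 0 < a
  a1 : a ≤ 1 / 16
  clo : 1 / 2 + 3 / 2 * a - 3 * a ^ 2 ≤ cc1 (-a) 1
  cup : cc1 (-a) 1 ≤ 1 / 2 + 3 / 2 * a - 5 / 2 * a ^ 2
  t : -sg1 (-a) 1 = a / 2 + (cc1 (-a) 1 - 1 / 2)
  q : dwl (-a) 1 = xiw (-a) 1 + 3 / 2 - cc1 (-a) 1
  wlo : -(2 / 5 * a ^ 2) ≤ xiw (-a) 1
  wup : xiw (-a) 1 ≤ -(3 / 8 * a ^ 2)
  glo : 0 ≤ -g1 (-a) 1
  gup : -g1 (-a) 1 ≤ 39 / 50 * a
  x : xa (-a) 1 = cc1 (-a) 1 + dwl (-a) 1 / 5

/-- The positions at the height `1 + a`. -/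
structure Up (a : ℝ) : Prop where
  a0 : 0 ≤ a
  a1 : a ≤ 1 / 16
  clo : 1 / 2 - 3 / 2 * a - 4 * a ^ 2 ≤ cc1 a 1
  cup : cc1 a 1 ≤ 1 / 2 - 3 / 2 * a - 3 * a ^ 2
  t : sg1 a 1 = a / 2 + (1 / 2 - cc1 a 1)
  w : xiw a 1 - xi1 a 1 = xiw a 1 + (1 / 2 - cc1 a 1)
  wlo : -(2 / 5 * a ^ 2) ≤ xiw a 1
  wup : xiw a 1 ≤ -(3 / 8 * a ^ 2)
  glo : 0 ≤ g1 a 1
  gup : g1 a 1 ≤ 9 / 10 * a
  ulo : 1 - 3 / 5 * a ≤ dwu a 1
  uup : dwu a 1 ≤ 1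
  x : xb a 1 = 1 / 2 + xiw a 1 + 3 / 20 * dwu a 1

theorem xi1_1 {z : ℝ} (h : 3 / 4 * (1 + z) ^ 2 ≤ 1) : xi1 z 1 = cc1 z 1 - 1 / 2 := by
  have := E0.BaseP.x_xi1 (x := 1) (z := z) (by rw [one_mul]; exact h)
  rwa [one_mul] at this

theorem xi3_1 {z : ℝ} (h : 3 / 4 * (1 + z) ^ 2 ≤ 3) : xi3 z 1 = cc3 z 1 - 3 / 2 := by
  have := E0.BaseP.x_xi3 (x := 1) (z := z) (by rw [one_mul]; exact h)
  rwa [one_mul] at this

theorem cc1_c {z : ℝ} : cc1 z 1 = c1n (1 + z) := by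
  unfold cc1 c1n
  rw [one_mul]

theorem xiw_bd {z : ℝ} (h : z ^ 2 ≤ 1 / 256) :
    -(2 / 5 * z ^ 2) ≤ xiw z 1 ∧ xiw z 1 ≤ -(3 / 8 * z ^ 2) := by
  have h1 := posw (z := z) (r := 1) (by nlinarith)
  rw [one_mul, one_mul, show (1 : ℝ) + z = 1 + z by ring] at h1
  rw [h1]
  have h2 := sq_nonneg z
  unfold swn
  rw [add_sub_cancel_left]
  constructor
  · have : 1 - 2 / 5 * z ^ 2 ≤ Real.sqrt (1 - 3 / 4 * z ^ 2) :=
      Real.le_sqrt_of_sq_le (by nlinarith)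
    linarith
  · have : Real.sqrt (1 - 3 / 4 * z ^ 2) ≤ 1 - 3 / 8 * z ^ 2 :=
      Real.sqrt_le_iff.2 ⟨by nlinarith, by nlinarith⟩
    linarith

theorem dn {a : ℝ} (h0 : 0 < a) (h1 : a ≤ 1 / 16) : Dn a := by
  have e : (1 : ℝ) + -a = 1 - a := by ring
  have c1 := c1_dn_lo h0.le h1
  have c2 := c1_dn_up h0.le h1
  rw [← e, ← cc1_c] at c1 c2
  have p := xi1_1 (z := -a) (by rw [e]; nlinarith)
  have t : -sg1 (-a) 1 = a / 2 + (cc1 (-a) 1 - 1 / 2) := by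
    unfold sg1
    rw [p]
    ring
  obtain ⟨w1, w2⟩ := xiw_bd (z := -a) (by nlinarith)
  rw [neg_sq] at w1 w2
  have a2 : a ^ 2 ≤ 1 / 16 * a := by nlinarith
  have den : 0 < 1 + (cc1 (-a) 1 / 2 + 3 / 4 * (1 + 1 * -a)) := by linarith
  have eg : -g1 (-a) 1 = 3 / 4 * (-sg1 (-a) 1) / (1 + (cc1 (-a) 1 / 2 + 3 / 4 * (1 + 1 * -a))) := by
    unfold g1
    ring
  refine ⟨h0, h1, c1, c2, t, ?_, w1, w2, ?_, ?_, ?_⟩
  · unfold dwl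
    rw [p]
    ring
  · rw [eg, t]
    apply div_nonneg _ den.le
    nlinarith
  · rw [eg, t, div_le_iff₀ den]
    nlinarith
  · unfold xa
    rw [p]
    ring

theorem up {a : ℝ} (h0 : 0 ≤ a) (h1 : a ≤ 1 / 16) : Up a := by
  have c1 := c1_up_lo h0 h1
  have c2 := c1_up_up h0 h1
  rw [← cc1_c] at c1 c2
  have p := xi1_1 (z := a) (by nlinarith)
  have t : sg1 a 1 = a / 2 + (1 / 2 - cc1 a 1) := by
    unfold sg1
    rw [p]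
    ring
  obtain ⟨w1, w2⟩ := xiw_bd (z := a) (by nlinarith)
  have a2 : a ^ 2 ≤ 1 / 16 * a := by nlinarith
  have den : 0 < 1 + (cc1 a 1 / 2 + 3 / 4 * (1 + 1 * a)) := by linarith
  have c3lo : 3 / 2 - 3 / 5 * a ≤ cc3 a 1 := by
    unfold cc3
    exact Real.le_sqrt_of_sq_le (by nlinarith)
  have c3up : cc3 a 1 ≤ 3 / 2 - a / 2 := by
    unfold cc3
    exact Real.sqrt_le_iff.2 ⟨by linarith, by nlinarith⟩
  have p3 := xi3_1 (z := a) (by nlinarith)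
  refine ⟨h0, h1, c1, c2, t, ?_, w1, w2, ?_, ?_, ?_, ?_, ?_⟩
  · rw [p]
    ring
  · unfold g1
    rw [t]
    apply div_nonneg _ den.le
    nlinarith
  · unfold g1
    rw [t, div_le_iff₀ den]
    nlinarith
  · unfold dwu
    rw [p3]
    nlinarith
  · unfold dwu
    rw [p3]
    nlinarith
  · unfold xb
    ring

/-- The positions at the height `2 - a`. -/
structure Vt (a : ℝ) : Prop where
  a0 : 0 < a
  a1 : a < 1 / 16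
  tlo : 3 / 2 * a - 3 * a ^ 2 ≤ xi1 (-a) 1
  tup : xi1 (-a) 1 ≤ 3 / 2 * a - 5 / 2 * a ^ 2
  x0 : 0 < x3v (-a) 1
  x1 : x3v (-a) 1 ^ 2 = 3 * a - 3 / 4 * a ^ 2
  xup : x3v (-a) 1 ≤ 43 / 100
  ax : a ≤ 147 / 1000 * x3v (-a) 1
  xt : 11 / 2 * a ≤ x3v (-a) 1 - xi1 (-a) 1
  xt' : 4 / 5 * x3v (-a) 1 ≤ x3v (-a) 1 - xi1 (-a) 1

theorem vt {a : ℝ} (h0 : 0 < a) (h1 : a < 1 / 16) : Vt a := by
  have e : (1 : ℝ) + -a = 1 - a := by ring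
  have c1 := c1_dn_lo h0.le h1.le
  have c2 := c1_dn_up h0.le h1.le
  rw [← e, ← cc1_c] at c1 c2
  have p := xi1_1 (z := -a) (by rw [e]; nlinarith)
  have e2 : -(3 * -a / 1) - 3 / 4 * (-a) ^ 2 = 3 * a - 3 / 4 * a ^ 2 := by ring
  have s : x3v (-a) 1 ^ 2 = 3 * a - 3 / 4 * a ^ 2 := by
    unfold x3v
    rw [e2]
    exact Real.sq_sqrt (by nlinarith)
  have x0 : 0 < x3v (-a) 1 := by
    unfold x3v
    rw [e2]
    exact Real.sqrt_pos.2 (by nlinarith)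
  have xup : x3v (-a) 1 ≤ 43 / 100 := by nlinarith
  have h684 : 684 / 100 * a ≤ x3v (-a) 1 := by
    refine abs_le_of_sq_le_sq' ?_ x0.le |>.2
    rw [s]
    nlinarith
  refine ⟨h0, h1, by linarith, by linarith, x0, s, xup, by linarith, ?_, ?_⟩
  · nlinarith
  · nlinarith

end Pool.Agent.Strip051.LC.E1
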