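import Pool.Agent.Strip051.LC.E1.VertH

/-! # Rests near the full period: bounds of a unit kernel from its values -/

namespace Pool.Agent.Strip051.LC.E1

open Pool.Agent.StripNear Pool.Agent.StripSquare Pool.Agent.Strip051 Pool.Agent.Strip051.Sweep
open Pool.Agent.Strip051.PB
open G

theorem hg_nn (x : ℝ) : 0 ≤ hg x := le_max_right _ _

theorem hg_le {x : ℝ} : x ≤ hg x := le_max_left _ _

theorem hg_of {x y : ℝ} (h : x ≤ y) (h0 : 0 ≤ y) : hg x ≤ y := max_le h h0

theorem hg_1 {x : ℝ} (h : 0 ≤ x) : hg x = x := max_eq_left h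

theorem h3_lo : (8660 / 10000 : ℝ) ≤ Real.sqrt 3 / 2 := by
  have : (8660 / 5000 : ℝ) ≤ Real.sqrt 3 := Real.le_sqrt_of_sq_le (by norm_num)
  linarith

theorem h3_up : Real.sqrt 3 / 2 ≤ (8661 / 10000 : ℝ) := by
  have : Real.sqrt 3 ≤ (8661 / 5000 : ℝ) := Real.sqrt_le_iff.2 ⟨by norm_num, by norm_num⟩
  linarith

/-- A piecewise linear function which is between `lo t` and `hi t + β` on `[0, a]`, with the value
`v` at `a` and the slope `S` beyond `a`. -/
structure Hc (F : ℝ → ℝ) (β lo hi a v S : ℝ) : Prop where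
  a0 : 0 ≤ a
  lo : ∀ t, 0 ≤ t → t ≤ a → lo * t ≤ F t
  hi : ∀ t, 0 ≤ t → t ≤ a → F t ≤ hi * t + β
  va : F a = v
  af : ∀ t, a ≤ t → F t = v + S * (t - a)

theorem Hc.init {β lo hi S : ℝ} (hβ : 0 ≤ β) : Hc (fun t => S * t) β lo hi 0 0 S := by
  refine ⟨le_rfl, fun t ht h0 => ?_, fun t ht h0 => ?_, by ring, fun t _ => by ring⟩
  · have : t = 0 := le_antisymm h0 ht
    simp [this]
  · have : t = 0 := le_antisymm h0 ht
    simp [this, hβ]

theorem Hc.step {F : ℝ → ℝ} {β lo hi a v S b v' S' : ℝ} (h : Hc F β lo hi a v S) (hb : a ≤ b)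
    (hv : v + S * (b - a) = v') (h1 : lo * b ≤ v') (h2 : v' ≤ hi * b + β) :
    Hc (fun t => F t + (S' - S) * hg (t - b)) β lo hi b v' S' := by
  have a0 := h.a0
  have va := h.va
  have low : ∀ t, t ≤ b → F t + (S' - S) * hg (t - b) = F t := by
    intro t ht
    rw [hg_np (by linarith)]
    ring
  refine ⟨by linarith, fun t ht h0 => ?_, fun t ht h0 => ?_, ?_, fun t ht => ?_⟩
  · rw [low t h0]
    rcases le_total t a with h3 | h3
    · exact h.lo t ht h3
    rcases hb.eq_or_lt with h4 | h4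
    · have : t = a := by linarith
      rw [this]
      exact h.lo a a0 le_rfl
    rw [h.af t h3]
    have k1 := h.lo a a0 le_rfl
    rw [va] at k1
    have k2 := mul_nonneg (by linarith : 0 ≤ b - t) (by linarith : 0 ≤ v - lo * a)
    have k3 := mul_nonneg (by linarith : 0 ≤ t - a) (by linarith : 0 ≤ v' - lo * b)
    rw [← hv] at k3
    have k4 : (b - a) * (v + S * (t - a) - lo * t) = (b - t) * (v - lo * a) +
        (t - a) * (v + S * (b - a) - lo * b) := by ring
    have k5 : 0 ≤ (b - a) * (v + S * (t - a) - lo * t) := by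
      rw [k4]
      linarith
    have := nonneg_of_mul_nonneg_right k5 (by linarith)
    linarith
  · rw [low t h0]
    rcases le_total t a with h3 | h3
    · exact h.hi t ht h3
    rcases hb.eq_or_lt with h4 | h4
    · have : t = a := by linarith
      rw [this]
      exact h.hi a a0 le_rfl
    rw [h.af t h3]
    have k1 := h.hi a a0 le_rfl
    rw [va] at k1
    have k2 := mul_nonneg (by linarith : 0 ≤ b - t) (by linarith : 0 ≤ hi * a + β - v)
    have k3 := mul_nonneg (by linarith : 0 ≤ t - a) (by linarith : 0 ≤ hi * b + β - v')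
    rw [← hv] at k3
    have k4 : (b - a) * (hi * t + β - (v + S * (t - a))) = (b - t) * (hi * a + β - v) +
        (t - a) * (hi * b + β - (v + S * (b - a))) := by ring
    have k5 : 0 ≤ (b - a) * (hi * t + β - (v + S * (t - a))) := by
      rw [k4]
      linarith
    have := nonneg_of_mul_nonneg_right k5 (by linarith)
    linarith
  · rw [low b le_rfl, h.af b hb]
    exact hv
  · have e1 := h.af t (by linarith)
    rw [hg_1 (by linarith), e1, ← hv]
    ring

/-- The same with a factor of the hinge. -/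
theorem Hc.step' {F : ℝ → ℝ} {β lo hi a v S c b v' S' D : ℝ} (h : Hc F β lo hi a v S)
    (hc : 0 < c) (hb : c * a ≤ b) (hD : D * c = S' - S) (hv : v + S * (b / c - a) = v')
    (h1 : lo * (b / c) ≤ v') (h2 : v' ≤ hi * (b / c) + β) :
    Hc (fun t => F t + D * hg (c * t - b)) β lo hi (b / c) v' S' := by
  have h3 := h.step (S' := S') (b := b / c) (by rw [le_div_iff₀ hc]; linarith) hv h1 h2
  have e : ∀ t, D * hg (c * t - b) = (S' - S) * hg (t - b / c) := by
    intro t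
    have e1 : c * t - b = c * (t - b / c) := by field_simp
    have e2 : hg (c * (t - b / c)) = c * hg (t - b / c) := by
      unfold hg
      rw [mul_max_of_nonneg _ _ hc.le, mul_zero]
    rw [e1, e2, ← hD]
    ring
  simp only [e]
  exact h3

theorem Hc.cg {F G : ℝ → ℝ} {β lo hi a v S : ℝ} (h : Hc F β lo hi a v S) (e : ∀ t, G t = F t) :
    Hc G β lo hi a v S := by
  have : G = F := funext e
  rw [this]
  exact h

/-- The values of a unit kernel at its nodes are between `lo t` and `hi t + κ0 e`. -/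
structure UC (k0 v m p f f' E κ0 lo hi H : ℝ) : Prop where
  p0 : 0 ≤ κ0
  l1 : lo ≤ (v - 2 * k0) * H
  h1 : (v - 2 * k0) * H ≤ hi + κ0
  l2 : lo * (8 / 5) ≤ p + (m - 2 * k0) * H * (3 / 5 - E)
  h2 : p + (m - 2 * k0) * H * (3 / 5 - E) ≤ hi * (8 / 5) + κ0
  l3 : lo * (11 / 5) ≤ p + (m - 2 * k0) * H * (6 / 5 - E)
  h3 : p + (m - 2 * k0) * H * (6 / 5 - E) ≤ hi * (11 / 5) + κ0
  l5 : lo ≤ (16 * f - 2 * k0) * H
  h5 : (16 * f - 2 * k0) * H ≤ hi
  l6 : lo ≤ (10 * f' - 2 * k0) * H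
  h6 : (10 * f' - 2 * k0) * H ≤ hi
  l7 : lo ≤ -(5 * k0) * H
  h7 : -(5 * k0) * H ≤ hi
  l8 : lo * (29 / 100) ≤ -k0
  h8 : -k0 ≤ hi * (29 / 100)

theorem UC.bd {k0 v m p f f' E e κ0 lo hi : ℝ}
    (h : UC k0 v m p f f' E κ0 lo hi (Real.sqrt 3 / 2)) (he : 0 < e) (he1 : e ≤ 1 / 40) {t D : ℝ}
    (hD : D = 10 * (4 / 5 * k0 + f')) (ht : 0 ≤ t) (ht1 : t ≤ 29 / 100) :
    lo * t ≤ uR k0 v m p f f' E 1 e t + D * hg (Real.sqrt 3 / 2 * t - 1 / (5 * 1)) ∧
      uR k0 v m p f f' E 1 e t + D * hg (Real.sqrt 3 / 2 * t - 1 / (5 * 1)) ≤ hi * t + κ0 * e := by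
  have a1 := h3_lo
  have a2 := h3_up
  obtain ⟨H, hH⟩ : ∃ H, H = Real.sqrt 3 / 2 := ⟨_, rfl⟩
  rw [← hH] at a1 a2 h ⊢
  have c0 : 0 < H := by linarith
  have i0 : H * (1 / H) = 1 := by field_simp
  have i1 : 0 < 1 / H := by positivity
  have dv : ∀ x : ℝ, x / H = x * (1 / H) := fun x => by ring
  obtain ⟨I, hI⟩ : ∃ I, I = 1 / H := ⟨_, rfl⟩
  rw [← hI] at i0 i1
  simp only [← hI] at dv
  have be0 : 0 ≤ κ0 * e := mul_nonneg h.p0 he.le
  have s1 := Hc.init (lo := lo) (hi := hi) (S := (v - 2 * k0) * H) be0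
  have s2 := s1.step (b := e) (v' := e * ((v - 2 * k0) * H))
    (S' := (p + (m - 2 * k0) * H * (3 / 5 - E) - (v - 2 * k0) * H) * (5 / 3)) he.le (by ring)
    (by have := mul_le_mul_of_nonneg_left h.l1 he.le; linarith)
    (by have := mul_le_mul_of_nonneg_left h.h1 he.le; linarith)
  have s3 := s2.step (b := 8 / 5 * e) (v' := e * (p + (m - 2 * k0) * H * (3 / 5 - E)))
    (S' := (m - 2 * k0) * H) (by linarith) (by ring)
    (by have := mul_le_mul_of_nonneg_left h.l2 he.le; linarith)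
    (by have := mul_le_mul_of_nonneg_left h.h2 he.le; linarith)
  have s4 := s3.step (b := 11 / 5 * e) (v' := e * (p + (m - 2 * k0) * H * (6 / 5 - E)))
    (S' := ((16 * f - 2 * k0) * H * (5 / 2) - p - (m - 2 * k0) * H * (6 / 5 - E)) * (10 / 3))
    (by linarith) (by ring)
    (by have := mul_le_mul_of_nonneg_left h.l3 he.le; linarith)
    (by have := mul_le_mul_of_nonneg_left h.h3 he.le; linarith)
  have s5 := s4.step (b := 5 / 2 * e) (v' := e * ((16 * f - 2 * k0) * H * (5 / 2)))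
    (S' := (16 * f - 2 * k0) * H) (by linarith) (by ring)
    (by have := mul_le_mul_of_nonneg_left h.l5 he.le; linarith)
    (by have := mul_le_mul_of_nonneg_left h.h5 he.le; linarith)
  have s6 := s5.step' (c := H) (b := 1 / (16 * 1)) (v' := f - k0 / 8)
    (S' := ((4 / 5 * k0 + f') - (7 / 8 * k0 + f)) * (80 / 3) * H)
    (D := ((4 / 5 * k0 + f') - (7 / 8 * k0 + f)) * (80 / 3) - (16 * f - 2 * k0)) c0
    (by nlinarith) (by ring) (by rw [dv]; linear_combination (f - k0 / 8) * i0)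
    (by
      have := mul_le_mul_of_nonneg_right h.l5 i1.le
      rw [dv]
      linear_combination (1 / 16 : ℝ) * this + (f - k0 / 8) * i0)
    (by
      have := mul_le_mul_of_nonneg_right h.h5 i1.le
      rw [dv]
      linear_combination (1 / 16 : ℝ) * this - (f - k0 / 8) * i0 + be0)
  have s7 := s6.step' (c := H) (b := 1 / (10 * 1)) (v' := f' - k0 / 5)
    (S' := -(10 * (4 / 5 * k0 + f')) * H)
    (D := -(10 * (4 / 5 * k0 + f')) - ((4 / 5 * k0 + f') - (7 / 8 * k0 + f)) * (80 / 3)) c0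
    (by rw [mul_div_cancel₀ _ c0.ne']; norm_num) (by ring)
    (by rw [dv, dv]; linear_combination (f' - k0 / 5 - (f - k0 / 8)) * i0)
    (by
      have := mul_le_mul_of_nonneg_right h.l6 i1.le
      rw [dv]
      linear_combination (1 / 10 : ℝ) * this + (f' - k0 / 5) * i0)
    (by
      have := mul_le_mul_of_nonneg_right h.h6 i1.le
      rw [dv]
      linear_combination (1 / 10 : ℝ) * this - (f' - k0 / 5) * i0 + be0)
  have s8 := s7.step' (c := H) (b := 1 / (5 * 1)) (v' := -k0)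
    (S' := 0) (D := D) c0
    (by rw [mul_div_cancel₀ _ c0.ne']; norm_num) (by rw [hD]; ring)
    (by rw [dv, dv]; linear_combination (-k0 - (f' - k0 / 5)) * i0)
    (by
      have := mul_le_mul_of_nonneg_right h.l7 i1.le
      rw [dv]
      linear_combination (1 / 5 : ℝ) * this - k0 * i0)
    (by
      have := mul_le_mul_of_nonneg_right h.h7 i1.le
      rw [dv]
      linear_combination (1 / 5 : ℝ) * this + k0 * i0 + be0)
  have s9 := s8.step (b := 29 / 100) (v' := -k0) (S' := 0)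
    (by rw [div_le_iff₀ c0]; linarith) (by ring) h.l8 (by linarith [h.h8])
  have key : uR k0 v m p f f' E 1 e t + D * hg (H * t - 1 / (5 * 1)) =
      (fun t => (v - 2 * k0) * H * t +
      ((p + (m - 2 * k0) * H * (3 / 5 - E) - (v - 2 * k0) * H) * (5 / 3) - (v - 2 * k0) * H) *
        hg (t - e) +
      ((m - 2 * k0) * H - (p + (m - 2 * k0) * H * (3 / 5 - E) - (v - 2 * k0) * H) * (5 / 3)) *
        hg (t - 8 / 5 * e) +
      (((16 * f - 2 * k0) * H * (5 / 2) - p - (m - 2 * k0) * H * (6 / 5 - E)) * (10 / 3) -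
        (m - 2 * k0) * H) * hg (t - 11 / 5 * e) +
      ((16 * f - 2 * k0) * H -
        ((16 * f - 2 * k0) * H * (5 / 2) - p - (m - 2 * k0) * H * (6 / 5 - E)) * (10 / 3)) *
        hg (t - 5 / 2 * e) +
      (((4 / 5 * k0 + f') - (7 / 8 * k0 + f)) * (80 / 3) - (16 * f - 2 * k0)) *
        hg (H * t - 1 / (16 * 1)) +
      (-(10 * (4 / 5 * k0 + f')) - ((4 / 5 * k0 + f') - (7 / 8 * k0 + f)) * (80 / 3)) *
        hg (H * t - 1 / (10 * 1)) + D * hg (H * t - 1 / (5 * 1)) +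
      (0 - 0) * hg (t - 29 / 100)) t := by
    unfold uR u4 u2 u5 u3 u1 u6 u7
    rw [← hH]
    ring
  rw [key]
  exact ⟨s9.lo t ht ht1, s9.hi t ht ht1⟩


/-- The unit kernels for short arguments. -/
theorem kU_eq {e t : ℝ} (h0 : 0 ≤ t) (h : t ≤ 1 / 5) : kU' 1 e t = kU 1 e t := by
  have := h3_up
  unfold kU'
  rw [hg_np (by nlinarith)]
  ring

theorem bU_eq {e t : ℝ} (h0 : 0 ≤ t) (h : t ≤ 1 / 5) : bU' 1 e t = bU 1 e t := by
  have := h3_up
  unfold bU'
  rw [hg_np (by nlinarith)]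
  ring

/-- A form which is linear in `e`. -/
theorem lin_e {p r e : ℝ} (he : 0 < e) (he1 : e ≤ 1 / 40) (h0 : 0 ≤ p) (h1 : 0 ≤ p + r / 40) :
    0 ≤ p + e * r := by
  have := mul_nonneg (by linarith : 0 ≤ 1 - 40 * e) h0
  have := mul_nonneg he.le h1
  linarith

/-- The first hinge of the levels. -/
theorem hin {H e t c : ℝ} (h1 : 8660 / 10000 ≤ H) (h2 : H ≤ 8661 / 10000) (he : 0 < e)
    (he1 : e ≤ 1 / 40) (hc : 0 ≤ c) (hc1 : c ≤ 167 / 50) (ht : 0 ≤ t) (ht1 : t ≤ 1 / 2) :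
    0 ≤ H * hg (t - c * e) / (1 / 2 - c * H * e) ∧
      H * hg (t - c * e) / (1 / 2 - c * H * e) ≤ 2 * H * t := by
  have k0 : c * (H * e) ≤ 167 / 50 * (H * e) := mul_le_mul_of_nonneg_right hc1 (by positivity)
  have d : 0 < 1 / 2 - c * H * e := by nlinarith
  have g0 := hg_nn (t - c * e)
  refine ⟨by positivity, ?_⟩
  rw [div_le_iff₀ d]
  rcases le_total (t - c * e) 0 with h | h
  · rw [hg_np h, mul_zero]
    positivity
  · rw [hg_1 h]
    have k : 0 ≤ c * (H * e) * (1 - 2 * H * t) := by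
      have : 0 ≤ 1 - 2 * H * t := by nlinarith
      positivity
    nlinarith

end Pool.Agent.Strip051.LC.E1
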