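import Pool.Agent.Strip051.LC.E1.VertI

/-! # Rests near the full period: generic bounds of the slopes -/

namespace Pool.Agent.Strip051.LC.E1

open Pool.Agent.StripNear Pool.Agent.StripSquare Pool.Agent.Strip051 Pool.Agent.Strip051.Sweep
open Pool.Agent.Strip051.PB
open Pool.Agent.Strip051.LC.E0.G (om cc1 xi1 sg1 cc3 xi3 sg3 xiw dwl dwu)
open G

section

variable {e a t : ℝ}

/-! ### The piecewise linear functions next to the curve `W` -/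

theorem tl_hi {b b' s : ℝ} (he : 0 < e) (ha : 0 ≤ a) (h1 : 2 * b ≤ s) (h2 : b' ≤ s) (h3 : 0 ≤ s) :
    tl b b' e a ≤ s * a := by
  unfold tl
  have k1 := mul_le_mul_of_nonneg_right h1 ha
  have k2 := mul_le_mul_of_nonneg_right h2 ha
  have k3 := mul_nonneg h3 ha
  rcases le_total a (e / 2) with c1 | c1
  · rw [hg_np (by linarith), hg_np (by linarith), hg_np (by linarith)]
    linarith
  rcases le_total a e with c2 | c2
  · rw [hg_1 (by linarith), hg_np (by linarith), hg_np (by linarith)]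
    have k4 := mul_le_mul_of_nonneg_right h1 (by linarith : 0 ≤ e - a)
    have k5 := mul_le_mul_of_nonneg_right h2 (by linarith : 0 ≤ a - e / 2)
    linarith
  rcases le_total a (5 / 2 * e) with c3 | c3
  · rw [hg_1 (by linarith), hg_1 (by linarith), hg_np (by linarith)]
    have k5 := mul_le_mul_of_nonneg_right h2 (by linarith : 0 ≤ 5 / 2 * e - a)
    have k6 := mul_nonneg h3 (by linarith : 0 ≤ a - e)
    linarith
  · rw [hg_1 (by linarith), hg_1 (by linarith), hg_1 (by linarith)]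
    linarith

theorem tl_neg {b b' : ℝ} : tl (-b) (-b') e a = -tl b b' e a := by
  unfold tl
  ring

theorem tl_lo {b b' s : ℝ} (he : 0 < e) (ha : 0 ≤ a) (h1 : s ≤ 2 * b) (h2 : s ≤ b') (h3 : s ≤ 0) :
    s * a ≤ tl b b' e a := by
  have := tl_hi (b := -b) (b' := -b') (s := -s) he ha (by linarith) (by linarith) (by linarith)
  rw [tl_neg] at this
  linarith

/-! ### The squares in the levels -/

/-- The squares of the hinges. -/
structure Sq (e t S1 S2 S3 S4 S5 : ℝ) : Prop where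
  e1 : S1 = (Real.sqrt 3 / 2 * hg (t - 167 / 50 * e) /
    (1 / 2 - 167 / 50 * (Real.sqrt 3 / 2) * e)) ^ 2
  e2 : S2 = (hg (Real.sqrt 3 / 2 * t - 29 / (400 * 1)) / (171 / 400)) ^ 2
  e3 : S3 = (hg (Real.sqrt 3 / 2 * t - 9 / (100 * 1)) / (41 / 100)) ^ 2
  e4 : S4 = (hg (Real.sqrt 3 / 2 * t - 3 / (25 * 1)) / (19 / 50)) ^ 2
  e5 : S5 = (hg (Real.sqrt 3 / 2 * t - 9 / (50 * 1)) / (8 / 25)) ^ 2
  p1 : 0 ≤ S1
  u1 : S1 ≤ 3 * t ^ 2

theorem sq_ex (he : 0 < e) (he1 : e ≤ 1 / 40) (ht : 0 ≤ t) (ht1 : t ≤ 1 / 2) :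
    ∃ S1 S2 S3 S4 S5, Sq e t S1 S2 S3 S4 S5 := by
  have a1 := h3_lo
  have a2 := h3_up
  have a3 : (Real.sqrt 3 / 2) ^ 2 = 3 / 4 := by
    rw [div_pow, Real.sq_sqrt (by norm_num)]
    norm_num
  obtain ⟨b0, b1⟩ := hin a1 a2 he he1 (by norm_num : (0 : ℝ) ≤ 167 / 50) le_rfl ht ht1
  refine ⟨_, _, _, _, _, ⟨rfl, rfl, rfl, rfl, rfl, sq_nonneg _, ?_⟩⟩
  have := pow_le_pow_left₀ b0 b1 2
  have h : (2 * (Real.sqrt 3 / 2) * t) ^ 2 = 3 * t ^ 2 := by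
    rw [mul_pow, mul_pow, a3]
    ring
  linarith

/-- A lower bound of the square of a hinge. -/
theorem hsq_lo {k n x0 : ℝ} (hn : 0 < n) (h0 : 0 ≤ x0) (ht : 0 ≤ t) :
    (2 * x0 * (8660 / 10000 * t - k) - x0 ^ 2) / n ^ 2 ≤
      (hg (Real.sqrt 3 / 2 * t - k) / n) ^ 2 := by
  have a1 := mul_le_mul_of_nonneg_right h3_lo ht
  rw [div_pow]
  refine div_le_div_of_nonneg_right ?_ (by positivity)
  have h1 := hg_le (x := Real.sqrt 3 / 2 * t - k)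
  have h2 := mul_le_mul_of_nonneg_left (by linarith : 8660 / 10000 * t - k ≤
    hg (Real.sqrt 3 / 2 * t - k)) h0
  have h3 := sq_nonneg (hg (Real.sqrt 3 / 2 * t - k) - x0)
  linarith

/-- An upper bound of the square of a hinge. -/
theorem hsq_up {k n m : ℝ} (hn : 0 < n) (h : 8661 / 10000 * t - k ≤ m) (hm : 0 ≤ m) (ht : 0 ≤ t) :
    (hg (Real.sqrt 3 / 2 * t - k) / n) ^ 2 ≤ m ^ 2 / n ^ 2 := by
  have a1 := mul_le_mul_of_nonneg_right h3_up ht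
  rw [div_pow]
  refine div_le_div_of_nonneg_right ?_ (by positivity)
  exact pow_le_pow_left₀ (hg_nn _) (hg_of (by linarith) hm) 2

/-- The chord of the square of a hinge. -/
theorem hsq_ch {k n m t1 : ℝ} (hn : 0 < n) (hk : 0 ≤ k) (h : 8661 / 10000 * t1 - k ≤ m)
    (hm : 0 ≤ m) (ht : 0 ≤ t) (ht1 : t ≤ t1) (h0 : 0 < t1) :
    (hg (Real.sqrt 3 / 2 * t - k) / n) ^ 2 ≤ m ^ 2 / (t1 * n ^ 2) * t := by
  have a1 := mul_le_mul_of_nonneg_right h3_up ht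
  rw [div_pow, show m ^ 2 / (t1 * n ^ 2) * t = (m ^ 2 * t / t1) / n ^ 2 by field_simp]
  refine div_le_div_of_nonneg_right ?_ (by positivity)
  rw [le_div_iff₀ h0]
  have g0 := hg_nn (Real.sqrt 3 / 2 * t - k)
  -- the hinge is at most `m t / t1`
  have g1 : hg (Real.sqrt 3 / 2 * t - k) * t1 ≤ m * t := by
    rcases le_total (Real.sqrt 3 / 2 * t - k) 0 with c | c
    · rw [hg_np c]
      nlinarith
    · rw [hg_1 c]
      nlinarith
  have g2 : hg (Real.sqrt 3 / 2 * t - k) ≤ m := by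
    by_contra hc
    push Not at hc
    nlinarith
  calc hg (Real.sqrt 3 / 2 * t - k) ^ 2 * t1
      = hg (Real.sqrt 3 / 2 * t - k) * (hg (Real.sqrt 3 / 2 * t - k) * t1) := by ring
    _ ≤ m * (m * t) := mul_le_mul g2 g1 (by positivity) hm
    _ = m ^ 2 * t := by ring


/-! ### The zone below `h0` -/

theorem sPa_eq (e a : ℝ) : sPa e (-a) =
    ⟨5 * (xa (-a) 1 * fKa 1 (-a) - (1 + kU 1 e (-sg1 (-a) 1)) * (1 / 2 + -g1 (-a) 1)) / dwl (-a) 1,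
    5 * LAM e * (xa (-a) 1 * fXa 1 e (-a) + 1 / 2) / dwl (-a) 1,
    -(5 * (LAM e * bL e 1 e (-sg1 (-a) 1)) / dwl (-a) 1),
    5 * (xa (-a) 1 * fBa 1 (-a) - (B0 e + bU 1 e (-sg1 (-a) 1)) * (1 / 2 + -g1 (-a) 1)) /
      dwl (-a) 1⟩ := by
  simp only [sPa, C1d, mul_one]
  refine Sv.ext ?_ rfl rfl ?_ <;> simp only <;> ring

theorem lPa_eq (e a : ℝ) : lsl e (sPa e (-a)) = LAM e * (1 + 5 * (xa (-a) 1 * fXa 1 e (-a) +
    1 / 2 - bL e 1 e (-sg1 (-a) 1)) / dwl (-a) 1) := by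
  rw [sPa_eq]
  unfold lsl
  simp only
  ring

theorem Dn.q0 (h : Dn a) : 90 / 100 ≤ dwl (-a) 1 := by
  obtain ⟨h0, h1, clo, cup, ht, hq, wlo, wup, glo, gup, hx⟩ := h
  nlinarith

theorem Dn.q1 (h : Dn a) : dwl (-a) 1 ≤ 1 := by
  obtain ⟨h0, h1, clo, cup, ht, hq, wlo, wup, glo, gup, hx⟩ := h
  nlinarith

theorem Dn.tlo (h : Dn a) : 2 * a - 3 * a ^ 2 ≤ -sg1 (-a) 1 := by
  obtain ⟨h0, h1, clo, cup, ht, hq, wlo, wup, glo, gup, hx⟩ := h
  linarith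

theorem Dn.tup (h : Dn a) : -sg1 (-a) 1 ≤ 2 * a - 5 / 2 * a ^ 2 := by
  obtain ⟨h0, h1, clo, cup, ht, hq, wlo, wup, glo, gup, hx⟩ := h
  linarith

theorem Dn.t0 (h : Dn a) : 0 ≤ -sg1 (-a) 1 := by
  have := h.tlo
  have := h.a0
  have := h.a1
  nlinarith

/-- The kernel of the zone below `h0`. -/
theorem kPa (h : Dn a) {K F F0 F1 G0 G1 B l u v : ℝ} (hF1 : F0 - F1 * a ≤ F)
    (hF2 : F ≤ G0 - G1 * a) (hF : 0 ≤ F0 - F1 * a) (hK1 : l * (-sg1 (-a) 1) ≤ K)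
    (hK2 : K ≤ u * (-sg1 (-a) 1) + v) (hl : l ≤ 0) (hu : u ≤ 0) (hla : 0 ≤ B + l * (2 * a)) :
    (5 * (1 / 2 + 131 / 100 * a) + 1 - 153 / 100 * a) * (F0 - F1 * a) -
        5 * (B + v + u * (181 / 100 * a)) * (1 / 2 + 39 / 50 * a) ≤
      5 * (xa (-a) 1 * F - (B + K) * (1 / 2 + -g1 (-a) 1)) ∧
    5 * (xa (-a) 1 * F - (B + K) * (1 / 2 + -g1 (-a) 1)) ≤
      (5 * (1 / 2 + 3 / 2 * a) + 1 - 131 / 100 * a) * (G0 - G1 * a) -
        5 * (B + l * (2 * a)) * (1 / 2) := by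
  obtain ⟨h0, h1, clo, cup, ht, hq, wlo, wup, glo, gup, hx⟩ := h
  obtain ⟨c, hc⟩ : ∃ c, c = cc1 (-a) 1 := ⟨_, rfl⟩
  obtain ⟨q, hqq⟩ : ∃ q, q = dwl (-a) 1 := ⟨_, rfl⟩
  obtain ⟨g, hg'⟩ : ∃ g, g = -g1 (-a) 1 := ⟨_, rfl⟩
  obtain ⟨t, ht'⟩ : ∃ t, t = -sg1 (-a) 1 := ⟨_, rfl⟩
  obtain ⟨w, hw⟩ : ∃ w, w = xiw (-a) 1 := ⟨_, rfl⟩
  rw [← hc] at clo cup ht hq hx
  rw [← hqq] at hq hx
  rw [← hg'] at glo gup ⊢
  rw [← ht'] at ht hK1 hK2
  rw [← hw] at hq wlo wup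
  rw [hx]
  have a2 : a ^ 2 ≤ 1 / 16 * a := by nlinarith
  have a20 : 0 ≤ a ^ 2 := sq_nonneg a
  have t1 : 181 / 100 * a ≤ t := by linarith
  have t2 : t ≤ 2 * a := by linarith
  have kl := mul_le_mul_of_nonpos_left t2 hl
  have ku := mul_le_mul_of_nonpos_left t1 hu
  constructor
  · have k1 : (B + K) * (1 / 2 + g) ≤ (B + v + u * (181 / 100 * a)) * (1 / 2 + 39 / 50 * a) :=
      mul_le_mul (by linarith) (by linarith) (by linarith) (by linarith)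
    have k2 : (1 / 2 + 131 / 100 * a + (1 - 153 / 100 * a) / 5) * (F0 - F1 * a) ≤ (c + q / 5) * F :=
      mul_le_mul (by linarith) hF1 hF (by linarith)
    linarith
  · have k1 : (B + l * (2 * a)) * (1 / 2) ≤ (B + K) * (1 / 2 + g) :=
      mul_le_mul (by linarith) (by linarith) (by norm_num) (by linarith)
    have k2 : (c + q / 5) * F ≤ (1 / 2 + 3 / 2 * a + (1 - 131 / 100 * a) / 5) * (G0 - G1 * a) :=
      mul_le_mul (by linarith) hF2 (by linarith) (by linarith)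
    linarith

/-- The level of the zone below `h0`. -/
theorem lPa_lo (h : Dn a) {F β m : ℝ} (h1 : F + m ≤ 0) (h2 : 4 * F - m ≤ 0)
    (hc : 0 ≤ F * (7 / 2 + 6 * a - 83 / 8 * a ^ 2) + m * (1 - 3 / 2 * a + 17 / 8 * a ^ 2) + 5 / 2 -
      5 * β) : -m ≤ 5 * (xa (-a) 1 * F + 1 / 2 - β) / dwl (-a) 1 := by
  have q0 := h.q0
  obtain ⟨h0, ha1, clo, cup, ht, hq, wlo, wup, glo, gup, hx⟩ := h
  rw [le_div_iff₀ (by linarith), hx]
  have k1 := mul_nonneg_of_nonpos_of_nonpos h2 (by linarith : cc1 (-a) 1 -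
    (1 / 2 + 3 / 2 * a - 5 / 2 * a ^ 2) ≤ 0)
  have k2 := mul_nonneg_of_nonpos_of_nonpos h1 (by linarith : xiw (-a) 1 + 3 / 8 * a ^ 2 ≤ 0)
  have k3 : dwl (-a) 1 * (F + m) = (xiw (-a) 1 + 3 / 2 - cc1 (-a) 1) * (F + m) := by rw [hq]
  linarith

theorem lPa_up (h : Dn a) {F β m : ℝ} (h1 : F + m ≤ 0) (h2 : 4 * F - m ≤ 0)
    (hc : F * (7 / 2 + 6 * a - 62 / 5 * a ^ 2) + m * (1 - 3 / 2 * a + 13 / 5 * a ^ 2) + 5 / 2 -
      5 * β ≤ 0) : 5 * (xa (-a) 1 * F + 1 / 2 - β) / dwl (-a) 1 ≤ -m := by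
  have q0 := h.q0
  obtain ⟨h0, ha1, clo, cup, ht, hq, wlo, wup, glo, gup, hx⟩ := h
  rw [div_le_iff₀ (by linarith), hx]
  have k1 := mul_nonpos_of_nonpos_of_nonneg h2 (by linarith : 0 ≤ cc1 (-a) 1 -
    (1 / 2 + 3 / 2 * a - 3 * a ^ 2))
  have k2 := mul_nonpos_of_nonpos_of_nonneg h1 (by linarith : 0 ≤ xiw (-a) 1 + 2 / 5 * a ^ 2)
  have k3 : dwl (-a) 1 * (F + m) = (xiw (-a) 1 + 3 / 2 - cc1 (-a) 1) * (F + m) := by rw [hq]
  linarith

/-! ### The zones above `h0` -/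

theorem tl_hi' {b b' s : ℝ} (he : 0 < e) (ha : 0 ≤ a) (h1 : b ≤ s) (h2 : b' ≤ s) (h3 : 0 ≤ s) :
    tl b b' e a ≤ s * e := by
  unfold tl
  rcases le_total a (e / 2) with c1 | c1
  · rw [hg_np (by linarith), hg_np (by linarith), hg_np (by linarith)]
    have k1 := mul_le_mul_of_nonneg_right h1 ha
    have k2 := mul_le_mul_of_nonneg_left c1 h3
    linarith
  rcases le_total a e with c2 | c2
  · rw [hg_1 (by linarith), hg_np (by linarith), hg_np (by linarith)]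
    have k4 := mul_le_mul_of_nonneg_right h1 (by linarith : 0 ≤ e - a)
    have k5 := mul_le_mul_of_nonneg_right h2 (by linarith : 0 ≤ a - e / 2)
    linarith
  rcases le_total a (5 / 2 * e) with c3 | c3
  · rw [hg_1 (by linarith), hg_1 (by linarith), hg_np (by linarith)]
    have k5 := mul_le_mul_of_nonneg_right h2 (by linarith : 0 ≤ 5 / 2 * e - a)
    have k6 := mul_nonneg h3 (by linarith : 0 ≤ a - e)
    linarith
  · rw [hg_1 (by linarith), hg_1 (by linarith), hg_1 (by linarith)]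
    have k3 := mul_nonneg h3 he.le
    linarith

theorem tl_lo' {b b' s : ℝ} (he : 0 < e) (ha : 0 ≤ a) (h1 : s ≤ b) (h2 : s ≤ b') (h3 : s ≤ 0) :
    s * e ≤ tl b b' e a := by
  have := tl_hi' (b := -b) (b' := -b') (s := -s) he ha (by linarith) (by linarith) (by linarith)
  rw [tl_neg] at this
  linarith

/-- The width of the zone between the unit circle and `W`. -/
noncomputable def dD (a : ℝ) : ℝ := xiw a 1 - xi1 a 1

theorem Up.dlo (h : Up a) : 3 / 2 * a + 13 / 5 * a ^ 2 ≤ dD a := by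
  unfold dD
  rw [h.w]
  linarith [h.wlo, h.cup]

theorem Up.dup (h : Up a) : dD a ≤ 3 / 2 * a + 29 / 8 * a ^ 2 := by
  unfold dD
  rw [h.w]
  linarith [h.wup, h.clo]

theorem Up.tlo (h : Up a) : 2 * a + 3 * a ^ 2 ≤ sg1 a 1 := by
  linarith [h.t, h.cup]

theorem Up.tup (h : Up a) : sg1 a 1 ≤ 2 * a + 4 * a ^ 2 := by
  linarith [h.t, h.clo]

theorem Up.t0 (h : Up a) : 0 ≤ sg1 a 1 := by
  have := h.tlo
  have := h.a0
  nlinarith

theorem Up.g7 (h : Up a) : 7 / 10 * a ≤ g1 a 1 := by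
  have a0 := h.a0
  have a1 := h.a1
  have c1 := h.cup
  have c0 := h.clo
  have t := h.t
  have den : 0 < 1 + (cc1 a 1 / 2 + 3 / 4 * (1 + 1 * a)) := by nlinarith
  unfold g1
  rw [t, le_div_iff₀ den]
  nlinarith

theorem sPw_eq (e a : ℝ) : sPw e a =
    ⟨((1 / 2 + xiw a 1) * wK2 1 e a + xiw a 1 - kU 1 e (sg1 a 1) * (1 / 2 - g1 a 1) + g1 a 1) /
      dD a,
    (W2 1 e a).cA / dD a,
    -(LAM e * (aL e 1 e (sg1 a 1) - bL e 1 e (sg1 a 1)) / dD a),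
    ((1 / 2 + xiw a 1) * wB2 1 e a + xiw a 1 * B0 e - bU 1 e (sg1 a 1) * (1 / 2 - g1 a 1) +
      B0 e * g1 a 1) / dD a⟩ := by
  simp only [sPw, C1u, W2, mul_one, dD]
  refine Sv.ext ?_ rfl rfl ?_ <;> simp only
  · congr 1
    ring
  · congr 1
    ring

theorem lPw_eq {e a p : ℝ} (hp : (W2 1 e a).cA = LAM e * p) : lsl e (sPw e a) =
    LAM e * (1 + (p - (aL e 1 e (sg1 a 1) - bL e 1 e (sg1 a 1))) / dD a) := by
  rw [sPw_eq]
  unfold lsl
  simp only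
  rw [hp]
  ring

/-- A quotient by the width. -/
theorem dD_q (h : Up a) {N m M : ℝ} (hm : 0 ≤ m) (hM : 0 ≤ M) (h1 : -(m * (3 / 2 * a)) ≤ N)
    (h2 : N ≤ M * (3 / 2 * a)) : -m ≤ N / dD a ∧ N / dD a ≤ M := by
  have h0 := h.a0
  have d := h.dlo
  rcases h0.eq_or_lt with ha | ha
  · have : dD a = 0 := by
      have := h.dup
      rw [← ha] at d this ⊢
      linarith
    rw [this, div_zero]
    constructor <;> linarith
  · have d0 : 3 / 2 * a ≤ dD a := by nlinarith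
    have d1 : 0 < dD a := by linarith
    rw [le_div_iff₀ d1, div_le_iff₀ d1]
    have k1 := mul_le_mul_of_nonneg_left d0 hm
    have k2 := mul_le_mul_of_nonneg_left d0 hM
    constructor <;> linarith

theorem dD_q' (h : Up a) {N m M : ℝ} (hm : 0 ≤ m) (hM : 0 ≤ M)
    (h1 : -(m * (3 / 2 * a + 13 / 5 * a ^ 2)) ≤ N)
    (h2 : N ≤ M * (3 / 2 * a + 13 / 5 * a ^ 2)) : -m ≤ N / dD a ∧ N / dD a ≤ M := by
  have h0 := h.a0
  have d := h.dlo
  rcases h0.eq_or_lt with ha | ha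
  · have : dD a = 0 := by
      have := h.dup
      rw [← ha] at d this ⊢
      linarith
    rw [this, div_zero]
    constructor <;> linarith
  · have d1 : 0 < dD a := by nlinarith
    rw [le_div_iff₀ d1, div_le_iff₀ d1]
    have k1 := mul_le_mul_of_nonneg_left d hm
    have k2 := mul_le_mul_of_nonneg_left d hM
    constructor <;> linarith

/-- The kernel of the zone between the unit circle and `W`; `κ` is the kernel of `W`, `K` the unit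
kernel. -/
theorem kPw (h : Up a) {K κ B B7 l u U c d m M : ℝ} (hK1 : l * sg1 a 1 ≤ K) (hK2 : K ≤ u * sg1 a 1)
    (hl : l ≤ 0) (hc : c * a ≤ κ) (hd : κ ≤ d * a) (hB : 0 ≤ B) (hB1 : B ≤ 1)
    (h7 : B7 ≤ 7 / 10 * B) (hm : 0 ≤ m) (hM : 0 ≤ M) (U1 : 22 / 25 * u ≤ U) (U2 : 9 / 8 * u ≤ U)
    (m1 : -(3 / 2 * m) ≤ c / 2 - 1 / 40 - U + B7)
    (m2 : -(3 / 2 * m) ≤ c * (249 / 500) - 1 / 40 - U + B7)
    (M1 : d / 2 - 9 / 8 * l + 9 / 10 ≤ 3 / 2 * M)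
    (M2 : d * (249 / 500) - 9 / 8 * l + 9 / 10 ≤ 3 / 2 * M) :
    -m ≤ ((1 / 2 + xiw a 1) * κ + xiw a 1 * B - K * (1 / 2 - g1 a 1) + B * g1 a 1) / dD a ∧
      ((1 / 2 + xiw a 1) * κ + xiw a 1 * B - K * (1 / 2 - g1 a 1) + B * g1 a 1) / dD a ≤ M := by
  have a0 := h.a0
  have a1 := h.a1
  have t1 : sg1 a 1 ≤ 9 / 4 * a := by nlinarith [h.tup]
  have t2 : 2 * a ≤ sg1 a 1 := by nlinarith [h.tlo]
  have t0 := h.t0
  have w1 := h.wlo
  have w2 := h.wup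
  have g0 := h.glo
  have g1' := h.gup
  have a2 : a ^ 2 ≤ 1 / 16 * a := by nlinarith
  have a20 : 0 ≤ a ^ 2 := sq_nonneg a
  have wB : -(1 / 40 * a) ≤ xiw a 1 * B := by
    have := mul_le_mul_of_nonneg_left hB1 (by linarith : 0 ≤ -xiw a 1)
    linarith
  have wB' : xiw a 1 * B ≤ 0 := mul_nonpos_of_nonpos_of_nonneg (by linarith) hB
  have gB : B7 * a ≤ B * g1 a 1 := by
    have s1 := mul_le_mul_of_nonneg_left h.g7 hB
    have s2 := mul_le_mul_of_nonneg_right h7 a0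
    linarith
  have gB' : B * g1 a 1 ≤ 9 / 10 * a := by
    have := mul_le_mul_of_nonneg_right hB1 g0
    linarith
  have p : 44 / 100 ≤ 1 / 2 - g1 a 1 := by linarith
  have K1 : K * (1 / 2 - g1 a 1) ≤ U * a := by
    have k2 := mul_le_mul_of_nonneg_right hK2 (by linarith : 0 ≤ 1 / 2 - g1 a 1)
    rcases le_total u 0 with hu | hu
    · have s1 : 2 * a * (44 / 100) ≤ sg1 a 1 * (1 / 2 - g1 a 1) :=
        mul_le_mul t2 p (by norm_num) t0
      have s2 := mul_le_mul_of_nonpos_left s1 hu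
      have s3 := mul_le_mul_of_nonneg_right U1 a0
      linarith
    · have s1 : sg1 a 1 * (1 / 2 - g1 a 1) ≤ 9 / 4 * a * (1 / 2) :=
        mul_le_mul t1 (by linarith) (by linarith) (by linarith)
      have s2 := mul_le_mul_of_nonneg_left s1 hu
      have s3 := mul_le_mul_of_nonneg_right U2 a0
      linarith
  have K2 : 9 / 8 * l * a ≤ K * (1 / 2 - g1 a 1) := by
    have k1 : l * (9 / 4 * a) ≤ K := by
      have := mul_le_mul_of_nonpos_left t1 hl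
      linarith
    have k2 := mul_le_mul_of_nonneg_right k1 (by linarith : 0 ≤ 1 / 2 - g1 a 1)
    have k3 : l * (9 / 4 * a) * (1 / 2) ≤ l * (9 / 4 * a) * (1 / 2 - g1 a 1) :=
      mul_le_mul_of_nonpos_left (by linarith) (mul_nonpos_of_nonpos_of_nonneg hl (by positivity))
    linarith
  have v : 249 / 500 ≤ 1 / 2 + xiw a 1 := by nlinarith
  have v' : 1 / 2 + xiw a 1 ≤ 1 / 2 := by linarith
  have C1 := mul_le_mul_of_nonneg_left hc (by linarith : 0 ≤ 1 / 2 + xiw a 1)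
  have D1 := mul_le_mul_of_nonneg_left hd (by linarith : 0 ≤ 1 / 2 + xiw a 1)
  have C2 : -(3 / 2 * m) ≤ c * (1 / 2 + xiw a 1) - 1 / 40 - U + B7 := by
    rcases le_total c 0 with q | q
    · have := mul_le_mul_of_nonpos_left v' q
      linarith
    · have := mul_le_mul_of_nonneg_left v q
      linarith
  have D2 : d * (1 / 2 + xiw a 1) - 9 / 8 * l + 9 / 10 ≤ 3 / 2 * M := by
    rcases le_total d 0 with q | q
    · have := mul_le_mul_of_nonpos_left v q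
      linarith
    · have := mul_le_mul_of_nonneg_left v' q
      linarith
  have C3 := mul_le_mul_of_nonneg_right C2 a0
  have D3 := mul_le_mul_of_nonneg_right D2 a0
  exact dD_q h (N := (1 / 2 + xiw a 1) * κ + xiw a 1 * B - K * (1 / 2 - g1 a 1) +
    B * g1 a 1) hm hM (by linarith) (by linarith)

theorem sPb_eq (e a : ℝ) : sPb e a =
    ⟨20 * (xb a 1 * fKb 1 a - (1 / 2 + xiw a 1) * (1 + wK2 1 e a)) / (3 * dwu a 1),
    20 * (LAM e * (xb a 1 * fXb 1 e a + 1 / 2) - (W2 1 e a).cA) / (3 * dwu a 1), 0,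
    20 * (xb a 1 * fBb 1 a - (1 / 2 + xiw a 1) * (B0 e + wB2 1 e a)) / (3 * dwu a 1)⟩ := by
  simp only [sPb, W2, one_mul, mul_one]
  refine Sv.ext ?_ rfl rfl ?_ <;> simp only <;> ring

theorem lPb_eq {e a p : ℝ} (hp : (W2 1 e a).cA = LAM e * p) : lsl e (sPb e a) =
    LAM e * (1 + 20 * (xb a 1 * fXb 1 e a + 1 / 2 - p) / (3 * dwu a 1)) := by
  rw [sPb_eq]
  unfold lsl
  simp only
  rw [hp]
  ring

/-- The kernel of the zone between `W` and the next curve. -/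
theorem kPb (h : Up a) {F κ B m M : ℝ} (hF : F ≤ M) (hF' : -m ≤ F)
    (m1 : -((m + F) * (1 - 3 / 5 * a)) ≤ 20 / 3 * (1 / 2 + xiw a 1) * (F - B - κ))
    (M1 : 20 / 3 * (1 / 2 + xiw a 1) * (F - B - κ) ≤ (M - F) * (1 - 3 / 5 * a)) :
    -m ≤ 20 * (xb a 1 * F - (1 / 2 + xiw a 1) * (B + κ)) / (3 * dwu a 1) ∧
      20 * (xb a 1 * F - (1 / 2 + xiw a 1) * (B + κ)) / (3 * dwu a 1) ≤ M := by
  have a0 := h.a0
  have a1 := h.a1
  have u1 := h.ulo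
  have u0 : 0 < dwu a 1 := by linarith
  rw [h.x, le_div_iff₀ (by linarith), div_le_iff₀ (by linarith)]
  have k1 := mul_le_mul_of_nonneg_left u1 (by linarith : 0 ≤ m + F)
  have k2 := mul_le_mul_of_nonneg_left u1 (by linarith : 0 ≤ M - F)
  constructor <;> linarith

/-- The level of the zone between `W` and the next curve. -/
theorem lPb_lo (h : Up a) {F p m : ℝ} (h1 : F + m ≤ 0) (hF : F ≤ 0)
    (hc : 0 ≤ 20 / 3 * ((1 / 2 - 3 / 8 * a ^ 2) * F + 1 / 2 - p) + (F + m)) :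
    -m ≤ 20 * (xb a 1 * F + 1 / 2 - p) / (3 * dwu a 1) := by
  have a0 := h.a0
  have a1 := h.a1
  have u1 := h.ulo
  have u0 : 0 < dwu a 1 := by linarith
  rw [h.x, le_div_iff₀ (by linarith)]
  have k1 := mul_le_mul_of_nonpos_left h.uup h1
  have k2 := mul_le_mul_of_nonpos_left (by linarith [h.wup] : xiw a 1 ≤ -(3 / 8 * a ^ 2)) hF
  linarith

theorem lPb_up (h : Up a) {F p m : ℝ} (h1 : F - m ≤ 0) (hF : F ≤ 0)
    (hc : 20 / 3 * ((1 / 2 - 2 / 5 * a ^ 2) * F + 1 / 2 - p) + (F - m) * (1 - 3 / 5 * a) ≤ 0) :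
    20 * (xb a 1 * F + 1 / 2 - p) / (3 * dwu a 1) ≤ m := by
  have a0 := h.a0
  have a1 := h.a1
  have u1 := h.ulo
  have u0 : 0 < dwu a 1 := by linarith
  rw [h.x, div_le_iff₀ (by linarith)]
  have k1 := mul_le_mul_of_nonpos_left u1 h1
  have k2 := mul_le_mul_of_nonpos_left (by linarith [h.wlo] : -(2 / 5 * a ^ 2) ≤ xiw a 1) hF
  linarith

/-! ### The zones below `2 h0` -/

/-- The width of the zones from `W` to the circle of radius `√3`. -/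
noncomputable def dV (a : ℝ) : ℝ := x3v (-a) 1 - xi1 (-a) 1

theorem sV0_eq (e a : ℝ) : sV0 e (-a) =
    ⟨wK3 1 e a / xi1 (-a) 1, (W3 1 e (-a)).cA / xi1 (-a) 1, 0, wB3 1 e a / xi1 (-a) 1⟩ := by
  simp only [sV0, W3, neg_neg]

theorem sV1_eq (e a : ℝ) : sV1 e (-a) =
    ⟨(x3v (-a) 1 * (1 + kU' 1 e (2 / 3 * x3v (-a) 1)) / (2 - a / 2) - wK3 1 e a) / dV a,
    -(20 / 3 * (W3 1 e (-a)).cA / dV a), 20 / 3 * v5 1 e (-a) / dV a,
    (x3v (-a) 1 * (B0 e + bU' 1 e (2 / 3 * x3v (-a) 1)) / (2 - a / 2) - wB3 1 e a) / dV a⟩ := by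
  have h : (2 : ℝ) + -a / 2 = 2 - a / 2 := by ring
  simp only [sV1, W3, C33, neg_neg, one_mul, mul_one, h, dV]

theorem sV2_eq (e a : ℝ) : sV2 e (-a) =
    ⟨(x3v (-a) 1 * (1 + kU' 1 e (2 / 3 * x3v (-a) 1)) / (2 - a / 2) - wK3 1 e a) / dV a,
    0, 20 / 9 * (v6 1 e (-a) - v5 1 e (-a)) / dV a,
    (x3v (-a) 1 * (B0 e + bU' 1 e (2 / 3 * x3v (-a) 1)) / (2 - a / 2) - wB3 1 e a) / dV a⟩ := by
  have h : (2 : ℝ) + -a / 2 = 2 - a / 2 := by ring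
  simp only [sV2, W3, C33, neg_neg, one_mul, mul_one, h, dV]

theorem sV3_eq (e a : ℝ) : sV3 e (-a) =
    ⟨(x3v (-a) 1 * (1 + kU' 1 e (2 / 3 * x3v (-a) 1)) / (2 - a / 2) - wK3 1 e a) / dV a,
    0, 5 / 2 * (LAM e * (2 * bL' e 1 e (2 / 3 * x3v (-a) 1) - aL' e 1 e (2 / 3 * x3v (-a) 1)) -
      v6 1 e (-a)) / dV a,
    (x3v (-a) 1 * (B0 e + bU' 1 e (2 / 3 * x3v (-a) 1)) / (2 - a / 2) - wB3 1 e a) / dV a⟩ := by
  have h : (2 : ℝ) + -a / 2 = 2 - a / 2 := by ring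
  simp only [sV3, W3, C33, neg_neg, one_mul, mul_one, h, dV]

theorem lV0_eq {e a p : ℝ} (hp : (W3 1 e (-a)).cA = LAM e * p) : lsl e (sV0 e (-a)) =
    LAM e * (1 + p / xi1 (-a) 1) := by
  rw [sV0_eq]
  unfold lsl
  simp only
  rw [hp]
  ring

theorem lV1_eq {e a p v : ℝ} (hp : (W3 1 e (-a)).cA = LAM e * p)
    (hv : v5 1 e (-a) = LAM e * v) : lsl e (sV1 e (-a)) =
    LAM e * (1 + 20 / 3 * (v - p) / dV a) := by
  rw [sV1_eq]
  unfold lsl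
  simp only
  rw [hp, hv]
  ring

theorem lV2_eq {e a v v' : ℝ} (hv : v5 1 e (-a) = LAM e * v) (hv' : v6 1 e (-a) = LAM e * v') :
    lsl e (sV2 e (-a)) = LAM e * (1 + 20 / 9 * (v' - v) / dV a) := by
  rw [sV2_eq]
  unfold lsl
  simp only
  rw [hv, hv']
  ring

theorem lV3_eq {e a v : ℝ} (hv : v6 1 e (-a) = LAM e * v) :
    lsl e (sV3 e (-a)) = LAM e * (1 + 5 / 2 * ((2 * bL' e 1 e (2 / 3 * x3v (-a) 1) -
      aL' e 1 e (2 / 3 * x3v (-a) 1)) - v) / dV a) := by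
  rw [sV3_eq]
  unfold lsl
  simp only
  rw [hv]
  ring

/-- The quotients of the first zone. -/
theorem kV0 (h : Vt a) {κ m M : ℝ} (hm : 0 ≤ m) (hM : 0 ≤ M) (h1 : -(m * (21 / 16 * a)) ≤ κ)
    (h2 : κ ≤ M * (21 / 16 * a)) : -m ≤ κ / xi1 (-a) 1 ∧ κ / xi1 (-a) 1 ≤ M := by
  have a0 := h.a0
  have a1 := h.a1
  have t1 : 21 / 16 * a ≤ xi1 (-a) 1 := by nlinarith [h.tlo]
  have t0 : 0 < xi1 (-a) 1 := by linarith
  rw [le_div_iff₀ t0, div_le_iff₀ t0]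
  have k1 := mul_le_mul_of_nonneg_left t1 hm
  have k2 := mul_le_mul_of_nonneg_left t1 hM
  constructor <;> linarith

theorem Vt.d0 (h : Vt a) : 11 / 2 * a ≤ dV a := h.xt

theorem Vt.dx (h : Vt a) : 4 / 5 * x3v (-a) 1 ≤ dV a := h.xt'

theorem Vt.dp (h : Vt a) : 0 < dV a := by linarith [h.d0, h.a0]

/-- The quotients of the other zones. -/
theorem qV (h : Vt a) {N m M : ℝ} (h1 : -(m * dV a) ≤ N) (h2 : N ≤ M * dV a) :
    -m ≤ N / dV a ∧ N / dV a ≤ M := by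
  have d := h.dp
  rw [le_div_iff₀ d, div_le_iff₀ d]
  constructor <;> linarith

/-- The kernel of the other zones. -/
theorem kV1 (h : Vt a) {K κ c1 c2 c d m M : ℝ} (k1 : c1 ≤ K) (k2 : K ≤ c2) (h1 : c1 ≤ 0)
    (h2 : 0 ≤ c2) (hc : c * a ≤ κ) (hd : κ ≤ d * a) (hc0 : c ≤ 0) (hd0 : 0 ≤ d)
    (hm : 127 / 200 * -c1 + 2 / 11 * d ≤ m) (hM : 127 / 200 * c2 - 2 / 11 * c ≤ M) :
    -m ≤ (x3v (-a) 1 * K / (2 - a / 2) - κ) / dV a ∧
      (x3v (-a) 1 * K / (2 - a / 2) - κ) / dV a ≤ M := by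
  have a0 := h.a0
  have a1 := h.a1
  have d0 := h.d0
  have dx := h.dx
  have dp := h.dp
  have x0 := h.x0
  have den : 0 < 2 - a / 2 := by linarith
  have r0 : 0 ≤ x3v (-a) 1 / (2 - a / 2) := by positivity
  have r1 : x3v (-a) 1 / (2 - a / 2) ≤ 127 / 200 * dV a := by
    rw [div_le_iff₀ den]
    nlinarith
  have e1 : x3v (-a) 1 * K / (2 - a / 2) = x3v (-a) 1 / (2 - a / 2) * K := by ring
  have A1 : c1 * (127 / 200 * dV a) ≤ x3v (-a) 1 / (2 - a / 2) * K := by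
    have s1 := mul_le_mul_of_nonneg_left k1 r0
    have s2 := mul_le_mul_of_nonpos_left r1 h1
    linarith
  have A2 : x3v (-a) 1 / (2 - a / 2) * K ≤ c2 * (127 / 200 * dV a) := by
    have s1 := mul_le_mul_of_nonneg_left k2 r0
    have s2 := mul_le_mul_of_nonneg_left r1 h2
    linarith
  have B1 : c * (2 / 11 * dV a) ≤ κ := by
    have s2 := mul_le_mul_of_nonpos_left (by linarith : a ≤ 2 / 11 * dV a) hc0
    linarith
  have B2 : κ ≤ d * (2 / 11 * dV a) := by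
    have s2 := mul_le_mul_of_nonneg_left (by linarith : a ≤ 2 / 11 * dV a) hd0
    linarith
  have C1 := mul_le_mul_of_nonneg_right hm dp.le
  have C2 := mul_le_mul_of_nonneg_right hM dp.le
  rw [e1]
  exact qV h (N := x3v (-a) 1 / (2 - a / 2) * K - κ) (m := m) (M := M) (by linarith)
    (by linarith)

end

end Pool.Agent.Strip051.LC.E1
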