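import Pool.Agent.Strip051.LC.E1.VertM
import Pool.Agent.Strip051.LC.E1.NearV

/-! # Rests near the full period: the vertical cube from the bounds of the slopes -/

namespace Pool.Agent.Strip051.LC.E1

open Pool.Agent.StripNear Pool.Agent.StripSquare Pool.Agent.Strip051 Pool.Agent.Strip051.Sweep
open Pool.Agent.Strip051.PB
open G

/-- The slopes `B` of the vertex `V` have the bounds `s`. -/
structure Bd (V : Vx) (e : ℝ) (B : Sv) (s : Sp) : Prop where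
  k : |ksl V e B| ≤ s.k
  m : s.m ≤ lsl e B
  M : lsl e B ≤ s.M

/-- The bounds of all slopes. -/
structure SlV (V : Vx) (e : ℝ) (A W B Z0 Z1s Z2 Z3s : ℝ → Sp) : Prop where
  a : ∀ y, 15 / 16 < y → y < 1 → Bd V e (sPa e (y - 1)) (A y)
  w : ∀ y, 1 ≤ y → y < 17 / 16 → Bd V e (sPw e (y - 1)) (W y)
  b : ∀ y, 1 ≤ y → y < 17 / 16 → Bd V e (sPb e (y - 1)) (B y)
  v0 : ∀ y, 31 / 16 < y → y ≤ 2 → Bd V e (sV0 e (y - 2)) (Z0 y)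
  v1 : ∀ y, 31 / 16 < y → y ≤ 2 → Bd V e (sV1 e (y - 2)) (Z1s y)
  v2 : ∀ y, 31 / 16 < y → y ≤ 2 → Bd V e (sV2 e (y - 2)) (Z2 y)
  v3 : ∀ y, 31 / 16 < y → y ≤ 2 → Bd V e (sV3 e (y - 2)) (Z3s y)

section

variable {n : ℕ} {V : Vx} {T : Tbs n} {κ e y : ℝ} {A W B Z0 Z1s Z2 Z3s : ℝ → Sp}

theorem SlV.z1 (h : SlV V e A W B Z0 Z1s Z2 Z3s) (hD : VD V T e) (h0 : 15 / 16 < y)
    (h1 : y < 17 / 16) : Z1 V T (1 - e) y (A y) (W y) (B y) where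
  A hy := zn_a hD h0 hy (h.a y h0 hy).k (h.a y h0 hy).m (h.a y h0 hy).M
  W hy := zn_w hD hy h1 (h.w y hy h1).k (h.w y hy h1).m (h.w y hy h1).M
  B hy := zn_b hD hy h1 (h.b y hy h1).k (h.b y hy h1).m (h.b y hy h1).M

theorem SlV.z3 (h : SlV V e A W B Z0 Z1s Z2 Z3s) (hD : VD V T e) (h0 : 31 / 16 < y)
    (h1 : y ≤ 2) : Z3 V T (1 - e) y (Z0 y) (Z1s y) (Z2 y) (Z3s y) where
  v0 := zn_v0 hD h0 h1 (h.v0 y h0 h1).k (h.v0 y h0 h1).m (h.v0 y h0 h1).M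
  v1 := zn_v1 hD h0 h1 (h.v1 y h0 h1).k (h.v1 y h0 h1).m (h.v1 y h0 h1).M
  v2 := zn_v2 hD h0 h1 (h.v2 y h0 h1).k (h.v2 y h0 h1).m (h.v2 y h0 h1).M
  v3 := zn_v3 hD h0 h1 (h.v3 y h0 h1).k (h.v3 y h0 h1).m (h.v3 y h0 h1).M

end

/-- **The vertical cube** from the bounds of the slopes. -/
theorem vcube_sl {V : Vx} {T : Tbs 7} {κ e : ℝ} {A W B Z0 Z1s Z2 Z3s : ℝ → Sp} (hR : Rows V)
    (hN : Nod V T e) (hκ : κ * h0 = kenE (1 - e)) (hS : SlV V e A W B Z0 Z1s Z2 Z3s)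
    (cn : ∀ y y', Hv y y' → Cn V κ (1 - e) y y' (A y') (W y') (B y') (Z0 (y + y'))
      (Z1s (y + y')) (Z2 (y + y')) (Z3s (y + y')))
    (c13 : ∀ y y', Hv y y' → 1 ≤ y → y' < 1 → C13 V κ (1 - e) y y' (W y) (A y')) :
    VCube V T κ e := by
  intro X12 X13 y y' a1 a2 a3 a4 a5 a6 b1 b2 b3 b4
  have hD := VD.of hN
  have h : Hv y y' := ⟨a1, a2, a3, a4, a5, a6⟩
  have c2 := cn y' y h.mir
  rw [add_comm y' y] at c2
  exact vcube_of hR hD hN.e0 hN.e1 hκ h (hS.z1 hD a1 a2) (hS.z1 hD a3 a4) (hS.z3 hD a5 a6)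
    (cn y y' h) c2 (c13 y y' h) b1 b2 b3 b4

end Pool.Agent.Strip051.LC.E1
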