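import Pool.Agent.Strip051.LC.E1.VertJ
import Pool.Agent.Strip051.LC.E1.VertN

/-! # Rests near the full period: the slopes next to `h0` -/

namespace Pool.Agent.Strip051.LC.E1

open Pool.Agent.StripNear Pool.Agent.StripSquare Pool.Agent.Strip051 Pool.Agent.Strip051.Sweep
open Pool.Agent.Strip051.PB
open Pool.Agent.Strip051.LC.E0.G (om cc1 xi1 sg1 cc3 xi3 sg3 xiw dwl dwu)
open G

section

variable {e a t : ℝ}

theorem B0_bd (he : 0 < e) (he1 : e ≤ 1 / 40) : 249 / 500 ≤ B0 e ∧ B0 e ≤ 1 / 2 :=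
  ⟨B0_lo he he1, B0_up he he1⟩

/-- The unit kernel. -/
theorem ucK (he : 0 < e) (he1 : e ≤ 1 / 40) :
    UC 1 (-(9997 / 50000)) (-(359209 / 100000)) (pK e) (-(1589 / 12500)) (-(7153 / 25000)) (eh e)
      0 (-(434 / 100)) (-(190 / 100)) (Real.sqrt 3 / 2) ∧
    UC 1 (-(9997 / 50000)) (-(359209 / 100000)) (pK e) (-(1589 / 12500)) (-(7153 / 25000)) (eh e)
      (3 / 2) (-(434 / 100)) (-(31 / 10)) (Real.sqrt 3 / 2) := by
  have a1 := h3_lo
  have a2 := h3_up
  have p1 := pK_lo he he1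
  have p2 := pK_up he he1
  have e1 := eh_lo he he1
  have e2 := eh_up he he1
  obtain ⟨H, hH⟩ : ∃ H, H = Real.sqrt 3 / 2 := ⟨_, rfl⟩
  obtain ⟨E, hE⟩ : ∃ H, H = eh e := ⟨_, rfl⟩
  obtain ⟨p, hp⟩ : ∃ H, H = pK e := ⟨_, rfl⟩
  rw [← hE, ← hp, ← hH]
  rw [← hE] at e1 e2
  rw [← hp] at p1 p2
  rw [← hH] at a1 a2
  have E1 : 925 / 1000 ≤ E := by nlinarith
  have E2 : E ≤ 1 := by nlinarith
  have HE1 : H * (E - 925 / 1000) ≤ 8661 / 10000 * (E - 925 / 1000) :=
    mul_le_mul_of_nonneg_right a2 (by linarith)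
  have HE2 : 8660 / 10000 * (E - 925 / 1000) ≤ H * (E - 925 / 1000) :=
    mul_le_mul_of_nonneg_right a1 (by linarith)
  constructor <;> constructor
  all_goals linarith

/-- The second unit kernel. -/
theorem ucB (he : 0 < e) (he1 : e ≤ 1 / 40) :
    UC (B0 e) (18757 / 20000) (-(280683 / 50000)) (pB e) (23151 / 50000) (-(8487 / 100000))
      (eh e) 0 (-(22 / 10)) (556 / 100) (Real.sqrt 3 / 2) := by
  have a1 := h3_lo
  have a2 := h3_up
  have e1 := eh_lo he he1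
  have e2 := eh_up he he1
  have b1 := B0_lo he he1
  have b2 := B0_up he he1
  have q1' := q1_lo he he1
  have q2' := q1_up he he1
  have p1 : -(3 / 4) ≤ pB e := by
    unfold pB
    nlinarith
  have p2 : pB e ≤ -(69 / 100) := by
    unfold pB
    nlinarith
  obtain ⟨H, hH⟩ : ∃ H, H = Real.sqrt 3 / 2 := ⟨_, rfl⟩
  obtain ⟨E, hE⟩ : ∃ H, H = eh e := ⟨_, rfl⟩
  obtain ⟨p, hp⟩ : ∃ H, H = pB e := ⟨_, rfl⟩
  obtain ⟨b, hb⟩ : ∃ H, H = B0 e := ⟨_, rfl⟩
  rw [← hE, ← hp, ← hH, ← hb]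
  rw [← hE] at e1 e2
  rw [← hp] at p1 p2
  rw [← hH] at a1 a2
  rw [← hb] at b1 b2
  have E1 : 925 / 1000 ≤ E := by nlinarith
  have E2 : E ≤ 1 := by nlinarith
  have HE1 : H * (E - 925 / 1000) ≤ 8661 / 10000 * (E - 925 / 1000) :=
    mul_le_mul_of_nonneg_right a2 (by linarith)
  have HE2 : 8660 / 10000 * (E - 925 / 1000) ≤ H * (E - 925 / 1000) :=
    mul_le_mul_of_nonneg_right a1 (by linarith)
  have Hb1 : H * (1 / 2 - b) ≤ 8661 / 10000 * (1 / 2 - b) :=
    mul_le_mul_of_nonneg_right a2 (by linarith)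
  have Hb2 : 8660 / 10000 * (1 / 2 - b) ≤ H * (1 / 2 - b) :=
    mul_le_mul_of_nonneg_right a1 (by linarith)
  have HEb1 : H * ((E - 925 / 1000) * (1 / 2 - b)) ≤ 8661 / 10000 * (75 / 1000 * (1 / 2 - b)) :=
    mul_le_mul a2 (mul_le_mul_of_nonneg_right (by linarith) (by linarith))
      (mul_nonneg (by linarith) (by linarith)) (by norm_num)
  have HEb2 : 0 ≤ H * ((E - 925 / 1000) * (1 / 2 - b)) :=
    mul_nonneg (by linarith) (mul_nonneg (by linarith) (by linarith))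
  constructor
  all_goals linarith

theorem kU'_bd (he : 0 < e) (he1 : e ≤ 1 / 40) (ht : 0 ≤ t) (ht1 : t ≤ 29 / 100) :
    -(434 / 100) * t ≤ kU' 1 e t ∧ kU' 1 e t ≤ -(190 / 100) * t ∧
      kU' 1 e t ≤ -(31 / 10) * t + 3 / 2 * e := by
  have h1 := (ucK he he1).1.bd he he1 (D := 8 * 1 + (-(7153 / 2500))) (by norm_num) ht ht1
  have h2 := (ucK he he1).2.bd he he1 (D := 8 * 1 + (-(7153 / 2500))) (by norm_num) ht ht1
  unfold kU' kU
  rw [mul_one e]
  exact ⟨h1.1, by linarith [h1.2], h2.2⟩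

theorem bU'_bd (he : 0 < e) (he1 : e ≤ 1 / 40) (ht : 0 ≤ t) (ht1 : t ≤ 29 / 100) :
    -(22 / 10) * t ≤ bU' 1 e t ∧ bU' 1 e t ≤ 556 / 100 * t := by
  have := (ucB he he1).bd he he1 (D := 8 * B0 e + (-(8487 / 10000))) (by ring) ht ht1
  unfold bU' bU
  rw [mul_one e]
  exact ⟨this.1, by linarith [this.2]⟩

theorem kU_bd (he : 0 < e) (he1 : e ≤ 1 / 40) (ht : 0 ≤ t) (ht1 : t ≤ 1 / 5) :
    -(434 / 100) * t ≤ kU 1 e t ∧ kU 1 e t ≤ -(190 / 100) * t ∧
      kU 1 e t ≤ -(31 / 10) * t + 3 / 2 * e := by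
  rw [← kU_eq ht ht1]
  exact kU'_bd he he1 ht (by linarith)

theorem bU_bd (he : 0 < e) (he1 : e ≤ 1 / 40) (ht : 0 ≤ t) (ht1 : t ≤ 1 / 5) :
    -(22 / 10) * t ≤ bU 1 e t ∧ bU 1 e t ≤ 556 / 100 * t := by
  rw [← bU_eq ht ht1]
  exact bU'_bd he he1 ht (by linarith)

/-- The kernel below `h0`. -/
theorem ka_k (he : 0 < e) (he1 : e ≤ 1 / 40) (h : Dn a) :
    -(78 / 100) ≤ (sPa e (-a)).k ∧ (sPa e (-a)).k ≤ 1 / 5 := by
  have a0 := h.a0
  have a1 := h.a1
  have t0 := h.t0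
  have q0 := h.q0
  have t2 : -sg1 (-a) 1 ≤ 2 * a := by nlinarith [h.tup]
  have q1 : 1 - 153 / 100 * a ≤ dwl (-a) 1 := by
    have := h.q
    have := h.cup
    have := h.wlo
    nlinarith
  obtain ⟨K1, -, K3⟩ := kU_bd he he1 t0 (by linarith)
  have g0 := hg_nn (-(1 * -a) - 1 / 25)
  have g1' := hg_of (x := -(1 * -a) - 1 / 25) (y := 24 / 1000) (by linarith) (by norm_num)
  have F1 : (2981 / 5000) - (1791 / 400) * a ≤ fKa 1 (-a) := by
    unfold fKa
    linarith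
  have F2 : fKa 1 (-a) ≤ (2981 / 5000) - (1791 / 400) * a := by
    unfold fKa
    linarith
  obtain ⟨k1, k2⟩ := kPa h F1 F2 (by linarith) K1 K3
    (by norm_num) (by norm_num) (B := 1) (by linarith)
  rw [sPa_eq]
  simp only
  rw [le_div_iff₀ (by linarith), div_le_iff₀ (by linarith)]
  constructor
  · nlinarith
  · nlinarith

/-- The second kernel below `h0`. -/
theorem ka_b (he : 0 < e) (he1 : e ≤ 1 / 40) (h : Dn a) :
    -3 ≤ (sPa e (-a)).b ∧ (sPa e (-a)).b ≤ 6 := by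
  have a0 := h.a0
  have a1 := h.a1
  have t0 := h.t0
  have q0 := h.q0
  obtain ⟨b1, b2⟩ := B0_bd he he1
  have t2 : -sg1 (-a) 1 ≤ 2 * a := by nlinarith [h.tup]
  obtain ⟨u1, u2⟩ := bU_bd he he1 t0 (by linarith)
  have h0 := hg_nn (-(1 * -a) - 1 / 25)
  have h1 := hg_of (x := -(1 * -a) - 1 / 25) (y := 24 / 1000) (by linarith) (by norm_num)
  have F1 : 9 / 10 ≤ fBa 1 (-a) := by
    unfold fBa
    linarith
  have F2 : fBa 1 (-a) ≤ 13 / 10 := by
    unfold fBa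
    linarith
  have x1 : xa (-a) 1 ≤ 8 / 10 := by
    have := h.q1
    rw [h.x]
    nlinarith [h.cup]
  have x0 : 7 / 10 - 1 / 50 ≤ xa (-a) 1 := by
    rw [h.x]
    nlinarith [h.clo]
  have g0 := h.glo
  have g1' := h.gup
  have k1 : xa (-a) 1 * fBa 1 (-a) ≤ 8 / 10 * (13 / 10) :=
    mul_le_mul x1 F2 (by linarith) (by norm_num)
  have k0 : (7 / 10 - 1 / 50) * (9 / 10) ≤ xa (-a) 1 * fBa 1 (-a) :=
    mul_le_mul x0 F1 (by norm_num) (by linarith)
  have k2 : (B0 e + bU 1 e (-sg1 (-a) 1)) * (1 / 2 + -g1 (-a) 1) ≤ (12 / 10) * (55 / 100) :=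
    mul_le_mul (by linarith) (by linarith) (by linarith) (by norm_num)
  have k3 : 0 ≤ (B0 e + bU 1 e (-sg1 (-a) 1)) * (1 / 2 + -g1 (-a) 1) :=
    mul_nonneg (by linarith) (by linarith)
  rw [sPa_eq]
  simp only
  rw [le_div_iff₀ (by linarith), div_le_iff₀ (by linarith)]
  constructor
  · linarith
  · linarith

/-! ### The levels next to `h0` -/

theorem bL_sq {S1 S2 S3 S4 S5 : ℝ} (h : Sq e t S1 S2 S3 S4 S5) :
    bL e 1 e t = ((2661 / 12500) + (-(8863 / 1000)) * e) * S1 + ((14331 / 50000) +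
      (-(38949 / 1000)) * e) * S2 +
      ((-(13849 / 25000)) + (1359 / 20) * e) * S3 + ((5519 / 50000) +
        (-(25993 / 1000)) * e) * S4 := by
  rw [h.e1, h.e2, h.e3, h.e4]
  rfl

theorem aL_sq {S1 S2 S3 S4 S5 : ℝ} (h : Sq e t S1 S2 S3 S4 S5) :
    aL e 1 e t = ((85937 / 100000) + (-(10723 / 500)) * e) * S1 + ((539 / 4000) +
      (-(44693 / 1000)) * e) * S2 +
      ((-(28781 / 50000)) + (25327 / 250) * e) * S3 + ((31751 / 50000) +
        (-(1524 / 25)) * e) * S4 := by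
  rw [h.e1, h.e2, h.e3, h.e4]
  rfl

/-- The level function `beta` for short arguments. -/
theorem bL_bd (he : 0 < e) (he1 : e ≤ 1 / 40) (ht : 0 ≤ t) (ht1 : t ≤ 1153 / 10000) :
    -(1 / 20 * t) ≤ bL e 1 e t ∧ bL e 1 e t ≤ 1 / 100 := by
  obtain ⟨S1, S2, S3, S4, S5, h⟩ := sq_ex he he1 ht (by linarith)
  rw [bL_sq h]
  have p1 := h.p1
  have u1 := h.u1
  have t2 : t ^ 2 ≤ 1153 / 10000 * t := by nlinarith
  have p2 : 0 ≤ S2 := by rw [h.e2]; positivity
  have p3 : 0 ≤ S3 := by rw [h.e3]; positivity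
  have p4 : S4 = 0 := by
    have := h3_up
    rw [h.e4, hg_np (by nlinarith)]
    norm_num
  have u2 : S2 ≤ 37 / 1000 * t := by
    rw [h.e2]
    refine (hsq_ch (t1 := 1153 / 10000) (m := 274 / 10000) (by norm_num) (by norm_num) (by norm_num)
      (by norm_num) ht ht1 (by norm_num)).trans ?_
    have : (274 / 10000 : ℝ) ^ 2 / (1153 / 10000 * (171 / 400) ^ 2) ≤ 37 / 1000 := by norm_num
    exact mul_le_mul_of_nonneg_right this ht
  have u3 : S3 ≤ 1 / 100 * t := by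
    rw [h.e3]
    refine (hsq_ch (t1 := 1153 / 10000) (m := 1 / 100) (by norm_num) (by norm_num) (by norm_num)
      (by norm_num) ht ht1 (by norm_num)).trans ?_
    have : (1 / 100 : ℝ) ^ 2 / (1153 / 10000 * (41 / 100) ^ 2) ≤ 1 / 100 := by norm_num
    exact mul_le_mul_of_nonneg_right this ht
  rw [p4]
  constructor
  · have A0 : 0 ≤ (2661 / 12500) * S1 + (14331 / 50000) * S2 + (-(13849 / 25000)) * S3 +
    1 / 20 * t := by linarith
    have A1 : 0 ≤ (-(1739 / 200000)) * S1 + (-(137421 / 200000)) * S2 + (114479 / 100000) * S3 +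
      1 / 20 * t := by linarith
    have := mul_nonneg (by linarith : 0 ≤ 1 - 40 * e) A0
    have := mul_nonneg he.le A1
    linarith
  · have A0 : 0 ≤ 1 / 100 - ((2661 / 12500) * S1 + (14331 / 50000) * S2 +
    (-(13849 / 25000)) * S3) := by linarith
    have A1 : 0 ≤ 1 / 100 - ((-(1739 / 200000)) * S1 + (-(137421 / 200000)) * S2 +
      (114479 / 100000) * S3) := by linarith
    have := mul_nonneg (by linarith : 0 ≤ 1 - 40 * e) A0
    have := mul_nonneg he.le A1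
    linarith

theorem fXa_lo (he : 0 < e) (h : Dn a) : (-(80349 / 100000)) +
  (4127 / 10000) * a ≤ fXa 1 e (-a) := by
  have a0 := h.a0
  have a1 := h.a1
  unfold fXa
  have h0 := hg_nn (-(1 * -a) - 1 / 25)
  have h1 := hg_of (x := -(1 * -a) - 1 / 25) (y := 9 / 25 * a) (by linarith) (by linarith)
  have k1 := mul_nonneg he.le (by linarith : 0 ≤ 1 / 16 - a)
  have k2 := mul_nonneg he.le h0
  linarith

theorem fXa_up (he : 0 < e) (h : Dn a) :
    fXa 1 e (-a) ≤ (-(80349 / 100000)) + (263 / 400) * a + ((669 / 250) +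
      (-(33077 / 1000)) * a) * e := by
  have a0 := h.a0
  have a1 := h.a1
  unfold fXa
  have h0 := hg_nn (-(1 * -a) - 1 / 25)
  have h1 := hg_of (x := -(1 * -a) - 1 / 25) (y := 9 / 25 * a) (by linarith) (by linarith)
  have k2 := mul_le_mul_of_nonneg_left h1 he.le
  linarith

/-- The level below `h0`. -/
theorem la (he : 0 < e) (he1 : e ≤ 1 / 40) (h : Dn a) :
    LAM e * (2 / 5) ≤ lsl e (sPa e (-a)) ∧
      lsl e (sPa e (-a)) ≤ LAM e * (695 / 1000 + 93 / 10 * e) := by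
  have a0 := h.a0
  have a1 := h.a1
  have t0 := h.t0
  have t2 : -sg1 (-a) 1 ≤ 1153 / 10000 := by nlinarith [h.tup]
  have t3 : -sg1 (-a) 1 ≤ 2 * a := by nlinarith [h.tup]
  obtain ⟨b1, b2⟩ := bL_bd he he1 t0 t2
  have F1 := fXa_lo he h
  have F2 := fXa_up he h
  have L0 : 0 ≤ LAM e := by
    have := LAM_lo he he1
    nlinarith
  rw [lPa_eq]
  constructor
  · refine mul_le_mul_of_nonneg_left ?_ L0
    have := lPa_lo h (F := fXa 1 e (-a)) (β := bL e 1 e (-sg1 (-a) 1)) (m := 3 / 5) (by nlinarith)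
      (by nlinarith) (by
        have k1 := mul_le_mul_of_nonneg_left F1
          (by nlinarith : 0 ≤ 7 / 2 + 6 * a - 83 / 8 * a ^ 2)
        nlinarith)
    linarith
  · refine mul_le_mul_of_nonneg_left ?_ L0
    have := lPa_up h (F := fXa 1 e (-a)) (β := bL e 1 e (-sg1 (-a) 1)) (m := 305 / 1000 - 93 / 10 * e)
      (by nlinarith) (by nlinarith) (by
        have k1 := mul_le_mul_of_nonneg_left F2
          (by nlinarith : 0 ≤ 7 / 2 + 6 * a - 62 / 5 * a ^ 2)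
        nlinarith)
    linarith

/-! ### The zone between the unit circle and `W` -/

theorem nk_bd {k b m M m' M' : ℝ} (he : 0 < e) (he1 : e ≤ 1 / 40) (h1 : -m ≤ k) (h2 : k ≤ M)
    (h3 : -m' ≤ b) (h4 : b ≤ M') (hm : 0 ≤ m) (hM : 0 ≤ M) (hm' : 0 ≤ m') (hM' : 0 ≤ M') :
    -(5 / 4 * m + m' / 4) ≤ nk e k b ∧ nk e k b ≤ 5 / 4 * M + M' / 4 := by
  have l0 := LAM_lo he he1
  have l1 := LAM_up he he1
  have m0 := mu_lo he he1
  have m1 := mu_up he he1
  have L0 : 0 ≤ LAM e := by nlinarith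
  have L1 : LAM e ≤ 1 := by nlinarith
  have lm : LAM e * G.mu e ≤ 1 * (1 / 4) := mul_le_mul L1 m1 (by linarith) (by norm_num)
  have lm0 : 0 ≤ LAM e * G.mu e := mul_nonneg L0 (by linarith)
  unfold nk
  constructor
  · have k1 := mul_le_mul_of_nonneg_left h1 (by linarith : 0 ≤ 1 + LAM e * G.mu e)
    have k2 := mul_le_mul_of_nonneg_left h3 (by linarith : 0 ≤ G.mu e)
    have k3 := mul_le_mul_of_nonneg_right (by linarith : 1 + LAM e * G.mu e ≤ 5 / 4) hm
    have k4 := mul_le_mul_of_nonneg_right m1 hm'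
    linarith
  · have k1 := mul_le_mul_of_nonneg_left h2 (by linarith : 0 ≤ 1 + LAM e * G.mu e)
    have k2 := mul_le_mul_of_nonneg_left h4 (by linarith : 0 ≤ G.mu e)
    have k3 := mul_le_mul_of_nonneg_right (by linarith : 1 + LAM e * G.mu e ≤ 5 / 4) hM
    have k4 := mul_le_mul_of_nonneg_right m1 hM'
    linarith

theorem wK2_bd (he : 0 < e) (ha : 0 ≤ a) :
    (-(1301 / 100)) * a ≤ wK2 1 e a ∧ wK2 1 e a ≤ (-(443 / 100)) * a := by
  have h1 := tl_lo (b := (-(21419 / 5000))) (b' := (-(4383 / 1000))) (s := (-(21419 / 2500))) he ha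
    (by norm_num) (by norm_num) (by norm_num)
  have h2 := tl_hi (b := (-(21419 / 5000))) (b' := (-(4383 / 1000))) (s := 0) he ha
    (by norm_num) (by norm_num) (by norm_num)
  unfold wK2
  constructor <;> linarith

theorem wK2_lo' (he : 0 < e) (ha : 0 ≤ a) : (-(111 / 25)) * a + (-(439 / 100)) * e ≤ wK2 1 e a := by
  have h1 := tl_lo' (b := (-(21419 / 5000))) (b' := (-(4383 / 1000))) (s := (-(439 / 100))) he ha
    (by norm_num) (by norm_num) (by norm_num)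
  unfold wK2
  linarith

theorem wB2_bd (he : 0 < e) (ha : 0 ≤ a) :
    (87 / 100) * a ≤ wB2 1 e a ∧ wB2 1 e a ≤ 12 * a := by
  have h1 := tl_lo (b := (55587 / 10000)) (b' := (7049 / 5000)) (s := 0) he ha
    (by norm_num) (by norm_num) (by norm_num)
  have h2 := tl_hi (b := (55587 / 10000)) (b' := (7049 / 5000)) (s := (55587 / 5000)) he ha
    (by norm_num) (by norm_num) (by norm_num)
  unfold wB2
  constructor <;> linarith

theorem Up.tm (h : Up a) : sg1 a 1 ≤ 1407 / 10000 := by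
  have := h.tup
  have := h.a0
  have := h.a1
  nlinarith

theorem kw (he : 0 < e) (he1 : e ≤ 1 / 40) (h : Up a) :
    -(3 : ℝ) ≤ (sPw e a).k ∧ (sPw e a).k ≤ 5 / 2 := by
  obtain ⟨K1, K2, -⟩ := kU_bd he he1 h.t0 (by linarith [h.tm])
  obtain ⟨c1, d1⟩ := wK2_bd he h.a0
  have := kPw h (B := 1) (B7 := 7 / 10) (U := -(1672 / 1000)) (m := 3) (M := 5 / 2) K1 K2
    (by norm_num) c1 d1 (by norm_num) (by norm_num) (by norm_num) (by norm_num) (by norm_num)
    (by norm_num) (by norm_num) (by norm_num) (by norm_num) (by norm_num) (by norm_num)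
  rw [mul_one, one_mul] at this
  rw [sPw_eq]
  exact this

theorem bw (he : 0 < e) (he1 : e ≤ 1 / 40) (h : Up a) :
    -(4 : ℝ) ≤ (sPw e a).b ∧ (sPw e a).b ≤ 7 := by
  obtain ⟨K1, K2⟩ := bU_bd he he1 h.t0 (by linarith [h.tm])
  obtain ⟨c1, d1⟩ := wB2_bd he h.a0
  obtain ⟨b1, b2⟩ := B0_bd he he1
  have := kPw h (B := B0 e) (B7 := 0) (U := 626 / 100) (m := 4) (M := 7) K1 K2
    (by norm_num) c1 d1 (by linarith) (by linarith) (by linarith) (by norm_num) (by norm_num)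
    (by norm_num) (by norm_num) (by norm_num) (by norm_num) (by norm_num) (by norm_num)
  rw [sPw_eq]
  exact this

/-- The level functions for short arguments. -/
theorem gL_bd (he : 0 < e) (he1 : e ≤ 1 / 40) (ht : 0 ≤ t) (ht1 : t ≤ 1407 / 10000) :
    -(2 / 125 * t) - 1 / 2 * e * t ≤ aL e 1 e t - bL e 1 e t ∧
      aL e 1 e t - bL e 1 e t ≤ 28 / 100 * t := by
  obtain ⟨S1, S2, S3, S4, S5, h⟩ := sq_ex he he1 ht (by linarith)
  rw [bL_sq h, aL_sq h]
  have p1 := h.p1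
  have u1 := h.u1
  have t2 : t ^ 2 ≤ 1407 / 10000 * t := by nlinarith
  have p2 : 0 ≤ S2 := by rw [h.e2]; positivity
  have p3 : 0 ≤ S3 := by rw [h.e3]; positivity
  have p4 : 0 ≤ S4 := by rw [h.e4]; positivity
  have u2 : S2 ≤ 951 / 10000 * t := by
    rw [h.e2]
    refine (hsq_ch (t1 := 1407 / 10000) (m := 494 / 10000) (by norm_num) (by norm_num)
      (by norm_num) (by norm_num) ht ht1 (by norm_num)).trans ?_
    have : (494 / 10000 : ℝ) ^ 2 / (1407 / 10000 * (171 / 400) ^ 2) ≤ 951 / 10000 := by norm_num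
    exact mul_le_mul_of_nonneg_right this ht
  have u3 : S3 ≤ 433 / 10000 * t := by
    rw [h.e3]
    refine (hsq_ch (t1 := 1407 / 10000) (m := 319 / 10000) (by norm_num) (by norm_num)
      (by norm_num) (by norm_num) ht ht1 (by norm_num)).trans ?_
    have : (319 / 10000 : ℝ) ^ 2 / (1407 / 10000 * (41 / 100) ^ 2) ≤ 433 / 10000 := by norm_num
    exact mul_le_mul_of_nonneg_right this ht
  have u4 : S4 ≤ 1 / 5000 * t := by
    rw [h.e4]
    refine (hsq_ch (t1 := 1407 / 10000) (m := 19 / 10000) (by norm_num) (by norm_num)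
      (by norm_num) (by norm_num) ht ht1 (by norm_num)).trans ?_
    have : (19 / 10000 : ℝ) ^ 2 / (1407 / 10000 * (19 / 50) ^ 2) ≤ 1 / 5000 := by norm_num
    exact mul_le_mul_of_nonneg_right this ht
  constructor
  · have A0 : 0 ≤ (64649 / 100000) * S1 + (-(15187 / 100000)) * S2 + (-(1083 / 50000)) * S3 +
    (3279 / 6250) * S4 + 2 / 125 * t := by
      linarith
    have A1 : 0 ≤ (66383 / 200000) * S1 + (-(29547 / 100000)) * S2 + (81229 / 100000) * S3 +
      (-(69907 / 200000)) * S4 +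
        (2 / 125 + 1 / 2 * (1 / 40)) * t := by linarith
    have := mul_nonneg (by linarith : 0 ≤ 1 - 40 * e) A0
    have := mul_nonneg he.le A1
    linarith
  · have A0 : 0 ≤ 28 / 100 * t - ((64649 / 100000) * S1 + (-(15187 / 100000)) * S2 +
    (-(1083 / 50000)) * S3 + (3279 / 6250) * S4) := by
      linarith
    have A1 : 0 ≤ 28 / 100 * t - ((66383 / 200000) * S1 + (-(29547 / 100000)) * S2 +
      (81229 / 100000) * S3 + (-(69907 / 200000)) * S4) := by
      linarith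
    have := mul_nonneg (by linarith : 0 ≤ 1 - 40 * e) A0
    have := mul_nonneg he.le A1
    linarith

/-- The level of `W`. -/
theorem W2_cA {r : ℝ} : (W2 1 e r).cA = LAM e * ((3097 / 10000) * hg (r - 5 / 2 * e)) := by
  simp only [W2]
  rw [mul_one e]
  ring

theorem pW_bd (he : 0 < e) (he1 : e ≤ 1 / 40) (h : Up a) :
    0 ≤ hg (a - 5 / 2 * e) ∧ hg (a - 5 / 2 * e) ≤ a * (1 - 40 * e) := by
  have a0 := h.a0
  have a1 := h.a1
  refine ⟨hg_nn _, hg_of ?_ (mul_nonneg a0 (by linarith))⟩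
  nlinarith

theorem lw (he : 0 < e) (he1 : e ≤ 1 / 40) (h : Up a) :
    LAM e * (58 / 100) ≤ lsl e (sPw e a) ∧
      lsl e (sPw e a) ≤ LAM e * (124 / 100 - 78 / 10 * e) := by
  have a0 := h.a0
  have a1 := h.a1
  have t0 := h.t0
  have tm := h.tm
  obtain ⟨g1', g2⟩ := gL_bd he he1 t0 tm
  obtain ⟨p1, p2⟩ := pW_bd he he1 h
  have t3 : sg1 a 1 ≤ 9 / 4 * a := by nlinarith [h.tup]
  have L0 : 0 ≤ LAM e := by
    have := LAM_lo he he1
    nlinarith
  have et : e * sg1 a 1 ≤ e * (9 / 4 * a) := mul_le_mul_of_nonneg_left t3 he.le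
  have ea : e * a ≤ 1 / 40 * a := mul_le_mul_of_nonneg_right he1 a0
  rw [lPw_eq W2_cA]
  obtain ⟨q1', q2'⟩ := dD_q' h (N := (3097 / 10000) * hg (a - 5 / 2 * e) -
    (aL e 1 e (sg1 a 1) - bL e 1 e (sg1 a 1))) (m := 42 / 100) (M := 24 / 100 - 78 / 10 * e)
    (by norm_num) (by linarith) (by nlinarith) (by
      have k : 0 ≤ (24 / 100 - 78 / 10 * e) * a ^ 2 := mul_nonneg (by linarith) (sq_nonneg a)
      nlinarith)
  constructor
  · refine mul_le_mul_of_nonneg_left ?_ L0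
    linarith
  · refine mul_le_mul_of_nonneg_left ?_ L0
    linarith

/-! ### The zone between `W` and the next curve -/

theorem kb (he : 0 < e) (he1 : e ≤ 1 / 40) (h : Up a) :
    -(5 / 2 : ℝ) ≤ (sPb e a).k ∧ (sPb e a).k ≤ 5 / 2 := by
  have a0 := h.a0
  have a1 := h.a1
  obtain ⟨c1, d1⟩ := wK2_bd he a0
  have c2 := wK2_lo' he a0
  have w0 : -(1 / 500) ≤ xiw a 1 := by nlinarith [h.wlo]
  have w1 : xiw a 1 ≤ 0 := by nlinarith [h.wup, sq_nonneg a]
  have g0 := hg_nn (1 * a - 1 / 25)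
  have g1' := hg_of (x := 1 * a - 1 / 25) (y := 1 / 40) (by linarith) (by norm_num)
  have F1 : (3607 / 16000) + (231 / 20) * a ≤ fKb 1 a := by
    unfold fKb
    linarith
  have F2 : fKb 1 a ≤ (3609 / 16000) + (231 / 20) * a := by
    unfold fKb
    linarith
  have k1 : -(785 / 1000) ≤ fKb 1 a - 1 - wK2 1 e a := by linarith
  have m1 : -(785 / 1000) / 2 ≤ (1 / 2 + xiw a 1) * (fKb 1 a - 1 - wK2 1 e a) := by
    have s1 := mul_le_mul_of_nonneg_left k1 (by linarith : 0 ≤ 1 / 2 + xiw a 1)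
    linarith
  have m2 : (1 / 2 + xiw a 1) * (fKb 1 a - 1 - wK2 1 e a) ≤ 17 / 100 := by
    have s1 := mul_le_mul_of_nonneg_left (by linarith : fKb 1 a - 1 - wK2 1 e a ≤ 34 / 100)
      (by linarith : 0 ≤ 1 / 2 + xiw a 1)
    linarith
  have := kPb h (F := fKb 1 a) (κ := wK2 1 e a) (B := 1) (m := 5 / 2) (M := 5 / 2)
    (by linarith) (by linarith) (by nlinarith) (by nlinarith)
  rw [sPb_eq]
  exact this

theorem bb (he : 0 < e) (he1 : e ≤ 1 / 40) (h : Up a) :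
    -(4 : ℝ) ≤ (sPb e a).b ∧ (sPb e a).b ≤ 5 := by
  have a0 := h.a0
  have a1 := h.a1
  obtain ⟨c1, d1⟩ := wB2_bd he a0
  obtain ⟨b1, b2⟩ := B0_bd he he1
  have w0 : -(1 / 500) ≤ xiw a 1 := by nlinarith [h.wlo]
  have w1 : xiw a 1 ≤ 0 := by nlinarith [h.wup, sq_nonneg a]
  have g0 := hg_nn (1 * a - 1 / 25)
  have g1' := hg_of (x := 1 * a - 1 / 25) (y := 1 / 40) (by linarith) (by norm_num)
  have F1 : (6929 / 5000) + (-(469 / 40)) * a ≤ fBb 1 a := by
    unfold fBb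
    linarith
  have F2 : fBb 1 a ≤ (6929 / 5000) + (-(469 / 40)) * a := by
    unfold fBb
    linarith
  have k1 : -(1 / 10) - 97 / 10 * (1 / 16) ≤ fBb 1 a - B0 e - wB2 1 e a := by linarith
  have k2 : fBb 1 a - B0 e - wB2 1 e a ≤ 94 / 100 := by linarith
  have m1 : -(1 / 2) ≤ (1 / 2 + xiw a 1) * (fBb 1 a - B0 e - wB2 1 e a) := by
    have s1 := mul_le_mul_of_nonneg_left k1 (by linarith : 0 ≤ 1 / 2 + xiw a 1)
    linarith
  have m2 : (1 / 2 + xiw a 1) * (fBb 1 a - B0 e - wB2 1 e a) ≤ 47 / 100 := by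
    have s1 := mul_le_mul_of_nonneg_left k2 (by linarith : 0 ≤ 1 / 2 + xiw a 1)
    linarith
  have := kPb h (F := fBb 1 a) (κ := wB2 1 e a) (B := B0 e) (m := 4) (M := 5)
    (by linarith) (by linarith) (by nlinarith) (by nlinarith)
  rw [sPb_eq]
  exact this

theorem fXb_lo (he : 0 < e) (h : Up a) : (-(84283 / 100000)) + (-(817 / 4000)) * a ≤ fXb 1 e a := by
  have a0 := h.a0
  have a1 := h.a1
  unfold fXb
  have h0 := hg_nn (1 * a - 1 / 25)
  have h1 := hg_of (x := 1 * a - 1 / 25) (y := 9 / 25 * a) (by linarith) (by linarith)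
  have k1 : 0 ≤ (1481 / 500) + (349 / 8) * (1 * a) + (-(1489 / 40)) * hg (1 * a - 1 / 25) := by
    linarith
  have k2 := mul_nonneg k1 he.le
  linarith

theorem fXb_up (he : 0 < e) (h : Up a) :
    fXb 1 e a ≤ (-(84283 / 100000)) + (-(638 / 3125)) * a + ((4451 / 1000) + (32 / 5) * a) * e := by
  have a0 := h.a0
  have a1 := h.a1
  unfold fXb
  have h0 := hg_nn (1 * a - 1 / 25)
  have h2 := hg_of (x := 1 * a - 1 / 25) (y := 9 / 25 * a) (by linarith) (by linarith)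
  have h1 := hg_le (x := 1 * a - 1 / 25)
  have k2 := mul_le_mul_of_nonneg_right h1 he.le
  linarith

theorem lb (he : 0 < e) (he1 : e ≤ 1 / 40) (h : Up a) :
    LAM e * (1 / 2) ≤ lsl e (sPb e a) ∧
      lsl e (sPb e a) ≤ LAM e * (72 / 100 + 20 * e) := by
  have a0 := h.a0
  have a1 := h.a1
  obtain ⟨p1, p2⟩ := pW_bd he he1 h
  have F1 := fXb_lo he h
  have F2 := fXb_up he h
  have ea : e * a ≤ 1 / 40 * a := mul_le_mul_of_nonneg_right he1 a0
  have ea0 : 0 ≤ e * a := mul_nonneg he.le a0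
  have L0 : 0 ≤ LAM e := by
    have := LAM_lo he he1
    nlinarith
  rw [lPb_eq W2_cA]
  constructor
  · refine mul_le_mul_of_nonneg_left ?_ L0
    have := lPb_lo h (F := fXb 1 e a) (p := (3097 / 10000) * hg (a - 5 / 2 * e)) (m := 1 / 2)
      (by linarith) (by linarith) (by
        have k1 := mul_le_mul_of_nonneg_left F1
          (by nlinarith : 0 ≤ 1 / 2 - 3 / 8 * a ^ 2)
        nlinarith)
    linarith
  · refine mul_le_mul_of_nonneg_left ?_ L0
    have := lPb_up h (F := fXb 1 e a) (p := (3097 / 10000) * hg (a - 5 / 2 * e))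
      (m := -(28 / 100) + 20 * e)
      (by linarith) (by linarith) (by
        have k1 := mul_le_mul_of_nonneg_left F2
          (by nlinarith : 0 ≤ 1 / 2 - 2 / 5 * a ^ 2)
        have k2 := mul_le_mul_of_nonneg_right F2
          (by linarith : 0 ≤ 1 - 3 / 5 * a)
        nlinarith)
    linarith

end

end Pool.Agent.Strip051.LC.E1
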