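import Pool.Agent.Strip051.LC.E1.VertI

/-! # Rests near the full period, the vertical cube: the conditions of the moves -/

namespace Pool.Agent.Strip051.LC.E1

open Pool.Agent.StripNear Pool.Agent.StripSquare Pool.Agent.Strip051 Pool.Agent.Strip051.Sweep
open Pool.Agent.Strip051.PB
open G

section

variable {κ e y y' S : ℝ} {s s' : Sp}

theorem am_le (he : 0 < e) (he1 : e ≤ 1 / 40) (hκ : κ * h0 = kenE (1 - e)) {k : ℝ}
    (hk : 0 ≤ k) : am κ (1 - e) * k ≤ e * k := by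
  have h1 : am κ (1 - e) = e * eh e := amp_e (by linarith) hκ
  have h2 := eh_up he he1
  have h3 : eh e ≤ 1 := by nlinarith
  rw [h1]
  refine mul_le_mul_of_nonneg_right ?_ hk
  nlinarith

theorem k12_far (he : 0 < e) (he1 : e ≤ 1 / 40) (hκ : κ * h0 = kenE (1 - e))
    (hk : 0 ≤ s.k + s'.k) (S : ℝ) (h1 : s.M - s'.m ≤ S) (h2 : s'.M - s.m ≤ S)
    (h3 : e * (s.k + s'.k) + S / 2 ≤ y / 2) : K12 .far κ (1 - e) y y' s s' := by
  refine ⟨S, h1, h2, ?_⟩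
  have := am_le he he1 hκ hk
  show am κ (1 - e) * (s.k + s'.k) + S / 2 ≤ y / 2
  linarith

theorem k12_near (he : 0 < e) (he1 : e ≤ 1 / 40) (hκ : κ * h0 = kenE (1 - e))
    (hk : 0 ≤ s.k + s'.k) (S : ℝ) (h1 : s.M - s'.m ≤ S) (h2 : s'.M - s.m ≤ S) (hS : 0 ≤ S)
    (hy : 15 / 16 ≤ y) (hm : 0 ≤ s.m) (hY : 31 / 16 ≤ y + y') (hY' : y + y' ≤ 2)
    (h3 : e * (s.k + s'.k) + 33 / 128 * S ≤ y / 2 + 45 / 392 * s.m) :
    K12 .near κ (1 - e) y y' s s' := by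
  refine ⟨S, h1, h2, ?_⟩
  have h4 := am_le he he1 hκ hk
  have m0 := mu_lo he he1
  have m1 := mu_up he he1
  show am κ (1 - e) * (s.k + s'.k) ≤ y / 2 + mun 3 (1 - e) * (y * s.m / 2 -
    (3 + (1 - e) - y - y') / 2 * S)
  rw [mu_eq]
  have h5 : 0 ≤ (3 + (1 - e) - y - y') / 2 := by linarith
  have h6 : (3 + (1 - e) - y - y') / 2 ≤ 33 / 32 := by linarith
  have h7 : G.mu e * ((3 + (1 - e) - y - y') / 2) ≤ 1 / 4 * (33 / 32) :=
    mul_le_mul m1 h6 h5 (by norm_num)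
  have h8 := mul_le_mul_of_nonneg_right h7 hS
  have h9 : 12 / 49 * (15 / 16) ≤ G.mu e * y := mul_le_mul m0 hy (by norm_num) (by linarith)
  have h10 := mul_le_mul_of_nonneg_right h9 hm
  linarith

theorem c13_far (he : 0 < e) (he1 : e ≤ 1 / 40) (hκ : κ * h0 = kenE (1 - e))
    (hk : 0 ≤ s.k + s'.k) (S : ℝ) (h1 : s.M - s'.m ≤ S) (h2 : s'.M - s.m ≤ S)
    (h3 : e * (s.k + s'.k) + S / 2 ≤ (y + y') / 2) : C13 .far κ (1 - e) y y' s s' := by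
  refine ⟨S, h1, h2, ?_⟩
  have := am_le he he1 hκ hk
  show am κ (1 - e) * (s.k + s'.k) + S / 2 ≤ (y + y') / 2
  linarith

theorem c13_near (he : 0 < e) (he1 : e ≤ 1 / 40) (hκ : κ * h0 = kenE (1 - e))
    (hk : 0 ≤ s.k + s'.k) (S : ℝ) (h1 : s.M - s'.m ≤ S) (h2 : s'.M - s.m ≤ S) (hS : 0 ≤ S)
    (hy : 15 / 16 ≤ y) (hy' : 15 / 16 ≤ y') (hm : 0 ≤ s.m) (hm' : 0 ≤ s'.m)
    (hY : 31 / 16 ≤ y + y') (hY' : y + y' ≤ 2)
    (h3 : e * (s.k + s'.k) + 33 / 128 * S ≤ (y + y') / 2) :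
    C13 .near κ (1 - e) y y' s s' := by
  refine ⟨S, h1, h2, ?_⟩
  have h4 := am_le he he1 hκ hk
  have m0 := mu_lo he he1
  have m1 := mu_up he he1
  show am κ (1 - e) * (s.k + s'.k) ≤ (y + y') / 2 + mun 3 (1 - e) *
    ((y' * s.m + y * s'.m) / 2 - (3 + (1 - e) - y - y') / 2 * S)
  rw [mu_eq]
  have h5 : 0 ≤ (3 + (1 - e) - y - y') / 2 := by linarith
  have h6 : (3 + (1 - e) - y - y') / 2 ≤ 33 / 32 := by linarith
  have h7 : G.mu e * ((3 + (1 - e) - y - y') / 2) ≤ 1 / 4 * (33 / 32) :=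
    mul_le_mul m1 h6 h5 (by norm_num)
  have h8 := mul_le_mul_of_nonneg_right h7 hS
  have h9 : 0 ≤ G.mu e * ((y' * s.m + y * s'.m) / 2) := by
    have : 0 ≤ y' * s.m := mul_nonneg (by linarith) hm
    have : 0 ≤ y * s'.m := mul_nonneg (by linarith) hm'
    have : 0 ≤ G.mu e := by linarith
    positivity
  linarith

end

end Pool.Agent.Strip051.LC.E1
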