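import Pool.Agent.Strip051.LC.Exact.Win

/-! # The conditions at the floor with a small exceptional window

As `LC/Exact/Win`, with a window of variable size: `τ` bounds the vertical displacement, `η` the
height and `D0` the length of the exceptional pairs. In a triangle with an apex beyond an end the
constant `be` belongs to the height of the short edge, and `UM` bounds its abscissa. -/

namespace Pool.Agent.Strip051.LC.E1

open Pool.Agent.StripNear Pool.Agent.StripSquare Pool.Agent.Strip051 Pool.Agent.Strip051.Sweep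
open Pool.Agent.Strip051.LC

/-- The exceptional window: almost horizontal pairs on the floor. -/
structure WinP (τ η D0 : ℝ) (a b : Pt) : Prop where
  x : D0 ≤ b.1 - a.1
  d1 : b.2 - a.2 ≤ τ
  d2 : a.2 - b.2 ≤ τ
  y : min a.2 b.2 ≤ η

section

variable {τ η D0 : ℝ} {a b : Pt}

theorem WinP.left (h : WinP τ η D0 a b) (hτ : 0 ≤ τ) : a.2 ≤ η + τ := by
  have h1 := h.d2
  rcases min_le_iff.1 h.y with h2 | h2 <;> linarith

theorem WinP.right (h : WinP τ η D0 a b) (hτ : 0 ≤ τ) : b.2 ≤ η + τ := by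
  have h1 := h.d1
  rcases min_le_iff.1 h.y with h2 | h2 <;> linarith

end

/-- The inequalities for one vertex. -/
structure WinV (D : Data) (s μ τ η D0 UM : ℝ) (al be : ℝ → ℝ) : Prop where
  tri : ∀ p q r : Pt, 0 ≤ p.2 → 0 ≤ q.2 → 0 ≤ r.2 → 0 ≤ cr p q r → 1 ≤ ds p q → 1 ≤ ds q r →
    1 ≤ ds p r → ds p q ≤ 3 → ds q r ≤ 3 → ds p r ≤ 3 → p.2 ≤ 3 * h0 → q.2 ≤ 3 * h0 →
    r.2 ≤ 3 * h0 → 0 ≤ SF D s μ p q r
  pair : ∀ a b, FF a b → ds a b ≤ 3 → 0 ≤ WF D s μ a b ∨ WinP τ η D0 a b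
  al0 : ∀ T, 0 ≤ al T
  be0 : ∀ T, 0 ≤ be T
  low : ∀ a b : Pt, 0 ≤ a.2 → 0 ≤ b.2 → a.1 ≤ b.1 → 1 ≤ ds a b → ds a b ≤ 3 →
    τ ≤ |b.2 - a.2| → |b.2 - a.2| ≤ h0 → 0 ≤ WF D s μ a b
  high : ∀ T (a b : Pt), 0 ≤ a.2 → 0 ≤ b.2 → a.1 ≤ b.1 → 1 ≤ ds a b → ds a b ≤ 3 →
    min a.2 b.2 ≤ η + τ → h0 - τ ≤ T → T ≤ |b.2 - a.2| → |b.2 - a.2| ≤ T + τ →
    |b.2 - a.2| ≤ 17 / 10 → al T * (b.1 - a.1 - D0 / 2) ≤ WF D s μ a b
  far : ∀ T (a b : Pt), 0 ≤ a.2 → 0 ≤ b.2 → 1 ≤ ds a b → ds a b ≤ 3 →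
    min a.2 b.2 ≤ η + τ → 4 / 5 ≤ T → T ≤ 29 / 20 → 1 ≤ UM ^ 2 + T ^ 2 → T - τ ≤ |b.2 - a.2| →
    |b.2 - a.2| ≤ T + τ → D0 ≤ b.1 - a.1 → 1 / 2 + be T * (b.1 - a.1 - D0) ≤ WF D s μ a b
  near : ∀ T (a b : Pt), 0 ≤ a.2 → 0 ≤ b.2 → a.1 ≤ b.1 → 1 ≤ ds a b → ds a b ≤ 3 →
    min a.2 b.2 ≤ η + τ → 4 / 5 ≤ T → T ≤ 29 / 20 → |b.2 - a.2| = T →
    b.1 - a.1 ≤ UM → WF D s μ a b + 1 / 2 ≤ be T * (b.1 - a.1)

/-- The apex is beyond an end: `X`, `T1` belong to the long edge, `d`, `T2` to the short one. -/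
theorem out_geo {τ D0 UM X d T1 T2 : ℝ} (hτ : 0 ≤ τ) (hτ' : τ ≤ 1 / 50) (hD : 1 ≤ D0)
    (hU : 2 + 29 / 10 * τ ≤ D0 ^ 2 + 2 * D0 * UM)
    (hX : D0 ≤ X) (hd : 0 ≤ d) (h1 : -(1 / 10) ≤ T2) (h2 : T2 - τ ≤ T1)
    (h3 : (X + d) ^ 2 + T1 ^ 2 ≤ 3) (h4 : 1 ≤ d ^ 2 + T2 ^ 2) :
    4 / 5 ≤ T2 ∧ T2 ≤ 29 / 20 ∧ d ≤ UM ∧ 1 ≤ UM ^ 2 + T2 ^ 2 := by
  have hX1 : 1 ≤ X := hD.trans hX
  have s1 : d ≤ 733 / 1000 := by
    by_contra h
    push Not at h
    nlinarith [sq_nonneg T1]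
  have s2 : 68 / 100 ≤ T2 := by
    by_contra h
    push Not at h
    nlinarith
  have s3 : 0 ≤ T1 := by linarith
  have key : X ^ 2 + 2 * X * d ≤ 2 + 2 * τ * T2 := by nlinarith
  have key2 : D0 ^ 2 + 2 * D0 * d ≤ X ^ 2 + 2 * X * d := by nlinarith
  have s4 : T2 ≤ 29 / 20 := by
    by_contra h
    push Not at h
    nlinarith
  have s5 : d ≤ 53 / 100 := by nlinarith
  have s6 : d ≤ UM := by
    by_contra h
    push Not at h
    nlinarith
  refine ⟨?_, s4, s6, ?_⟩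
  · by_contra h
    push Not at h
    nlinarith
  · nlinarith

section

variable {D : Data} {s μ τ η D0 UM : ℝ} {al be : ℝ → ℝ}

/-- The apex is in the middle. -/
theorem WinV.mid (h : WinV D s μ τ η D0 UM al be) (hτ : 0 ≤ τ) (hτ' : τ ≤ 1 / 50) (hη : η ≤ 1 / 50)
    (hD : 1 ≤ D0) {p q r : Pt} (hw : WinP τ η D0 p q) (hp : 0 ≤ p.2) (hq : 0 ≤ q.2)
    (hr : 0 ≤ r.2) (h1 : p.1 ≤ r.1) (h2 : r.1 ≤ q.1) (k1 : 1 ≤ ds p r) (k2 : 1 ≤ ds r q)
    (k3 : ds p r ≤ 3) (k4 : ds r q ≤ 3) (k5 : ds p q ≤ 3) :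
    0 ≤ WF D s μ p r + WF D s μ r q := by
  have hpl := hw.left hτ
  have hql := hw.right hτ
  have hx := hw.x
  have d1 := hw.d1
  have d2 := hw.d2
  have hh := h0_pos
  have hsq := h0_sq
  have h86 : (43 : ℝ) / 50 ≤ h0 := by nlinarith
  -- the apex is high
  have hX : (q.1 - p.1) ^ 2 ≤ 3 := by
    unfold ds at k5
    nlinarith [sq_nonneg (q.2 - p.2)]
  have hX' : q.1 - p.1 ≤ 1733 / 1000 := by
    by_contra h3
    push Not at h3
    nlinarith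
  have hm : 2 / 5 ≤ r.2 - p.2 ∧ 2 / 5 ≤ r.2 - q.2 := by
    rcases le_total (r.1 - p.1) (867 / 1000) with h3 | h3
    · have : 49 / 100 ≤ r.2 - p.2 := by
        by_contra h4
        push Not at h4
        unfold ds at k1
        nlinarith
      constructor <;> linarith
    · have h5 : q.1 - r.1 ≤ 867 / 1000 := by linarith
      have : 49 / 100 ≤ r.2 - q.2 := by
        by_contra h4
        push Not at h4
        unfold ds at k2
        nlinarith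
      constructor <;> linarith
  have a1 : |r.2 - p.2| = r.2 - p.2 := abs_of_nonneg (by linarith [hm.1])
  have a2 : |q.2 - r.2| = r.2 - q.2 := by
    rw [abs_sub_comm]
    exact abs_of_nonneg (by linarith [hm.2])
  by_cases hc : h0 - τ ≤ r.2 - p.2 ∧ h0 - τ ≤ r.2 - q.2
  · have hup : r.2 - p.2 ≤ 17 / 10 ∧ r.2 - q.2 ≤ 17 / 10 := by
      rcases le_total (1 / 2) (r.1 - p.1) with h3 | h3
      · have : r.2 - p.2 ≤ 166 / 100 := by
          by_contra h4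
          push Not at h4
          unfold ds at k3
          nlinarith
        constructor <;> linarith
      · have : r.2 - q.2 ≤ 166 / 100 := by
          by_contra h4
          push Not at h4
          unfold ds at k4
          nlinarith
        constructor <;> linarith
    set T := min (r.2 - p.2) (r.2 - q.2) with hT
    have t0 : h0 - τ ≤ T := le_min hc.1 hc.2
    have t1 : T ≤ r.2 - p.2 := min_le_left _ _
    have t2 : T ≤ r.2 - q.2 := min_le_right _ _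
    have t3 : r.2 - p.2 ≤ T + τ := by
      rcases min_choice (r.2 - p.2) (r.2 - q.2) with h3 | h3 <;> rw [hT, h3] <;> linarith
    have t4 : r.2 - q.2 ≤ T + τ := by
      rcases min_choice (r.2 - p.2) (r.2 - q.2) with h3 | h3 <;> rw [hT, h3] <;> linarith
    have e1 := h.high T p r hp hr h1 k1 k3 ((min_le_left _ _).trans hpl) t0
      (by rw [a1]; exact t1) (by rw [a1]; exact t3) (by rw [a1]; exact hup.1)
    have e2 := h.high T r q hr hq h2 k2 k4 ((min_le_right _ _).trans hql) t0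
      (by rw [a2]; exact t2) (by rw [a2]; exact t4) (by rw [a2]; exact hup.2)
    have e3 : 0 ≤ al T * (q.1 - p.1 - D0) := mul_nonneg (h.al0 T) (by linarith)
    have e4 : al T * (r.1 - p.1 - D0 / 2) + al T * (q.1 - r.1 - D0 / 2) =
        al T * (q.1 - p.1 - D0) := by ring
    linarith
  · have hz : r.2 - p.2 ≤ h0 ∧ r.2 - q.2 ≤ h0 := by
      by_contra hcc
      apply hc
      constructor
      · by_contra h3
        push Not at h3
        exact hcc ⟨by linarith, by linarith⟩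
      · by_contra h3
        push Not at h3
        exact hcc ⟨by linarith, by linarith⟩
    have e1 := h.low p r hp hr h1 k1 k3 (by rw [a1]; linarith [hm.1]) (by rw [a1]; exact hz.1)
    have e2 := h.low r q hr hq h2 k2 k4 (by rw [a2]; linarith [hm.2]) (by rw [a2]; exact hz.2)
    linarith

theorem WinV.right (h : WinV D s μ τ η D0 UM al be) (hτ : 0 ≤ τ) (hτ' : τ ≤ 1 / 50)
    (hη : η ≤ 1 / 50) (hD1 : 1 ≤ D0)
    (hU : 2 + 29 / 10 * τ ≤ D0 ^ 2 + 2 * D0 * UM) (hD : D.Ok) {p q r : Pt} (hw : WinP τ η D0 p q)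
    (hp : 0 ≤ p.2) (hq : 0 ≤ q.2) (hr : 0 ≤ r.2) (h2 : q.1 ≤ r.1)
    (k1 : 1 ≤ ds p r) (k2 : 1 ≤ ds q r) (k3 : ds p r ≤ 3) (k4 : ds q r ≤ 3) :
    0 ≤ WF D s μ p r + WF D s μ r q := by
  have hx := hw.x
  have d1 := hw.d1
  have d2 := hw.d2
  obtain ⟨g1, g1', g2, g2'⟩ := out_geo (X := q.1 - p.1) (d := r.1 - q.1) (T1 := r.2 - p.2)
    (T2 := r.2 - q.2) hτ hτ' hD1 hU hx (by linarith) (by linarith [hw.right hτ]) (by linarith) (by
      unfold ds at k3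
      rw [show q.1 - p.1 + (r.1 - q.1) = r.1 - p.1 by ring]
      exact k3) k2
  have a1 : |r.2 - p.2| = r.2 - p.2 := abs_of_nonneg (by linarith)
  have a2 : |r.2 - q.2| = r.2 - q.2 := abs_of_nonneg (by linarith)
  have e1 := h.far (r.2 - q.2) p r hp hr k1 k3 ((min_le_left _ _).trans (hw.left hτ)) g1
    g1' g2' (by rw [a1]; linarith) (by rw [a1]; linarith) (by linarith)
  have e2 := h.near (r.2 - q.2) q r hq hr h2 k2 k4 ((min_le_left _ _).trans (hw.right hτ)) g1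
    g1' a2 g2
  have e3 : 0 ≤ be (r.2 - q.2) * (q.1 - p.1 - D0) := mul_nonneg (h.be0 _) (by linarith)
  have e4 : be (r.2 - q.2) * (r.1 - p.1 - D0) - be (r.2 - q.2) * (r.1 - q.1) =
    be (r.2 - q.2) * (q.1 - p.1 - D0) := by ring
  rw [WF_anti hD s μ q r]
  linarith

theorem WinV.left (h : WinV D s μ τ η D0 UM al be) (hτ : 0 ≤ τ) (hτ' : τ ≤ 1 / 50)
    (hη : η ≤ 1 / 50) (hD1 : 1 ≤ D0)
    (hU : 2 + 29 / 10 * τ ≤ D0 ^ 2 + 2 * D0 * UM) (hD : D.Ok) {p q r : Pt} (hw : WinP τ η D0 p q)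
    (hp : 0 ≤ p.2) (hq : 0 ≤ q.2) (hr : 0 ≤ r.2) (h2 : r.1 ≤ p.1)
    (k1 : 1 ≤ ds r p) (k2 : 1 ≤ ds r q) (k3 : ds r p ≤ 3) (k4 : ds r q ≤ 3) :
    0 ≤ WF D s μ p r + WF D s μ r q := by
  have hx := hw.x
  have d1 := hw.d1
  have d2 := hw.d2
  have r1 : 1 ≤ (p.1 - r.1) ^ 2 + (r.2 - p.2) ^ 2 := by
    unfold ds at k1
    rw [show (r.2 - p.2) ^ 2 = (p.2 - r.2) ^ 2 by ring]
    exact k1
  obtain ⟨g1, g1', g2, g2'⟩ := out_geo (X := q.1 - p.1) (d := p.1 - r.1) (T1 := r.2 - q.2)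
    (T2 := r.2 - p.2) hτ hτ' hD1 hU hx (by linarith) (by linarith [hw.left hτ]) (by linarith) (by
      unfold ds at k4
      rw [show q.1 - p.1 + (p.1 - r.1) = q.1 - r.1 by ring]
      rw [show (r.2 - q.2) ^ 2 = (q.2 - r.2) ^ 2 by ring]
      exact k4) r1
  have a1 : |q.2 - r.2| = r.2 - q.2 := by
    rw [abs_sub_comm]
    exact abs_of_nonneg (by linarith)
  have a2 : |p.2 - r.2| = r.2 - p.2 := by
    rw [abs_sub_comm]
    exact abs_of_nonneg (by linarith)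
  have e1 := h.far (r.2 - p.2) r q hr hq k2 k4 ((min_le_right _ _).trans (hw.right hτ)) g1
    g1' g2' (by rw [a1]; linarith) (by rw [a1]; linarith) (by linarith)
  have e2 := h.near (r.2 - p.2) r p hr hp h2 k1 k3 ((min_le_right _ _).trans (hw.left hτ)) g1
    g1' a2 g2
  have e3 : 0 ≤ be (r.2 - p.2) * (q.1 - p.1 - D0) := mul_nonneg (h.be0 _) (by linarith)
  have e4 : be (r.2 - p.2) * (q.1 - r.1 - D0) - be (r.2 - p.2) * (p.1 - r.1) =
    be (r.2 - p.2) * (q.1 - p.1 - D0) := by ring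
  rw [WF_anti hD s μ r p]
  linarith

/-- **The conditions for the small triangles with an exceptional window.** -/
theorem starSmall_of_win {m : ℝ} {al' be' : ℝ → ℝ} (hD : D.Ok) (hτ : 0 ≤ τ)
    (hτ' : τ ≤ 1 / 50) (hη : η ≤ 1 / 50) (hD0 : 1 ≤ D0)
    (hU : 2 + 29 / 10 * τ ≤ D0 ^ 2 + 2 * D0 * UM) (h0' : WinV D s 0 τ η D0 UM al be)
    (hm : WinV D s m τ η D0 UM al' be') : StarSmall D s m := by
  -- the four statements for one vertex
  have row : ∀ {μ : ℝ} {al be : ℝ → ℝ}, WinV D s μ τ η D0 UM al be →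
      (∀ a b c o R, Cell a b c o R → 0 ≤ c.2 → a.1 ≤ c.1 → c.1 ≤ b.1 → FF a b →
        ds a b ≤ 3 → ds b c ≤ 3 → ds a c ≤ 3 →
        0 ≤ SF D s μ a b c + WF D s μ a b) ∧
      (∀ a c b o R, Cell a c b o R → 0 ≤ b.2 → c.1 ≤ b.1 → FF a c → ds a c ≤ 3 → ds c b ≤ 3 →
        ds a b ≤ 3 → 0 ≤ SF D s μ a c b + WF D s μ a c) ∧
      (∀ a c b o R, Cell a c b o R → 0 ≤ a.2 → a.1 ≤ c.1 → FF c b → ds a c ≤ 3 → ds c b ≤ 3 →
        ds a b ≤ 3 → 0 ≤ SF D s μ a c b + WF D s μ c b) := by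
    intro μ al be h
    refine ⟨?_, ?_, ?_⟩
    · intro a b c o R k hc0 h1 h2 hf k8 k9 k10
      obtain ⟨u1, u2, u3⟩ := hf.tri_low k10 k9
      have hS := h.tri a b c hf.p0 hf.q0 hc0 k.cr k.pq k.qr k.pr k8 k9 k10 u1 u2 u3
      rcases h.pair a b hf k8 with hw | hw
      · linarith
      · rw [SF_path hD]
        have k2 : 1 ≤ ds c b := by rw [ds_comm]; exact k.qr
        have k4 : ds c b ≤ 3 := by rw [ds_comm]; exact k9
        exact h.mid hτ hτ' hη hD0 hw hf.p0 hf.q0 hc0 h1 h2 k.pr k2 k10 k4 k8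
    · intro a c b o R k hb0 h2 hf k7 k8 k9
      obtain ⟨u1, u2, u3⟩ := hf.tri_low k9 k8
      have hS := h.tri a c b hf.p0 hf.q0 hb0 k.cr k.pq k.qr k.pr k7 k8 k9 u1 u2 u3
      rcases h.pair a c hf k7 with hw | hw
      · linarith
      · rw [SF_path hD]
        exact h.right hτ hτ' hη hD0 hU hD hw hf.p0 hf.q0 hb0 h2 k.pr k.qr k9 k8
    · intro a c b o R k ha0 h1 hf k7 k8 k9
      have k7' : ds c a ≤ 3 := by rw [ds_comm]; exact k7
      have k9' : ds b a ≤ 3 := by rw [ds_comm]; exact k9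
      obtain ⟨u1, u2, u3⟩ := hf.tri_low k7' k9'
      have hS := h.tri a c b ha0 hf.p0 hf.q0 k.cr k.pq k.qr k.pr k7 k8 k9 u3 u1 u2
      rcases h.pair c b hf k8 with hw | hw
      · linarith
      · rw [← SF_rot, SF_path hD]
        exact h.left hτ hτ' hη hD0 hU hD hw hf.p0 hf.q0 ha0 h1 k.pq k.pr k7 k9
  have two : ∀ {μ : ℝ} {al be : ℝ → ℝ}, WinV D s μ τ η D0 UM al be →
      ∀ a c b o R, Cell a c b o R → a.1 ≤ c.1 → c.1 ≤ b.1 → FF a c → FF c b →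
      ds a c ≤ 3 → ds c b ≤ 3 → ds a b ≤ 3 →
      0 ≤ SF D s μ a c b + WF D s μ a c + WF D s μ c b := by
    intro μ al be h a c b o R k h1 h2 f1 f2 k7 k8 k9
    obtain ⟨-, rL, rR⟩ := row h
    have eL := rL a c b o R k f2.q0 h2 f1 k7 k8 k9
    have eR := rR a c b o R k f1.p0 h1 f2 k7 k8 k9
    rcases h.pair a c f1 k7 with w1 | w1
    · linarith
    · rcases h.pair c b f2 k8 with w2 | w2
      · linarith
      · exfalso
        have x1 := w1.x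
        have x2 := w2.x
        unfold ds at k9
        nlinarith [sq_nonneg (b.2 - a.2)]
  obtain ⟨a1, a2, a3⟩ := row h0'
  obtain ⟨b1, b2, b3⟩ := row hm
  refine ⟨?_, ?_, ?_, ?_⟩
  · intro a b c o R k _ hc0 h1 h2 hf hn k8 k9 k10
    refine Or.inl fun μ hμ => ?_
    rcases hμ with rfl | rfl
    · exact a1 a b c o R k hc0 h1 h2 hf k8 k9 k10
    · exact b1 a b c o R k hc0 h1 h2 hf k8 k9 k10
  · intro a c b o R k _ hb0 _ h2 hf k7 k8 k9
    refine Or.inl fun μ hμ => ?_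
    rcases hμ with rfl | rfl
    · exact a2 a c b o R k hb0 h2 hf k7 k8 k9
    · exact b2 a c b o R k hb0 h2 hf k7 k8 k9
  · intro a c b o R k _ ha0 h1 _ hf k7 k8 k9
    refine Or.inl fun μ hμ => ?_
    rcases hμ with rfl | rfl
    · exact a3 a c b o R k ha0 h1 hf k7 k8 k9
    · exact b3 a c b o R k ha0 h1 hf k7 k8 k9
  · intro a c b o R k _ h1 h2 f1 f2 k7 k8 k9
    refine Or.inl fun μ hμ => ?_
    rcases hμ with rfl | rfl
    · exact two h0' a c b o R k h1 h2 f1 f2 k7 k8 k9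
    · exact two hm a c b o R k h1 h2 f1 f2 k7 k8 k9

end

end Pool.Agent.Strip051.LC.E1
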