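import Pool.Agent.Strip051.LC.E1.NearV

/-! # Rests near the full period: the alternatives of the certificates -/

namespace Pool.Agent.Strip051.LC.E1

open Pool.Agent.StripNear Pool.Agent.StripSquare Pool.Agent.Strip051 Pool.Agent.Strip051.Sweep
open Pool.Agent.Strip051.PB
open Pool.Agent.Strip051.LC
open G

section

variable {n : ℕ} {D : PV n} {RA RB RL : Fin (n + 1) → ℕ → ℝ → ℝ → ℝ} {κ x σ σ' : ℝ}
  {pc : ℕ → Piece} {l : List Cc} {a b c : ℕ} {j k : Fin (n + 1)}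

theorem kap0 (hκ : κ * h0 = kenE x) (h0x : 0 < x) (h1x : x < 1) : 0 ≤ κ := by
  have hp := h0_pos
  obtain ⟨e, he⟩ : ∃ e, e = 1 - x := ⟨_, rfl⟩
  have hx : x = 1 - e := by linarith
  have h2 := (eh_pos (e := e) (by linarith) (by linarith)).le
  rw [hx, kenE_e (by linarith)] at hκ
  have h3 : 0 ≤ 2 * eh e / (1 - e) := div_nonneg (by linarith) (by linarith)
  rw [← hκ] at h3
  exact nonneg_of_mul_nonneg_left h3 hp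

theorem altFA (h : SideV D RA RL pc x) (hσ : σ = 1 ∨ σ = -1) (hσ' : σ' = 1 ∨ σ' = -1)
    (H : ∀ y y', FactsA D.P a b c j k σ σ' y y' →
      (∀ d ∈ l, d.P x y y' (σ * crv D.P j a y + σ' * crv D.P k b y') (y + y')) →
      OKV .far ⟨D, RA, RB, RL⟩ κ x (σ * crv D.P j a y) (σ * crv D.P j a y + σ' * crv D.P k b y')
        y y') :
    AltVA (VFD κ) D RA RL pc l a b c j k σ σ' x :=
  fun y y' F _ _ hd => stA_far (T := ⟨D, RA, RB, RL⟩) h hσ hσ' F (H y y' F hd)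

theorem altNA (h : SideV D RB RL pc x) (hσ : σ = 1 ∨ σ = -1) (hσ' : σ' = 1 ∨ σ' = -1)
    (H : ∀ y y', FactsA D.P a b c j k σ σ' y y' →
      (∀ d ∈ l, d.P x y y' (σ * crv D.P j a y + σ' * crv D.P k b y') (y + y')) →
      OKV .near ⟨D, RA, RB, RL⟩ κ x (σ * crv D.P j a y)
        (σ * crv D.P j a y + σ' * crv D.P k b y') y y') :
    AltVA (VND 3 κ) D RB RL pc l a b c j k σ σ' x :=
  fun y y' F _ _ hd => stA_near (T := ⟨D, RA, RB, RL⟩) h hσ hσ' F (H y y' F hd)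

theorem altFB (h : SideV D RA RL pc x) (hσ : σ = 1 ∨ σ = -1) (hσ' : σ' = 1 ∨ σ' = -1)
    (H : ∀ y y', FactsB D.P a b c j k σ σ' y y' →
      (∀ d ∈ l, d.P x y y' (σ' * crv D.P k c (y + y') - σ * crv D.P j a y) y') →
      OKV .far ⟨D, RA, RB, RL⟩ κ x (σ * crv D.P j a y) (σ' * crv D.P k c (y + y')) y y') :
    AltVB (VFD κ) D RA RL pc l a b c j k σ σ' x :=
  fun y y' F _ _ hd => stB_far (T := ⟨D, RA, RB, RL⟩) h hσ hσ' F (H y y' F hd)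

theorem altNB (h : SideV D RB RL pc x) (hσ : σ = 1 ∨ σ = -1) (hσ' : σ' = 1 ∨ σ' = -1)
    (H : ∀ y y', FactsB D.P a b c j k σ σ' y y' →
      (∀ d ∈ l, d.P x y y' (σ' * crv D.P k c (y + y') - σ * crv D.P j a y) y') →
      OKV .near ⟨D, RA, RB, RL⟩ κ x (σ * crv D.P j a y) (σ' * crv D.P k c (y + y')) y y') :
    AltVB (VND 3 κ) D RB RL pc l a b c j k σ σ' x :=
  fun y y' F _ _ hd => stB_near (T := ⟨D, RA, RB, RL⟩) h hσ hσ' F (H y y' F hd)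

end

section

variable {D : PV 7} {RA RB RL : Fin 8 → ℕ → ℝ → ℝ → ℝ} {κ e k1 lo1 hi1 : ℝ}
  {pc : ℕ → Piece} {a b c : ℕ} {j k : Fin 8}

theorem fA1 (h : SideV D RA RL pc (1 - e)) (G : Hyp .far ⟨D, RA, RB, RL⟩ κ e k1 lo1 hi1)
    (hj : j = 0 ∨ j = 3 ∨ j = 4) (hk : k = 0 ∨ (k = 3 ∧ b = 2)) :
    AltVA (VFD κ) D RA RL pc t011 a b c j k 1 (-1) (1 - e) :=
  altFA h (Or.inl rfl) (Or.inr rfl) fun _ _ F hl => pA1 G hj hk F hl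

theorem fA2 (h : SideV D RA RL pc (1 - e)) (G : Hyp .far ⟨D, RA, RB, RL⟩ κ e k1 lo1 hi1)
    (hk : k = 7 ∨ (k = 3 ∧ b = 1)) :
    AltVA (VFD κ) D RA RL pc w011 a b c j k 1 (-1) (1 - e) :=
  altFA h (Or.inl rfl) (Or.inr rfl) fun _ _ F hl => pA2 G hk F hl

theorem fA3 (h : SideV D RA RL pc (1 - e)) (G : Hyp .far ⟨D, RA, RB, RL⟩ κ e k1 lo1 hi1)
    (hk : k = 0 ∨ (k = 3 ∧ b = 2)) :
    AltVA (VFD κ) D RA RL pc w011 a b c j k 1 1 (1 - e) :=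
  altFA h (Or.inl rfl) (Or.inl rfl) fun _ _ F hl => pA3 G hk F hl

theorem fB1 (h : SideV D RA RL pc (1 - e)) (G : Hyp .far ⟨D, RA, RB, RL⟩ κ e k1 lo1 hi1)
    (hj : j = 0 ∨ j = 3 ∨ j = 4) (hk : k = 0 ∨ (k = 3 ∧ c = 2)) :
    AltVB (VFD κ) D RA RL pc t011 a b c j k 1 1 (1 - e) :=
  altFB h (Or.inl rfl) (Or.inl rfl) fun _ _ F hl => pB1 G hj hk F hl

theorem fB2 (h : SideV D RA RL pc (1 - e)) (G : Hyp .far ⟨D, RA, RB, RL⟩ κ e k1 lo1 hi1)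
    (hk : k = 0 ∨ (k = 3 ∧ c = 2)) :
    AltVB (VFD κ) D RA RL pc w011 a b c j k 1 (-1) (1 - e) :=
  altFB h (Or.inl rfl) (Or.inr rfl) fun _ _ F hl => pB2 G hk F hl

theorem fB3 (h : SideV D RA RL pc (1 - e)) (G : Hyp .far ⟨D, RA, RB, RL⟩ κ e k1 lo1 hi1)
    (hk : k = 7 ∨ (k = 3 ∧ c = 1)) :
    AltVB (VFD κ) D RA RL pc w011 a b c j k 1 1 (1 - e) :=
  altFB h (Or.inl rfl) (Or.inl rfl) fun _ _ F hl => pB3 G hk F hl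

theorem fA1m (h : SideV D RA RL pc (1 - e)) (G : Hyp .far ⟨D, RA, RB, RL⟩ κ e k1 lo1 hi1)
    (hk : k = 0 ∨ k = 3 ∨ k = 4) (hj : j = 0 ∨ (j = 3 ∧ a = 2)) :
    AltVA (VFD κ) D RA RL pc t101 a b c j k 1 (-1) (1 - e) :=
  altFA h (Or.inl rfl) (Or.inr rfl) fun _ _ F hl => pA1m G hk hj F hl

theorem fA2m (h : SideV D RA RL pc (1 - e)) (G : Hyp .far ⟨D, RA, RB, RL⟩ κ e k1 lo1 hi1)
    (hj : j = 7 ∨ (j = 3 ∧ a = 1)) :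
    AltVA (VFD κ) D RA RL pc w101 a b c j k 1 (-1) (1 - e) :=
  altFA h (Or.inl rfl) (Or.inr rfl) fun _ _ F hl => pA2m G hj F hl

theorem fA3m (h : SideV D RA RL pc (1 - e)) (G : Hyp .far ⟨D, RA, RB, RL⟩ κ e k1 lo1 hi1)
    (hj : j = 0 ∨ (j = 3 ∧ a = 2)) :
    AltVA (VFD κ) D RA RL pc w101 a b c j k (-1) (-1) (1 - e) :=
  altFA h (Or.inr rfl) (Or.inr rfl) fun _ _ F hl => pA3m G hj F hl

theorem fB1m (h : SideV D RA RL pc (1 - e)) (G : Hyp .far ⟨D, RA, RB, RL⟩ κ e k1 lo1 hi1)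
    (hj : j = 0 ∨ (j = 3 ∧ a = 2)) (hk : k = 0 ∨ (k = 3 ∧ c = 2)) :
    AltVB (VFD κ) D RA RL pc s101 a b c j k 1 (-1) (1 - e) :=
  altFB h (Or.inl rfl) (Or.inr rfl) fun _ _ F hl => pB1m G hj hk F hl

theorem fB2m (h : SideV D RA RL pc (1 - e)) (G : Hyp .far ⟨D, RA, RB, RL⟩ κ e k1 lo1 hi1)
    (hj : j = 7 ∨ (j = 3 ∧ a = 1)) (hk : k = 0 ∨ (k = 3 ∧ c = 2)) :
    AltVB (VFD κ) D RA RL pc w101 a b c j k 1 1 (1 - e) :=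
  altFB h (Or.inl rfl) (Or.inl rfl) fun _ _ F hl => pB2m G hj hk F hl

theorem fB3m (h : SideV D RA RL pc (1 - e)) (G : Hyp .far ⟨D, RA, RB, RL⟩ κ e k1 lo1 hi1)
    (hj : j = 0 ∨ (j = 3 ∧ a = 2)) (hk : k = 7 ∨ (k = 3 ∧ c = 1)) :
    AltVB (VFD κ) D RA RL pc w101 a b c j k (-1) (-1) (1 - e) :=
  altFB h (Or.inr rfl) (Or.inr rfl) fun _ _ F hl => pB3m G hj hk F hl

theorem fAv (h : SideV D RA RL pc (1 - e)) (G : Hyp .far ⟨D, RA, RB, RL⟩ κ e k1 lo1 hi1)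
    (C : VCube .far ⟨D, RA, RB, RL⟩ κ e)
    (hj : j = 0 ∨ (j = 3 ∧ a = 2)) (hk : k = 0 ∨ (k = 3 ∧ b = 2)) :
    AltVA (VFD κ) D RA RL pc w112 a b c j k 1 (-1) (1 - e) :=
  altFA h (Or.inl rfl) (Or.inr rfl) fun _ _ F hl => pAv G.N C hj hk F hl

theorem fBvp (h : SideV D RA RL pc (1 - e)) (G : Hyp .far ⟨D, RA, RB, RL⟩ κ e k1 lo1 hi1)
    (C : VCube .far ⟨D, RA, RB, RL⟩ κ e)
    (hj : j = 0 ∨ (j = 3 ∧ a = 2)) :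
    AltVB (VFD κ) D RA RL pc t112 a b c j k 1 1 (1 - e) :=
  altFB h (Or.inl rfl) (Or.inl rfl) fun _ _ F hl => pBv' G.N C (Or.inl rfl) hj F hl

theorem fBvm (h : SideV D RA RL pc (1 - e)) (G : Hyp .far ⟨D, RA, RB, RL⟩ κ e k1 lo1 hi1)
    (C : VCube .far ⟨D, RA, RB, RL⟩ κ e)
    (hj : j = 0 ∨ (j = 3 ∧ a = 2)) :
    AltVB (VFD κ) D RA RL pc t112 a b c j k 1 (-1) (1 - e) :=
  altFB h (Or.inl rfl) (Or.inr rfl) fun _ _ F hl => pBv' G.N C (Or.inr rfl) hj F hl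

theorem nA1 (h : SideV D RB RL pc (1 - e)) (G : Hyp .near ⟨D, RA, RB, RL⟩ κ e k1 lo1 hi1)
    (hj : j = 0 ∨ j = 3 ∨ j = 4) (hk : k = 0 ∨ (k = 3 ∧ b = 2)) :
    AltVA (VND 3 κ) D RB RL pc t011 a b c j k 1 (-1) (1 - e) :=
  altNA h (Or.inl rfl) (Or.inr rfl) fun _ _ F hl => pA1 G hj hk F hl

theorem nA2 (h : SideV D RB RL pc (1 - e)) (G : Hyp .near ⟨D, RA, RB, RL⟩ κ e k1 lo1 hi1)
    (hk : k = 7 ∨ (k = 3 ∧ b = 1)) :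
    AltVA (VND 3 κ) D RB RL pc w011 a b c j k 1 (-1) (1 - e) :=
  altNA h (Or.inl rfl) (Or.inr rfl) fun _ _ F hl => pA2 G hk F hl

theorem nA3 (h : SideV D RB RL pc (1 - e)) (G : Hyp .near ⟨D, RA, RB, RL⟩ κ e k1 lo1 hi1)
    (hk : k = 0 ∨ (k = 3 ∧ b = 2)) :
    AltVA (VND 3 κ) D RB RL pc w011 a b c j k 1 1 (1 - e) :=
  altNA h (Or.inl rfl) (Or.inl rfl) fun _ _ F hl => pA3 G hk F hl

theorem nB1 (h : SideV D RB RL pc (1 - e)) (G : Hyp .near ⟨D, RA, RB, RL⟩ κ e k1 lo1 hi1)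
    (hj : j = 0 ∨ j = 3 ∨ j = 4) (hk : k = 0 ∨ (k = 3 ∧ c = 2)) :
    AltVB (VND 3 κ) D RB RL pc t011 a b c j k 1 1 (1 - e) :=
  altNB h (Or.inl rfl) (Or.inl rfl) fun _ _ F hl => pB1 G hj hk F hl

theorem nB2 (h : SideV D RB RL pc (1 - e)) (G : Hyp .near ⟨D, RA, RB, RL⟩ κ e k1 lo1 hi1)
    (hk : k = 0 ∨ (k = 3 ∧ c = 2)) :
    AltVB (VND 3 κ) D RB RL pc w011 a b c j k 1 (-1) (1 - e) :=
  altNB h (Or.inl rfl) (Or.inr rfl) fun _ _ F hl => pB2 G hk F hl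

theorem nB3 (h : SideV D RB RL pc (1 - e)) (G : Hyp .near ⟨D, RA, RB, RL⟩ κ e k1 lo1 hi1)
    (hk : k = 7 ∨ (k = 3 ∧ c = 1)) :
    AltVB (VND 3 κ) D RB RL pc w011 a b c j k 1 1 (1 - e) :=
  altNB h (Or.inl rfl) (Or.inl rfl) fun _ _ F hl => pB3 G hk F hl

theorem nA1m (h : SideV D RB RL pc (1 - e)) (G : Hyp .near ⟨D, RA, RB, RL⟩ κ e k1 lo1 hi1)
    (hk : k = 0 ∨ k = 3 ∨ k = 4) (hj : j = 0 ∨ (j = 3 ∧ a = 2)) :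
    AltVA (VND 3 κ) D RB RL pc t101 a b c j k 1 (-1) (1 - e) :=
  altNA h (Or.inl rfl) (Or.inr rfl) fun _ _ F hl => pA1m G hk hj F hl

theorem nA2m (h : SideV D RB RL pc (1 - e)) (G : Hyp .near ⟨D, RA, RB, RL⟩ κ e k1 lo1 hi1)
    (hj : j = 7 ∨ (j = 3 ∧ a = 1)) :
    AltVA (VND 3 κ) D RB RL pc w101 a b c j k 1 (-1) (1 - e) :=
  altNA h (Or.inl rfl) (Or.inr rfl) fun _ _ F hl => pA2m G hj F hl

theorem nA3m (h : SideV D RB RL pc (1 - e)) (G : Hyp .near ⟨D, RA, RB, RL⟩ κ e k1 lo1 hi1)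
    (hj : j = 0 ∨ (j = 3 ∧ a = 2)) :
    AltVA (VND 3 κ) D RB RL pc w101 a b c j k (-1) (-1) (1 - e) :=
  altNA h (Or.inr rfl) (Or.inr rfl) fun _ _ F hl => pA3m G hj F hl

theorem nB1m (h : SideV D RB RL pc (1 - e)) (G : Hyp .near ⟨D, RA, RB, RL⟩ κ e k1 lo1 hi1)
    (hj : j = 0 ∨ (j = 3 ∧ a = 2)) (hk : k = 0 ∨ (k = 3 ∧ c = 2)) :
    AltVB (VND 3 κ) D RB RL pc s101 a b c j k 1 (-1) (1 - e) :=
  altNB h (Or.inl rfl) (Or.inr rfl) fun _ _ F hl => pB1m G hj hk F hl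

theorem nB2m (h : SideV D RB RL pc (1 - e)) (G : Hyp .near ⟨D, RA, RB, RL⟩ κ e k1 lo1 hi1)
    (hj : j = 7 ∨ (j = 3 ∧ a = 1)) (hk : k = 0 ∨ (k = 3 ∧ c = 2)) :
    AltVB (VND 3 κ) D RB RL pc w101 a b c j k 1 1 (1 - e) :=
  altNB h (Or.inl rfl) (Or.inl rfl) fun _ _ F hl => pB2m G hj hk F hl

theorem nB3m (h : SideV D RB RL pc (1 - e)) (G : Hyp .near ⟨D, RA, RB, RL⟩ κ e k1 lo1 hi1)
    (hj : j = 0 ∨ (j = 3 ∧ a = 2)) (hk : k = 7 ∨ (k = 3 ∧ c = 1)) :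
    AltVB (VND 3 κ) D RB RL pc w101 a b c j k (-1) (-1) (1 - e) :=
  altNB h (Or.inr rfl) (Or.inr rfl) fun _ _ F hl => pB3m G hj hk F hl

theorem nAv (h : SideV D RB RL pc (1 - e)) (G : Hyp .near ⟨D, RA, RB, RL⟩ κ e k1 lo1 hi1)
    (C : VCube .near ⟨D, RA, RB, RL⟩ κ e)
    (hj : j = 0 ∨ (j = 3 ∧ a = 2)) (hk : k = 0 ∨ (k = 3 ∧ b = 2)) :
    AltVA (VND 3 κ) D RB RL pc w112 a b c j k 1 (-1) (1 - e) :=
  altNA h (Or.inl rfl) (Or.inr rfl) fun _ _ F hl => pAv G.N C hj hk F hl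

theorem nBvp (h : SideV D RB RL pc (1 - e)) (G : Hyp .near ⟨D, RA, RB, RL⟩ κ e k1 lo1 hi1)
    (C : VCube .near ⟨D, RA, RB, RL⟩ κ e)
    (hj : j = 0 ∨ (j = 3 ∧ a = 2)) :
    AltVB (VND 3 κ) D RB RL pc t112 a b c j k 1 1 (1 - e) :=
  altNB h (Or.inl rfl) (Or.inl rfl) fun _ _ F hl => pBv' G.N C (Or.inl rfl) hj F hl

theorem nBvm (h : SideV D RB RL pc (1 - e)) (G : Hyp .near ⟨D, RA, RB, RL⟩ κ e k1 lo1 hi1)
    (C : VCube .near ⟨D, RA, RB, RL⟩ κ e)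
    (hj : j = 0 ∨ (j = 3 ∧ a = 2)) :
    AltVB (VND 3 κ) D RB RL pc t112 a b c j k 1 (-1) (1 - e) :=
  altNB h (Or.inl rfl) (Or.inr rfl) fun _ _ F hl => pBv' G.N C (Or.inr rfl) hj F hl

end

end Pool.Agent.Strip051.LC.E1
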